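import Pool.Agent.N506.EXE

/-!
# Matrix groups over commutative fields are exact
-/

namespace Pool.Agent.N506.EX

universe u v w

open IsDedekindDomain Polynomial

/-- The discrete valuation of a height one prime. -/
noncomputable def DV.ofPrime {A : Type u} [CommRing A] [IsDedekindDomain A] {K : Type v} [Field K]
    [Algebra A K] [IsFractionRing A K] (v : HeightOneSpectrum A) : DV K where
  v x := -(WithZero.log (v.valuation K x))
  map_mul a b ha hb := by
    have ha' : v.valuation K a ≠ 0 := (Valuation.ne_zero_iff _).mpr ha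
    have hb' : v.valuation K b ≠ 0 := (Valuation.ne_zero_iff _).mpr hb
    rw [(v.valuation K).map_mul, WithZero.log_mul ha' hb']
    ring
  map_add a b ha hb hab := by
    have ha' : v.valuation K a ≠ 0 := (Valuation.ne_zero_iff _).mpr ha
    have hb' : v.valuation K b ≠ 0 := (Valuation.ne_zero_iff _).mpr hb
    have hab' : v.valuation K (a + b) ≠ 0 := (Valuation.ne_zero_iff _).mpr hab
    have := (v.valuation K).map_add a b
    rcases le_max_iff.mp this with h | h
    · have := (WithZero.log_le_log hab' ha').mpr h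
      exact (min_le_left _ _).trans (neg_le_neg this)
    · have := (WithZero.log_le_log hab' hb').mpr h
      exact (min_le_right _ _).trans (neg_le_neg this)
  t := Classical.choose (v.valuation_exists_uniformizer K)
  t_ne := v.valuation_uniformizer_ne_zero K
  v_t := by
    rw [Classical.choose_spec (v.valuation_exists_uniformizer K)]
    rfl

theorem DV.mem_ofPrime {A : Type u} [CommRing A] [IsDedekindDomain A] {K : Type v} [Field K]
    [Algebra A K] [IsFractionRing A K] (v : HeightOneSpectrum A) {m : ℤ} {x : K} :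
    x ∈ (DV.ofPrime (K := K) v).O m ↔ v.valuation K x ≤ WithZero.exp (-m) := by
  rw [DV.mem_O]
  by_cases hx : x = 0
  · simp [hx]
  · have hx' : v.valuation K x ≠ 0 := (Valuation.ne_zero_iff _).mpr hx
    rw [or_iff_right hx]
    have h1 : v.valuation K x = WithZero.exp (WithZero.log (v.valuation K x)) :=
      (WithZero.exp_log hx').symm
    rw [h1, WithZero.exp_le_exp]
    show m ≤ -(WithZero.log (v.valuation K x)) ↔ _
    omega

/-- Elements with bounded denominators. -/
theorem exists_clear {A : Type u} [CommRing A] [IsDedekindDomain A] {K : Type v} [Field K]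
    [Algebra A K] [IsFractionRing A K] (f : A) (hf : f ≠ 0) :
    ∃ P : Finset (HeightOneSpectrum A), ∀ S : ℕ, ∀ x : K,
      (∃ N : ℕ, ∃ a : A, algebraMap A K f ^ N * x = algebraMap A K a) →
      (∀ v ∈ P, x ∈ (DV.ofPrime (K := K) v).O (-(S : ℤ))) →
      ∃ a : A, algebraMap A K f ^ S * x = algebraMap A K a := by
  have hfin : {v : HeightOneSpectrum A | v.asIdeal ∣ Ideal.span {f}}.Finite :=
    Ideal.finite_factors (by simpa using hf)
  refine ⟨hfin.toFinset, fun S x hN hx => ?_⟩
  obtain ⟨N, a, ha⟩ := hN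
  have : algebraMap A K f ^ S * x ∈ (algebraMap A K).range := by
    refine HeightOneSpectrum.mem_integers_of_valuation_le_one K _ fun v => ?_
    rw [map_mul, map_pow]
    by_cases hv : v.asIdeal ∣ Ideal.span {f}
    · have h1 := DV.mem_ofPrime v |>.mp (hx v (by simpa using hv))
      have h2 : v.valuation K (algebraMap A K f) < 1 := (v.valuation_lt_one_iff_dvd f).mpr hv
      have h3 : v.valuation K (algebraMap A K f) ≤ WithZero.exp (-1) := by
        by_cases h0 : v.valuation K (algebraMap A K f) = 0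
        · rw [h0]; exact zero_le
        · rw [← WithZero.exp_log h0] at h2 ⊢
          rw [← WithZero.exp_zero, WithZero.exp_lt_exp] at h2
          rw [WithZero.exp_le_exp]
          omega
      calc v.valuation K (algebraMap A K f) ^ S * v.valuation K x
          ≤ WithZero.exp (-1) ^ S * WithZero.exp (-(-(S:ℤ))) :=
            mul_le_mul' (pow_le_pow_left' h3 S) h1
        _ = 1 := by
          rw [← WithZero.exp_nsmul, ← WithZero.exp_add]
          simp
    · have h2 : v.valuation K (algebraMap A K f) = 1 := by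
        apply le_antisymm (v.valuation_le_one f)
        rw [← not_lt]
        exact fun h => hv ((v.valuation_lt_one_iff_dvd f).mp h)
      rw [h2, one_pow, one_mul]
      have h3 := congrArg (v.valuation K) ha
      rw [map_mul, map_pow, h2, one_pow, one_mul] at h3
      rw [h3]
      exact v.valuation_le_one a
  obtain ⟨b, hb⟩ := this
  exact ⟨b, hb.symm⟩

/-- The field of fractions from the rings `A[1/f]`. -/
theorem MEx.of_away {A : Type u} [CommRing A] [IsDomain A] {K : Type v} [Field K]
    [Algebra A K] [IsFractionRing A K]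
    (h : ∀ f : A, f ≠ 0 → ∃ S : Subring K,
      (∀ x : K, (∃ N : ℕ, ∃ a : A, algebraMap A K f ^ N * x = algebraMap A K a) → x ∈ S) ∧
      MEx S) : MEx K := by
  classical
  refine MEx.of_local fun s => ?_
  obtain ⟨b, hb⟩ := IsLocalization.exist_integer_multiples_of_finset (nonZeroDivisors A) s
  obtain ⟨S, hS, hM⟩ := h b (nonZeroDivisors.coe_ne_zero b)
  refine ⟨S, fun x hx => hS x ⟨1, ?_⟩, hM⟩
  obtain ⟨a, ha⟩ := hb x hx
  refine ⟨a, ?_⟩
  rw [pow_one, ha, Algebra.smul_def]

/-- The ring `A[1/f]` inside the fraction field. -/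
def away (A : Type u) [CommRing A] (K : Type v) [Field K] [Algebra A K] (f : A) : Subring K where
  carrier := {x | ∃ N : ℕ, ∃ a : A, algebraMap A K f ^ N * x = algebraMap A K a}
  zero_mem' := ⟨0, 0, by simp⟩
  one_mem' := ⟨0, 1, by simp⟩
  add_mem' := by
    rintro x y ⟨N, a, ha⟩ ⟨M, b, hb⟩
    refine ⟨N + M, f ^ M * a + f ^ N * b, ?_⟩
    rw [map_add, map_mul, map_mul, ← ha, ← hb, map_pow, map_pow]
    ring
  mul_mem' := by
    rintro x y ⟨N, a, ha⟩ ⟨M, b, hb⟩
    refine ⟨N + M, a * b, ?_⟩
    rw [map_mul, ← ha, ← hb]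
    ring
  neg_mem' := by
    rintro x ⟨N, a, ha⟩
    refine ⟨N, -a, ?_⟩
    rw [map_neg, ← ha]
    ring

theorem mex_rat : MEx ℚ := by
  refine MEx.of_away (A := ℤ) (K := ℚ) fun m hm => ⟨away ℤ ℚ m, fun x hx => hx, ?_⟩
  obtain ⟨P, hP⟩ := exists_clear (A := ℤ) (K := ℚ) m hm
  intro n
  let fR : (away ℤ ℚ m) →+* ℝ := (Rat.castHom ℝ).comp (away ℤ ℚ m).subtype
  refine ExOn.step (Φ := fun r => (glMap n fR) ⁻¹' PhiR n r) (exh_PhiR.comap _)
    ((ctl_PhiR n).comap _) ?_
  intro S0
  refine ExOn.steps P (fun v r => (glMap n (away ℤ ℚ m).subtype) ⁻¹'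
      Phi (DV.ofPrime (K := ℚ) v) n r)
    (fun i _ => (exh_Phi _).comap _) (fun i _ => (ctl_Phi _).comap _) _ ?_
  intro S
  apply ExOn.of_finite
  -- all entries lie in a finite set
  let T : ℕ := P.sup S
  obtain ⟨N, hN⟩ := exists_nat_ge (|(m:ℝ)| ^ T * S0)
  let E : Set (away ℤ ℚ m) := {x | ∃ a : ℤ, |a| ≤ N ∧ (m:ℚ) ^ T * (x : ℚ) = a}
  have hE : E.Finite := by
    have h1 : ((fun a : ℤ => (a : ℚ) / (m:ℚ) ^ T) '' Set.Icc (-(N:ℤ)) N).Finite :=
      (Set.finite_Icc _ _).image _
    refine (h1.preimage (f := fun x : away ℤ ℚ m => (x : ℚ))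
      (Subtype.val_injective.injOn)).subset ?_
    rintro x ⟨a, ha, hx⟩
    refine ⟨a, abs_le.mp ha, ?_⟩
    simp only
    rw [← hx]
    have : (m:ℚ) ^ T ≠ 0 := pow_ne_zero _ (by exact_mod_cast hm)
    field_simp
  have hfin : {M : Fin n → Fin n → away ℤ ℚ m | ∀ i, M i ∈
      {f : Fin n → away ℤ ℚ m | ∀ j, f j ∈ E}}.Finite :=
    Set.Finite.pi' fun _ => Set.Finite.pi' fun _ => hE
  refine (hfin.preimage (f := fun g : (Matrix (Fin n) (Fin n) (away ℤ ℚ m))ˣ =>
    (g : Matrix (Fin n) (Fin n) (away ℤ ℚ m))) (Units.val_injective.injOn)).subset ?_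
  rintro g ⟨⟨-, hg1⟩, hg2⟩ i j
  simp only [Set.mem_iInter] at hg2
  set x := (g : Matrix (Fin n) (Fin n) (away ℤ ℚ m)) i j with hx
  obtain ⟨a, ha⟩ := hP T (x : ℚ) x.2 (by
    intro v hv
    have h1 := (hg2 v hv i j).1
    refine (DV.ofPrime (K := ℚ) v).O_anti ?_ h1
    have : S v ≤ T := Finset.le_sup hv
    omega)
  have ha' : (m:ℚ) ^ T * (x : ℚ) = a := by simpa using ha
  refine ⟨a, ?_, ha'⟩
  have h2 : |((x : ℚ) : ℝ)| ≤ S0 := hg1.1 i j
  have h3 : ((m:ℝ)) ^ T * ((x : ℚ) : ℝ) = a := by exact_mod_cast ha'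
  have h4 : |(a:ℝ)| ≤ N := by
    rw [← h3, abs_mul, abs_pow]
    exact (mul_le_mul_of_nonneg_left h2 (by positivity)).trans hN
  exact_mod_cast h4


/-- Finite-dimensional extensions. -/
theorem MEx.of_finiteDimensional (F : Type u) [Field F] (K : Type v) [Field K] [Algebra F K]
    [FiniteDimensional F K] (hF : MEx F) : MEx K := by
  classical
  let b := Module.finBasis F K
  exact (hF.matrix (Fin (Module.finrank F K))).of_injective
    (Algebra.leftMulMatrix b).toRingHom (Algebra.leftMulMatrix_injective b)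

/-- The place at infinity of the rational function field. -/
noncomputable def DV.infty (K : Type u) [Field K] : DV (RatFunc K) where
  v x := - RatFunc.intDegree x
  map_mul a b ha hb := by
    rw [RatFunc.intDegree_mul ha hb]
    ring
  map_add a b _ hb hab := by
    have := RatFunc.intDegree_add_le hb hab
    rcases le_max_iff.mp this with h | h
    · exact (min_le_left _ _).trans (neg_le_neg h)
    · exact (min_le_right _ _).trans (neg_le_neg h)
  t := RatFunc.X⁻¹
  t_ne := inv_ne_zero RatFunc.X_ne_zero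
  v_t := by
    rw [RatFunc.intDegree_inv, RatFunc.intDegree_X]
    ring

/-- Rational function fields. -/
theorem MEx.ratFunc {K : Type u} [Field K] (hK : MEx K) : MEx (RatFunc K) := by
  classical
  refine MEx.of_away (A := K[X]) (K := RatFunc K) fun f hf =>
    ⟨away K[X] (RatFunc K) f, fun x hx => hx, ?_⟩
  obtain ⟨P, hP⟩ := exists_clear (A := K[X]) (K := RatFunc K) f hf
  refine MEx.criterion (insert none (P.image some))
    (fun _ : Option (HeightOneSpectrum K[X]) => RatFunc K)
    (fun o => o.elim (DV.infty K) (fun v => DV.ofPrime (K := RatFunc K) v))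
    (fun _ => (away K[X] (RatFunc K) f).subtype) ?_
  intro S
  let T : ℕ := P.sup (fun v => S (some v))
  -- the modulus
  let d : ℕ := f.natDegree * T + S none + 1
  let Q : K[X] := f * X ^ d + 1
  have hfX : f * X ^ d ≠ 0 := mul_ne_zero hf (pow_ne_zero _ X_ne_zero)
  have hdegfX : (f * X ^ d).natDegree = f.natDegree + d := by
    rw [natDegree_mul hf (pow_ne_zero _ X_ne_zero), natDegree_X_pow]
  have hQdeg : d ≤ Q.natDegree := by
    have : Q.natDegree = f.natDegree + d := by
      rw [← hdegfX]
      refine natDegree_add_eq_left_of_natDegree_lt ?_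
      rw [hdegfX, natDegree_one]
      omega
    omega
  have hQ0 : Q ≠ 0 := by
    intro h
    rw [h, natDegree_zero] at hQdeg
    omega
  let pb := AdjoinRoot.powerBasis hQ0
  let μ : AdjoinRoot Q →ₐ[K] Matrix (Fin pb.dim) (Fin pb.dim) K := Algebra.leftMulMatrix pb.basis
  have hμ : Function.Injective μ := Algebra.leftMulMatrix_injective pb.basis
  -- `f` is invertible modulo `Q`
  have hinv : AdjoinRoot.mk Q f * AdjoinRoot.mk Q (-(X ^ d)) = 1 := by
    rw [← _root_.map_mul, ← _root_.map_one (AdjoinRoot.mk Q), AdjoinRoot.mk_eq_mk]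
    refine ⟨-1, ?_⟩
    simp only [Q]
    ring
  have hu : IsUnit (AdjoinRoot.mk Q f) := IsUnit.of_mul_eq_one _ hinv
  -- the homomorphism
  have hkey : ∀ x : away K[X] (RatFunc K) f, ∃ y : AdjoinRoot Q, ∀ N : ℕ, ∀ a : K[X],
      algebraMap K[X] (RatFunc K) f ^ N * (x : RatFunc K) = algebraMap K[X] (RatFunc K) a →
      AdjoinRoot.mk Q f ^ N * y = AdjoinRoot.mk Q a := by
    rintro ⟨x, N, a, ha⟩
    refine ⟨AdjoinRoot.mk Q (-(X ^ d)) ^ N * AdjoinRoot.mk Q a, fun M b hb => ?_⟩
    have h1 : f ^ M * a = f ^ N * b := by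
      apply IsFractionRing.injective K[X] (RatFunc K)
      rw [_root_.map_mul, _root_.map_mul, ← ha, ← hb, _root_.map_pow, _root_.map_pow]
      ring
    have h2 : AdjoinRoot.mk Q f ^ M * AdjoinRoot.mk Q a =
        AdjoinRoot.mk Q f ^ N * AdjoinRoot.mk Q b := by
      rw [← _root_.map_pow, ← _root_.map_pow, ← _root_.map_mul, ← _root_.map_mul, h1]
    calc AdjoinRoot.mk Q f ^ M * (AdjoinRoot.mk Q (-(X ^ d)) ^ N * AdjoinRoot.mk Q a)
        = AdjoinRoot.mk Q (-(X ^ d)) ^ N * (AdjoinRoot.mk Q f ^ M * AdjoinRoot.mk Q a) := by ring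
      _ = (AdjoinRoot.mk Q f * AdjoinRoot.mk Q (-(X ^ d))) ^ N * AdjoinRoot.mk Q b := by
          rw [h2]; ring
      _ = AdjoinRoot.mk Q b := by rw [hinv, one_pow, one_mul]
  choose y hy using hkey
  have huniq : ∀ x : away K[X] (RatFunc K) f, ∀ z : AdjoinRoot Q, ∀ N : ℕ, ∀ a : K[X],
      algebraMap K[X] (RatFunc K) f ^ N * (x : RatFunc K) = algebraMap K[X] (RatFunc K) a →
      AdjoinRoot.mk Q f ^ N * z = AdjoinRoot.mk Q a → y x = z := by
    intro x z N a ha hz
    have h1 := hy x N a ha
    rw [← hz] at h1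
    exact (hu.pow N).mul_left_cancel h1
  let φ : away K[X] (RatFunc K) f →+* AdjoinRoot Q :=
    { toFun := y
      map_one' := huniq 1 1 0 1 (by simp) (by simp)
      map_zero' := huniq 0 0 0 0 (by simp) (by simp)
      map_mul' := by
        intro a b
        obtain ⟨N, p, hp⟩ := a.2
        obtain ⟨M, q, hq⟩ := b.2
        refine huniq _ _ (N + M) (p * q) ?_ ?_
        · rw [_root_.map_mul, ← hp, ← hq, Subring.coe_mul]
          ring
        · rw [_root_.map_mul, ← hy a N p hp, ← hy b M q hq]
          ring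
      map_add' := by
        intro a b
        obtain ⟨N, p, hp⟩ := a.2
        obtain ⟨M, q, hq⟩ := b.2
        refine huniq _ _ (N + M) (f ^ M * p + f ^ N * q) ?_ ?_
        · rw [_root_.map_add, _root_.map_mul, _root_.map_mul, ← hp, ← hq, Subring.coe_add,
            _root_.map_pow, _root_.map_pow]
          ring
        · rw [_root_.map_add, _root_.map_mul, _root_.map_mul, ← hy a N p hp, ← hy b M q hq,
            _root_.map_pow, _root_.map_pow]
          ring }
  refine ⟨Matrix (Fin pb.dim) (Fin pb.dim) K, inferInstance, hK.matrix _, μ.toRingHom.comp φ, ?_⟩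
  -- the bounded elements
  have hbdd : ∀ x : away K[X] (RatFunc K) f,
      (∀ i ∈ insert none (P.image some), (x : RatFunc K) ∈ ((fun o :
        Option (HeightOneSpectrum K[X]) => o.elim (DV.infty K)
          (fun v => DV.ofPrime (K := RatFunc K) v)) i).O (-(S i : ℤ))) →
      ∃ p : K[X], p.degree < Q.degree ∧
        algebraMap K[X] (RatFunc K) f ^ T * (x : RatFunc K) = algebraMap K[X] (RatFunc K) p := by
    intro x hx
    obtain ⟨p, hp⟩ := hP T (x : RatFunc K) x.2 (by
      intro v hv
      have h1 := hx (some v) (Finset.mem_insert_of_mem (Finset.mem_image_of_mem _ hv))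
      refine (DV.ofPrime (K := RatFunc K) v).O_anti ?_ h1
      have : S (some v) ≤ T := Finset.le_sup (f := fun v => S (some v)) hv
      omega)
    refine ⟨p, ?_, hp⟩
    by_cases hp0 : p = 0
    · rw [hp0, degree_zero]
      exact bot_lt_iff_ne_bot.mpr (degree_ne_bot.mpr hQ0)
    rw [degree_eq_natDegree hp0, degree_eq_natDegree hQ0]
    have hx0 : (x : RatFunc K) ≠ 0 := by
      intro h
      rw [h, mul_zero] at hp
      exact hp0 ((map_eq_zero_iff _ (IsFractionRing.injective K[X] (RatFunc K))).mp hp.symm)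
    have hx1 := hx none (Finset.mem_insert_self _ _)
    have hx2 : -(S none : ℤ) ≤ - RatFunc.intDegree (x : RatFunc K) := hx1.resolve_left hx0
    have hpp := congrArg RatFunc.intDegree hp
    have hfne : algebraMap K[X] (RatFunc K) f ^ T ≠ 0 := pow_ne_zero _ (by
      rw [Ne, map_eq_zero_iff _ (IsFractionRing.injective K[X] (RatFunc K))]
      exact hf)
    rw [RatFunc.intDegree_mul hfne hx0, ← _root_.map_pow, RatFunc.intDegree_polynomial,
      RatFunc.intDegree_polynomial, natDegree_pow] at hpp
    have h3 : p.natDegree < d := by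
      simp only [d]
      have : (p.natDegree : ℤ) ≤ (f.natDegree * T + S none : ℕ) := by
        rw [← hpp]
        push_cast
        have := mul_comm (f.natDegree : ℤ) T
        omega
      have := (Nat.cast_le (α := ℤ)).mp this
      omega
    exact_mod_cast lt_of_lt_of_le h3 hQdeg
  intro a ha b hb hab
  have hab' : y a = y b := hμ hab
  obtain ⟨p, hpd, hp⟩ := hbdd a ha
  obtain ⟨q, hqd, hq⟩ := hbdd b hb
  have h1 := hy a T p hp
  have h2 := hy b T q hq
  rw [hab', h2, AdjoinRoot.mk_eq_mk] at h1
  have h3 : q - p = 0 := by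
    refine eq_zero_of_dvd_of_degree_lt h1 ?_
    exact lt_of_le_of_lt (degree_sub_le _ _) (max_lt hqd hpd)
  rw [sub_eq_zero] at h3
  subst h3
  apply Subtype.ext
  have h4 := hp.trans hq.symm
  refine mul_left_cancel₀ (pow_ne_zero _ ?_) h4
  rw [Ne, map_eq_zero_iff _ (IsFractionRing.injective K[X] (RatFunc K))]
  exact hf

open IntermediateField in
/-- Simple extensions. -/
theorem MEx.adjoin_simple {K : Type u} [Field K] {E : Type v} [Field E] [Algebra K E]
    (hK : MEx K) (x : E) : MEx K⟮x⟯ := by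
  by_cases hx : IsAlgebraic K x
  · have : FiniteDimensional K K⟮x⟯ := IntermediateField.adjoin.finiteDimensional hx.isIntegral
    exact MEx.of_finiteDimensional K _ hK
  · have e := RatFunc.algEquivOfTranscendental (K := K) x hx
    exact hK.ratFunc.of_injective (e.symm : K⟮x⟯ →+* RatFunc K) e.symm.injective

/-- Fields over a matrix-exact field. -/
theorem MEx.of_algebra {F : Type u} [Field F] {E : Type u} [Field E] [Algebra F E]
    (hF : MEx F) : MEx E := by
  classical
  refine MEx.of_local fun s => ?_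
  refine ⟨(IntermediateField.adjoin F (s : Set E)).toSubring,
    IntermediateField.subset_adjoin F _, ?_⟩
  refine IntermediateField.induction_on_adjoin_finset s
    (fun L : IntermediateField F E => MEx L.toSubring) ?_ ?_
  · exact hF.of_injective ((IntermediateField.botEquiv F E : _ ≃ₐ[F] F) :
      (⊥ : IntermediateField F E) →+* F) (IntermediateField.botEquiv F E).injective
  · intro L x _ hL
    have h1 : MEx L := hL
    exact h1.adjoin_simple x

/-- **All commutative fields are matrix-exact** (Guentner-Higson-Weinberger). -/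
theorem MEx.field (K : Type u) [Field K] : MEx K := by
  obtain ⟨p, hp⟩ := CharP.exists K
  rcases CharP.char_is_prime_or_zero K p with hprime | h0
  · have : Fact p.Prime := ⟨hprime⟩
    have h1 : MEx (ULift.{u} (ZMod p)) := MEx.of_finite
    let _ : Algebra (ULift.{u} (ZMod p)) K :=
      ((ZMod.castHom (dvd_refl p) K).comp (ULift.ringEquiv : ULift.{u} (ZMod p) ≃+* ZMod p).toRingHom).toAlgebra
    exact MEx.of_algebra h1
  · subst h0
    have : CharZero K := CharP.charP_to_charZero K
    have h1 : MEx (ULift.{u} ℚ) := mex_rat.of_injective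
      (ULift.ringEquiv : ULift.{u} ℚ ≃+* ℚ).toRingHom (ULift.ringEquiv).injective
    let _ : Algebra (ULift.{u} ℚ) K :=
      ((algebraMap ℚ K).comp (ULift.ringEquiv : ULift.{u} ℚ ≃+* ℚ).toRingHom).toAlgebra
    exact MEx.of_algebra h1

end Pool.Agent.N506.EX
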