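import Pool.Agent.N506.EXK

/-!
# Extensions of exact groups; group rings over arbitrary commutative rings
-/

namespace Pool.Agent.N506.EX

universe u v w

open scoped Classical in
theorem fib_match {Ω Ω' : Type} [Fintype Ω] [Fintype Ω'] {ε : ℝ} (hε : 0 < ε) (W : Finset Ω)
    (p : Ω → Ω) (hp : Set.InjOn p W) (hc : (1 - ε / 2) * (Fintype.card Ω : ℝ) ≤ (W.card : ℝ))
    (W' : Ω → Finset Ω') (p' : Ω → Ω' → Ω') (hp' : ∀ w ∈ W, Set.InjOn (p' w) (W' w))
    (hc' : ∀ w ∈ W, (1 - ε / 2) * (Fintype.card Ω' : ℝ) ≤ ((W' w).card : ℝ)) :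
    ∃ V : Finset (Ω × Ω'), (∀ x, x ∈ V ↔ x.1 ∈ W ∧ x.2 ∈ W' x.1) ∧
      Set.InjOn (fun x : Ω × Ω' => (p x.1, p' x.1 x.2)) V ∧
      (1 - ε) * (Fintype.card (Ω × Ω') : ℝ) ≤ (V.card : ℝ) := by
  refine ⟨W.biUnion fun w => (W' w).image fun w' => (w, w'), ?_, ?_, ?_⟩
  · rintro ⟨x1, x2⟩
    simp only [Finset.mem_biUnion, Finset.mem_image, Prod.mk.injEq]
    constructor
    · rintro ⟨a, ha, b, hb, rfl, rfl⟩
      exact ⟨ha, hb⟩
    · rintro ⟨ha, hb⟩
      exact ⟨x1, ha, x2, hb, rfl, rfl⟩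
  · intro x hx y hy hxy
    simp only [Finset.coe_biUnion, Set.mem_iUnion, Finset.mem_coe, Finset.mem_image] at hx hy
    obtain ⟨x1, hx1, x2, hx2, rfl⟩ := hx
    obtain ⟨y1, hy1, y2, hy2, rfl⟩ := hy
    simp only [Prod.mk.injEq] at hxy
    have e1 := hp hx1 hy1 hxy.1
    subst e1
    have e2 := hp' _ hx1 hx2 hy2 hxy.2
    rw [e2]
  · rw [Finset.card_biUnion]
    · have h1 : ∀ w ∈ W, ((1 - ε / 2) * (Fintype.card Ω' : ℝ)) ≤
          (((W' w).image fun w' => (w, w')).card : ℝ) := by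
        intro w hw
        rw [Finset.card_image_of_injective _ (Prod.mk_right_injective w)]
        exact hc' _ hw
      rw [Nat.cast_sum, Fintype.card_prod, Nat.cast_mul]
      have h2 : (W.card : ℝ) * ((1 - ε / 2) * (Fintype.card Ω' : ℝ)) ≤
          ∑ w ∈ W, (((W' w).image fun w' => (w, w')).card : ℝ) := by
        rw [← nsmul_eq_mul]
        exact Finset.card_nsmul_le_sum _ _ _ h1
      refine le_trans ?_ h2
      have h3 : (W.card : ℝ) ≤ Fintype.card Ω := by exact_mod_cast Finset.card_le_univ W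
      have h4 : (0:ℝ) ≤ Fintype.card Ω' := Nat.cast_nonneg _
      have h5 : (0:ℝ) ≤ W.card := Nat.cast_nonneg _
      by_cases hε1 : ε ≤ 2
      · have h6 : (1 - ε / 2) * (Fintype.card Ω : ℝ) * ((1 - ε / 2) * (Fintype.card Ω' : ℝ)) ≤
            (W.card : ℝ) * ((1 - ε / 2) * (Fintype.card Ω' : ℝ)) := by
          refine mul_le_mul_of_nonneg_right hc ?_
          exact mul_nonneg (by linarith) h4
        refine le_trans ?_ h6
        have h7 : (0:ℝ) ≤ (Fintype.card Ω : ℝ) * Fintype.card Ω' := by positivity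
        nlinarith [sq_nonneg ε]
      · have hε2 : 2 < ε := not_le.mp hε1
        have h6 : (W.card : ℝ) * ((ε / 2 - 1) * (Fintype.card Ω' : ℝ)) ≤
            (Fintype.card Ω : ℝ) * ((ε / 2 - 1) * (Fintype.card Ω' : ℝ)) := by
          refine mul_le_mul_of_nonneg_right h3 ?_
          exact mul_nonneg (by linarith) h4
        have h7 : (0:ℝ) ≤ (Fintype.card Ω : ℝ) * Fintype.card Ω' := by positivity
        nlinarith
    · intro x _ y _ hxy
      rw [Function.onFun, Finset.disjoint_left]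
      intro z hz1 hz2
      rw [Finset.mem_image] at hz1 hz2
      obtain ⟨z1, -, rfl⟩ := hz1
      obtain ⟨z2, -, h2⟩ := hz2
      exact hxy (congrArg Prod.fst h2).symm

/-- Exactness passes to extensions. -/
theorem Ex.ext {G : Type u} [Group G] {L : Type v} [Group L] (π : G →* L) (hL : Ex L)
    (hK : Ex π.ker) : Ex G := by
  classical
  intro F hF ε hε
  obtain ⟨E', hE', Ω, _, _, Y, a, h1, h2⟩ := hL (π '' F) (hF.image _) (ε / 2) (by positivity)
  -- a section over the image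
  let ℓ : L → G := fun x => if h : ∃ g, π g = x then h.choose else 1
  have hℓ : ∀ g : G, π (ℓ (π g)) = π g := by
    intro g
    have hex : ∃ g', π g' = π g := ⟨g, rfl⟩
    simp only [ℓ, dif_pos hex]
    exact hex.choose_spec
  -- reference elements
  let r : Y → G := fun y => if h : ∃ g : G, ∃ w, a (π g) w = y then h.choose else 1
  have hr : ∀ g w, ∃ w', a (π (r (a (π g) w))) w' = a (π g) w := by
    intro g w
    have hex : ∃ g' : G, ∃ w', a (π g') w' = a (π g) w := ⟨g, w, rfl⟩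
    simp only [r, dif_pos hex]
    exact hex.choose_spec
  have hrE : ∀ g w, (π g)⁻¹ * π (r (a (π g) w)) ∈ E' := by
    intro g w
    obtain ⟨w', hw'⟩ := hr g w
    exact h2 _ _ _ _ hw'.symm trivial
  let e : G → Y → L := fun g y => (π g)⁻¹ * π (r y)
  let m : G → Y → G := fun g y => (r y)⁻¹ * g * ℓ (e g y)
  have hm : ∀ g y, m g y ∈ π.ker := by
    intro g y
    rw [MonoidHom.mem_ker]
    have h3 : e g y = π (g⁻¹ * r y) := by simp [e]
    show π ((r y)⁻¹ * g * ℓ (e g y)) = 1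
    rw [map_mul, h3, hℓ, map_mul, map_mul, map_inv, map_inv]
    group
  let C : Set π.ker := {x | ∃ s ∈ F, ∃ e1 ∈ E', ∃ e2 ∈ E', (x : G) = (ℓ e1)⁻¹ * s * ℓ e2}
  have hC : C.Finite := by
    have h3 : (Set.image2 (fun (s : G) (e : L × L) => (ℓ e.1)⁻¹ * s * ℓ e.2) F
      (E' ×ˢ E')).Finite := hF.image2 _ (hE'.prod hE')
    refine (h3.preimage (Subtype.val_injective.injOn (s := Set.univ) |>.mono
      (Set.subset_univ _))).subset ?_
    rintro x ⟨s, hs, e1, he1, e2, he2, hx⟩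
    exact ⟨s, hs, (e1, e2), ⟨he1, he2⟩, hx.symm⟩
  obtain ⟨E'', hE'', Ω', _, _, Y', a', k1, k2⟩ := hK C hC (ε / 2) (by positivity)
  refine ⟨Set.image2 (fun (x : G) (e : L × L) => ℓ e.1 * x * (ℓ e.2)⁻¹)
    ((fun x : π.ker => (x : G)) '' E'') (E' ×ˢ E'),
    (hE''.image _).image2 _ (hE'.prod hE'), ?_⟩
  refine Wf.of (Ω × Ω') (Y × Y') (fun g w => (a (π g) w.1,
    a' ⟨m g (a (π g) w.1), hm g _⟩ w.2)) ?_ ?_
  · intro g s hs
    obtain ⟨W, p, hp, hW, hc⟩ := h1 (π g) (π s) (Set.mem_image_of_mem _ hs)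
    -- increments
    have hinc : ∀ w ∈ W, (⟨m g (a (π g) w), hm g _⟩ : π.ker)⁻¹ *
        ⟨m (g * s) (a (π g) w), hm _ _⟩ ∈ C := by
      intro w hw
      refine ⟨s, hs, e g (a (π g) w), hrE g w, e (g * s) (a (π g) w), ?_, ?_⟩
      · have h4 : a (π g) w = a (π (g * s)) (p w) := by rw [map_mul]; exact hW w hw
        show (π (g * s))⁻¹ * π (r (a (π g) w)) ∈ E'
        rw [h4]
        exact hrE (g * s) (p w)
      · show (m g (a (π g) w))⁻¹ * m (g * s) (a (π g) w) = _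
        simp only [m]
        group
    have hk : ∀ w ∈ W, ∃ (W' : Finset Ω') (p' : Ω' → Ω'), Set.InjOn p' W' ∧
        (∀ w' ∈ W', a' ⟨m g (a (π g) w), hm g _⟩ w' =
          a' ⟨m (g * s) (a (π g) w), hm _ _⟩ (p' w')) ∧
        (1 - ε / 2) * (Fintype.card Ω' : ℝ) ≤ (W'.card : ℝ) := by
      intro w hw
      obtain ⟨W', p', i1, i2, i3⟩ := k1 ⟨m g (a (π g) w), hm g _⟩ _ (hinc w hw)
      refine ⟨W', p', i1, ?_, i3⟩
      intro w' hw'
      rw [i2 w' hw', mul_inv_cancel_left]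
    choose! W' p' hp' hW' hc' using hk
    obtain ⟨V, hV1, hV2, hV3⟩ := fib_match hε W p hp hc W' p' hp' hc'
    refine ⟨V, _, hV2, ?_, hV3⟩
    rintro ⟨w, w'⟩ hw
    obtain ⟨hw1, hw2⟩ := (hV1 _).mp hw
    have h4 : a (π (g * s)) (p w) = a (π g) w := by rw [map_mul]; exact (hW w hw1).symm
    simp only [Prod.mk.injEq]
    refine ⟨h4.symm, ?_⟩
    rw [hW' w hw1 w' hw2]
    congr 1
    apply Subtype.ext
    show m (g * s) (a (π g) w) = m (g * s) (a (π (g * s)) (p w))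
    rw [h4]
  · rintro g h ⟨w, w'⟩ ⟨v, v'⟩ hh _
    simp only [Prod.mk.injEq] at hh
    obtain ⟨hy, hy'⟩ := hh
    have h4 := k2 _ _ _ _ hy' trivial
    have h5 := hrE g w
    have h6 := hrE h v
    rw [← hy] at h6
    refine ⟨(m g (a (π g) w))⁻¹ * m h (a (π h) v), ⟨_, h4, rfl⟩,
      (e g (a (π g) w), e h (a (π g) w)), ⟨h5, h6⟩, ?_⟩
    rw [← hy]
    simp only [m]
    group

end Pool.Agent.N506.EX
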