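import Mathlib

/-!
# Exactness (property A) of groups, combinatorial form

`Wf G F ε B E` (a witness family): a finite sample space `Ω` and maps `a g : Ω → Y` such that
`a g` and `a (g * s)` agree up to a partial injection on a proportion `1 - ε` of `Ω` for `s ∈ F`,
and such that two of them can only meet when `g⁻¹ * h ∉ B` or `g⁻¹ * h ∈ E`.
-/

namespace Pool.Agent.N506.EX

universe u v w

/-- A witness family on `G`: the almost invariance is `ε` for right multiplication by elements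
of `F`; the values of `a g`, `a h` with `g⁻¹ * h ∈ B` only meet when `g⁻¹ * h ∈ E`. -/
def Wf (G : Type u) [Group G] (F : Set G) (ε : ℝ) (B E : Set G) : Prop :=
  ∃ (Ω : Type) (_ : Fintype Ω) (_ : Nonempty Ω) (Y : Type u) (a : G → Ω → Y),
    (∀ g, ∀ s ∈ F, ∃ (W : Finset Ω) (p : Ω → Ω), Set.InjOn p W ∧
      (∀ w ∈ W, a g w = a (g * s) (p w)) ∧
      (1 - ε) * (Fintype.card Ω : ℝ) ≤ (W.card : ℝ)) ∧
    ∀ g h w w', a g w = a h w' → g⁻¹ * h ∈ B → g⁻¹ * h ∈ E

/-- The value set may live in any universe. -/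
theorem Wf.of {G : Type u} [Group G] {F : Set G} {ε : ℝ} {B E : Set G}
    (Ω : Type) [Fintype Ω] [Nonempty Ω] (Y : Type v) (a : G → Ω → Y)
    (h1 : ∀ g, ∀ s ∈ F, ∃ (W : Finset Ω) (p : Ω → Ω), Set.InjOn p W ∧
      (∀ w ∈ W, a g w = a (g * s) (p w)) ∧
      (1 - ε) * (Fintype.card Ω : ℝ) ≤ (W.card : ℝ))
    (h2 : ∀ g h w w', a g w = a h w' → g⁻¹ * h ∈ B → g⁻¹ * h ∈ E) :
    Wf G F ε B E := by
  let r : Setoid (G × Ω) := Setoid.ker (fun x : G × Ω => a x.1 x.2)
  refine ⟨Ω, inferInstance, inferInstance, Quotient r, fun g w => Quotient.mk r (g, w), ?_, ?_⟩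
  · intro g s hs
    obtain ⟨W, p, hp, hW, hc⟩ := h1 g s hs
    exact ⟨W, p, hp, fun w hw => Quotient.sound (hW w hw), hc⟩
  · intro g h w w' hh hB
    exact h2 g h w w' (Quotient.exact hh) hB

theorem Wf.mono {G : Type u} [Group G] {F F' : Set G} {ε ε' : ℝ} {B B' E E' : Set G}
    (h : Wf G F ε B E) (hF : F' ⊆ F) (hε : ε ≤ ε') (hBE : B' ∩ E ⊆ E') (hB : B' ⊆ B) :
    Wf G F' ε' B' E' := by
  obtain ⟨Ω, _, _, Y, a, h1, h2⟩ := h
  refine ⟨Ω, inferInstance, inferInstance, Y, a, ?_, ?_⟩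
  · intro g s hs
    obtain ⟨W, p, hp, hW, hc⟩ := h1 g s (hF hs)
    refine ⟨W, p, hp, hW, le_trans ?_ hc⟩
    have : (0:ℝ) ≤ Fintype.card Ω := Nat.cast_nonneg _
    nlinarith
  · intro g h w w' hh hb
    exact hBE ⟨hb, h2 g h w w' hh (hB hb)⟩

/-- Product of witness families. -/
theorem Wf.prod {G : Type u} [Group G] {F : Set G} {ε δ : ℝ} {B E E' : Set G}
    (hε : 0 ≤ ε) (hδ : 0 ≤ δ)
    (h : Wf G F ε B E) (h' : Wf G F δ (B ∩ E) E') : Wf G F (ε + δ) B E' := by
  obtain ⟨Ω, _, _, Y, a, h1, h2⟩ := h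
  obtain ⟨Ω', _, _, Y', a', h1', h2'⟩ := h'
  refine ⟨Ω × Ω', inferInstance, inferInstance, Y × Y', fun g w => (a g w.1, a' g w.2), ?_, ?_⟩
  · intro g s hs
    obtain ⟨W, p, hp, hW, hc⟩ := h1 g s hs
    obtain ⟨W', p', hp', hW', hc'⟩ := h1' g s hs
    refine ⟨W ×ˢ W', fun w => (p w.1, p' w.2), ?_, ?_, ?_⟩
    · intro x hx y hy hxy
      simp only [Finset.coe_product, Set.mem_prod, Finset.mem_coe] at hx hy
      simp only [Prod.mk.injEq] at hxy
      exact Prod.ext (hp hx.1 hy.1 hxy.1) (hp' hx.2 hy.2 hxy.2)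
    · intro w hw
      rw [Finset.mem_product] at hw
      simp only [Prod.mk.injEq]
      exact ⟨hW _ hw.1, hW' _ hw.2⟩
    · rw [Fintype.card_prod, Finset.card_product]
      push_cast
      have hn : (0:ℝ) < Fintype.card Ω := by exact_mod_cast Fintype.card_pos
      have hn' : (0:ℝ) < Fintype.card Ω' := by exact_mod_cast Fintype.card_pos
      have hw1 : (W.card : ℝ) ≤ Fintype.card Ω := by
        exact_mod_cast Finset.card_le_univ W
      have hw1' : (W'.card : ℝ) ≤ Fintype.card Ω' := by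
        exact_mod_cast Finset.card_le_univ W'
      have e1 : (Fintype.card Ω : ℝ) - W.card ≤ ε * Fintype.card Ω := by linarith
      have e2 : (Fintype.card Ω' : ℝ) - W'.card ≤ δ * Fintype.card Ω' := by linarith
      have e3 : ((Fintype.card Ω : ℝ) - W.card) * Fintype.card Ω' ≤
          ε * Fintype.card Ω * Fintype.card Ω' := mul_le_mul_of_nonneg_right e1 hn'.le
      have e4 : (Fintype.card Ω : ℝ) * ((Fintype.card Ω' : ℝ) - W'.card) ≤
          Fintype.card Ω * (δ * Fintype.card Ω') := mul_le_mul_of_nonneg_left e2 hn.le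
      have e5 : 0 ≤ ((Fintype.card Ω : ℝ) - W.card) * ((Fintype.card Ω' : ℝ) - W'.card) :=
        mul_nonneg (by linarith) (by linarith)
      nlinarith
  · intro g h w w' hh hB
    simp only [Prod.mk.injEq] at hh
    exact h2' g h _ _ hh.2 ⟨hB, h2 g h _ _ hh.1 hB⟩

/-- Pull back along a map `q : G → H` which need not be a homomorphism. -/
theorem Wf.comap {G : Type u} [Group G] {H : Type v} [Group H] {F : Set G} {F' : Set H} {ε : ℝ}
    {B E : Set G} {B' E' : Set H} (q : G → H)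
    (h : Wf H F' ε B' E')
    (h1 : ∀ g, ∀ s ∈ F, (q g)⁻¹ * q (g * s) ∈ F')
    (h3 : ∀ g h, g⁻¹ * h ∈ B → (q g)⁻¹ * q h ∈ B')
    (h2 : ∀ g h, g⁻¹ * h ∈ B → (q g)⁻¹ * q h ∈ E' → g⁻¹ * h ∈ E) :
    Wf G F ε B E := by
  obtain ⟨Ω, _, _, Y, a, k1, k2⟩ := h
  refine Wf.of Ω Y (fun g w => a (q g) w) ?_ ?_
  · intro g s hs
    obtain ⟨W, p, hp, hW, hc⟩ := k1 (q g) _ (h1 g s hs)
    refine ⟨W, p, hp, fun w hw => ?_, hc⟩
    rw [hW w hw]
    congr 1
    group
  · intro g h w w' hh hB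
    exact h2 g h hB (k2 _ _ _ _ hh (h3 g h hB))

/-- `G` is exact along the set `B`. -/
def ExOn (G : Type u) [Group G] (B : Set G) : Prop :=
  ∀ F : Set G, F.Finite → ∀ ε : ℝ, 0 < ε → ∃ E : Set G, E.Finite ∧ Wf G F ε B E

/-- Exactness of the group `G` (in the witness family form). -/
def Ex (G : Type u) [Group G] : Prop := ExOn G Set.univ

/-- Controlled exactness for the filtration `Φ`. -/
def Ctl (G : Type u) [Group G] (Φ : ℕ → Set G) : Prop :=
  ∀ R : ℕ, ∀ ε : ℝ, 0 < ε → ∃ S : ℕ, Wf G (Φ R) ε Set.univ (Φ S)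

/-- The filtration swallows finite sets. -/
def Exh {G : Type u} (Φ : ℕ → Set G) : Prop := ∀ F : Set G, F.Finite → ∃ R, F ⊆ Φ R

theorem ExOn.step {G : Type u} [Group G] {Φ : ℕ → Set G} (hex : Exh Φ) (hc : Ctl G Φ)
    {B : Set G} (hB : ∀ S, ExOn G (B ∩ Φ S)) : ExOn G B := by
  intro F hF ε hε
  obtain ⟨R, hR⟩ := hex F hF
  obtain ⟨S, hS⟩ := hc R (ε / 2) (by positivity)
  obtain ⟨E, hE, hW⟩ := hB S F hF (ε / 2) (by positivity)
  refine ⟨E, hE, ?_⟩
  have := Wf.prod (B := B) (by positivity) (by positivity)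
    (hS.mono hR le_rfl (B' := B) (E' := Φ S) Set.inter_subset_right (Set.subset_univ _)) hW
  rwa [add_halves] at this

/-- Several filtrations at once. -/
theorem ExOn.steps {G : Type u} [Group G] {ι : Type*} (P : Finset ι) (Φ : ι → ℕ → Set G)
    (hex : ∀ i ∈ P, Exh (Φ i)) (hc : ∀ i ∈ P, Ctl G (Φ i)) :
    ∀ B : Set G, (∀ S : ι → ℕ, ExOn G (B ∩ ⋂ i ∈ P, Φ i (S i))) → ExOn G B := by
  classical
  induction P using Finset.induction_on with
  | empty =>
    intro B h
    simpa using h (fun _ => 0)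
  | insert i P hi ih =>
    intro B h
    refine ExOn.step (hex i (Finset.mem_insert_self _ _)) (hc i (Finset.mem_insert_self _ _)) ?_
    intro S
    refine ih (fun j hj => hex j (Finset.mem_insert_of_mem hj))
      (fun j hj => hc j (Finset.mem_insert_of_mem hj)) _ ?_
    intro S'
    have := h (fun j => if j = i then S else S' j)
    convert this using 1
    rw [Finset.set_biInter_insert, if_pos rfl, Set.inter_assoc]
    congr 2
    ext x
    simp only [Set.mem_iInter]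
    refine forall_congr' fun j => forall_congr' fun hj => ?_
    rw [if_neg]
    rintro rfl
    exact hi hj

/-- Restriction to a smaller set. -/
theorem ExOn.mono {G : Type u} [Group G] {B B' : Set G} (h : ExOn G B) (hB : B' ⊆ B) :
    ExOn G B' := by
  intro F hF ε hε
  obtain ⟨E, hE, hW⟩ := h F hF ε hε
  exact ⟨E, hE, hW.mono subset_rfl le_rfl Set.inter_subset_right hB⟩

/-- A finite set `B`. -/
theorem ExOn.of_finite {G : Type u} [Group G] {B : Set G} (hB : B.Finite) : ExOn G B := by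
  intro F _ ε hε
  refine ⟨B, hB, Wf.of Unit Unit (fun _ _ => ()) ?_ ?_⟩
  · intro g s _
    refine ⟨Finset.univ, id, Function.injective_id.injOn, fun _ _ => rfl, ?_⟩
    simp
    linarith
  · intro g h _ _ _ hb
    exact hb

/-- Base: a map to an exact group with finite fibres along `B`. -/
theorem ExOn.of_map {G : Type u} [Group G] {L : Type v} [Group L] (hL : Ex L) (q : G → L)
    {B : Set G}
    (h1 : ∀ F : Set G, F.Finite → {x | ∃ g, ∃ s ∈ F, x = (q g)⁻¹ * q (g * s)}.Finite)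
    (h2 : ∀ E' : Set L, E'.Finite → {x | x ∈ B ∧ ∃ g h, x = g⁻¹ * h ∧ (q g)⁻¹ * q h ∈ E'}.Finite) :
    ExOn G B := by
  intro F hF ε hε
  obtain ⟨E', hE', hW⟩ := hL _ (h1 F hF) ε hε
  refine ⟨_, h2 E' hE', Wf.comap q hW (fun g s hs => ⟨g, s, hs, rfl⟩) (fun _ _ _ => trivial) ?_⟩
  intro g h hb he
  exact ⟨hb, g, h, rfl, he⟩

/-- Base: a homomorphism to an exact group with finite fibres along `B`. -/
theorem ExOn.of_hom {G : Type u} [Group G] {L : Type v} [Group L] (hL : Ex L) (q : G →* L)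
    {B : Set G} (h2 : ∀ x, {b | b ∈ B ∧ q b = x}.Finite) :
    ExOn G B := by
  refine ExOn.of_map hL q ?_ ?_
  · intro F hF
    refine (hF.image q).subset ?_
    rintro x ⟨g, s, hs, rfl⟩
    exact ⟨s, hs, by simp⟩
  · intro E' hE'
    refine (hE'.biUnion (fun x _ => h2 x)).subset ?_
    rintro x ⟨hx, g, h, rfl, he⟩
    simp only [Set.mem_iUnion, Set.mem_setOf_eq]
    exact ⟨_, he, hx, by simp⟩

/-- A homomorphism to an exact group which is injective on `B`. -/
theorem ExOn.of_injOn {G : Type u} [Group G] {L : Type v} [Group L] (hL : Ex L) (q : G →* L)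
    {B : Set G} (h2 : Set.InjOn q B) : ExOn G B := by
  refine ExOn.of_hom hL q fun x => Set.Subsingleton.finite ?_
  rintro a ⟨ha, rfl⟩ b ⟨hb, hb'⟩
  exact h2 ha hb hb'.symm

theorem Ex.of_injective {G : Type u} [Group G] {L : Type v} [Group L] (hL : Ex L) (q : G →* L)
    (h2 : Function.Injective q) : Ex G := ExOn.of_injOn hL q h2.injOn

theorem Ex.subgroup {L : Type v} [Group L] (hL : Ex L) (H : Subgroup L) : Ex H :=
  Ex.of_injective hL H.subtype H.subtype_injective

theorem Ex.of_finite {G : Type u} [Group G] [Finite G] : Ex G :=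
  ExOn.of_finite Set.finite_univ

theorem Ex.equiv {G : Type u} [Group G] {L : Type v} [Group L] (e : G ≃* L) : Ex G ↔ Ex L :=
  ⟨fun h => Ex.of_injective h e.symm.toMonoidHom e.symm.injective,
   fun h => Ex.of_injective h e.toMonoidHom e.injective⟩

/-- Exactness is a local property: it is enough to know it for finitely generated subgroups. -/
theorem Ex.of_fg {G : Type u} [Group G]
    (h : ∀ H : Subgroup G, H.FG → Ex H) : Ex G := by
  classical
  intro F hF ε hε
  obtain ⟨F, rfl⟩ := hF.exists_finset_coe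
  set H : Subgroup G := Subgroup.closure (F : Set G) with hH
  obtain ⟨E, hE, Ω, _, _, Y, a, h1, h2⟩ := h H ⟨F, rfl⟩
    {x : H | (x : G) ∈ (F : Set G)} (Set.Finite.preimage Subtype.val_injective.injOn
      (F.finite_toSet)) ε hε
  have hq : ∀ g : G, ((QuotientGroup.mk g : G ⧸ H).out)⁻¹ * g ∈ H := by
    intro g
    exact QuotientGroup.leftRel_apply.mp (Quotient.mk_out (s := QuotientGroup.leftRel H) g)
  refine ⟨Subtype.val '' E, hE.image _, ?_⟩
  refine Wf.of Ω ((G ⧸ H) × Y) (fun g w => (QuotientGroup.mk g, a ⟨_, hq g⟩ w)) ?_ ?_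
  · intro g s hs
    have hsH : s ∈ H := Subgroup.subset_closure hs
    obtain ⟨W, p, hp, hW, hc⟩ := h1 ⟨_, hq g⟩ ⟨s, hsH⟩ hs
    refine ⟨W, p, hp, ?_, hc⟩
    intro w hw
    have hgs : (QuotientGroup.mk (g * s) : G ⧸ H) = QuotientGroup.mk g := by
      rw [QuotientGroup.eq]
      have : (g * s)⁻¹ * g = s⁻¹ := by group
      rw [this]
      exact H.inv_mem hsH
    simp only [Prod.mk.injEq]
    refine ⟨hgs.symm, ?_⟩
    rw [hW w hw]
    congr 1
    apply Subtype.ext
    simp only [Subgroup.coe_mul]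
    rw [hgs, mul_assoc]
  · intro g h w w' hh _
    simp only [Prod.mk.injEq] at hh
    have := h2 _ _ _ _ hh.2 trivial
    refine ⟨_, this, ?_⟩
    simp only [Subgroup.coe_mul, Subgroup.coe_inv]
    rw [hh.1]
    group

/-- Finite products. -/
theorem Ex.prod {G : Type u} [Group G] {L : Type v} [Group L] (hG : Ex G) (hL : Ex L) :
    Ex (G × L) := by
  intro F hF ε hε
  obtain ⟨E, hE, hW⟩ := hG (Prod.fst '' F) (hF.image _) (ε / 2) (by positivity)
  obtain ⟨E', hE', hW'⟩ := hL (Prod.snd '' F) (hF.image _) (ε / 2) (by positivity)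
  refine ⟨E ×ˢ E', hE.prod hE', ?_⟩
  have a1 : Wf (G × L) F (ε / 2) Set.univ (Prod.fst ⁻¹' E) :=
    Wf.comap Prod.fst hW (fun g s hs => ⟨s, hs, by simp⟩) (fun _ _ _ => trivial)
      (fun g h _ he => by simpa using he)
  have a2 : Wf (G × L) F (ε / 2) (Set.univ ∩ Prod.fst ⁻¹' E) (E ×ˢ E') :=
    Wf.comap Prod.snd hW' (fun g s hs => ⟨s, hs, by simp⟩) (fun _ _ _ => trivial)
      (fun g h hb he => ⟨hb.2, by simpa using he⟩)
  have := Wf.prod (by positivity) (by positivity) a1 a2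
  rwa [add_halves] at this

end Pool.Agent.N506.EX
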