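import Pool.Agent.N506.EX0
import Pool.Agent.N506.EXA

/-!
# The combinatorial form of exactness is equivalent to the usual one; coarse embeddings
-/

namespace Pool.Agent.N506.EX

universe u v w

section l1

variable {X : Type u}

/-- The `ℓ¹`-norm. -/
noncomputable def l1 (f : X →₀ ℝ) : ℝ := f.sum fun _ t => |t|

theorem l1_eq (f : X →₀ ℝ) (S : Finset X) (h : f.support ⊆ S) : l1 f = ∑ x ∈ S, |f x| :=
  Finsupp.sum_of_support_subset f h _ (fun _ _ => abs_zero)

theorem l1_add_le (f g : X →₀ ℝ) : l1 (f + g) ≤ l1 f + l1 g := by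
  classical
  rw [l1_eq (f + g) (f.support ∪ g.support) Finsupp.support_add,
    l1_eq f (f.support ∪ g.support) Finset.subset_union_left,
    l1_eq g (f.support ∪ g.support) Finset.subset_union_right, ← Finset.sum_add_distrib]
  exact Finset.sum_le_sum fun x _ => abs_add_le _ _

theorem l1_neg (f : X →₀ ℝ) : l1 (-f) = l1 f := by
  rw [l1_eq (-f) f.support (by rw [Finsupp.support_neg]), l1_eq f f.support subset_rfl]
  exact Finset.sum_congr rfl fun x _ => by rw [Finsupp.neg_apply, abs_neg]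

theorem l1_zero : l1 (0 : X →₀ ℝ) = 0 := by simp [l1]

theorem l1_single (x : X) (c : ℝ) : l1 (Finsupp.single x c) = |c| := by
  rw [l1, Finsupp.sum_single_index (by simp)]

theorem l1_sum_single_le {Ω : Type v} (S : Finset Ω) (r : Ω → X) (c : ℝ) :
    l1 (∑ w ∈ S, Finsupp.single (r w) c) ≤ S.card * |c| := by
  classical
  induction S using Finset.induction_on with
  | empty => simp [l1_zero]
  | insert a S ha ih =>
    rw [Finset.sum_insert ha, Finset.card_insert_of_notMem ha]
    refine (l1_add_le _ _).trans ?_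
    rw [l1_single]
    push_cast
    linarith

end l1

theorem Ex.isExact {G : Type u} [Group G] (h : Ex G) : IsExact G := by
  classical
  intro F ε hε
  obtain ⟨E', hE', Ω, _, _, Y, a, h1, h2⟩ := h (F : Set G) F.finite_toSet (ε / 2) (by positivity)
  let r : Y → G := fun y => if h : ∃ g : G, ∃ w, a g w = y then h.choose else 1
  have hr : ∀ g w, ∃ w', a (r (a g w)) w' = a g w := by
    intro g w
    have hex : ∃ g' : G, ∃ w', a g' w' = a g w := ⟨g, w, rfl⟩
    simp only [r, dif_pos hex]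
    exact hex.choose_spec
  have hn : (0:ℝ) < Fintype.card Ω := by exact_mod_cast Fintype.card_pos
  set c : ℝ := 1 / (Fintype.card Ω : ℝ) with hc
  have hc0 : 0 < c := by positivity
  have hcn : (Fintype.card Ω : ℝ) * c = 1 := by rw [hc]; field_simp
  let μ : G → G →₀ ℝ := fun g => ∑ w, Finsupp.single (r (a g w)) c
  have hμx : ∀ g x, μ g x = ∑ w, if r (a g w) = x then c else 0 := by
    intro g x
    simp only [μ]
    rw [Finsupp.finsetSum_apply]
    exact Finset.sum_congr rfl fun w _ => Finsupp.single_apply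
  refine ⟨hE'.toFinset, μ, ?_, ?_, ?_, ?_⟩
  · intro g x
    rw [hμx]
    exact Finset.sum_nonneg fun w _ => by split_ifs <;> [exact hc0.le; exact le_rfl]
  · intro g
    have : ((μ g).sum fun _ t => t) = ∑ w : Ω, c := by
      simp only [μ]
      rw [← Finsupp.sum_finsetSum_index (fun _ => rfl) (fun _ _ _ => rfl)]
      exact Finset.sum_congr rfl fun w _ => Finsupp.sum_single_index rfl
    rw [this, Finset.sum_const, Finset.card_univ, nsmul_eq_mul, hcn]
  · intro g x hx
    rw [hμx] at hx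
    obtain ⟨w, -, hw⟩ := Finset.exists_ne_zero_of_sum_ne_zero hx
    have hw' : r (a g w) = x := by
      by_contra h3
      rw [if_neg h3] at hw
      exact hw rfl
    subst hw'
    obtain ⟨w', hw'⟩ := hr g w
    rw [Set.Finite.mem_toFinset]
    exact h2 _ _ _ _ hw'.symm trivial
  · intro g s hs
    obtain ⟨W, p, hp, hW, hWc⟩ := h1 g s hs
    have e1 : μ g = ∑ w ∈ W, Finsupp.single (r (a g w)) c +
        ∑ w ∈ Wᶜ, Finsupp.single (r (a g w)) c := (Finset.sum_add_sum_compl W _).symm
    have e2 : μ (g * s) = ∑ w ∈ W.image p, Finsupp.single (r (a (g * s) w)) c +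
        ∑ w ∈ (W.image p)ᶜ, Finsupp.single (r (a (g * s) w)) c :=
      (Finset.sum_add_sum_compl (W.image p) _).symm
    have e3 : ∑ w ∈ W.image p, Finsupp.single (r (a (g * s) w)) c =
        ∑ w ∈ W, Finsupp.single (r (a g w)) c := by
      rw [Finset.sum_image hp]
      exact Finset.sum_congr rfl fun w hw => by rw [hW w hw]
    have e4 : μ g - μ (g * s) = ∑ w ∈ Wᶜ, Finsupp.single (r (a g w)) c +
        -∑ w ∈ (W.image p)ᶜ, Finsupp.single (r (a (g * s) w)) c := by
      rw [e1, e2, e3]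
      abel
    show l1 (μ g - μ (g * s)) ≤ ε
    rw [e4]
    refine (l1_add_le _ _).trans ?_
    rw [l1_neg]
    have h5 := l1_sum_single_le Wᶜ (fun w => r (a g w)) c
    have h6 := l1_sum_single_le (W.image p)ᶜ (fun w => r (a (g * s) w)) c
    rw [Finset.card_compl, abs_of_pos hc0, Nat.cast_sub (Finset.card_le_univ _)] at h5 h6
    rw [Finset.card_image_of_injOn hp] at h6
    have h7 : ((Fintype.card Ω : ℝ) - W.card) * c ≤ ε / 2 := by
      have h8 : (Fintype.card Ω : ℝ) - W.card ≤ ε / 2 * Fintype.card Ω := by linarith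
      calc ((Fintype.card Ω : ℝ) - W.card) * c ≤ (ε / 2 * Fintype.card Ω) * c :=
            mul_le_mul_of_nonneg_right h8 hc0.le
        _ = ε / 2 := by rw [mul_assoc, hcn, mul_one]
    linarith

theorem IsExact.ex {G : Type u} [Group G] (h : IsExact G) : Ex G := by
  classical
  intro F hF ε hε
  obtain ⟨F, rfl⟩ := hF.exists_finset_coe
  obtain ⟨E, μ, h0, h1, h2, h3⟩ := h F (ε / 2) (by positivity)
  obtain ⟨N, hN⟩ := exists_nat_gt (2 * E.card / ε)
  have hNE : 2 * (E.card : ℝ) < N * ε := (div_lt_iff₀ hε).mp hN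
  have hN0 : 0 < N := by
    have : (0:ℝ) < N := by
      by_contra hcon
      have h4 : (N:ℝ) ≤ 0 := not_lt.mp hcon
      have h5 : (0:ℝ) ≤ E.card := Nat.cast_nonneg _
      nlinarith
    exact_mod_cast this
  -- the supports
  let T : G → Finset G := fun g => E.image fun e => g * e
  have hT : ∀ g x, μ g x ≠ 0 → x ∈ T g := by
    intro g x hx
    exact Finset.mem_image.mpr ⟨g⁻¹ * x, h2 g x hx, by group⟩
  have hsupp : ∀ g, (μ g).support ⊆ T g := fun g x hx => hT g x (Finsupp.mem_support_iff.mp hx)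
  have hTc : ∀ g, (T g).card ≤ E.card := fun g => Finset.card_image_le
  have hsum : ∀ g, ∑ x ∈ T g, μ g x = 1 := by
    intro g
    rw [← h1 g]
    exact (Finsupp.sum_of_support_subset (μ g) (hsupp g) (fun _ t => t) (fun _ _ => rfl)).symm
  -- integer weights
  let ν : G → G → ℕ := fun g x => ⌊(N:ℝ) * μ g x⌋₊
  have hν : ∀ g x, (ν g x : ℝ) ≤ N * μ g x := fun g x =>
    Nat.floor_le (mul_nonneg (Nat.cast_nonneg _) (h0 g x))
  have hν' : ∀ g x, (N:ℝ) * μ g x - 1 ≤ ν g x := fun g x => (Nat.sub_one_lt_floor _).le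
  -- the set
  let A : G → Finset (G × ℕ) := fun g => (T g).biUnion fun x => (Finset.range (ν g x)).image
    fun j => (x, j)
  have hA : ∀ g x j, (x, j) ∈ A g ↔ x ∈ T g ∧ j < ν g x := by
    intro g x j
    simp only [A, Finset.mem_biUnion, Finset.mem_image, Finset.mem_range, Prod.mk.injEq]
    constructor
    · rintro ⟨x', hx', j', hj', rfl, rfl⟩
      exact ⟨hx', hj'⟩
    · rintro ⟨hx, hj⟩
      exact ⟨x, hx, j, hj, rfl, rfl⟩
  have hAc : ∀ g, (A g).card = ∑ x ∈ T g, ν g x := by
    intro g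
    rw [Finset.card_biUnion]
    · refine Finset.sum_congr rfl fun x _ => ?_
      rw [Finset.card_image_of_injective _ (Prod.mk_right_injective x), Finset.card_range]
    · intro x _ y _ hxy
      rw [Function.onFun, Finset.disjoint_left]
      intro z hz1 hz2
      rw [Finset.mem_image] at hz1 hz2
      obtain ⟨z1, -, rfl⟩ := hz1
      obtain ⟨z2, -, h2⟩ := hz2
      exact hxy (congrArg Prod.fst h2).symm
  have hAN : ∀ g, (A g).card ≤ N := by
    intro g
    have : ((A g).card : ℝ) ≤ N := by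
      rw [hAc]
      push_cast
      calc ∑ x ∈ T g, (ν g x : ℝ) ≤ ∑ x ∈ T g, (N:ℝ) * μ g x :=
            Finset.sum_le_sum fun x _ => hν g x
        _ = N := by rw [← Finset.mul_sum, hsum, mul_one]
    exact_mod_cast this
  -- filler
  let B : G → Finset (G × ℕ ⊕ G × ℕ) := fun g =>
    (A g).map ⟨Sum.inl, Sum.inl_injective⟩ ∪
      ((Finset.range (N - (A g).card)).image fun j => Sum.inr (g, j))
  have hBc : ∀ g, (B g).card = N := by
    intro g
    rw [Finset.card_union_of_disjoint, Finset.card_map, Finset.card_image_of_injective,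
      Finset.card_range]
    · have := hAN g
      omega
    · intro a b hab
      simpa using hab
    · rw [Finset.disjoint_left]
      intro z hz1 hz2
      rw [Finset.mem_map] at hz1
      rw [Finset.mem_image] at hz2
      obtain ⟨z1, -, rfl⟩ := hz1
      obtain ⟨z2, -, h2⟩ := hz2
      simp at h2
  have : Nonempty (Fin N) := ⟨⟨0, hN0⟩⟩
  let en : ∀ g, Fin N ≃ B g := fun g => ((B g).equivFinOfCardEq (hBc g)).symm
  refine ⟨Set.image2 (fun x y => x * y⁻¹) ((E : Set G) ∪ {1}) ((E : Set G) ∪ {1}),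
    Set.Finite.image2 _ (E.finite_toSet.union (Set.finite_singleton _))
      (E.finite_toSet.union (Set.finite_singleton _)), ?_⟩
  refine Wf.of (Fin N) (G × ℕ ⊕ G × ℕ) (fun g w => (en g w : G × ℕ ⊕ G × ℕ)) ?_ ?_
  · intro g s hs
    let W : Finset (Fin N) := Finset.univ.filter fun w =>
      ((en g w : G × ℕ ⊕ G × ℕ)) ∈ B (g * s)
    let p : Fin N → Fin N := fun w => if hw : ((en g w : G × ℕ ⊕ G × ℕ)) ∈ B (g * s) then
      (en (g * s)).symm ⟨_, hw⟩ else w
    have hpw : ∀ w ∈ W, (en (g * s) (p w) : G × ℕ ⊕ G × ℕ) = en g w := by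
      intro w hw
      have hw' : ((en g w : G × ℕ ⊕ G × ℕ)) ∈ B (g * s) := (Finset.mem_filter.mp hw).2
      simp only [p, dif_pos hw', Equiv.apply_symm_apply]
    refine ⟨W, p, ?_, fun w hw => (hpw w hw).symm, ?_⟩
    · intro x hx y hy hxy
      have e1 := hpw x hx
      have e2 := hpw y hy
      rw [hxy, e2] at e1
      exact (en g).injective (Subtype.ext e1.symm)
    · -- the common part
      let D : Finset (G × ℕ) := (T g).biUnion fun x =>
        (Finset.range (min (ν g x) (ν (g * s) x))).image fun j => (x, j)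
      have hDc : (D.card : ℝ) = ∑ x ∈ T g, (min (ν g x) (ν (g * s) x) : ℕ) := by
        rw [Finset.card_biUnion]
        · push_cast
          refine Finset.sum_congr rfl fun x _ => ?_
          rw [Finset.card_image_of_injective _ (Prod.mk_right_injective x), Finset.card_range]
          push_cast
          rfl
        · intro x _ y _ hxy
          rw [Function.onFun, Finset.disjoint_left]
          intro z hz1 hz2
          rw [Finset.mem_image] at hz1 hz2
          obtain ⟨z1, -, rfl⟩ := hz1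
          obtain ⟨z2, -, h2⟩ := hz2
          exact hxy (congrArg Prod.fst h2).symm
      have hDB : ∀ z ∈ D, (Sum.inl z : G × ℕ ⊕ G × ℕ) ∈ B g ∧ Sum.inl z ∈ B (g * s) := by
        intro z hz
        simp only [D, Finset.mem_biUnion, Finset.mem_image, Finset.mem_range] at hz
        obtain ⟨x, hx, j, hj, rfl⟩ := hz
        rw [lt_min_iff] at hj
        refine ⟨Finset.mem_union_left _ (Finset.mem_map_of_mem _ ((hA _ _ _).mpr ⟨hx, hj.1⟩)),
          Finset.mem_union_left _ (Finset.mem_map_of_mem _ ((hA _ _ _).mpr ⟨?_, hj.2⟩))⟩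
        apply hT
        intro h9
        have h10 : ν (g * s) x = 0 := by simp [ν, h9]
        omega
      have hDW : D.card ≤ W.card := by
        refine Finset.card_le_card_of_injOn
          (fun z => if hz : (Sum.inl z : G × ℕ ⊕ G × ℕ) ∈ B g then (en g).symm ⟨_, hz⟩
            else ⟨0, hN0⟩) ?_ ?_
        · intro z hz
          have h4 := hDB z hz
          simp only [dif_pos h4.1]
          simp only [W, Finset.coe_filter, Finset.mem_univ, true_and, Set.mem_ofPred_eq,
            Equiv.apply_symm_apply]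
          exact h4.2
        · intro z hz z' hz' hzz
          have h4 := hDB z hz
          have h4' := hDB z' hz'
          simp only [dif_pos h4.1, dif_pos h4'.1] at hzz
          have := congrArg Subtype.val ((en g).symm.injective hzz)
          simpa using this
      have hDl : (1 - ε) * (N:ℝ) ≤ D.card := by
        rw [hDc]
        have h4 : ∀ x ∈ T g, (N:ℝ) * μ g x - N * |(μ g - μ (g * s)) x| - 1 ≤
            ((min (ν g x) (ν (g * s) x) : ℕ) : ℝ) := by
          intro x _
          have hN1 : (0:ℝ) ≤ N := Nat.cast_nonneg _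
          have i1 := hν' g x
          have i2 := hν' (g * s) x
          have i3 : μ g x - μ (g * s) x ≤ |(μ g - μ (g * s)) x| := by
            rw [Finsupp.sub_apply]
            exact le_abs_self _
          have i4 : 0 ≤ |(μ g - μ (g * s)) x| := abs_nonneg _
          have i5 := mul_le_mul_of_nonneg_left i3 hN1
          have i6 := mul_nonneg hN1 i4
          rw [mul_sub] at i5
          rw [Nat.cast_min]
          refine le_min ?_ ?_
          · linarith
          · linarith
        have h5 : ∑ x ∈ T g, |(μ g - μ (g * s)) x| ≤ ε / 2 := by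
          refine le_trans ?_ (h3 g s hs)
          show _ ≤ l1 (μ g - μ (g * s))
          rw [l1_eq _ (T g ∪ (μ g - μ (g * s)).support) Finset.subset_union_right]
          exact Finset.sum_le_sum_of_subset_of_nonneg Finset.subset_union_left
            fun _ _ _ => abs_nonneg _
        have h6 : ∑ x ∈ T g, ((N:ℝ) * μ g x - N * |(μ g - μ (g * s)) x| - 1) ≤
            ∑ x ∈ T g, ((min (ν g x) (ν (g * s) x) : ℕ) : ℝ) := Finset.sum_le_sum h4
        rw [Finset.sum_sub_distrib, Finset.sum_sub_distrib, ← Finset.mul_sum, ← Finset.mul_sum,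
          hsum, Finset.sum_const, nsmul_eq_mul, mul_one, mul_one] at h6
        have h7 : ((T g).card : ℝ) ≤ E.card := by exact_mod_cast hTc g
        have h8 : (N:ℝ) * ∑ x ∈ T g, |(μ g - μ (g * s)) x| ≤ N * (ε / 2) :=
          mul_le_mul_of_nonneg_left h5 (Nat.cast_nonneg _)
        rw [Nat.cast_sum]
        refine le_trans ?_ h6
        linarith
      rw [Fintype.card_fin]
      exact hDl.trans (by exact_mod_cast hDW)
  · intro g h w w' hh _
    have hmem : ∀ g (w : Fin N), ∃ e ∈ (E : Set G) ∪ {1}, ∃ j,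
        (en g w : G × ℕ ⊕ G × ℕ) = Sum.inl (g * e, j) ∨
        (en g w : G × ℕ ⊕ G × ℕ) = Sum.inr (g * e, j) := by
      intro g w
      have h4 := (en g w).2
      rcases Finset.mem_union.mp h4 with h5 | h5
      · obtain ⟨⟨x, j⟩, h6, h7⟩ := Finset.mem_map.mp h5
        obtain ⟨e, he, h8⟩ := Finset.mem_image.mp ((hA g x j).mp h6).1
        refine ⟨e, Or.inl he, j, Or.inl ?_⟩
        rw [← h7, ← h8]
        rfl
      · obtain ⟨j, h6, h7⟩ := Finset.mem_image.mp h5
        refine ⟨1, Or.inr rfl, j, Or.inr ?_⟩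
        rw [← h7, mul_one]
    obtain ⟨e, he, j, h4⟩ := hmem g w
    obtain ⟨e', he', j', h4'⟩ := hmem h w'
    have h5 : g * e = h * e' := by
      rw [hh] at h4
      rcases h4 with h4 | h4 <;> rcases h4' with h4' | h4'
      all_goals
        rw [h4] at h4'
        simp at h4'
      · exact h4'.1
      · exact h4'.1
    refine ⟨e, he, e', he', ?_⟩
    have h6 : h = g * e * e'⁻¹ := by rw [h5]; group
    rw [h6]
    group

/-! ### Coarse embedding -/

theorem sqrt_sub_sq_le (a b : ℝ) (ha : 0 ≤ a) (hb : 0 ≤ b) :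
    (Real.sqrt a - Real.sqrt b) ^ 2 ≤ |a - b| := by
  have h1 : a - b = (Real.sqrt a - Real.sqrt b) * (Real.sqrt a + Real.sqrt b) := by
    have e1 := Real.mul_self_sqrt ha
    have e2 := Real.mul_self_sqrt hb
    nlinarith
  rw [h1, abs_mul, ← sq_abs, sq]
  refine mul_le_mul_of_nonneg_left ?_ (abs_nonneg _)
  have h2 := Real.sqrt_nonneg a
  have h3 := Real.sqrt_nonneg b
  rw [abs_of_nonneg (add_nonneg h2 h3), abs_le]
  constructor <;> linarith

/-- The square of the `ℓ²`-distance of the square roots. -/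
noncomputable def dd {X : Type u} (f g : X →₀ ℝ) : ℝ :=
  ∑' x, (Real.sqrt (f x) - Real.sqrt (g x)) ^ 2

theorem dd_fun_support {X : Type u} (f g : X →₀ ℝ) :
    ∀ x, x ∉ (by classical exact f.support ∪ g.support : Finset X) →
      (Real.sqrt (f x) - Real.sqrt (g x)) ^ 2 = 0 := by
  classical
  intro x hx
  rw [Finset.mem_union, not_or] at hx
  rw [Finsupp.notMem_support_iff.mp hx.1, Finsupp.notMem_support_iff.mp hx.2]
  simp

theorem dd_summable {X : Type u} (f g : X →₀ ℝ) :
    Summable fun x => (Real.sqrt (f x) - Real.sqrt (g x)) ^ 2 :=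
  summable_of_ne_finset_zero (dd_fun_support f g)

theorem dd_nonneg {X : Type u} (f g : X →₀ ℝ) : 0 ≤ dd f g :=
  tsum_nonneg fun _ => sq_nonneg _

theorem dd_le {X : Type u} (f g : X →₀ ℝ) (hf : ∀ x, 0 ≤ f x) (hg : ∀ x, 0 ≤ g x) :
    dd f g ≤ l1 (f - g) := by
  classical
  rw [dd, tsum_eq_sum (s := f.support ∪ g.support ∪ (f - g).support)]
  · rw [l1_eq (f - g) (f.support ∪ g.support ∪ (f - g).support) Finset.subset_union_right]
    refine Finset.sum_le_sum fun x _ => ?_
    rw [Finsupp.sub_apply]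
    exact sqrt_sub_sq_le _ _ (hf x) (hg x)
  · intro x hx
    apply dd_fun_support f g x
    intro h
    exact hx (Finset.mem_union_left _ h)

theorem l1_prob {X : Type u} (f : X →₀ ℝ) (hf : ∀ x, 0 ≤ f x) (h : (f.sum fun _ t => t) = 1) :
    l1 f = 1 := by
  rw [← h, l1, Finsupp.sum, Finsupp.sum]
  exact Finset.sum_congr rfl fun x _ => abs_of_nonneg (hf x)

theorem dd_le_two {X : Type u} (f g : X →₀ ℝ) (hf : ∀ x, 0 ≤ f x) (hg : ∀ x, 0 ≤ g x)
    (h : (f.sum fun _ t => t) = 1) (h' : (g.sum fun _ t => t) = 1) : dd f g ≤ 2 := by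
  refine (dd_le f g hf hg).trans ?_
  rw [sub_eq_add_neg]
  refine (l1_add_le _ _).trans ?_
  rw [l1_neg, l1_prob f hf h, l1_prob g hg h']
  norm_num

theorem dd_disjoint {X : Type u} (f g : X →₀ ℝ) (hf : ∀ x, 0 ≤ f x) (hg : ∀ x, 0 ≤ g x)
    (h : (f.sum fun _ t => t) = 1) (h' : (g.sum fun _ t => t) = 1)
    (hd : ∀ x, f x ≠ 0 → g x ≠ 0 → False) : dd f g = 2 := by
  classical
  have h1 : ∀ x, (Real.sqrt (f x) - Real.sqrt (g x)) ^ 2 = f x + g x := by
    intro x
    have e1 := Real.mul_self_sqrt (hf x)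
    have e2 := Real.mul_self_sqrt (hg x)
    have e3 : Real.sqrt (f x) * Real.sqrt (g x) = 0 := by
      by_cases h3 : f x = 0
      · rw [h3, Real.sqrt_zero, zero_mul]
      · by_cases h4 : g x = 0
        · rw [h4, Real.sqrt_zero, mul_zero]
        · exact (hd x h3 h4).elim
    nlinarith
  rw [dd, tsum_eq_sum (s := f.support ∪ g.support)]
  · rw [Finset.sum_congr rfl fun x _ => h1 x, Finset.sum_add_distrib]
    have e1 : ∑ x ∈ f.support ∪ g.support, f x = 1 := by
      rw [← h]
      exact (Finsupp.sum_of_support_subset f Finset.subset_union_left (fun _ t => t)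
        (fun _ _ => rfl)).symm
    have e2 : ∑ x ∈ f.support ∪ g.support, g x = 1 := by
      rw [← h']
      exact (Finsupp.sum_of_support_subset g Finset.subset_union_right (fun _ t => t)
        (fun _ _ => rfl)).symm
    rw [e1, e2]
    norm_num
  · exact fun x hx => dd_fun_support f g x hx

theorem lp_dist_sq {ι : Type u} (a b : ι → ℝ) (ha : Memℓp a 2) (hb : Memℓp b 2) :
    ‖(⟨a, ha⟩ : lp (fun _ : ι => ℝ) 2) - ⟨b, hb⟩‖ ^ 2 = ∑' z, (b z - a z) ^ 2 := by
  have i1 := lp.norm_rpow_eq_tsum (p := 2) (by norm_num)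
    ((⟨a, ha⟩ : lp (fun _ : ι => ℝ) 2) - ⟨b, hb⟩)
  have e : (2 : ENNReal).toReal = 2 := ENNReal.toReal_ofNat 2
  rw [e] at i1
  have e2 : ∀ x : ℝ, x ^ (2:ℝ) = x ^ 2 := fun x => Real.rpow_ofNat x 2
  rw [e2] at i1
  rw [i1]
  refine tsum_congr fun z => ?_
  rw [e2, lp.coeFn_sub, Pi.sub_apply, Real.norm_eq_abs, sq_abs]
  show (a z - b z) ^ 2 = _
  ring

theorem dd_prod {X : Type u} (a b : ℕ → X →₀ ℝ) (h : Summable fun k => dd (a k) (b k)) :
    (Summable fun z : ℕ × X => (Real.sqrt (a z.1 z.2) - Real.sqrt (b z.1 z.2)) ^ 2) ∧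
    ∑' z : ℕ × X, (Real.sqrt (a z.1 z.2) - Real.sqrt (b z.1 z.2)) ^ 2 =
      ∑' k, dd (a k) (b k) := by
  have h1 : ∀ k, Summable fun x : X =>
      (fun z : ℕ × X => (Real.sqrt (a z.1 z.2) - Real.sqrt (b z.1 z.2)) ^ 2) (k, x) :=
    fun k => dd_summable (a k) (b k)
  have h2 : Summable fun z : ℕ × X => (Real.sqrt (a z.1 z.2) - Real.sqrt (b z.1 z.2)) ^ 2 :=
    (summable_prod_of_nonneg (fun z => sq_nonneg _)).mpr ⟨h1, h⟩
  exact ⟨h2, h2.tsum_prod' h1⟩

theorem IsExact.coarselyEmbeds {G : Type u} [Group G] [Countable G] (h : IsExact G) :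
    CoarselyEmbeds G := by
  classical
  obtain ⟨q, hq⟩ := exists_surjective_nat G
  -- the exhausting sequence
  let F : ℕ → Finset G := fun k => (Finset.range k).image q
  have hF : ∀ s : G, ∃ m, ∀ k, m ≤ k → s ∈ F k := by
    intro s
    obtain ⟨j, rfl⟩ := hq s
    exact ⟨j + 1, fun k hk => Finset.mem_image_of_mem _ (Finset.mem_range.mpr (by omega))⟩
  have hε : ∀ k : ℕ, (0:ℝ) < (1 / 2) ^ k := fun k => by positivity
  choose E μ h0 h1 h2 h3 using fun k => h (F k) ((1 / 2) ^ k) (hε k)
  have hdd2 : ∀ k g g', dd (μ k g) (μ k g') ≤ 2 := fun k g g' =>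
    dd_le_two _ _ (h0 k g) (h0 k g') (h1 k g) (h1 k g')
  have hddF : ∀ k g, ∀ s ∈ F k, dd (μ k g) (μ k (g * s)) ≤ (1 / 2) ^ k := fun k g s hs =>
    (dd_le _ _ (h0 k g) (h0 k _)).trans (h3 k g s hs)
  -- summability in k
  have hsumk : ∀ g s, Summable fun k => dd (μ k g) (μ k (g * s)) := by
    intro g s
    obtain ⟨m, hm⟩ := hF s
    refine (summable_nat_add_iff m).mp ?_
    refine Summable.of_nonneg_of_le (fun k => dd_nonneg _ _)
      (fun k => hddF (k + m) g s (hm _ (Nat.le_add_left _ _))) ?_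
    exact (summable_nat_add_iff m).mpr (summable_geometric_of_lt_one (by norm_num) (by norm_num))
  have hbound : ∀ s, ∃ C : ℝ, ∀ g, ∑' k, dd (μ k g) (μ k (g * s)) ≤ C := by
    intro s
    obtain ⟨m, hm⟩ := hF s
    refine ⟨2 * m + 2, fun g => ?_⟩
    rw [← (hsumk g s).sum_add_tsum_nat_add m]
    refine add_le_add ?_ ?_
    · have := Finset.sum_le_card_nsmul (Finset.range m) (fun k => dd (μ k g) (μ k (g * s))) 2
        (fun k _ => hdd2 _ _ _)
      rw [Finset.card_range, nsmul_eq_mul] at this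
      linarith
    · have i1 : Summable fun k : ℕ => ((1:ℝ) / 2) ^ (k + m) :=
        (summable_nat_add_iff m).mpr (summable_geometric_of_lt_one (by norm_num) (by norm_num))
      refine (Summable.tsum_le_tsum (fun k => hddF (k + m) g s (hm _ (Nat.le_add_left _ _)))
        ((summable_nat_add_iff m).mpr (hsumk g s)) i1).trans ?_
      have i2 : ∀ k : ℕ, ((1:ℝ) / 2) ^ (k + m) ≤ (1 / 2) ^ k := by
        intro k
        exact pow_le_pow_of_le_one (by norm_num) (by norm_num) (Nat.le_add_right _ _)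
      refine (Summable.tsum_le_tsum i2 i1 (summable_geometric_of_lt_one (by norm_num)
        (by norm_num))).trans ?_
      rw [tsum_geometric_of_lt_one (by norm_num) (by norm_num)]
      norm_num
  have hlow : ∀ m : ℕ, ∃ T : Set G, T.Finite ∧ ∀ g s, s ∉ T →
      2 * (m : ℝ) ≤ ∑' k, dd (μ k g) (μ k (g * s)) := by
    intro m
    refine ⟨⋃ k ∈ Finset.range m, Set.image2 (fun x y => x * y⁻¹) (E k : Set G) (E k : Set G),
      Set.Finite.biUnion (Finset.finite_toSet _) fun k _ =>
        Set.Finite.image2 _ (Finset.finite_toSet _) (Finset.finite_toSet _), ?_⟩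
    intro g s hs
    have i1 : ∀ k ∈ Finset.range m, dd (μ k g) (μ k (g * s)) = 2 := by
      intro k hk
      refine dd_disjoint _ _ (h0 k _) (h0 k _) (h1 k _) (h1 k _) ?_
      intro x hx hx'
      apply hs
      simp only [Set.mem_iUnion]
      refine ⟨k, hk, _, h2 k g x hx, _, h2 k _ x hx', ?_⟩
      simp only
      group
    refine le_trans ?_ ((hsumk g s).sum_le_tsum (Finset.range m) fun k _ => dd_nonneg _ _)
    rw [Finset.sum_congr rfl i1, Finset.sum_const, Finset.card_range, nsmul_eq_mul, mul_comm]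
  -- the Hilbert space
  let P : G → ℕ × G → ℝ := fun g z => Real.sqrt (μ z.1 g z.2) - Real.sqrt (μ z.1 1 z.2)
  have hPs : ∀ g s, Summable fun z : ℕ × G =>
      (Real.sqrt (μ z.1 g z.2) - Real.sqrt (μ z.1 (g * s) z.2)) ^ 2 := by
    intro g s
    exact (dd_prod (fun k => μ k g) (fun k => μ k (g * s)) (hsumk g s)).1
  have hP : ∀ g, Memℓp (P g) 2 := by
    intro g
    rw [memℓp_gen_iff (by norm_num)]
    have := hPs 1 g
    rw [one_mul] at this
    refine this.congr fun z => ?_
    simp only [P, Real.norm_eq_abs, ENNReal.toReal_ofNat, Real.rpow_ofNat, sq_abs]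
    ring
  let f : G → lp (fun _ : ℕ × G => ℝ) 2 := fun g => ⟨P g, hP g⟩
  have hf : ∀ g s, ‖f (g * s) - f g‖ ^ 2 = ∑' k, dd (μ k g) (μ k (g * s)) := by
    intro g s
    have i1 : ‖f (g * s) - f g‖ ^ 2 = ∑' z, (P g z - P (g * s) z) ^ 2 :=
      lp_dist_sq (P (g * s)) (P g) (hP _) (hP _)
    have i2 : ∀ z : ℕ × G, (P g z - P (g * s) z) ^ 2 =
        (Real.sqrt (μ z.1 g z.2) - Real.sqrt (μ z.1 (g * s) z.2)) ^ 2 := by
      intro z
      simp only [P]
      ring
    rw [i1, tsum_congr i2]
    exact (dd_prod (fun k => μ k g) (fun k => μ k (g * s)) (hsumk g s)).2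
  refine ⟨lp (fun _ : ℕ × G => ℝ) 2, inferInstance, inferInstance, inferInstance, f, ?_, ?_⟩
  · intro s
    obtain ⟨C, hC⟩ := hbound s
    refine ⟨Real.sqrt C, fun g => ?_⟩
    apply Real.le_sqrt_of_sq_le
    rw [hf]
    exact hC g
  · intro C
    obtain ⟨m, hm⟩ := exists_nat_gt (C ^ 2)
    obtain ⟨T, hT, hT'⟩ := hlow m
    refine hT.subset ?_
    rintro s ⟨g, hg⟩
    by_contra hs
    have i1 := hT' g s hs
    rw [← hf] at i1
    have i2 : ‖f (g * s) - f g‖ ^ 2 ≤ C ^ 2 := by
      have := norm_nonneg (f (g * s) - f g)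
      nlinarith
    have i3 : (0:ℝ) ≤ m := Nat.cast_nonneg _
    linarith

end Pool.Agent.N506.EX
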