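import Pool.Agent.N506.EXJ

/-!
# Matrix-exactness of group rings of virtually special groups
-/

namespace Pool.Agent.N506.EX

universe u

theorem mex_monoidAlgebra_of_injective {k : Type u} [CommRing k] {M N : Type u} [Monoid M]
    [Monoid N] (h : MEx (MonoidAlgebra k N)) (f : M →* N) (hf : Function.Injective f) :
    MEx (MonoidAlgebra k M) :=
  h.of_injective (MonoidAlgebra.mapDomainRingHom k f) (MonoidAlgebra.mapDomain_injective hf)

/-- Finite products of free monoids over a finite alphabet, indexed by any finite type. -/
theorem mex_pi (k : Type u) [Field k] (ι : Type u) [Finite ι] (X : Type u) [Finite X] :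
    MEx (MonoidAlgebra k (ι → FreeMonoid X)) := by
  have : Fintype ι := Fintype.ofFinite ι
  let e : ι ≃ Fin (Fintype.card ι) := Fintype.equivFin ι
  let f : (ι → FreeMonoid X) →* (Fin (Fintype.card ι) → FreeMonoid X) :=
    { toFun := fun a i => a (e.symm i)
      map_one' := rfl
      map_mul' := fun _ _ => rfl }
  refine mex_monoidAlgebra_of_injective (mex_freeFin k) f ?_
  intro a b hab
  funext i
  have := congrFun hab (e i)
  simpa [f] using this

/-- Group algebras of right-angled Artin groups, finite graphs. -/
theorem mex_raag_fin (k : Type u) [Field k] {V : Type u} [Finite V] (Γ : SimpleGraph V) :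
    MEx (MonoidAlgebra k (RAAG Γ)) := by
  have : Fintype V := Fintype.ofFinite V
  have h1 : MEx (AR k Γ) := mex_pi k (PI Γ) (V × Bool)
  exact (h1.matrix (Finset (V × Bool))).of_injective (rhoHom k Γ).toRingHom
    (rhoHom_injective k Γ)

/-- The inclusion of a full subgraph. -/
def raagIncl {V : Type u} (Γ : SimpleGraph V) (S : Set V) :
    RAAG (Γ.induce S) →* RAAG Γ :=
  PresentedGroup.toGroup (f := fun v : S => gen Γ (v : V)) (by
    rintro r ⟨v, w, h, rfl⟩
    rw [map_mul, map_mul, map_mul, map_inv, map_inv, FreeGroup.lift_apply_of,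
      FreeGroup.lift_apply_of]
    have h1 : Γ.Adj (v : V) (w : V) := h
    rw [(gen_comm Γ h1).eq, mul_inv_cancel_right, mul_inv_cancel])

open scoped Classical in
/-- The retraction to a full subgraph. -/
noncomputable def raagRetr {V : Type u} (Γ : SimpleGraph V) (S : Set V) :
    RAAG Γ →* RAAG (Γ.induce S) :=
  PresentedGroup.toGroup (f := fun v : V => if h : v ∈ S then gen (Γ.induce S) ⟨v, h⟩ else 1) (by
    rintro r ⟨v, w, h, rfl⟩
    rw [map_mul, map_mul, map_mul, map_inv, map_inv, FreeGroup.lift_apply_of,
      FreeGroup.lift_apply_of]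
    by_cases hv : v ∈ S
    · by_cases hw : w ∈ S
      · rw [dif_pos hv, dif_pos hw]
        have h1 : (Γ.induce S).Adj ⟨v, hv⟩ ⟨w, hw⟩ := h
        rw [(gen_comm (Γ.induce S) h1).eq, mul_inv_cancel_right, mul_inv_cancel]
      · rw [dif_pos hv, dif_neg hw]
        simp
    · rw [dif_neg hv]
      simp)

open scoped Classical in
theorem raagRetr_incl {V : Type u} (Γ : SimpleGraph V) (S : Set V) (x : RAAG (Γ.induce S)) :
    raagRetr Γ S (raagIncl Γ S x) = x := by
  have : (raagRetr Γ S).comp (raagIncl Γ S) = MonoidHom.id _ := by
    apply PresentedGroup.ext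
    intro v
    show raagRetr Γ S (raagIncl Γ S (PresentedGroup.of v)) = _
    have h1 : raagIncl Γ S (PresentedGroup.of v) = gen Γ (v : V) := PresentedGroup.toGroup.of _
    have h2 : raagRetr Γ S (gen Γ (v : V)) =
        if h : (v : V) ∈ S then gen (Γ.induce S) ⟨v, h⟩ else 1 := PresentedGroup.toGroup.of _
    rw [h1, h2, dif_pos v.2]
    rfl
  exact congrArg (fun f : RAAG (Γ.induce S) →* RAAG (Γ.induce S) => f x) this

theorem val_mem_range {V : Type u} (Γ : SimpleGraph V) (S : Set V) (L : List (V × Bool))
    (hL : ∀ x ∈ L, x.1 ∈ S) : val Γ L ∈ (raagIncl Γ S).range := by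
  induction L with
  | nil => exact Subgroup.one_mem _
  | cons x L ih =>
    rw [val_cons]
    refine Subgroup.mul_mem _ ?_ (ih fun y hy => hL y (List.mem_cons_of_mem _ hy))
    have hg : gen Γ x.1 ∈ (raagIncl Γ S).range :=
      ⟨gen (Γ.induce S) ⟨x.1, hL x List.mem_cons_self⟩, PresentedGroup.toGroup.of _⟩
    unfold lv
    split_ifs
    · exact hg
    · exact Subgroup.inv_mem _ hg

/-- Group algebras of right-angled Artin groups. -/
theorem mex_raag (k : Type u) [Field k] {V : Type u} (Γ : SimpleGraph V) :
    MEx (MonoidAlgebra k (RAAG Γ)) := by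
  classical
  refine MEx.of_local fun s => ?_
  -- the finite set of vertices
  choose W hW using val_surjective Γ
  let S : Finset V := s.biUnion fun x => x.coeff.support.biUnion fun g =>
    ((W g).map Prod.fst).toFinset
  let f : MonoidAlgebra k (RAAG (Γ.induce (S : Set V))) →+* MonoidAlgebra k (RAAG Γ) :=
    MonoidAlgebra.mapDomainRingHom k (raagIncl Γ S)
  let r : MonoidAlgebra k (RAAG Γ) →+* MonoidAlgebra k (RAAG (Γ.induce (S : Set V))) :=
    MonoidAlgebra.mapDomainRingHom k (raagRetr Γ S)
  have hrf : ∀ x, r (f x) = x := by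
    intro x
    have : r.comp f = RingHom.id _ := by
      show (MonoidAlgebra.mapDomainRingHom k (raagRetr Γ S)).comp
        (MonoidAlgebra.mapDomainRingHom k (raagIncl Γ S)) = _
      rw [← MonoidAlgebra.mapDomainRingHom_comp]
      have h2 : (raagRetr Γ (S : Set V)).comp (raagIncl Γ (S : Set V)) = MonoidHom.id _ :=
        MonoidHom.ext (raagRetr_incl Γ _)
      rw [h2, MonoidAlgebra.mapDomainRingHom_id]
    exact congrArg (fun g : MonoidAlgebra k (RAAG (Γ.induce (S : Set V))) →+* _ => g x) this
  refine ⟨f.range, ?_, ?_⟩
  · intro x hx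
    have h1 : ∀ g ∈ x.coeff.support, ∃ g' : RAAG (Γ.induce (S : Set V)),
        raagIncl Γ S g' = g := by
      intro g hg
      have h2 := val_mem_range Γ (S : Set V) (W g) (by
        intro y hy
        simp only [S, Finset.coe_biUnion, Set.mem_iUnion]
        refine ⟨x, hx, g, hg, ?_⟩
        simp only [List.coe_toFinset, Set.mem_ofPred_eq, List.mem_map]
        exact ⟨y, hy, rfl⟩)
      rw [hW] at h2
      exact h2
    choose! g' hg' using h1
    refine ⟨∑ g ∈ x.coeff.support, MonoidAlgebra.single (g' g) (x.coeff g), ?_⟩
    rw [map_sum]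
    conv_rhs => rw [← MonoidAlgebra.sum_coeff_single x]
    rw [Finsupp.sum]
    refine Finset.sum_congr rfl fun g hg => ?_
    show MonoidAlgebra.mapDomain _ _ = _
    rw [MonoidAlgebra.mapDomain_single, hg' g hg]
  · have : Finite (S : Set V) := S.finite_toSet
    refine (mex_raag_fin k (Γ.induce (S : Set V))).of_injective (r.comp f.range.subtype) ?_
    rintro ⟨_, x, rfl⟩ ⟨_, y, rfl⟩ hxy
    apply Subtype.ext
    have h3 : r (f x) = r (f y) := hxy
    rw [hrf, hrf] at h3
    simp only [h3]

section FiniteIndex

variable (k : Type u) [CommRing k] {G : Type u} [Group G] (H : Subgroup G)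

open scoped Classical in
/-- The coset representation. -/
noncomputable def cosetRep [Fintype (G ⧸ H)] :
    MonoidAlgebra k G →ₐ[k] Matrix (G ⧸ H) (G ⧸ H) (MonoidAlgebra k H) :=
  MonoidAlgebra.lift k (Matrix (G ⧸ H) (G ⧸ H) (MonoidAlgebra k H)) G
    { toFun := fun g => Matrix.of fun q' q =>
        if h : q'.out⁻¹ * g * q.out ∈ H then MonoidAlgebra.single ⟨_, h⟩ (1 : k) else 0
      map_one' := by
        ext1 q' q
        rw [Matrix.of_apply, Matrix.one_apply]
        by_cases hq : q' = q
        · subst hq
          rw [if_pos rfl, dif_pos (by simp), MonoidAlgebra.one_def]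
          congr 1
          apply Subtype.ext
          simp
        · rw [if_neg hq, dif_neg]
          intro h
          apply hq
          rw [mul_one] at h
          have := QuotientGroup.eq.mpr h
          rw [QuotientGroup.out_eq', QuotientGroup.out_eq'] at this
          exact this
      map_mul' := by
        intro g g'
        ext1 q'' q
        rw [Matrix.mul_apply]
        simp only [Matrix.of_apply]
        let q' : G ⧸ H := QuotientGroup.mk (g' * q.out)
        have hq' : q'.out⁻¹ * g' * q.out ∈ H := by
          rw [mul_assoc]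
          apply QuotientGroup.eq.mp
          exact QuotientGroup.out_eq' _
        rw [Finset.sum_eq_single q']
        · by_cases h : q''.out⁻¹ * g * q'.out ∈ H
          · have h2 : q''.out⁻¹ * (g * g') * q.out ∈ H := by
              have := H.mul_mem h hq'
              convert this using 1
              group
            rw [dif_pos h, dif_pos hq', dif_pos h2, MonoidAlgebra.single_mul_single, one_mul]
            congr 1
            apply Subtype.ext
            simp only [Subgroup.coe_mul]
            group
          · rw [dif_neg h, zero_mul, dif_neg]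
            intro h2
            apply h
            have := H.mul_mem h2 (H.inv_mem hq')
            convert this using 1
            group
        · intro q1 _ hq1
          rw [dif_neg (c := q1.out⁻¹ * g' * q.out ∈ H), mul_zero]
          intro h
          apply hq1
          rw [mul_assoc] at h
          have := QuotientGroup.eq.mpr h
          rw [QuotientGroup.out_eq'] at this
          exact this
        · intro h
          exact absurd (Finset.mem_univ _) h }

open scoped Classical in
theorem cosetRep_injective [Fintype (G ⧸ H)] : Function.Injective (cosetRep k H) := by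
  rw [injective_iff_map_eq_zero]
  intro f hf
  rw [← MonoidAlgebra.coeff_inj]
  ext g
  let q : G ⧸ H := QuotientGroup.mk 1
  let q' : G ⧸ H := QuotientGroup.mk (g * q.out)
  have hq' : q'.out⁻¹ * g * q.out ∈ H := by
    rw [mul_assoc]
    apply QuotientGroup.eq.mp
    exact QuotientGroup.out_eq' _
  have h1 := congrFun (congrFun hf q') q
  rw [cosetRep, MonoidAlgebra.lift_apply, Finsupp.sum, Matrix.sum_apply] at h1
  have h2 := congrArg (fun y : MonoidAlgebra k H => y.coeff ⟨_, hq'⟩) h1
  simp only [MonoidHom.coe_mk, OneHom.coe_mk, MonoidAlgebra.coeff_sum, Finsupp.finsetSum_apply,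
    Matrix.smul_apply, Matrix.of_apply, MonoidAlgebra.coeff_smul, Finsupp.smul_apply,
    Matrix.zero_apply, MonoidAlgebra.coeff_zero, Finsupp.coe_zero, Pi.zero_apply] at h2 ⊢
  have h3 : ∀ g' ∈ f.coeff.support, f.coeff g' • ((if h : q'.out⁻¹ * g' * q.out ∈ H then
      MonoidAlgebra.single (⟨_, h⟩ : H) (1 : k) else 0 : MonoidAlgebra k H).coeff ⟨_, hq'⟩) =
      if g' = g then f.coeff g' else 0 := by
    intro g' _
    by_cases hg : g' = g
    · subst hg
      rw [dif_pos hq', if_pos rfl, MonoidAlgebra.coeff_single, Finsupp.single_eq_same,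
        smul_eq_mul, mul_one]
    · rw [if_neg hg]
      split_ifs with h
      · rw [MonoidAlgebra.coeff_single, Finsupp.single_eq_of_ne, smul_zero]
        intro h4
        apply hg
        have h5 := congrArg Subtype.val h4
        simp only at h5
        have h6 := mul_right_cancel h5
        exact (mul_left_cancel h6).symm
      · rw [MonoidAlgebra.coeff_zero, Finsupp.coe_zero, Pi.zero_apply, smul_zero]
  rw [Finset.sum_congr rfl h3, Finset.sum_ite_eq'] at h2
  by_cases hg : g ∈ f.coeff.support
  · rw [if_pos hg] at h2
    exact h2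
  · exact Finsupp.notMem_support_iff.mp hg

/-- Finite index overgroups. -/
theorem mex_finiteIndex [H.FiniteIndex] (h : MEx (MonoidAlgebra k H)) :
    MEx (MonoidAlgebra k G) := by
  classical
  have : Fintype (G ⧸ H) := H.fintypeQuotientOfFiniteIndex
  exact (h.matrix (G ⧸ H)).of_injective (cosetRep k H).toRingHom (cosetRep_injective k H)

end FiniteIndex

/-- Base change to the fraction field. -/
theorem mex_fraction (k : Type u) [CommRing k] [IsDomain k] (M : Type u) [Monoid M]
    (h : MEx (MonoidAlgebra (FractionRing k) M)) : MEx (MonoidAlgebra k M) := by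
  refine h.of_injective (MonoidAlgebra.mapRingHom M (algebraMap k (FractionRing k))) ?_
  intro x y hxy
  rw [← MonoidAlgebra.coeff_inj]
  ext g
  have := congrArg (fun z : MonoidAlgebra (FractionRing k) M => z.coeff g) hxy
  simp only [MonoidAlgebra.coeff_mapRingHom] at this
  exact IsFractionRing.injective k (FractionRing k) this

/-- Group rings of groups which virtually embed in a right-angled Artin group. -/
theorem mex_special (k : Type u) [CommRing k] [IsDomain k] {V : Type u} (Γ : SimpleGraph V)
    (G : Type u) [Group G] (H : Subgroup G) [H.FiniteIndex] (ι : H →* RAAG Γ)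
    (hι : Function.Injective ι) : MEx (MonoidAlgebra k G) :=
  mex_fraction k G (mex_finiteIndex (FractionRing k) H
    (mex_monoidAlgebra_of_injective (mex_raag (FractionRing k) Γ) ι hι))

end Pool.Agent.N506.EX
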