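import Pool.Agent.N506.EXL

/-!
# From fields to arbitrary commutative coefficient rings
-/

namespace Pool.Agent.N506.EX

universe u v w

/-- Square-zero kernels. -/
theorem MEx.of_sq_zero {R : Type u} [Ring R] {S : Type v} [Ring S] (hS : MEx S) (f : R →+* S)
    (hf : ∀ x y, f x = 0 → f y = 0 → x * y = 0) : MEx R := by
  intro n
  refine Ex.ext (glMap n f) (hS n) ?_
  have key : ∀ a b : (glMap n f).ker, ∀ i j,
      (((a : (Matrix (Fin n) (Fin n) R)ˣ) : Matrix (Fin n) (Fin n) R) *
        ((b : (Matrix (Fin n) (Fin n) R)ˣ) : Matrix (Fin n) (Fin n) R)) i j =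
      ((a : (Matrix (Fin n) (Fin n) R)ˣ) : Matrix (Fin n) (Fin n) R) i j +
        ((b : (Matrix (Fin n) (Fin n) R)ˣ) : Matrix (Fin n) (Fin n) R) i j -
        (1 : Matrix (Fin n) (Fin n) R) i j := by
    intro a b i j
    set A : Matrix (Fin n) (Fin n) R := ((a : (Matrix (Fin n) (Fin n) R)ˣ) :
      Matrix (Fin n) (Fin n) R) with hA
    set B : Matrix (Fin n) (Fin n) R := ((b : (Matrix (Fin n) (Fin n) R)ˣ) :
      Matrix (Fin n) (Fin n) R) with hB
    have h1 : ∀ i j, f ((A - 1) i j) = 0 := by
      intro i j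
      rw [Matrix.sub_apply, map_sub, hA, ← glMap_apply, (MonoidHom.mem_ker).mp a.2]
      rw [Units.val_one, Matrix.one_apply, Matrix.one_apply]
      split_ifs <;> simp
    have h2 : ∀ i j, f ((B - 1) i j) = 0 := by
      intro i j
      rw [Matrix.sub_apply, map_sub, hB, ← glMap_apply, (MonoidHom.mem_ker).mp b.2]
      rw [Units.val_one, Matrix.one_apply, Matrix.one_apply]
      split_ifs <;> simp
    have h3 : (A - 1) * (B - 1) = 0 := by
      ext i j
      rw [Matrix.mul_apply, Matrix.zero_apply]
      exact Finset.sum_eq_zero fun k _ => hf _ _ (h1 _ _) (h2 _ _)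
    have h4 : A * B = A + B - 1 := by
      have h5 : (A - 1) * (B - 1) = A * B - (A + B - 1) := by noncomm_ring
      rw [h3] at h5
      exact (sub_eq_zero.mp h5.symm)
    rw [h4]
    rfl
  let C : CommGroup (glMap n f).ker :=
    { (inferInstance : Group (glMap n f).ker) with
      mul_comm := by
        intro a b
        apply Subtype.ext
        apply Units.ext
        ext i j
        show (((a : (Matrix (Fin n) (Fin n) R)ˣ) : Matrix (Fin n) (Fin n) R) *
          ((b : (Matrix (Fin n) (Fin n) R)ˣ) : Matrix (Fin n) (Fin n) R)) i j =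
          (((b : (Matrix (Fin n) (Fin n) R)ˣ) : Matrix (Fin n) (Fin n) R) *
          ((a : (Matrix (Fin n) (Fin n) R)ˣ) : Matrix (Fin n) (Fin n) R)) i j
        rw [key, key, add_comm (((a : (Matrix (Fin n) (Fin n) R)ˣ) :
          Matrix (Fin n) (Fin n) R) i j)] }
  exact Am.ex (@Am.of_comm _ C)

section coeff

variable {M : Type u} [Monoid M]

theorem mapRingHom_injective {A B : Type u} [CommRing A] [CommRing B] (f : A →+* B)
    (hf : Function.Injective f) : Function.Injective (MonoidAlgebra.mapRingHom M f) := by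
  intro x y hxy
  rw [← MonoidAlgebra.coeff_inj]
  ext g
  have := congrArg (fun z : MonoidAlgebra B M => z.coeff g) hxy
  simp only [MonoidAlgebra.coeff_mapRingHom] at this
  exact hf this

/-- Noetherian coefficient rings. -/
theorem mex_noetherian (h : ∀ (K : Type u) [Field K], MEx (MonoidAlgebra K M))
    (A : Type u) [CommRing A] [IsNoetherianRing A] : MEx (MonoidAlgebra A M) := by
  have key : ∀ I : Ideal A, MEx (MonoidAlgebra (A ⧸ I) M) := by
    intro I
    refine IsNoetherian.induction (R := A) (M := A)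
      (P := fun I : Ideal A => MEx (MonoidAlgebra (A ⧸ I) M)) ?_ I
    clear I
    intro I' ih
    let I : Ideal A := I'
    change ∀ J : Ideal A, J > I → MEx (MonoidAlgebra (A ⧸ J) M) at ih
    change MEx (MonoidAlgebra (A ⧸ I) M)
    by_cases htop : I = ⊤
    · have : Subsingleton (A ⧸ I) := Ideal.Quotient.subsingleton_iff.mpr htop
      have : Subsingleton (MonoidAlgebra (A ⧸ I) M) := by
        refine ⟨fun x y => ?_⟩
        rw [← MonoidAlgebra.coeff_inj]
        ext g
        exact Subsingleton.elim _ _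
      exact MEx.of_finite
    by_cases hp : I.IsPrime
    · have : IsDomain (A ⧸ I) := Ideal.Quotient.isDomain I
      exact mex_fraction (A ⧸ I) M (h _)
    obtain ⟨a, ha, b, hb, hab⟩ : ∃ a, a ∉ I ∧ ∃ b, b ∉ I ∧ a * b ∈ I := by
      by_contra hcon
      push Not at hcon
      apply hp
      refine ⟨htop, ?_⟩
      intro x y hxy
      by_contra h2
      push Not at h2
      exact hcon x h2.1 y h2.2 hxy
    let J : Ideal A := I ⊔ Ideal.span {a}
    let K : Ideal A := I ⊔ Ideal.span {b}
    have hJ : I ≤ J := le_sup_left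
    have hK : I ≤ K := le_sup_left
    have hJ' : J > I := lt_of_le_of_ne hJ (by
      intro h1
      apply ha
      rw [h1]
      exact Ideal.mem_sup_right (Ideal.mem_span_singleton_self a))
    have hK' : K > I := lt_of_le_of_ne hK (by
      intro h1
      apply hb
      rw [h1]
      exact Ideal.mem_sup_right (Ideal.mem_span_singleton_self b))
    have hJK : ∀ u ∈ J, ∀ v ∈ K, u * v ∈ I := by
      intro u hu v hv
      obtain ⟨i, hi, r, hr, rfl⟩ := Submodule.mem_sup.mp hu
      obtain ⟨i', hi', r', hr', rfl⟩ := Submodule.mem_sup.mp hv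
      obtain ⟨c, rfl⟩ := Ideal.mem_span_singleton'.mp hr
      obtain ⟨c', rfl⟩ := Ideal.mem_span_singleton'.mp hr'
      have e : (i + c * a) * (i' + c' * b) = (i' + c' * b) * i + (c * a) * i' +
          (c * c') * (a * b) := by ring
      rw [e]
      exact I.add_mem (I.add_mem (I.mul_mem_left _ hi) (I.mul_mem_left _ hi'))
        (I.mul_mem_left _ hab)
    let F : MonoidAlgebra (A ⧸ I) M →+* MonoidAlgebra (A ⧸ J) M × MonoidAlgebra (A ⧸ K) M :=
      (MonoidAlgebra.mapRingHom M (Ideal.Quotient.factor hJ)).prod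
        (MonoidAlgebra.mapRingHom M (Ideal.Quotient.factor hK))
    refine MEx.of_sq_zero (MEx.prod (ih J hJ') (ih K hK')) F ?_
    intro x y hx hy
    have hx1 : ∀ g, ∃ u ∈ J, Ideal.Quotient.mk I u = x.coeff g := by
      intro g
      obtain ⟨u, hu⟩ := Ideal.Quotient.mk_surjective (x.coeff g)
      refine ⟨u, ?_, hu⟩
      have h1 := congrArg (fun z : MonoidAlgebra (A ⧸ J) M => z.coeff g) (Prod.ext_iff.mp hx).1
      simp only [F, RingHom.prod_apply, MonoidAlgebra.coeff_mapRingHom] at h1
      rw [← hu] at h1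
      have h2 : Ideal.Quotient.mk J u = 0 := h1
      exact Ideal.Quotient.eq_zero_iff_mem.mp h2
    have hy1 : ∀ g, ∃ u ∈ K, Ideal.Quotient.mk I u = y.coeff g := by
      intro g
      obtain ⟨u, hu⟩ := Ideal.Quotient.mk_surjective (y.coeff g)
      refine ⟨u, ?_, hu⟩
      have h1 := congrArg (fun z : MonoidAlgebra (A ⧸ K) M => z.coeff g) (Prod.ext_iff.mp hy).2
      simp only [F, RingHom.prod_apply, MonoidAlgebra.coeff_mapRingHom] at h1
      rw [← hu] at h1
      have h2 : Ideal.Quotient.mk K u = 0 := h1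
      exact Ideal.Quotient.eq_zero_iff_mem.mp h2
    have hxy : ∀ g g', x.coeff g * y.coeff g' = 0 := by
      intro g g'
      obtain ⟨u, hu, hu'⟩ := hx1 g
      obtain ⟨v, hv, hv'⟩ := hy1 g'
      rw [← hu', ← hv', ← map_mul]
      exact Ideal.Quotient.eq_zero_iff_mem.mpr (hJK u hu v hv)
    rw [← MonoidAlgebra.sum_coeff_single x, ← MonoidAlgebra.sum_coeff_single y, Finsupp.sum,
      Finsupp.sum, Finset.sum_mul_sum]
    refine Finset.sum_eq_zero fun g _ => Finset.sum_eq_zero fun g' _ => ?_
    rw [MonoidAlgebra.single_mul_single, hxy, MonoidAlgebra.single_zero]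
  exact (key ⊥).of_injective (MonoidAlgebra.mapRingHom M (Ideal.Quotient.mk (⊥ : Ideal A)))
    (mapRingHom_injective _ (by
      rw [injective_iff_map_eq_zero]
      intro a ha
      exact (Submodule.mem_bot A).mp (Ideal.Quotient.eq_zero_iff_mem.mp ha)))

/-- Arbitrary commutative coefficient rings. -/
theorem mex_commRing (h : ∀ (K : Type u) [Field K], MEx (MonoidAlgebra K M))
    (A : Type u) [CommRing A] : MEx (MonoidAlgebra A M) := by
  classical
  refine MEx.of_local fun s => ?_
  let c : Finset A := s.biUnion fun x => x.coeff.support.image fun g => x.coeff g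
  let A0 : Subalgebra ℤ A := Algebra.adjoin ℤ (c : Set A)
  have : Algebra.FiniteType ℤ A0 := by
    exact (Subalgebra.fg_iff_finiteType _).mp ⟨c, rfl⟩
  have : IsNoetherianRing A0 := Algebra.FiniteType.isNoetherianRing ℤ A0
  let f : MonoidAlgebra A0 M →+* MonoidAlgebra A M :=
    MonoidAlgebra.mapRingHom M (A0.val : A0 →+* A)
  have hf : Function.Injective f := mapRingHom_injective _ Subtype.val_injective
  refine ⟨f.range, ?_, ?_⟩
  · intro x hx
    have hmem : ∀ g ∈ x.coeff.support, x.coeff g ∈ A0 := by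
      intro g hg
      apply Algebra.subset_adjoin
      simp only [c, Finset.coe_biUnion, Set.mem_iUnion]
      exact ⟨x, hx, Finset.mem_coe.mpr (Finset.mem_image_of_mem _ hg)⟩
    refine ⟨∑ g ∈ x.coeff.support.attach, MonoidAlgebra.single (g : M)
      (⟨x.coeff g, hmem g g.2⟩ : A0), ?_⟩
    rw [map_sum]
    conv_rhs => rw [← MonoidAlgebra.sum_coeff_single x]
    rw [Finsupp.sum, ← Finset.sum_attach x.coeff.support]
    refine Finset.sum_congr rfl fun g hg => ?_
    show MonoidAlgebra.mapRingHom M _ _ = _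
    rw [MonoidAlgebra.mapRingHom_single]
    rfl
  · have e : MonoidAlgebra A0 M ≃+* f.range := RingEquiv.ofBijective f.rangeRestrict
      ⟨fun a b hab => hf (congrArg Subtype.val hab), f.rangeRestrict_surjective⟩
    exact (mex_noetherian h A0).of_injective (e.symm : f.range →+* MonoidAlgebra A0 M)
      e.symm.injective

end coeff

/-- Group rings of groups which virtually embed in a right-angled Artin group, arbitrary
commutative coefficients. -/
theorem mex_special' (k : Type u) [CommRing k] {V : Type u} (Γ : SimpleGraph V)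
    (G : Type u) [Group G] (H : Subgroup G) [H.FiniteIndex] (ι : H →* RAAG Γ)
    (hι : Function.Injective ι) : MEx (MonoidAlgebra k G) :=
  mex_commRing (fun K _ => mex_special K Γ G H ι hι) k

end Pool.Agent.N506.EX
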