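import Mathlib

/-!
# Exactness and coarse embeddability of groups
-/

namespace Pool.Agent.N506.EX

universe u

/-- Exactness of the discrete group `G` (Yu's property A, in the form given by Higson and Roe):
for every finite set `F` and every `ε > 0` there are a finite set `E` and finitely supported
probability measures `μ g` on `G`, for `g` in `G`, such that `μ g` is supported in `g E` and
the `ℓ¹`-distance of `μ g` and `μ (g s)` is at most `ε` for all `g` in `G` and all `s` in `F`. -/
def IsExact (G : Type u) [Group G] : Prop :=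
  ∀ (F : Finset G) (ε : ℝ), 0 < ε → ∃ (E : Finset G) (μ : G → G →₀ ℝ),
    (∀ g x, 0 ≤ μ g x) ∧ (∀ g, ((μ g).sum fun _ t => t) = 1) ∧
    (∀ g x, μ g x ≠ 0 → g⁻¹ * x ∈ E) ∧
    ∀ g, ∀ s ∈ F, ((μ g - μ (g * s)).sum fun _ t => |t|) ≤ ε

/-- Coarse embeddability of the discrete group `G` (with its left invariant coarse structure)
into a Hilbert space: a map `f` to a real Hilbert space such that for every `s` the distances
`‖f (g s) - f g‖` are bounded, and for every `C` only finitely many `s` have some `g` with
`‖f (g s) - f g‖ ≤ C`. -/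
def CoarselyEmbeds (G : Type u) [Group G] : Prop :=
  ∃ (H : Type u) (_ : NormedAddCommGroup H) (_ : InnerProductSpace ℝ H) (_ : CompleteSpace H)
    (f : G → H),
    (∀ s : G, ∃ C : ℝ, ∀ g : G, ‖f (g * s) - f g‖ ≤ C) ∧
    ∀ C : ℝ, {s : G | ∃ g : G, ‖f (g * s) - f g‖ ≤ C}.Finite

end Pool.Agent.N506.EX
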