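import Pool.Agent.N506.Rel

/-!
The class of groups generated by a class of groups, and the injectivity of natural families on it.
-/

namespace Pool.Agent.N506

open Pool.Agent.Y483 Pool.Agent.Y483.PW Pool.Agent.Y110.KW Pool.Agent.Y75.MQ
  Pool.Agent.R615.KU Pool.Agent.R793.Mag CategoryTheory Monoid

section Lim

variable {J : Type} [Preorder J] [IsDirectedOrder J] [Nonempty J] {P : J → Type}
  [∀ i, Group (P i)] {f : ∀ i j, i ≤ j → (P i →* P j)} [DirectedSystem P (f · · ·)]

/-- The homomorphism to the direct limit. -/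
noncomputable def toLim (f : ∀ i j, i ≤ j → (P i →* P j)) [DirectedSystem P (f · · ·)] (i : J) :
    P i →* DirectLimit P f where
  toFun x := ⟦⟨i, x⟩⟧
  map_one' := (DirectLimit.one_def i).symm
  map_mul' x y := (DirectLimit.mul_def i x y).symm

theorem dcg_lim : DCG P f (DirectLimit P f) (toLim f) where
  ss i j k h h' x := DirectedSystem.map_map' f h h' x
  ts i j h x := DirectLimit.mk_apply i j x h
  surj y := by
    obtain ⟨i, x, rfl⟩ := DirectLimit.exists_eq_mk f y
    exact ⟨i, x, rfl⟩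
  inj i x y h := by
    obtain ⟨j, h1, h2, h3⟩ := Quotient.eq.mp h
    exact ⟨j, h1, h3⟩

end Lim

/-- Independence on `ℤ^j` follows from injectivity on the groups `ℤ^n`. -/
theorem indep_of_inj {I : ℕ → Type} {E : GrpCat.{0} ⥤ ModuleCat.{0} ℚ}
    (α : ∀ j : ℕ, I j → (hq j ⟶ E)) (h : ∀ n, Inj α (zn n)) : Indep α := by
  classical
  intro j
  obtain ⟨t, ht⟩ := exists_top j
  have h1 : Function.Injective (tb (dg (I := I)) (fam α) (Zn j)) := inj_iff.mp (h j)
  refine (li_ev _ ht).mpr ?_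
  have h2 : LinearIndependent ℚ fun i : I j => (DirectSum.lof ℚ (Σ j, I j)
      (fun p => HQ p.1 (Zn j)) ⟨j, i⟩ t) := by
    rw [linearIndependent_iff']
    intro s g hg i hi
    have h3 := congrArg (fun x => x (⟨j, i⟩ : Σ j, I j)) hg
    have h4 : ∀ i' : I j, (DirectSum.lof ℚ (Σ j, I j) (fun p => HQ p.1 (Zn j)) ⟨j, i'⟩ t)
        (⟨j, i⟩ : Σ j, I j) = if i' = i then t else 0 := by
      intro i'
      by_cases hii : i' = i
      · subst hii
        rw [if_pos rfl]
        exact DirectSum.of_eq_same _ _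
      · rw [if_neg hii]
        exact DirectSum.of_eq_of_ne _ _ _ (fun h => hii (eq_of_heq (Sigma.mk.inj h).2).symm)
    have h5 : (∑ i' ∈ s, g i' • (DirectSum.lof ℚ (Σ j, I j) (fun p => HQ p.1 (Zn j)) ⟨j, i'⟩ t))
        (⟨j, i⟩ : Σ j, I j) = g i • t := by
      rw [DFinsupp.finsetSum_apply]
      rw [Finset.sum_eq_single i]
      · rw [DFinsupp.smul_apply]
        exact congrArg (fun y => g i • y) ((h4 i).trans (if_pos rfl))
      · intro i' _ hne
        rw [DFinsupp.smul_apply]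
        exact (congrArg (fun y => g i' • y) ((h4 i').trans (if_neg hne))).trans (smul_zero _)
      · intro hni
        exact absurd hi hni
    have h6 : g i • t = 0 := h5.symm.trans h3
    exact (smul_eq_zero.mp h6).resolve_right ht
  have h3 := h2.map' _ (LinearMap.ker_eq_bot.mpr h1)
  have e : (fun i : I j => ((α j i).app (zn j)).hom t) = (tb (dg (I := I)) (fam α) (Zn j)) ∘
      (fun i : I j => (DirectSum.lof ℚ (Σ j, I j) (fun p => HQ p.1 (Zn j)) ⟨j, i⟩ t)) := by
    funext i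
    exact (tb_ofG α ⟨j, i⟩ (Zn j) t).symm
  have h4 := Eq.mpr (congrArg (fun v => LinearIndependent ℚ v) e) h3
  exact h4

theorem gen_rdet {𝓑 : GrpCat.{0} → Prop} {E : GrpCat.{0} ⥤ ModuleCat.{0} ℚ} (hE : HasPT E)
    (hc : Cont E) (hZ : ∀ n, 𝓑 (zn n))
    (h𝓑 : ∀ B B' : GrpCat.{0}, 𝓑 B → 𝓑 B' → 𝓑 (GrpCat.of (B × B'))) {G : Type} [Group G]
    (hG : Gen 𝓑 G) : RDet 𝓑 E G := by
  induction hG with
  | base B hB => exact RDet.base hB
  | magnus X R =>
    intro T _ I α hα
    exact (li_iff α (hasTransfers_times (pairT_of_PT hE) T)).mp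
      (indep_of_inj α fun n => hα _ (hZ n)) X R
  | prod G H _ _ h1 h2 => exact h1.prod h𝓑 h2
  | finiteIndex G H _ h => exact RDet.virt (hZ 0) h𝓑 hE H h
  | detect G K f _ h2 h1 => exact RDet.detect fun j x hx => ⟨K j x, inferInstance, f j x,
      h1 j x hx, h2 j x hx⟩
  | graph V P Λ _ h => exact RDet.graph (hZ 0) h𝓑 hE Λ h
  | wreath K V Γ _ _ h1 h2 => exact RDet.fw (hZ 0) h𝓑 hE h1 h2
  | supports Γ N V s _ h =>
    exact RDet.sys hE s (fun _ _ => True)
      ⟨fun _ _ _ _ => True.intro, fun _ _ _ h => absurd True.intro h⟩ fun σ => h σ.1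
  | colim J P f G g hd _ h => exact RDet.colim hc hd h

theorem lgrp_eq (ε : ℤˣ) (T : Type) [Group T] : lgrp ε T = timesF T ⋙ lfun ε := rfl

end Pool.Agent.N506
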