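import Pool.Agent.N506.CK1

/-!
Continuity of `K_0` of the maximal group C*-algebra along directed colimits of groups: the theorem.
-/

set_option autoImplicit false

namespace Pool.Agent.N506

open Filter Topology UniformSpace Pool.Agent.Y483 Pool.Agent.Y483.CS Pool.Agent.R187.CI
  Pool.Agent.Y75.MQ TensorProduct Matrix

/-- Block matrices. -/
theorem mm_blk {K L : Type} [Group K] [Group L] (φ : K →* L) {κ : Type} [Fintype κ]
    [DecidableEq κ] (r : ℕ) (m : Matrix κ κ (CMax K)) :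
    mm φ (fromBlocks m 0 0 (1 : Matrix (Fin r) (Fin r) (CMax K))) =
      fromBlocks (m.map (nu (CMax.map φ))) 0 0 1 := by
  ext a b
  rw [mm_app]
  rcases a with a | a <;> rcases b with b | b
  · rfl
  · exact map_zero _
  · exact map_zero _
  · simp only [fromBlocks_apply₂₂, Matrix.one_apply]
    split_ifs
    · exact map_one _
    · exact map_zero _

section K0

variable {J : Type} [Preorder J] [IsDirected J (· ≤ ·)] [Nonempty J] {P : J → Type}
  [∀ i, Group (P i)] {G : Type} [Group G] {f : ∀ i j, i ≤ j → (P i →* P j)} {g : ∀ i, P i →* G}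
  (h : DCG P f G g)

include h in
/-- Continuity of `K_0`. -/
theorem k0_cont {i : J} (z : K0 (CMax (P i))) (hz : K0.map (nu (CMax.map (g i))) z = 0) :
    ∃ j, ∃ hij : i ≤ j, K0.map (nu (CMax.map (f i j hij))) z = 0 := by
  obtain ⟨n, k, p, q, hp, hq, e⟩ := Pool.Agent.Y574.CS.exists_cls z
  have e1 := congrArg (K0.map (nu (CMax.map (g i)))) e
  rw [map_add, hz, zero_add, K0.map_cls, K0.map_cls] at e1
  have e1' := (K0.cls_eq_iff (map_idem _ hq) (map_idem _ hp)).mp e1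
  obtain ⟨r, x, y, h1, h2⟩ := e1'
  have hone : (1 : Matrix (Fin r) (Fin r) (CMax (P i))) * 1 = 1 := mul_one _
  have hq1 := fromBlocks_idem hq hone
  have hp1 := fromBlocks_idem hp hone
  have h3 := eqv_cont h (fromBlocks q 0 0 (1 : Matrix (Fin r) (Fin r) (CMax (P i))))
    (fromBlocks p 0 0 (1 : Matrix (Fin r) (Fin r) (CMax (P i)))) hq1 hp1 x y
    (h1.trans (mm_blk (g i) r q).symm) (h2.trans (mm_blk (g i) r p).symm)
  obtain ⟨j, hij, h3⟩ := h3
  refine ⟨j, hij, ?_⟩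
  rw [mm_blk, mm_blk] at h3
  have e2 := congrArg (K0.map (nu (CMax.map (f i j hij)))) e
  rw [map_add, K0.map_cls, K0.map_cls] at e2
  have hq2 := map_idem (nu (CMax.map (f i j hij))) hq
  have hp2 := map_idem (nu (CMax.map (f i j hij))) hp
  have e3 := (K0.cls_eq_iff hq2 hp2).mpr ⟨r, h3⟩
  rw [e3] at e2
  exact add_eq_right.mp e2
end K0

section Rat

/-- An element of `ℚ ⊗ M` is a rational multiple of an element of `M`. -/
theorem exists_tmul {M : Type*} [AddCommGroup M] (t : ℚ ⊗[ℤ] M) :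
    ∃ (n : ℕ) (z : M), n ≠ 0 ∧ t = ((n : ℚ)⁻¹) ⊗ₜ[ℤ] z := by
  induction t using TensorProduct.induction_on with
  | zero => exact ⟨1, 0, one_ne_zero, (TensorProduct.tmul_zero _ _).symm⟩
  | tmul q m =>
    refine ⟨q.den, q.num • m, q.den_ne_zero, ?_⟩
    rw [TensorProduct.tmul_smul, TensorProduct.smul_tmul', zsmul_eq_mul]
    congr 1
    conv_lhs => rw [← Rat.num_div_den q]
    rfl
  | add a b ha hb =>
    obtain ⟨n, z, hn, rfl⟩ := ha
    obtain ⟨n', z', hn', rfl⟩ := hb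
    refine ⟨n * n', (n' : ℤ) • z + (n : ℤ) • z', mul_ne_zero hn hn', ?_⟩
    have h1 : (n : ℚ) ≠ 0 := Nat.cast_ne_zero.mpr hn
    have h2 : (n' : ℚ) ≠ 0 := Nat.cast_ne_zero.mpr hn'
    rw [TensorProduct.tmul_add, TensorProduct.tmul_smul, TensorProduct.tmul_smul,
      TensorProduct.smul_tmul', TensorProduct.smul_tmul', zsmul_eq_mul, zsmul_eq_mul]
    congr 2
    · push_cast
      field_simp
    · push_cast
      field_simp

/-- An element of `M` which vanishes in `ℚ ⊗ M` is a torsion element. -/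
theorem tors_of_tmul {M : Type*} [AddCommGroup M] (z : M) (h : (1 : ℚ) ⊗ₜ[ℤ] z = 0) :
    ∃ n : ℕ, n ≠ 0 ∧ n • z = 0 := by
  have h1 : IsLocalizedModule (nonZeroDivisors ℤ) (TensorProduct.mk ℤ ℚ M 1) :=
    (isLocalizedModule_iff_isBaseChange (nonZeroDivisors ℤ) ℚ _).mpr
      (TensorProduct.isBaseChange ℤ M ℚ)
  have h2 : TensorProduct.mk ℤ ℚ M 1 z = 0 := h
  rw [IsLocalizedModule.eq_zero_iff (nonZeroDivisors ℤ)] at h2
  obtain ⟨c, hc⟩ := h2
  refine ⟨(c : ℤ).natAbs, Int.natAbs_ne_zero.mpr (nonZeroDivisors.coe_ne_zero c), ?_⟩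
  have h3 : (c : ℤ) • z = 0 := hc
  rcases Int.natAbs_eq (c : ℤ) with h4 | h4
  · rw [h4, natCast_zsmul] at h3
    exact h3
  · rw [h4, neg_smul, natCast_zsmul, neg_eq_zero] at h3
    exact h3

variable {R S : Type} [Ring R] [Ring S]

theorem kTo_eq_zero (z : K0 R) (h : kTo R z = 0) : ∃ n : ℕ, n ≠ 0 ∧ n • z = 0 := by
  apply tors_of_tmul
  have h1 : toK R (kTo R z) = (1 : ℚ) ⊗ₜ[ℤ] z := by
    have h2 : ((toK R).toAddMonoidHom.comp (kTo R) : K0 R →+ ℚ ⊗[ℤ] K0 R) =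
        (TensorProduct.mk ℤ ℚ (K0 R) 1).toAddMonoidHom := by
      apply K0.hom_ext
      intro n e he
      have h3 := kTo_cls (R := R) ⟨n, e, he⟩
      change toK R (kTo R (K0.cls e he)) = _
      change kTo R (K0.cls e he) = _ at h3
      rw [h3, toK_cl]
      rfl
    exact DFunLike.congr_fun h2 z
  rw [← h1, h, map_zero]

end Rat

variable {J : Type} [Preorder J] [IsDirected J (· ≤ ·)] [Nonempty J] {P : J → Type}
  [∀ i, Group (P i)] {G : Type} [Group G] {f : ∀ i j, i ≤ j → (P i →* P j)} {g : ∀ i, P i →* G}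
  (h : DCG P f G g)

include h in
theorem kq_cont {i : J} (x : KQ (CMax (P i))) (hx : KQ.map (CMax.map (g i)) x = 0) :
    ∃ j, ∃ hij : i ≤ j, KQ.map (CMax.map (f i j hij)) x = 0 := by
  obtain ⟨n, z, hn, hz⟩ := exists_tmul (toK (CMax (P i)) x)
  have hx' : x = ((n : ℚ)⁻¹) • kTo (CMax (P i)) z := by
    rw [← fromK_toK x, hz, fromK_tmul]
  have hn' : ((n : ℚ)⁻¹) ≠ 0 := inv_ne_zero (Nat.cast_ne_zero.mpr hn)
  rw [hx', map_smul, smul_eq_zero, or_iff_right hn', ← kTo_nat] at hx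
  obtain ⟨m, hm, h1⟩ := kTo_eq_zero _ hx
  rw [← map_nsmul] at h1
  obtain ⟨j, hij, h2⟩ := k0_cont h (m • z) h1
  refine ⟨j, hij, ?_⟩
  rw [hx', map_smul, ← kTo_nat, smul_eq_zero, or_iff_right hn']
  have h3 := congrArg (kTo (CMax (P j))) h2
  rw [map_nsmul, map_nsmul, map_zero, ← Nat.cast_smul_eq_nsmul ℚ, smul_eq_zero] at h3
  exact h3.resolve_left (Nat.cast_ne_zero.mpr hm)

theorem cont_kC : Cont kC := by
  intro J _ _ _ P _ f G _ g h i x hx
  exact kq_cont h x hx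

end Pool.Agent.N506
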