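import Pool.Agent.N506.CM
import Pool.Agent.Y483.CS.Iso

/-!
Continuity of `K_0` of the maximal group C*-algebra along directed colimits of groups.
-/

set_option autoImplicit false

namespace Pool.Agent.N506

open Filter Topology UniformSpace Pool.Agent.Y483 Pool.Agent.Y483.CS Pool.Agent.R187.CI
  Pool.Agent.Y75.MQ TensorProduct Matrix

section K0

attribute [local instance] Matrix.linftyOpNormedRing

variable {J : Type} [Preorder J] [IsDirected J (· ≤ ·)] [Nonempty J] {P : J → Type}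
  [∀ i, Group (P i)] {G : Type} [Group G] {f : ∀ i j, i ≤ j → (P i →* P j)} {g : ∀ i, P i →* G}
  (h : DCG P f G g) {ι : Type} [Fintype ι] [DecidableEq ι]

include h

/-- Idempotents which become equivalent in the colimit are equivalent at a finite stage. -/
theorem eqv_cont {i : J} (p q : Matrix ι ι (CMax (P i))) (hp : p * p = p) (hq : q * q = q)
    (x y : Matrix ι ι (CMax G)) (h1 : x * y = mm (g i) p) (h2 : y * x = mm (g i) q) :
    ∃ k, ∃ hik : i ≤ k, Eqv (mm (f i k hik) p) (mm (f i k hik) q) := by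
  set e := mm (g i) p with he
  set e' := mm (g i) q with he'
  have ee : e * e = e := by rw [he, ← map_mul, hp]
  have ee' : e' * e' = e' := by rw [he', ← map_mul, hq]
  obtain ⟨N, hN⟩ : ∃ N : ℝ, N = ‖e * x * e'‖ + ‖e' * y * e‖ + 2 := ⟨_, rfl⟩
  have hN2 : 2 ≤ N := by rw [hN]; linarith [norm_nonneg (e * x * e'), norm_nonneg (e' * y * e)]
  obtain ⟨η, hη⟩ : ∃ η : ℝ, η = 1 / (2 * N ^ 2 + 2) := ⟨_, rfl⟩
  have hη0 : 0 < η := by rw [hη]; positivity
  have hη1 : 2 * η * N ^ 2 + η < 1 := by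
    have e1 : 2 * η * N ^ 2 + η = (2 * N ^ 2 + 1) / (2 * N ^ 2 + 2) := by
      rw [hη]; field_simp
    rw [e1, div_lt_one (by positivity)]
    linarith
  have hη2 : η ≤ 1 / 2 := by
    rw [hη]
    apply one_div_le_one_div_of_le (by norm_num)
    nlinarith
  -- the open set of good approximations
  have hxy : e * x * e' * (e' * y * e) = e := by
    have e1 : e * x * e' * (e' * y * e) = e * x * (e' * e') * y * e := by
      simp only [Matrix.mul_assoc]
    have e2 : e * x * e' * y * e = e * ((x * y) * (x * y)) * e := by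
      rw [← h2]; simp only [Matrix.mul_assoc]
    rw [e1, ee', e2, h1, ee, ee, ee]
  have hyx : e' * y * e * (e * x * e') = e' := by
    have e1 : e' * y * e * (e * x * e') = e' * y * (e * e) * x * e' := by
      simp only [Matrix.mul_assoc]
    have e2 : e' * y * e * x * e' = e' * ((y * x) * (y * x)) * e' := by
      rw [← h1]; simp only [Matrix.mul_assoc]
    rw [e1, ee, e2, h2, ee', ee', ee']
  have hopen : ∀ᶠ w : Matrix ι ι (CMax G) × Matrix ι ι (CMax G) in 𝓝 (x, y),
      ‖e * w.1 * e' * (e' * w.2 * e) - e‖ < η / 2 ∧ ‖e' * w.2 * e * (e * w.1 * e') - e'‖ < η / 2 ∧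
        ‖e * w.1 * e'‖ < N - 1 ∧ ‖e' * w.2 * e‖ < N - 1 := by
    have c1 : Continuous fun w : Matrix ι ι (CMax G) × Matrix ι ι (CMax G) => e * w.1 * e' :=
      (continuous_const.mul continuous_fst).mul continuous_const
    have c2 : Continuous fun w : Matrix ι ι (CMax G) × Matrix ι ι (CMax G) => e' * w.2 * e :=
      (continuous_const.mul continuous_snd).mul continuous_const
    have c3 := ((c1.mul c2).sub (continuous_const (y := e))).norm
    have c4 := ((c2.mul c1).sub (continuous_const (y := e'))).norm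
    refine Eventually.and ?_ (Eventually.and ?_ (Eventually.and ?_ ?_))
    · apply (c3.tendsto (x, y)).eventually_lt_const
      change ‖e * x * e' * (e' * y * e) - e‖ < η / 2
      rw [hxy, sub_self, norm_zero]
      linarith
    · apply (c4.tendsto (x, y)).eventually_lt_const
      change ‖e' * y * e * (e * x * e') - e'‖ < η / 2
      rw [hyx, sub_self, norm_zero]
      linarith
    · apply (c1.norm.tendsto (x, y)).eventually_lt_const
      change ‖e * x * e'‖ < N - 1
      rw [hN]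
      linarith [norm_nonneg (e' * y * e)]
    · apply (c2.norm.tendsto (x, y)).eventually_lt_const
      change ‖e' * y * e‖ < N - 1
      rw [hN]
      linarith [norm_nonneg (e * x * e')]
  obtain ⟨δ, hδ, hball⟩ := Metric.eventually_nhds_iff.mp hopen
  obtain ⟨j₁, hj₁, X₁, hX₁⟩ := mlift h i x hδ
  obtain ⟨j₂, hj₂, Y₁, hY₁⟩ := mlift h i y hδ
  obtain ⟨j, hj₁j, hj₂j⟩ := bound2 j₁ j₂
  have hij : i ≤ j := hj₁.trans hj₁j
  set X := mm (f j₁ j hj₁j) X₁ with hX
  set Y := mm (f j₂ j hj₂j) Y₁ with hY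
  have hXg : ‖mm (g j) X - x‖ < δ := by rw [hX, mm_ts h]; exact hX₁
  have hYg : ‖mm (g j) Y - y‖ < δ := by rw [hY, mm_ts h]; exact hY₁
  set pj := mm (f i j hij) p with hpj
  set qj := mm (f i j hij) q with hqj
  have pg : mm (g j) pj = e := by rw [hpj, mm_ts h]
  have qg : mm (g j) qj = e' := by rw [hqj, mm_ts h]
  obtain ⟨b1, b2, b3, b4⟩ := hball (y := (mm (g j) X, mm (g j) Y)) (by
    rw [Prod.dist_eq, max_lt_iff]
    exact ⟨by rw [dist_eq_norm]; exact hXg, by rw [dist_eq_norm]; exact hYg⟩)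
  have hη4 : 0 < η / 2 := by linarith
  have a1 := mcont h (pj * X * qj * (qj * Y * pj) - pj) hη4
  have a2 := mcont h (qj * Y * pj * (pj * X * qj) - qj) hη4
  have a3 := mcont h (pj * X * qj) one_pos
  have a4 := mcont h (qj * Y * pj) one_pos
  obtain ⟨k, hk⟩ := (a1.and (a2.and (a3.and (a4.and (eventually_ge_atTop j))))).exists
  obtain ⟨k1, k2, k3, k4, hjk⟩ := hk
  have k1 := k1 hjk
  have k2 := k2 hjk
  have k3 := k3 hjk
  have k4 := k4 hjk
  rw [map_sub, map_sub, map_mul, map_mul (mm (g j)) (pj * X * qj) (qj * Y * pj)] at k1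
  rw [map_sub, map_sub, map_mul, map_mul (mm (g j)) (qj * Y * pj) (pj * X * qj)] at k2
  have gX : mm (g j) (pj * X * qj) = e * mm (g j) X * e' := by rw [map_mul, map_mul, pg, qg]
  have gY : mm (g j) (qj * Y * pj) = e' * mm (g j) Y * e := by rw [map_mul, map_mul, pg, qg]
  rw [gX, gY, pg] at k1
  rw [gX, gY, qg] at k2
  rw [gX] at k3
  rw [gY] at k4
  set X' := mm (f j k hjk) (pj * X * qj) with hX'
  set Y' := mm (f j k hjk) (qj * Y * pj) with hY'
  set pk := mm (f j k hjk) pj with hpk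
  set qk := mm (f j k hjk) qj with hqk
  have ppj : pj * pj = pj := by rw [hpj, ← map_mul, hp]
  have qqj : qj * qj = qj := by rw [hqj, ← map_mul, hq]
  have n1 : ‖X' * Y' - pk‖ ≤ η := k1.trans (by linarith [b1.le])
  have n2 : ‖Y' * X' - qk‖ ≤ η := k2.trans (by linarith [b2.le])
  have n3 : ‖X'‖ ≤ N := k3.trans (by linarith [b3.le])
  have n4 : ‖Y'‖ ≤ N := k4.trans (by linarith [b4.le])
  have hcomp := Pool.Agent.Y574.CS.complete_mat (B := CMax (P k)) ι
  obtain ⟨x', -, y', -, hxy', hyx'⟩ := Pool.Agent.Y574.CS.perturb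
    (⊤ : AddSubgroup (Matrix ι ι (CMax (P k))))
    (by rw [AddSubgroup.coe_top]; exact isClosed_univ) (fun _ _ _ _ => trivial) (p := pk) (q := qk)
    (x := X') (y := Y') trivial trivial trivial (by rw [hpk, ← map_mul, ppj])
    (by rw [hqk, ← map_mul, qqj])
    (by rw [hpk, hX', ← map_mul, Matrix.mul_assoc pj X qj, ← Matrix.mul_assoc, ppj])
    (by rw [hqk, hX', ← map_mul, Matrix.mul_assoc (pj * X), qqj])
    (by rw [hqk, hY', ← map_mul, Matrix.mul_assoc qj Y pj, ← Matrix.mul_assoc, qqj])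
    (by rw [hpk, hY', ← map_mul, Matrix.mul_assoc (qj * Y), ppj])
    (n1.trans hη2) (by
      have h3 : 2 * ‖X' * Y' - pk‖ * ‖X'‖ * ‖Y'‖ ≤ 2 * η * N * N := by
        gcongr
      have h4 : 2 * η * N * N = 2 * η * N ^ 2 := by ring
      exact lt_of_le_of_lt (add_le_add (h3.trans h4.le) n2) hη1)
  have m1 : pk = mm (f i k (hij.trans hjk)) p := by rw [hpk, hpj, mm_ss h]
  have m2 : qk = mm (f i k (hij.trans hjk)) q := by rw [hqk, hqj, mm_ss h]
  exact ⟨k, hij.trans hjk, x', y', hxy'.trans m1, hyx'.trans m2⟩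

end K0

end Pool.Agent.N506
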