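import Pool.Agent.N506.HDc
import Pool.Agent.R615.KU.Cls2
import Pool.Agent.Y363.PW.L

/-!
The functor `G ↦ L₀(ℤ[G]; ε) ⊗ ℚ`; detecting groups are closed under directed colimits.
-/

namespace Pool.Agent.N506

open Pool.Agent.Y483 Pool.Agent.Y110.KW Pool.Agent.Y75.MQ Pool.Agent.R793.Mag CategoryTheory
  DirectSum Pool.Agent.Y483.PW Pool.Agent.R615.KU

section Functor

variable (ε : ℤˣ)

theorem zgMap_id1 (G : Type) [Group G] :
    zgMap (MonoidHom.id G) = NonUnitalStarRingHom.id (MonoidAlgebra ℤ G) := by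
  apply zgHom_ext
  intro g
  rw [zgMap_single]; rfl

theorem zgMap_comp1 {G K L : Type} [Group G] [Group K] [Group L] (f : G →* K) (g : K →* L) :
    zgMap (g.comp f) = (zgMap g).comp (zgMap f) := by
  apply zgHom_ext
  intro x
  rw [NonUnitalStarRingHom.comp_apply, zgMap_single, zgMap_single, zgMap_single]; rfl

theorem lfun_id (G : Type) [Group G] :
    ModuleCat.ofHom (LQ.map ε (zgMap (MonoidHom.id G))) =
      𝟙 (ModuleCat.of ℚ (LQ (MonoidAlgebra ℤ G) ε)) := by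
  apply ModuleCat.hom_ext
  apply LinearMap.ext
  intro z
  change LQ.map ε (zgMap (MonoidHom.id G)) z = z
  rw [zgMap_id1, LQ.map_id']

theorem lfun_comp {G K L : Type} [Group G] [Group K] [Group L] (f : G →* K) (g : K →* L) :
    ModuleCat.ofHom (LQ.map ε (zgMap (g.comp f))) =
      ModuleCat.ofHom (LQ.map ε (zgMap f)) ≫ ModuleCat.ofHom (LQ.map ε (zgMap g)) := by
  apply ModuleCat.hom_ext
  apply LinearMap.ext
  intro z
  change LQ.map ε (zgMap (g.comp f)) z = LQ.map ε (zgMap g) (LQ.map ε (zgMap f) z)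
  rw [zgMap_comp1, LQ.map_comp']

/-- The functor `G ↦ L₀(ℤ[G]; ε) ⊗ ℚ`. -/
noncomputable def lfun : GrpCat.{0} ⥤ ModuleCat.{0} ℚ where
  obj G := ModuleCat.of ℚ (LQ (MonoidAlgebra ℤ G) ε)
  map f := ModuleCat.ofHom (LQ.map ε (zgMap f.hom))
  map_id G := lfun_id ε G
  map_comp f g := lfun_comp ε f.hom g.hom

/-- The projection `G × 1 → G`. -/
def pr1 (G : Type) [Group G] : G × Unit →* G := MonoidHom.fst G Unit

/-- The inclusion `G → G × 1`. -/
def in1 (G : Type) [Group G] : G →* G × Unit := MonoidHom.inl G Unit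

theorem ptL1 {G A K : Type} [Group G] [Group K] (κ : FinPair G A K) :
    ∃ Φ : LQ (MonoidAlgebra ℤ (G × Unit)) ε →ₗ[ℚ] LQ (MonoidAlgebra ℤ (K × Unit)) ε,
      ∀ (G₀ : Type) [Group G₀] (j : G₀ →* G) (Y : Finset A) (lc ld : A → (G₀ →* K)),
        (∀ a ∈ Y, ∀ g, κ.σ (j g) a = a ∧ lc a g = κ.c (j g) a ∧ ld a g = κ.d (j g) a) →
        (∀ a ∉ Y, ∀ g, κ.c (j g) a = κ.d (j g) a) →
        ∀ x : LQ (MonoidAlgebra ℤ (G₀ × Unit)) ε,
          Φ (LQ.map ε (zgMap (timesT j Unit)) x) =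
            ∑ a ∈ Y, (LQ.map ε (zgMap (timesT (lc a) Unit)) x -
              LQ.map ε (zgMap (timesT (ld a) Unit)) x) :=
  Pool.Agent.Y363.PW.hasPT_lgrp ε Unit G A K κ

theorem ptL {G A K : Type} [Group G] [Group K] (κ : FinPair G A K) :
    ∃ Φ : LQ (MonoidAlgebra ℤ G) ε →ₗ[ℚ] LQ (MonoidAlgebra ℤ K) ε,
      ∀ (G₀ : Type) [Group G₀] (j : G₀ →* G) (Y : Finset A) (lc ld : A → (G₀ →* K)),
        (∀ a ∈ Y, ∀ g, κ.σ (j g) a = a ∧ lc a g = κ.c (j g) a ∧ ld a g = κ.d (j g) a) →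
        (∀ a ∉ Y, ∀ g, κ.c (j g) a = κ.d (j g) a) →
        ∀ x : LQ (MonoidAlgebra ℤ G₀) ε,
          Φ (LQ.map ε (zgMap j) x) =
            ∑ a ∈ Y, (LQ.map ε (zgMap (lc a)) x - LQ.map ε (zgMap (ld a)) x) := by
  obtain ⟨Φ, hΦ⟩ := ptL1 ε κ
  refine ⟨(LQ.map ε (zgMap (pr1 K))) ∘ₗ Φ ∘ₗ (LQ.map ε (zgMap (in1 G))), ?_⟩
  intro G₀ _ j Y lc ld h1 h2 x
  have e1 : LQ.map ε (zgMap (in1 G)) (LQ.map ε (zgMap j) x) =
      LQ.map ε (zgMap (timesT j Unit)) (LQ.map ε (zgMap (in1 G₀)) x) := by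
    rw [← LQ.map_comp', ← LQ.map_comp', ← zgMap_comp1, ← zgMap_comp1]
    rfl
  have e2 : ∀ f : G₀ →* K, LQ.map ε (zgMap (pr1 K)) (LQ.map ε (zgMap (timesT f Unit))
      (LQ.map ε (zgMap (in1 G₀)) x)) = LQ.map ε (zgMap f) x := by
    intro f
    rw [← LQ.map_comp', ← LQ.map_comp', ← zgMap_comp1, ← zgMap_comp1]
    rfl
  rw [LinearMap.comp_apply, LinearMap.comp_apply, e1, hΦ G₀ j Y lc ld h1 h2, map_sum]
  apply Finset.sum_congr rfl
  intro a _
  rw [map_sub, e2, e2]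

theorem hasPT_lfun : HasPT (lfun ε) := by
  intro G A K _ _ κ
  exact ptL ε κ

end Functor

theorem pairT_of_PT {E : GrpCat.{0} ⥤ ModuleCat.{0} ℚ} (hE : HasPT E) :
    HasPairTransfers E := by
  intro G A K _ _ κ
  obtain ⟨Φ, hΦ⟩ := hE G A K κ
  refine ⟨Φ, ?_⟩
  intro G₀ _ j hj Y hY x
  exact hΦ G₀ j Y (fun a => labelC κ j hj a) (fun a => labelD κ j hj a)
    (fun a _ g => ⟨hj g a, rfl, rfl⟩) hY x

/-- The functor `E` is continuous along directed colimits: an element of a finite stage which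
vanishes in the colimit vanishes at a finite stage. -/
def Cont (E : GrpCat.{0} ⥤ ModuleCat.{0} ℚ) : Prop :=
  ∀ (J : Type) [Preorder J] [IsDirected J (· ≤ ·)] [Nonempty J] (P : J → Type)
    [∀ i, Group (P i)] (f : ∀ i j, i ≤ j → (P i →* P j)) (G : Type) [Group G]
    (g : ∀ i, P i →* G), DCG P f G g → ∀ (i : J) (x : E.obj (GrpCat.of (P i))),
      emap E (g i) x = 0 → ∃ j, ∃ hj : i ≤ j, emap E (f i j hj) x = 0

theorem cont_lfun (ε : ℤˣ) : Cont (lfun ε) := by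
  intro J _ _ _ P _ f G _ g h i x hx
  exact h.ring.lq ε x hx

section Colim

variable {J : Type} [Preorder J] [IsDirected J (· ≤ ·)] [Nonempty J] {P : J → Type}
  [∀ i, Group (P i)] {G : Type} [Group G] {f : ∀ i j, i ≤ j → (P i →* P j)} {g : ∀ i, P i →* G}

omit [IsDirected J (· ≤ ·)] [Nonempty J] in
theorem DCG.comp_s (h : DCG P f G g) {i j k : J} (h1 : i ≤ j) (h2 : j ≤ k) :
    (f j k h2).comp (f i j h1) = f i k (h1.trans h2) := MonoidHom.ext fun x => h.ss i j k h1 h2 x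

omit [IsDirected J (· ≤ ·)] [Nonempty J] in
theorem DCG.comp_t (h : DCG P f G g) {i j : J} (h1 : i ≤ j) :
    (g j).comp (f i j h1) = g i := MonoidHom.ext fun x => h.ts i j h1 x

theorem DCG.hb_surj (h : DCG P f G g) {B : Type} (d : B → ℕ) (x : HB d G) :
    ∃ i, ∃ y : HB d (P i), hbMap d (g i) y = x := by
  classical
  induction x using DirectSum.induction_on with
  | zero =>
    obtain ⟨i⟩ := (inferInstance : Nonempty J)
    exact ⟨i, 0, map_zero _⟩
  | of b x =>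
    obtain ⟨i, y, hy⟩ := h.hq_surj (d b) x
    exact ⟨i, DirectSum.of (fun b : B => HQ (d b) (P i)) b y, by rw [hbMap_of, hy]⟩
  | add x y hx hy =>
    obtain ⟨i, a, ha⟩ := hx
    obtain ⟨j, b, hb⟩ := hy
    obtain ⟨m, h1, h2⟩ := bound2 i j
    refine ⟨m, hbMap d (f i m h1) a + hbMap d (f j m h2) b, ?_⟩
    rw [map_add, ← hbMap_comp, ← hbMap_comp, h.comp_t, h.comp_t, ha, hb]

/-- Directed colimits of detecting groups are detecting. -/
theorem DCG.det {E : GrpCat.{0} ⥤ ModuleCat.{0} ℚ} (hE : Cont E) (h : DCG P f G g)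
    (hP : ∀ i, Det E (P i)) : Det E G := by
  intro T _ I α hα
  change LinearMap.ker (tb (dg (I := I)) (fam α) G) = ⊥
  rw [eq_bot_iff]
  intro x hx
  rw [Submodule.mem_bot]
  obtain ⟨i, y, rfl⟩ := h.hb_surj (dg (I := I)) x
  have h1 : emap (timesF T ⋙ E) (g i) (tb (dg (I := I)) (fam α) (P i) y) = 0 := by
    rw [tb_nat]
    exact LinearMap.mem_ker.mp hx
  obtain ⟨j, hj, h2⟩ := hE J (fun i => P i × T) (fun i j hij => timesT (f i j hij) T) (G × T)
    (fun i => timesT (g i) T) (h.times T) i (tb (dg (I := I)) (fam α) (P i) y) h1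
  have h3 : tb (dg (I := I)) (fam α) (P j) (hbMap (dg (I := I)) (f i j hj) y) = 0 := by
    rw [← tb_nat]
    exact h2
  have h4 : LinearMap.ker (tb (dg (I := I)) (fam α) (P j)) = ⊥ := hP j T I α hα
  have h5 : hbMap (dg (I := I)) (f i j hj) y = 0 := by
    have : hbMap (dg (I := I)) (f i j hj) y ∈ LinearMap.ker (tb (dg (I := I)) (fam α) (P j)) :=
      LinearMap.mem_ker.mpr h3
    rwa [h4, Submodule.mem_bot] at this
  rw [← h.comp_t hj, hbMap_comp, h5, map_zero]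

end Colim

end Pool.Agent.N506
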