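import Pool.Agent.N506.CN
import Pool.Agent.N506.Cl

/-!
Maximal C*-algebras of directed colimits of groups: approximation of elements and matrices, and
continuity of the norm.
-/

set_option autoImplicit false

namespace Pool.Agent.N506

open Filter Topology UniformSpace Pool.Agent.Y483 Pool.Agent.Y483.CS Pool.Agent.R187.CI

section C

variable {J : Type} [Preorder J] [IsDirected J (· ≤ ·)] [Nonempty J] {P : J → Type}
  [∀ i, Group (P i)] {G : Type} [Group G] {f : ∀ i j, i ≤ j → (P i →* P j)} {g : ∀ i, P i →* G}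
  (h : DCG P f G g)

include h

omit [IsDirected J (· ≤ ·)] [Nonempty J] in
theorem cmap_ss {i j k : J} (h1 : i ≤ j) (h2 : j ≤ k) (z : CMax (P i)) :
    CMax.map (f j k h2) (CMax.map (f i j h1) z) = CMax.map (f i k (h1.trans h2)) z := by
  rw [← h.comp_s h1 h2, CMax.map_comp]
  rfl

omit [IsDirected J (· ≤ ·)] [Nonempty J] in
theorem cmap_ts {i j : J} (h1 : i ≤ j) (z : CMax (P i)) :
    CMax.map (g j) (CMax.map (f i j h1) z) = CMax.map (g i) z := by
  rw [← h.comp_t h1, CMax.map_comp]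
  rfl

theorem cnorm_cont {i : J} (z : CMax (P i)) {ε : ℝ} (hε : 0 < ε) :
    ∀ᶠ k in atTop, ∀ hik : i ≤ k, ‖CMax.map (f i k hik) z‖ ≤ ‖CMax.map (g i) z‖ + ε := by
  have h0 : ∃ j, ∃ hij : i ≤ j, ‖CMax.map (f i j hij) z‖ ≤ ‖CMax.map (g i) z‖ + ε := by
    obtain ⟨b, hb⟩ := exists_toC z (ε := ε / 4) (by linarith)
    by_contra hcon
    push Not at hcon
    have key : ∀ {K : Type} [Group K] (φ : P i →* K),
        ‖CMax.map φ z‖ ≤ ‖GA.map φ b‖ + ε / 4 ∧ ‖GA.map φ b‖ ≤ ‖CMax.map φ z‖ + ε / 4 := by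
      intro K _ φ
      have h1 : ‖CMax.map φ (z - toC b)‖ ≤ ε / 4 := (CMax_norm_map_le φ _).trans hb.le
      rw [map_sub, CMax.map_coe] at h1
      have h2 : ‖toC (GA.map φ b)‖ = ‖GA.map φ b‖ := norm_toC _
      constructor
      · have h3 := norm_sub_norm_le (CMax.map φ z) (toC (GA.map φ b))
        rw [h2] at h3
        linarith
      · have h3 := norm_sub_norm_le (toC (GA.map φ b)) (CMax.map φ z)
        rw [h2, norm_sub_rev] at h3
        linarith
    have h3 := norm_cont h (i := i) b (c := ‖GA.map (g i) b‖ + ε / 4)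
      (by have := norm_nonneg (GA.map (g i) b); linarith) (fun j hij => by
        have h4 := hcon j hij
        have h5 := (key (f i j hij)).1
        have h6 := (key (g i)).2
        linarith)
    linarith
  obtain ⟨j, hij, hj⟩ := h0
  filter_upwards [eventually_ge_atTop j] with k hjk hik
  rw [← cmap_ss h hij hjk]
  exact (CMax_norm_map_le _ _).trans hj

theorem ga_lift (i₀ : J) (b : GA G) : ∃ j, i₀ ≤ j ∧ ∃ b' : GA (P j), GA.map (g j) b' = b := by
  have hss : ∀ {i j : J} (h1 : i ≤ j) (x : GA (P i)),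
      GA.map (g j) (GA.map (f i j h1) x) = GA.map (g i) x := by
    intro i j h1 x
    induction x using GA.ind with
    | h0 => simp
    | hadd a b ha hb => simp [ha, hb]
    | hs γ c =>
      rw [GA.map_single, GA.map_single, GA.map_single]
      congr 1
      exact h.ts i j h1 γ
  induction b using GA.ind with
  | h0 => exact ⟨i₀, le_refl _, 0, map_zero _⟩
  | hadd a b ha hb =>
    obtain ⟨j, h1, a', rfl⟩ := ha
    obtain ⟨k, h2, b', rfl⟩ := hb
    obtain ⟨m, h3, h4⟩ := bound2 j k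
    refine ⟨m, h1.trans h3, GA.map (f j m h3) a' + GA.map (f k m h4) b', ?_⟩
    rw [map_add, hss, hss]
  | hs γ c =>
    obtain ⟨j, y, rfl⟩ := h.surj γ
    obtain ⟨m, h3, h4⟩ := bound2 i₀ j
    refine ⟨m, h3, (MonoidAlgebra.single (f j m h4 y) c : MonoidAlgebra ℂ (P m)), ?_⟩
    rw [GA.map_single]
    congr 1
    exact h.ts j m h4 y

theorem c_lift (i₀ : J) (z : CMax G) {ε : ℝ} (hε : 0 < ε) :
    ∃ j, i₀ ≤ j ∧ ∃ y : CMax (P j), ‖CMax.map (g j) y - z‖ ≤ ε := by
  obtain ⟨b, hb⟩ := exists_toC z hε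
  obtain ⟨j, hj, b', rfl⟩ := ga_lift h i₀ b
  refine ⟨j, hj, toC b', ?_⟩
  rw [CMax.map_coe, norm_sub_rev]
  exact hb.le

end C

section Mat

attribute [local instance] Matrix.linftyOpNormedRing

variable {J : Type} [Preorder J] [IsDirected J (· ≤ ·)] [Nonempty J] {P : J → Type}
  [∀ i, Group (P i)] {G : Type} [Group G] {f : ∀ i j, i ≤ j → (P i →* P j)} {g : ∀ i, P i →* G}
  (h : DCG P f G g) {ι : Type} [Fintype ι] [DecidableEq ι]

/-- The map of matrices over the maximal C*-algebras. -/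
noncomputable def mm {K L : Type} [Group K] [Group L] (φ : K →* L) :
    Matrix ι ι (CMax K) →+* Matrix ι ι (CMax L) := (CMax.map φ).mapMatrix

theorem mm_apply {K L : Type} [Group K] [Group L] (φ : K →* L) (M : Matrix ι ι (CMax K)) :
    mm φ M = M.map (CMax.map φ) := rfl

theorem mm_app {K L : Type} [Group K] [Group L] (φ : K →* L) (M : Matrix ι ι (CMax K))
    (a b : ι) : mm φ M a b = CMax.map φ (M a b) := rfl

include h

omit [IsDirected J (· ≤ ·)] [Nonempty J] in
theorem mm_ss {i j k : J} (h1 : i ≤ j) (h2 : j ≤ k) (M : Matrix ι ι (CMax (P i))) :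
    mm (f j k h2) (mm (f i j h1) M) = mm (f i k (h1.trans h2)) M := by
  ext a b
  rw [mm_app, mm_app, mm_app, cmap_ss h]

omit [IsDirected J (· ≤ ·)] [Nonempty J] in
theorem mm_ts {i j : J} (h1 : i ≤ j) (M : Matrix ι ι (CMax (P i))) :
    mm (g j) (mm (f i j h1) M) = mm (g i) M := by
  ext a b
  rw [mm_app, mm_app, mm_app, cmap_ts h]

theorem mcont {i : J} (M : Matrix ι ι (CMax (P i))) {ε : ℝ} (hε : 0 < ε) :
    ∀ᶠ k in atTop, ∀ hik : i ≤ k, ‖mm (f i k hik) M‖ ≤ ‖mm (g i) M‖ + ε := by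
  have hδ : 0 < ε / (Fintype.card ι + 1) := by positivity
  have h1 : ∀ᶠ k in atTop, ∀ a b : ι, ∀ hik : i ≤ k,
      ‖CMax.map (f i k hik) (M a b)‖ ≤ ‖CMax.map (g i) (M a b)‖ + ε / (Fintype.card ι + 1) := by
    rw [eventually_all]
    intro a
    rw [eventually_all]
    intro b
    exact cnorm_cont h (M a b) hδ
  filter_upwards [h1] with k hk hik
  obtain ⟨c, hc⟩ : ∃ c : NNReal, (c : ℝ) = ‖mm (g i) M‖ + ε := ⟨⟨‖mm (g i) M‖ + ε, by positivity⟩, rfl⟩
  have h2 : ‖mm (f i k hik) M‖₊ ≤ c := by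
    rw [Matrix.linfty_opNNNorm_def]
    refine Finset.sup_le fun a _ => ?_
    rw [← NNReal.coe_le_coe, NNReal.coe_sum, hc]
    have h3 : (∑ b, (‖mm (g i) M a b‖₊ : ℝ)) ≤ ‖mm (g i) M‖ := by
      rw [← coe_nnnorm, Matrix.linfty_opNNNorm_def, ← NNReal.coe_sum, NNReal.coe_le_coe]
      exact Finset.le_sup (f := fun a => ∑ b, ‖mm (g i) M a b‖₊) (Finset.mem_univ a)
    refine (Finset.sum_le_sum (g := fun b => ‖mm (g i) M a b‖ + ε / (Fintype.card ι + 1))
      fun b _ => hk a b hik).trans ?_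
    rw [Finset.sum_add_distrib, Finset.sum_const, Finset.card_univ, nsmul_eq_mul]
    have h4 : (Fintype.card ι : ℝ) * (ε / (Fintype.card ι + 1)) ≤ ε := by
      rw [mul_div_assoc', div_le_iff₀ (by positivity)]
      nlinarith
    exact add_le_add h3 h4
  rw [← hc, ← coe_nnnorm]
  exact_mod_cast h2

theorem mlift (i₀ : J) (M : Matrix ι ι (CMax G)) {ε : ℝ} (hε : 0 < ε) :
    ∃ j, i₀ ≤ j ∧ ∃ Y : Matrix ι ι (CMax (P j)), ‖mm (g j) Y - M‖ < ε := by
  have hδ : 0 < ε / (Fintype.card ι + 1) := by positivity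
  choose j hj Y hY using fun (a b : ι) => c_lift h i₀ (M a b) hδ
  obtain ⟨m, hm⟩ := bound (fun p : ι × ι => j p.1 p.2)
  obtain ⟨m', h1, h2⟩ := bound2 i₀ m
  refine ⟨m', h1, Matrix.of fun a b => CMax.map (f _ m' ((hm (a, b)).trans h2)) (Y a b), ?_⟩
  have h3 : ‖mm (g m') (Matrix.of fun a b => CMax.map (f _ m' ((hm (a, b)).trans h2)) (Y a b)) -
      M‖ ≤ Fintype.card ι * (ε / (Fintype.card ι + 1)) := by
    obtain ⟨δ', hδ'⟩ : ∃ δ' : NNReal, (δ' : ℝ) = ε / (Fintype.card ι + 1) := ⟨⟨_, hδ.le⟩, rfl⟩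
    rw [← hδ']
    have h1 : ‖mm (g m') (Matrix.of fun a b =>
        CMax.map (f _ m' ((hm (a, b)).trans h2)) (Y a b)) - M‖₊ ≤ (Fintype.card ι : NNReal) * δ' := by
      rw [Matrix.linfty_opNNNorm_def]
      refine Finset.sup_le fun a _ => ?_
      refine (Finset.sum_le_sum (g := fun _ => δ') fun b _ => ?_).trans ?_
      · rw [← NNReal.coe_le_coe, hδ', coe_nnnorm]
        have h4 : (mm (g m') (Matrix.of fun a b =>
            CMax.map (f _ m' ((hm (a, b)).trans h2)) (Y a b)) - M) a b =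
            CMax.map (g (j a b)) (Y a b) - M a b := by
          rw [Matrix.sub_apply, mm_app, Matrix.of_apply, cmap_ts h]
        rw [h4]
        exact hY a b
      · rw [Finset.sum_const, Finset.card_univ, nsmul_eq_mul]
    exact_mod_cast h1
  refine h3.trans_lt ?_
  rw [mul_div_assoc', div_lt_iff₀ (by positivity)]
  nlinarith

end Mat

end Pool.Agent.N506
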