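import Pool.Agent.N506.LDc
import Pool.Agent.Y483.Functors
import Pool.Agent.Y483.Main

/-!
Rational homology and rationalised L-groups of group rings of directed colimits of groups.
-/

namespace Pool.Agent.N506

open Pool.Agent.Y483 Finsupp

theorem zg_coeff {G K : Type} [Group G] [Group K] (f : G →* K) (x : MonoidAlgebra ℤ G) :
    (zgMap f x).coeff = mapDomain f x.coeff := by
  induction x using MonoidAlgebra.induction_linear with
  | zero => rw [map_zero]; exact mapDomain_zero.symm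
  | add x y hx hy =>
    rw [map_add]
    change (zgMap f x).coeff + (zgMap f y).coeff = mapDomain f (x.coeff + y.coeff)
    rw [hx, hy, mapDomain_add]
  | single g n =>
    rw [zgMap_single]
    exact mapDomain_single.symm

theorem mp_eq {X Y : Type} (n : ℕ) (f : X → Y) (z : T n X ℚ) :
    mp n f LinearMap.id z = mapDomain (fun x a => f (x a)) z := by
  have h : mp n f (LinearMap.id : ℚ →ₗ[ℚ] ℚ) = lmapDomain ℚ ℚ (fun x a => f (x a)) := by
    apply T_ext
    intro x m
    rw [mp_single, lmapDomain_apply, mapDomain_single]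
    rfl
  rw [h]
  rfl

section Groups

variable {J : Type} [Preorder J] [IsDirected J (· ≤ ·)] [Nonempty J] {P : J → Type}
  [∀ i, Group (P i)] {G : Type} [Group G] {f : ∀ i j, i ≤ j → (P i →* P j)} {g : ∀ i, P i →* G}

theorem DCG.times (h : DCG P f G g) (X : Type) [Group X] :
    DCG (fun i => P i × X) (fun i j hij => timesT (f i j hij) X) (G × X)
      (fun i => timesT (g i) X) := DC.times h X

theorem DCG.ring (h : DCG P f G g) :
    DCR (fun i => MonoidAlgebra ℤ (P i)) (fun i j hij => zgMap (f i j hij)) (MonoidAlgebra ℤ G)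
      (fun i => zgMap (g i)) := by
  have H := DC.finsupp h ℤ
  have e : ∀ {K : Type} [Group K] {x y : MonoidAlgebra ℤ K}, x.coeff = y.coeff → x = y := by
    intro K _ x y h
    cases x; cases y
    exact congrArg _ h
  refine ⟨?_, ?_, ?_, ?_⟩
  · intro i j k h1 h2 x
    apply e
    rw [zg_coeff, zg_coeff, zg_coeff]
    exact H.ss i j k h1 h2 x.coeff
  · intro i j h1 x
    apply e
    rw [zg_coeff, zg_coeff, zg_coeff]
    exact H.ts i j h1 x.coeff
  · intro y
    obtain ⟨i, x, hx⟩ := H.surj y.coeff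
    exact ⟨i, ⟨x⟩, e (by rw [zg_coeff]; exact hx)⟩
  · intro i x y hxy
    obtain ⟨j, hj, h1⟩ := H.inj i x.coeff y.coeff (by
      rw [← zg_coeff, ← zg_coeff]; exact congrArg MonoidAlgebra.coeff hxy)
    exact ⟨j, hj, e (by rw [zg_coeff, zg_coeff]; exact h1)⟩

theorem DCG.chains (h : DCG P f G g) (n : ℕ) :
    DC (fun i => T n (P i) ℚ) (fun i j hij z => mp n (f i j hij) LinearMap.id z) (T n G ℚ)
      (fun i z => mp n (g i) LinearMap.id z) := by
  have H := (DC.tuple h (Fin n)).finsupp ℚ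
  refine ⟨?_, ?_, ?_, ?_⟩
  · intro i j k h1 h2 x
    rw [mp_eq, mp_eq, mp_eq]
    exact H.ss i j k h1 h2 x
  · intro i j h1 x
    rw [mp_eq, mp_eq, mp_eq]
    exact H.ts i j h1 x
  · intro y
    obtain ⟨i, x, hx⟩ := H.surj y
    exact ⟨i, x, (mp_eq _ _ _).trans hx⟩
  · intro i x y hxy
    rw [mp_eq, mp_eq] at hxy
    obtain ⟨j, hj, h1⟩ := H.inj i x y hxy
    exact ⟨j, hj, by rw [mp_eq, mp_eq]; exact h1⟩

/-- Each homology class of a directed colimit comes from a finite stage. -/
theorem DCG.hq_surj (h : DCG P f G g) (n : ℕ) (x : HQ n G) :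
    ∃ i, ∃ y : HQ n (P i), hqMap (g i) n y = x := by
  obtain ⟨z, hz⟩ := exists_rpr (Rep.trivial ℚ G ℚ) n x
  obtain ⟨i, w, hw⟩ := (h.chains n).surj z
  have hfin : ∃ j, ∃ hj : i ≤ j, Cyc (tQ (P j)) n (mp n (f i j hj) LinearMap.id w) := by
    cases n with
    | zero => exact ⟨i, le_refl i, Cyc.zero _ _⟩
    | succ n =>
      have h1 : dd (tQ G) n z = 0 := (cyc_succ _ _ _).mp hz.cyc
      have h2 : mp n (g i) LinearMap.id (dd (tQ (P i)) n w) =
          mp n (g i) LinearMap.id (0 : T n (P i) ℚ) := by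
        rw [map_zero, ← dd_mp (ρ := tQ (P i)) (τ := tQ G) (g i) LinearMap.id (fun _ _ => rfl), hw,
          h1]
      obtain ⟨j, hj, h3⟩ := (h.chains n).inj i _ _ h2
      refine ⟨j, hj, (cyc_succ _ _ _).mpr ?_⟩
      rw [dd_mp (ρ := tQ (P i)) (τ := tQ (P j)) (f i j hj) LinearMap.id (fun _ _ => rfl)]
      exact h3.trans (map_zero _)
  obtain ⟨j, hj, hc⟩ := hfin
  obtain ⟨y, hy⟩ := exists_class (A := Rep.trivial ℚ (P j) ℚ) n _ hc
  refine ⟨j, y, ?_⟩
  have h4 := hy.hq (g j)
  have h5 : mp n (g j) LinearMap.id (mp n (f i j hj) LinearMap.id w) = z :=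
    ((h.chains n).ts i j hj w).trans hw
  rw [h5] at h4
  have h6 := h4.sub hz
  rw [sub_self] at h6
  rw [← sub_eq_zero, h6.eq_zero_iff]
  exact Submodule.zero_mem _

end Groups

end Pool.Agent.N506
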