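import Pool.Agent.N506.UL
import Pool.Agent.N506.HDc
import Pool.Agent.R187.CI.Cnt

/-!
Continuity of the maximal norm on group algebras along directed colimits of groups.
-/

set_option autoImplicit false

namespace Pool.Agent.N506

open Filter Topology UniformSpace Pool.Agent.Y483 Pool.Agent.Y483.CS Finsupp

section Lift

variable {J : Type} [Preorder J] [IsDirected J (· ≤ ·)] [Nonempty J] {P : J → Type}
  [∀ i, Group (P i)] {G : Type} [Group G] {f : ∀ i j, i ≤ j → (P i →* P j)} {g : ∀ i, P i →* G}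

open Classical in
/-- Lifts of the elements of `G`. -/
noncomputable def lf (h : DCG P f G g) (j : J) (γ : G) : P j :=
  if hj : (h.surj γ).choose ≤ j then f _ j hj (h.surj γ).choose_spec.choose else 1

variable (h : DCG P f G g)

theorem lf_ev (i : J) (y : P i) :
    ∀ᶠ j in atTop, ∃ hij : i ≤ j, lf h j (g i y) = f i j hij y := by
  have hy' : g (h.surj (g i y)).choose (h.surj (g i y)).choose_spec.choose = g i y :=
    (h.surj (g i y)).choose_spec.choose_spec
  obtain ⟨m, h1, h2⟩ := bound2 i (h.surj (g i y)).choose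
  have h3 : g m (f i m h1 y) =
      g m (f _ m h2 (h.surj (g i y)).choose_spec.choose) := by
    have e1 := h.ts i m h1 y
    have e2 := h.ts _ m h2 (h.surj (g i y)).choose_spec.choose
    exact e1.trans (hy'.symm.trans e2.symm)
  obtain ⟨m', h4, h5⟩ := h.inj m _ _ h3
  filter_upwards [eventually_ge_atTop m'] with j hj
  refine ⟨h1.trans (h4.trans hj), ?_⟩
  unfold lf
  rw [dif_pos (h2.trans (h4.trans hj))]
  have e1 := congrArg (f m' j hj) h5
  have e2 := h.ss m m' j h4 hj (f i m h1 y)
  have e3 := h.ss i m j h1 (h4.trans hj) y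
  have e4 := h.ss m m' j h4 hj (f _ m h2 (h.surj (g i y)).choose_spec.choose)
  have e5 := h.ss _ m j h2 (h4.trans hj) (h.surj (g i y)).choose_spec.choose
  exact e5.symm.trans (e4.symm.trans (e1.symm.trans (e2.trans e3)))

theorem lf_mul (γ δ : G) : ∀ᶠ j in atTop, lf h j (γ * δ) = lf h j γ * lf h j δ := by
  obtain ⟨i, y, rfl⟩ := h.surj γ
  obtain ⟨k, z, rfl⟩ := h.surj δ
  obtain ⟨m, h1, h2⟩ := bound2 i k
  have e1 : g m (f i m h1 y) = g i y := h.ts i m h1 y
  have e2 : g m (f k m h2 z) = g k z := h.ts k m h2 z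
  have e3 : g i y * g k z = g m (f i m h1 y * f k m h2 z) := by rw [map_mul, e1, e2]
  filter_upwards [lf_ev h i y, lf_ev h k z, lf_ev h m (f i m h1 y * f k m h2 z)] with j
    ⟨a1, b1⟩ ⟨a2, b2⟩ ⟨a3, b3⟩
  change lf h j (g i y * g k z) = lf h j (g i y) * lf h j (g k z)
  rw [e3, b3, b1, b2, map_mul]
  have e4 : f m j a3 (f i m h1 y) = f i j a1 y := h.ss i m j h1 a3 y
  have e5 : f m j a3 (f k m h2 z) = f k j a2 z := h.ss k m j h2 a3 z
  rw [e4, e5]

theorem lf_one : ∀ᶠ j in atTop, lf h j (1 : G) = 1 := by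
  obtain ⟨i⟩ := (inferInstance : Nonempty J)
  filter_upwards [lf_ev h i 1] with j ⟨a, b⟩
  rw [map_one, map_one] at b
  exact b

/-- The value of an operator. -/
def ap {K : Type} [Group K] {π : URep K} (T : π.X.Op) (x : π.X.H) : π.X.H :=
  (show π.X.H →L[ℂ] π.X.H from T) x

theorem ap_norm_le {K : Type} [Group K] {π : URep K} (k : K) (x : π.X.H) :
    ‖ap (π.rep k) x‖ ≤ ‖x‖ := by
  refine ((show π.X.H →L[ℂ] π.X.H from π.rep k).le_opNorm x).trans ?_
  exact mul_le_of_le_one_left (norm_nonneg _) (π.norm_le k)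

theorem ap_mul {K : Type} [Group K] {π : URep K} (S T : π.X.Op) (x : π.X.H) :
    ap (S * T) x = ap S (ap T x) := rfl

theorem ap_add {K : Type} [Group K] {π : URep K} (S T : π.X.Op) (x : π.X.H) :
    ap (S + T) x = ap S x + ap T x := rfl

theorem ap_smul {K : Type} [Group K] {π : URep K} (c : ℂ) (T : π.X.Op) (x : π.X.H) :
    ap (c • T) x = c • ap T x := rfl

theorem ap_map_add {K : Type} [Group K] {π : URep K} (T : π.X.Op) (x y : π.X.H) :
    ap T (x + y) = ap T x + ap T y := map_add (show π.X.H →L[ℂ] π.X.H from T) x y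

theorem ap_map_smul {K : Type} [Group K] {π : URep K} (T : π.X.Op) (c : ℂ) (x : π.X.H) :
    ap T (c • x) = c • ap T x := map_smul (show π.X.H →L[ℂ] π.X.H from T) c x

theorem ap_map_zero {K : Type} [Group K] {π : URep K} (T : π.X.Op) :
    ap T (0 : π.X.H) = 0 := map_zero (show π.X.H →L[ℂ] π.X.H from T)

variable (π : ∀ j, URep (P j)) (ξ : ∀ j, (π j).X.H)

/-- The orbit maps. -/
noncomputable def vm (j : J) : (G →₀ ℂ) →ₗ[ℂ] (π j).X.H :=
  Finsupp.linearCombination ℂ fun γ => ap ((π j).rep (lf h j γ)) (ξ j)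

theorem vm_single (j : J) (γ : G) (c : ℂ) :
    vm h π ξ j (single γ c) = c • ap ((π j).rep (lf h j γ)) (ξ j) := by
  rw [vm, linearCombination_single]

variable {ξ} (hξ : ∀ j, ‖ξ j‖ ≤ 1)

include hξ in
theorem vm_data : ULData (fun j => (π j).X.H) (vm h π ξ) where
  bdd a := by
    refine ⟨∑ γ ∈ a.support, ‖a γ‖, fun j => ?_⟩
    rw [vm, linearCombination_apply, Finsupp.sum]
    refine (norm_sum_le _ _).trans (Finset.sum_le_sum fun γ _ => ?_)
    rw [norm_smul]
    exact mul_le_of_le_one_right (norm_nonneg _) ((ap_norm_le _ _).trans (hξ j))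

/-- Translations. -/
noncomputable def tl (γ : G) : (G →₀ ℂ) →ₗ[ℂ] (G →₀ ℂ) := Finsupp.lmapDomain ℂ ℂ (γ * ·)

theorem tl_single (γ δ : G) (c : ℂ) : tl γ (single δ c) = single (γ * δ) c := by
  rw [tl, lmapDomain_apply, mapDomain_single]

theorem vm_tl (γ : G) (a : G →₀ ℂ) : ∀ᶠ j in atTop,
    vm h π ξ j (tl γ a) = ap ((π j).rep (lf h j γ)) (vm h π ξ j a) := by
  induction a using Finsupp.induction_linear with
  | zero =>
    filter_upwards with j
    rw [map_zero, map_zero, ap_map_zero]
  | add a b ha hb =>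
    filter_upwards [ha, hb] with j h1 h2
    rw [map_add, map_add, map_add, h1, h2, ap_map_add]
  | single δ c =>
    filter_upwards [lf_mul h γ δ] with j hj
    rw [tl_single, vm_single, vm_single, hj, map_mul, ap_mul, ap_map_smul]

end Lift

section Rep

variable {J : Type} [Preorder J] [IsDirected J (· ≤ ·)] [Nonempty J] {P : J → Type}
  [∀ i, Group (P i)] {G : Type} [Group G] {f : ∀ i j, i ≤ j → (P i →* P j)} {g : ∀ i, P i →* G}
  (h : DCG P f G g) (π : ∀ j, URep (P j)) {ξ : ∀ j, (π j).X.H} (hξ : ∀ j, ‖ξ j‖ ≤ 1)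
  (U : Ultrafilter J) (hU : (U : Filter J) ≤ atTop)

/-- The limit space. -/
abbrev LS : Type := ULim U (vm_data h π hξ)

/-- The class of a vector. -/
def toLS (a : G →₀ ℂ) : LS h π hξ U := a

/-- Translations of the limit space. -/
noncomputable def tU (γ : G) : LS h π hξ U →ₗ[ℂ] LS h π hξ U :=
  (show (G →₀ ℂ) →ₗ[ℂ] (G →₀ ℂ) from tl γ)

include hU in
theorem tU_norm (γ : G) (a : LS h π hξ U) : ‖tU h π hξ U γ a‖ ≤ ‖a‖ := by
  apply ul_norm_le U (vm_data h π hξ)
  filter_upwards [hU (vm_tl h π (ξ := ξ) γ a)] with j hj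
  have h1 : vm h π ξ j (tU h π hξ U γ a) = ap ((π j).rep (lf h j γ)) (vm h π ξ j a) := hj
  rw [h1]
  exact ap_norm_le _ _

/-- Translations as continuous maps. -/
noncomputable def tC (γ : G) : LS h π hξ U →L[ℂ] LS h π hξ U :=
  LinearMap.mkContinuous (tU h π hξ U γ) 1 fun a => by
    rw [one_mul]
    exact tU_norm h π hξ U hU γ a

theorem tC_apply (γ : G) (a : G →₀ ℂ) :
    tC h π hξ U hU γ (toLS h π hξ U a) = toLS h π hξ U (tl γ a) := rfl

theorem tl_one' (a : G →₀ ℂ) : tl 1 a = a := by
  induction a using Finsupp.induction_linear with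
  | zero => exact map_zero _
  | add a b ha hb => rw [map_add, ha, hb]
  | single δ c => rw [tl_single, one_mul]

theorem tl_mul' (γ δ : G) (a : G →₀ ℂ) : tl (γ * δ) a = tl γ (tl δ a) := by
  induction a using Finsupp.induction_linear with
  | zero => rw [map_zero, map_zero, map_zero]
  | add a b ha hb => rw [map_add, ha, hb, map_add, map_add]
  | single ε c => rw [tl_single, tl_single, tl_single, mul_assoc]

/-- The operators. -/
noncomputable def opU : G →* (Completion (LS h π hξ U) →L[ℂ] Completion (LS h π hξ U)) where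
  toFun γ := (tC h π hξ U hU γ).completion
  map_one' := by
    apply ContinuousLinearMap.ext
    intro x
    refine Completion.induction_on (p := fun x => (tC h π hξ U hU 1).completion x =
      (1 : Completion (LS h π hξ U) →L[ℂ] Completion (LS h π hξ U)) x) x ?_ ?_
    · exact isClosed_eq (ContinuousLinearMap.continuous _) (ContinuousLinearMap.continuous _)
    · intro a
      have h1 : tC h π hξ U hU 1 a = a := tl_one' (show G →₀ ℂ from a)
      rw [ContinuousLinearMap.completion_apply_coe, h1]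
      rfl
  map_mul' γ δ := by
    apply ContinuousLinearMap.ext
    intro x
    refine Completion.induction_on (p := fun x => (tC h π hξ U hU (γ * δ)).completion x =
      ((tC h π hξ U hU γ).completion * (tC h π hξ U hU δ).completion) x) x ?_ ?_
    · exact isClosed_eq (ContinuousLinearMap.continuous _) (ContinuousLinearMap.continuous _)
    · intro a
      have h1 : tC h π hξ U hU (γ * δ) a = tC h π hξ U hU γ (tC h π hξ U hU δ a) :=
        tl_mul' γ δ (show G →₀ ℂ from a)
      change (tC h π hξ U hU (γ * δ)).completion a =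
        (tC h π hξ U hU γ).completion ((tC h π hξ U hU δ).completion a)
      rw [ContinuousLinearMap.completion_apply_coe, ContinuousLinearMap.completion_apply_coe,
        ContinuousLinearMap.completion_apply_coe, h1]

theorem opU_coe (γ : G) (a : G →₀ ℂ) :
    opU h π hξ U hU γ ((toLS h π hξ U a : LS h π hξ U) : Completion (LS h π hξ U)) =
      ((toLS h π hξ U (tl γ a) : LS h π hξ U) : Completion (LS h π hξ U)) := by
  change (tC h π hξ U hU γ).completion _ = _
  rw [ContinuousLinearMap.completion_apply_coe, tC_apply]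

theorem opU_norm (γ : G) : ‖opU h π hξ U hU γ‖ ≤ 1 := by
  refine ContinuousLinearMap.opNorm_le_bound _ zero_le_one fun x => ?_
  rw [one_mul]
  refine Completion.induction_on (p := fun x => ‖opU h π hξ U hU γ x‖ ≤ ‖x‖) x ?_ ?_
  · exact isClosed_le (ContinuousLinearMap.continuous _).norm continuous_norm
  · intro a
    have h1 := opU_coe h π hξ U hU γ a
    change opU h π hξ U hU γ (a : Completion (LS h π hξ U)) = _ at h1
    rw [h1, Completion.norm_coe, Completion.norm_coe]
    exact tU_norm h π hξ U hU γ a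

/-- The limit representation. -/
noncomputable def limRep (hn : Nontrivial (Completion (LS h π hξ U))) : URep G where
  X := { H := Completion (LS h π hξ U) }
  rep := opU h π hξ U hU
  norm_le := opU_norm h π hξ U hU

theorem limRep_alg (hn : Nontrivial (Completion (LS h π hξ U))) (x : GA G) :
    ap ((limRep h π hξ U hU hn).alg x)
      ((toLS h π hξ U (single 1 1) : LS h π hξ U) : Completion (LS h π hξ U)) =
      ((toLS h π hξ U (show MonoidAlgebra ℂ G from x).coeff : LS h π hξ U) :
        Completion (LS h π hξ U)) := by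
  induction x using GA.ind with
  | h0 =>
    rw [URep.alg_zero]
    rfl
  | hadd a b ha hb =>
    rw [URep.alg_add]
    refine (ap_add (π := limRep h π hξ U hU hn) _ _ _).trans ?_
    rw [ha, hb]
    exact (Completion.coe_add _ _).symm
  | hs γ c =>
    rw [URep.alg_single]
    refine (ap_smul (π := limRep h π hξ U hU hn) _ _ _).trans ?_
    have h1 := opU_coe h π hξ U hU γ (single 1 1)
    rw [tl_single, mul_one] at h1
    change c • (opU h π hξ U hU γ _) = _
    rw [h1, ← Completion.coe_smul]
    congr 1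
    change (c • (single γ (1 : ℂ)) : G →₀ ℂ) = (MonoidAlgebra.single γ c : MonoidAlgebra ℂ G).coeff
    rw [Finsupp.smul_single, smul_eq_mul, mul_one]
    rfl

theorem vm_map (i : J) (b : GA (P i)) : ∀ᶠ j in atTop, ∃ hij : i ≤ j,
    vm h π ξ j (show MonoidAlgebra ℂ G from GA.map (g i) b).coeff =
      ap ((π j).alg (GA.map (f i j hij) b)) (ξ j) := by
  induction b using GA.ind with
  | h0 =>
    filter_upwards [eventually_ge_atTop i] with j hij
    refine ⟨hij, ?_⟩
    rw [map_zero, map_zero, (π j).alg_zero]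
    exact map_zero _
  | hadd a b ha hb =>
    filter_upwards [ha, hb] with j ⟨h1, h2⟩ ⟨_, h4⟩
    refine ⟨h1, ?_⟩
    have e1 : (show MonoidAlgebra ℂ G from GA.map (g i) (a + b)).coeff =
        (show MonoidAlgebra ℂ G from GA.map (g i) a).coeff +
          (show MonoidAlgebra ℂ G from GA.map (g i) b).coeff := by
      rw [map_add]
      rfl
    rw [e1, map_add (vm h π ξ j), h2, h4, map_add, (π j).alg_add, ap_add]
  | hs y c =>
    filter_upwards [lf_ev h i y] with j ⟨h1, h2⟩
    refine ⟨h1, ?_⟩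
    rw [GA.map_single, GA.map_single, (π j).alg_single, ap_smul]
    change vm h π ξ j (single (g i y) c) = _
    rw [vm_single, h2]

end Rep

section Main

variable {J : Type} [Preorder J] [IsDirected J (· ≤ ·)] [Nonempty J] {P : J → Type}
  [∀ i, Group (P i)] {G : Type} [Group G] {f : ∀ i j, i ≤ j → (P i →* P j)} {g : ∀ i, P i →* G}
  (h : DCG P f G g)

/-- The trivial representation. -/
noncomputable def trivU (K : Type) [Group K] : URep K where
  X := { H := ℂ }
  rep := 1
  norm_le _ := norm_one.le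

include h in
/-- Continuity of the maximal norm. -/
theorem norm_cont {i : J} (b : GA (P i)) {c : ℝ} (hc : 0 < c)
    (hb : ∀ j (hij : i ≤ j), c < ‖GA.map (f i j hij) b‖) : c ≤ ‖GA.map (g i) b‖ := by
  classical
  have h1 : ∀ j, ∃ (π : URep (P j)) (ξ : π.X.H), ‖ξ‖ ≤ 1 ∧ ∀ hij : i ≤ j,
      c < ‖ap (π.alg (GA.map (f i j hij) b)) ξ‖ := by
    intro j
    by_cases hij : i ≤ j
    · have h2 : c < ⨆ π : URep (P j), ‖π.alg (GA.map (f i j hij) b)‖ := hb j hij
      have : Nonempty (URep (P j)) := ⟨trivU (P j)⟩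
      obtain ⟨π, hπ⟩ := exists_lt_of_lt_ciSup h2
      obtain ⟨ξ, h3, h4⟩ := ContinuousLinearMap.exists_lt_apply_of_lt_opNorm
        (show π.X.H →L[ℂ] π.X.H from π.alg (GA.map (f i j hij) b)) hπ
      exact ⟨π, ξ, h3.le, fun _ => h4⟩
    · exact ⟨trivU (P j), 0, by rw [norm_zero]; exact zero_le_one, fun h => absurd h hij⟩
  choose π ξ hξ hπ using h1
  let U : Ultrafilter J := Ultrafilter.of atTop
  have hU : (U : Filter J) ≤ atTop := Ultrafilter.of_le atTop
  have h2 : c ≤ ‖toLS h π hξ U (show MonoidAlgebra ℂ G from GA.map (g i) b).coeff‖ := by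
    apply ul_le_norm U (vm_data h π hξ) hc.le
    filter_upwards [hU (vm_map h π (ξ := ξ) i b)] with j ⟨h3, h4⟩
    exact (hπ j h3).le.trans (le_of_eq (congrArg norm h4.symm))
  have hn : Nontrivial (Completion (LS h π hξ U)) := by
    refine ⟨⟨((toLS h π hξ U (show MonoidAlgebra ℂ G from GA.map (g i) b).coeff :
      LS h π hξ U) : Completion (LS h π hξ U)), 0, fun h0 => ?_⟩⟩
    have h3 := congrArg norm h0
    rw [Completion.norm_coe, norm_zero] at h3
    rw [h3] at h2
    exact absurd h2 (not_le.mpr hc)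
  have h3 := limRep_alg h π hξ U hU hn (GA.map (g i) b)
  have h4 := (limRep h π hξ U hU hn).norm_alg_le (GA.map (g i) b)
  refine le_trans ?_ h4
  have h5 : ‖toLS h π hξ U (single 1 1)‖ ≤ 1 := by
    apply ul_norm_le_const U (vm_data h π hξ) zero_le_one
    filter_upwards with j
    have h6 : vm h π ξ j (toLS h π hξ U (single 1 1)) = (1 : ℂ) • ap ((π j).rep (lf h j 1)) (ξ j) :=
      vm_single h π ξ j 1 1
    rw [h6, one_smul]
    exact (ap_norm_le _ _).trans (hξ j)
  have h7 := (show Completion (LS h π hξ U) →L[ℂ] Completion (LS h π hξ U) from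
    (limRep h π hξ U hU hn).alg (GA.map (g i) b)).le_opNorm
      ((toLS h π hξ U (single 1 1) : LS h π hξ U) : Completion (LS h π hξ U))
  have h8 : (show Completion (LS h π hξ U) →L[ℂ] Completion (LS h π hξ U) from
    (limRep h π hξ U hU hn).alg (GA.map (g i) b))
      ((toLS h π hξ U (single 1 1) : LS h π hξ U) : Completion (LS h π hξ U)) =
      ((toLS h π hξ U (show MonoidAlgebra ℂ G from GA.map (g i) b).coeff : LS h π hξ U) :
        Completion (LS h π hξ U)) := h3
  rw [h8, Completion.norm_coe, Completion.norm_coe] at h7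
  refine h2.trans (h7.trans ?_)
  exact mul_le_of_le_one_right (norm_nonneg _) h5

end Main

end Pool.Agent.N506
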