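import Pool.Agent.N506.Def

/-!
Directed colimits of sets, described by elements.
-/

namespace Pool.Agent.N506

open Finsupp

section Basic

variable {J : Type} [Preorder J] [IsDirected J (· ≤ ·)] [Nonempty J] {S S' : J → Type}
  {s : ∀ i j, i ≤ j → S i → S j} {s' : ∀ i j, i ≤ j → S' i → S' j} {L L' : Type}
  {t : ∀ i, S i → L} {t' : ∀ i, S' i → L'}

theorem bound {ι : Type*} [Finite ι] (f : ι → J) : ∃ m, ∀ k, f k ≤ m := by
  classical
  have := Fintype.ofFinite ι
  obtain ⟨m, hm⟩ := (Finset.univ.image f).exists_le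
  exact ⟨m, fun k => hm _ (Finset.mem_image_of_mem f (Finset.mem_univ k))⟩

omit [Nonempty J] in
theorem bound2 (i j : J) : ∃ m, i ≤ m ∧ j ≤ m := directed_of (· ≤ ·) i j

/-- Tuples. -/
theorem DC.tuple (h : DC S s L t) (ι : Type) [Finite ι] :
    DC (fun i => ι → S i) (fun i j hij x => fun a => s i j hij (x a)) (ι → L)
      (fun i x => fun a => t i (x a)) where
  ss i j k h1 h2 x := funext fun a => h.ss i j k h1 h2 (x a)
  ts i j h1 x := funext fun a => h.ts i j h1 (x a)
  surj y := by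
    choose i x hx using fun a => h.surj (y a)
    obtain ⟨m, hm⟩ := bound i
    refine ⟨m, fun a => s (i a) m (hm a) (x a), funext fun a => ?_⟩
    rw [h.ts, hx]
  inj i x y e := by
    choose j hj hx using fun a => h.inj i (x a) (y a) (congrFun e a)
    obtain ⟨m, hm⟩ := bound j
    obtain ⟨m', h1, h2⟩ := bound2 i m
    refine ⟨m', h1, funext fun a => ?_⟩
    have e1 := congrArg (s (j a) m' ((hm a).trans h2)) (hx a)
    rwa [h.ss, h.ss] at e1

omit [Nonempty J] in
/-- Pairs. -/
theorem DC.prod (h : DC S s L t) (h' : DC S' s' L' t') :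
    DC (fun i => S i × S' i) (fun i j hij x => (s i j hij x.1, s' i j hij x.2)) (L × L')
      (fun i x => (t i x.1, t' i x.2)) where
  ss i j k h1 h2 x := Prod.ext (h.ss i j k h1 h2 x.1) (h'.ss i j k h1 h2 x.2)
  ts i j h1 x := Prod.ext (h.ts i j h1 x.1) (h'.ts i j h1 x.2)
  surj y := by
    obtain ⟨i, x, hx⟩ := h.surj y.1
    obtain ⟨j, x', hx'⟩ := h'.surj y.2
    obtain ⟨m, h1, h2⟩ := bound2 i j
    exact ⟨m, (s i m h1 x, s' j m h2 x'), Prod.ext ((h.ts _ _ _ _).trans hx)
      ((h'.ts _ _ _ _).trans hx')⟩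
  inj i x y e := by
    obtain ⟨j, hj, e1⟩ := h.inj i x.1 y.1 (congrArg Prod.fst e)
    obtain ⟨k, hk, e2⟩ := h'.inj i x.2 y.2 (congrArg Prod.snd e)
    obtain ⟨m, h1, h2⟩ := bound2 j k
    refine ⟨m, hj.trans h1, Prod.ext ?_ ?_⟩
    · have := congrArg (s j m h1) e1
      rwa [h.ss, h.ss] at this
    · have := congrArg (s' k m h2) e2
      rwa [h'.ss, h'.ss] at this

/-- Pairs with a constant second component. -/
theorem DC.times (h : DC S s L t) (X : Type) :
    DC (fun i => S i × X) (fun i j hij x => (s i j hij x.1, x.2)) (L × X)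
      (fun i x => (t i x.1, x.2)) where
  ss i j k h1 h2 x := Prod.ext (h.ss i j k h1 h2 x.1) rfl
  ts i j h1 x := Prod.ext (h.ts i j h1 x.1) rfl
  surj y := by
    obtain ⟨i, x, hx⟩ := h.surj y.1
    exact ⟨i, (x, y.2), Prod.ext hx rfl⟩
  inj i x y e := by
    obtain ⟨j, hj, e1⟩ := h.inj i x.1 y.1 (congrArg Prod.fst e)
    have e2 : x.2 = y.2 := (Prod.mk.inj e).2
    exact ⟨j, hj, Prod.ext e1 e2⟩

omit [IsDirected J (· ≤ ·)] [Nonempty J] in
/-- Equalities persist. -/
theorem DC.up (h : DC S s L t) {i j k : J} (hij : i ≤ j) (hjk : j ≤ k) {x y : S i}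
    (e : s i j hij x = s i j hij y) : s i k (hij.trans hjk) x = s i k (hij.trans hjk) y := by
  have := congrArg (s j k hjk) e
  rwa [h.ss, h.ss] at this

theorem DC.inj_finset (h : DC S s L t) (i : J) (F : Finset (S i)) :
    ∃ m, ∃ hm : i ≤ m, ∀ a ∈ F, ∀ b ∈ F, t i a = t i b → s i m hm a = s i m hm b := by
  classical
  have h1 : ∀ p : {p : F × F // t i p.1.1 = t i p.2.1}, ∃ j, ∃ hj : i ≤ j,
      s i j hj p.1.1.1 = s i j hj p.1.2.1 := fun p => h.inj i _ _ p.2
  choose j hj e using h1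
  obtain ⟨m, hm⟩ := bound j
  obtain ⟨m', h2, h3⟩ := bound2 i m
  refine ⟨m', h2, fun a ha b hb hab => ?_⟩
  exact h.up _ ((hm ⟨(⟨a, ha⟩, ⟨b, hb⟩), hab⟩).trans h3) (e ⟨(⟨a, ha⟩, ⟨b, hb⟩), hab⟩)

/-- Finitely supported functions. -/
theorem DC.finsupp (h : DC S s L t) (M : Type) [AddCommGroup M] :
    DC (fun i => S i →₀ M) (fun i j hij => mapDomain (s i j hij)) (L →₀ M)
      (fun i => mapDomain (t i)) where
  ss i j k h1 h2 x := by
    rw [← mapDomain_comp]
    congr 1
    exact funext fun y => h.ss i j k h1 h2 y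
  ts i j h1 x := by
    rw [← mapDomain_comp]
    congr 1
    exact funext fun y => h.ts i j h1 y
  surj y := by
    induction y using Finsupp.induction_linear with
    | zero =>
      obtain ⟨i⟩ := (inferInstance : Nonempty J)
      exact ⟨i, 0, mapDomain_zero⟩
    | add f g hf hg =>
      obtain ⟨i, x, hx⟩ := hf
      obtain ⟨j, y, hy⟩ := hg
      obtain ⟨m, h1, h2⟩ := bound2 i j
      refine ⟨m, mapDomain (s i m h1) x + mapDomain (s j m h2) y, ?_⟩
      rw [mapDomain_add, ← mapDomain_comp, ← mapDomain_comp, ← hx, ← hy]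
      congr 2
      · exact funext fun y => h.ts i m h1 y
      · exact funext fun y => h.ts j m h2 y
    | single a r =>
      obtain ⟨i, x, hx⟩ := h.surj a
      exact ⟨i, single x r, by rw [mapDomain_single, hx]⟩
  inj i x y e := by
    classical
    obtain ⟨m, hm, hF⟩ := h.inj_finset i (x.support ∪ y.support)
    refine ⟨m, hm, ?_⟩
    set F' : Set (S m) := s i m hm '' ((x.support ∪ y.support : Finset (S i)) : Set (S i)) with hF'
    have hinj : Set.InjOn (t m) F' := by
      rintro _ ⟨a, ha, rfl⟩ _ ⟨b, hb, rfl⟩ hab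
      rw [h.ts, h.ts] at hab
      exact hF a ha b hb hab
    have hsub : ∀ w : S i →₀ M, w.support ⊆ x.support ∪ y.support →
        ((mapDomain (s i m hm) w).support : Set (S m)) ⊆ F' := by
      intro w hw
      refine (Finset.coe_subset.mpr mapDomain_support).trans ?_
      rw [Finset.coe_image, hF']
      exact Set.image_mono (Finset.coe_subset.mpr hw)
    refine mapDomain_injOn F' hinj (hsub x Finset.subset_union_left)
      (hsub y Finset.subset_union_right) ?_
    rw [← mapDomain_comp, ← mapDomain_comp]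
    have e1 : t m ∘ s i m hm = t i := funext fun y => h.ts i m hm y
    rw [e1]
    exact e

end Basic

end Pool.Agent.N506
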