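import Pool.Agent.R615.KU.Wr2
import Pool.Agent.R793.MagLI

/-!
Directed colimits described by elements, and the class of groups generated by a class of groups:
definitions.
-/

namespace Pool.Agent.N506

open Pool.Agent.Y483 Pool.Agent.Y483.PW Pool.Agent.Y110.KW Pool.Agent.Y75.MQ
  Pool.Agent.R615.KU Pool.Agent.R793.Mag CategoryTheory Monoid

/-- The set `L` is the directed colimit of the sets `S i` (over a directed preorder). -/
structure DC {J : Type} [Preorder J] (S : J → Type) (s : ∀ i j, i ≤ j → S i → S j) (L : Type)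
    (t : ∀ i, S i → L) : Prop where
  ss : ∀ i j k (h : i ≤ j) (h' : j ≤ k) x, s j k h' (s i j h x) = s i k (h.trans h') x
  ts : ∀ i j (h : i ≤ j) x, t j (s i j h x) = t i x
  surj : ∀ y, ∃ i x, t i x = y
  inj : ∀ i x y, t i x = t i y → ∃ j, ∃ h : i ≤ j, s i j h x = s i j h y

/-- The group `G` is the directed colimit of the groups `P i`. -/
def DCG {J : Type} [Preorder J] (P : J → Type) [∀ i, Group (P i)]
    (f : ∀ i j, i ≤ j → (P i →* P j)) (G : Type) [Group G] (g : ∀ i, P i →* G) : Prop :=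
  DC P (fun i j h => f i j h) G (fun i => g i)

/-- The smallest class of groups which contains the class `𝓑` and the groups `F / [R, R]` (`F` free,
`R` normal in `F`) and is closed under direct products, overgroups of finite index, detection of
rational homology classes, graph products, restricted wreath products, semidirect products with a
system of supports, and directed colimits. -/
inductive Gen (𝓑 : GrpCat.{0} → Prop) : (G : Type) → [Group G] → Prop
  | base (B : GrpCat.{0}) : 𝓑 B → Gen 𝓑 B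
  | magnus (X : Type) (R : Subgroup (FreeGroup X)) [R.Normal] :
      Gen 𝓑 (FreeGroup X ⧸ (⁅R, R⁆ : Subgroup (FreeGroup X)))
  | prod (G H : Type) [Group G] [Group H] : Gen 𝓑 G → Gen 𝓑 H → Gen 𝓑 (G × H)
  | finiteIndex (G : Type) [Group G] (H : Subgroup G) [H.FiniteIndex] : Gen 𝓑 H → Gen 𝓑 G
  | detect (G : Type) [Group G] (K : (j : ℕ) → HQ j G → Type) [∀ j x, Group (K j x)]
      (f : ∀ j x, G →* K j x) : (∀ j x, x ≠ 0 → Gen 𝓑 (K j x)) →
      (∀ j x, x ≠ 0 → hqMap (f j x) j x ≠ 0) → Gen 𝓑 G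
  | graph (V : Type) (P : V → Type) [∀ v, Group (P v)] (Λ : SimpleGraph V) :
      (∀ v, Gen 𝓑 (P v)) → Gen 𝓑 (GP P Λ)
  | wreath (K V Γ : Type) [Group K] [Group Γ] [MulAction Γ V] : Gen 𝓑 K →
      (∀ σ : Finset V, Gen 𝓑 (fixingSubgroup Γ (σ : Set V))) → Gen 𝓑 (FW K V Γ)
  | supports (Γ N V : Type) [Group Γ] [Group N] [MulAction Γ V] (s : Sys Γ N V) :
      (∀ σ : Finset V, Gen 𝓑 (s.supG σ)) → Gen 𝓑 (N ⋊[s.φ] Γ)
  | colim (J : Type) [Preorder J] [IsDirectedOrder J] [Nonempty J] (P : J → Type)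
      [∀ i, Group (P i)] (f : ∀ i j, i ≤ j → (P i →* P j)) (G : Type) [Group G]
      (g : ∀ i, P i →* G) : DCG P f G g → (∀ i, Gen 𝓑 (P i)) → Gen 𝓑 G

end Pool.Agent.N506
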