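import Pool.Agent.N506.Def

/-!
The class of groups generated by a class of groups, with quotients `P / [S, S]` of virtually free
groups and with extensions with finite kernel: definition.
-/

namespace Pool.Agent.N506

open Pool.Agent.Y483 Pool.Agent.Y483.PW Pool.Agent.Y110.KW Pool.Agent.Y75.MQ
  Pool.Agent.R615.KU Pool.Agent.R793.Mag CategoryTheory Monoid

/-- The smallest class of groups which contains the class `𝓑` and the groups `P / [S, S]` (`P` with a
free subgroup of finite index, `S` normal in `P`) and is closed under direct products, overgroups of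
finite index, extensions with finite kernel, detection of rational homology classes, graph products,
restricted wreath products, semidirect products with a system of supports, and directed colimits. -/
inductive Gen2 (𝓑 : GrpCat.{0} → Prop) : (G : Type) → [Group G] → Prop
  | base (B : GrpCat.{0}) : 𝓑 B → Gen2 𝓑 B
  | magnus (P : Type) [Group P] (F : Subgroup P) [F.FiniteIndex] [IsFreeGroup F]
      (S : Subgroup P) [S.Normal] : Gen2 𝓑 (P ⧸ (⁅S, S⁆ : Subgroup P))
  | prod (G H : Type) [Group G] [Group H] : Gen2 𝓑 G → Gen2 𝓑 H → Gen2 𝓑 (G × H)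
  | finiteIndex (G : Type) [Group G] (H : Subgroup G) [H.FiniteIndex] : Gen2 𝓑 H → Gen2 𝓑 G
  | finiteKernel (G K : Type) [Group G] [Group K] (f : G →* K) [Finite f.ker] :
      Function.Surjective f → Gen2 𝓑 K → Gen2 𝓑 G
  | detect (G : Type) [Group G] (K : (j : ℕ) → HQ j G → Type) [∀ j x, Group (K j x)]
      (f : ∀ j x, G →* K j x) : (∀ j x, x ≠ 0 → Gen2 𝓑 (K j x)) →
      (∀ j x, x ≠ 0 → hqMap (f j x) j x ≠ 0) → Gen2 𝓑 G
  | graph (V : Type) (P : V → Type) [∀ v, Group (P v)] (Λ : SimpleGraph V) :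
      (∀ v, Gen2 𝓑 (P v)) → Gen2 𝓑 (GP P Λ)
  | wreath (K V Γ : Type) [Group K] [Group Γ] [MulAction Γ V] : Gen2 𝓑 K →
      (∀ σ : Finset V, Gen2 𝓑 (fixingSubgroup Γ (σ : Set V))) → Gen2 𝓑 (FW K V Γ)
  | supports (Γ N V : Type) [Group Γ] [Group N] [MulAction Γ V] (s : Sys Γ N V) :
      (∀ σ : Finset V, Gen2 𝓑 (s.supG σ)) → Gen2 𝓑 (N ⋊[s.φ] Γ)
  | colim (J : Type) [Preorder J] [IsDirectedOrder J] [Nonempty J] (P : J → Type)
      [∀ i, Group (P i)] (f : ∀ i j, i ≤ j → (P i →* P j)) (G : Type) [Group G]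
      (g : ∀ i, P i →* G) : DCG P f G g → (∀ i, Gen2 𝓑 (P i)) → Gen2 𝓑 G

end Pool.Agent.N506
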