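import Pool.Agent.N506.EXA

/-!
# The Bruhat-Tits place: `GL_n` of a division ring with a discrete valuation is controlled
-/

namespace Pool.Agent.N506.EX

universe u v w

/-- A discrete valuation on a division ring (not necessarily commutative), with value group `ℤ`. -/
structure DV (D : Type u) [DivisionRing D] where
  /-- the valuation, relevant on nonzero elements only -/
  v : D → ℤ
  map_mul : ∀ a b, a ≠ 0 → b ≠ 0 → v (a * b) = v a + v b
  map_add : ∀ a b, a ≠ 0 → b ≠ 0 → a + b ≠ 0 → min (v a) (v b) ≤ v (a + b)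
  /-- a uniformizer -/
  t : D
  t_ne : t ≠ 0
  v_t : v t = 1

namespace DV

variable {D : Type u} [DivisionRing D] (V : DV D)

theorem v_one : V.v 1 = 0 := by
  have := V.map_mul 1 1 one_ne_zero one_ne_zero
  rw [mul_one] at this
  linarith

theorem v_neg_one : V.v (-1) = 0 := by
  have := V.map_mul (-1) (-1) (neg_ne_zero.mpr one_ne_zero) (neg_ne_zero.mpr one_ne_zero)
  rw [neg_mul_neg, mul_one, V.v_one] at this
  linarith

theorem v_neg {a : D} (ha : a ≠ 0) : V.v (-a) = V.v a := by
  have := V.map_mul (-1) a (neg_ne_zero.mpr one_ne_zero) ha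
  rw [neg_one_mul, V.v_neg_one, zero_add] at this
  exact this

theorem v_inv {a : D} (ha : a ≠ 0) : V.v a⁻¹ = - V.v a := by
  have := V.map_mul a a⁻¹ ha (inv_ne_zero ha)
  rw [mul_inv_cancel₀ ha, V.v_one] at this
  linarith

theorem v_pow (n : ℕ) : V.v (V.t ^ n) = n := by
  induction n with
  | zero => simp [V.v_one]
  | succ n ih =>
    rw [pow_succ, V.map_mul _ _ (pow_ne_zero _ V.t_ne) V.t_ne, ih, V.v_t]
    push_cast; ring

/-- The balls of the valuation. -/
def O (m : ℤ) : AddSubgroup D where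
  carrier := {a | a = 0 ∨ m ≤ V.v a}
  zero_mem' := Or.inl rfl
  add_mem' := by
    rintro a b ha hb
    by_cases ha0 : a = 0
    · subst ha0; simpa using hb
    by_cases hb0 : b = 0
    · subst hb0; simpa using ha
    by_cases hab : a + b = 0
    · exact Or.inl hab
    right
    have h1 : m ≤ V.v a := ha.resolve_left ha0
    have h2 : m ≤ V.v b := hb.resolve_left hb0
    exact le_trans (le_min h1 h2) (V.map_add a b ha0 hb0 hab)
  neg_mem' := by
    rintro a ha
    by_cases ha0 : a = 0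
    · subst ha0; simpa using ha
    right
    rw [V.v_neg ha0]
    exact ha.resolve_left ha0

theorem mem_O {m : ℤ} {a : D} : a ∈ V.O m ↔ a = 0 ∨ m ≤ V.v a := Iff.rfl

theorem O_anti {m m' : ℤ} (h : m ≤ m') : V.O m' ≤ V.O m := by
  intro a ha
  rcases ha with ha | ha
  · exact Or.inl ha
  · exact Or.inr (h.trans ha)

theorem O_mul {m m' : ℤ} {a b : D} (ha : a ∈ V.O m) (hb : b ∈ V.O m') : a * b ∈ V.O (m + m') := by
  by_cases ha0 : a = 0
  · subst ha0; simp [V.mem_O]
  by_cases hb0 : b = 0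
  · subst hb0; simp [V.mem_O]
  right
  rw [V.map_mul a b ha0 hb0]
  exact add_le_add (ha.resolve_left ha0) (hb.resolve_left hb0)

theorem exists_mem_O (a : D) : ∃ r : ℕ, a ∈ V.O (-(r : ℤ)) := by
  refine ⟨(V.v a).natAbs, Or.inr ?_⟩
  omega

theorem t_pow_mem (n : ℕ) : V.t ^ n ∈ V.O n := Or.inr (V.v_pow n).ge

end DV

section Place

variable {D : Type u} [DivisionRing D] (V : DV D) {n : ℕ}

/-- The flag. -/
def flag (D : Type u) [DivisionRing D] (n : ℕ) (k : ℕ) : AddSubgroup (Fin n → D) where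
  carrier := {y | ∀ j : Fin n, k ≤ (j : ℕ) → y j = 0}
  zero_mem' := fun _ _ => rfl
  add_mem' := by
    intro a b ha hb j hj
    simp [ha j hj, hb j hj]
  neg_mem' := by
    intro a ha j hj
    simp [ha j hj]

theorem mem_flag {k : ℕ} {y : Fin n → D} : y ∈ flag D n k ↔ ∀ j : Fin n, k ≤ (j : ℕ) → y j = 0 :=
  Iff.rfl

/-- The filtration of `GL_n(D)`. -/
def Phi (n : ℕ) (r : ℕ) : Set (Matrix (Fin n) (Fin n) D)ˣ :=
  {g | ∀ i j, (g : Matrix (Fin n) (Fin n) D) i j ∈ V.O (-(r : ℤ)) ∧
    ((g⁻¹ : (Matrix (Fin n) (Fin n) D)ˣ) : Matrix (Fin n) (Fin n) D) i j ∈ V.O (-(r : ℤ))}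

theorem Phi_mono {r s : ℕ} (h : r ≤ s) : Phi V n r ⊆ Phi V n s := by
  intro g hg i j
  exact ⟨V.O_anti (by omega) (hg i j).1, V.O_anti (by omega) (hg i j).2⟩

theorem Phi_inv {r : ℕ} {g : (Matrix (Fin n) (Fin n) D)ˣ} (h : g ∈ Phi V n r) :
    g⁻¹ ∈ Phi V n r := by
  intro i j
  refine ⟨(h i j).2, ?_⟩
  rw [inv_inv]
  exact (h i j).1

theorem exists_Phi (g : (Matrix (Fin n) (Fin n) D)ˣ) : ∃ r, g ∈ Phi V n r := by
  choose a ha using fun i j => V.exists_mem_O ((g : Matrix (Fin n) (Fin n) D) i j)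
  choose b hb using fun i j => V.exists_mem_O
    (((g⁻¹ : (Matrix (Fin n) (Fin n) D)ˣ) : Matrix (Fin n) (Fin n) D) i j)
  refine ⟨∑ i, ∑ j, (a i j + b i j), ?_⟩
  intro i j
  have h1 : a i j + b i j ≤ ∑ i, ∑ j, (a i j + b i j) :=
    (Finset.single_le_sum (f := fun j => a i j + b i j) (fun _ _ => Nat.zero_le _)
      (Finset.mem_univ j)).trans
      (Finset.single_le_sum (f := fun i => ∑ j, (a i j + b i j)) (fun _ _ => Nat.zero_le _)
        (Finset.mem_univ i))
  exact ⟨V.O_anti (by omega) (ha i j), V.O_anti (by omega) (hb i j)⟩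

theorem exh_Phi : Exh (Phi V n) := by
  intro F hF
  choose r hr using fun g => exists_Phi V (n := n) g
  obtain ⟨R, hR⟩ := (hF.image r).bddAbove
  exact ⟨R, fun g hg => Phi_mono V (hR (Set.mem_image_of_mem _ hg)) (hr g)⟩

/-- The lattice `g O^n t^m`. -/
def Lat (g : (Matrix (Fin n) (Fin n) D)ˣ) (m : ℤ) : AddSubgroup (Fin n → D) where
  carrier := {y | ∀ j, (((g⁻¹ : (Matrix (Fin n) (Fin n) D)ˣ) :
    Matrix (Fin n) (Fin n) D).mulVec y) j ∈ V.O m}
  zero_mem' := by
    intro j
    rw [Matrix.mulVec_zero]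
    exact (V.O m).zero_mem
  add_mem' := by
    intro a b ha hb j
    rw [Matrix.mulVec_add]
    exact (V.O m).add_mem (ha j) (hb j)
  neg_mem' := by
    intro a ha j
    rw [Matrix.mulVec_neg]
    exact (V.O m).neg_mem (ha j)

theorem mem_Lat {g : (Matrix (Fin n) (Fin n) D)ˣ} {m : ℤ} {y : Fin n → D} :
    y ∈ Lat V g m ↔ ∀ j, (((g⁻¹ : (Matrix (Fin n) (Fin n) D)ˣ) :
      Matrix (Fin n) (Fin n) D).mulVec y) j ∈ V.O m := Iff.rfl

theorem Lat_anti (g : (Matrix (Fin n) (Fin n) D)ˣ) {m m' : ℤ} (h : m ≤ m') :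
    Lat V g m' ≤ Lat V g m := fun _ hy j => V.O_anti h (hy j)

theorem mulVec_mul_right (M : Matrix (Fin n) (Fin n) D) (y : Fin n → D) (c : D) :
    M.mulVec (fun j => y j * c) = fun i => M.mulVec y i * c := by
  ext i
  simp only [Matrix.mulVec, dotProduct]
  rw [Finset.sum_mul]
  exact Finset.sum_congr rfl fun j _ => (mul_assoc _ _ _).symm

theorem Lat_mul (g : (Matrix (Fin n) (Fin n) D)ˣ) {m l : ℤ} {y : Fin n → D} {c : D}
    (hy : y ∈ Lat V g m) (hc : c ∈ V.O l) : (fun j => y j * c) ∈ Lat V g (m + l) := by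
  intro j
  rw [mulVec_mul_right]
  exact V.O_mul (hy j) hc

theorem O_mulVec {m l : ℤ} {M : Matrix (Fin n) (Fin n) D} {y : Fin n → D}
    (hM : ∀ i j, M i j ∈ V.O m) (hy : ∀ j, y j ∈ V.O l) (i : Fin n) :
    M.mulVec y i ∈ V.O (m + l) := by
  simp only [Matrix.mulVec, dotProduct]
  exact (V.O _).sum_mem fun j _ => V.O_mul (hM i j) (hy j)

theorem Lat_of_Phi {g h : (Matrix (Fin n) (Fin n) D)ˣ} {R : ℕ} (hgh : g⁻¹ * h ∈ Phi V n R)
    (m : ℤ) : Lat V h m ≤ Lat V g (m - R) := by
  intro y hy j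
  have e : (((g⁻¹ : (Matrix (Fin n) (Fin n) D)ˣ) : Matrix (Fin n) (Fin n) D).mulVec y) =
      ((g⁻¹ * h : (Matrix (Fin n) (Fin n) D)ˣ) : Matrix (Fin n) (Fin n) D).mulVec
        (((h⁻¹ : (Matrix (Fin n) (Fin n) D)ˣ) : Matrix (Fin n) (Fin n) D).mulVec y) := by
    rw [Matrix.mulVec_mulVec, ← Units.val_mul]
    congr 2
    group
  rw [e]
  have := O_mulVec V (m := -(R:ℤ)) (l := m) (fun i j => (hgh i j).1) (fun j => hy j) j
  have e2 : m - (R:ℤ) = -(R:ℤ) + m := by ring
  rw [e2]
  exact this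

/-- The basis vectors scaled by a power of `t` belong to the lattice. -/
theorem exists_basis_mem (g : (Matrix (Fin n) (Fin n) D)ˣ) (i : Fin n) :
    ∃ N : ℕ, (Pi.single i (V.t ^ N) : Fin n → D) ∈ Lat V g 0 := by
  obtain ⟨r, hr⟩ := exists_Phi V g
  refine ⟨r, fun j => ?_⟩
  rw [Matrix.mulVec_single]
  simp only [MulOpposite.smul_eq_mul_unop, MulOpposite.unop_op, Pi.smul_apply, Matrix.col_apply]
  have := V.O_mul (hr j i).2 (V.t_pow_mem r)
  simpa using this

/-- Minimal valuation of the `i`-th coordinate. -/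
theorem exists_min (g : (Matrix (Fin n) (Fin n) D)ˣ) (i : Fin n) :
    ∃ a : ℤ, (∃ y ∈ Lat V g 0, y ∈ flag D n (i + 1) ∧ y i ≠ 0 ∧ V.v (y i) = a) ∧
      ∀ y ∈ Lat V g 0, y ∈ flag D n (i + 1) → y i ∈ V.O a := by
  obtain ⟨r, hr⟩ := exists_Phi V g
  let P : ℤ → Prop := fun a => ∃ y ∈ Lat V g 0, y ∈ flag D n (i + 1) ∧ y i ≠ 0 ∧ V.v (y i) = a
  have hP : ∃ a, P a := by
    obtain ⟨N, hN⟩ := exists_basis_mem V g i
    refine ⟨N, _, hN, ?_, ?_, ?_⟩
    · intro j hj
      rw [Pi.single_eq_of_ne]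
      rintro rfl
      omega
    · simp [V.t_ne]
    · simp [V.v_pow]
  have hbd : ∀ a, P a → -(r : ℤ) ≤ a := by
    rintro a ⟨y, hy, -, hy0, rfl⟩
    have e : y = (g : Matrix (Fin n) (Fin n) D).mulVec
        (((g⁻¹ : (Matrix (Fin n) (Fin n) D)ˣ) : Matrix (Fin n) (Fin n) D).mulVec y) := by
      rw [Matrix.mulVec_mulVec, ← Units.val_mul, mul_inv_cancel]
      simp
    have := O_mulVec V (m := -(r:ℤ)) (l := 0) (fun i j => (hr i j).1) (fun j => hy j) i
    rw [← e, add_zero] at this
    exact this.resolve_left hy0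
  obtain ⟨a, ha, hmin⟩ := Int.exists_least_of_bdd ⟨-(r:ℤ), hbd⟩ hP
  refine ⟨a, ha, ?_⟩
  intro y hy hyf
  by_cases h0 : y i = 0
  · exact Or.inl h0
  · exact Or.inr (hmin _ ⟨y, hy, hyf, h0, rfl⟩)

/-- The minimal valuation. -/
noncomputable def mn (g : (Matrix (Fin n) (Fin n) D)ˣ) (i : Fin n) : ℤ :=
  Classical.choose (exists_min V g i)

theorem mn_spec (g : (Matrix (Fin n) (Fin n) D)ˣ) (i : Fin n) :
    (∃ y ∈ Lat V g 0, y ∈ flag D n (i + 1) ∧ y i ≠ 0 ∧ V.v (y i) = mn V g i) ∧
      ∀ y ∈ Lat V g 0, y ∈ flag D n (i + 1) → y i ∈ V.O (mn V g i) :=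
  Classical.choose_spec (exists_min V g i)

theorem zpow_mem (m : ℤ) : V.t ^ m ∈ V.O m := by
  cases m with
  | ofNat m =>
    simpa using V.t_pow_mem m
  | negSucc m =>
    right
    rw [zpow_negSucc, V.v_inv (pow_ne_zero _ V.t_ne), V.v_pow]
    rw [Int.negSucc_eq]
    push_cast
    rfl

theorem mn_le (g : (Matrix (Fin n) (Fin n) D)ˣ) (i : Fin n) {m : ℤ} {y : Fin n → D}
    (hy : y ∈ Lat V g m) (hyf : y ∈ flag D n (i + 1)) : y i ∈ V.O (mn V g i + m) := by
  have h1 : (fun j => y j * V.t ^ (-m)) ∈ Lat V g 0 := by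
    have := Lat_mul V g hy (zpow_mem V (-m))
    rwa [add_neg_cancel] at this
  have h2 : (fun j => y j * V.t ^ (-m)) ∈ flag D n (i + 1) := by
    intro j hj
    simp [hyf j hj]
  have h3 := (mn_spec V g i).2 _ h1 h2
  have h4 := V.O_mul h3 (zpow_mem V m)
  rwa [mul_assoc, ← zpow_add₀ V.t_ne, neg_add_cancel, zpow_zero, mul_one] at h4

theorem mn_close {g h : (Matrix (Fin n) (Fin n) D)ˣ} {R : ℕ} (hgh : g⁻¹ * h ∈ Phi V n R)
    (i : Fin n) : mn V g i - R ≤ mn V h i := by
  obtain ⟨⟨y, hy, hyf, hy0, hya⟩, -⟩ := mn_spec V h i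
  have h1 := Lat_of_Phi V hgh 0 hy
  have h2 := mn_le V g i h1 hyf
  have := h2.resolve_left hy0
  omega

/-- The modified lattice. -/
def LL (g : (Matrix (Fin n) (Fin n) D)ˣ) (l : Fin n → ℤ) : AddSubgroup (Fin n → D) :=
  ⨆ i : Fin n, Lat V g (l i) ⊓ flag D n (i + 1)

theorem LL_incl_aux {g h : (Matrix (Fin n) (Fin n) D)ˣ} {R : ℕ} (hgh : g⁻¹ * h ∈ Phi V n R)
    (l : Fin n → ℤ) (hl : ∀ i j, i < j → l i + 2 * R ≤ l j) (k : ℕ) (hk : k ≤ n) :
    ∀ m : ℤ, (∀ j : Fin n, (j : ℕ) < k → l j ≤ m) →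
      Lat V g m ⊓ flag D n k ≤ LL V h (fun i => l i + (mn V g i - mn V h i)) := by
  induction k with
  | zero =>
    intro m _ y hy
    have : y = 0 := by
      ext j
      exact hy.2 j (Nat.zero_le _)
    rw [this]
    exact AddSubgroup.zero_mem _
  | succ k ih =>
    intro m hm y hy
    let i : Fin n := ⟨k, hk⟩
    have hy1 : y ∈ Lat V g (l i) := Lat_anti V g (hm i (Nat.lt_succ_self k)) hy.1
    have hyf : y ∈ flag D n (i + 1) := hy.2
    have hyi := mn_le V g i hy1 hyf
    obtain ⟨⟨w, hw, hwf, hw0, hwa⟩, -⟩ := mn_spec V h i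
    have hc : (w i)⁻¹ * y i ∈ V.O (l i + (mn V g i - mn V h i)) := by
      have h1 : (w i)⁻¹ ∈ V.O (- mn V h i) := Or.inr (by rw [V.v_inv hw0, hwa])
      have := V.O_mul h1 hyi
      convert this using 2
      ring
    have hwc : (fun j => w j * ((w i)⁻¹ * y i)) ∈ Lat V h (l i + (mn V g i - mn V h i)) := by
      have := Lat_mul V h hw hc
      rwa [zero_add] at this
    have hwcf : (fun j => w j * ((w i)⁻¹ * y i)) ∈ flag D n (i + 1) := by
      intro j hj
      simp [hwf j hj]
    have hmem1 : (fun j => w j * ((w i)⁻¹ * y i)) ∈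
        LL V h (fun i => l i + (mn V g i - mn V h i)) :=
      AddSubgroup.mem_iSup_of_mem (S := fun i : Fin n =>
        Lat V h (l i + (mn V g i - mn V h i)) ⊓ flag D n (i + 1)) i ⟨hwc, hwcf⟩
    have hgh' : h⁻¹ * g ∈ Phi V n R := by
      have := Phi_inv V hgh
      rwa [mul_inv_rev, inv_inv] at this
    have hmn := mn_close V hgh' i
    have hrest : y - (fun j => w j * ((w i)⁻¹ * y i)) ∈
        LL V h (fun i => l i + (mn V g i - mn V h i)) := by
      refine ih (Nat.le_of_succ_le hk) (l i - 2 * R) ?_ ⟨?_, ?_⟩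
      · intro j hj
        have := hl j i (by exact hj)
        omega
      · refine AddSubgroup.sub_mem _ (Lat_anti V g (by omega) hy1) ?_
        refine Lat_anti V g ?_ (Lat_of_Phi V hgh _ hwc)
        omega
      · intro j hj
        rcases Nat.lt_or_ge k j with hkj | hkj
        · have h1 := hy.2 j hkj
          have h2 := hwf j hkj
          simp [h1, h2]
        · have hji : j = i := Fin.ext (le_antisymm hkj hj)
          subst hji
          simp [← mul_assoc, mul_inv_cancel₀ hw0]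
    have := AddSubgroup.add_mem _ hrest hmem1
    simpa using this

theorem LL_incl {g h : (Matrix (Fin n) (Fin n) D)ˣ} {R : ℕ} (hgh : g⁻¹ * h ∈ Phi V n R)
    (l : Fin n → ℤ) (hl : ∀ i j, i < j → l i + 2 * R ≤ l j) :
    LL V g l ≤ LL V h (fun i => l i + (mn V g i - mn V h i)) := by
  refine iSup_le fun i => ?_
  refine LL_incl_aux V hgh l hl (i + 1) i.2 (l i) ?_
  intro j hj
  rcases Nat.lt_or_ge j i with h1 | h1
  · have := hl j i h1
    omega
  · have : j = i := Fin.ext (by omega)
    rw [this]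

theorem LL_eq {g h : (Matrix (Fin n) (Fin n) D)ˣ} {R : ℕ} (hgh : g⁻¹ * h ∈ Phi V n R)
    (l l' : Fin n → ℤ) (hl : ∀ i j, i < j → l i + 2 * R ≤ l j)
    (hl' : ∀ i j, i < j → l' i + 2 * R ≤ l' j)
    (hll : ∀ i, l' i = l i + (mn V g i - mn V h i)) :
    LL V g l = LL V h l' := by
  have hgh' : h⁻¹ * g ∈ Phi V n R := by
    have := Phi_inv V hgh
    rwa [mul_inv_rev, inv_inv] at this
  apply le_antisymm
  · have := LL_incl V hgh l hl
    convert this using 2
    exact funext hll
  · have := LL_incl V hgh' l' hl'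
    convert this using 2
    funext i
    rw [hll]
    ring

/-- The place of a discrete valuation is controlled. -/
theorem ctl_Phi : Ctl (Matrix (Fin n) (Fin n) D)ˣ (Phi V n) := by
  intro R ε hε
  obtain ⟨T, hT⟩ := exists_nat_gt ((n : ℝ) * R / ε + R)
  have hT0 : 0 < T := by
    have : (0:ℝ) < T := lt_of_le_of_lt (by positivity) hT
    exact_mod_cast this
  have hTR : (R : ℝ) ≤ T := by
    have : (0:ℝ) ≤ (n : ℝ) * R / ε := by positivity
    linarith
  have hTR' : R ≤ T := by exact_mod_cast hTR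
  haveI : NeZero T := ⟨hT0.ne'⟩
  set Gp : ℕ := T + 2 * R with hGp
  let lam : (Fin n → Fin T) → Fin n → ℤ := fun w i => (i : ℤ) * Gp + (w i : ℤ)
  have hlam : ∀ w : Fin n → Fin T, ∀ i j, i < j → lam w i + 2 * R ≤ lam w j := by
    intro w i j hij
    have h1 : (w i : ℕ) < T := (w i).2
    have h2 : ((i : ℕ) : ℤ) + 1 ≤ (j : ℕ) := by exact_mod_cast hij
    have h3 : (((i : ℕ) : ℤ) + 1) * (Gp : ℤ) ≤ ((j : ℕ) : ℤ) * Gp :=
      mul_le_mul_of_nonneg_right h2 (by positivity)
    simp only [lam]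
    have h4 : (Gp : ℤ) = T + 2 * R := by rw [hGp]; push_cast; ring
    have h5 : ((w i : ℕ) : ℤ) < T := by exact_mod_cast h1
    have h6 : (0:ℤ) ≤ ((w j : ℕ) : ℤ) := by positivity
    nlinarith
  refine ⟨n * Gp, Wf.of (Fin n → Fin T) (AddSubgroup (Fin n → D))
    (fun g w => LL V g (lam w)) ?_ ?_⟩
  · intro g s hs
    have hgs : g⁻¹ * (g * s) ∈ Phi V n R := by rwa [inv_mul_cancel_left]
    have hgs' : (g * s)⁻¹ * g ∈ Phi V n R := by
      have := Phi_inv V hgs
      rwa [mul_inv_rev, inv_inv] at this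
    set mu : Fin n → ℤ := fun i => mn V g i - mn V (g * s) i with hmu
    have hmu1 : ∀ i, mu i ≤ R := fun i => by
      have := mn_close V hgs i
      simp only [hmu]
      omega
    have hmu2 : ∀ i, -(R:ℤ) ≤ mu i := fun i => by
      have := mn_close V hgs' i
      simp only [hmu]
      omega
    let Wi : Fin n → Finset (Fin T) := fun i =>
      Finset.univ.filter fun x => 0 ≤ (x : ℤ) + mu i ∧ (x : ℤ) + mu i < T
    let W : Finset (Fin n → Fin T) := Fintype.piFinset Wi
    let p : (Fin n → Fin T) → (Fin n → Fin T) := fun w i => Fin.ofNat T ((w i : ℤ) + mu i).toNat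
    have hp : ∀ w ∈ W, ∀ i, (((p w i : Fin T) : ℕ) : ℤ) = (w i : ℤ) + mu i := by
      intro w hw i
      have h1 := Fintype.mem_piFinset.mp hw i
      simp only [Wi, Finset.mem_filter, Finset.mem_univ, true_and] at h1
      simp only [p, Fin.ofNat, Nat.mod_eq_of_lt (show ((w i : ℤ) + mu i).toNat < T by omega)]
      omega
    refine ⟨W, p, ?_, ?_, ?_⟩
    · intro x hx y hy hxy
      ext i
      have h1 := hp x hx i
      have h2 := hp y hy i
      rw [hxy, h2] at h1
      omega
    · intro w hw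
      refine LL_eq V hgs _ _ (hlam w) (hlam _) ?_
      intro i
      simp only [lam, hp w hw i]
      simp only [hmu]
      ring
    · have hcardi : ∀ i, T - R ≤ (Wi i).card := by
        intro i
        -- the interval of good points contains an interval of length `T - R`
        have hi1 := hmu1 i
        have hi2 := hmu2 i
        by_cases hpos : 0 ≤ mu i
        · have hinj : (Finset.univ.image (fun x : Fin (T - R) =>
              (⟨x, by omega⟩ : Fin T))) ⊆ Wi i := by
            intro y hy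
            rw [Finset.mem_image] at hy
            obtain ⟨x, -, rfl⟩ := hy
            simp only [Wi, Finset.mem_filter, Finset.mem_univ, true_and]
            have := x.2
            constructor
            · positivity
            · show ((x : ℕ) : ℤ) + mu i < T
              omega
          have := Finset.card_le_card hinj
          rw [Finset.card_image_of_injective, Finset.card_univ, Fintype.card_fin] at this
          · exact this
          · intro a b hab
            exact Fin.ext (by simpa using hab)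
        · have hinj : (Finset.univ.image (fun x : Fin (T - R) =>
              (⟨x + (- mu i).toNat, by omega⟩ : Fin T))) ⊆ Wi i := by
            intro y hy
            rw [Finset.mem_image] at hy
            obtain ⟨x, -, rfl⟩ := hy
            simp only [Wi, Finset.mem_filter, Finset.mem_univ, true_and]
            have := x.2
            constructor
            · show 0 ≤ ((x + (- mu i).toNat : ℕ) : ℤ) + mu i
              omega
            · show ((x + (- mu i).toNat : ℕ) : ℤ) + mu i < T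
              omega
          have := Finset.card_le_card hinj
          rw [Finset.card_image_of_injective, Finset.card_univ, Fintype.card_fin] at this
          · exact this
          · intro a b hab
            exact Fin.ext (by simpa using hab)
      have hcard : (T - R) ^ n ≤ W.card := by
        rw [Fintype.card_piFinset]
        calc (T - R) ^ n = ∏ _i : Fin n, (T - R) := by simp
          _ ≤ _ := Finset.prod_le_prod' fun i _ => hcardi i
      have hTpos : (0:ℝ) < T := by exact_mod_cast hT0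
      have hcardR : ((T : ℝ) - R) ^ n ≤ W.card := by
        have : (((T - R) ^ n : ℕ) : ℝ) ≤ W.card := by exact_mod_cast hcard
        rwa [Nat.cast_pow, Nat.cast_sub hTR'] at this
      have hb : 1 + (n : ℝ) * (-(R / T)) ≤ (1 + (-((R:ℝ) / T))) ^ n := by
        apply one_add_mul_le_pow
        have : (R:ℝ) / T ≤ 1 := by
          rw [div_le_one hTpos]; exact hTR
        linarith
      have hb2 : ((T : ℝ) - R) ^ n = (1 + (-((R:ℝ) / T))) ^ n * (T:ℝ) ^ n := by
        rw [← mul_pow]
        congr 1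
        field_simp
        ring
      have hnR : (n : ℝ) * R / T ≤ ε := by
        rw [div_le_iff₀ hTpos]
        have h1 : (n : ℝ) * R / ε ≤ T := by
          have : (0:ℝ) ≤ R := Nat.cast_nonneg _
          linarith
        rwa [div_le_iff₀ hε, mul_comm (T:ℝ) ε] at h1
      have hcO : (Fintype.card (Fin n → Fin T) : ℝ) = (T : ℝ) ^ n := by
        simp
      rw [hcO]
      calc (1 - ε) * (T:ℝ) ^ n ≤ (1 + (-((R:ℝ) / T))) ^ n * (T:ℝ) ^ n := by
            refine mul_le_mul_of_nonneg_right ?_ (by positivity)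
            refine le_trans ?_ hb
            have : (n : ℝ) * (-(R / T)) = - ((n : ℝ) * R / T) := by ring
            rw [this]
            linarith
        _ = ((T : ℝ) - R) ^ n := hb2.symm
        _ ≤ _ := hcardR
  · -- supports
    have key : ∀ g h : (Matrix (Fin n) (Fin n) D)ˣ, ∀ w w', LL V g (lam w) = LL V h (lam w') →
        ∀ i j, ((h⁻¹ * g : (Matrix (Fin n) (Fin n) D)ˣ) : Matrix (Fin n) (Fin n) D) i j ∈
          V.O (-((n * Gp : ℕ) : ℤ)) := by
      intro g h w w' hh i j
      have hn : 0 < n := i.pos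
      let last : Fin n := ⟨n - 1, by omega⟩
      have hlast : lam w last ≤ ((n * Gp : ℕ) : ℤ) := by
        simp only [lam, last]
        have h1 := (w ⟨n - 1, by omega⟩).2
        have h2 : ((n - 1 : ℕ) : ℤ) = (n : ℤ) - 1 := by
          rw [Nat.cast_sub (by omega)]
          simp
        push_cast
        rw [h2]
        have h3 : (Gp : ℤ) = T + 2 * R := by rw [hGp]; push_cast; ring
        have h4 : (((w ⟨n - 1, by omega⟩ : Fin T) : ℕ) : ℤ) < T := by exact_mod_cast h1
        nlinarith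
      have h1 : Lat V g ((n * Gp : ℕ) : ℤ) ≤ LL V g (lam w) := by
        intro y hy
        refine AddSubgroup.mem_iSup_of_mem (S := fun i : Fin n =>
          Lat V g (lam w i) ⊓ flag D n (i + 1)) last ⟨Lat_anti V g hlast hy, ?_⟩
        intro j hj
        exfalso
        have h1 := j.2
        have h2 : (last : ℕ) = n - 1 := rfl
        omega
      have h2 : LL V h (lam w') ≤ Lat V h 0 := by
        refine iSup_le fun i => ?_
        refine le_trans inf_le_left (Lat_anti V h ?_)
        simp only [lam]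
        positivity
      have h3 : Lat V g ((n * Gp : ℕ) : ℤ) ≤ Lat V h 0 := h1.trans (hh ▸ h2)
      have h4 : (g : Matrix (Fin n) (Fin n) D).mulVec
          (Pi.single j (V.t ^ (n * Gp)) : Fin n → D) ∈ Lat V g ((n * Gp : ℕ) : ℤ) := by
        intro k
        rw [Matrix.mulVec_mulVec, ← Units.val_mul, inv_mul_cancel, Units.val_one,
          Matrix.one_mulVec]
        by_cases hjk : k = j
        · subst hjk
          rw [Pi.single_eq_same]
          exact V.t_pow_mem _
        · rw [Pi.single_eq_of_ne hjk]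
          exact AddSubgroup.zero_mem _
      have h5 := h3 h4 i
      rw [Matrix.mulVec_mulVec, ← Units.val_mul, Matrix.mulVec_single] at h5
      simp only [MulOpposite.smul_eq_mul_unop, MulOpposite.unop_op, Pi.smul_apply,
        Matrix.col_apply] at h5
      have h6 := V.O_mul h5 (zpow_mem V (-((n * Gp : ℕ) : ℤ)))
      rw [mul_assoc, ← zpow_natCast, ← zpow_add₀ V.t_ne, add_neg_cancel, zpow_zero, mul_one,
        zero_add] at h6
      exact h6
    intro g h w w' hh _ i j
    refine ⟨key h g w' w hh.symm i j, ?_⟩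
    rw [mul_inv_rev, inv_inv]
    exact key g h w w' hh i j

end Place

end Pool.Agent.N506.EX
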