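import Pool.Agent.N506.EXA

/-!
# Amenable groups (Følner families with multiplicities): solvable groups are exact
-/

namespace Pool.Agent.N506.EX

universe u v w

/-- Følner condition with multiplicities. -/
def Am (G : Type u) [Group G] : Prop :=
  ∀ F : Set G, F.Finite → ∀ ε : ℝ, 0 < ε →
    ∃ (Ω : Type) (_ : Fintype Ω) (_ : Nonempty Ω) (b : Ω → G),
      ∀ s ∈ F, ∃ (W : Finset Ω) (p : Ω → Ω), Set.InjOn p W ∧
        (∀ w ∈ W, s * b w = b (p w)) ∧ (1 - ε) * (Fintype.card Ω : ℝ) ≤ (W.card : ℝ)

theorem Am.ex {G : Type u} [Group G] (h : Am G) : Ex G := by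
  intro F hF ε hε
  obtain ⟨Ω, _, _, b, hb⟩ := h (F⁻¹) hF.inv ε hε
  refine ⟨Set.range (fun x : Ω × Ω => b x.1 * (b x.2)⁻¹), Set.finite_range _,
    Wf.of Ω G (fun g w => g * b w) ?_ ?_⟩
  · intro g s hs
    obtain ⟨W, p, hp, hW, hc⟩ := hb s⁻¹ (by simpa using hs)
    refine ⟨W, p, hp, fun w hw => ?_, hc⟩
    rw [← hW w hw]
    group
  · intro g h w w' hh _
    refine ⟨(w, w'), ?_⟩
    simp only
    have : b w = g⁻¹ * (h * b w') := by rw [← hh]; group
    rw [this]
    group

theorem Am.of_surj {G : Type u} [Group G] {H : Type v} [Group H] (h : Am G) (f : G →* H)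
    (hf : Function.Surjective f) : Am H := by
  classical
  intro F hF ε hε
  obtain ⟨g, hg⟩ := hf.hasRightInverse
  obtain ⟨Ω, _, _, b, hb⟩ := h (g '' F) (hF.image g) ε hε
  refine ⟨Ω, inferInstance, inferInstance, fun w => f (b w), ?_⟩
  intro s hs
  obtain ⟨W, p, hp, hW, hc⟩ := hb (g s) (Set.mem_image_of_mem _ hs)
  refine ⟨W, p, hp, fun w hw => ?_, hc⟩
  simp only
  rw [← hW w hw, map_mul, hg]

theorem Am.of_equiv {G : Type u} [Group G] {H : Type v} [Group H] (h : Am G) (f : G ≃* H) :
    Am H := Am.of_surj h f.toMonoidHom f.surjective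

/-- Abelian groups. -/
theorem Am.of_comm {G : Type u} [CommGroup G] : Am G := by
  classical
  intro F hF ε hε
  obtain ⟨F, rfl⟩ := hF.exists_finset_coe
  obtain ⟨T, hT⟩ := exists_nat_gt (1 / ε)
  have hT0 : 0 < T := by
    have : (0:ℝ) < T := lt_of_le_of_lt (by positivity) hT
    exact_mod_cast this
  have : NeZero T := ⟨hT0.ne'⟩
  let e : Fin F.card ≃ F := F.equivFin.symm
  refine ⟨Fin F.card → Fin T, inferInstance, inferInstance,
    fun m => ∏ i : Fin F.card, (e i : G) ^ ((m i : Fin T) : ℕ), ?_⟩
  intro s hs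
  let i0 : Fin F.card := e.symm ⟨s, hs⟩
  have hi0 : (e i0 : G) = s := by simp [i0]
  let Wi : Fin F.card → Finset (Fin T) := fun i =>
    if i = i0 then Finset.univ.filter fun x : Fin T => (x : ℕ) + 1 < T else Finset.univ
  let W : Finset (Fin F.card → Fin T) := Fintype.piFinset Wi
  let p : (Fin F.card → Fin T) → (Fin F.card → Fin T) := fun m => Function.update m i0 (m i0 + 1)
  have hW0 : ∀ m ∈ W, (m i0 : ℕ) + 1 < T := by
    intro m hm
    have := Fintype.mem_piFinset.mp hm i0
    simpa [Wi] using this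
  have hval : ∀ m ∈ W, ((m i0 + 1 : Fin T) : ℕ) = (m i0 : ℕ) + 1 := by
    intro m hm
    have h1 := hW0 m hm
    have hT1 : 1 < T := by omega
    have h2 : ((1 : Fin T) : ℕ) = 1 := by
      rw [Fin.val_one']
      exact Nat.mod_eq_of_lt hT1
    rw [Fin.val_add, h2, Nat.mod_eq_of_lt h1]
  refine ⟨W, p, ?_, ?_, ?_⟩
  · intro x hx y hy hxy
    ext i
    by_cases hi : i = i0
    · subst hi
      have := congrFun hxy i0
      simp only [p, Function.update_self] at this
      have h1 := congrArg Fin.val this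
      rw [hval x hx, hval y hy] at h1
      omega
    · have := congrFun hxy i
      simp only [p, Function.update_of_ne hi] at this
      rw [this]
  · intro m hm
    have h1 : ∏ i : Fin F.card, (e i : G) ^ ((p m i : Fin T) : ℕ) =
        (∏ i : Fin F.card, (e i : G) ^ ((m i : Fin T) : ℕ)) *
          ∏ i : Fin F.card, (if i = i0 then s else 1) := by
      rw [← Finset.prod_mul_distrib]
      refine Finset.prod_congr rfl fun i _ => ?_
      by_cases hi : i = i0
      · have h2 : ((p m i : Fin T) : ℕ) = (m i : ℕ) + 1 := by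
          rw [hi]
          simp only [p, Function.update_self]
          exact hval m hm
        rw [h2, pow_succ, if_pos hi]
        congr 1
        rw [hi, hi0]
      · simp [p, Function.update_of_ne hi, hi]
    simp only at h1 ⊢
    rw [h1]
    rw [Finset.prod_ite_eq' Finset.univ i0 (fun _ => s)]
    simp [mul_comm]
  · have hc : (Finset.univ.filter fun x : Fin T => (x : ℕ) + 1 < T).card = T - 1 := by
      have : (Finset.univ.filter fun x : Fin T => (x : ℕ) + 1 < T) =
          Finset.univ.erase (⟨T - 1, by omega⟩ : Fin T) := by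
        ext x
        simp only [Finset.mem_filter, Finset.mem_univ, true_and, Finset.mem_erase, and_true,
          ne_eq, Fin.ext_iff]
        have := x.2
        omega
      rw [this, Finset.card_erase_of_mem (Finset.mem_univ _)]
      simp
    have h1 : W.card * T = (T - 1) * T ^ (Fintype.card (Fin F.card)) := by
      rw [Fintype.card_piFinset]
      have h2 : ∀ i : Fin F.card, (Wi i).card = if i = i0 then T - 1 else T := by
        intro i
        by_cases hi : i = i0
        · simp only [Wi, if_pos hi, hc]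
        · simp [Wi, hi]
      rw [Finset.prod_congr rfl fun i _ => h2 i]
      rw [← Finset.mul_prod_erase Finset.univ _ (Finset.mem_univ i0), if_pos rfl]
      rw [Finset.prod_congr rfl (g := fun _ => T)]
      · rw [Finset.prod_const, Finset.card_erase_of_mem (Finset.mem_univ _), Finset.card_univ]
        have hpos : 0 < Fintype.card (Fin F.card) := Fintype.card_pos_iff.mpr ⟨i0⟩
        obtain ⟨k, hk⟩ := Nat.exists_eq_succ_of_ne_zero hpos.ne'
        rw [hk]
        simp only [Nat.succ_eq_add_one, Nat.add_sub_cancel]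
        rw [pow_succ]
        ring
      · intro i hi
        rw [if_neg (Finset.ne_of_mem_erase hi)]
    have hTpos : (0:ℝ) < T := by exact_mod_cast hT0
    have h2 : (W.card : ℝ) * T = ((T:ℝ) - 1) * (T:ℝ) ^ (Fintype.card (Fin F.card)) := by
      have : ((W.card * T : ℕ) : ℝ) = (((T - 1) * T ^ (Fintype.card (Fin F.card)) : ℕ) : ℝ) := by rw [h1]
      rw [Nat.cast_mul, Nat.cast_mul, Nat.cast_pow, Nat.cast_sub hT0] at this
      simpa using this
    have h3 : (Fintype.card (Fin F.card → Fin T) : ℝ) = (T:ℝ) ^ (Fintype.card (Fin F.card)) := by simp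
    rw [h3]
    have h4 : 1 ≤ ε * T := by
      have := (div_lt_iff₀ hε).mp hT
      linarith [mul_comm ε (T:ℝ)]
    have h5 : ((1 - ε) * (T:ℝ) ^ (Fintype.card (Fin F.card))) * T ≤ (W.card : ℝ) * T := by
      rw [h2]
      have : (0:ℝ) ≤ (T:ℝ) ^ (Fintype.card (Fin F.card)) := by positivity
      nlinarith
    exact le_of_mul_le_mul_right h5 hTpos

/-- Extensions. -/
theorem Am.ext {G : Type u} [Group G] (N : Subgroup G) [N.Normal] (hN : Am N)
    (hQ : Am (G ⧸ N)) : Am G := by
  classical
  intro F hF ε hε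
  obtain ⟨Ω, _, _, b, hb⟩ := hQ (QuotientGroup.mk '' F) (hF.image _) (ε / 2) (by positivity)
  let o : G ⧸ N → G := fun x => x.out
  have ho : ∀ x, (QuotientGroup.mk (o x) : G ⧸ N) = x := fun x => QuotientGroup.out_eq' x
  -- the finite set of cocycle values
  let c : G → Ω × Ω → G := fun g w => (o (b w.2))⁻¹ * g * o (b w.1)
  let C : Set N := {x | ∃ g ∈ F, ∃ w : Ω × Ω, (x : G) = c g w}
  have hC : C.Finite := by
    have h1 : (Set.image2 (fun g w => c g w) F (Set.univ : Set (Ω × Ω))).Finite :=
      hF.image2 _ Set.finite_univ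
    refine (h1.preimage (Subtype.val_injective.injOn (s := Set.univ) |>.mono
      (Set.subset_univ _))).subset ?_
    rintro x ⟨g, hg, w, hw⟩
    exact ⟨g, hg, w, trivial, hw.symm⟩
  obtain ⟨Ω', _, _, b', hb'⟩ := hN C hC (ε / 2) (by positivity)
  refine ⟨Ω × Ω', inferInstance, inferInstance, fun w => o (b w.1) * (b' w.2 : G), ?_⟩
  intro g hg
  obtain ⟨W, p, hp, hW, hc⟩ := hb (QuotientGroup.mk g) (Set.mem_image_of_mem _ hg)
  have hmem : ∀ w ∈ W, c g (w, p w) ∈ N := by
    intro w hw
    rw [← QuotientGroup.eq_one_iff]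
    have h1 := hW w hw
    simp only [c]
    rw [QuotientGroup.mk_mul, QuotientGroup.mk_mul, QuotientGroup.mk_inv, ho, ho, mul_assoc, h1]
    simp
  have hCm : ∀ w (hw : w ∈ W), (⟨c g (w, p w), hmem w hw⟩ : N) ∈ C :=
    fun w hw => ⟨g, hg, _, rfl⟩
  choose! W' p' hp' hW' hc' using hb'
  let n : Ω → N := fun w => if hw : w ∈ W then ⟨c g (w, p w), hmem w hw⟩ else 1
  have hn : ∀ w ∈ W, n w ∈ C := by
    intro w hw
    simp only [n, dif_pos hw]
    exact hCm w hw
  have hnv : ∀ w ∈ W, (n w : G) = c g (w, p w) := by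
    intro w hw
    simp only [n, dif_pos hw]
  refine ⟨W.biUnion fun w => (W' (n w)).image fun w' => (w, w'),
    fun w => (p w.1, p' (n w.1) w.2), ?_, ?_, ?_⟩
  · intro x hx y hy hxy
    simp only [Finset.coe_biUnion, Set.mem_iUnion, Finset.mem_coe, Finset.mem_image] at hx hy
    obtain ⟨x1, hx1, x2, hx2, rfl⟩ := hx
    obtain ⟨y1, hy1, y2, hy2, rfl⟩ := hy
    simp only [Prod.mk.injEq] at hxy
    have e1 := hp hx1 hy1 hxy.1
    subst e1
    have e2 := hp' _ (hn _ hx1) hx2 hy2 hxy.2
    rw [e2]
  · intro x hx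
    simp only [Finset.mem_biUnion, Finset.mem_image] at hx
    obtain ⟨x1, hx1, x2, hx2, rfl⟩ := hx
    have e1 := congrArg (Subtype.val : N → G) (hW' (n x1) (hn _ hx1) x2 hx2)
    simp only [Subgroup.coe_mul] at e1
    rw [hnv _ hx1] at e1
    simp only [c] at e1
    simp only
    rw [← e1]
    group
  · rw [Finset.card_biUnion]
    · have h1 : ∀ w ∈ W, ((1 - ε / 2) * (Fintype.card Ω' : ℝ)) ≤
          (((W' (n w)).image fun w' => (w, w')).card : ℝ) := by
        intro w hw
        rw [Finset.card_image_of_injective _ (Prod.mk_right_injective w)]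
        exact hc' _ (hn w hw)
      rw [Nat.cast_sum, Fintype.card_prod, Nat.cast_mul]
      have h2 : (W.card : ℝ) * ((1 - ε / 2) * (Fintype.card Ω' : ℝ)) ≤
          ∑ w ∈ W, (((W' (n w)).image fun w' => (w, w')).card : ℝ) := by
        rw [← nsmul_eq_mul]
        exact Finset.card_nsmul_le_sum _ _ _ h1
      refine le_trans ?_ h2
      have h3 : (W.card : ℝ) ≤ Fintype.card Ω := by exact_mod_cast Finset.card_le_univ W
      have h4 : (0:ℝ) ≤ Fintype.card Ω' := Nat.cast_nonneg _
      have h5 : (0:ℝ) ≤ W.card := Nat.cast_nonneg _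
      by_cases hε1 : ε ≤ 2
      · have h6 : (1 - ε / 2) * (Fintype.card Ω : ℝ) * ((1 - ε / 2) * (Fintype.card Ω' : ℝ)) ≤
            (W.card : ℝ) * ((1 - ε / 2) * (Fintype.card Ω' : ℝ)) := by
          refine mul_le_mul_of_nonneg_right hc ?_
          exact mul_nonneg (by linarith) h4
        refine le_trans ?_ h6
        have h7 : (0:ℝ) ≤ (Fintype.card Ω : ℝ) * Fintype.card Ω' := by positivity
        nlinarith [sq_nonneg ε]
      · have hε2 : 2 < ε := not_le.mp hε1
        have h6 : (W.card : ℝ) * ((ε / 2 - 1) * (Fintype.card Ω' : ℝ)) ≤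
            (Fintype.card Ω : ℝ) * ((ε / 2 - 1) * (Fintype.card Ω' : ℝ)) := by
          refine mul_le_mul_of_nonneg_right h3 ?_
          exact mul_nonneg (by linarith) h4
        have h7 : (0:ℝ) ≤ (Fintype.card Ω : ℝ) * Fintype.card Ω' := by positivity
        nlinarith
    · intro x _ y _ hxy
      rw [Function.onFun, Finset.disjoint_left]
      intro z hz1 hz2
      rw [Finset.mem_image] at hz1 hz2
      obtain ⟨z1, -, rfl⟩ := hz1
      obtain ⟨z2, -, h2⟩ := hz2
      exact hxy (congrArg Prod.fst h2).symm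

/-- Solvable groups. -/
theorem Am.of_solvable {G : Type u} [Group G] [Group.IsSolvable G] : Am G := by
  obtain ⟨N, hN⟩ := (Group.isSolvable_def G).mp inferInstance
  have key : ∀ k, k ≤ N → Am (derivedSeries G (N - k)) := by
    intro k
    induction k with
    | zero =>
      intro _
      rw [Nat.sub_zero, hN]
      intro F _ ε hε
      refine ⟨Unit, inferInstance, inferInstance, fun _ => 1, fun s _ =>
        ⟨Finset.univ, id, Function.injective_id.injOn, fun _ _ => Subsingleton.elim _ _, ?_⟩⟩
      simp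
      linarith
    | succ k ih =>
      intro hk
      have h1 := ih (by omega)
      have e : N - k = (N - (k + 1)) + 1 := by omega
      rw [e, derivedSeries_succ] at h1
      set K := derivedSeries G (N - (k + 1))
      have h2 : Am (commutator K) := by
        have e2 : (commutator K).map K.subtype = ⁅K, K⁆ := by
          rw [commutator_def, Subgroup.map_commutator]
          simp [← MonoidHom.range_eq_map]
        rw [← e2] at h1
        exact Am.of_equiv h1 ((commutator K).equivMapOfInjective K.subtype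
          K.subtype_injective).symm
      have h3 : Am (K ⧸ commutator K) := Am.of_comm (G := Abelianization K)
      exact Am.ext (commutator K) h2 h3
  have := key N le_rfl
  rw [Nat.sub_self, derivedSeries_zero] at this
  exact Am.of_equiv this Subgroup.topEquiv

end Pool.Agent.N506.EX
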