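import Pool.Agent.N506.EXE

/-!
# Twisted Hahn series division rings
-/

namespace Pool.Agent.N506.EX

open HahnSeries

section Powers

variable {Γ : Type*} {R : Type*} [AddCommMonoid Γ] [LinearOrder Γ] [IsOrderedCancelAddMonoid Γ]
  [Ring R]

theorem pow_finite_co_support' {x : R⟦Γ⟧} (hx : 0 < x.orderTop) (g : Γ) :
    Set.Finite {a | ((fun n ↦ x ^ n) a).coeff g ≠ 0} := by
  have hpwo : Set.IsPWO (⋃ n, support (x ^ n)) :=
    SummableFamily.isPWO_iUnion_support_powers (zero_le_orderTop_iff.mp <| le_of_lt hx)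
  by_cases h0 : x = 0
  · exact h0 ▸ Set.Finite.subset (Set.finite_singleton 0) (SummableFamily.co_support_zero g)
  by_cases hg : g ∈ ⋃ n : ℕ, { g | (x ^ n).coeff g ≠ 0 }
  swap; · exact Set.finite_empty.subset fun n hn => hg (Set.mem_iUnion.2 ⟨n, hn⟩)
  apply hpwo.isWF.induction hg
  intro y ys hy
  refine ((((Finset.antidiagonal x.isPWO_support hpwo y).finite_toSet.biUnion
    fun ij hij => hy ij.snd (Finset.mem_antidiagonal.1 (Finset.mem_coe.1 hij)).2.1 ?_).image
      Nat.succ).union (Set.finite_singleton 0)).subset ?_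
  · obtain ⟨hi, _, rfl⟩ := Finset.mem_antidiagonal.1 (Finset.mem_coe.1 hij)
    exact lt_add_of_pos_left ij.2 <| lt_of_lt_of_le ((zero_lt_orderTop_iff h0).mp hx) <|
      order_le_of_coeff_ne_zero <| Function.mem_support.mp hi
  · rintro (_ | n) hn
    · exact Set.mem_union_right _ (Set.mem_singleton 0)
    · simp only [Set.mem_ofPred_eq, pow_succ'] at hn
      obtain ⟨i, hi, j, hj, rfl⟩ := support_mul_subset hn
      refine Set.mem_union_left _ ⟨n, Set.mem_iUnion.2 ⟨⟨i, j⟩, Set.mem_iUnion.2 ⟨?_, hj⟩⟩, rfl⟩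
      exact Finset.mem_coe.mpr (Finset.mem_antidiagonal.mpr ⟨hi, Set.mem_iUnion.mpr ⟨n, hj⟩, rfl⟩)

/-- The summable family of powers, over a ring which need not be commutative. -/
noncomputable def powersFam (x : R⟦Γ⟧) (hx : 0 < x.orderTop) : SummableFamily Γ R ℕ where
  toFun n := x ^ n
  isPWO_iUnion_support' :=
    SummableFamily.isPWO_iUnion_support_powers (zero_le_orderTop_iff.mp <| le_of_lt hx)
  finite_co_support' g := pow_finite_co_support' hx g

theorem powersFam_apply (x : R⟦Γ⟧) (hx : 0 < x.orderTop) (n : ℕ) : powersFam x hx n = x ^ n := rfl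

theorem one_sub_mul_powersFam (x : R⟦Γ⟧) (hx : 0 < x.orderTop) :
    (1 - x) * (powersFam x hx).hsum = 1 := by
  have h1 : (x • powersFam x hx).embDomain ⟨Nat.succ, Nat.succ_injective⟩ =
      powersFam x hx - SummableFamily.ofFinsupp (Finsupp.single 0 1) := by
    apply SummableFamily.ext
    rintro (_ | n)
    · rw [SummableFamily.embDomain_of_notMem_range]
      · simp [powersFam_apply]
      · rintro ⟨n, hn⟩
        exact Nat.succ_ne_zero n hn
    · have h2 := SummableFamily.embDomain_image (x • powersFam x hx)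
        ⟨Nat.succ, Nat.succ_injective⟩ (a := n)
      simp only [Function.Embedding.coeFn_mk, Nat.succ_eq_add_one] at h2
      rw [h2]
      simp [SummableFamily.smul_apply, of_symm_smul_of_eq_mul, powersFam_apply, pow_succ',
        -smul_eq_mul]
  rw [← SummableFamily.hsum_smul, sub_smul 1 x (powersFam x hx), one_smul,
    SummableFamily.hsum_sub, ← SummableFamily.hsum_embDomain (x • powersFam x hx)
      ⟨Nat.succ, Nat.succ_injective⟩, h1]
  rw [SummableFamily.hsum_sub]
  simp

end Powers


section Twisted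

universe u

/-- A graded division ring, given by additive subgroups of an ambient ring. -/
structure Gr (A : Type u) [Ring A] (Λ : Type) [AddCommGroup Λ] where
  /-- the homogeneous components -/
  T : Λ → AddSubgroup A
  mul_mem : ∀ l m a b, a ∈ T l → b ∈ T m → a * b ∈ T (l + m)
  one_mem : (1 : A) ∈ T 0
  mul_ne : ∀ l m a b, a ∈ T l → b ∈ T m → a ≠ 0 → b ≠ 0 → a * b ≠ 0
  inv : ∀ l a, a ∈ T l → a ≠ 0 → ∃ b ∈ T (-l), b * a = 1
  nontriv : (1 : A) ≠ 0

variable {A : Type u} [Ring A] {Λ : Type} [AddCommGroup Λ] [LinearOrder Λ] [IsOrderedAddMonoid Λ]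
  (G : Gr A Λ)

/-- The completed division ring: Hahn series whose coefficients are homogeneous. -/
def TwH : Subring (HahnSeries Λ A) where
  carrier := {h | ∀ l, h.coeff l ∈ G.T l}
  mul_mem' := by
    intro a b ha hb l
    rw [HahnSeries.coeff_mul]
    refine AddSubgroup.sum_mem _ fun ij hij => ?_
    rw [Finset.mem_antidiagonal] at hij
    rw [← hij.2.2]
    exact G.mul_mem _ _ _ _ (ha ij.1) (hb ij.2)
  one_mem' := by
    intro l
    rw [HahnSeries.coeff_one]
    split_ifs with h
    · subst h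
      exact G.one_mem
    · exact AddSubgroup.zero_mem _
  zero_mem' := by
    intro l
    rw [HahnSeries.coeff_zero]
    exact AddSubgroup.zero_mem _
  add_mem' := by
    intro a b ha hb l
    rw [HahnSeries.coeff_add]
    exact AddSubgroup.add_mem _ (ha l) (hb l)
  neg_mem' := by
    intro a ha l
    rw [HahnSeries.coeff_neg]
    exact AddSubgroup.neg_mem _ (ha l)

theorem mem_TwH {h : HahnSeries Λ A} : h ∈ TwH G ↔ ∀ l, h.coeff l ∈ G.T l := Iff.rfl

theorem single_mem {c : A} {l : Λ} (hc : c ∈ G.T l) : single l c ∈ TwH G := by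
  intro m
  by_cases hm : m = l
  · subst hm
    rw [HahnSeries.coeff_single_same]
    exact hc
  · rw [HahnSeries.coeff_single_of_ne hm]
    exact AddSubgroup.zero_mem _

theorem leadingCoeff_mem {x : HahnSeries Λ A} (hx : x ∈ TwH G) :
    x.leadingCoeff ∈ G.T x.order := by
  rw [HahnSeries.leadingCoeff_eq]
  exact hx _

theorem leading_mul_ne {x y : HahnSeries Λ A} (hx : x ∈ TwH G)
    (hx0 : x ≠ 0) (hy : y ∈ TwH G) (hy0 : y ≠ 0) :
    x.leadingCoeff * y.leadingCoeff ≠ 0 :=
  G.mul_ne _ _ _ _ (leadingCoeff_mem G hx) (leadingCoeff_mem G hy)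
    (HahnSeries.leadingCoeff_ne_zero.mpr hx0) (HahnSeries.leadingCoeff_ne_zero.mpr hy0)

theorem TwH_mul_ne {x y : HahnSeries Λ A} (hx : x ∈ TwH G)
    (hx0 : x ≠ 0) (hy : y ∈ TwH G) (hy0 : y ≠ 0) : x * y ≠ 0 := by
  have h := leading_mul_ne G hx hx0 hy hy0
  intro h0
  have h1 := HahnSeries.coeff_mul_order_add_order x y
  rw [h0, HahnSeries.coeff_zero] at h1
  exact h h1.symm

theorem TwH_order_mul {x y : HahnSeries Λ A} (hx : x ∈ TwH G)
    (hx0 : x ≠ 0) (hy : y ∈ TwH G) (hy0 : y ≠ 0) : (x * y).order = x.order + y.order :=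
  HahnSeries.order_mul_of_ne_zero (leading_mul_ne G hx hx0 hy hy0)

instance : NoZeroDivisors (TwH G) where
  eq_zero_or_eq_zero_of_mul_eq_zero := by
    intro a b hab
    by_contra h
    rw [not_or] at h
    refine TwH_mul_ne G a.2 (fun h0 => h.1 (Subtype.ext h0)) b.2
      (fun h0 => h.2 (Subtype.ext h0)) ?_
    exact congrArg Subtype.val hab

instance : Nontrivial (TwH G) := ⟨⟨0, 1, fun h => by
  have h1 := congrArg (fun x : TwH G => (x : HahnSeries Λ A).coeff 0) h
  simp only [ZeroMemClass.coe_zero, HahnSeries.coeff_zero, OneMemClass.coe_one,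
    HahnSeries.coeff_one, if_true] at h1
  exact G.nontriv h1.symm⟩⟩

theorem hsum_mem {x : HahnSeries Λ A} (hx : x ∈ TwH G)
    (h : 0 < x.orderTop) : (powersFam x h).hsum ∈ TwH G := by
  intro l
  rw [SummableFamily.coeff_hsum_eq_sum]
  refine AddSubgroup.sum_mem _ fun n _ => ?_
  exact ((TwH G).pow_mem hx n : x ^ n ∈ TwH G) l

theorem TwH_isUnit (x : TwH G) (hx : x ≠ 0) : IsUnit x := by
  have hx0 : (x : HahnSeries Λ A) ≠ 0 := fun h => hx (Subtype.ext h)
  obtain ⟨c, hc, hlc⟩ := G.inv _ _ (leadingCoeff_mem G x.2)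
    (HahnSeries.leadingCoeff_ne_zero.mpr hx0)
  set m := (x : HahnSeries Λ A).order with hm
  let y0 : HahnSeries Λ A := single (-m) c
  have hy0 : y0 ∈ TwH G := single_mem G hc
  let z : HahnSeries Λ A := 1 - y0 * x
  have hz : z ∈ TwH G := (TwH G).sub_mem (TwH G).one_mem ((TwH G).mul_mem hy0 x.2)
  have hz1 : 0 < z.orderTop := by
    have h1 : ∀ l ≤ 0, z.coeff l = 0 := by
      intro l hl
      have h2 : (y0 * (x : HahnSeries Λ A)).coeff l = c * (x : HahnSeries Λ A).coeff (l + m) := by
        have h3 := HahnSeries.coeff_single_mul_add (r := c) (x := (x : HahnSeries Λ A))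
          (a := l + m) (b := -m)
        rw [show l + m + -m = l by abel] at h3
        exact h3
      rw [HahnSeries.coeff_sub, h2, HahnSeries.coeff_one]
      rcases hl.lt_or_eq with h | h
      · rw [if_neg h.ne, HahnSeries.coeff_eq_zero_of_lt_order (by
          rw [← hm]
          calc l + m < 0 + m := by gcongr
            _ = m := zero_add m), mul_zero, sub_zero]
      · subst h
        rw [if_pos rfl, zero_add, hm, ← HahnSeries.leadingCoeff_eq, hlc, sub_self]
    by_cases hz0 : z = 0
    · rw [hz0, HahnSeries.orderTop_zero]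
      exact WithTop.top_pos
    · rw [HahnSeries.zero_lt_orderTop_iff hz0]
      by_contra h
      exact HahnSeries.coeff_order_eq_zero.not.mpr hz0 (h1 _ (not_lt.mp h))
  let u : TwH G := ⟨_, hsum_mem G hz hz1⟩
  have h1 : (⟨y0, hy0⟩ : TwH G) * x * u = 1 := by
    apply Subtype.ext
    have := one_sub_mul_powersFam z hz1
    have e : 1 - z = y0 * x := by simp only [z]; abel
    rw [e] at this
    exact this
  -- in a domain, one-sided inverses are two-sided
  have hdom : ∀ a b : TwH G, a * b = 1 → b * a = 1 := by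
    intro a b hab
    have hb0 : b ≠ 0 := by
      rintro rfl
      rw [mul_zero] at hab
      exact zero_ne_one hab
    have : (b * a - 1) * b = 0 := by
      rw [sub_mul, mul_assoc, hab, mul_one, one_mul, sub_self]
    exact sub_eq_zero.mp ((mul_eq_zero.mp this).resolve_right hb0)
  have h2 : x * (u * (⟨y0, hy0⟩ : TwH G)) = 1 := by
    have := hdom (⟨y0, hy0⟩ : TwH G) (x * u) (by rw [← mul_assoc]; exact h1)
    rw [← mul_assoc]
    exact this
  exact ⟨⟨x, _, h2, hdom _ _ h2⟩, rfl⟩

noncomputable instance instDivTwH : DivisionRing (TwH G) :=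
  DivisionRing.ofIsUnitOrEqZero fun a => by
    by_cases h : a = 0
    · exact Or.inr h
    · exact Or.inl (TwH_isUnit G a h)

/-- The discrete valuation of a twisted Hahn series ring given by an order preserving map of the
exponents to the integers. -/
noncomputable def TwHDV (w : Λ →+ ℤ) (hw : Monotone w) (l0 : Λ) (hl0 : w l0 = 1)
    (t : A) (ht : t ∈ G.T l0) (ht0 : t ≠ 0) :
    DV (TwH G) where
  v x := w (x : HahnSeries Λ A).order
  map_mul a b ha hb := by
    have := TwH_order_mul G a.2 (fun h => ha (Subtype.ext h)) b.2 (fun h => hb (Subtype.ext h))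
    rw [← map_add, ← this]
    rfl
  map_add a b ha hb hab := by
    have h0 : (a : HahnSeries Λ A) + b ≠ 0 := fun h => hab (Subtype.ext h)
    have := HahnSeries.min_order_le_order_add h0
    rw [← hw.map_min]
    exact hw this
  t := ⟨_, single_mem G ht⟩
  t_ne := by
    intro h
    have := congrArg Subtype.val h
    have h2 : single l0 t = (0 : HahnSeries Λ A) := this
    rw [HahnSeries.single_eq_zero_iff] at h2
    exact ht0 h2
  v_t := by
    show w (single l0 t).order = 1
    rw [HahnSeries.order_single ht0, hl0]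

end Twisted

section Crossed

universe u

variable {E : Type u} [DivisionRing E] {Λ : Type} [AddCommGroup Λ]
  (σ : Multiplicative Λ →* RingAut E)

/-- The operator `c σ_l` on `E`. -/
def op (c : E) (l : Λ) : AddMonoid.End E :=
  (AddMonoidHom.mulLeft c).comp ((σ (Multiplicative.ofAdd l) : E ≃+* E) : E →+ E)

theorem op_apply (c : E) (l : Λ) (x : E) :
    op σ c l x = c * σ (Multiplicative.ofAdd l) x := rfl

theorem end_mul_apply (f g : AddMonoid.End E) (x : E) : (f * g) x = f (g x) := rfl

theorem op_mul (c d : E) (l m : Λ) :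
    op σ c l * op σ d m = op σ (c * σ (Multiplicative.ofAdd l) d) (l + m) := by
  ext x
  rw [end_mul_apply, op_apply, op_apply, op_apply, ofAdd_add, map_mul, map_mul,
    RingAut.mul_apply, mul_assoc]

theorem op_add (c d : E) (l : Λ) : op σ c l + op σ d l = op σ (c + d) l := by
  ext x
  show op σ c l x + op σ d l x = _
  rw [op_apply, op_apply, op_apply, add_mul]

theorem op_neg (c : E) (l : Λ) : - op σ c l = op σ (-c) l := by
  ext x
  show - (op σ c l x) = _
  rw [op_apply, op_apply, neg_mul]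

theorem op_zero (l : Λ) : op σ 0 l = 0 := by
  ext x
  rw [op_apply, zero_mul]
  rfl

theorem op_one : op σ 1 0 = 1 := by
  ext x
  rw [op_apply, ofAdd_zero, map_one, one_mul]
  rfl

theorem op_injective (l : Λ) : Function.Injective (fun c => op σ c l) := by
  intro c d h
  have := congrArg (fun f : AddMonoid.End E => f 1) h
  simpa [op_apply] using this

theorem op_ne_zero {c : E} (hc : c ≠ 0) (l : Λ) : op σ c l ≠ 0 := by
  intro h
  rw [← op_zero σ l] at h
  exact hc (op_injective σ l h)

/-- The crossed product graded division ring. -/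
def crossed : Gr (AddMonoid.End E) Λ where
  T l :=
    { carrier := Set.range (fun c => op σ c l)
      zero_mem' := ⟨0, op_zero σ l⟩
      add_mem' := by
        rintro _ _ ⟨c, rfl⟩ ⟨d, rfl⟩
        exact ⟨c + d, (op_add σ c d l).symm⟩
      neg_mem' := by
        rintro _ ⟨c, rfl⟩
        exact ⟨-c, (op_neg σ c l).symm⟩ }
  mul_mem := by
    rintro l m _ _ ⟨c, rfl⟩ ⟨d, rfl⟩
    exact ⟨_, (op_mul σ c d l m).symm⟩
  one_mem := ⟨1, op_one σ⟩
  mul_ne := by
    rintro l m _ _ ⟨c, rfl⟩ ⟨d, rfl⟩ hc hd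
    have hc' : c ≠ 0 := fun h => hc (by simp only [h, op_zero])
    have hd' : d ≠ 0 := fun h => hd (by simp only [h, op_zero])
    simp only
    rw [op_mul]
    refine op_ne_zero σ (mul_ne_zero hc' ?_) _
    rw [Ne, map_eq_zero_iff _ (RingEquiv.injective _)]
    exact hd'
  inv := by
    rintro l _ ⟨c, rfl⟩ hc
    have hc' : c ≠ 0 := fun h => hc (by simp only [h, op_zero])
    refine ⟨op σ (σ (Multiplicative.ofAdd (-l)) c⁻¹) (-l), ⟨_, rfl⟩, ?_⟩
    simp only
    rw [op_mul, ← map_mul, inv_mul_cancel₀ hc', map_one, neg_add_cancel, op_one]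
  nontriv := by
    intro h
    have := congrArg (fun f : AddMonoid.End E => f 1) h
    exact one_ne_zero (α := E) this

theorem mem_crossed {l : Λ} {f : AddMonoid.End E} :
    f ∈ (crossed σ).T l ↔ ∃ c, op σ c l = f := Iff.rfl

end Crossed

end Pool.Agent.N506.EX
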