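import Pool.Agent.N506.EXC

/-!
# The real place
-/

namespace Pool.Agent.N506.EX

open Matrix

/-- Lower triangular. -/
def Low {n : ℕ} (A : Matrix (Fin n) (Fin n) ℝ) : Prop := ∀ i j, i < j → A i j = 0

theorem Low.mul {n : ℕ} {A B : Matrix (Fin n) (Fin n) ℝ} (hA : Low A) (hB : Low B) :
    Low (A * B) := by
  intro i j hij
  rw [Matrix.mul_apply]
  refine Finset.sum_eq_zero fun k _ => ?_
  rcases lt_or_ge i k with h | h
  · rw [hA i k h, zero_mul]
  · rw [hB k j (lt_of_le_of_lt h hij), mul_zero]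

theorem low_one {n : ℕ} : Low (1 : Matrix (Fin n) (Fin n) ℝ) := by
  intro i j hij
  exact Matrix.one_apply_ne hij.ne

/-- The group of invertible lower triangular matrices. -/
def Tri (n : ℕ) : Subgroup (Matrix (Fin n) (Fin n) ℝ)ˣ where
  carrier := {g | Low (g : Matrix (Fin n) (Fin n) ℝ) ∧
    Low ((g⁻¹ : (Matrix (Fin n) (Fin n) ℝ)ˣ) : Matrix (Fin n) (Fin n) ℝ)}
  mul_mem' := by
    rintro a b ⟨ha, ha'⟩ ⟨hb, hb'⟩
    refine ⟨?_, ?_⟩
    · rw [Units.val_mul]; exact ha.mul hb
    · rw [_root_.mul_inv_rev, Units.val_mul]; exact hb'.mul ha'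
  one_mem' := by
    refine ⟨?_, ?_⟩
    · rw [Units.val_one]; exact low_one
    · rw [inv_one, Units.val_one]; exact low_one
  inv_mem' := by
    rintro a ⟨ha, ha'⟩
    exact ⟨ha', by rwa [inv_inv]⟩

/-- Delete the last row and column. -/
def del {n : ℕ} (A : Matrix (Fin (n + 1)) (Fin (n + 1)) ℝ) : Matrix (Fin n) (Fin n) ℝ :=
  A.submatrix Fin.castSucc Fin.castSucc

theorem del_mul {n : ℕ} {A B : Matrix (Fin (n + 1)) (Fin (n + 1)) ℝ} (hA : Low A) :
    del (A * B) = del A * del B := by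
  ext i j
  simp only [del, Matrix.submatrix_apply, Matrix.mul_apply]
  rw [Fin.sum_univ_castSucc, hA _ _ (Fin.castSucc_lt_last i), zero_mul, add_zero]

theorem del_one {n : ℕ} : del (1 : Matrix (Fin (n + 1)) (Fin (n + 1)) ℝ) = 1 := by
  ext i j
  simp [del, Matrix.one_apply]

theorem Low.del {n : ℕ} {A : Matrix (Fin (n + 1)) (Fin (n + 1)) ℝ} (hA : Low A) :
    Low (del A) := by
  intro i j hij
  exact hA _ _ (by simpa using hij)

theorem last_mul {n : ℕ} {A B : Matrix (Fin (n + 1)) (Fin (n + 1)) ℝ} (hB : Low B) :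
    (A * B) (Fin.last n) (Fin.last n) =
      A (Fin.last n) (Fin.last n) * B (Fin.last n) (Fin.last n) := by
  rw [Matrix.mul_apply, Fin.sum_univ_castSucc, Finset.sum_eq_zero, zero_add]
  intro k _
  rw [hB _ _ (Fin.castSucc_lt_last k), mul_zero]

/-- The homomorphism deleting the last row and column. -/
def delHom (n : ℕ) : Tri (n + 1) →* Tri n where
  toFun g := ⟨⟨del (g.1 : Matrix _ _ ℝ), del ((g.1⁻¹ : (Matrix _ _ ℝ)ˣ) : Matrix _ _ ℝ),
      by rw [← del_mul g.2.1, ← Units.val_mul, mul_inv_cancel, Units.val_one, del_one],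
      by rw [← del_mul g.2.2, ← Units.val_mul, inv_mul_cancel, Units.val_one, del_one]⟩,
    ⟨g.2.1.del, g.2.2.del⟩⟩
  map_one' := by
    apply Subtype.ext
    apply Units.ext
    exact del_one
  map_mul' a b := by
    apply Subtype.ext
    apply Units.ext
    exact del_mul a.2.1

/-- The last diagonal entry. -/
def lastHom (n : ℕ) : Tri (n + 1) →* ℝˣ where
  toFun g := ⟨(g.1 : Matrix _ _ ℝ) (Fin.last n) (Fin.last n),
      ((g.1⁻¹ : (Matrix _ _ ℝ)ˣ) : Matrix _ _ ℝ) (Fin.last n) (Fin.last n),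
      by rw [← last_mul g.2.2, ← Units.val_mul, mul_inv_cancel, Units.val_one,
        Matrix.one_apply_eq],
      by rw [← last_mul g.2.1, ← Units.val_mul, inv_mul_cancel, Units.val_one,
        Matrix.one_apply_eq]⟩
  map_one' := by
    apply Units.ext
    exact Matrix.one_apply_eq _
  map_mul' a b := by
    apply Units.ext
    exact last_mul b.2.1

theorem tri_solvable (n : ℕ) : Group.IsSolvable (Tri n) := by
  induction n with
  | zero =>
    refine Group.isSolvable_of_comm fun a b => ?_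
    apply Subtype.ext
    apply Units.ext
    ext i
    exact i.elim0
  | succ n ih =>
    have h1 : Group.IsSolvable (((delHom n).prod (lastHom n)).ker) := by
      refine Group.isSolvable_of_comm fun a b => ?_
      have ha : ∀ x : (((delHom n).prod (lastHom n)).ker),
          (∀ i j : Fin n, (x.1.1 : Matrix _ _ ℝ) i.castSucc j.castSucc =
            (1 : Matrix (Fin n) (Fin n) ℝ) i j) ∧
          (x.1.1 : Matrix _ _ ℝ) (Fin.last n) (Fin.last n) = 1 ∧
          (∀ i : Fin n, (x.1.1 : Matrix _ _ ℝ) i.castSucc (Fin.last n) = 0) := by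
        intro x
        have hx := x.2
        rw [MonoidHom.mem_ker, MonoidHom.prod_apply, Prod.mk_eq_one] at hx
        refine ⟨fun i j => ?_, ?_, fun i => x.1.2.1 _ _ (Fin.castSucc_lt_last i)⟩
        · have := congrArg (fun y : Tri n => (y.1 : Matrix _ _ ℝ) i j) hx.1
          exact this
        · exact congrArg (fun y : ℝˣ => (y : ℝ)) hx.2
      obtain ⟨a1, a2, a3⟩ := ha a
      obtain ⟨b1, b2, b3⟩ := ha b
      apply Subtype.ext
      apply Subtype.ext
      apply Units.ext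
      simp only [Subgroup.coe_mul, Units.val_mul]
      ext i j
      rw [Matrix.mul_apply, Matrix.mul_apply, Fin.sum_univ_castSucc, Fin.sum_univ_castSucc]
      refine Fin.lastCases ?_ (fun i => ?_) i
      · refine Fin.lastCases ?_ (fun j => ?_) j
        · simp [a2, b2, a3, b3]
        · simp only [a1, b1, a2, b2, Matrix.one_apply]
          simp [add_comm]
      · refine Fin.lastCases ?_ (fun j => ?_) j
        · simp [a3, b3]
        · simp [a1, b1, a3, b3, Matrix.one_apply]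
    have := ih
    exact Group.isSolvable_of_ker_le_range (((delHom n).prod (lastHom n)).ker.subtype)
      ((delHom n).prod (lastHom n)) (by rw [Subgroup.range_subtype])

theorem tri_ex (n : ℕ) : Ex (Tri n) := by
  have := tri_solvable n
  exact Am.of_solvable.ex

/-- Orthogonal-triangular decomposition. -/
theorem exists_low {n : ℕ} (g : (Matrix (Fin n) (Fin n) ℝ)ˣ) :
    ∃ β : Matrix (Fin n) (Fin n) ℝ, Low β ∧
      (β * (g : Matrix (Fin n) (Fin n) ℝ)) * (β * (g : Matrix (Fin n) (Fin n) ℝ))ᵀ = 1 := by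
  set G : Matrix (Fin n) (Fin n) ℝ := (g : Matrix (Fin n) (Fin n) ℝ) with hG
  have hS : (G * Gᵀ).PosDef := by
    have h1 : Function.Injective (fun v : Fin n → ℝ => v ᵥ* G) := by
      intro v w hvw
      have := congrArg (fun x => x ᵥ* ((g⁻¹ : (Matrix (Fin n) (Fin n) ℝ)ˣ) :
        Matrix (Fin n) (Fin n) ℝ)) hvw
      simp only [Matrix.vecMul_vecMul, hG, ← Units.val_mul, mul_inv_cancel, Units.val_one,
        Matrix.vecMul_one] at this
      exact this
    have h2 := (Matrix.PosDef.one (n := Fin n) (R := ℝ)).mul_mul_conjTranspose_same h1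
    rwa [Matrix.mul_one, Matrix.conjTranspose_eq_transpose_of_trivial] at h2
  set m := LDL.lowerInv hS with hm
  have hd := LDL.diag_eq_lowerInv_conj hS
  rw [← hm, Matrix.conjTranspose_eq_transpose_of_trivial] at hd
  have hminj : Function.Injective (fun v : Fin n → ℝ => v ᵥ* m) := by
    have : IsUnit m := by
      rw [hm]
      exact isUnit_of_invertible _
    obtain ⟨u, hu⟩ := this
    intro v w hvw
    have := congrArg (fun x => x ᵥ* ((u⁻¹ : (Matrix (Fin n) (Fin n) ℝ)ˣ) :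
      Matrix (Fin n) (Fin n) ℝ)) hvw
    simp only [Matrix.vecMul_vecMul, ← hu, ← Units.val_mul, mul_inv_cancel, Units.val_one,
      Matrix.vecMul_one] at this
    exact this
  have hpos : ∀ i, 0 < LDL.diagEntries hS i := by
    intro i
    have h2 := hS.mul_mul_conjTranspose_same hminj
    rw [Matrix.conjTranspose_eq_transpose_of_trivial, ← hd] at h2
    have := h2.diag_pos (i := i)
    rwa [LDL.diag, Matrix.diagonal_apply_eq] at this
  let δ : Fin n → ℝ := fun i => (Real.sqrt (LDL.diagEntries hS i))⁻¹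
  refine ⟨Matrix.diagonal δ * m, ?_, ?_⟩
  · intro i j hij
    rw [Matrix.diagonal_mul, hm, LDL.lowerInv_triangular hS hij, mul_zero]
  · have h1 : (Matrix.diagonal δ * m * G) * (Matrix.diagonal δ * m * G)ᵀ =
        Matrix.diagonal δ * (m * (G * Gᵀ) * mᵀ) * Matrix.diagonal δ := by
      rw [Matrix.transpose_mul, Matrix.transpose_mul, Matrix.diagonal_transpose]
      simp only [Matrix.mul_assoc]
    rw [h1, ← hd, LDL.diag, Matrix.diagonal_mul_diagonal, Matrix.diagonal_mul_diagonal]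
    rw [← Matrix.diagonal_one]
    congr 1
    funext i
    simp only [δ]
    have h3 := hpos i
    have h4 : Real.sqrt (LDL.diagEntries hS i) ≠ 0 := (Real.sqrt_pos.mpr h3).ne'
    field_simp
    rw [Real.sq_sqrt h3.le]

/-- Integral size reduction of a triangular matrix, one column. -/
theorem exists_col {n : ℕ} (γ : Matrix (Fin n) (Fin n) ℝ) (hγ : Low γ)
    (hd : ∀ i, γ i i ≠ 0) (j : Fin n) :
    ∃ x : Fin n → ℤ, (∀ i, i < j → x i = 0) ∧ x j = 1 ∧
      ∀ i, |∑ l, γ i l * (x l : ℝ)| ≤ |γ i i| := by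
  have key : ∀ k : ℕ, ∃ x : Fin n → ℤ, (∀ i, i < j → x i = 0) ∧ x j = 1 ∧
      ∀ i : Fin n, (i : ℕ) < k → |∑ l, γ i l * (x l : ℝ)| ≤ |γ i i| := by
    intro k
    induction k with
    | zero =>
      exact ⟨Pi.single j 1, fun i hi => by simp [Pi.single_eq_of_ne hi.ne], by simp,
        fun i hi => absurd hi (Nat.not_lt_zero _)⟩
    | succ k ih =>
      obtain ⟨x, hx0, hx1, hx⟩ := ih
      by_cases hk : k < n
      swap
      · refine ⟨x, hx0, hx1, fun i _ => hx i ?_⟩
        have := i.2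
        omega
      let i0 : Fin n := ⟨k, hk⟩
      -- the old values below `i0`
      have hind : ∀ (y : Fin n → ℤ), (∀ l, l < i0 → y l = x l) → ∀ i : Fin n, (i : ℕ) < k →
          ∑ l, γ i l * (y l : ℝ) = ∑ l, γ i l * (x l : ℝ) := by
        intro y hy i hi
        refine Finset.sum_congr rfl fun l _ => ?_
        rcases lt_or_ge i l with h | h
        · rw [hγ i l h, zero_mul, zero_mul]
        · rw [hy l (lt_of_le_of_lt h hi)]
      rcases lt_trichotomy i0 j with h | h | h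
      · refine ⟨x, hx0, hx1, fun i hi => ?_⟩
        rcases Nat.lt_or_ge i k with h1 | h1
        · exact hx i h1
        · have hi0 : i = i0 := Fin.ext (by simp only [i0]; omega)
          have : ∑ l, γ i l * (x l : ℝ) = 0 := by
            refine Finset.sum_eq_zero fun l _ => ?_
            rcases lt_or_ge i l with h2 | h2
            · rw [hγ i l h2, zero_mul]
            · rw [hx0 l (lt_of_le_of_lt h2 (hi0 ▸ h)), Int.cast_zero, mul_zero]
          rw [this, abs_zero]
          exact abs_nonneg _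
      · refine ⟨x, hx0, hx1, fun i hi => ?_⟩
        rcases Nat.lt_or_ge i k with h1 | h1
        · exact hx i h1
        · have hi0 : i = j := (Fin.ext (by simp only [i0]; omega) : i = i0).trans h
          have : ∑ l, γ i l * (x l : ℝ) = γ i i := by
            rw [Finset.sum_eq_single i]
            · rw [hi0, hx1, Int.cast_one, mul_one]
            · intro l _ hl
              rcases lt_or_gt_of_ne hl with h2 | h2
              · rw [hx0 l (hi0 ▸ h2), Int.cast_zero, mul_zero]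
              · rw [hγ i l h2, zero_mul]
            · intro h2
              exact absurd (Finset.mem_univ _) h2
          rw [this]
      · let r : ℝ := (∑ l ∈ Finset.univ.erase i0, γ i0 l * (x l : ℝ)) / γ i0 i0
        refine ⟨Function.update x i0 (-round r), ?_, ?_, ?_⟩
        · intro i hi
          rw [Function.update_of_ne (hi.trans h).ne]
          exact hx0 i hi
        · rw [Function.update_of_ne h.ne]
          exact hx1
        · intro i hi
          rcases Nat.lt_or_ge i k with h1 | h1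
          · rw [hind (Function.update x i0 (-round r)) (fun l hl => Function.update_of_ne hl.ne _ _)
              i h1]
            exact hx i h1
          · have hi0 : i = i0 := Fin.ext (by simp only [i0]; omega)
            subst hi0
            rw [← Finset.add_sum_erase _ _ (Finset.mem_univ i0), Function.update_self]
            have e1 : ∑ l ∈ Finset.univ.erase i0,
                γ i0 l * ((Function.update x i0 (-round r) l : ℤ) : ℝ) =
                ∑ l ∈ Finset.univ.erase i0, γ i0 l * (x l : ℝ) := by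
              refine Finset.sum_congr rfl fun l hl => ?_
              rw [Function.update_of_ne (Finset.ne_of_mem_erase hl)]
            rw [e1]
            have e2 : ∑ l ∈ Finset.univ.erase i0, γ i0 l * (x l : ℝ) = γ i0 i0 * r := by
              simp only [r]
              rw [mul_div_cancel₀ _ (hd i0)]
            rw [e2, ← mul_add, abs_mul]
            have e3 : |((-round r : ℤ) : ℝ) + r| ≤ 1 := by
              have := abs_sub_round r
              push_cast
              rw [neg_add_eq_sub]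
              linarith
            calc |γ i0 i0| * |((-round r : ℤ) : ℝ) + r| ≤ |γ i0 i0| * 1 :=
                  mul_le_mul_of_nonneg_left e3 (abs_nonneg _)
              _ = |γ i0 i0| := mul_one _
  obtain ⟨x, h0, h1, h2⟩ := key n
  exact ⟨x, h0, h1, fun i => h2 i i.2⟩


/-- Entries bounded by `c`. -/
def Bd {n : ℕ} (c : ℝ) (A : Matrix (Fin n) (Fin n) ℝ) : Prop := ∀ i j, |A i j| ≤ c

theorem Bd.mono {n : ℕ} {c c' : ℝ} {A : Matrix (Fin n) (Fin n) ℝ} (h : Bd c A) (hc : c ≤ c') :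
    Bd c' A := fun i j => (h i j).trans hc

theorem Bd.mul {n : ℕ} {c c' : ℝ} {A B : Matrix (Fin n) (Fin n) ℝ} (hA : Bd c A) (hB : Bd c' B) :
    Bd (n * (c * c')) (A * B) := by
  intro i j
  rw [Matrix.mul_apply]
  refine (Finset.abs_sum_le_sum_abs _ _).trans ?_
  calc ∑ k, |A i k * B k j| ≤ ∑ _k : Fin n, c * c' := by
        refine Finset.sum_le_sum fun k _ => ?_
        rw [abs_mul]
        exact mul_le_mul (hA i k) (hB k j) (abs_nonneg _) ((abs_nonneg _).trans (hA i k))
    _ = n * (c * c') := by simp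

theorem bd_of_orth {n : ℕ} {A : Matrix (Fin n) (Fin n) ℝ} (h : A * Aᵀ = 1) : Bd 1 A := by
  intro i j
  have h1 : ∑ k, A i k * A i k = 1 := by
    have := congrFun (congrFun h i) i
    rw [Matrix.mul_apply, Matrix.one_apply_eq] at this
    simpa [Matrix.transpose_apply] using this
  have h2 : A i j * A i j ≤ ∑ k, A i k * A i k :=
    Finset.single_le_sum (f := fun k => A i k * A i k) (fun k _ => mul_self_nonneg _)
      (Finset.mem_univ j)
  rw [h1] at h2
  exact abs_le_one_iff_mul_self_le_one.mpr h2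

/-- A bound for the inverse of a matrix with bounded entries and determinant at least one. -/
theorem bd_inv {n : ℕ} : ∃ C : ℝ, 1 ≤ C ∧ ∀ A : Matrix (Fin n) (Fin n) ℝ, Bd 2 A → 1 ≤ |A.det| →
    Bd C A⁻¹ := by
  refine ⟨(Nat.factorial n : ℝ) * 2 ^ n, ?_, ?_⟩
  · have h1 : (1:ℝ) ≤ (Nat.factorial n : ℝ) := by exact_mod_cast Nat.factorial_pos n
    have h2 : (1:ℝ) ≤ 2 ^ n := one_le_pow₀ (by norm_num)
    nlinarith
  · intro A hA hdet i j
    rw [Matrix.inv_def, Matrix.smul_apply, smul_eq_mul, abs_mul, Ring.inverse_eq_inv', abs_inv]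
    have h1 : |A.adjugate i j| ≤ (Nat.factorial n : ℝ) * 2 ^ n := by
      rw [Matrix.adjugate_apply]
      have := Matrix.det_le (A := A.updateRow j (Pi.single i 1)) (abv := AbsoluteValue.abs)
        (x := (2:ℝ)) ?_
      · simpa using this
      · intro a b
        rw [AbsoluteValue.abs_apply]
        by_cases ha : a = j
        · subst ha
          rw [Matrix.updateRow_self]
          by_cases hb : b = i
          · subst hb
            simp
          · simp [Pi.single_eq_of_ne hb]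
        · rw [Matrix.updateRow_ne ha]
          exact hA a b
    have h2 : |A.det|⁻¹ ≤ 1 := inv_le_one_of_one_le₀ hdet
    calc |A.det|⁻¹ * |A.adjugate i j| ≤ 1 * ((Nat.factorial n : ℝ) * 2 ^ n) :=
          mul_le_mul h2 h1 (abs_nonneg _) zero_le_one
      _ = _ := one_mul _

/-- Every invertible real matrix is at bounded distance from a product of a power-of-two diagonal
matrix and an integral unipotent triangular matrix. -/
theorem exists_round (n : ℕ) : ∃ C : ℝ, 1 ≤ C ∧ ∀ g : (Matrix (Fin n) (Fin n) ℝ)ˣ,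
    ∃ (q : (Matrix (Fin n) (Fin n) ℝ)ˣ) (k : Fin n → ℤ) (u : (Matrix (Fin n) (Fin n) ℤ)ˣ),
      q ∈ Tri n ∧
      (q : Matrix (Fin n) (Fin n) ℝ) = Matrix.diagonal (fun i => (2:ℝ) ^ k i) *
        (u : Matrix (Fin n) (Fin n) ℤ).map (Int.castRingHom ℝ) ∧
      (∀ i j, i < j → (u : Matrix (Fin n) (Fin n) ℤ) i j = 0) ∧
      (∀ i, (u : Matrix (Fin n) (Fin n) ℤ) i i = 1) ∧
      Bd C ((g⁻¹ * q : (Matrix (Fin n) (Fin n) ℝ)ˣ) : Matrix (Fin n) (Fin n) ℝ) ∧
      Bd C ((q⁻¹ * g : (Matrix (Fin n) (Fin n) ℝ)ˣ) : Matrix (Fin n) (Fin n) ℝ) := by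
  obtain ⟨C0, hC0, hinv⟩ := bd_inv (n := n)
  refine ⟨max 1 (n * (2 * C0)), le_max_left _ _, fun g => ?_⟩
  obtain ⟨β, hβ, hκ⟩ := exists_low g
  set κ := β * (g : Matrix (Fin n) (Fin n) ℝ) with hκd
  have hκT : κᵀ * κ = 1 := mul_eq_one_comm.mp hκ
  have hβdet : β.det ≠ 0 := by
    intro h
    have := congrArg Matrix.det hκ
    rw [Matrix.det_mul, hκd, Matrix.det_mul, h] at this
    simp at this
  have hβd : ∀ i, β i i ≠ 0 := by
    have h1 := Matrix.det_of_isLowerTriangular β (fun i j hij => hβ i j hij)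
    rw [h1] at hβdet
    exact fun i => (Finset.prod_ne_zero_iff.mp hβdet) i (Finset.mem_univ i)
  -- powers of two
  have hk : ∀ i, ∃ k : ℤ, 1 ≤ |β i i * (2:ℝ) ^ k| ∧ |β i i * (2:ℝ) ^ k| ≤ 2 := by
    intro i
    obtain ⟨m, hm1, hm2⟩ := exists_mem_Ico_zpow (abs_pos.mpr (hβd i)) (one_lt_two (α := ℝ))
    refine ⟨-m, ?_, ?_⟩
    · rw [abs_mul, abs_zpow, abs_two, _root_.zpow_neg]
      have h2 : (0:ℝ) < 2 ^ m := by positivity
      rw [← div_eq_mul_inv, le_div_iff₀ h2, one_mul]
      exact hm1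
    · rw [abs_mul, abs_zpow, abs_two, _root_.zpow_neg]
      have h2 : (0:ℝ) < 2 ^ m := by positivity
      rw [← div_eq_mul_inv, div_le_iff₀ h2]
      rw [zpow_add_one₀ two_ne_zero] at hm2
      linarith
  choose k hk1 hk2 using hk
  set γ : Matrix (Fin n) (Fin n) ℝ := β * Matrix.diagonal (fun i => (2:ℝ) ^ k i) with hγd
  have hγij : ∀ i j, γ i j = β i j * (2:ℝ) ^ k j := fun i j => by rw [hγd, Matrix.mul_diagonal]
  have hγ : Low γ := fun i j hij => by rw [hγij, hβ i j hij, zero_mul]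
  have hγ1 : ∀ i, 1 ≤ |γ i i| := fun i => by rw [hγij]; exact hk1 i
  have hγ2 : ∀ i, |γ i i| ≤ 2 := fun i => by rw [hγij]; exact hk2 i
  have hγ0 : ∀ i, γ i i ≠ 0 := fun i h => by
    have := hγ1 i
    rw [h, abs_zero] at this
    linarith
  choose x hx0 hx1 hx using fun j => exists_col γ hγ hγ0 j
  set U : Matrix (Fin n) (Fin n) ℤ := Matrix.of fun i j => x j i with hU
  have hUlow : ∀ i j, i < j → U i j = 0 := fun i j hij => hx0 j i hij
  have hUdet : U.det = 1 := by
    rw [Matrix.det_of_isLowerTriangular U (fun i j hij => hUlow i j hij)]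
    exact Finset.prod_eq_one fun i _ => hx1 i
  obtain ⟨u, hu⟩ : ∃ u : (Matrix (Fin n) (Fin n) ℤ)ˣ, (u : Matrix (Fin n) (Fin n) ℤ) = U := by
    have : IsUnit U := (Matrix.isUnit_iff_isUnit_det U).mpr (by rw [hUdet]; exact isUnit_one)
    exact ⟨this.unit, this.unit_spec⟩
  set UR : Matrix (Fin n) (Fin n) ℝ := U.map (Int.castRingHom ℝ) with hUR
  have hURlow : Low UR := fun i j hij => by
    rw [hUR, Matrix.map_apply, hUlow i j hij, map_zero]
  have hURdet : UR.det = 1 := by
    have : UR = (Int.castRingHom ℝ).mapMatrix U := rfl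
    rw [this, ← RingHom.map_det, hUdet, map_one]
  -- the inverse of a lower triangular matrix
  have hlowinv : ∀ (A B : Matrix (Fin n) (Fin n) ℝ), Low A → A * B = 1 → Low B := by
    intro A B hA hAB
    have hAdet : A.det ≠ 0 := by
      intro h
      have := congrArg Matrix.det hAB
      rw [Matrix.det_mul, h] at this
      simp at this
    have hAd : ∀ i, A i i ≠ 0 := by
      have h1 := Matrix.det_of_isLowerTriangular A (fun i j hij => hA i j hij)
      rw [h1] at hAdet
      exact fun i => (Finset.prod_ne_zero_iff.mp hAdet) i (Finset.mem_univ i)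
    have key : ∀ m : ℕ, ∀ i : Fin n, (i : ℕ) < m → ∀ j, i < j → B i j = 0 := by
      intro m
      induction m with
      | zero => intro i hi; exact absurd hi (Nat.not_lt_zero _)
      | succ m ih =>
        intro i hi j hij
        have h1 := congrFun (congrFun hAB i) j
        rw [Matrix.mul_apply, Matrix.one_apply_ne hij.ne, Finset.sum_eq_single i] at h1
        · exact (mul_eq_zero.mp h1).resolve_left (hAd i)
        · intro l _ hl
          rcases lt_or_gt_of_ne hl with h2 | h2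
          · rw [ih l (by have : (l : ℕ) < i := h2
                         omega) j (h2.trans hij), mul_zero]
          · rw [hA i l h2, zero_mul]
        · intro h2
          exact absurd (Finset.mem_univ _) h2
    exact fun i j hij => key n i i.2 j hij
  set Q : Matrix (Fin n) (Fin n) ℝ := Matrix.diagonal (fun i => (2:ℝ) ^ k i) * UR with hQ
  have hQlow : Low Q := fun i j hij => by
    rw [hQ, Matrix.diagonal_mul, hURlow i j hij, mul_zero]
  have hQdet : IsUnit Q := by
    rw [Matrix.isUnit_iff_isUnit_det, hQ, Matrix.det_mul, hURdet, mul_one, Matrix.det_diagonal]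
    exact (Finset.prod_ne_zero_iff.mpr fun i _ => zpow_ne_zero _ two_ne_zero).isUnit
  obtain ⟨q, hq⟩ := hQdet
  have hqinv : Low ((q⁻¹ : (Matrix (Fin n) (Fin n) ℝ)ˣ) : Matrix (Fin n) (Fin n) ℝ) := by
    refine hlowinv Q _ hQlow ?_
    rw [← hq, ← Units.val_mul, mul_inv_cancel, Units.val_one]
  -- the bounded matrix
  set w : Matrix (Fin n) (Fin n) ℝ := γ * UR with hw
  have hwQ : w = β * Q := by rw [hw, hγd, hQ, Matrix.mul_assoc]
  have hwb : Bd 2 w := by
    intro i j
    have h1 : w i j = ∑ l, γ i l * (x j l : ℝ) := by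
      rw [hw, Matrix.mul_apply]
      rfl
    rw [h1]
    exact (hx j i).trans (hγ2 i)
  have hwdet : 1 ≤ |w.det| := by
    rw [hw, Matrix.det_mul, hURdet, mul_one,
      Matrix.det_of_isLowerTriangular γ (fun i j hij => hγ i j hij), Finset.abs_prod]
    calc (1:ℝ) = ∏ _i : Fin n, (1:ℝ) := by simp
      _ ≤ _ := Finset.prod_le_prod (fun _ _ => zero_le_one) (fun i _ => hγ1 i)
  have hwinv := hinv w hwb hwdet
  have hwdetu : IsUnit w.det := by
    refine isUnit_iff_ne_zero.mpr fun h => ?_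
    rw [h, abs_zero] at hwdet
    linarith
  -- the two products
  have hginv : ((g⁻¹ : (Matrix (Fin n) (Fin n) ℝ)ˣ) : Matrix (Fin n) (Fin n) ℝ) = κᵀ * β := by
    have h1 : κᵀ * β * (g : Matrix (Fin n) (Fin n) ℝ) = 1 := by
      rw [Matrix.mul_assoc, ← hκd, hκT]
    calc ((g⁻¹ : (Matrix (Fin n) (Fin n) ℝ)ˣ) : Matrix (Fin n) (Fin n) ℝ)
        = (κᵀ * β * (g : Matrix (Fin n) (Fin n) ℝ)) *
            ((g⁻¹ : (Matrix (Fin n) (Fin n) ℝ)ˣ) : Matrix (Fin n) (Fin n) ℝ) := by
          rw [h1, Matrix.one_mul]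
      _ = κᵀ * β := by
          rw [Matrix.mul_assoc, ← Units.val_mul, mul_inv_cancel, Units.val_one, Matrix.mul_one]
  have h1 : ((g⁻¹ * q : (Matrix (Fin n) (Fin n) ℝ)ˣ) : Matrix (Fin n) (Fin n) ℝ) = κᵀ * w := by
    rw [Units.val_mul, hginv, hq, hwQ, Matrix.mul_assoc]
  have h2 : ((q⁻¹ * g : (Matrix (Fin n) (Fin n) ℝ)ˣ) : Matrix (Fin n) (Fin n) ℝ) = w⁻¹ * κ := by
    have e1 : w * ((q⁻¹ * g : (Matrix (Fin n) (Fin n) ℝ)ˣ) : Matrix (Fin n) (Fin n) ℝ) = κ := by
      rw [hwQ, ← hq, Matrix.mul_assoc, ← Units.val_mul, mul_inv_cancel_left]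
    rw [← e1, ← Matrix.mul_assoc, Matrix.nonsing_inv_mul _ hwdetu, Matrix.one_mul]
  have hκb : Bd 1 κ := bd_of_orth hκ
  have hκTb : Bd 1 κᵀ := fun i j => hκb j i
  refine ⟨q, k, u, ⟨by rw [hq]; exact hQlow, hqinv⟩, by rw [hq, hu], ?_, ?_, ?_, ?_⟩
  · rw [hu]; exact hUlow
  · rw [hu]; exact fun i => hx1 i
  · rw [h1]
    refine (hκTb.mul hwb).mono (le_max_of_le_right ?_)
    have : (0:ℝ) ≤ n := Nat.cast_nonneg _
    nlinarith
  · rw [h2]
    refine (hwinv.mul hκb).mono (le_max_of_le_right ?_)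
    have : (0:ℝ) ≤ n := Nat.cast_nonneg _
    nlinarith


/-- The filtration of `GL_n(ℝ)` by size. -/
def PhiR (n : ℕ) (r : ℕ) : Set (Matrix (Fin n) (Fin n) ℝ)ˣ :=
  {g | Bd r (g : Matrix (Fin n) (Fin n) ℝ) ∧
    Bd r ((g⁻¹ : (Matrix (Fin n) (Fin n) ℝ)ˣ) : Matrix (Fin n) (Fin n) ℝ)}

theorem PhiR_mono {n : ℕ} {r s : ℕ} (h : r ≤ s) : PhiR n r ⊆ PhiR n s := fun _ hg =>
  ⟨hg.1.mono (by exact_mod_cast h), hg.2.mono (by exact_mod_cast h)⟩

theorem exists_bd {n : ℕ} (A : Matrix (Fin n) (Fin n) ℝ) : ∃ r : ℕ, Bd r A := by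
  obtain ⟨r, hr⟩ := exists_nat_ge (∑ i, ∑ j, |A i j|)
  refine ⟨r, fun i j => le_trans ?_ hr⟩
  exact (Finset.single_le_sum (f := fun j => |A i j|) (fun _ _ => abs_nonneg _)
      (Finset.mem_univ j)).trans
      (Finset.single_le_sum (f := fun i => ∑ j, |A i j|)
        (fun _ _ => Finset.sum_nonneg fun _ _ => abs_nonneg _) (Finset.mem_univ i))

theorem exists_PhiR {n : ℕ} (g : (Matrix (Fin n) (Fin n) ℝ)ˣ) : ∃ r, g ∈ PhiR n r := by
  obtain ⟨a, ha⟩ := exists_bd (g : Matrix (Fin n) (Fin n) ℝ)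
  obtain ⟨b, hb⟩ := exists_bd ((g⁻¹ : (Matrix (Fin n) (Fin n) ℝ)ˣ) : Matrix (Fin n) (Fin n) ℝ)
  exact ⟨max a b, ha.mono (by exact_mod_cast le_max_left _ _),
    hb.mono (by exact_mod_cast le_max_right _ _)⟩

theorem exh_PhiR {n : ℕ} : Exh (PhiR n) := by
  intro F hF
  choose r hr using fun g => exists_PhiR (n := n) g
  obtain ⟨R, hR⟩ := (hF.image r).bddAbove
  exact ⟨R, fun g hg => PhiR_mono (hR (Set.mem_image_of_mem _ hg)) (hr g)⟩

/-- Finitely many matrices with a given denominator and bounded size. -/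
theorem finite_bd (n : ℕ) (K : ℕ) (c : ℝ) :
    {x : (Matrix (Fin n) (Fin n) ℝ)ˣ | Bd c (x : Matrix (Fin n) (Fin n) ℝ) ∧
      ∃ M : Matrix (Fin n) (Fin n) ℤ, ∀ i j,
        (2:ℝ) ^ K * (x : Matrix (Fin n) (Fin n) ℝ) i j = M i j}.Finite := by
  obtain ⟨N, hN⟩ := exists_nat_ge ((2:ℝ) ^ K * c)
  have hfin : {M : Matrix (Fin n) (Fin n) ℤ | ∀ i j, M i j ∈ Set.Icc (-(N:ℤ)) N}.Finite := by
    have : {M : Fin n → Fin n → ℤ | ∀ i, M i ∈ {f : Fin n → ℤ | ∀ j, f j ∈
        Set.Icc (-(N:ℤ)) N}}.Finite :=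
      Set.Finite.pi' fun _ => Set.Finite.pi' fun _ => Set.finite_Icc _ _
    exact this
  let f : Matrix (Fin n) (Fin n) ℤ → Matrix (Fin n) (Fin n) ℝ :=
    fun M => Matrix.of fun i j => ((2:ℝ) ^ K)⁻¹ * (M i j : ℝ)
  have h2 := (hfin.image f).preimage
    (Function.Injective.injOn (Units.val_injective (α := Matrix (Fin n) (Fin n) ℝ)))
  refine h2.subset ?_
  rintro x ⟨hx, M, hM⟩
  refine ⟨M, ?_, ?_⟩
  · intro i j
    have h3 : |(M i j : ℝ)| ≤ N := by
      rw [← hM i j, abs_mul, abs_of_pos (by positivity : (0:ℝ) < 2 ^ K)]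
      exact (mul_le_mul_of_nonneg_left (hx i j) (by positivity)).trans hN
    rw [abs_le] at h3
    constructor
    · have : (-(N:ℤ) : ℝ) ≤ M i j := by push_cast; exact h3.1
      exact_mod_cast this
    · exact_mod_cast h3.2
  · ext i j
    simp only [f, Matrix.of_apply]
    rw [← hM i j, ← mul_assoc, inv_mul_cancel₀ (by positivity), one_mul]

/-- The real place is controlled. -/
theorem ctl_PhiR (n : ℕ) : Ctl (Matrix (Fin n) (Fin n) ℝ)ˣ (PhiR n) := by
  obtain ⟨C, hC1, hC⟩ := exists_round n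
  choose q k u hqT hqe hul hud hb1 hb2 using hC
  have hC0 : 0 ≤ C := by linarith
  -- a product of three bounded matrices
  have htriple : ∀ g h : (Matrix (Fin n) (Fin n) ℝ)ˣ, ∀ c : ℝ, 0 ≤ c →
      Bd c ((g⁻¹ * h : (Matrix (Fin n) (Fin n) ℝ)ˣ) : Matrix (Fin n) (Fin n) ℝ) →
      Bd (n * (n * (C * c) * C))
        (((q g)⁻¹ * q h : (Matrix (Fin n) (Fin n) ℝ)ˣ) : Matrix (Fin n) (Fin n) ℝ) := by
    intro g h c hc hgh
    have e : (q g)⁻¹ * q h = ((q g)⁻¹ * g) * (g⁻¹ * h) * (h⁻¹ * q h) := by group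
    rw [e, Units.val_mul, Units.val_mul]
    exact ((hb2 g).mul hgh).mul (hb1 h)
  have htriple' : ∀ g h : (Matrix (Fin n) (Fin n) ℝ)ˣ, ∀ c : ℝ, 0 ≤ c →
      Bd c (((q g)⁻¹ * q h : (Matrix (Fin n) (Fin n) ℝ)ˣ) : Matrix (Fin n) (Fin n) ℝ) →
      Bd (n * (n * (C * c) * C))
        ((g⁻¹ * h : (Matrix (Fin n) (Fin n) ℝ)ˣ) : Matrix (Fin n) (Fin n) ℝ) := by
    intro g h c hc hgh
    have e : g⁻¹ * h = (g⁻¹ * q g) * ((q g)⁻¹ * q h) * ((q h)⁻¹ * h) := by group
    rw [e, Units.val_mul, Units.val_mul]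
    exact ((hb1 g).mul hgh).mul (hb2 h)
  intro R ε hε
  set c1 : ℝ := n * (n * (C * R) * C) with hc1
  have hc1n : 0 ≤ c1 := by positivity
  obtain ⟨K, hK⟩ := pow_unbounded_of_one_lt c1 (one_lt_two (α := ℝ))
  -- the finite set of increments
  set F' : Set (Tri n) := {x | (x : (Matrix (Fin n) (Fin n) ℝ)ˣ) ∈
    {x : (Matrix (Fin n) (Fin n) ℝ)ˣ | Bd c1 (x : Matrix (Fin n) (Fin n) ℝ) ∧
      ∃ M : Matrix (Fin n) (Fin n) ℤ, ∀ i j,
        (2:ℝ) ^ K * (x : Matrix (Fin n) (Fin n) ℝ) i j = M i j}} with hF'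
  have hF'fin : F'.Finite :=
    (finite_bd n K c1).preimage (Subtype.val_injective.injOn)
  have hdiag : ∀ g h, ∀ i, (((q g)⁻¹ * q h : (Matrix (Fin n) (Fin n) ℝ)ˣ) :
      Matrix (Fin n) (Fin n) ℝ) i i = (2:ℝ) ^ (k h i - k g i) := by
    intro g h i
    have hlow1 := (hqT g).2
    have hlow2 := (hqT h).1
    have hlow1' := (hqT g).1
    have hmuld : ∀ A B : Matrix (Fin n) (Fin n) ℝ, Low A → Low B →
        (A * B) i i = A i i * B i i := by
      intro A B hA hB
      rw [Matrix.mul_apply, Finset.sum_eq_single i]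
      · intro l _ hl
        rcases lt_or_gt_of_ne hl with h2 | h2
        · rw [hB l i h2, mul_zero]
        · rw [hA i l h2, zero_mul]
      · intro h2
        exact absurd (Finset.mem_univ _) h2
    have hqd : ∀ g, (q g : Matrix (Fin n) (Fin n) ℝ) i i = (2:ℝ) ^ k g i := by
      intro g
      rw [hqe g, Matrix.diagonal_mul, Matrix.map_apply, hud g i]
      simp
    have h1 := hmuld _ _ hlow1' hlow1
    rw [← Units.val_mul, mul_inv_cancel, Units.val_one, Matrix.one_apply_eq, hqd] at h1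
    rw [Units.val_mul, hmuld _ _ hlow1 hlow2, hqd h, sub_eq_add_neg, zpow_add₀ two_ne_zero,
      mul_comm, _root_.zpow_neg]
    congr 1
    exact eq_inv_of_mul_eq_one_right h1.symm
  have hincr : ∀ g, ∀ s ∈ PhiR n R, (⟨q g, hqT g⟩ : Tri n)⁻¹ * ⟨q (g * s), hqT (g * s)⟩ ∈ F' := by
    intro g s hs
    have hgs : g⁻¹ * (g * s) = s := inv_mul_cancel_left _ _
    have hgs' : (g * s)⁻¹ * g = s⁻¹ := by group
    have b1 := htriple g (g * s) R (Nat.cast_nonneg _) (by rw [hgs]; exact hs.1)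
    have b2 := htriple (g * s) g R (Nat.cast_nonneg _) (by rw [hgs']; exact hs.2)
    refine ⟨b1, ?_⟩
    -- exponents are bounded
    have hexp : ∀ i, -(K:ℤ) ≤ k (g * s) i - k g i := by
      intro i
      have h1 := b2 i i
      rw [hdiag (g * s) g i, abs_of_pos (by positivity)] at h1
      have h2 : (2:ℝ) ^ (k g i - k (g * s) i) < 2 ^ (K : ℤ) := by
        rw [zpow_natCast]
        exact lt_of_le_of_lt h1 hK
      have := (zpow_lt_zpow_iff_right₀ (one_lt_two (α := ℝ))).mp h2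
      omega
    -- the integral matrix
    refine ⟨((u g)⁻¹ : (Matrix (Fin n) (Fin n) ℤ)ˣ) *
      (Matrix.diagonal fun i => (2:ℤ) ^ ((K:ℤ) + (k (g * s) i - k g i)).toNat) *
      (u (g * s) : Matrix (Fin n) (Fin n) ℤ), ?_⟩
    have e1 : (((q g)⁻¹ * q (g * s) : (Matrix (Fin n) (Fin n) ℝ)ˣ) :
        Matrix (Fin n) (Fin n) ℝ) =
        ((Int.castRingHom ℝ).mapMatrix (((u g)⁻¹ : (Matrix (Fin n) (Fin n) ℤ)ˣ) :
          Matrix (Fin n) (Fin n) ℤ)) *
        Matrix.diagonal (fun i => (2:ℝ) ^ (k (g * s) i - k g i)) *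
        (Int.castRingHom ℝ).mapMatrix (u (g * s) : Matrix (Fin n) (Fin n) ℤ) := by
      have e2 : (q g : Matrix (Fin n) (Fin n) ℝ) *
          (((Int.castRingHom ℝ).mapMatrix (((u g)⁻¹ : (Matrix (Fin n) (Fin n) ℤ)ˣ) :
          Matrix (Fin n) (Fin n) ℤ)) *
        Matrix.diagonal (fun i => (2:ℝ) ^ (k (g * s) i - k g i)) *
        (Int.castRingHom ℝ).mapMatrix (u (g * s) : Matrix (Fin n) (Fin n) ℤ)) =
          (q (g * s) : Matrix (Fin n) (Fin n) ℝ) := by
        rw [hqe g, hqe (g * s)]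
        have e3 : (u g : Matrix (Fin n) (Fin n) ℤ).map (Int.castRingHom ℝ) =
            (Int.castRingHom ℝ).mapMatrix (u g : Matrix (Fin n) (Fin n) ℤ) := rfl
        have e4 : (u (g * s) : Matrix (Fin n) (Fin n) ℤ).map (Int.castRingHom ℝ) =
            (Int.castRingHom ℝ).mapMatrix (u (g * s) : Matrix (Fin n) (Fin n) ℤ) := rfl
        rw [e3, e4]
        have e5 : (Int.castRingHom ℝ).mapMatrix (u g : Matrix (Fin n) (Fin n) ℤ) *
            (Int.castRingHom ℝ).mapMatrix (((u g)⁻¹ : (Matrix (Fin n) (Fin n) ℤ)ˣ) :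
              Matrix (Fin n) (Fin n) ℤ) = 1 := by
          rw [← map_mul, ← Units.val_mul, mul_inv_cancel, Units.val_one, map_one]
        calc _ = Matrix.diagonal (fun i => (2:ℝ) ^ k g i) *
              ((Int.castRingHom ℝ).mapMatrix (u g : Matrix (Fin n) (Fin n) ℤ) *
              (Int.castRingHom ℝ).mapMatrix (((u g)⁻¹ : (Matrix (Fin n) (Fin n) ℤ)ˣ) :
              Matrix (Fin n) (Fin n) ℤ)) *
              Matrix.diagonal (fun i => (2:ℝ) ^ (k (g * s) i - k g i)) *
              (Int.castRingHom ℝ).mapMatrix (u (g * s) : Matrix (Fin n) (Fin n) ℤ) := by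
              simp only [Matrix.mul_assoc]
          _ = _ := by
              rw [e5, Matrix.mul_one, Matrix.diagonal_mul_diagonal]
              congr 2
              funext i
              rw [← zpow_add₀ two_ne_zero]
              congr 1
              ring
      rw [Units.val_mul, ← e2, ← Matrix.mul_assoc, ← Units.val_mul, inv_mul_cancel,
        Units.val_one, Matrix.one_mul]
    intro i j
    show (2:ℝ) ^ K * (((q g)⁻¹ * q (g * s) : (Matrix (Fin n) (Fin n) ℝ)ˣ) :
        Matrix (Fin n) (Fin n) ℝ) i j = _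
    rw [e1]
    have e6 : ((((((u g)⁻¹ : (Matrix (Fin n) (Fin n) ℤ)ˣ) : Matrix (Fin n) (Fin n) ℤ) *
      (Matrix.diagonal fun i => (2:ℤ) ^ ((K:ℤ) + (k (g * s) i - k g i)).toNat) *
      (u (g * s) : Matrix (Fin n) (Fin n) ℤ)) i j : ℤ) : ℝ) =
      ((Int.castRingHom ℝ).mapMatrix ((((u g)⁻¹ : (Matrix (Fin n) (Fin n) ℤ)ˣ) :
        Matrix (Fin n) (Fin n) ℤ) *
      (Matrix.diagonal fun i => (2:ℤ) ^ ((K:ℤ) + (k (g * s) i - k g i)).toNat) *
      (u (g * s) : Matrix (Fin n) (Fin n) ℤ))) i j := rfl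
    rw [e6, map_mul, map_mul]
    have e7 : (Int.castRingHom ℝ).mapMatrix
        (Matrix.diagonal fun i => (2:ℤ) ^ ((K:ℤ) + (k (g * s) i - k g i)).toNat) =
        (2:ℝ) ^ K • Matrix.diagonal (fun i => (2:ℝ) ^ (k (g * s) i - k g i)) := by
      ext a b
      by_cases hab : a = b
      · subst hab
        simp only [RingHom.mapMatrix_apply, Matrix.map_apply, Matrix.diagonal_apply_eq,
          Matrix.smul_apply, smul_eq_mul]
        rw [← zpow_natCast (2:ℝ) K, ← zpow_add₀ two_ne_zero]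
        have := hexp a
        have h9 : ((((K:ℤ) + (k (g * s) a - k g a)).toNat : ℕ) : ℤ) =
          (K:ℤ) + (k (g * s) a - k g a) := by omega
        have h10 : (2:ℝ) ^ ((K:ℤ) + (k (g * s) a - k g a)) =
            (2:ℝ) ^ (((K:ℤ) + (k (g * s) a - k g a)).toNat) := by
          rw [← zpow_natCast, h9]
        rw [h10]
        simp
      · simp [Matrix.diagonal_apply_ne _ hab]
    rw [e7, Matrix.mul_smul, Matrix.smul_mul, Matrix.smul_apply, smul_eq_mul]
  obtain ⟨E', hE', hW⟩ := tri_ex n F' hF'fin ε hε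
  -- a bound for the elements of `E'`
  choose r hr using fun g => exists_PhiR (n := n) g
  obtain ⟨R', hR'⟩ := (hE'.image (fun x : Tri n => r x.1)).bddAbove
  obtain ⟨S, hS⟩ := exists_nat_ge ((n:ℝ) * (n * (C * R') * C))
  refine ⟨S, Wf.comap (fun g => (⟨q g, hqT g⟩ : Tri n)) hW hincr (fun _ _ _ => trivial) ?_⟩
  intro g h _ he
  have h1 := PhiR_mono (hR' (Set.mem_image_of_mem _ he)) (hr _)
  refine ⟨(htriple' g h R' (Nat.cast_nonneg _) h1.1).mono hS, ?_⟩
  have h2 : (g⁻¹ * h)⁻¹ = h⁻¹ * g := by group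
  rw [h2]
  refine (htriple' h g R' (Nat.cast_nonneg _) ?_).mono hS
  have h3 := h1.2
  have h4 : (q h)⁻¹ * q g = ((((⟨q g, hqT g⟩ : Tri n)⁻¹ * ⟨q h, hqT h⟩ : Tri n) :
      (Matrix (Fin n) (Fin n) ℝ)ˣ))⁻¹ := by
    simp only [Subgroup.coe_mul, Subgroup.coe_inv]
    group
  rw [h4]
  exact h3

end Pool.Agent.N506.EX
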