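import Pool.Agent.N506.EXB
import Pool.Agent.N506.EXR

/-!
# Matrix groups over commutative fields are exact
-/

namespace Pool.Agent.N506.EX

universe u v w

/-- A ring is matrix-exact when all the groups `GL_n` over it are exact. -/
def MEx (R : Type u) [Ring R] : Prop := ∀ n : ℕ, Ex (Matrix (Fin n) (Fin n) R)ˣ

/-- The induced homomorphism of matrix groups. -/
def glMap {R : Type u} [Ring R] {S : Type v} [Ring S] (n : ℕ) (f : R →+* S) :
    (Matrix (Fin n) (Fin n) R)ˣ →* (Matrix (Fin n) (Fin n) S)ˣ :=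
  Units.map (f.mapMatrix : Matrix (Fin n) (Fin n) R →+* Matrix (Fin n) (Fin n) S).toMonoidHom

theorem glMap_apply {R : Type u} [Ring R] {S : Type v} [Ring S] {n : ℕ} (f : R →+* S)
    (g : (Matrix (Fin n) (Fin n) R)ˣ) (i j : Fin n) :
    (glMap n f g : Matrix (Fin n) (Fin n) S) i j = f ((g : Matrix (Fin n) (Fin n) R) i j) := rfl

theorem glMap_inv_apply {R : Type u} [Ring R] {S : Type v} [Ring S] {n : ℕ} (f : R →+* S)
    (g : (Matrix (Fin n) (Fin n) R)ˣ) (i j : Fin n) :
    (((glMap n f g)⁻¹ : (Matrix (Fin n) (Fin n) S)ˣ) : Matrix (Fin n) (Fin n) S) i j =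
      f (((g⁻¹ : (Matrix (Fin n) (Fin n) R)ˣ) : Matrix (Fin n) (Fin n) R) i j) := by
  rw [← map_inv]
  rfl

theorem glMap_injective {R : Type u} [Ring R] {S : Type v} [Ring S] (n : ℕ) (f : R →+* S)
    (hf : Function.Injective f) : Function.Injective (glMap n f) := by
  intro a b hab
  apply Units.ext
  ext i j
  apply hf
  rw [← glMap_apply f a i j, ← glMap_apply f b i j, hab]

theorem MEx.of_injective {R : Type u} [Ring R] {S : Type v} [Ring S] (hS : MEx S) (f : R →+* S)
    (hf : Function.Injective f) : MEx R :=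
  fun n => Ex.of_injective (hS n) (glMap n f) (glMap_injective n f hf)

theorem MEx.index {S : Type v} [Ring S] (hS : MEx S) (ι : Type w) [Fintype ι] [DecidableEq ι] :
    Ex (Matrix ι ι S)ˣ := by
  let e : ι ≃ Fin (Fintype.card ι) := Fintype.equivFin ι
  have e2 : (Matrix ι ι S) ≃+* Matrix (Fin (Fintype.card ι)) (Fin (Fintype.card ι)) S :=
    { toFun := fun M => M.submatrix e.symm e.symm
      invFun := fun M => M.submatrix e e
      left_inv := fun M => by ext; simp
      right_inv := fun M => by ext; simp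
      map_mul' := fun M N => (Matrix.submatrix_mul_equiv M N e.symm e.symm e.symm).symm
      map_add' := fun M N => rfl }
  exact (Ex.equiv (Units.mapEquiv e2.toMulEquiv)).mpr (hS _)

theorem MEx.matrix {S : Type v} [Ring S] (hS : MEx S) (ι : Type w) [Fintype ι] [DecidableEq ι] :
    MEx (Matrix ι ι S) := by
  intro n
  have := (Matrix.compRingEquiv (Fin n) ι S)
  exact (Ex.equiv (Units.mapEquiv this.toMulEquiv)).mpr (hS.index _)

theorem MEx.of_finite {S : Type v} [Ring S] [Finite S] : MEx S := by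
  intro n
  have : Finite (Matrix (Fin n) (Fin n) S)ˣ := by
    have : Finite (Matrix (Fin n) (Fin n) S) := Pi.finite
    exact Finite.of_injective (fun x : (Matrix (Fin n) (Fin n) S)ˣ =>
      (x : Matrix (Fin n) (Fin n) S)) Units.val_injective
  exact Ex.of_finite

theorem MEx.prod {R : Type u} [Ring R] {S : Type v} [Ring S] (hR : MEx R) (hS : MEx S) :
    MEx (R × S) := by
  intro n
  refine Ex.of_injective ((hR n).prod (hS n))
    ((glMap n (RingHom.fst R S)).prod (glMap n (RingHom.snd R S))) ?_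
  intro a b hab
  rw [MonoidHom.prod_apply, MonoidHom.prod_apply, Prod.mk.injEq] at hab
  apply Units.ext
  ext i j
  · have := congrArg (fun x : (Matrix (Fin n) (Fin n) R)ˣ =>
      (x : Matrix (Fin n) (Fin n) R) i j) hab.1
    exact this
  · have := congrArg (fun x : (Matrix (Fin n) (Fin n) S)ˣ =>
      (x : Matrix (Fin n) (Fin n) S) i j) hab.2
    exact this

/-- Matrix-exactness is local. -/
theorem MEx.of_local {R : Type u} [Ring R]
    (h : ∀ s : Finset R, ∃ S : Subring R, (s : Set R) ⊆ S ∧ MEx S) : MEx R := by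
  classical
  intro n
  refine Ex.of_fg fun H hH => ?_
  obtain ⟨F, hF⟩ := hH
  let s : Finset R := F.biUnion fun g => Finset.univ.biUnion fun i => Finset.univ.biUnion fun j =>
    {(g : Matrix (Fin n) (Fin n) R) i j,
      ((g⁻¹ : (Matrix (Fin n) (Fin n) R)ˣ) : Matrix (Fin n) (Fin n) R) i j}
  obtain ⟨S, hs, hS⟩ := h s
  have hHS : H ≤ (glMap n S.subtype).range := by
    rw [← hF, Subgroup.closure_le]
    intro g hg
    have h1 : ∀ i j, (g : Matrix (Fin n) (Fin n) R) i j ∈ S := fun i j => hs (by
      simp only [s, Finset.coe_biUnion, Set.mem_iUnion]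
      exact ⟨g, hg, i, Finset.mem_coe.mpr (Finset.mem_univ _), j,
        Finset.mem_coe.mpr (Finset.mem_univ _), by simp⟩)
    have h2 : ∀ i j, ((g⁻¹ : (Matrix (Fin n) (Fin n) R)ˣ) : Matrix (Fin n) (Fin n) R) i j ∈ S :=
      fun i j => hs (by
      simp only [s, Finset.coe_biUnion, Set.mem_iUnion]
      exact ⟨g, hg, i, Finset.mem_coe.mpr (Finset.mem_univ _), j,
        Finset.mem_coe.mpr (Finset.mem_univ _), by simp⟩)
    have hmapinj : Function.Injective (S.subtype.mapMatrix :
        Matrix (Fin n) (Fin n) S →+* Matrix (Fin n) (Fin n) R) := by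
      intro a b hab
      ext i j
      exact congrFun (congrFun hab i) j
    refine ⟨⟨Matrix.of fun i j => ⟨_, h1 i j⟩, Matrix.of fun i j => ⟨_, h2 i j⟩, ?_, ?_⟩, ?_⟩
    · apply hmapinj
      rw [map_mul, map_one]
      exact g.mul_inv
    · apply hmapinj
      rw [map_mul, map_one]
      exact g.inv_mul
    · apply Units.ext
      rfl
  have hEx : Ex (glMap n S.subtype).range := by
    have e := (MonoidHom.ofInjective (glMap_injective n S.subtype S.subtype_injective))
    exact (Ex.equiv e).mp (hS n)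
  exact Ex.of_injective hEx (Subgroup.inclusion hHS) (Subgroup.inclusion_injective _)

theorem Ctl.comap {G : Type u} [Group G] {H : Type v} [Group H] {Φ : ℕ → Set H} (h : Ctl H Φ)
    (f : G →* H) : Ctl G (fun r => f ⁻¹' Φ r) := by
  intro R ε hε
  obtain ⟨S, hS⟩ := h R ε hε
  exact ⟨S, Wf.comap f hS (fun g s hs => by simpa using hs) (fun _ _ _ => trivial)
    (fun g h _ he => by simpa using he)⟩

theorem Exh.comap {G : Type u} {H : Type v} {Φ : ℕ → Set H} (h : Exh Φ)
    (f : G → H) : Exh (fun r => f ⁻¹' Φ r) := by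
  intro F hF
  obtain ⟨R, hR⟩ := h (f '' F) (hF.image f)
  exact ⟨R, fun x hx => hR (Set.mem_image_of_mem _ hx)⟩

/-- The criterion: finitely many discrete valuations, and for each bound a homomorphism to a
matrix-exact ring which is injective on the bounded elements. -/
theorem MEx.criterion {R : Type u} [Ring R] {ι : Type w} (P : Finset ι)
    (D : ι → Type v) [∀ i, DivisionRing (D i)] (V : ∀ i, DV (D i)) (f : ∀ i, R →+* D i)
    (h : ∀ S : ι → ℕ, ∃ (L : Type u) (_ : Ring L), MEx L ∧ ∃ φ : R →+* L,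
      Set.InjOn φ {a | ∀ i ∈ P, f i a ∈ (V i).O (-(S i : ℤ))}) : MEx R := by
  intro n
  refine ExOn.steps P (fun i r => (glMap n (f i)) ⁻¹' Phi (V i) n r)
    (fun i _ => (exh_Phi (V i)).comap _) (fun i _ => (ctl_Phi (V i)).comap _) _ ?_
  intro S
  obtain ⟨L, _, hL, φ, hφ⟩ := h S
  refine ExOn.of_injOn (hL n) (glMap n φ) ?_
  intro a ha b hb hab
  apply Units.ext
  ext i j
  apply hφ
  · intro k hk
    have := ha.2
    simp only [Set.mem_iInter] at this
    exact (this k hk i j).1
  · intro k hk
    have := hb.2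
    simp only [Set.mem_iInter] at this
    exact (this k hk i j).1
  · rw [← glMap_apply φ a i j, hab, glMap_apply]

end Pool.Agent.N506.EX
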