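import Pool.Agent.N506.EXD
import Pool.Agent.N506.EXF

/-!
# Monoid algebras inside crossed product division rings
-/

namespace Pool.Agent.N506.EX

open HahnSeries

universe u

section MonAlg

variable {k : Type u} [Field k] {M : Type u} [Monoid M] {E : Type u} [DivisionRing E] [Algebra k E]
  {Λ : Type} [AddCommGroup Λ] [LinearOrder Λ] [IsOrderedAddMonoid Λ]
  (σ : Multiplicative Λ →* RingAut E)
  (hσ : ∀ l (c : k), σ l (algebraMap k E c) = algebraMap k E c)
  (lam : M →* Multiplicative Λ) (mm : M → E) (mm_one : mm 1 = 1)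
  (mm_mul : ∀ a b, mm (a * b) = mm a * σ (lam a) (mm b))

/-- The image of a monoid element. -/
noncomputable def psiM : M →* TwH (crossed σ) where
  toFun a := ⟨single (lam a).toAdd (op σ (mm a) (lam a).toAdd), single_mem _ ⟨_, rfl⟩⟩
  map_one' := by
    apply Subtype.ext
    show single (lam 1).toAdd (op σ (mm 1) (lam 1).toAdd) = 1
    rw [map_one, mm_one, toAdd_one, op_one]
    rfl
  map_mul' a b := by
    apply Subtype.ext
    show single (lam (a * b)).toAdd (op σ (mm (a * b)) (lam (a * b)).toAdd) =
      single (lam a).toAdd (op σ (mm a) (lam a).toAdd) *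
        single (lam b).toAdd (op σ (mm b) (lam b).toAdd)
    rw [HahnSeries.single_mul_single, op_mul, map_mul, toAdd_mul, mm_mul]
    rfl

/-- The image of a scalar. -/
noncomputable def psiK : k →+* TwH (crossed σ) where
  toFun c := ⟨single 0 (op σ (algebraMap k E c) 0), single_mem _ ⟨_, rfl⟩⟩
  map_one' := by
    apply Subtype.ext
    show single 0 (op σ (algebraMap k E 1) 0) = 1
    rw [map_one, op_one]
    rfl
  map_mul' a b := by
    apply Subtype.ext
    show single 0 (op σ (algebraMap k E (a * b)) 0) =
      single 0 (op σ (algebraMap k E a) 0) * single 0 (op σ (algebraMap k E b) 0)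
    rw [HahnSeries.single_mul_single, op_mul, ofAdd_zero, map_one, map_mul, add_zero]
    rfl
  map_zero' := by
    apply Subtype.ext
    show single 0 (op σ (algebraMap k E 0) 0) = 0
    rw [map_zero, op_zero, HahnSeries.single_eq_zero]
  map_add' a b := by
    apply Subtype.ext
    show single 0 (op σ (algebraMap k E (a + b)) 0) =
      single 0 (op σ (algebraMap k E a) 0) + single 0 (op σ (algebraMap k E b) 0)
    rw [map_add, ← op_add, HahnSeries.single_add]

theorem psiK_mul_psiM (c : k) (a : M) :
    ((psiK σ c * psiM σ lam mm mm_one mm_mul a : TwH (crossed σ)) :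
      HahnSeries Λ (AddMonoid.End E)) =
      single (lam a).toAdd (op σ (algebraMap k E c * mm a) (lam a).toAdd) := by
  show single 0 (op σ (algebraMap k E c) 0) *
      single (lam a).toAdd (op σ (mm a) (lam a).toAdd) = _
  rw [HahnSeries.single_mul_single, op_mul, ofAdd_zero, map_one, zero_add]
  rfl

include hσ in
theorem psi_commute (c : k) (a : M) :
    Commute (psiK (k := k) σ c) (psiM σ lam mm mm_one mm_mul a) := by
  apply Subtype.ext
  rw [psiK_mul_psiM]
  show _ = single (lam a).toAdd (op σ (mm a) (lam a).toAdd) *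
    single 0 (op σ (algebraMap k E c) 0)
  rw [HahnSeries.single_mul_single, op_mul, add_zero]
  congr 2
  rw [Algebra.commutes]
  congr 1
  exact (hσ _ c).symm

/-- The homomorphism to the crossed product division ring. -/
noncomputable def psi : MonoidAlgebra k M →+* TwH (crossed σ) :=
  MonoidAlgebra.liftNCRingHom (psiK σ) (psiM σ lam mm mm_one mm_mul)
    (psi_commute σ hσ lam mm mm_one mm_mul)

theorem psi_coeff (x : MonoidAlgebra k M) (l : Λ) :
    ((psi σ hσ lam mm mm_one mm_mul x : TwH (crossed σ)) :
      HahnSeries Λ (AddMonoid.End E)).coeff l =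
      op σ (∑ a ∈ x.coeff.support.filter (fun a => (lam a).toAdd = l),
        algebraMap k E (x.coeff a) * mm a) l := by
  classical
  have h1 : psi σ hσ lam mm mm_one mm_mul x =
      ∑ a ∈ x.coeff.support, psiK σ (x.coeff a) * psiM σ lam mm mm_one mm_mul a := by
    conv_lhs => rw [← MonoidAlgebra.sum_coeff_single x]
    rw [Finsupp.sum, map_sum]
    refine Finset.sum_congr rfl fun a _ => ?_
    rw [psi, MonoidAlgebra.liftNCRingHom_single]
  rw [h1]
  have h2 : ((∑ a ∈ x.coeff.support, psiK σ (x.coeff a) * psiM σ lam mm mm_one mm_mul a :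
      TwH (crossed σ)) : HahnSeries Λ (AddMonoid.End E)) =
      ∑ a ∈ x.coeff.support, single (lam a).toAdd
        (op σ (algebraMap k E (x.coeff a) * mm a) (lam a).toAdd) := by
    rw [← Subring.subtype_apply, map_sum]
    exact Finset.sum_congr rfl fun a _ => psiK_mul_psiM σ lam mm mm_one mm_mul _ a
  rw [h2, HahnSeries.coeff_sum]
  have h3 : ∀ s : Finset M, (∑ a ∈ s, (single (lam a).toAdd
        (op σ (algebraMap k E (x.coeff a) * mm a) (lam a).toAdd)).coeff l) =
      op σ (∑ a ∈ s.filter (fun a => (lam a).toAdd = l),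
        algebraMap k E (x.coeff a) * mm a) l := by
    intro s
    induction s using Finset.induction_on with
    | empty => simp [op_zero]
    | insert a s ha ih =>
      rw [Finset.sum_insert ha, ih, Finset.filter_insert]
      split_ifs with h
      · rw [Finset.sum_insert (by simp [ha]), ← op_add]
        congr 1
        subst h
        rw [HahnSeries.coeff_single_same]
      · rw [HahnSeries.coeff_single_of_ne (Ne.symm h), zero_add]
  exact h3 _

theorem psi_coeff_ne (hind : ∀ l, LinearIndepOn k mm {a | (lam a).toAdd = l})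
    (x : MonoidAlgebra k M) (a : M) (ha : x.coeff a ≠ 0) :
    ((psi σ hσ lam mm mm_one mm_mul x : TwH (crossed σ)) :
      HahnSeries Λ (AddMonoid.End E)).coeff (lam a).toAdd ≠ 0 := by
  rw [psi_coeff]
  refine op_ne_zero σ ?_ _
  intro h0
  have h1 := linearIndepOn_iff'.mp (hind (lam a).toAdd)
    (x.coeff.support.filter (fun b => (lam b).toAdd = (lam a).toAdd)) (fun b => x.coeff b)
    (by intro b hb; simpa using (Finset.mem_filter.mp hb).2)
    (by simpa [Algebra.smul_def] using h0) a
    (by simp [ha])
  exact ha h1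


open scoped Classical in
/-- The truncated left regular representation. -/
noncomputable def trunc (k : Type u) [Field k] (M : Type u) [Monoid M] (P : Set M)
    [Fintype P] (hP1 : (1 : M) ∈ P) (hP : ∀ a b, a * b ∈ P → b ∈ P) :
    MonoidAlgebra k M →ₐ[k] Matrix P P k :=
  MonoidAlgebra.lift k (Matrix P P k) M
    { toFun := fun a => Matrix.of fun b' b => if (b' : M) = a * b then 1 else 0
      map_one' := by
        ext b' b
        simp [Matrix.one_apply, Subtype.ext_iff]
      map_mul' := by
        intro a a'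
        ext b'' b
        rw [Matrix.mul_apply]
        simp only [Matrix.of_apply]
        by_cases h : a' * (b : M) ∈ P
        · rw [Finset.sum_eq_single (⟨a' * b, h⟩ : P)]
          · simp [mul_assoc]
          · intro c _ hc
            rw [if_neg (fun h' : (c : M) = a' * b => hc (Subtype.ext h')), mul_zero]
          · intro h'
            exact absurd (Finset.mem_univ _) h'
        · rw [if_neg, Finset.sum_eq_zero]
          · intro c _
            rw [if_neg (fun h' : (c : M) = a' * b => h (h' ▸ c.2)), mul_zero]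
          · intro h'
            apply h
            apply hP a
            rw [← mul_assoc, ← h']
            exact b''.2 }

open scoped Classical in
theorem trunc_apply (k : Type u) [Field k] (M : Type u) [Monoid M] (P : Set M)
    [Fintype P] (hP1 : (1 : M) ∈ P) (hP : ∀ a b, a * b ∈ P → b ∈ P)
    (x : MonoidAlgebra k M) (b : P) :
    trunc k M P hP1 hP x b ⟨1, hP1⟩ = x.coeff b := by
  classical
  rw [trunc, MonoidAlgebra.lift_apply, Finsupp.sum, Matrix.sum_apply]
  simp only [MonoidHom.coe_mk, OneHom.coe_mk, Matrix.smul_apply, Matrix.of_apply, mul_one,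
    smul_eq_mul, mul_ite, mul_zero]
  rw [Finset.sum_ite_eq]
  split_ifs with h
  · rfl
  · exact (Finsupp.notMem_support_iff.mp h).symm

include hσ mm_one mm_mul in
/-- Matrix-exactness of monoid algebras. -/
theorem mex_monoidAlgebra (w : Λ →+ ℤ) (hw : Monotone w) (l0 : Λ) (hl0 : w l0 = 1)
    (hind : ∀ l, LinearIndepOn k mm {a | (lam a).toAdd = l})
    (hneg : ∀ a, w (lam a).toAdd ≤ 0)
    (hfin : ∀ r : ℕ, {a : M | -(r : ℤ) ≤ w (lam a).toAdd}.Finite) :
    MEx (MonoidAlgebra k M) := by
  classical
  refine MEx.criterion (ι := Unit) {()} (fun _ => TwH (crossed σ))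
    (fun _ => TwHDV (crossed σ) w hw l0 hl0 (op σ 1 l0) ⟨1, rfl⟩ (op_ne_zero σ one_ne_zero _))
    (fun _ => psi σ hσ lam mm mm_one mm_mul) ?_
  intro S
  set r := S () with hr
  let P : Set M := {a : M | -(r : ℤ) ≤ w (lam a).toAdd}
  have : Fintype P := (hfin r).fintype
  have hP1 : (1 : M) ∈ P := by
    show -(r : ℤ) ≤ w (lam 1).toAdd
    rw [map_one, toAdd_one, map_zero]
    omega
  have hP : ∀ a b, a * b ∈ P → b ∈ P := by
    intro a b hab
    have h1 : -(r : ℤ) ≤ w (lam (a * b)).toAdd := hab
    rw [map_mul, toAdd_mul, map_add] at h1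
    have := hneg a
    show -(r : ℤ) ≤ w (lam b).toAdd
    omega
  refine ⟨Matrix P P k, inferInstance, (MEx.field k).matrix P,
    (trunc k M P hP1 hP).toRingHom, ?_⟩
  -- bounded elements have support in `P`
  have hsupp : ∀ x : MonoidAlgebra k M, (∀ i ∈ ({()} : Finset Unit),
      psi σ hσ lam mm mm_one mm_mul x ∈ (TwHDV (crossed σ) w hw l0 hl0 (op σ 1 l0) ⟨1, rfl⟩
        (op_ne_zero σ one_ne_zero _)).O (-(S i : ℤ))) → ∀ a, a ∉ P → x.coeff a = 0 := by
    intro x hx a ha
    by_contra h
    apply ha
    have h1 := psi_coeff_ne σ hσ lam mm mm_one mm_mul hind x a h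
    have h2 := hx () (Finset.mem_singleton_self _)
    have h3 : psi σ hσ lam mm mm_one mm_mul x ≠ 0 := by
      intro h0
      rw [h0] at h1
      exact h1 rfl
    have h4 : -(S () : ℤ) ≤ w ((psi σ hσ lam mm mm_one mm_mul x : TwH (crossed σ)) :
      HahnSeries Λ (AddMonoid.End E)).order := h2.resolve_left h3
    exact h4.trans (hw (HahnSeries.order_le_of_coeff_ne_zero h1))
  intro x hx y hy hxy
  rw [← MonoidAlgebra.coeff_inj]
  ext a
  by_cases ha : a ∈ P
  · have h1 := trunc_apply k M P hP1 hP x ⟨a, ha⟩
    have h2 := trunc_apply k M P hP1 hP y ⟨a, ha⟩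
    have h3 : trunc k M P hP1 hP x = trunc k M P hP1 hP y := hxy
    rw [h3] at h1
    exact h1.symm.trans h2
  · rw [hsupp x hx a ha, hsupp y hy a ha]

end MonAlg

end Pool.Agent.N506.EX
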