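import Pool.Agent.N506.EXG

/-!
# Tensor products of free algebras are matrix-exact
-/

namespace Pool.Agent.N506.EX

universe u

section Free

variable (k : Type u) [Field k] (m : ℕ) (X : Type u)

/-- The exponent group: total degree first, then the degree vector. -/
abbrev Lam (m : ℕ) : Type := Lex (ℤ × Lex (Fin m → ℤ))

/-- The degree vector. -/
def vec {m : ℕ} (l : Lam m) : Fin m → ℤ := ofLex (ofLex l).2

theorem vec_add {m : ℕ} (l l' : Lam m) : vec (l + l') = vec l + vec l' := rfl

/-- The variables. -/
abbrev Var : Type u := Fin m × ℤ × X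

variable {m X}

/-- The shift of the variables. -/
def sh (n : Fin m → ℤ) : Equiv.Perm (Var m X) where
  toFun v := (v.1, v.2.1 + n v.1, v.2.2)
  invFun v := (v.1, v.2.1 - n v.1, v.2.2)
  left_inv v := by
    obtain ⟨i, j, x⟩ := v
    simp
  right_inv v := by
    obtain ⟨i, j, x⟩ := v
    simp

theorem sh_apply (n : Fin m → ℤ) (i : Fin m) (j : ℤ) (x : X) :
    sh n (i, j, x) = (i, j + n i, x) := rfl

theorem sh_add (n n' : Fin m → ℤ) : sh (X := X) (n + n') = sh n * sh n' := by
  ext v
  · rfl
  · obtain ⟨i, j, x⟩ := v
    show j + (n i + n' i) = (j + n' i) + n i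
    ring
  · rfl

variable (m X)

/-- The action of the exponents on the variables. -/
def permHom : Multiplicative (Lam m) →* Equiv.Perm (Var m X) where
  toFun l := sh (-vec l.toAdd)
  map_one' := by
    ext v
    · rfl
    · obtain ⟨i, j, x⟩ := v
      show j + -(0 : ℤ) = j
      ring
    · rfl
  map_mul' a b := by
    rw [← sh_add, toAdd_mul, vec_add]
    congr 1
    abel

/-- Renaming of variables. -/
noncomputable def renHom (V : Type u) : Equiv.Perm V →* RingAut (MvPolynomial V k) where
  toFun e := (MvPolynomial.renameEquiv k e).toRingEquiv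
  map_one' := by
    apply RingEquiv.ext
    intro p
    show MvPolynomial.rename _ p = p
    exact MvPolynomial.rename_id_apply p
  map_mul' a b := by
    apply RingEquiv.ext
    intro p
    show MvPolynomial.rename _ p = MvPolynomial.rename _ (MvPolynomial.rename _ p)
    rw [MvPolynomial.rename_rename]
    rfl

/-- Automorphisms of a domain extend to its fraction field. -/
noncomputable def fracHom (A : Type u) [CommRing A] [IsDomain A] :
    RingAut A →* RingAut (FractionRing A) where
  toFun e := IsFractionRing.ringEquivOfRingEquiv e
  map_one' := by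
    apply RingEquiv.toRingHom_injective
    apply IsLocalization.ringHom_ext (nonZeroDivisors A)
    ext a
    show IsFractionRing.ringEquivOfRingEquiv (1 : RingAut A) (algebraMap A (FractionRing A) a) = _
    rw [IsFractionRing.ringEquivOfRingEquiv_algebraMap]
    rfl
  map_mul' a b := by
    apply RingEquiv.toRingHom_injective
    apply IsLocalization.ringHom_ext (nonZeroDivisors A)
    ext x
    show IsFractionRing.ringEquivOfRingEquiv (a * b) (algebraMap A (FractionRing A) x) =
      IsFractionRing.ringEquivOfRingEquiv a
        (IsFractionRing.ringEquivOfRingEquiv b (algebraMap A (FractionRing A) x))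
    rw [IsFractionRing.ringEquivOfRingEquiv_algebraMap,
      IsFractionRing.ringEquivOfRingEquiv_algebraMap,
      IsFractionRing.ringEquivOfRingEquiv_algebraMap]
    rfl

theorem fracHom_algebraMap (A : Type u) [CommRing A] [IsDomain A] (e : RingAut A) (a : A) :
    fracHom A e (algebraMap A (FractionRing A) a) = algebraMap A (FractionRing A) (e a) :=
  IsFractionRing.ringEquivOfRingEquiv_algebraMap _ _

/-- The coefficient field. -/
abbrev CF : Type u := FractionRing (MvPolynomial (Var m X) k)

/-- The action on the coefficient field. -/
noncomputable def sig : Multiplicative (Lam m) →* RingAut (CF k m X) :=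
  ((fracHom _).comp (renHom k (Var m X))).comp (permHom m X)

theorem sig_algebraMap (l : Multiplicative (Lam m)) (p : MvPolynomial (Var m X) k) :
    sig k m X l (algebraMap _ (CF k m X) p) =
      algebraMap _ (CF k m X) (MvPolynomial.rename (permHom m X l) p) :=
  fracHom_algebraMap _ _ _

variable {m X}

/-- The exponent of the monomial of a word in the `i`-th factor. -/
noncomputable def muL (i : Fin m) : List X → (Var m X →₀ ℕ)
  | [] => 0
  | x :: w => Finsupp.single (i, 0, x) 1 + (muL i w).mapDomain (sh 1)

theorem muL_support (i : Fin m) (w : List X) : ∀ v ∈ (muL i w).support, v.1 = i := by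
  classical
  induction w with
  | nil => intro v hv; simp [muL] at hv
  | cons x w ih =>
    intro v hv
    rw [muL] at hv
    rcases Finset.mem_union.mp (Finsupp.support_add hv) with h | h
    · have := Finsupp.support_single_subset h
      rw [Finset.mem_singleton] at this
      rw [this]
    · obtain ⟨v', hv', rfl⟩ := Finset.mem_image.mp (Finsupp.mapDomain_support h)
      exact ih v' hv'

theorem muL_congr (i : Fin m) (w : List X) {n n' : Fin m → ℤ} (h : n i = n' i) :
    (muL i w).mapDomain (sh n) = (muL i w).mapDomain (sh n') := by
  refine Finsupp.mapDomain_congr fun v hv => ?_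
  have := muL_support i w v hv
  obtain ⟨i', j, x⟩ := v
  simp only at this
  subst this
  rw [sh_apply, sh_apply, h]

theorem mapDomain_sh_add (n n' : Fin m → ℤ) (f : Var m X →₀ ℕ) :
    f.mapDomain (sh (n + n')) = (f.mapDomain (sh n')).mapDomain (sh n) := by
  rw [← Finsupp.mapDomain_comp, sh_add]
  rfl

theorem muL_append (i : Fin m) (w w' : List X) :
    muL i (w ++ w') = muL i w + (muL i w').mapDomain (sh (fun _ => (w.length : ℤ))) := by
  induction w with
  | nil =>
    rw [List.nil_append, muL, zero_add]
    have : (sh (fun _ : Fin m => (([] : List X).length : ℤ)) : Var m X → Var m X) = id := by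
      funext v
      obtain ⟨i', j, x⟩ := v
      rw [sh_apply]
      simp
    rw [this, Finsupp.mapDomain_id]
  | cons x w ih =>
    rw [List.cons_append, muL, muL, ih, Finsupp.mapDomain_add, add_assoc, ← mapDomain_sh_add]
    congr 2
    apply muL_congr
    simp [add_comm]

theorem muL_apply (i : Fin m) (w : List X) (j : ℕ) (x : X) :
    muL i w (i, (j : ℤ), x) = 1 ↔ w[j]? = some x := by
  classical
  have hneg : ∀ (w : List X) (j : ℤ) (x : X), j < 0 → muL i w (i, j, x) = 0 := by
    intro w
    induction w with
    | nil => intro j x _; simp [muL]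
    | cons y w ih =>
      intro j x hj
      rw [muL, Finsupp.add_apply, Finsupp.single_apply, if_neg]
      · have : (i, j, x) = (sh 1 : Equiv.Perm (Var m X)) (i, j - 1, x) := by
          rw [sh_apply]; simp
        rw [this, Finsupp.mapDomain_apply (Equiv.injective _), ih _ _ (by omega)]
      · intro h
        simp only [Prod.mk.injEq] at h
        omega
  induction w generalizing j with
  | nil => simp [muL]
  | cons y w ih =>
    rw [muL, Finsupp.add_apply, Finsupp.single_apply]
    have : (i, (j : ℤ), x) = (sh 1 : Equiv.Perm (Var m X)) (i, (j : ℤ) - 1, x) := by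
      rw [sh_apply]; simp
    rw [this, Finsupp.mapDomain_apply (Equiv.injective _), ← this]
    cases j with
    | zero =>
      rw [hneg _ _ _ (by simp)]
      simp
    | succ j =>
      have e : ((j + 1 : ℕ) : ℤ) - 1 = (j : ℤ) := by push_cast; ring
      rw [e, if_neg, zero_add]
      · rw [List.getElem?_cons_succ]
        exact ih j
      · intro h
        simp only [Prod.mk.injEq] at h
        have := h.2.1
        push_cast at this
        omega

/-- The exponent of the monomial of a tuple of words. -/
noncomputable def mu (a : Fin m → FreeMonoid X) : Var m X →₀ ℕ :=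
  ∑ i, muL i (FreeMonoid.toList (a i))

theorem mu_mul (a b : Fin m → FreeMonoid X) :
    mu (a * b) = mu a + (mu b).mapDomain (sh (fun i => ((a i).length : ℤ))) := by
  rw [mu, mu, mu, Finsupp.mapDomain_finsetSum, ← Finset.sum_add_distrib]
  refine Finset.sum_congr rfl fun i _ => ?_
  rw [Pi.mul_apply, FreeMonoid.toList_mul, muL_append]
  congr 1
  exact muL_congr i _ rfl

theorem mu_injective : Function.Injective (mu (m := m) (X := X)) := by
  classical
  intro a b hab
  funext i
  have key : ∀ (a : Fin m → FreeMonoid X) (j : ℕ) (x : X),
      mu a (i, (j : ℤ), x) = 1 ↔ (FreeMonoid.toList (a i))[j]? = some x := by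
    intro a j x
    rw [mu, Finsupp.finsetSum_apply, Finset.sum_eq_single i, muL_apply]
    · intro i' _ hi'
      by_contra h
      exact hi' (muL_support i' _ _ (Finsupp.mem_support_iff.mpr h)).symm
    · intro h
      exact absurd (Finset.mem_univ _) h
  apply FreeMonoid.toList.injective
  apply List.ext_getElem?
  intro j
  apply Option.ext
  intro x
  rw [← key a j x, ← key b j x, hab]

/-- The exponent homomorphism. -/
def lamHom : (Fin m → FreeMonoid X) →* Multiplicative (Lam m) where
  toFun a := Multiplicative.ofAdd (toLex (-∑ i, ((a i).length : ℤ),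
    toLex fun i => -((a i).length : ℤ)))
  map_one' := by
    apply congrArg Multiplicative.ofAdd
    apply congrArg toLex
    refine Prod.ext ?_ ?_
    · simp
    · apply congrArg toLex
      funext i
      simp
  map_mul' a b := by
    rw [← ofAdd_add]
    apply congrArg Multiplicative.ofAdd
    rw [← toLex_add]
    apply congrArg toLex
    refine Prod.ext ?_ ?_
    · simp only [Pi.mul_apply, FreeMonoid.length_mul, Nat.cast_add, Finset.sum_add_distrib,
        neg_add, Prod.mk_add_mk]
    · simp only [Prod.mk_add_mk, ← toLex_add]
      apply congrArg toLex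
      funext i
      simp [FreeMonoid.length_mul, add_comm]

/-- The total degree. -/
def wHom (m : ℕ) : Lam m →+ ℤ where
  toFun l := (ofLex l).1
  map_zero' := rfl
  map_add' _ _ := rfl

theorem wHom_mono (m : ℕ) : Monotone (wHom m) := by
  intro a b hab
  rw [Prod.Lex.le_iff] at hab
  rcases hab with h | h
  · exact h.le
  · exact h.1.le

/-- The algebra of a finite product of free monoids on a finite alphabet. -/
theorem mex_freeFin [Finite X] : MEx (MonoidAlgebra k (Fin m → FreeMonoid X)) := by
  classical
  refine mex_monoidAlgebra (E := CF k m X) (Λ := Lam m) (sig k m X) ?_ lamHom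
    (fun a => algebraMap _ (CF k m X) (MvPolynomial.monomial (mu a) (1 : k))) ?_ ?_
    (wHom m) (wHom_mono m) (toLex (1, 0)) rfl ?_ ?_ ?_
  · intro l c
    rw [IsScalarTower.algebraMap_apply k (MvPolynomial (Var m X) k) (CF k m X), sig_algebraMap,
      MvPolynomial.algebraMap_eq, MvPolynomial.rename_C]
  · have : mu (1 : Fin m → FreeMonoid X) = 0 := by
      rw [mu]
      refine Finset.sum_eq_zero fun i _ => ?_
      rw [Pi.one_apply, FreeMonoid.toList_one, muL]
    simp only [this]
    rw [MvPolynomial.monomial_zero', MvPolynomial.C_1, map_one]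
  · intro a b
    rw [sig_algebraMap, MvPolynomial.rename_monomial, ← map_mul, MvPolynomial.monomial_mul, mul_one,
      mu_mul]
    congr 3
    have : (permHom m X (lamHom a)) = sh (fun i => ((a i).length : ℤ)) := by
      ext v
      · rfl
      · obtain ⟨i, j, x⟩ := v
        show j + -(-((a i).length : ℤ)) = j + ((a i).length : ℤ)
        rw [neg_neg]
      · rfl
    rw [this]
  · intro l
    rw [linearIndepOn_iff']
    intro t g _ hsum b hb
    have h1 : algebraMap (MvPolynomial (Var m X) k) (CF k m X)
        (∑ a ∈ t, MvPolynomial.monomial (mu a) (g a)) = 0 := by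
      rw [map_sum, ← hsum]
      refine Finset.sum_congr rfl fun a _ => ?_
      rw [Algebra.smul_def, IsScalarTower.algebraMap_apply k (MvPolynomial (Var m X) k) (CF k m X),
        ← map_mul, MvPolynomial.algebraMap_eq, MvPolynomial.C_mul_monomial, mul_one]
    have h2 := (map_eq_zero_iff _ (IsFractionRing.injective (MvPolynomial (Var m X) k)
      (CF k m X))).mp h1
    have h3 := congrArg (MvPolynomial.coeff (mu b)) h2
    rw [MvPolynomial.coeff_sum, Finset.sum_eq_single b, MvPolynomial.coeff_monomial, if_pos rfl,
      MvPolynomial.coeff_zero] at h3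
    · exact h3
    · intro a _ hab
      rw [MvPolynomial.coeff_monomial, if_neg]
      exact fun h => hab (mu_injective h)
    · intro h
      exact absurd hb h
  · intro a
    show -∑ i, ((a i).length : ℤ) ≤ 0
    have : 0 ≤ ∑ i, ((a i).length : ℤ) := Finset.sum_nonneg fun _ _ => Nat.cast_nonneg _
    omega
  · intro r
    have h1 : {w : FreeMonoid X | w.length ≤ r}.Finite := by
      have := List.finite_length_le X r
      exact this
    refine (Set.Finite.pi' (fun _ : Fin m => h1)).subset ?_
    intro a ha i
    have ha' : -(r : ℤ) ≤ -∑ i, ((a i).length : ℤ) := ha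
    have h2 : ((a i).length : ℤ) ≤ ∑ i, ((a i).length : ℤ) :=
      Finset.single_le_sum (f := fun i => ((a i).length : ℤ)) (fun _ _ => Nat.cast_nonneg _)
        (Finset.mem_univ i)
    show (a i).length ≤ r
    omega

end Free

end Pool.Agent.N506.EX
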