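import Pool.Agent.N506.EXI0
import Pool.Agent.N506.EXH

/-!
# Group algebras of right-angled Artin groups
-/

namespace Pool.Agent.N506.EX

universe u

section Words

variable {V : Type u} (Γ : SimpleGraph V)

/-- The generators. -/
def gen (v : V) : RAAG Γ := PresentedGroup.of v

theorem gen_comm {v w : V} (h : Γ.Adj v w) : Commute (gen Γ v) (gen Γ w) := by
  have h1 : (PresentedGroup.mk (raagRels Γ)
      (FreeGroup.of v * FreeGroup.of w * (FreeGroup.of v)⁻¹ * (FreeGroup.of w)⁻¹)) = 1 :=
    PresentedGroup.one_of_mem ⟨v, w, h, rfl⟩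
  rw [map_mul, map_mul, map_mul, map_inv, map_inv] at h1
  have h2 : gen Γ v * gen Γ w * (gen Γ v)⁻¹ * (gen Γ w)⁻¹ = 1 := h1
  show gen Γ v * gen Γ w = gen Γ w * gen Γ v
  rw [mul_inv_eq_one, mul_inv_eq_iff_eq_mul] at h2
  exact h2

/-- The value of a letter. -/
def lv (x : V × Bool) : RAAG Γ := if x.2 then gen Γ x.1 else (gen Γ x.1)⁻¹

theorem lv_comm {x y : V × Bool} (h : Γ.Adj x.1 y.1) : Commute (lv Γ x) (lv Γ y) := by
  have := gen_comm Γ h
  unfold lv
  split_ifs
  · exact this
  · exact this.inv_right
  · exact this.inv_left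
  · exact this.inv_inv

/-- The value of a word. -/
def val (L : List (V × Bool)) : RAAG Γ := (L.map (lv Γ)).prod

theorem val_nil : val Γ [] = 1 := rfl

theorem val_cons (x : V × Bool) (L : List (V × Bool)) : val Γ (x :: L) = lv Γ x * val Γ L := by
  simp [val]

theorem val_append (L L' : List (V × Bool)) : val Γ (L ++ L') = val Γ L * val Γ L' := by
  simp [val]

theorem val_surjective : Function.Surjective (val Γ) := by
  intro g
  obtain ⟨x, rfl⟩ := PresentedGroup.mk_surjective _ g
  obtain ⟨L, rfl⟩ := Quot.exists_rep x
  refine ⟨L, ?_⟩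
  induction L with
  | nil => rfl
  | cons y L ih =>
    rw [val_cons, ih]
    have h1 : (Quot.mk FreeGroup.Red.Step (y :: L) : FreeGroup V) =
        FreeGroup.mk [y] * FreeGroup.mk L := by
      rw [FreeGroup.mul_mk]
      rfl
    have h2 : PresentedGroup.mk (raagRels Γ) (FreeGroup.mk [y]) = lv Γ y := by
      obtain ⟨v, b⟩ := y
      cases b
      · show _ = (gen Γ v)⁻¹
        have : (FreeGroup.mk [(v, false)] : FreeGroup V) = (FreeGroup.of v)⁻¹ := by
          rw [FreeGroup.of, FreeGroup.inv_mk]
          rfl
        rw [this, map_inv]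
        rfl
      · rfl
    rw [h1, map_mul, h2]
    rfl

theorem val_comm_letter (x : V × Bool) (L : List (V × Bool)) (h : ∀ y ∈ L, Γ.Adj x.1 y.1) :
    Commute (lv Γ x) (val Γ L) := by
  induction L with
  | nil => exact Commute.one_right _
  | cons y L ih =>
    rw [val_cons]
    exact (lv_comm Γ (h y List.mem_cons_self)).mul_right
      (ih fun z hz => h z (List.mem_cons_of_mem _ hz))

theorem lv_not (x : V × Bool) : lv Γ x * lv Γ (x.1, !x.2) = 1 := by
  obtain ⟨v, b⟩ := x
  cases b <;> simp [lv]

/-- The expansion of a word. -/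
def ex (L : List (V × Bool)) : List (V × Bool) := L.flatMap fun x => [x, (x.1, !x.2)]

theorem ex_nil : ex ([] : List (V × Bool)) = [] := rfl

theorem ex_cons (x : V × Bool) (L : List (V × Bool)) :
    ex (x :: L) = x :: (x.1, !x.2) :: ex L := rfl

theorem ex_length (L : List (V × Bool)) : (ex L).length = 2 * L.length := by
  induction L with
  | nil => rfl
  | cons x L ih =>
    rw [ex_cons, List.length_cons, List.length_cons, ih, List.length_cons]
    ring

/-- Minimal words. -/
def IsMin (L : List (V × Bool)) : Prop := ∀ L', val Γ L' = val Γ L → L.length ≤ L'.length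

theorem exists_isMin (g : RAAG Γ) : ∃ L, val Γ L = g ∧ IsMin Γ L := by
  classical
  have h : ∃ n, ∃ L, val Γ L = g ∧ L.length = n := by
    obtain ⟨L, hL⟩ := val_surjective Γ g
    exact ⟨_, L, hL, rfl⟩
  obtain ⟨L, hL, hn⟩ := Nat.find_spec h
  refine ⟨L, hL, fun L' hL' => ?_⟩
  rw [hn]
  exact Nat.find_min' h ⟨L', hL'.trans hL, rfl⟩

theorem IsMin.tail {x : V × Bool} {L : List (V × Bool)} (h : IsMin Γ (x :: L)) : IsMin Γ L := by
  intro L' hL'
  have := h (x :: L') (by rw [val_cons, val_cons, hL'])
  simpa using this

/-- A minimal word contains no pair of letters which cancel after commutation. -/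
theorem IsMin.no_cancel {x : V × Bool} {L2 L3 : List (V × Bool)}
    (h : IsMin Γ (x :: (L2 ++ (x.1, !x.2) :: L3))) (hadj : ∀ y ∈ L2, Γ.Adj x.1 y.1) : False := by
  have h1 := h (L2 ++ L3) (by
    rw [val_append, val_cons, val_append, val_cons, ← mul_assoc,
      (val_comm_letter Γ x L2 hadj).eq, mul_assoc, ← mul_assoc (lv Γ x), lv_not, one_mul])
  simp at h1

open scoped Classical in
/-- The reading of letters. -/
noncomputable def act (st : RAAG Γ × (V → Bool)) (c : V × Bool) : RAAG Γ × (V → Bool) :=
  (if c.2 then st.1 * lv Γ (c.1, st.2 c.1) else st.1, Function.update st.2 c.1 (!st.2 c.1))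

theorem act_comm (st : RAAG Γ × (V → Bool)) {c d : V × Bool} (h : Γ.Adj c.1 d.1) :
    act Γ (act Γ st c) d = act Γ (act Γ st d) c := by
  classical
  have hne : c.1 ≠ d.1 := h.ne
  have hcomm := (lv_comm Γ (x := (c.1, st.2 c.1)) (y := (d.1, st.2 d.1)) h).eq
  unfold act
  refine Prod.ext ?_ ?_
  · simp only [Function.update_of_ne hne, Function.update_of_ne hne.symm]
    split_ifs
    · rw [mul_assoc, mul_assoc, hcomm]
    · rfl
    · rfl
    · rfl
  · simp only [Function.update_of_ne hne, Function.update_of_ne hne.symm]
    exact Function.update_comm hne _ _ _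

theorem foldl_act_ex (g : RAAG Γ) (L : List (V × Bool)) :
    (ex L).foldl (act Γ) (g, fun _ => true) = (g * val Γ L, fun _ => true) := by
  classical
  induction L generalizing g with
  | nil => simp [ex_nil, val_nil]
  | cons x L ih =>
    rw [ex_cons, List.foldl_cons, List.foldl_cons]
    have : act Γ (act Γ (g, fun _ => true) x) (x.1, !x.2) = (g * lv Γ x, fun _ => true) := by
      obtain ⟨v, b⟩ := x
      unfold act
      refine Prod.ext ?_ ?_
      · cases b <;> simp
      · funext w
        by_cases hw : w = v
        · subst hw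
          simp
        · simp [Function.update_of_ne hw]
    rw [this, ih, val_cons, mul_assoc]

theorem foldl_act_move (st : RAAG Γ × (V → Bool)) (c : V × Bool) (w w' : List (V × Bool))
    (h : ∀ d ∈ w, Γ.Adj c.1 d.1) :
    (w ++ c :: w').foldl (act Γ) st = (c :: (w ++ w')).foldl (act Γ) st := by
  induction w generalizing st with
  | nil => rfl
  | cons d w ih =>
    rw [List.cons_append, List.foldl_cons, ih _ fun e he => h e (List.mem_cons_of_mem _ he),
      List.foldl_cons, List.foldl_cons, List.cons_append, List.foldl_cons,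
      act_comm Γ st (h d List.mem_cons_self)]


/-- The index type of the projections. -/
abbrev PI : Type u := {q : (V × Bool) × (V × Bool) // ¬ Γ.Adj q.1.1 q.2.1}

/-- The monoid of projections. -/
abbrev PM : Type u := PI Γ → FreeMonoid (V × Bool)

open scoped Classical in
/-- The image of a letter in the monoid of projections. -/
noncomputable def pm (c : V × Bool) : PM Γ :=
  fun q => if c = q.1.1 ∨ c = q.1.2 then FreeMonoid.of c else 1

/-- The image of a word. -/
noncomputable def pw (w : List (V × Bool)) : PM Γ := (w.map (pm Γ)).prod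

theorem pw_nil : pw Γ [] = 1 := rfl

theorem pw_cons (c : V × Bool) (w : List (V × Bool)) : pw Γ (c :: w) = pm Γ c * pw Γ w := by
  simp [pw]

open scoped Classical in
theorem pw_toList (w : List (V × Bool)) (q : PI Γ) :
    FreeMonoid.toList (pw Γ w q) = w.filter (fun x => x = q.1.1 ∨ x = q.1.2) := by
  induction w with
  | nil => rfl
  | cons c w ih =>
    rw [pw_cons, Pi.mul_apply, FreeMonoid.toList_mul, ih, List.filter_cons]
    unfold pm
    split_ifs with h1 h2 h2
    · rfl
    · exact absurd (by simpa using h1) h2
    · exact absurd (by simpa using h2) h1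
    · rfl

theorem pm_comm {c d : V × Bool} (h : Γ.Adj c.1 d.1) : pm Γ c * pm Γ d = pm Γ d * pm Γ c := by
  classical
  funext q
  rw [Pi.mul_apply, Pi.mul_apply]
  unfold pm
  split_ifs with h1 h2 h2
  · exfalso
    have hcd : c ≠ d := fun e => Γ.loopless.irrefl d.1 (e ▸ h)
    apply q.2
    rcases h1 with h1 | h1 <;> rcases h2 with h2 | h2
    · exact absurd (h1.trans h2.symm) hcd
    · rw [← h1, ← h2]; exact h
    · rw [← h1, ← h2]; exact h.symm
    · exact absurd (h1.trans h2.symm) hcd
  · rw [mul_one, one_mul]
  · rw [mul_one, one_mul]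
  · rfl

theorem exists_first {α : Type*} {c : α} {l : List α} (h : c ∈ l) :
    ∃ s t, l = s ++ c :: t ∧ c ∉ s := by
  classical
  induction l with
  | nil => exact absurd h List.not_mem_nil
  | cons d l ih =>
    by_cases hd : d = c
    · exact ⟨[], l, by rw [hd]; rfl, List.not_mem_nil⟩
    · have hc : c ∈ l := by
        rcases List.mem_cons.mp h with h | h
        · exact absurd h.symm hd
        · exact h
      obtain ⟨s, t, h1, h2⟩ := ih hc
      refine ⟨d :: s, t, by rw [h1]; rfl, ?_⟩
      rw [List.mem_cons, not_or]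
      exact ⟨fun h => hd h.symm, h2⟩

/-- The projection lemma. -/
theorem pw_foldl (w w' : List (V × Bool)) (h : pw Γ w = pw Γ w') (st : RAAG Γ × (V → Bool)) :
    w.foldl (act Γ) st = w'.foldl (act Γ) st := by
  classical
  induction w generalizing w' st with
  | nil =>
    cases w' with
    | nil => rfl
    | cons d w' =>
      exfalso
      have h1 := congrArg FreeMonoid.toList (congrFun h ⟨(d, d), Γ.loopless.irrefl d.1⟩)
      rw [pw_toList, pw_toList] at h1
      simp at h1
  | cons c w ih =>
    have hc : c ∈ w' := by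
      have h1 := congrArg FreeMonoid.toList (congrFun h ⟨(c, c), Γ.loopless.irrefl c.1⟩)
      rw [pw_toList, pw_toList] at h1
      have h2 : c ∈ (c :: w).filter (fun x => x = c ∨ x = c) := by simp
      have h3 : c ∈ w'.filter (fun x => x = c ∨ x = c) := by
        rw [← h1]
        exact h2
      exact (List.mem_filter.mp h3).1
    obtain ⟨s, t, hst, hcs⟩ := exists_first hc
    subst hst
    have hadj : ∀ d ∈ s, Γ.Adj c.1 d.1 := by
      intro d hd
      by_contra hnadj
      have h1 := congrArg FreeMonoid.toList (congrFun h ⟨(c, d), hnadj⟩)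
      rw [pw_toList, pw_toList, List.filter_append, List.filter_cons] at h1
      simp only [true_or, decide_true, if_true] at h1
      have hd' : d ∈ s.filter (fun x => x = c ∨ x = d) := by
        rw [List.mem_filter]
        exact ⟨hd, by simp⟩
      cases hs : s.filter (fun x => x = c ∨ x = d) with
      | nil => rw [hs] at hd'; exact List.not_mem_nil hd'
      | cons e s' =>
        rw [hs, List.cons_append] at h1
        have he : c = e := (List.cons.inj h1).1
        apply hcs
        have : e ∈ s.filter (fun x => x = c ∨ x = d) := by rw [hs]; exact List.mem_cons_self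
        rw [he]
        rw [he] at this
        exact (List.mem_filter.mp this).1
    have hmove : ∀ s : List (V × Bool), (∀ d ∈ s, Γ.Adj c.1 d.1) →
        pw Γ (s ++ c :: t) = pm Γ c * pw Γ (s ++ t) := by
      intro s
      induction s with
      | nil => intro _; rw [List.nil_append, pw_cons, List.nil_append]
      | cons d s ihs =>
        intro hs
        rw [List.cons_append, pw_cons, ihs fun e he => hs e (List.mem_cons_of_mem _ he),
          List.cons_append, pw_cons, ← mul_assoc, ← mul_assoc,
          pm_comm Γ (hs d List.mem_cons_self)]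
    rw [hmove s hadj, pw_cons] at h
    have h2 := mul_left_cancel h
    rw [foldl_act_move Γ st c s t hadj, List.foldl_cons, List.foldl_cons]
    exact ih _ h2 _

/-- The trace of the expansion of a word determines the group element. -/
theorem val_eq_of_pw {L L' : List (V × Bool)} (h : pw Γ (ex L) = pw Γ (ex L')) :
    val Γ L = val Γ L' := by
  have h1 := pw_foldl Γ _ _ h (1, fun _ => true)
  rw [foldl_act_ex, foldl_act_ex, one_mul, one_mul] at h1
  exact congrArg Prod.fst h1

open scoped Classical in
/-- The next state. -/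
noncomputable def nextS (c : V × Bool) (D : Finset (V × Bool)) : Finset (V × Bool) :=
  insert c (D.filter fun d => Γ.Adj c.1 d.1)

open scoped Classical in
/-- Run the machine. -/
noncomputable def run : List (V × Bool) → Finset (V × Bool) → Option (Finset (V × Bool))
  | [], D => some D
  | c :: w, D => (run w D).bind fun D1 => if c ∈ D1 then none else some (nextS Γ c D1)

theorem run_mem (w : List (V × Bool)) (D : Finset (V × Bool)) (h : run Γ w ∅ = some D)
    (c : V × Bool) (hc : c ∈ D) : ∃ s t, w = s ++ c :: t ∧ ∀ d ∈ s, Γ.Adj c.1 d.1 := by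
  classical
  induction w generalizing D with
  | nil =>
    simp only [run, Option.some.injEq] at h
    rw [← h] at hc
    exact absurd hc (Finset.notMem_empty _)
  | cons d w ih =>
    simp only [run, Option.bind_eq_some_iff] at h
    obtain ⟨D1, h1, h2⟩ := h
    split_ifs at h2 with h3
    simp only [Option.some.injEq] at h2
    rw [← h2, nextS, Finset.mem_insert] at hc
    rcases hc with hc | hc
    · exact ⟨[], w, by rw [hc]; rfl, fun e he => absurd he List.not_mem_nil⟩
    · obtain ⟨hc1, hc2⟩ := Finset.mem_filter.mp hc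
      obtain ⟨s, t, hst, hs⟩ := ih D1 h1 hc1
      refine ⟨d :: s, t, by rw [hst]; rfl, ?_⟩
      intro e he
      rcases List.mem_cons.mp he with he | he
      · rw [he]; exact hc2.symm
      · exact hs e he

/-- In the expansion of a word, a letter preceded by adjacent letters is the first of its pair. -/
theorem ex_split (c : V × Bool) (L : List (V × Bool)) (s t : List (V × Bool))
    (h : ex L = s ++ c :: t) (hs : ∀ d ∈ s, Γ.Adj c.1 d.1) :
    ∃ L2 L3, L = L2 ++ c :: L3 ∧ ∀ d ∈ L2, Γ.Adj c.1 d.1 := by
  induction L generalizing s with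
  | nil => simp [ex_nil] at h
  | cons x L ih =>
    rw [ex_cons] at h
    match s, h, hs with
    | [], h, _ =>
      rw [List.nil_append] at h
      exact ⟨[], L, by rw [(List.cons.inj h).1]; rfl, fun e he => absurd he List.not_mem_nil⟩
    | [y], h, hs =>
      exfalso
      rw [List.singleton_append] at h
      obtain ⟨h1, h2⟩ := List.cons.inj h
      have h3 := (List.cons.inj h2).1
      have h4 := hs y List.mem_cons_self
      rw [← h1, ← h3] at h4
      exact Γ.loopless.irrefl _ h4
    | y :: y' :: s', h, hs =>
      rw [List.cons_append, List.cons_append] at h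
      obtain ⟨h1, h2⟩ := List.cons.inj h
      obtain ⟨h3, h4⟩ := List.cons.inj h2
      obtain ⟨L2, L3, hL, hadj⟩ := ih s' h4
        fun d hd => hs d (List.mem_cons_of_mem _ (List.mem_cons_of_mem _ hd))
      refine ⟨x :: L2, L3, by rw [hL]; rfl, ?_⟩
      intro d hd
      rcases List.mem_cons.mp hd with hd | hd
      · rw [hd, h1]; exact hs y List.mem_cons_self
      · exact hadj d hd

/-- The machine does not stop on the expansion of a minimal word. -/
theorem run_isMin (L : List (V × Bool)) (hL : IsMin Γ L) : ∃ D, run Γ (ex L) ∅ = some D := by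
  classical
  induction L with
  | nil => exact ⟨∅, rfl⟩
  | cons x L ih =>
    obtain ⟨D, hD⟩ := ih hL.tail
    have h1 : (x.1, !x.2) ∉ D := by
      intro hx
      obtain ⟨s, t, hst, hs⟩ := run_mem Γ _ _ hD _ hx
      obtain ⟨L2, L3, hL', hadj⟩ := ex_split Γ _ _ _ _ hst hs
      rw [hL'] at hL
      exact IsMin.no_cancel Γ hL hadj
    have h2 : x ∉ nextS Γ (x.1, !x.2) D := by
      rw [nextS, Finset.mem_insert, not_or]
      refine ⟨fun h => ?_, fun h => ?_⟩
      · have := congrArg Prod.snd h
        simp at this
      · exact Γ.loopless.irrefl _ (Finset.mem_filter.mp h).2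
    refine ⟨nextS Γ x (nextS Γ (x.1, !x.2) D), ?_⟩
    rw [ex_cons, run, run, hD]
    simp [h1, h2]

end Words

end Pool.Agent.N506.EX
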