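import Mathlib

/-!
# Right-angled Artin groups
-/

namespace Pool.Agent.N506.EX

universe u

/-- The commutation relations of a graph. -/
def raagRels {V : Type u} (Γ : SimpleGraph V) : Set (FreeGroup V) :=
  {r | ∃ v w, Γ.Adj v w ∧ 
    r = FreeGroup.of v * FreeGroup.of w * (FreeGroup.of v)⁻¹ * (FreeGroup.of w)⁻¹}

/-- The right-angled Artin group of a graph: one generator for each vertex, two generators
commute when their vertices are adjacent. -/
abbrev RAAG {V : Type u} (Γ : SimpleGraph V) : Type u := PresentedGroup (raagRels Γ)

end Pool.Agent.N506.EX
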