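import Pool.Agent.N506.EXI

/-!
# Group algebras of right-angled Artin groups embed in matrix rings
-/

namespace Pool.Agent.N506.EX

universe u

section Rep

variable (k : Type u) [Field k] {V : Type u} [Fintype V] (Γ : SimpleGraph V)

/-- The coefficient ring. -/
abbrev AR : Type u := MonoidAlgebra k (PM Γ)

/-- The matrix ring. -/
abbrev MR : Type u := Matrix (Finset (V × Bool)) (Finset (V × Bool)) (AR k Γ)

open scoped Classical in
noncomputable instance : Fintype (Finset (V × Bool)) := inferInstance

open scoped Classical in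
noncomputable instance : DecidableEq (Finset (V × Bool)) := inferInstance

open scoped Classical in
/-- The nilpotent matrix of a letter. -/
noncomputable def EE (c : V × Bool) : MR k Γ :=
  Matrix.of fun D' D => if c ∉ D ∧ D' = nextS Γ c D then MonoidAlgebra.single (pm Γ c) (1 : k) else 0

open scoped Classical in
theorem EE_mul (c : V × Bool) (M : MR k Γ) (D' D : Finset (V × Bool)) :
    (EE k Γ c * M) D' D = ∑ D1, if c ∉ D1 ∧ D' = nextS Γ c D1 then
      MonoidAlgebra.single (pm Γ c) (1 : k) * M D1 D else 0 := by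
  rw [Matrix.mul_apply]
  refine Finset.sum_congr rfl fun D1 _ => ?_
  simp only [EE, Matrix.of_apply]
  split_ifs
  · rfl
  · rw [zero_mul]

open scoped Classical in
theorem EE_mul_EE (c d : V × Bool) (D' D : Finset (V × Bool)) :
    (EE k Γ c * EE k Γ d) D' D = if d ∉ D ∧ c ∉ nextS Γ d D ∧ D' = nextS Γ c (nextS Γ d D) then
      MonoidAlgebra.single (pm Γ c * pm Γ d) (1 : k) else 0 := by
  rw [EE_mul, Finset.sum_eq_single (nextS Γ d D)]
  · simp only [EE, Matrix.of_apply]
    by_cases h1 : d ∉ D
    · by_cases h2 : c ∉ nextS Γ d D ∧ D' = nextS Γ c (nextS Γ d D)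
      · rw [if_pos h2, if_pos ⟨h1, trivial⟩, if_pos ⟨h1, h2⟩, MonoidAlgebra.single_mul_single, one_mul]
      · rw [if_neg h2, if_neg (fun h => h2 h.2)]
    · rw [if_neg (fun h : d ∉ D ∧ _ => h1 h.1), mul_zero, ite_self, if_neg (fun h => h1 h.1)]
  · intro D1 _ hD1
    simp only [EE, Matrix.of_apply]
    rw [if_neg (fun h : d ∉ D ∧ D1 = nextS Γ d D => hD1 h.2), mul_zero, ite_self]
  · intro h
    exact absurd (Finset.mem_univ _) h

theorem EE_sq (c : V × Bool) : EE k Γ c * EE k Γ c = 0 := by
  classical
  ext D' D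
  rw [EE_mul_EE, if_neg]
  · rfl
  · rintro ⟨-, h, -⟩
    exact h (Finset.mem_insert_self _ _)

theorem EE_comm {c d : V × Bool} (h : Γ.Adj c.1 d.1) : Commute (EE k Γ c) (EE k Γ d) := by
  classical
  have hcd : c ≠ d := fun e => Γ.loopless.irrefl d.1 (e ▸ h)
  ext D' D
  rw [EE_mul_EE, EE_mul_EE, pm_comm Γ h]
  have h1 : (d ∉ D ∧ c ∉ nextS Γ d D ∧ D' = nextS Γ c (nextS Γ d D)) ↔
      (c ∉ D ∧ d ∉ nextS Γ c D ∧ D' = nextS Γ d (nextS Γ c D)) := by
    have e1 : c ∉ nextS Γ d D ↔ c ∉ D := by
      rw [nextS, Finset.mem_insert, Finset.mem_filter]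
      constructor
      · intro h' hc
        exact h' (Or.inr ⟨hc, h.symm⟩)
      · rintro h' (h'' | h'')
        · exact hcd h''
        · exact h' h''.1
    have e2 : d ∉ nextS Γ c D ↔ d ∉ D := by
      rw [nextS, Finset.mem_insert, Finset.mem_filter]
      constructor
      · intro h' hc
        exact h' (Or.inr ⟨hc, h⟩)
      · rintro h' (h'' | h'')
        · exact hcd h''.symm
        · exact h' h''.1
    have e3 : nextS Γ c (nextS Γ d D) = nextS Γ d (nextS Γ c D) := by
      ext x
      simp only [nextS, Finset.mem_insert, Finset.mem_filter]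
      constructor
      · rintro (rfl | ⟨rfl | ⟨hx, h1⟩, h2⟩)
        · exact Or.inr ⟨Or.inl rfl, h.symm⟩
        · exact Or.inl rfl
        · exact Or.inr ⟨Or.inr ⟨hx, h2⟩, h1⟩
      · rintro (rfl | ⟨rfl | ⟨hx, h1⟩, h2⟩)
        · exact Or.inr ⟨Or.inl rfl, h⟩
        · exact Or.inl rfl
        · exact Or.inr ⟨Or.inr ⟨hx, h2⟩, h1⟩
    rw [e1, e2, e3]
    tauto
  simp only [h1]

/-- The unipotent unit of a letter. -/
noncomputable def UU (c : V × Bool) : (MR k Γ)ˣ where
  val := 1 + EE k Γ c
  inv := 1 - EE k Γ c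
  val_inv := by
    rw [mul_sub, mul_one, add_mul, one_mul, EE_sq]
    abel
  inv_val := by
    rw [sub_mul, one_mul, mul_add, mul_one, EE_sq]
    abel

theorem UU_comm {c d : V × Bool} (h : Γ.Adj c.1 d.1) : Commute (UU k Γ c) (UU k Γ d) := by
  apply Units.ext
  show (1 + EE k Γ c) * (1 + EE k Γ d) = (1 + EE k Γ d) * (1 + EE k Γ c)
  exact ((Commute.one_left _).add_left ((Commute.one_right _).add_right (EE_comm k Γ h))).eq

/-- The representation. -/
noncomputable def rho : RAAG Γ →* (MR k Γ)ˣ :=
  PresentedGroup.toGroup (f := fun v => UU k Γ (v, true) * UU k Γ (v, false)) (by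
    rintro r ⟨v, w, h, rfl⟩
    rw [map_mul, map_mul, map_mul, map_inv, map_inv, FreeGroup.lift_apply_of,
      FreeGroup.lift_apply_of]
    have h1 : Commute (UU k Γ (v, true) * UU k Γ (v, false))
        (UU k Γ (w, true) * UU k Γ (w, false)) :=
      ((UU_comm k Γ (c := (v, true)) (d := (w, true)) h).mul_right
        (UU_comm k Γ (c := (v, true)) (d := (w, false)) h)).mul_left
      ((UU_comm k Γ (c := (v, false)) (d := (w, true)) h).mul_right
        (UU_comm k Γ (c := (v, false)) (d := (w, false)) h))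
    rw [h1.eq, mul_inv_cancel_right, mul_inv_cancel])

theorem rho_gen (v : V) : rho k Γ (gen Γ v) = UU k Γ (v, true) * UU k Γ (v, false) :=
  PresentedGroup.toGroup.of _

/-- The sign of a letter. -/
def sgn (b : Bool) : ℤ := if b then 1 else -1

/-- The product of the matrices of a signed word. -/
noncomputable def TT (K : List (ℤ × (V × Bool))) : MR k Γ :=
  (K.map fun x => 1 + x.1 • EE k Γ x.2).prod

theorem TT_cons (x : ℤ × (V × Bool)) (K : List (ℤ × (V × Bool))) :
    TT k Γ (x :: K) = TT k Γ K + x.1 • (EE k Γ x.2 * TT k Γ K) := by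
  rw [TT, List.map_cons, List.prod_cons, add_mul, one_mul, smul_mul_assoc]
  rfl

/-- The signed expansion of a word. -/
def sx (L : List (V × Bool)) : List (ℤ × (V × Bool)) :=
  L.flatMap fun x => [(sgn x.2, x), (sgn x.2, (x.1, !x.2))]

theorem sx_map_snd (L : List (V × Bool)) : (sx L).map Prod.snd = ex L := by
  induction L with
  | nil => rfl
  | cons x L ih =>
    rw [ex_cons, ← ih]
    rfl

theorem rho_val (L : List (V × Bool)) : (rho k Γ (val Γ L) : MR k Γ) = TT k Γ (sx L) := by
  induction L with
  | nil =>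
    rw [val_nil, map_one]
    rfl
  | cons x L ih =>
    have h1 : TT k Γ (sx (x :: L)) = (1 + sgn x.2 • EE k Γ x) *
        ((1 + sgn x.2 • EE k Γ (x.1, !x.2)) * TT k Γ (sx L)) := rfl
    rw [val_cons, map_mul, Units.val_mul, ih, h1, ← mul_assoc]
    congr 1
    obtain ⟨v, b⟩ := x
    cases b
    · have : lv Γ (v, false) = (gen Γ v)⁻¹ := rfl
      rw [this, map_inv, rho_gen, mul_inv_rev, Units.val_mul]
      show (1 - EE k Γ (v, false)) * (1 - EE k Γ (v, true)) = _
      simp [sgn, sub_eq_add_neg]
    · have : lv Γ (v, true) = gen Γ v := rfl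
      rw [this, rho_gen, Units.val_mul]
      show (1 + EE k Γ (v, true)) * (1 + EE k Γ (v, false)) = _
      simp [sgn]

/-- The size of a trace. -/
noncomputable def size (m : PM Γ) : ℕ :=
  ∑ c : V × Bool, (m ⟨(c, c), Γ.loopless.irrefl c.1⟩).length

theorem size_mul (m m' : PM Γ) : size Γ (m * m') = size Γ m + size Γ m' := by
  rw [size, size, size, ← Finset.sum_add_distrib]
  exact Finset.sum_congr rfl fun c _ => by rw [Pi.mul_apply, FreeMonoid.length_mul]

theorem size_pm (c : V × Bool) : size Γ (pm Γ c) = 1 := by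
  classical
  rw [size, Finset.sum_eq_single c]
  · simp [pm]
  · intro d _ hd
    simp [pm, hd.symm]
  · intro h
    exact absurd (Finset.mem_univ _) h

theorem size_pw (w : List (V × Bool)) : size Γ (pw Γ w) = w.length := by
  induction w with
  | nil =>
    rw [pw_nil, size]
    exact Finset.sum_eq_zero fun c _ => rfl
  | cons c w ih =>
    rw [pw_cons, size_mul, size_pm, ih, List.length_cons, add_comm]

open scoped Classical in
/-- The leading coefficients of the matrix of a signed word. -/
theorem TT_coeff (K : List (ℤ × (V × Bool))) (m : PM Γ) (hm : K.length ≤ size Γ m)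
    (D' D : Finset (V × Bool)) :
    (TT k Γ K D' D).coeff m =
      if m = pw Γ (K.map Prod.snd) ∧ run Γ (K.map Prod.snd) D = some D' then
        (((K.map Prod.fst).prod : ℤ) : k) else 0 := by
  induction K generalizing m D' with
  | nil =>
    rw [TT, List.map_nil, List.prod_nil, List.map_nil, pw_nil, run, List.map_nil, List.prod_nil,
      Matrix.one_apply]
    by_cases h1 : D' = D
    · subst h1
      by_cases h2 : m = 1
      · subst h2
        simp [MonoidAlgebra.one_def]
      · rw [if_pos rfl, if_neg (fun h => h2 h.1), MonoidAlgebra.one_def,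
          MonoidAlgebra.coeff_single, Finsupp.single_eq_of_ne h2]
    · rw [if_neg h1, if_neg]
      · rfl
      · rintro ⟨-, h⟩
        exact h1 (Option.some.inj h).symm
  | cons x K ih =>
    rw [List.length_cons] at hm
    rw [TT_cons, Matrix.add_apply, Matrix.smul_apply, MonoidAlgebra.coeff_add, Finsupp.add_apply,
      ih m (by omega), if_neg (c := m = _ ∧ _), zero_add]
    swap
    · rintro ⟨h, -⟩
      rw [h, size_pw, List.length_map] at hm
      omega
    rw [EE_mul, MonoidAlgebra.coeff_smul, Finsupp.smul_apply, MonoidAlgebra.coeff_sum,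
      Finsupp.finsetSum_apply]
    rw [List.map_cons, List.map_cons, List.prod_cons, pw_cons, run]
    -- the terms of the sum
    have hterm : ∀ D1 : Finset (V × Bool),
        ((if x.2 ∉ D1 ∧ D' = nextS Γ x.2 D1 then
          MonoidAlgebra.single (pm Γ x.2) (1 : k) * TT k Γ K D1 D else 0 : AR k Γ)).coeff m =
        if (x.2 ∉ D1 ∧ D' = nextS Γ x.2 D1) ∧ m = pm Γ x.2 * pw Γ (K.map Prod.snd) ∧
          run Γ (K.map Prod.snd) D = some D1 then (((K.map Prod.fst).prod : ℤ) : k) else 0 := by
      intro D1
      by_cases h1 : x.2 ∉ D1 ∧ D' = nextS Γ x.2 D1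
      · rw [if_pos h1]
        by_cases h2 : ∃ m', m = pm Γ x.2 * m'
        · obtain ⟨m', rfl⟩ := h2
          rw [MonoidAlgebra.coeff_single_mul_mul, one_mul, ih m' (by
            rw [size_mul, size_pm] at hm
            omega)]
          by_cases h3 : m' = pw Γ (K.map Prod.snd)
          · subst h3
            simp [h1]
          · rw [if_neg (fun h => h3 h.1), if_neg]
            rintro ⟨-, h, -⟩
            exact h3 (mul_left_cancel h)
        · rw [MonoidAlgebra.coeff_single_mul_of_forall_mul_ne, if_neg]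
          · rintro ⟨-, h, -⟩
            exact h2 ⟨_, h⟩
          · intro d hd
            exact h2 ⟨d, hd.symm⟩
      · rw [if_neg h1, if_neg (fun h => h1 h.1)]
        rfl
    rw [Finset.sum_congr rfl fun D1 _ => hterm D1]
    cases hrun : run Γ (K.map Prod.snd) D with
    | none => simp
    | some D0 =>
      rw [Finset.sum_eq_single D0]
      · simp only [Option.bind_some]
        by_cases h4 : x.2 ∈ D0
        · simp [h4]
        · by_cases h5 : D' = nextS Γ x.2 D0
          · by_cases h6 : m = pm Γ x.2 * pw Γ (K.map Prod.snd)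
            · simp [h4, h5, h6]
            · simp [h6]
          · have h5' : ¬ nextS Γ x.2 D0 = D' := fun h => h5 h.symm
            simp [h5, h5', h4]
      · intro D1 _ hD1
        rw [if_neg]
        rintro ⟨-, -, h⟩
        exact hD1 (Option.some.inj h).symm
      · intro h
        exact absurd (Finset.mem_univ _) h

theorem sx_sign_ne (L : List (V × Bool)) : ((((sx L).map Prod.fst).prod : ℤ) : k) ≠ 0 := by
  have h : (((sx L).map Prod.fst).prod : ℤ) = 1 ∨ (((sx L).map Prod.fst).prod : ℤ) = -1 := by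
    induction L with
    | nil => exact Or.inl rfl
    | cons x L ih =>
      have h1 : (((sx (x :: L)).map Prod.fst).prod : ℤ) =
          sgn x.2 * (sgn x.2 * ((sx L).map Prod.fst).prod) := rfl
      rw [h1]
      have h2 : sgn x.2 = 1 ∨ sgn x.2 = -1 := by
        unfold sgn
        split_ifs
        · exact Or.inl rfl
        · exact Or.inr rfl
      rcases h2 with h2 | h2 <;> rw [h2] <;> simpa using ih
  rcases h with h | h <;> rw [h] <;> simp

/-- The homomorphism of the group algebra. -/
noncomputable def rhoHom : MonoidAlgebra k (RAAG Γ) →ₐ[k] MR k Γ :=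
  MonoidAlgebra.lift k (MR k Γ) (RAAG Γ) ((Units.coeHom (MR k Γ)).comp (rho k Γ))

theorem rhoHom_injective : Function.Injective (rhoHom k Γ) := by
  classical
  rw [injective_iff_map_eq_zero]
  intro f hf
  by_contra hf0
  choose W hW hmin using exists_isMin Γ
  have hne : f.coeff.support.Nonempty := by
    rw [Finsupp.support_nonempty_iff]
    intro h
    exact hf0 (MonoidAlgebra.coeff_inj.mp h)
  obtain ⟨g, hg, hmax⟩ := Finset.exists_max_image f.coeff.support (fun g => (W g).length) hne
  obtain ⟨D', hD'⟩ := run_isMin Γ (W g) (hmin g)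
  have h1 : (rhoHom k Γ f) D' ∅ = 0 := by rw [hf]; rfl
  rw [rhoHom, MonoidAlgebra.lift_apply, Finsupp.sum, Matrix.sum_apply] at h1
  have h2 := congrArg (fun y : AR k Γ => y.coeff (pw Γ (ex (W g)))) h1
  simp only [MonoidAlgebra.coeff_sum, Finsupp.finsetSum_apply, Matrix.smul_apply,
    MonoidAlgebra.coeff_smul, Finsupp.smul_apply, MonoidAlgebra.coeff_zero,
    Finsupp.coe_zero, Pi.zero_apply] at h2
  have h3 : ∀ g' ∈ f.coeff.support, ((((Units.coeHom (MR k Γ)).comp (rho k Γ)) g' : MR k Γ)
      D' ∅).coeff (pw Γ (ex (W g))) =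
      if g' = g then ((((sx (W g)).map Prod.fst).prod : ℤ) : k) else 0 := by
    intro g' hg'
    have e : ((Units.coeHom (MR k Γ)).comp (rho k Γ)) g' = TT k Γ (sx (W g')) := by
      rw [← rho_val, hW]
      rfl
    have hlen : (sx (W g')).length ≤ size Γ (pw Γ (ex (W g))) := by
      rw [size_pw, ex_length, ← List.length_map (f := Prod.snd) (as := sx (W g')), sx_map_snd,
        ex_length]
      have := hmax g' hg'
      omega
    rw [e, TT_coeff k Γ _ _ hlen, sx_map_snd]
    by_cases hgg : g' = g
    · subst hgg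
      rw [if_pos ⟨rfl, hD'⟩, if_pos rfl]
    · rw [if_neg hgg, if_neg]
      rintro ⟨h, -⟩
      apply hgg
      rw [← hW g', ← hW g]
      exact (val_eq_of_pw Γ h).symm
  rw [Finset.sum_congr rfl fun g' hg' => by rw [h3 g' hg']] at h2
  simp only [smul_eq_mul, mul_ite, mul_zero] at h2
  rw [Finset.sum_ite_eq', if_pos hg] at h2
  rcases mul_eq_zero.mp h2 with h4 | h4
  · exact (Finsupp.mem_support_iff.mp hg) h4
  · exact sx_sign_ne k _ h4

end Rep

end Pool.Agent.N506.EX
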