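import Mathlib

/-!
# Poly-(torsion-free abelian) groups
-/

namespace Pool.Agent.N506.EX

universe u

/-- Groups which have a finite subnormal series with torsion-free abelian factors: the trivial
group, and the groups with a homomorphism to a torsion-free abelian group whose kernel has this
property. -/
inductive PolyTFA : ∀ (G : Type u) [Group G], Prop
  | triv (G : Type u) [Group G] [Subsingleton G] : PolyTFA G
  | ext (G : Type u) [Group G] (H : Type u) [CommGroup H] [IsMulTorsionFree H] (φ : G →* H)
      (h : PolyTFA φ.ker) : PolyTFA G

end Pool.Agent.N506.EX
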