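import Pool.Agent.N506.EXN

/-!
# Witness families on sets with a finite type adjacency
-/

namespace Pool.Agent.N506.EX

universe u v w

/-- Witness families on a set: `Adj` is the adjacency, `Sep x y` holds when the values at `x` and
`y` meet. -/
def WF {X : Type u} (Adj : X → X → Prop) (ε : ℝ) (Sep : X → X → Prop) : Prop :=
  ∃ (Ω : Type) (_ : Fintype Ω) (_ : Nonempty Ω) (Y : Type u) (a : X → Ω → Y),
    (∀ x y, Adj x y → ∃ (W : Finset Ω) (p : Ω → Ω), Set.InjOn p W ∧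
      (∀ w ∈ W, a x w = a y (p w)) ∧
      (1 - ε) * (Fintype.card Ω : ℝ) ≤ (W.card : ℝ)) ∧
    ∀ x y w w', a x w = a y w' → Sep x y

theorem WF.of {X : Type u} {Adj : X → X → Prop} {ε : ℝ} {Sep : X → X → Prop}
    (Ω : Type) [Fintype Ω] [Nonempty Ω] (Y : Type v) (a : X → Ω → Y)
    (h1 : ∀ x y, Adj x y → ∃ (W : Finset Ω) (p : Ω → Ω), Set.InjOn p W ∧
      (∀ w ∈ W, a x w = a y (p w)) ∧
      (1 - ε) * (Fintype.card Ω : ℝ) ≤ (W.card : ℝ))
    (h2 : ∀ x y w w', a x w = a y w' → Sep x y) : WF Adj ε Sep := by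
  let r : Setoid (X × Ω) := Setoid.ker (fun x : X × Ω => a x.1 x.2)
  refine ⟨Ω, inferInstance, inferInstance, Quotient r, fun g w => Quotient.mk r (g, w), ?_, ?_⟩
  · intro x y hxy
    obtain ⟨W, p, hp, hW, hc⟩ := h1 x y hxy
    exact ⟨W, p, hp, fun w hw => Quotient.sound (hW w hw), hc⟩
  · intro g h w w' hh
    exact h2 g h w w' (Quotient.exact hh)

theorem WF.mono {X : Type u} {Adj Adj' : X → X → Prop} {ε ε' : ℝ} {Sep Sep' : X → X → Prop}
    (h : WF Adj ε Sep) (hA : ∀ x y, Adj' x y → Adj x y) (hε : ε ≤ ε')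
    (hS : ∀ x y, Sep x y → Sep' x y) : WF Adj' ε' Sep' := by
  obtain ⟨Ω, _, _, Y, a, h1, h2⟩ := h
  refine ⟨Ω, inferInstance, inferInstance, Y, a, ?_, ?_⟩
  · intro x y hxy
    obtain ⟨W, p, hp, hW, hc⟩ := h1 x y (hA x y hxy)
    refine ⟨W, p, hp, hW, le_trans ?_ hc⟩
    have : (0:ℝ) ≤ Fintype.card Ω := Nat.cast_nonneg _
    nlinarith
  · intro x y w w' hh
    exact hS _ _ (h2 x y w w' hh)

/-- Add a label. -/
theorem WF.label {X : Type u} {Adj : X → X → Prop} {ε : ℝ} {Sep : X → X → Prop} {K : Type u}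
    (c : X → K) (hc : ∀ x y, Adj x y → c x = c y)
    (h : WF Adj ε (fun x y => c x = c y → Sep x y)) :
    WF Adj ε (fun x y => c x = c y ∧ Sep x y) := by
  obtain ⟨Ω, _, _, Y, a, h1, h2⟩ := h
  refine ⟨Ω, inferInstance, inferInstance, K × Y, fun x w => (c x, a x w), ?_, ?_⟩
  · intro x y hxy
    obtain ⟨W, p, hp, hW, hc'⟩ := h1 x y hxy
    exact ⟨W, p, hp, fun w hw => Prod.ext (hc x y hxy) (hW w hw), hc'⟩
  · intro x y w w' hh
    simp only [Prod.mk.injEq] at hh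
    exact ⟨hh.1, h2 x y w w' hh.2 hh.1⟩

/-- Fibering. -/
theorem WF.fib {X : Type u} {Adj : X → X → Prop} {ε : ℝ} (hε : 0 < ε) {Sep1 Sep : X → X → Prop}
    (h1 : WF Adj (ε / 2) Sep1)
    (h2 : ∀ (Z : Type u) (π : Z → X) (K : Type u) (κ : Z → K),
      (∀ z z', κ z = κ z' → Sep1 (π z) (π z')) →
      WF (fun z z' => Adj (π z) (π z') ∧ κ z = κ z') (ε / 2)
        (fun z z' => κ z = κ z' → Sep (π z) (π z'))) :
    WF Adj ε Sep := by
  classical
  obtain ⟨Ω, _, _, Y, a, k1, k2⟩ := h1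
  obtain ⟨Ω', _, _, Y', a', i1, i2⟩ := h2 (X × Ω) Prod.fst Y (fun z => a z.1 z.2)
    (fun z z' h => k2 _ _ _ _ h)
  refine ⟨Ω × Ω', inferInstance, inferInstance, Y × Y',
    fun x w => (a x w.1, a' (x, w.1) w.2), ?_, ?_⟩
  · intro x y hxy
    obtain ⟨W, p, hp, hW, hc⟩ := k1 x y hxy
    have hk : ∀ w ∈ W, ∃ (W' : Finset Ω') (p' : Ω' → Ω'), Set.InjOn p' W' ∧
        (∀ w' ∈ W', a' (x, w) w' = a' (y, p w) (p' w')) ∧
        (1 - ε / 2) * (Fintype.card Ω' : ℝ) ≤ (W'.card : ℝ) :=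
      fun w hw => i1 (x, w) (y, p w) ⟨hxy, hW w hw⟩
    choose! W' p' hp' hW' hc' using hk
    obtain ⟨V, hV1, hV2, hV3⟩ := fib_match hε W p hp hc W' p' hp' hc'
    refine ⟨V, _, hV2, ?_, hV3⟩
    rintro ⟨w, w'⟩ hw
    obtain ⟨hw1, hw2⟩ := (hV1 _).mp hw
    exact Prod.ext (hW w hw1) (hW' w hw1 w' hw2)
  · rintro x y ⟨w, w'⟩ ⟨v, v'⟩ hh
    simp only [Prod.mk.injEq] at hh
    exact i2 (x, w) (y, v) w' v' hh.2 hh.1

/-- Two separations at once. -/
theorem WF.prod {X : Type u} {Adj : X → X → Prop} {ε : ℝ} (hε : 0 < ε)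
    {Sep1 Sep2 : X → X → Prop}
    (h1 : WF Adj (ε / 2) Sep1) (h2 : WF Adj (ε / 2) Sep2) :
    WF Adj ε (fun x y => Sep1 x y ∧ Sep2 x y) := by
  classical
  obtain ⟨Ω, _, _, Y, a, k1, k2⟩ := h1
  obtain ⟨Ω', _, _, Y', a', i1, i2⟩ := h2
  refine ⟨Ω × Ω', inferInstance, inferInstance, Y × Y', fun x w => (a x w.1, a' x w.2), ?_, ?_⟩
  · intro x y hxy
    obtain ⟨W, p, hp, hW, hc⟩ := k1 x y hxy
    obtain ⟨W', p', hp', hW', hc'⟩ := i1 x y hxy
    obtain ⟨V, hV1, hV2, hV3⟩ := fib_match hε W p hp hc (fun _ => W') (fun _ => p')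
      (fun _ _ => hp') (fun _ _ => hc')
    refine ⟨V, _, hV2, ?_, hV3⟩
    rintro ⟨w, w'⟩ hw
    obtain ⟨hw1, hw2⟩ := (hV1 _).mp hw
    exact Prod.ext (hW w hw1) (hW' w' hw2)
  · rintro x y ⟨w, w'⟩ ⟨v, v'⟩ hh
    simp only [Prod.mk.injEq] at hh
    exact ⟨k2 _ _ _ _ hh.1, i2 _ _ _ _ hh.2⟩

/-- Finitely many separations at once. -/
theorem WF.pi {X : Type u} {Adj : X → X → Prop} {ι : Type w} (P : Finset ι)
    (Sep : ι → X → X → Prop) :
    (∀ i ∈ P, ∀ ε : ℝ, 0 < ε → WF Adj ε (Sep i)) → ∀ ε : ℝ, 0 < ε →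
      WF Adj ε (fun x y => ∀ i ∈ P, Sep i x y) := by
  classical
  induction P using Finset.induction_on with
  | empty =>
    intro _ ε hε
    refine WF.of Unit Unit (fun _ _ => ()) ?_ ?_
    · intro x y _
      refine ⟨Finset.univ, id, Function.injective_id.injOn, fun _ _ => rfl, ?_⟩
      simp
      linarith
    · intro x y _ _ _ i hi
      exact absurd hi (Finset.notMem_empty i)
  | insert i P hi ih =>
    intro h ε hε
    refine (WF.prod hε (h i (Finset.mem_insert_self _ _) (ε / 2) (by positivity))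
      (ih (fun j hj => h j (Finset.mem_insert_of_mem hj)) (ε / 2) (by positivity))).mono
      (fun _ _ h => h) le_rfl ?_
    rintro x y ⟨h1, h2⟩ j hj
    rcases Finset.mem_insert.mp hj with rfl | hj
    · exact h1
    · exact h2 j hj

/-- From groups. -/
theorem WF.of_wf {X : Type u} {G : Type v} [Group G] {Adj : X → X → Prop} {Sep : X → X → Prop}
    {F E : Set G} {ε : ℝ} (h : Wf G F ε Set.univ E) (q : X → G)
    (h1 : ∀ x y, Adj x y → (q x)⁻¹ * q y ∈ F)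
    (h2 : ∀ x y, (q x)⁻¹ * q y ∈ E → Sep x y) : WF Adj ε Sep := by
  obtain ⟨Ω, _, _, Y, a, k1, k2⟩ := h
  refine WF.of Ω Y (fun x w => a (q x) w) ?_ ?_
  · intro x y hxy
    obtain ⟨W, p, hp, hW, hc⟩ := k1 (q x) _ (h1 x y hxy)
    refine ⟨W, p, hp, fun w hw => ?_, hc⟩
    rw [hW w hw, mul_inv_cancel_left]
  · intro x y w w' hh
    exact h2 x y (k2 _ _ _ _ hh trivial)

/-- A system of matrices over `R`: windows `W ℓ` and a cocycle `A` on the components of `c`, with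
good properties below the level `d`. -/
structure Sys (R : Type u) [Ring R] (d : ℕ) {X K B : Type u} (c : X → K) (W : ℕ → Finset B)
    (A : X → X → B → B → R) : Prop where
  mono : ∀ ℓ, W ℓ ⊆ W (ℓ + 1)
  supp : ∀ ℓ, ℓ < d → ∀ x y, c x = c y → ∀ β ∈ W ℓ, ∀ γ, γ ∉ W (ℓ + 1) → A x y γ β = 0
  refl : ∀ ℓ, ℓ < d → ∀ x, ∀ β ∈ W ℓ, A x x β β = 1 ∧ ∀ γ, γ ≠ β → A x x γ β = 0
  mul : ∀ ℓ, ℓ + 1 < d → ∀ x y z, c x = c y → c y = c z → ∀ β ∈ W ℓ, ∀ δ,
    A x z δ β = ∑ γ ∈ W (ℓ + 1), A x y δ γ * A y z γ β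

theorem Sys.mono_le {R : Type u} [Ring R] {d : ℕ} {X K B : Type u} {c : X → K}
    {W : ℕ → Finset B} {A : X → X → B → B → R} (h : Sys R d c W A) {m n : ℕ} (hmn : m ≤ n) :
    W m ⊆ W n := by
  induction n, hmn using Nat.le_induction with
  | base => exact subset_rfl
  | succ n _ ih => exact ih.trans (h.mono n)

/-- The adjacency has finite type below the level `d`. -/
def FT {R : Type u} {X B : Type u} (d : ℕ) (W : ℕ → Finset B) (A : X → X → B → B → R)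
    (Adj : X → X → Prop) : Prop :=
  {r | ∃ ℓ, ℓ < d ∧ ∃ x y, Adj x y ∧ ∃ β ∈ W ℓ, ∃ γ, r = A x y γ β ∨ r = A y x γ β}.Finite

/-- Good rings of depth `d`. -/
def Good (R : Type u) [Ring R] (d : ℕ) : Prop :=
  ∀ (X K B : Type u) (c : X → K) (W : ℕ → Finset B) (A : X → X → B → B → R), Sys R d c W A →
    ∀ Adj : X → X → Prop, (∀ x y, Adj x y → c x = c y) → FT d W A Adj → ∀ ε : ℝ, 0 < ε →
      ∃ C : Set R, C.Finite ∧ WF Adj ε (fun x y => c x = c y → ∀ β ∈ W 0, ∀ γ, A x y γ β ∈ C)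

/-- Bounding families of subsets. -/
def Bdd (R : Type u) [Ring R] (O : ℕ → Set R) : Prop :=
  ∀ (X K B : Type u) (c : X → K) (W : ℕ → Finset B) (A : X → X → B → B → R), Sys R 3 c W A →
    ∀ Adj : X → X → Prop, (∀ x y, Adj x y → c x = c y) → FT 3 W A Adj → ∀ ε : ℝ, 0 < ε →
      ∃ S : ℕ, WF Adj ε (fun x y => c x = c y → ∀ β ∈ W 0, ∀ γ, A x y γ β ∈ O S)

theorem Sys.le {R : Type u} [Ring R] {d d' : ℕ} {X K B : Type u} {c : X → K}
    {W : ℕ → Finset B} {A : X → X → B → B → R} (h : Sys R d c W A) (hd : d' ≤ d) :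
    Sys R d' c W A :=
  ⟨h.mono, fun ℓ hℓ => h.supp ℓ (by omega), fun ℓ hℓ => h.refl ℓ (by omega),
    fun ℓ hℓ => h.mul ℓ (by omega)⟩

theorem FT.le {R : Type u} {X B : Type u} {d d' : ℕ} {W : ℕ → Finset B}
    {A : X → X → B → B → R} {Adj : X → X → Prop} (h : FT d W A Adj) (hd : d' ≤ d) :
    FT d' W A Adj := by
  refine h.subset ?_
  rintro r ⟨ℓ, hℓ, x⟩
  exact ⟨ℓ, by omega, x⟩

theorem Sys.shift {R : Type u} [Ring R] {d : ℕ} {X K B : Type u} {c : X → K}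
    {W : ℕ → Finset B} {A : X → X → B → B → R} (L : ℕ) (h : Sys R (d + L) c W A) :
    Sys R d c (fun ℓ => W (ℓ + L)) A where
  mono ℓ := by
    have := h.mono (ℓ + L)
    rwa [show ℓ + L + 1 = ℓ + 1 + L by omega] at this
  supp ℓ hℓ x y hxy β hβ γ hγ := h.supp (ℓ + L) (by omega) x y hxy β hβ γ (by
    rwa [show ℓ + L + 1 = ℓ + 1 + L by omega])
  refl ℓ hℓ := h.refl (ℓ + L) (by omega)
  mul ℓ hℓ x y z hxy hyz β hβ δ := by
    have := h.mul (ℓ + L) (by omega) x y z hxy hyz β hβ δ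
    rwa [show ℓ + L + 1 = ℓ + 1 + L by omega] at this

theorem FT.shift {R : Type u} {X B : Type u} {d : ℕ} {W : ℕ → Finset B}
    {A : X → X → B → B → R} {Adj : X → X → Prop} (L : ℕ) (h : FT (d + L) W A Adj) :
    FT d (fun ℓ => W (ℓ + L)) A Adj := by
  refine h.subset ?_
  rintro r ⟨ℓ, hℓ, x⟩
  exact ⟨ℓ + L, by omega, x⟩

theorem Good.le {R : Type u} [Ring R] {d d' : ℕ} (h : Good R d) (hd : d ≤ d') : Good R d' :=
  fun X K B c W A hA Adj hAdj hF ε hε => h X K B c W A (hA.le hd) Adj hAdj (hF.le hd) ε hε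

theorem Good.of_bdd {R : Type u} [Ring R] {O : ℕ → Set R} (h : Bdd R O)
    (hO : ∀ S, (O S).Finite) : Good R 3 := by
  intro X K B c W A hA Adj hAdj hF ε hε
  obtain ⟨S, hS⟩ := h X K B c W A hA Adj hAdj hF ε hε
  exact ⟨O S, hO S, hS⟩

theorem Good.of_finite {R : Type u} [Ring R] [Finite R] : Good R 0 := by
  intro X K B c W A hA Adj hAdj hF ε hε
  refine ⟨Set.univ, Set.finite_univ, WF.of Unit Unit (fun _ _ => ()) ?_ ?_⟩
  · intro x y _
    refine ⟨Finset.univ, id, Function.injective_id.injOn, fun _ _ => rfl, ?_⟩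
    simp
    linarith
  · intro x y _ _ _ _ _ _ _
    trivial

/-- Finitely many bounding families. -/
theorem Bdd.pi {R : Type u} [Ring R] {ι : Type w} (P : Finset ι) (O : ι → ℕ → Set R)
    (hmono : ∀ i, ∀ m n, m ≤ n → O i m ⊆ O i n)
    (h : ∀ i ∈ P, Bdd R (O i)) : Bdd R (fun S => ⋂ i ∈ P, O i S) := by
  classical
  intro X K B c W A hA Adj hAdj hF ε hε
  have h1 : ∀ i ∈ P, ∀ ε : ℝ, 0 < ε → ∃ S : ℕ, WF Adj ε
      (fun x y => c x = c y → ∀ β ∈ W 0, ∀ γ, A x y γ β ∈ O i S) :=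
    fun i hi ε hε => h i hi X K B c W A hA Adj hAdj hF ε hε
  -- induct on `P` to find a common bound
  have key : ∀ Q : Finset ι, Q ⊆ P → ∀ ε : ℝ, 0 < ε → ∃ S : ℕ, WF Adj ε
      (fun x y => c x = c y → ∀ β ∈ W 0, ∀ γ, A x y γ β ∈ ⋂ i ∈ Q, O i S) := by
    intro Q
    induction Q using Finset.induction_on with
    | empty =>
      intro _ ε hε
      refine ⟨0, WF.of Unit Unit (fun _ _ => ()) ?_ ?_⟩
      · intro x y _
        refine ⟨Finset.univ, id, Function.injective_id.injOn, fun _ _ => rfl, ?_⟩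
        simp
        linarith
      · intro x y _ _ _ _ _ _ _
        simp
    | insert i Q hi ih =>
      intro hQ ε hε
      obtain ⟨S, hS⟩ := h1 i (hQ (Finset.mem_insert_self _ _)) (ε / 2) (by positivity)
      obtain ⟨S', hS'⟩ := ih (fun j hj => hQ (Finset.mem_insert_of_mem hj)) (ε / 2) (by positivity)
      refine ⟨max S S', (WF.prod hε hS hS').mono (fun _ _ h => h) le_rfl ?_⟩
      rintro x y ⟨k1, k2⟩ hxy β hβ γ
      simp only [Set.mem_iInter]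
      intro j hj
      rcases Finset.mem_insert.mp hj with rfl | hj
      · exact hmono _ _ _ (le_max_left _ _) (k1 hxy β hβ γ)
      · have := k2 hxy β hβ γ
        simp only [Set.mem_iInter] at this
        exact hmono _ _ _ (le_max_right _ _) (this j hj)
  exact key P subset_rfl ε hε

end Pool.Agent.N506.EX
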