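import Pool.Agent.N506.EYA

/-!
# Spaces of lattices over a division ring with a discrete valuation
-/

namespace Pool.Agent.N506.EX

universe u v w

/-- A lattice with its rescalings, axiomatically. -/
structure LatS {D : Type v} [DivisionRing D] (V : DV D) (n : ℕ) where
  L : ℤ → AddSubgroup (Fin n → D)
  anti : ∀ m m', m ≤ m' → L m' ≤ L m
  mul : ∀ m l y c, y ∈ L m → c ∈ V.O l → (fun j => y j * c) ∈ L (m + l)
  basis : ∀ i : Fin n, ∃ N : ℕ, (Pi.single i (V.t ^ N) : Fin n → D) ∈ L 0
  bdd : ∃ r : ℕ, ∀ y ∈ L 0, ∀ i, y i ∈ V.O (-(r : ℤ))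

section Place

variable {D : Type v} [DivisionRing D] {V : DV D} {n : ℕ}

/-- Closeness of lattices. -/
def Close (g h : LatS V n) (R : ℕ) : Prop :=
  ∀ m : ℤ, h.L m ≤ g.L (m - R) ∧ g.L m ≤ h.L (m - R)

theorem Close.symm {g h : LatS V n} {R : ℕ} (H : Close g h R) : Close h g R :=
  fun m => ⟨(H m).2, (H m).1⟩

/-- Minimal valuation of the `i`-th coordinate. -/
theorem LatS.exists_min (g : LatS V n) (i : Fin n) :
    ∃ a : ℤ, (∃ y ∈ g.L 0, y ∈ flag D n (i + 1) ∧ y i ≠ 0 ∧ V.v (y i) = a) ∧
      ∀ y ∈ g.L 0, y ∈ flag D n (i + 1) → y i ∈ V.O a := by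
  obtain ⟨r, hr⟩ := g.bdd
  let P : ℤ → Prop := fun a => ∃ y ∈ g.L 0, y ∈ flag D n (i + 1) ∧ y i ≠ 0 ∧ V.v (y i) = a
  have hP : ∃ a, P a := by
    obtain ⟨N, hN⟩ := g.basis i
    refine ⟨N, _, hN, ?_, ?_, ?_⟩
    · intro j hj
      rw [Pi.single_eq_of_ne]
      rintro rfl
      omega
    · simp [V.t_ne]
    · simp [V.v_pow]
  have hbd : ∀ a, P a → -(r : ℤ) ≤ a := by
    rintro a ⟨y, hy, -, hy0, rfl⟩
    exact (hr y hy i).resolve_left hy0
  obtain ⟨a, ha, hmin⟩ := Int.exists_least_of_bdd ⟨-(r:ℤ), hbd⟩ hP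
  refine ⟨a, ha, ?_⟩
  intro y hy hyf
  by_cases h0 : y i = 0
  · exact Or.inl h0
  · exact Or.inr (hmin _ ⟨y, hy, hyf, h0, rfl⟩)

/-- The minimal valuation. -/
noncomputable def LatS.mn (g : LatS V n) (i : Fin n) : ℤ :=
  Classical.choose (g.exists_min i)

theorem LatS.mn_spec (g : LatS V n) (i : Fin n) :
    (∃ y ∈ g.L 0, y ∈ flag D n (i + 1) ∧ y i ≠ 0 ∧ V.v (y i) = g.mn i) ∧
      ∀ y ∈ g.L 0, y ∈ flag D n (i + 1) → y i ∈ V.O (g.mn i) :=
  Classical.choose_spec (g.exists_min i)

theorem LatS.mn_le (g : LatS V n) (i : Fin n) {m : ℤ} {y : Fin n → D}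
    (hy : y ∈ g.L m) (hyf : y ∈ flag D n (i + 1)) : y i ∈ V.O (g.mn i + m) := by
  have h1 : (fun j => y j * V.t ^ (-m)) ∈ g.L 0 := by
    have := g.mul _ _ _ _ hy (zpow_mem V (-m))
    rwa [add_neg_cancel] at this
  have h2 : (fun j => y j * V.t ^ (-m)) ∈ flag D n (i + 1) := by
    intro j hj
    simp [hyf j hj]
  have h3 := (g.mn_spec i).2 _ h1 h2
  have h4 := V.O_mul h3 (zpow_mem V m)
  rwa [mul_assoc, ← zpow_add₀ V.t_ne, neg_add_cancel, zpow_zero, mul_one] at h4

theorem LatS.mn_close {g h : LatS V n} {R : ℕ} (hgh : Close g h R)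
    (i : Fin n) : g.mn i - R ≤ h.mn i := by
  obtain ⟨⟨y, hy, hyf, hy0, hya⟩, -⟩ := h.mn_spec i
  have h1 := (hgh 0).1 hy
  have h2 := g.mn_le i h1 hyf
  have := h2.resolve_left hy0
  omega

/-- The modified lattice. -/
def LatS.LL (g : LatS V n) (l : Fin n → ℤ) : AddSubgroup (Fin n → D) :=
  ⨆ i : Fin n, g.L (l i) ⊓ flag D n (i + 1)

theorem LatS.LL_incl_aux {g h : LatS V n} {R : ℕ} (hgh : Close g h R)
    (l : Fin n → ℤ) (hl : ∀ i j, i < j → l i + 2 * R ≤ l j) (k : ℕ) (hk : k ≤ n) :
    ∀ m : ℤ, (∀ j : Fin n, (j : ℕ) < k → l j ≤ m) →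
      g.L m ⊓ flag D n k ≤ h.LL (fun i => l i + (g.mn i - h.mn i)) := by
  induction k with
  | zero =>
    intro m _ y hy
    have : y = 0 := by
      ext j
      exact hy.2 j (Nat.zero_le _)
    rw [this]
    exact AddSubgroup.zero_mem _
  | succ k ih =>
    intro m hm y hy
    let i : Fin n := ⟨k, hk⟩
    have hy1 : y ∈ g.L (l i) := g.anti _ _ (hm i (Nat.lt_succ_self k)) hy.1
    have hyf : y ∈ flag D n (i + 1) := hy.2
    have hyi := g.mn_le i hy1 hyf
    obtain ⟨⟨w, hw, hwf, hw0, hwa⟩, -⟩ := h.mn_spec i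
    have hc : (w i)⁻¹ * y i ∈ V.O (l i + (g.mn i - h.mn i)) := by
      have h1 : (w i)⁻¹ ∈ V.O (- h.mn i) := Or.inr (by rw [V.v_inv hw0, hwa])
      have := V.O_mul h1 hyi
      convert this using 2
      ring
    have hwc : (fun j => w j * ((w i)⁻¹ * y i)) ∈ h.L (l i + (g.mn i - h.mn i)) := by
      have := h.mul _ _ _ _ hw hc
      rwa [zero_add] at this
    have hwcf : (fun j => w j * ((w i)⁻¹ * y i)) ∈ flag D n (i + 1) := by
      intro j hj
      simp [hwf j hj]
    have hmem1 : (fun j => w j * ((w i)⁻¹ * y i)) ∈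
        h.LL (fun i => l i + (g.mn i - h.mn i)) :=
      AddSubgroup.mem_iSup_of_mem (S := fun i : Fin n =>
        h.L (l i + (g.mn i - h.mn i)) ⊓ flag D n (i + 1)) i ⟨hwc, hwcf⟩
    have hmn := LatS.mn_close hgh.symm i
    have hrest : y - (fun j => w j * ((w i)⁻¹ * y i)) ∈
        h.LL (fun i => l i + (g.mn i - h.mn i)) := by
      refine ih (Nat.le_of_succ_le hk) (l i - 2 * R) ?_ ⟨?_, ?_⟩
      · intro j hj
        have := hl j i (by exact hj)
        omega
      · refine AddSubgroup.sub_mem _ (g.anti _ _ (by omega) hy1) ?_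
        refine g.anti _ _ ?_ ((hgh _).1 hwc)
        omega
      · intro j hj
        rcases Nat.lt_or_ge k j with hkj | hkj
        · have h1 := hy.2 j hkj
          have h2 := hwf j hkj
          simp [h1, h2]
        · have hji : j = i := Fin.ext (le_antisymm hkj hj)
          subst hji
          simp [← mul_assoc, mul_inv_cancel₀ hw0]
    have := AddSubgroup.add_mem _ hrest hmem1
    simpa using this

theorem LatS.LL_incl {g h : LatS V n} {R : ℕ} (hgh : Close g h R)
    (l : Fin n → ℤ) (hl : ∀ i j, i < j → l i + 2 * R ≤ l j) :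
    g.LL l ≤ h.LL (fun i => l i + (g.mn i - h.mn i)) := by
  refine iSup_le fun i => ?_
  refine LatS.LL_incl_aux hgh l hl (i + 1) i.2 (l i) ?_
  intro j hj
  rcases Nat.lt_or_ge j i with h1 | h1
  · have := hl j i h1
    omega
  · have : j = i := Fin.ext (by omega)
    rw [this]

theorem LatS.LL_eq {g h : LatS V n} {R : ℕ} (hgh : Close g h R)
    (l l' : Fin n → ℤ) (hl : ∀ i j, i < j → l i + 2 * R ≤ l j)
    (hl' : ∀ i j, i < j → l' i + 2 * R ≤ l' j)
    (hll : ∀ i, l' i = l i + (g.mn i - h.mn i)) :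
    g.LL l = h.LL l' := by
  apply le_antisymm
  · have := LatS.LL_incl hgh l hl
    convert this using 2
    exact funext hll
  · have := LatS.LL_incl hgh.symm l' hl'
    convert this using 2
    funext i
    rw [hll]
    ring

/-- The space of lattices has property A. -/
theorem lat_wf {X : Type u} (L : X → LatS V n) (R : ℕ) (ε : ℝ) (hε : 0 < ε) :
    ∃ S : ℕ, WF (fun x y => Close (L x) (L y) R) ε
      (fun x y => (L x).L S ≤ (L y).L 0 ∧ (L y).L S ≤ (L x).L 0) := by
  obtain ⟨T, hT⟩ := exists_nat_gt ((n : ℝ) * R / ε + R)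
  have hT0 : 0 < T := by
    have : (0:ℝ) < T := lt_of_le_of_lt (by positivity) hT
    exact_mod_cast this
  have hTR : (R : ℝ) ≤ T := by
    have : (0:ℝ) ≤ (n : ℝ) * R / ε := by positivity
    linarith
  have hTR' : R ≤ T := by exact_mod_cast hTR
  haveI : NeZero T := ⟨hT0.ne'⟩
  set Gp : ℕ := T + 2 * R with hGp
  let lam : (Fin n → Fin T) → Fin n → ℤ := fun w i => (i : ℤ) * Gp + (w i : ℤ)
  have hlam : ∀ w : Fin n → Fin T, ∀ i j, i < j → lam w i + 2 * R ≤ lam w j := by
    intro w i j hij
    have h1 : (w i : ℕ) < T := (w i).2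
    have h2 : ((i : ℕ) : ℤ) + 1 ≤ (j : ℕ) := by exact_mod_cast hij
    have h3 : (((i : ℕ) : ℤ) + 1) * (Gp : ℤ) ≤ ((j : ℕ) : ℤ) * Gp :=
      mul_le_mul_of_nonneg_right h2 (by positivity)
    simp only [lam]
    have h4 : (Gp : ℤ) = T + 2 * R := by rw [hGp]; push_cast; ring
    have h5 : ((w i : ℕ) : ℤ) < T := by exact_mod_cast h1
    have h6 : (0:ℤ) ≤ ((w j : ℕ) : ℤ) := by positivity
    nlinarith
  refine ⟨n * Gp, WF.of (Fin n → Fin T) (AddSubgroup (Fin n → D))
    (fun x w => (L x).LL (lam w)) ?_ ?_⟩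
  · intro x y hxy
    set mu : Fin n → ℤ := fun i => (L x).mn i - (L y).mn i with hmu
    have hmu1 : ∀ i, mu i ≤ R := fun i => by
      have := LatS.mn_close hxy i
      simp only [hmu]
      omega
    have hmu2 : ∀ i, -(R:ℤ) ≤ mu i := fun i => by
      have := LatS.mn_close hxy.symm i
      simp only [hmu]
      omega
    let Wi : Fin n → Finset (Fin T) := fun i =>
      Finset.univ.filter fun x => 0 ≤ (x : ℤ) + mu i ∧ (x : ℤ) + mu i < T
    let W : Finset (Fin n → Fin T) := Fintype.piFinset Wi
    let p : (Fin n → Fin T) → (Fin n → Fin T) := fun w i => Fin.ofNat T ((w i : ℤ) + mu i).toNat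
    have hp : ∀ w ∈ W, ∀ i, (((p w i : Fin T) : ℕ) : ℤ) = (w i : ℤ) + mu i := by
      intro w hw i
      have h1 := Fintype.mem_piFinset.mp hw i
      simp only [Wi, Finset.mem_filter, Finset.mem_univ, true_and] at h1
      simp only [p, Fin.ofNat, Nat.mod_eq_of_lt (show ((w i : ℤ) + mu i).toNat < T by omega)]
      omega
    refine ⟨W, p, ?_, ?_, ?_⟩
    · intro x hx y hy hxy
      ext i
      have h1 := hp x hx i
      have h2 := hp y hy i
      rw [hxy, h2] at h1
      omega
    · intro w hw
      refine LatS.LL_eq hxy _ _ (hlam w) (hlam _) ?_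
      intro i
      simp only [lam, hp w hw i]
      simp only [hmu]
      ring
    · have hcardi : ∀ i, T - R ≤ (Wi i).card := by
        intro i
        -- the interval of good points contains an interval of length `T - R`
        have hi1 := hmu1 i
        have hi2 := hmu2 i
        by_cases hpos : 0 ≤ mu i
        · have hinj : (Finset.univ.image (fun x : Fin (T - R) =>
              (⟨x, by omega⟩ : Fin T))) ⊆ Wi i := by
            intro y hy
            rw [Finset.mem_image] at hy
            obtain ⟨x, -, rfl⟩ := hy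
            simp only [Wi, Finset.mem_filter, Finset.mem_univ, true_and]
            have := x.2
            constructor
            · positivity
            · show ((x : ℕ) : ℤ) + mu i < T
              omega
          have := Finset.card_le_card hinj
          rw [Finset.card_image_of_injective, Finset.card_univ, Fintype.card_fin] at this
          · exact this
          · intro a b hab
            exact Fin.ext (by simpa using hab)
        · have hinj : (Finset.univ.image (fun x : Fin (T - R) =>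
              (⟨x + (- mu i).toNat, by omega⟩ : Fin T))) ⊆ Wi i := by
            intro y hy
            rw [Finset.mem_image] at hy
            obtain ⟨x, -, rfl⟩ := hy
            simp only [Wi, Finset.mem_filter, Finset.mem_univ, true_and]
            have := x.2
            constructor
            · show 0 ≤ ((x + (- mu i).toNat : ℕ) : ℤ) + mu i
              omega
            · show ((x + (- mu i).toNat : ℕ) : ℤ) + mu i < T
              omega
          have := Finset.card_le_card hinj
          rw [Finset.card_image_of_injective, Finset.card_univ, Fintype.card_fin] at this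
          · exact this
          · intro a b hab
            exact Fin.ext (by simpa using hab)
      have hcard : (T - R) ^ n ≤ W.card := by
        rw [Fintype.card_piFinset]
        calc (T - R) ^ n = ∏ _i : Fin n, (T - R) := by simp
          _ ≤ _ := Finset.prod_le_prod' fun i _ => hcardi i
      have hTpos : (0:ℝ) < T := by exact_mod_cast hT0
      have hcardR : ((T : ℝ) - R) ^ n ≤ W.card := by
        have : (((T - R) ^ n : ℕ) : ℝ) ≤ W.card := by exact_mod_cast hcard
        rwa [Nat.cast_pow, Nat.cast_sub hTR'] at this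
      have hb : 1 + (n : ℝ) * (-(R / T)) ≤ (1 + (-((R:ℝ) / T))) ^ n := by
        apply one_add_mul_le_pow
        have : (R:ℝ) / T ≤ 1 := by
          rw [div_le_one hTpos]; exact hTR
        linarith
      have hb2 : ((T : ℝ) - R) ^ n = (1 + (-((R:ℝ) / T))) ^ n * (T:ℝ) ^ n := by
        rw [← mul_pow]
        congr 1
        field_simp
        ring
      have hnR : (n : ℝ) * R / T ≤ ε := by
        rw [div_le_iff₀ hTpos]
        have h1 : (n : ℝ) * R / ε ≤ T := by
          have : (0:ℝ) ≤ R := Nat.cast_nonneg _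
          linarith
        rwa [div_le_iff₀ hε, mul_comm (T:ℝ) ε] at h1
      have hcO : (Fintype.card (Fin n → Fin T) : ℝ) = (T : ℝ) ^ n := by
        simp
      rw [hcO]
      calc (1 - ε) * (T:ℝ) ^ n ≤ (1 + (-((R:ℝ) / T))) ^ n * (T:ℝ) ^ n := by
            refine mul_le_mul_of_nonneg_right ?_ (by positivity)
            refine le_trans ?_ hb
            have : (n : ℝ) * (-(R / T)) = - ((n : ℝ) * R / T) := by ring
            rw [this]
            linarith
        _ = ((T : ℝ) - R) ^ n := hb2.symm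
        _ ≤ _ := hcardR
  · -- supports
    have key : ∀ g h : LatS V n, ∀ w w', g.LL (lam w) = h.LL (lam w') →
        g.L ((n * Gp : ℕ) : ℤ) ≤ h.L 0 := by
      intro g h w w' hh
      rcases Nat.eq_zero_or_pos n with hn | hn
      · subst hn
        intro y _
        have : y = 0 := by
          ext i
          exact i.elim0
        rw [this]
        exact AddSubgroup.zero_mem _
      let last : Fin n := ⟨n - 1, by omega⟩
      have hlast : lam w last ≤ ((n * Gp : ℕ) : ℤ) := by
        simp only [lam, last]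
        have h1 := (w ⟨n - 1, by omega⟩).2
        have h2 : ((n - 1 : ℕ) : ℤ) = (n : ℤ) - 1 := by
          rw [Nat.cast_sub (by omega)]
          simp
        push_cast
        rw [h2]
        have h3 : (Gp : ℤ) = T + 2 * R := by rw [hGp]; push_cast; ring
        have h4 : (((w ⟨n - 1, by omega⟩ : Fin T) : ℕ) : ℤ) < T := by exact_mod_cast h1
        nlinarith
      have h1 : g.L ((n * Gp : ℕ) : ℤ) ≤ g.LL (lam w) := by
        intro y hy
        refine AddSubgroup.mem_iSup_of_mem (S := fun i : Fin n =>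
          g.L (lam w i) ⊓ flag D n (i + 1)) last ⟨g.anti _ _ hlast hy, ?_⟩
        intro j hj
        exfalso
        have h1 := j.2
        have h2 : (last : ℕ) = n - 1 := rfl
        omega
      have h2 : h.LL (lam w') ≤ h.L 0 := by
        refine iSup_le fun i => ?_
        refine le_trans inf_le_left (h.anti _ _ ?_)
        simp only [lam]
        positivity
      exact h1.trans (hh ▸ h2)
    intro x y w w' hh
    exact ⟨key _ _ _ _ hh, key _ _ _ _ hh.symm⟩

end Place

end Pool.Agent.N506.EX
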