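import Pool.Agent.N506.EYB

/-!
# The place of a discrete valuation
-/

namespace Pool.Agent.N506.EX

universe u v w

section

variable {D : Type v} [DivisionRing D] (V : DV D)

theorem DV.exists_bound {S : Set D} (hS : S.Finite) : ∃ r : ℕ, ∀ a ∈ S, a ∈ V.O (-(r : ℤ)) := by
  choose r hr using V.exists_mem_O
  obtain ⟨R, hR⟩ := (hS.image r).bddAbove
  refine ⟨R, fun a ha => V.O_anti ?_ (hr a)⟩
  have := hR (Set.mem_image_of_mem _ ha)
  omega

theorem DV.O_finset_sum {ι : Type w} (s : Finset ι) (m l : ℤ) (M y : ι → D)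
    (hM : ∀ i ∈ s, M i ∈ V.O m) (hy : ∀ i ∈ s, y i ∈ V.O l) : ∑ i ∈ s, M i * y i ∈ V.O (m + l) :=
  (V.O _).sum_mem fun j hj => V.O_mul (hM j hj) (hy j hj)

end

theorem sum_fin_equiv {B : Type u} (W : Finset B) {n : ℕ} (e : Fin n ≃ W) {M : Type w}
    [AddCommMonoid M] (g : B → M) : ∑ i, g (e i) = ∑ δ ∈ W, g δ := by
  rw [← Finset.sum_coe_sort W g]
  exact Equiv.sum_comp e (fun δ : W => g δ)

/-- The place of a discrete valuation bounds. -/
theorem Bdd.dv {R : Type u} [Ring R] {D : Type v} [DivisionRing D] (V : DV D) (f : R →+* D) :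
    Bdd R (fun S => {r | f r ∈ V.O (-(S:ℤ))}) := by
  classical
  intro X K B c W A hA Adj hAdj hF ε hε
  -- base points
  let b : X → X := fun x => if h : ∃ y, c y = c x then h.choose else x
  have hb : ∀ x, c (b x) = c x := by
    intro x
    have h : ∃ y, c y = c x := ⟨x, rfl⟩
    simp only [b, dif_pos h]
    exact h.choose_spec
  have hbb : ∀ x y, c x = c y → b x = b y := by
    intro x y hxy
    have h : ∃ z, c z = c x := ⟨x, rfl⟩
    have h' : ∃ z, c z = c y := ⟨y, rfl⟩
    simp only [b, dif_pos h, dif_pos h']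
    congr 1
    rw [hxy]
  let n : ℕ := (W 1).card
  let e : Fin n ≃ W 1 := (W 1).equivFin.symm
  have he : ∀ i, (e i : B) ∈ W 1 := fun i => (e i).2
  -- the relations
  have hrel : ∀ x y z, c x = c y → c y = c z → ∀ γ, ∀ i : Fin n,
      A x z γ (e i) = ∑ δ ∈ W 2, A x y γ δ * A y z δ (e i) :=
    fun x y z h1 h2 γ i => hA.mul 1 (by norm_num) x y z h1 h2 (e i) (he i) γ
  have hrel0 : ∀ x y z, c x = c y → c y = c z → ∀ β ∈ W 0, ∀ γ,
      A x z γ β = ∑ δ ∈ W 1, A x y γ δ * A y z δ β :=
    fun x y z h1 h2 β hβ γ => hA.mul 0 (by norm_num) x y z h1 h2 β hβ γ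
  -- the operator
  let T : X → X → (Fin n → D) → B → D := fun x y u γ => ∑ i, f (A x y γ (e i)) * u i
  have hT : ∀ x y z, c x = c y → c y = c z → ∀ u γ,
      T x z u γ = ∑ δ ∈ W 2, f (A x y γ δ) * T y z u δ := by
    intro x y z h1 h2 u γ
    simp only [T]
    calc ∑ i, f (A x z γ (e i)) * u i
        = ∑ i, ∑ δ ∈ W 2, f (A x y γ δ) * (f (A y z δ (e i)) * u i) := by
          refine Finset.sum_congr rfl fun i _ => ?_
          rw [hrel x y z h1 h2, map_sum, Finset.sum_mul]
          exact Finset.sum_congr rfl fun δ _ => by rw [map_mul, mul_assoc]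
      _ = _ := by
          rw [Finset.sum_comm]
          exact Finset.sum_congr rfl fun δ _ => (Finset.mul_sum _ _ _).symm
  have hTrefl : ∀ x u i, T x x u (e i) = u i := by
    intro x u i
    simp only [T]
    rw [Finset.sum_eq_single i]
    · rw [(hA.refl 1 (by norm_num) x (e i) (he i)).1, map_one, one_mul]
    · intro j _ hj
      rw [(hA.refl 1 (by norm_num) x (e j) (he j)).2 (e i)
        (fun h => hj (e.injective (Subtype.ext h.symm))), map_zero, zero_mul]
    · intro h
      exact absurd (Finset.mem_univ _) h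
  -- finite sets of entries
  have hfinW : ∀ x y : X, ∀ U U' : Finset B,
      {r : D | ∃ γ ∈ U, ∃ β ∈ U', r = f (A x y γ β)}.Finite := by
    intro x y U U'
    refine ((U ×ˢ U').finite_toSet.image (fun z => f (A x y z.1 z.2))).subset ?_
    rintro r ⟨γ, hγ, β, hβ, rfl⟩
    exact ⟨(γ, β), by simp [hγ, hβ], rfl⟩
  let L : X → LatS V n := fun x =>
    { L := fun m =>
        { carrier := {u | ∀ γ ∈ W 2, T x (b x) u γ ∈ V.O m}
          zero_mem' := by
            intro γ _
            have : T x (b x) 0 γ = 0 := by simp [T]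
            rw [this]
            exact (V.O m).zero_mem
          add_mem' := by
            intro u v hu hv γ hγ
            have : T x (b x) (u + v) γ = T x (b x) u γ + T x (b x) v γ := by
              simp [T, mul_add, Finset.sum_add_distrib]
            rw [this]
            exact (V.O m).add_mem (hu γ hγ) (hv γ hγ)
          neg_mem' := by
            intro u hu γ hγ
            have : T x (b x) (-u) γ = -T x (b x) u γ := by
              simp [T, Finset.sum_neg_distrib]
            rw [this]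
            exact (V.O m).neg_mem (hu γ hγ) }
      anti := fun m m' h u hu γ hγ => V.O_anti h (hu γ hγ)
      mul := by
        intro m l y a hy ha γ hγ
        have : T x (b x) (fun j => y j * a) γ = T x (b x) y γ * a := by
          simp only [T]
          rw [Finset.sum_mul]
          exact Finset.sum_congr rfl fun i _ => (mul_assoc _ _ _).symm
        rw [this]
        exact V.O_mul (hy γ hγ) ha
      basis := by
        intro i
        obtain ⟨r, hr⟩ := V.exists_bound (hfinW x (b x) (W 2) (W 1))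
        refine ⟨r, fun γ hγ => ?_⟩
        have h1 : T x (b x) (Pi.single i (V.t ^ r)) γ = f (A x (b x) γ (e i)) * V.t ^ r := by
          simp only [T]
          rw [Finset.sum_eq_single i]
          · rw [Pi.single_eq_same]
          · intro j _ hj
            rw [Pi.single_eq_of_ne hj, mul_zero]
          · intro h
            exact absurd (Finset.mem_univ _) h
        rw [h1]
        have := V.O_mul (hr _ ⟨γ, hγ, e i, he i, rfl⟩) (V.t_pow_mem r)
        simpa using this
      bdd := by
        obtain ⟨r, hr⟩ := V.exists_bound (hfinW (b x) x (W 1) (W 2))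
        refine ⟨r, fun y hy i => ?_⟩
        have h1 := hT (b x) x (b x) (hb x) (hb x).symm y (e i)
        rw [hTrefl] at h1
        rw [h1]
        have := V.O_finset_sum (W 2) (-(r:ℤ)) 0 (fun δ => f (A (b x) x (e i) δ))
          (fun δ => T x (b x) y δ) (fun δ hδ => hr _ ⟨e i, he i, δ, hδ, rfl⟩) (fun δ hδ => hy δ hδ)
        rwa [add_zero] at this }
  -- the bound on the adjacency
  obtain ⟨R0, hR0⟩ := V.exists_bound (hF.image f)
  have hclose : ∀ x y, Adj x y → Close (L x) (L y) R0 := by
    intro x y hxy m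
    have hcxy := hAdj x y hxy
    constructor
    · intro u hu γ hγ
      rw [hT x y (b x) hcxy (by rw [hb x]; exact hcxy.symm) u γ]
      have h1 : ∀ δ ∈ W 2, T y (b x) u δ ∈ V.O m := by
        intro δ hδ
        rw [hbb x y hcxy]
        exact hu δ hδ
      have := V.O_finset_sum (W 2) (-(R0:ℤ)) m (fun δ => f (A x y γ δ)) (fun δ => T y (b x) u δ)
        (fun δ hδ => hR0 _ ⟨_, ⟨2, by norm_num, x, y, hxy, δ, hδ, γ, Or.inl rfl⟩, rfl⟩) h1
      rwa [show m - (R0:ℤ) = -(R0:ℤ) + m by ring]
    · intro u hu γ hγ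
      rw [hT y x (b y) hcxy.symm (by rw [hb y]; exact hcxy) u γ]
      have h1 : ∀ δ ∈ W 2, T x (b y) u δ ∈ V.O m := by
        intro δ hδ
        rw [← hbb x y hcxy]
        exact hu δ hδ
      have := V.O_finset_sum (W 2) (-(R0:ℤ)) m (fun δ => f (A y x γ δ)) (fun δ => T x (b y) u δ)
        (fun δ hδ => hR0 _ ⟨_, ⟨2, by norm_num, x, y, hxy, δ, hδ, γ, Or.inr rfl⟩, rfl⟩) h1
      rwa [show m - (R0:ℤ) = -(R0:ℤ) + m by ring]
  obtain ⟨S, hS⟩ := lat_wf L R0 ε hε
  -- the conclusion
  have hconc : ∀ x y, c x = c y → (L x).L S ≤ (L y).L 0 → ∀ β ∈ W 0, ∀ γ,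
      f (A y x γ β) ∈ V.O (-(S:ℤ)) := by
    intro x y hcxy hle β hβ γ
    by_cases hγ : γ ∈ W 2
    · let u : Fin n → D := fun i => f (A (b x) x (e i) β) * V.t ^ S
      have hTu : ∀ z, c z = c x → ∀ γ, T z (b x) u γ = f (A z x γ β) * V.t ^ S := by
        intro z hz γ
        rw [hrel0 z (b x) x (by rw [hb x]; exact hz) (hb x) β hβ γ, map_sum, Finset.sum_mul]
        simp only [T, u]
        rw [← sum_fin_equiv (W 1) e (fun δ => f (A z (b x) γ δ * A (b x) x δ β) * V.t ^ S)]
        exact Finset.sum_congr rfl fun i _ => by rw [map_mul, mul_assoc]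
      have hu : u ∈ (L x).L S := by
        intro γ' _
        rw [hTu x rfl]
        by_cases h : γ' = β
        · subst h
          rw [(hA.refl 0 (by norm_num) x γ' hβ).1, map_one, one_mul]
          exact V.t_pow_mem S
        · rw [(hA.refl 0 (by norm_num) x β hβ).2 γ' h, map_zero, zero_mul]
          exact (V.O _).zero_mem
      have h1 := hle hu γ hγ
      rw [← hbb x y hcxy, hTu y hcxy.symm] at h1
      have h2 := V.O_mul h1 (zpow_mem V (-(S:ℤ)))
      rwa [mul_assoc, ← zpow_natCast, ← zpow_add₀ V.t_ne, add_neg_cancel, zpow_zero, mul_one,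
        zero_add] at h2
    · have : A y x γ β = 0 := hA.supp 0 (by norm_num) y x hcxy.symm β hβ γ
        (fun h => hγ (hA.mono 1 h))
      rw [this, map_zero]
      exact (V.O _).zero_mem
  refine ⟨S, hS.mono hclose le_rfl ?_⟩
  rintro x y ⟨h1, h2⟩ hcxy β hβ γ
  exact hconc y x hcxy.symm h2 β hβ γ

end Pool.Agent.N506.EX
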