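import Pool.Agent.N506.EYC

/-!
# The real place
-/

namespace Pool.Agent.N506.EX

universe u v w

open Matrix

theorem sq_form {m : Type w} [Fintype m] {n : ℕ} (M : Matrix m (Fin n) ℝ) (v : Fin n → ℝ) :
    ∑ i, (M.mulVec v i) ^ 2 = v ⬝ᵥ ((Mᵀ * M).mulVec v) := by
  rw [← Matrix.mulVec_mulVec, Matrix.dotProduct_mulVec, Matrix.vecMul_transpose]
  simp only [dotProduct, sq]

open scoped MatrixOrder in
/-- A square root of the Gram matrix. -/
theorem exists_gram {m : Type w} [Fintype m] {n : ℕ} (M : Matrix m (Fin n) ℝ)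
    (N : Matrix (Fin n) m ℝ) (h : N * M = 1) :
    ∃ q : (Matrix (Fin n) (Fin n) ℝ)ˣ, ∀ v : Fin n → ℝ,
      ∑ i, ((((q⁻¹ : (Matrix (Fin n) (Fin n) ℝ)ˣ) : Matrix (Fin n) (Fin n) ℝ)).mulVec v i) ^ 2 =
        ∑ i, (M.mulVec v i) ^ 2 := by
  obtain ⟨B, hB⟩ := CStarAlgebra.nonneg_iff_eq_star_mul_self.mp
    (Matrix.posSemidef_conjTranspose_mul_self M).nonneg
  rw [Matrix.star_eq_conjTranspose, Matrix.conjTranspose_eq_transpose_of_trivial,
    Matrix.conjTranspose_eq_transpose_of_trivial] at hB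
  have hinj : ∀ v, B.mulVec v = 0 → v = 0 := by
    intro v hv
    have h1 := sq_form M v
    rw [hB, ← sq_form B v, hv] at h1
    simp only [Pi.zero_apply, ne_eq, OfNat.ofNat_ne_zero, not_false_eq_true, zero_pow,
      Finset.sum_const_zero] at h1
    have h2 : M.mulVec v = 0 := by
      funext i
      have h3 := (Finset.sum_eq_zero_iff_of_nonneg (fun i _ => sq_nonneg (M.mulVec v i))).mp h1 i
        (Finset.mem_univ _)
      exact pow_eq_zero_iff (two_ne_zero) |>.mp h3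
    have h4 : (N * M).mulVec v = v := by rw [h, Matrix.one_mulVec]
    rw [← h4, ← Matrix.mulVec_mulVec, h2, Matrix.mulVec_zero]
  have hu : IsUnit B := by
    rw [← Matrix.mulVec_injective_iff_isUnit]
    intro v w hvw
    have : B.mulVec (v - w) = 0 := by rw [Matrix.mulVec_sub]; exact sub_eq_zero.mpr hvw
    exact sub_eq_zero.mp (hinj _ this)
  obtain ⟨q, hq⟩ := hu
  refine ⟨q⁻¹, fun v => ?_⟩
  rw [inv_inv, hq, sq_form, sq_form, hB]

/-- The real place bounds. -/
theorem Bdd.real {R : Type u} [Ring R] (f : R →+* ℝ) :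
    Bdd R (fun S => {r | |f r| ≤ S}) := by
  classical
  intro X K B c W A hA Adj hAdj hF ε hε
  -- base points
  let b : X → X := fun x => if h : ∃ y, c y = c x then h.choose else x
  have hb : ∀ x, c (b x) = c x := by
    intro x
    have h : ∃ y, c y = c x := ⟨x, rfl⟩
    simp only [b, dif_pos h]
    exact h.choose_spec
  have hbb : ∀ x y, c x = c y → b x = b y := by
    intro x y hxy
    have h : ∃ z, c z = c x := ⟨x, rfl⟩
    have h' : ∃ z, c z = c y := ⟨y, rfl⟩
    simp only [b, dif_pos h, dif_pos h']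
    congr 1
    rw [hxy]
  let n : ℕ := (W 1).card
  let e : Fin n ≃ W 1 := (W 1).equivFin.symm
  have he : ∀ i, (e i : B) ∈ W 1 := fun i => (e i).2
  have hrel : ∀ x y z, c x = c y → c y = c z → ∀ γ, ∀ i : Fin n,
      A x z γ (e i) = ∑ δ ∈ W 2, A x y γ δ * A y z δ (e i) :=
    fun x y z h1 h2 γ i => hA.mul 1 (by norm_num) x y z h1 h2 (e i) (he i) γ
  have hrel0 : ∀ x y z, c x = c y → c y = c z → ∀ β ∈ W 0, ∀ γ,
      A x z γ β = ∑ δ ∈ W 1, A x y γ δ * A y z δ β :=
    fun x y z h1 h2 β hβ γ => hA.mul 0 (by norm_num) x y z h1 h2 β hβ γ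
  -- the matrices
  let M : X → X → Matrix (W 2) (Fin n) ℝ := fun x y => Matrix.of fun γ i => f (A x y γ (e i))
  have hMN : ∀ x, (Matrix.of fun (i : Fin n) (γ : W 2) => f (A (b x) x (e i) γ)) * M x (b x) =
      (1 : Matrix (Fin n) (Fin n) ℝ) := by
    intro x
    ext i j
    rw [Matrix.mul_apply]
    simp only [M, Matrix.of_apply]
    have h1 := hrel (b x) x (b x) (hb x) (hb x).symm (e i) j
    have h2 : ∑ γ : W 2, f (A (b x) x (e i) γ) * f (A x (b x) γ (e j)) =
        f (A (b x) (b x) (e i) (e j)) := by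
      rw [h1, map_sum, ← Finset.sum_coe_sort (W 2)]
      exact Finset.sum_congr rfl fun γ _ => (map_mul f _ _).symm
    rw [h2]
    by_cases hij : i = j
    · subst hij
      rw [(hA.refl 1 (by norm_num) (b x) (e i) (he i)).1, map_one, Matrix.one_apply_eq]
    · rw [(hA.refl 1 (by norm_num) (b x) (e j) (he j)).2 (e i)
        (fun h => hij (e.injective (Subtype.ext h))), map_zero, Matrix.one_apply_ne hij]
  choose q hq using fun x => exists_gram (M x (b x)) _ (hMN x)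
  -- transport
  have hMT : ∀ x y z, c x = c y → c y = c z → ∀ u : Fin n → ℝ, ∀ γ : W 2,
      (M x z).mulVec u γ = ∑ δ : W 2, f (A x y γ δ) * (M y z).mulVec u δ := by
    intro x y z h1 h2 u γ
    simp only [Matrix.mulVec, dotProduct, M, Matrix.of_apply]
    calc ∑ i, f (A x z γ (e i)) * u i
        = ∑ i, ∑ δ : W 2, f (A x y γ δ) * (f (A y z δ (e i)) * u i) := by
          refine Finset.sum_congr rfl fun i _ => ?_
          rw [hrel x y z h1 h2, map_sum, Finset.sum_mul, ← Finset.sum_coe_sort (W 2)]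
          exact Finset.sum_congr rfl fun δ _ => by rw [map_mul, mul_assoc]
      _ = _ := by
          rw [Finset.sum_comm]
          exact Finset.sum_congr rfl fun δ _ => (Finset.mul_sum _ _ _).symm
  -- the bound on the adjacency
  obtain ⟨C0, hC0⟩ := (hF.image (fun r => |f r|)).bddAbove
  set C1 : ℝ := max C0 0 with hC1
  have hC1n : 0 ≤ C1 := le_max_right _ _
  set k : ℝ := ((W 2).card : ℝ) with hk
  have hk0 : 0 ≤ k := Nat.cast_nonneg _
  have hnorm : ∀ x y, c x = c y → (∀ δ ∈ W 2, ∀ γ, |f (A x y γ δ)| ≤ C1) → ∀ u : Fin n → ℝ,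
      ∑ γ, ((M x (b x)).mulVec u γ) ^ 2 ≤ (k * C1) ^ 2 * ∑ δ, ((M y (b y)).mulVec u δ) ^ 2 := by
    intro x y hxy hbd u
    have h1 : ∀ γ : W 2, ((M x (b x)).mulVec u γ) ^ 2 ≤
        (k * C1 ^ 2) * ∑ δ, ((M y (b y)).mulVec u δ) ^ 2 := by
      intro γ
      rw [hMT x y (b x) hxy (by rw [hb x]; exact hxy.symm) u γ]
      refine (Finset.sum_mul_sq_le_sq_mul_sq _ _ _).trans ?_
      rw [hbb x y hxy]
      refine mul_le_mul_of_nonneg_right ?_ (Finset.sum_nonneg fun _ _ => sq_nonneg _)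
      have h2 : ∀ δ : W 2, f (A x y γ δ) ^ 2 ≤ C1 ^ 2 := by
        intro δ
        rw [← sq_abs]
        exact pow_le_pow_left₀ (abs_nonneg _) (hbd δ δ.2 γ) 2
      refine (Finset.sum_le_sum fun δ _ => h2 δ).trans ?_
      rw [Finset.sum_const, nsmul_eq_mul, Finset.card_univ, Fintype.card_coe]
    refine (Finset.sum_le_sum fun γ _ => h1 γ).trans ?_
    rw [Finset.sum_const, nsmul_eq_mul, Finset.card_univ, Fintype.card_coe]
    apply le_of_eq
    ring
  have hentry : ∀ x y, c x = c y → (∀ δ ∈ W 2, ∀ γ, |f (A x y γ δ)| ≤ C1) →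
      Bd (k * C1) (((q x)⁻¹ * q y : (Matrix (Fin n) (Fin n) ℝ)ˣ) : Matrix (Fin n) (Fin n) ℝ) := by
    intro x y hxy hbd i j
    set v : Fin n → ℝ := (q y : Matrix (Fin n) (Fin n) ℝ).mulVec (Pi.single j 1) with hv
    have h1 : (((q x)⁻¹ * q y : (Matrix (Fin n) (Fin n) ℝ)ˣ) : Matrix (Fin n) (Fin n) ℝ) i j =
        (((q x)⁻¹ : (Matrix (Fin n) (Fin n) ℝ)ˣ) : Matrix (Fin n) (Fin n) ℝ).mulVec v i := by
      rw [hv, Matrix.mulVec_mulVec, ← Units.val_mul, Matrix.mulVec_single_one]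
      rfl
    have h2 : (((q y)⁻¹ : (Matrix (Fin n) (Fin n) ℝ)ˣ) : Matrix (Fin n) (Fin n) ℝ).mulVec v =
        Pi.single j 1 := by
      rw [hv, Matrix.mulVec_mulVec, ← Units.val_mul, inv_mul_cancel, Units.val_one,
        Matrix.one_mulVec]
    have h3 := hnorm x y hxy hbd v
    rw [← hq x v, ← hq y v, h2] at h3
    have h4 : ∑ i, (Pi.single j (1:ℝ) : Fin n → ℝ) i ^ 2 = 1 := by
      rw [Finset.sum_eq_single j]
      · rw [Pi.single_eq_same, one_pow]
      · intro l _ hl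
        rw [Pi.single_eq_of_ne hl]
        norm_num
      · intro h
        exact absurd (Finset.mem_univ _) h
    rw [h4, mul_one] at h3
    rw [h1]
    refine abs_le_of_sq_le_sq ?_ (by positivity)
    refine le_trans ?_ h3
    exact Finset.single_le_sum (f := fun i => ((((q x)⁻¹ : (Matrix (Fin n) (Fin n) ℝ)ˣ) :
      Matrix (Fin n) (Fin n) ℝ).mulVec v i) ^ 2) (fun _ _ => sq_nonneg _) (Finset.mem_univ i)
  obtain ⟨R1, hR1⟩ := exists_nat_ge (k * C1)
  obtain ⟨S1, hS1⟩ := ctl_PhiR n R1 ε hε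
  obtain ⟨S, hS⟩ := exists_nat_ge ((n:ℝ) ^ 2 * S1)
  -- the conclusion
  have hconc : ∀ x y, c x = c y → Bd S1 (((q y)⁻¹ * q x : (Matrix (Fin n) (Fin n) ℝ)ˣ) :
      Matrix (Fin n) (Fin n) ℝ) → ∀ β ∈ W 0, ∀ γ, |f (A y x γ β)| ≤ S := by
    intro x y hcxy hbd β hβ γ
    by_cases hγ : γ ∈ W 2
    · let u : Fin n → ℝ := fun i => f (A (b x) x (e i) β)
      have hu : ∀ z, c z = c x → ∀ γ : W 2, (M z (b x)).mulVec u γ = f (A z x γ β) := by
        intro z hz γ
        rw [hrel0 z (b x) x (by rw [hb x]; exact hz) (hb x) β hβ γ, map_sum]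
        simp only [Matrix.mulVec, dotProduct, M, u, Matrix.of_apply]
        rw [← sum_fin_equiv (W 1) e (fun δ => f (A z (b x) γ δ * A (b x) x δ β))]
        exact Finset.sum_congr rfl fun i _ => by rw [map_mul]
      set v : Fin n → ℝ := (((q x)⁻¹ : (Matrix (Fin n) (Fin n) ℝ)ˣ) :
        Matrix (Fin n) (Fin n) ℝ).mulVec u with hv
      have h1 : ∑ i, v i ^ 2 ≤ 1 := by
        rw [hv, hq x u]
        have h2 : ∀ γ : W 2, ((M x (b x)).mulVec u γ) ^ 2 = if (γ : B) = β then 1 else 0 := by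
          intro γ
          rw [hu x rfl γ]
          split_ifs with h
          · rw [h, (hA.refl 0 (by norm_num) x β hβ).1, map_one, one_pow]
          · rw [(hA.refl 0 (by norm_num) x β hβ).2 γ h, map_zero]
            norm_num
        rw [Finset.sum_congr rfl fun γ _ => h2 γ, Finset.sum_coe_sort (W 2)
          (fun γ => if γ = β then (1:ℝ) else 0), Finset.sum_ite_eq' (W 2) β]
        split_ifs <;> norm_num
      have h2 : ∀ i, |v i| ≤ 1 := by
        intro i
        refine abs_le_of_sq_le_sq ?_ (by norm_num)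
        rw [one_pow]
        exact (Finset.single_le_sum (f := fun i => v i ^ 2) (fun _ _ => sq_nonneg _)
          (Finset.mem_univ i)).trans h1
      have h3 : (((q y)⁻¹ : (Matrix (Fin n) (Fin n) ℝ)ˣ) : Matrix (Fin n) (Fin n) ℝ).mulVec u =
          (((q y)⁻¹ * q x : (Matrix (Fin n) (Fin n) ℝ)ˣ) :
            Matrix (Fin n) (Fin n) ℝ).mulVec v := by
        rw [hv, Matrix.mulVec_mulVec, ← Units.val_mul]
        congr 2
        group
      have h4 : ∀ i, |(((q y)⁻¹ : (Matrix (Fin n) (Fin n) ℝ)ˣ) :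
          Matrix (Fin n) (Fin n) ℝ).mulVec u i| ≤ n * S1 := by
        intro i
        rw [h3]
        simp only [Matrix.mulVec, dotProduct]
        refine (Finset.abs_sum_le_sum_abs _ _).trans ?_
        have : ∀ j ∈ Finset.univ, |(((q y)⁻¹ * q x : (Matrix (Fin n) (Fin n) ℝ)ˣ) :
            Matrix (Fin n) (Fin n) ℝ) i j * v j| ≤ S1 := by
          intro j _
          rw [abs_mul]
          calc _ ≤ (S1:ℝ) * 1 := mul_le_mul (hbd i j) (h2 j) (abs_nonneg _) (Nat.cast_nonneg _)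
            _ = S1 := mul_one _
        refine (Finset.sum_le_sum this).trans ?_
        rw [Finset.sum_const, Finset.card_univ, Fintype.card_fin, nsmul_eq_mul]
      have h5 : f (A y x γ β) ^ 2 ≤ ((n:ℝ) ^ 2 * S1) ^ 2 := by
        have h6 := hq y u
        have h7 : f (A y x γ β) ^ 2 ≤ ∑ γ, ((M y (b y)).mulVec u γ) ^ 2 := by
          have := hu y hcxy.symm ⟨γ, hγ⟩
          rw [hbb x y hcxy] at this
          rw [← this]
          exact Finset.single_le_sum (f := fun γ => ((M y (b y)).mulVec u γ) ^ 2)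
            (fun _ _ => sq_nonneg _) (Finset.mem_univ _)
        rw [← h6] at h7
        refine h7.trans ?_
        have h8 : ∀ i ∈ Finset.univ, ((((q y)⁻¹ : (Matrix (Fin n) (Fin n) ℝ)ˣ) :
            Matrix (Fin n) (Fin n) ℝ).mulVec u i) ^ 2 ≤ (n * S1) ^ 2 := by
          intro i _
          rw [← sq_abs]
          exact pow_le_pow_left₀ (abs_nonneg _) (h4 i) 2
        refine (Finset.sum_le_sum h8).trans ?_
        rw [Finset.sum_const, Finset.card_univ, Fintype.card_fin, nsmul_eq_mul]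
        rcases Nat.eq_zero_or_pos n with hn | hn
        · rw [hn]
          simp
        · have hn1 : (1:ℝ) ≤ n := by exact_mod_cast hn
          have h9 : (n:ℝ) ^ 3 ≤ (n:ℝ) ^ 4 := pow_le_pow_right₀ hn1 (by norm_num)
          have h10 : (0:ℝ) ≤ (S1:ℝ) ^ 2 := sq_nonneg _
          calc (n:ℝ) * (n * S1) ^ 2 = (n:ℝ) ^ 3 * (S1:ℝ) ^ 2 := by ring
            _ ≤ (n:ℝ) ^ 4 * (S1:ℝ) ^ 2 := mul_le_mul_of_nonneg_right h9 h10
            _ = _ := by ring
      exact (abs_le_of_sq_le_sq h5 (by positivity)).trans hS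
    · have : A y x γ β = 0 := hA.supp 0 (by norm_num) y x hcxy.symm β hβ γ
        (fun h => hγ (hA.mono 1 h))
      rw [this, map_zero, abs_zero]
      exact Nat.cast_nonneg _
  refine ⟨S, WF.of_wf hS1 q ?_ ?_⟩
  · intro x y hxy
    have hcxy := hAdj x y hxy
    have b1 : ∀ δ ∈ W 2, ∀ γ, |f (A x y γ δ)| ≤ C1 := fun δ hδ γ =>
      (hC0 ⟨_, ⟨2, by norm_num, x, y, hxy, δ, hδ, γ, Or.inl rfl⟩, rfl⟩).trans (le_max_left _ _)
    have b2 : ∀ δ ∈ W 2, ∀ γ, |f (A y x γ δ)| ≤ C1 := fun δ hδ γ =>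
      (hC0 ⟨_, ⟨2, by norm_num, x, y, hxy, δ, hδ, γ, Or.inr rfl⟩, rfl⟩).trans (le_max_left _ _)
    refine ⟨(hentry x y hcxy b1).mono hR1, ?_⟩
    have h1 : ((q x)⁻¹ * q y)⁻¹ = (q y)⁻¹ * q x := by group
    rw [h1]
    exact (hentry y x hcxy.symm b2).mono hR1
  · intro x y hxy hcxy β hβ γ
    exact hconc y x hcxy.symm hxy.1 β hβ γ

end Pool.Agent.N506.EX
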