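import Pool.Agent.N506.EYD

/-!
# Closure properties of good rings
-/

namespace Pool.Agent.N506.EX

universe u v w

/-- Subrings. -/
theorem Good.of_injective {R : Type u} [Ring R] {S : Type u} [Ring S] {d : ℕ} (hS : Good S d)
    (f : R →+* S) (hf : Function.Injective f) : Good R d := by
  intro X K B c W A hA Adj hAdj hF ε hε
  have hA' : Sys S d c W (fun x y γ β => f (A x y γ β)) :=
    { mono := hA.mono
      supp := fun ℓ hℓ x y hxy β hβ γ hγ => by rw [hA.supp ℓ hℓ x y hxy β hβ γ hγ, map_zero]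
      refl := fun ℓ hℓ x β hβ => ⟨by rw [(hA.refl ℓ hℓ x β hβ).1, map_one],
        fun γ hγ => by rw [(hA.refl ℓ hℓ x β hβ).2 γ hγ, map_zero]⟩
      mul := fun ℓ hℓ x y z h1 h2 β hβ δ => by
        rw [hA.mul ℓ hℓ x y z h1 h2 β hβ δ, map_sum]
        exact Finset.sum_congr rfl fun γ _ => map_mul f _ _ }
  have hF' : FT d W (fun x y γ β => f (A x y γ β)) Adj := by
    refine (hF.image f).subset ?_
    rintro r ⟨ℓ, hℓ, x, y, hxy, β, hβ, γ, h | h⟩
    · exact ⟨_, ⟨ℓ, hℓ, x, y, hxy, β, hβ, γ, Or.inl rfl⟩, h.symm⟩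
    · exact ⟨_, ⟨ℓ, hℓ, x, y, hxy, β, hβ, γ, Or.inr rfl⟩, h.symm⟩
  obtain ⟨C, hC, hW⟩ := hS X K B c W _ hA' Adj hAdj hF' ε hε
  exact ⟨f ⁻¹' C, hC.preimage hf.injOn, hW⟩

/-- Matrix rings. -/
theorem Good.matrix {S : Type u} [Ring S] {d : ℕ} (hS : Good S d) (ι : Type w) [Fintype ι]
    [DecidableEq ι] {R : Type u} [Ring R] (f : R →+* Matrix ι ι S) (hf : Function.Injective f) :
    Good R d := by
  classical
  intro X K B c W A hA Adj hAdj hF ε hε
  let e : ι ≃ ULift.{u} (Fin (Fintype.card ι)) := (Fintype.equivFin ι).trans Equiv.ulift.symm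
  let W' : ℕ → Finset (B × ULift.{u} (Fin (Fintype.card ι))) := fun ℓ => W ℓ ×ˢ Finset.univ
  have hW' : ∀ ℓ p, p ∈ W' ℓ ↔ p.1 ∈ W ℓ := by
    intro ℓ p
    simp [W']
  let A' : X → X → B × ULift.{u} (Fin (Fintype.card ι)) → B × ULift.{u} (Fin (Fintype.card ι)) →
      S := fun x y p q => f (A x y p.1 q.1) (e.symm p.2) (e.symm q.2)
  have hA' : Sys S d c W' A' :=
    { mono := by
        intro ℓ p hp
        rw [hW'] at hp ⊢
        exact hA.mono ℓ hp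
      supp := by
        intro ℓ hℓ x y hxy q hq p hp
        rw [hW'] at hq hp
        simp only [A']
        rw [hA.supp ℓ hℓ x y hxy q.1 hq p.1 hp, map_zero, Matrix.zero_apply]
      refl := by
        intro ℓ hℓ x q hq
        rw [hW'] at hq
        obtain ⟨h1, h2⟩ := hA.refl ℓ hℓ x q.1 hq
        refine ⟨by simp only [A']; rw [h1, map_one, Matrix.one_apply_eq], fun p hp => ?_⟩
        simp only [A']
        by_cases h : p.1 = q.1
        · have h3 : p.2 ≠ q.2 := fun h3 => hp (Prod.ext h h3)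
          rw [h, h1, map_one, Matrix.one_apply_ne (fun h4 => h3 (e.symm.injective h4))]
        · rw [h2 p.1 h, map_zero, Matrix.zero_apply]
      mul := by
        intro ℓ hℓ x y z h1 h2 q hq p
        rw [hW'] at hq
        simp only [A']
        rw [hA.mul ℓ hℓ x y z h1 h2 q.1 hq p.1, map_sum, Matrix.sum_apply, Finset.sum_product]
        refine Finset.sum_congr rfl fun γ _ => ?_
        rw [map_mul, Matrix.mul_apply]
        exact (Equiv.sum_comp e.symm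
          (fun k => f (A x y p.1 γ) (e.symm p.2) k * f (A y z γ q.1) k (e.symm q.2))).symm }
  have hF' : FT d W' A' Adj := by
    refine Set.Finite.subset (hF.biUnion (t := fun r => Set.range fun p : ι × ι => f r p.1 p.2)
      (fun r _ => Set.finite_range _)) ?_
    rintro r ⟨ℓ, hℓ, x, y, hxy, q, hq, p, h⟩
    rw [hW'] at hq
    simp only [Set.mem_iUnion]
    rcases h with h | h
    · exact ⟨_, ⟨ℓ, hℓ, x, y, hxy, q.1, hq, p.1, Or.inl rfl⟩, (e.symm p.2, e.symm q.2), h.symm⟩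
    · exact ⟨_, ⟨ℓ, hℓ, x, y, hxy, q.1, hq, p.1, Or.inr rfl⟩, (e.symm p.2, e.symm q.2), h.symm⟩
  obtain ⟨C, hC, hW⟩ := hS X K _ c W' A' hA' Adj hAdj hF' ε hε
  refine ⟨f ⁻¹' {M | ∀ i j, M i j ∈ C}, ?_, hW.mono (fun _ _ h => h) le_rfl ?_⟩
  · refine Set.Finite.preimage hf.injOn ?_
    have h1 : {M : ι → ι → S | ∀ i, M i ∈ {v : ι → S | ∀ j, v j ∈ C}}.Finite :=
      Set.Finite.pi' fun _ => Set.Finite.pi' fun _ => hC
    exact h1
  · intro x y h hxy β hβ γ i j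
    have := h hxy (β, e j) (by rw [hW']; exact hβ) (γ, e i)
    simpa [A'] using this

/-- Good rings are matrix-exact. -/
theorem Good.mex {R : Type u} [Ring R] {d : ℕ} (h : Good R d) : MEx R := by
  classical
  intro n F hF ε hε
  let A : (Matrix (Fin n) (Fin n) R)ˣ → (Matrix (Fin n) (Fin n) R)ˣ → ULift.{u} (Fin n) →
      ULift.{u} (Fin n) → R := fun x y i j =>
    ((x⁻¹ * y : (Matrix (Fin n) (Fin n) R)ˣ) : Matrix (Fin n) (Fin n) R) i.down j.down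
  have hA : Sys R d (fun _ : (Matrix (Fin n) (Fin n) R)ˣ => PUnit.unit.{u+1})
      (fun _ => Finset.univ) A :=
    { mono := fun _ => subset_rfl
      supp := fun ℓ _ x y _ β _ γ hγ => absurd (Finset.mem_univ γ) hγ
      refl := fun ℓ _ x β _ => by
        simp only [A, inv_mul_cancel, Units.val_one]
        exact ⟨Matrix.one_apply_eq _, fun γ hγ => Matrix.one_apply_ne fun h => hγ (ULift.ext _ _ h)⟩
      mul := fun ℓ _ x y z _ _ β _ δ => by
        simp only [A]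
        have h1 : x⁻¹ * z = (x⁻¹ * y) * (y⁻¹ * z) := by group
        rw [h1, Units.val_mul, Matrix.mul_apply]
        exact (Equiv.sum_comp Equiv.ulift (fun k => ((x⁻¹ * y : (Matrix (Fin n) (Fin n) R)ˣ) :
          Matrix (Fin n) (Fin n) R) δ.down k * ((y⁻¹ * z : (Matrix (Fin n) (Fin n) R)ˣ) :
          Matrix (Fin n) (Fin n) R) k β.down)).symm }
  have hFT : FT d (fun _ => Finset.univ) A (fun x y => x⁻¹ * y ∈ F) := by
    refine Set.Finite.subset (hF.biUnion (t := fun g => Set.range (fun p : Fin n × Fin n =>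
      (g : Matrix (Fin n) (Fin n) R) p.1 p.2) ∪ Set.range (fun p : Fin n × Fin n =>
      ((g⁻¹ : (Matrix (Fin n) (Fin n) R)ˣ) : Matrix (Fin n) (Fin n) R) p.1 p.2))
      (fun g _ => (Set.finite_range _).union (Set.finite_range _))) ?_
    rintro r ⟨ℓ, hℓ, x, y, hxy, q, hq, p, h⟩
    simp only [Set.mem_iUnion]
    refine ⟨x⁻¹ * y, hxy, ?_⟩
    rcases h with h | h
    · exact Or.inl ⟨(p.down, q.down), h.symm⟩
    · refine Or.inr ⟨(p.down, q.down), ?_⟩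
      rw [h]
      have : (x⁻¹ * y)⁻¹ = y⁻¹ * x := by group
      simp only [A, this]
  obtain ⟨C, hC, Ω, _, _, Y, a, h1, h2⟩ := h _ _ _ _ _ A hA (fun x y => x⁻¹ * y ∈ F)
    (fun _ _ _ => rfl) hFT ε hε
  refine ⟨{g | ∀ i j, (g : Matrix (Fin n) (Fin n) R) i j ∈ C}, ?_, Ω, inferInstance, inferInstance,
    Y, a, ?_, ?_⟩
  · have h3 : {M : Fin n → Fin n → R | ∀ i, M i ∈ {v : Fin n → R | ∀ j, v j ∈ C}}.Finite :=
      Set.Finite.pi' fun _ => Set.Finite.pi' fun _ => hC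
    exact h3.preimage (f := fun g : (Matrix (Fin n) (Fin n) R)ˣ =>
      (g : Matrix (Fin n) (Fin n) R)) (Units.val_injective.injOn)
  · intro g s hs
    exact h1 g (g * s) (show g⁻¹ * (g * s) ∈ F by rwa [inv_mul_cancel_left])
  · intro g h w w' hh _
    have := h2 g h w w' hh
    intro i j
    exact this rfl ⟨j⟩ (Finset.mem_univ _) ⟨i⟩

/-- Goodness is local, with a uniform depth. -/
theorem Good.of_local {R : Type u} [Ring R] {d : ℕ} (hd : 0 < d)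
    (h : ∀ s : Set R, s.Finite → ∃ S : Subring R, s ⊆ S ∧ Good S d) : Good R (d + 1) := by
  classical
  intro X K B c W A hA Adj hAdj hF ε hε
  obtain ⟨S, hS, hG⟩ := h _ hF
  let r : Setoid X := Relation.EqvGen.setoid Adj
  let c' : X → Quotient r := fun x => Quotient.mk r x
  have hc' : ∀ x y, c' x = c' y → Relation.EqvGen Adj x y := fun x y hxy => Quotient.exact hxy
  have hcc : ∀ x y, Relation.EqvGen Adj x y → c x = c y := by
    intro x y hxy
    induction hxy with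
    | rel x y h => exact hAdj x y h
    | refl x => rfl
    | symm x y _ ih => exact ih.symm
    | trans x y z _ _ ih1 ih2 => exact ih1.trans ih2
  -- the values along the components are in `S`
  have hmem : ∀ x y, Relation.EqvGen Adj x y → ∀ z, c y = c z →
      (∀ ℓ, ℓ < d → ∀ β ∈ W ℓ, ∀ δ, A y z δ β ∈ S) →
      ∀ ℓ, ℓ < d → ∀ β ∈ W ℓ, ∀ δ, A x z δ β ∈ S := by
    have step : ∀ x y, c x = c y → (∀ ℓ, ℓ < d + 1 → ∀ β ∈ W ℓ, ∀ γ, A x y γ β ∈ S) →
        ∀ z, c y = c z → (∀ ℓ, ℓ < d → ∀ β ∈ W ℓ, ∀ δ, A y z δ β ∈ S) →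
        ∀ ℓ, ℓ < d → ∀ β ∈ W ℓ, ∀ δ, A x z δ β ∈ S := by
      intro x y hxy h1 z hyz h2 ℓ hℓ β hβ δ
      rw [hA.mul ℓ (by omega) x y z hxy hyz β hβ δ]
      exact S.sum_mem fun γ hγ => S.mul_mem (h1 (ℓ + 1) (by omega) γ hγ δ) (h2 ℓ hℓ β hβ γ)
    have main : ∀ x y, Relation.EqvGen Adj x y →
        ((∀ z, c y = c z → (∀ ℓ, ℓ < d → ∀ β ∈ W ℓ, ∀ δ, A y z δ β ∈ S) →
          ∀ ℓ, ℓ < d → ∀ β ∈ W ℓ, ∀ δ, A x z δ β ∈ S) ∧
        (∀ z, c x = c z → (∀ ℓ, ℓ < d → ∀ β ∈ W ℓ, ∀ δ, A x z δ β ∈ S) →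
          ∀ ℓ, ℓ < d → ∀ β ∈ W ℓ, ∀ δ, A y z δ β ∈ S)) := by
      intro x y hxy
      induction hxy with
      | rel x y h =>
        refine ⟨step x y (hAdj x y h) ?_, step y x (hAdj x y h).symm ?_⟩
        · intro ℓ hℓ β hβ γ
          exact hS ⟨ℓ, hℓ, x, y, h, β, hβ, γ, Or.inl rfl⟩
        · intro ℓ hℓ β hβ γ
          exact hS ⟨ℓ, hℓ, x, y, h, β, hβ, γ, Or.inr rfl⟩
      | refl x => exact ⟨fun _ _ h => h, fun _ _ h => h⟩
      | symm x y _ ih => exact ⟨ih.2, ih.1⟩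
      | trans x y z hxy hyz ih1 ih2 =>
        refine ⟨fun u hu h => ih1.1 u ((hcc y z hyz).trans hu) (ih2.1 u hu h),
          fun u hu h => ih2.2 u ((hcc x y hxy).symm.trans hu) (ih1.2 u hu h)⟩
    intro x y hxy z hyz h2
    exact (main x y hxy).1 z hyz h2
  have hrefl : ∀ x, ∀ ℓ, ℓ < d → ∀ β ∈ W ℓ, ∀ δ, A x x δ β ∈ S := by
    intro x ℓ hℓ β hβ δ
    by_cases hδ : δ = β
    · rw [hδ, (hA.refl ℓ (by omega) x β hβ).1]
      exact S.one_mem
    · rw [(hA.refl ℓ (by omega) x β hβ).2 δ hδ]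
      exact S.zero_mem
  have hval : ∀ x y, c' x = c' y → ∀ ℓ, ℓ < d → ∀ β ∈ W ℓ, ∀ δ, A x y δ β ∈ S :=
    fun x y hxy => hmem x y (hc' x y hxy) y rfl (hrefl y)
  let A' : X → X → B → B → S := fun x y γ β => if h : A x y γ β ∈ S then ⟨A x y γ β, h⟩ else 0
  have hA1 : ∀ x y, c' x = c' y → ∀ ℓ, ℓ < d → ∀ β ∈ W ℓ, ∀ δ, (A' x y δ β : R) = A x y δ β := by
    intro x y hxy ℓ hℓ β hβ δ
    simp only [A', dif_pos (hval x y hxy ℓ hℓ β hβ δ)]
  have hA' : Sys S d c' W A' :=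
    { mono := hA.mono
      supp := by
        intro ℓ hℓ x y hxy β hβ γ hγ
        apply Subtype.ext
        rw [hA1 x y hxy ℓ hℓ β hβ γ, hA.supp ℓ (by omega) x y (hcc _ _ (hc' _ _ hxy)) β hβ γ hγ]
        rfl
      refl := by
        intro ℓ hℓ x β hβ
        obtain ⟨h1, h2⟩ := hA.refl ℓ (by omega) x β hβ
        refine ⟨Subtype.ext ?_, fun γ hγ => Subtype.ext ?_⟩
        · rw [hA1 x x rfl ℓ hℓ β hβ, h1]
          rfl
        · rw [hA1 x x rfl ℓ hℓ β hβ, h2 γ hγ]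
          rfl
      mul := by
        intro ℓ hℓ x y z h1 h2 β hβ δ
        apply Subtype.ext
        rw [hA1 x z (h1.trans h2) ℓ (by omega) β hβ δ,
          hA.mul ℓ (by omega) x y z (hcc _ _ (hc' _ _ h1)) (hcc _ _ (hc' _ _ h2)) β hβ δ]
        push_cast
        refine Finset.sum_congr rfl fun γ hγ => ?_
        rw [hA1 x y h1 (ℓ + 1) hℓ γ hγ δ, hA1 y z h2 ℓ (by omega) β hβ γ] }
  have hAdj' : ∀ x y, Adj x y → c' x = c' y :=
    fun x y hxy => Quotient.sound (Relation.EqvGen.rel x y hxy)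
  have hF' : FT d W A' Adj := by
    refine Set.Finite.subset (hF.preimage (f := fun s : S => (s : R)) Subtype.val_injective.injOn) ?_
    rintro r ⟨ℓ, hℓ, x, y, hxy, β, hβ, γ, h | h⟩
    · refine ⟨ℓ, by omega, x, y, hxy, β, hβ, γ, Or.inl ?_⟩
      rw [h]
      exact hA1 x y (hAdj' x y hxy) ℓ hℓ β hβ γ
    · refine ⟨ℓ, by omega, x, y, hxy, β, hβ, γ, Or.inr ?_⟩
      rw [h]
      exact hA1 y x (hAdj' x y hxy).symm ℓ hℓ β hβ γ
  obtain ⟨C, hC, hW⟩ := hG X (Quotient r) B c' W A' hA' Adj hAdj' hF' ε hε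
  refine ⟨(fun s : S => (s : R)) '' C, hC.image _, (hW.label c' hAdj').mono (fun _ _ h => h) le_rfl
    ?_⟩
  rintro x y ⟨h1, h2⟩ _ β hβ γ
  refine ⟨A' x y γ β, h2 β hβ γ, hA1 x y h1 0 hd β hβ γ⟩

/-- Fibering, with a choice of the final set. -/
theorem WF.fib_exists {X : Type u} {Adj : X → X → Prop} {ε : ℝ} (hε : 0 < ε)
    {Sep1 : X → X → Prop} {ι : Type v} (P : ι → Prop) (Sep : ι → X → X → Prop)
    (h1 : WF Adj (ε / 2) Sep1)
    (h2 : ∀ (Z : Type u) (π : Z → X) (K : Type u) (κ : Z → K),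
      (∀ z z', κ z = κ z' → Sep1 (π z) (π z')) →
      ∃ i, P i ∧ WF (fun z z' => Adj (π z) (π z') ∧ κ z = κ z') (ε / 2)
        (fun z z' => κ z = κ z' → Sep i (π z) (π z'))) :
    ∃ i, P i ∧ WF Adj ε (Sep i) := by
  classical
  obtain ⟨Ω, _, _, Y, a, k1, k2⟩ := h1
  obtain ⟨i, hi, Ω', _, _, Y', a', i1, i2⟩ := h2 (X × Ω) Prod.fst Y (fun z => a z.1 z.2)
    (fun z z' h => k2 _ _ _ _ h)
  refine ⟨i, hi, Ω × Ω', inferInstance, inferInstance, Y × Y',
    fun x w => (a x w.1, a' (x, w.1) w.2), ?_, ?_⟩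
  · intro x y hxy
    obtain ⟨W, p, hp, hW, hc⟩ := k1 x y hxy
    have hk : ∀ w ∈ W, ∃ (W' : Finset Ω') (p' : Ω' → Ω'), Set.InjOn p' W' ∧
        (∀ w' ∈ W', a' (x, w) w' = a' (y, p w) (p' w')) ∧
        (1 - ε / 2) * (Fintype.card Ω' : ℝ) ≤ (W'.card : ℝ) :=
      fun w hw => i1 (x, w) (y, p w) ⟨hxy, hW w hw⟩
    choose! W' p' hp' hW' hc' using hk
    obtain ⟨V, hV1, hV2, hV3⟩ := fib_match hε W p hp hc W' p' hp' hc'
    refine ⟨V, _, hV2, ?_, hV3⟩
    rintro ⟨w, w'⟩ hw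
    obtain ⟨hw1, hw2⟩ := (hV1 _).mp hw
    exact Prod.ext (hW w hw1) (hW' w hw1 w' hw2)
  · rintro x y ⟨w, w'⟩ ⟨v, v'⟩ hh
    simp only [Prod.mk.injEq] at hh
    exact i2 (x, w) (y, v) w' v' hh.2 hh.1

end Pool.Agent.N506.EX
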