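import Pool.Agent.N506.EYE

/-!
# Coset components of group rings, and the tower step
-/

namespace Pool.Agent.N506.EX

open MonoidAlgebra

universe u v w

section Coset

variable {A : Type u} [CommRing A] {G : Type u} [Group G] (N : Subgroup G)

/-- The inclusion of the group ring of a subgroup. -/
noncomputable def inc : MonoidAlgebra A N →+* MonoidAlgebra A G :=
  MonoidAlgebra.mapDomainRingHom A N.subtype

theorem inc_injective : Function.Injective (inc (A := A) N) :=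
  MonoidAlgebra.mapDomain_injective N.subtype_injective

theorem inc_single (n : N) (a : A) :
    inc N (MonoidAlgebra.single n a) = MonoidAlgebra.single (n : G) a :=
  MonoidAlgebra.mapDomain_single

theorem coeff_inc (y : MonoidAlgebra A N) (n : N) : (inc N y).coeff (n : G) = y.coeff n := by
  change (Finsupp.mapDomain N.subtype y.coeff) (N.subtype n) = _
  exact Finsupp.mapDomain_apply N.subtype_injective _ _

theorem coeff_inc_of_notMem (y : MonoidAlgebra A N) {g : G} (hg : g ∉ N) :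
    (inc N y).coeff g = 0 := by
  change (Finsupp.mapDomain N.subtype y.coeff) g = _
  refine Finsupp.mapDomain_of_notMem_range _ _ ?_
  rintro ⟨n, rfl⟩
  exact hg n.2

/-- The component on the left coset of `s`. -/
noncomputable def cf (s : G) : MonoidAlgebra A G →+ MonoidAlgebra A N :=
  MonoidAlgebra.comapDomainAddMonoidHom (fun n : N => s * n)
    (fun _ _ h => Subtype.ext (mul_left_cancel h))

theorem coeff_cf (s : G) (x : MonoidAlgebra A G) (n : N) :
    (cf N s x).coeff n = x.coeff (s * n) := rfl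

theorem cf_mul_inc (s : G) (x : MonoidAlgebra A G) (y : MonoidAlgebra A N) :
    cf N s (x * inc N y) = cf N s x * y := by
  induction y using MonoidAlgebra.induction_linear with
  | zero => rw [map_zero, mul_zero, mul_zero, map_zero]
  | add y z hy hz => rw [map_add, mul_add, mul_add, map_add, hy, hz]
  | single n a =>
    rw [inc_single, ← MonoidAlgebra.coeff_inj]
    ext m
    rw [coeff_cf, MonoidAlgebra.coeff_mul_single_apply, MonoidAlgebra.coeff_mul_single_apply,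
      coeff_cf, mul_assoc]
    rfl

/-- The component on the right coset of `s`. -/
noncomputable def cl (s : G) : MonoidAlgebra A G →+ MonoidAlgebra A N :=
  MonoidAlgebra.comapDomainAddMonoidHom (fun n : N => n * s)
    (fun _ _ h => Subtype.ext (mul_right_cancel h))

theorem coeff_cl (s : G) (x : MonoidAlgebra A G) (n : N) :
    (cl N s x).coeff n = x.coeff (n * s) := rfl

theorem cl_inc_mul (s : G) (x : MonoidAlgebra A G) (y : MonoidAlgebra A N) :
    cl N s (inc N y * x) = y * cl N s x := by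
  induction y using MonoidAlgebra.induction_linear with
  | zero => rw [map_zero, zero_mul, zero_mul, map_zero]
  | add y z hy hz => rw [map_add, add_mul, add_mul, map_add, hy, hz]
  | single n a =>
    rw [inc_single, ← MonoidAlgebra.coeff_inj]
    ext m
    rw [coeff_cl, MonoidAlgebra.coeff_single_mul_apply, MonoidAlgebra.coeff_single_mul_apply,
      coeff_cl, ← mul_assoc]
    rfl

variable [N.Normal]

/-- Decomposition on the left cosets. -/
theorem cf_sum (x : MonoidAlgebra A G) (U : Finset (G ⧸ N))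
    (hU : ∀ g, x.coeff g ≠ 0 → (g : G ⧸ N) ∈ U) :
    ∑ q ∈ U, MonoidAlgebra.single (q.out : G) (1 : A) * inc N (cf N q.out x) = x := by
  classical
  rw [← MonoidAlgebra.coeff_inj]
  ext g
  rw [MonoidAlgebra.coeff_sum, Finset.sum_apply']
  simp only [MonoidAlgebra.coeff_single_mul_apply, one_mul]
  have h1 : ∀ q : G ⧸ N, q ≠ (g : G ⧸ N) →
      (inc N (cf N q.out x)).coeff ((q.out : G)⁻¹ * g) = 0 := by
    intro q hq
    refine coeff_inc_of_notMem N _ fun h => hq ?_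
    rw [← QuotientGroup.eq, QuotientGroup.out_eq'] at h
    exact h
  by_cases hg : (g : G ⧸ N) ∈ U
  · rw [Finset.sum_eq_single (g : G ⧸ N) (fun q _ hq => h1 q hq) (fun h => absurd hg h)]
    have h2 : ((g : G ⧸ N).out : G)⁻¹ * g ∈ N := by
      rw [← QuotientGroup.eq, QuotientGroup.out_eq']
    have h3 := coeff_inc N (cf N ((g : G ⧸ N).out : G) x) ⟨_, h2⟩
    rw [coeff_cf] at h3
    simp only [mul_inv_cancel_left] at h3
    exact h3
  · rw [Finset.sum_eq_zero (fun q hq => h1 q (fun h => hg (h ▸ hq)))]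
    by_contra h
    exact hg (hU g (Ne.symm h))

theorem coeff_mul_out {x : MonoidAlgebra A G} {T : Finset (G ⧸ N)}
    (hT : ∀ g, x.coeff g ≠ 0 → (g : G ⧸ N) ∈ T) (τ : G ⧸ N) (g : G)
    (hg : (x * MonoidAlgebra.single (τ.out : G) (1 : A)).coeff g ≠ 0) :
    ∃ t ∈ T, (g : G ⧸ N) = t * τ := by
  rw [MonoidAlgebra.coeff_mul_single_apply, mul_one] at hg
  refine ⟨_, hT _ hg, ?_⟩
  rw [QuotientGroup.mk_mul, QuotientGroup.mk_inv, QuotientGroup.out_eq', inv_mul_cancel_right]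

theorem cf_mul_out {x : MonoidAlgebra A G} {T : Finset (G ⧸ N)}
    (hT : ∀ g, x.coeff g ≠ 0 → (g : G ⧸ N) ∈ T) (τ σ : G ⧸ N)
    (h : ∀ t ∈ T, σ ≠ t * τ) :
    cf N σ.out (x * MonoidAlgebra.single (τ.out : G) (1 : A)) = 0 := by
  rw [← MonoidAlgebra.coeff_inj]
  ext n
  rw [coeff_cf]
  by_contra h1
  obtain ⟨t, ht, h2⟩ := coeff_mul_out N hT τ _ h1
  rw [QuotientGroup.mk_mul_of_mem _ n.2, QuotientGroup.out_eq'] at h2
  exact h t ht h2

theorem cf_out_same (τ : G ⧸ N) :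
    cf N τ.out (MonoidAlgebra.single (τ.out : G) (1 : A)) = 1 := by
  rw [← MonoidAlgebra.coeff_inj]
  ext n
  rw [coeff_cf, MonoidAlgebra.one_def, MonoidAlgebra.coeff_single, MonoidAlgebra.coeff_single]
  classical
  rw [Finsupp.single_apply, Finsupp.single_apply]
  refine if_congr ?_ rfl rfl
  constructor
  · intro h
    apply Subtype.ext
    exact (mul_eq_left.mp h.symm).symm
  · intro h
    rw [← h, Subgroup.coe_one, mul_one]

theorem cf_out_ne {τ σ : G ⧸ N} (h : σ ≠ τ) :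
    cf N σ.out (MonoidAlgebra.single (τ.out : G) (1 : A)) = 0 := by
  rw [← MonoidAlgebra.coeff_inj]
  ext n
  rw [coeff_cf, MonoidAlgebra.coeff_single]
  classical
  rw [Finsupp.single_apply, if_neg]
  · rfl
  · intro h1
    apply h
    have h2 : ((τ.out : G) : G ⧸ N) = ((σ.out * (n : G) : G) : G ⧸ N) := by rw [h1]
    rw [QuotientGroup.mk_mul_of_mem _ n.2, QuotientGroup.out_eq', QuotientGroup.out_eq'] at h2
    exact h2.symm

theorem cf_finite (x : MonoidAlgebra A G) :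
    (Set.range fun σ : G ⧸ N => cf N σ.out x).Finite := by
  classical
  refine Set.Finite.subset (((x.coeff.support.image (fun g : G => (QuotientGroup.mk g : G ⧸ N))).image
    (fun σ : G ⧸ N => cf N σ.out x)).finite_toSet.union (Set.finite_singleton 0)) ?_
  rintro _ ⟨σ, rfl⟩
  by_cases h : σ ∈ x.coeff.support.image (fun g : G => (QuotientGroup.mk g : G ⧸ N))
  · exact Or.inl (Finset.mem_coe.mpr (Finset.mem_image_of_mem _ h))
  · refine Or.inr ?_
    rw [Set.mem_singleton_iff, ← MonoidAlgebra.coeff_inj]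
    ext n
    rw [coeff_cf]
    by_contra h1
    apply h
    rw [Finset.mem_image]
    refine ⟨_, Finsupp.mem_support_iff.mpr h1, ?_⟩
    rw [QuotientGroup.mk_mul_of_mem _ n.2, QuotientGroup.out_eq']

end Coset

/-- The tower step. -/
theorem Good.tower {A : Type u} [CommRing A] {G : Type u} [Group G] (N : Subgroup G) [N.Normal]
    (O : ℕ → Set (MonoidAlgebra A G)) (hB : Bdd (MonoidAlgebra A G) O)
    (T : ℕ → Finset (G ⧸ N))
    (hT : ∀ S, ∀ x ∈ O S, ∀ g, x.coeff g ≠ 0 → (g : G ⧸ N) ∈ T S) {d : ℕ}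
    (hN : Good (MonoidAlgebra A N) d) : Good (MonoidAlgebra A G) (d + 3) := by
  classical
  intro X K B c W M hM Adj hAdj hF ε hε
  have hM3 : Sys (MonoidAlgebra A G) (3 + d) c W M := hM.le (by omega)
  have hF3 : FT (3 + d) W M Adj := hF.le (by omega)
  obtain ⟨S, hS⟩ := hB X K B c (fun ℓ => W (ℓ + d)) M (hM3.shift d) Adj hAdj (hF3.shift d) (ε / 2)
    (by positivity)
  have hS' := hS.label c hAdj
  -- the windows
  obtain ⟨T', hT'0, hT's⟩ : ∃ T' : ℕ → Finset (G ⧸ N), T' 0 = {1} ∧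
      ∀ ℓ, T' (ℓ + 1) = T' ℓ ∪ Finset.image₂ (fun s t : G ⧸ N => s * t) (T S) (T' ℓ) :=
    ⟨fun ℓ => Nat.rec {1} (fun _ U => U ∪ Finset.image₂ (fun s t : G ⧸ N => s * t) (T S) U) ℓ,
      rfl, fun _ => rfl⟩
  have hT'm : ∀ ℓ, T' ℓ ⊆ T' (ℓ + 1) := fun ℓ => by
    rw [hT's]
    exact Finset.subset_union_left
  have hT'mm : ∀ m n, m ≤ n → T' m ⊆ T' n := by
    intro m n hmn
    induction n, hmn using Nat.le_induction with
    | base => exact subset_rfl
    | succ n _ ih => exact ih.trans (hT'm n)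
  have hT't : ∀ ℓ, ∀ t ∈ T S, ∀ τ ∈ T' ℓ, t * τ ∈ T' (ℓ + 1) := by
    intro ℓ t ht τ hτ
    rw [hT's]
    exact Finset.mem_union_right _ (Finset.mem_image₂_of_mem ht hτ)
  refine WF.fib_exists hε (fun C : Set (MonoidAlgebra A G) => C.Finite)
    (fun C x y => c x = c y → ∀ β ∈ W 0, ∀ γ, M x y γ β ∈ C) hS' ?_
  intro Z π K' κ hκ
  have hκc : ∀ z z', κ z = κ z' → c (π z) = c (π z') := fun z z' h => (hκ z z' h).1
  have hκO : ∀ z z', κ z = κ z' → ∀ ℓ, ℓ ≤ d → ∀ β ∈ W ℓ, ∀ γ, ∀ g,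
      (M (π z) (π z') γ β).coeff g ≠ 0 → (g : G ⧸ N) ∈ T S := by
    intro z z' h ℓ hℓ β hβ γ
    exact hT S _ ((hκ z z' h).2 β (hM.mono_le (by omega) hβ) γ)
  let e : G ⧸ N → MonoidAlgebra A G := fun τ => MonoidAlgebra.single (τ.out : G) (1 : A)
  let A' : Z → Z → B × (G ⧸ N) → B × (G ⧸ N) → MonoidAlgebra A N :=
    fun z z' p q => cf N p.2.out (M (π z) (π z') p.1 q.1 * e q.2)
  let W' : ℕ → Finset (B × (G ⧸ N)) := fun ℓ => W ℓ ×ˢ T' ℓ
  have hW' : ∀ ℓ p, p ∈ W' ℓ ↔ p.1 ∈ W ℓ ∧ p.2 ∈ T' ℓ := fun ℓ p => Finset.mem_product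
  -- decomposition
  have hdec : ∀ z z', κ z = κ z' → ∀ ℓ, ℓ ≤ d → ∀ β ∈ W ℓ, ∀ τ ∈ T' ℓ, ∀ γ,
      ∑ σ ∈ T' (ℓ + 1), e σ * inc N (A' z z' (γ, σ) (β, τ)) = M (π z) (π z') γ β * e τ := by
    intro z z' h ℓ hℓ β hβ τ hτ γ
    have h0 : ∀ g, (M (π z) (π z') γ β * e τ).coeff g ≠ 0 → (g : G ⧸ N) ∈ T' (ℓ + 1) := by
      intro g hg
      obtain ⟨t, ht, h1⟩ := coeff_mul_out N (hκO z z' h ℓ hℓ β hβ γ) τ g hg
      rw [h1]
      exact hT't ℓ t ht τ hτ
    exact cf_sum N (M (π z) (π z') γ β * e τ) (T' (ℓ + 1)) h0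
  have hA' : Sys (MonoidAlgebra A N) d κ W' A' :=
    { mono := by
        intro ℓ p hp
        rw [hW'] at hp ⊢
        exact ⟨hM.mono ℓ hp.1, hT'm ℓ hp.2⟩
      supp := by
        intro ℓ hℓ z z' h q hq p hp
        rw [hW'] at hq hp
        simp only [A']
        by_cases h1 : p.1 ∈ W (ℓ + 1)
        · refine cf_mul_out N (hκO z z' h ℓ hℓ.le q.1 hq.1 p.1) q.2 p.2 ?_
          intro t ht h2
          exact hp ⟨h1, h2 ▸ hT't ℓ t ht q.2 hq.2⟩
        · rw [hM.supp ℓ (by omega) _ _ (hκc z z' h) q.1 hq.1 p.1 h1, zero_mul, map_zero]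
      refl := by
        intro ℓ hℓ z q hq
        rw [hW'] at hq
        obtain ⟨h1, h2⟩ := hM.refl ℓ (by omega) (π z) q.1 hq.1
        refine ⟨by simp only [A']; rw [h1, one_mul]; exact cf_out_same N q.2, fun p hp => ?_⟩
        simp only [A']
        by_cases h : p.1 = q.1
        · rw [h, h1, one_mul]
          exact cf_out_ne N fun h3 => hp (Prod.ext h h3)
        · rw [h2 p.1 h, zero_mul, map_zero]
      mul := by
        intro ℓ hℓ x y z h1 h2 q hq p
        rw [hW'] at hq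
        change cf N p.2.out (M (π x) (π z) p.1 q.1 * e q.2) = _
        rw [hM.mul ℓ (by omega) _ _ _ (hκc x y h1) (hκc y z h2) q.1 hq.1 p.1, Finset.sum_mul,
          map_sum, Finset.sum_product]
        refine Finset.sum_congr rfl fun γ _ => ?_
        rw [mul_assoc, ← hdec y z h2 ℓ (by omega) q.1 hq.1 q.2 hq.2 γ, Finset.mul_sum, map_sum]
        refine Finset.sum_congr rfl fun σ _ => ?_
        rw [← mul_assoc, cf_mul_inc] }
  have hF' : FT d W' A' (fun z z' => Adj (π z) (π z') ∧ κ z = κ z') := by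
    refine Set.Finite.subset (hF.biUnion (t := fun r => ⋃ τ ∈ (T' d : Set (G ⧸ N)),
      Set.range fun σ : G ⧸ N => cf N σ.out (r * e τ))
      (fun r _ => (T' d).finite_toSet.biUnion fun τ _ => cf_finite N _)) ?_
    rintro r ⟨ℓ, hℓ, x, y, hxy, q, hq, p, h⟩
    rw [hW'] at hq
    simp only [Set.mem_iUnion]
    rcases h with h | h
    · exact ⟨_, ⟨ℓ, by omega, _, _, hxy.1, q.1, hq.1, p.1, Or.inl rfl⟩, q.2,
        hT'mm ℓ d hℓ.le hq.2, p.2, h.symm⟩
    · exact ⟨_, ⟨ℓ, by omega, _, _, hxy.1, q.1, hq.1, p.1, Or.inr rfl⟩, q.2,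
        hT'mm ℓ d hℓ.le hq.2, p.2, h.symm⟩
  obtain ⟨C', hC', hW⟩ := hN Z K' _ κ W' A' hA' (fun z z' => Adj (π z) (π z') ∧ κ z = κ z')
    (fun _ _ h => h.2) hF' (ε / 2) (by positivity)
  let F : (T' 1 → MonoidAlgebra A N) → MonoidAlgebra A G := fun b =>
    (∑ σ : T' 1, e σ * inc N (b σ)) * MonoidAlgebra.single (((1 : G ⧸ N).out : G)⁻¹) (1 : A)
  refine ⟨F '' {b | ∀ σ, b σ ∈ C'}, (Set.Finite.pi' fun _ => hC').image F,
    hW.mono (fun _ _ h => h) le_rfl ?_⟩
  intro z z' h hzz _ β hβ γ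
  have h1 : (1 : G ⧸ N) ∈ T' 0 := by
    rw [hT'0]
    exact Finset.mem_singleton_self 1
  have h2 := hdec z z' hzz 0 (by omega) β hβ 1 h1 γ
  refine ⟨fun σ => A' z z' (γ, (σ : G ⧸ N)) (β, 1), fun σ => h hzz (β, 1)
    (by rw [hW']; exact ⟨hβ, h1⟩) (γ, (σ : G ⧸ N)), ?_⟩
  simp only [F]
  have h3 : ∑ σ : T' 1, e σ * inc N (A' z z' (γ, (σ : G ⧸ N)) (β, 1)) =
      M (π z) (π z') γ β * e 1 := by
    rw [← h2]
    exact Finset.sum_coe_sort (T' 1) (fun σ => e σ * inc N (A' z z' (γ, σ) (β, 1)))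
  rw [h3, mul_assoc]
  simp only [e]
  rw [MonoidAlgebra.single_mul_single, mul_inv_cancel, one_mul, ← MonoidAlgebra.one_def, mul_one]

end Pool.Agent.N506.EX
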