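import Pool.Agent.N506.EYG

/-!
# Group rings which are Ore domains
-/

namespace Pool.Agent.N506.EX

open MonoidAlgebra

universe u v w

/-- The left Ore condition (for a domain). -/
def LO (R : Type u) [Ring R] : Prop := ∀ a b : R, b ≠ 0 → ∃ a' b' : R, b' ≠ 0 ∧ b' * a = a' * b

/-- Over a left Ore domain, a homogeneous linear system with more unknowns than equations has a
nonzero solution. -/
theorem LO.system {R : Type u} [Ring R] [NoZeroDivisors R] [Nontrivial R] (h : LO R) (q : ℕ) :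
    ∀ p : ℕ, q < p → ∀ M : Fin p → Fin q → R,
      ∃ x : Fin p → R, x ≠ 0 ∧ ∀ j, ∑ i, x i * M i j = 0 := by
  classical
  induction q with
  | zero =>
    intro p hp M
    refine ⟨fun _ => 1, ?_, fun j => j.elim0⟩
    intro h1
    exact one_ne_zero (congrFun h1 ⟨0, hp⟩)
  | succ q ih =>
    intro p hp M
    by_cases hA : ∀ i, M i (Fin.last q) = 0
    · obtain ⟨x, hx, h1⟩ := ih p (by omega) (fun i j => M i j.castSucc)
      refine ⟨x, hx, fun j => ?_⟩
      refine Fin.lastCases ?_ (fun j => h1 j) j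
      simp [hA]
    · push Not at hA
      obtain ⟨i₀, hi₀⟩ := hA
      obtain ⟨p', rfl⟩ : ∃ p', p = p' + 1 := ⟨p - 1, by omega⟩
      have h2 : ∀ i : Fin p', ∃ d c : R, c ≠ 0 ∧
          c * M (i₀.succAbove i) (Fin.last q) = d * M i₀ (Fin.last q) := fun i => h _ _ hi₀
      choose d c hc hdc using h2
      obtain ⟨x, hx, h1⟩ := ih p' (by omega)
        (fun i j => c i * M (i₀.succAbove i) j.castSucc - d i * M i₀ j.castSucc)
      refine ⟨i₀.insertNth (-∑ i, x i * d i) (fun i => x i * c i), ?_, fun j => ?_⟩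
      · intro h3
        apply hx
        funext i
        have h4 := congrFun h3 (i₀.succAbove i)
        rw [Fin.insertNth_apply_succAbove] at h4
        exact (mul_eq_zero.mp h4).resolve_right (hc i)
      · rw [Fin.sum_univ_succAbove _ i₀]
        simp only [Fin.insertNth_apply_same, Fin.insertNth_apply_succAbove]
        have h5 : ∑ i, x i * (c i * M (i₀.succAbove i) j - d i * M i₀ j) = 0 := by
          refine Fin.lastCases ?_ (fun j => h1 j) j
          refine Finset.sum_eq_zero fun i _ => ?_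
          rw [hdc i, sub_self, mul_zero]
        rw [neg_mul, Finset.sum_mul, ← sub_eq_neg_add, sub_eq_zero, ← sub_eq_zero,
          ← Finset.sum_sub_distrib]
        rw [← h5]
        refine Finset.sum_congr rfl fun i _ => ?_
        rw [mul_sub, mul_assoc, mul_assoc]

theorem LO.system' {R : Type u} [Ring R] [NoZeroDivisors R] [Nontrivial R] (h : LO R)
    {ι : Type v} {κ : Type w} [Fintype ι] [Fintype κ] (hc : Fintype.card κ < Fintype.card ι)
    (M : ι → κ → R) : ∃ x : ι → R, x ≠ 0 ∧ ∀ j, ∑ i, x i * M i j = 0 := by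
  obtain ⟨x, hx, h1⟩ := h.system _ _ hc
    (fun i j => M ((Fintype.equivFin ι).symm i) ((Fintype.equivFin κ).symm j))
  refine ⟨fun i => x (Fintype.equivFin ι i), ?_, fun j => ?_⟩
  · intro h2
    apply hx
    funext i
    have := congrFun h2 ((Fintype.equivFin ι).symm i)
    simpa using this
  · have h3 := h1 (Fintype.equivFin κ j)
    rw [← Equiv.sum_comp (Fintype.equivFin ι)] at h3
    simpa using h3

theorem LO.congr {R : Type u} [Ring R] {S : Type v} [Ring S] (e : R ≃+* S) (h : LO R) : LO S := by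
  intro a b hb
  obtain ⟨a', b', h1, h2⟩ := h (e.symm a) (e.symm b) (by simpa using hb)
  refine ⟨e a', e b', by simpa using h1, ?_⟩
  have := congrArg e h2
  simpa using this

section Z

variable {K : Type u} [CommRing K] {G : Type u} [Group G] (φ : G →* Multiplicative ℤ)

/-- The elements of `φ`-degree in an interval. -/
def Sp (lo hi : ℤ) (x : MonoidAlgebra K G) : Prop :=
  ∀ g, x.coeff g ≠ 0 → lo ≤ (φ g).toAdd ∧ (φ g).toAdd ≤ hi

theorem Sp.zero (lo hi : ℤ) : Sp φ lo hi (0 : MonoidAlgebra K G) := fun g hg => absurd rfl hg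

theorem Sp.add {lo hi : ℤ} {x y : MonoidAlgebra K G} (hx : Sp φ lo hi x) (hy : Sp φ lo hi y) :
    Sp φ lo hi (x + y) := by
  intro g hg
  by_cases h : x.coeff g = 0
  · refine hy g fun h1 => hg ?_
    rw [MonoidAlgebra.coeff_add, Finsupp.add_apply, h, h1, add_zero]
  · exact hx g h

theorem Sp.neg {lo hi : ℤ} {x : MonoidAlgebra K G} (hx : Sp φ lo hi x) : Sp φ lo hi (-x) := by
  intro g hg
  refine hx g fun h => hg ?_
  rw [MonoidAlgebra.coeff_neg, Finsupp.neg_apply, h, neg_zero]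

theorem Sp.sum {ι : Type*} {lo hi : ℤ} (s : Finset ι) (x : ι → MonoidAlgebra K G)
    (hx : ∀ i ∈ s, Sp φ lo hi (x i)) : Sp φ lo hi (∑ i ∈ s, x i) := by
  classical
  induction s using Finset.induction_on with
  | empty => rw [Finset.sum_empty]; exact Sp.zero φ lo hi
  | insert i s hi ih =>
    rw [Finset.sum_insert hi]
    exact (hx i (Finset.mem_insert_self _ _)).add φ
      (ih fun j hj => hx j (Finset.mem_insert_of_mem hj))

theorem Sp.single_mul {lo hi : ℤ} (g : G) (a : K) {x : MonoidAlgebra K G} (hx : Sp φ lo hi x)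
    {lo' hi' : ℤ} (h1 : lo' ≤ (φ g).toAdd + lo) (h2 : (φ g).toAdd + hi ≤ hi') :
    Sp φ lo' hi' (MonoidAlgebra.single g a * x) := by
  intro g' hg'
  rw [MonoidAlgebra.coeff_single_mul_apply] at hg'
  have h3 := hx _ (right_ne_zero_of_mul hg')
  rw [map_mul, map_inv, toAdd_mul, toAdd_inv] at h3
  omega

theorem Sp.inc_mul {lo hi : ℤ} (y : MonoidAlgebra K φ.ker) {x : MonoidAlgebra K G}
    (hx : Sp φ lo hi x) : Sp φ lo hi (inc φ.ker y * x) := by
  induction y using MonoidAlgebra.induction_linear with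
  | zero => rw [map_zero, zero_mul]; exact Sp.zero φ lo hi
  | add y z hy hz => rw [map_add, add_mul]; exact hy.add φ hz
  | single n a =>
    rw [inc_single]
    have h1 : (φ (n : G)).toAdd = 0 := by rw [n.2]; rfl
    exact hx.single_mul φ _ _ (by rw [h1, zero_add]) (by rw [h1, zero_add])

theorem exists_Sp (x : MonoidAlgebra K G) : ∃ B : ℕ, Sp φ (-(B:ℤ)) B x := by
  obtain ⟨B, hB⟩ := (x.coeff.support.image fun g => ((φ g).toAdd).natAbs).finite_toSet.bddAbove
  refine ⟨B, fun g hg => ?_⟩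
  have := hB (Finset.mem_coe.mpr (Finset.mem_image_of_mem _ (Finsupp.mem_support_iff.mpr hg)))
  have h1 : ((φ g).toAdd).natAbs ≤ B := this
  omega

theorem Sp.mono {lo hi lo' hi' : ℤ} {x : MonoidAlgebra K G} (hx : Sp φ lo hi x) (h1 : lo' ≤ lo)
    (h2 : hi ≤ hi') : Sp φ lo' hi' x := fun g hg => ⟨h1.trans (hx g hg).1, (hx g hg).2.trans h2⟩

theorem cl_pow_same (t : G) (i : ℤ) :
    cl φ.ker (t ^ i) (MonoidAlgebra.single (t ^ i) (1 : K)) = 1 := by
  classical
  rw [← MonoidAlgebra.coeff_inj]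
  ext n
  rw [coeff_cl, MonoidAlgebra.one_def, MonoidAlgebra.coeff_single, MonoidAlgebra.coeff_single,
    Finsupp.single_apply, Finsupp.single_apply]
  refine if_congr ?_ rfl rfl
  constructor
  · intro h
    apply Subtype.ext
    exact (mul_eq_right.mp h.symm).symm
  · intro h
    rw [← h, Subgroup.coe_one, one_mul]

theorem cl_pow_ne (t : G) (ht : (φ t).toAdd = 1) {i j : ℤ} (hij : i ≠ j) :
    cl φ.ker (t ^ j) (MonoidAlgebra.single (t ^ i) (1 : K)) = 0 := by
  classical
  rw [← MonoidAlgebra.coeff_inj]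
  ext n
  rw [coeff_cl, MonoidAlgebra.coeff_single, Finsupp.single_apply, if_neg]
  · rfl
  · intro h
    have h1 := congrArg (fun g => (φ g).toAdd) h
    simp only [map_mul, map_zpow, toAdd_mul, toAdd_zpow, ht, smul_eq_mul, mul_one] at h1
    have h2 : (φ (n : G)).toAdd = 0 := by rw [n.2]; rfl
    rw [h2, zero_add] at h1
    exact hij h1

/-- The Ore condition for an extension by `ℤ`. -/
theorem LO.ext_int [Nontrivial K] [NoZeroDivisors (MonoidAlgebra K G)] (t : G)
    (ht : (φ t).toAdd = 1) (h : LO (MonoidAlgebra K φ.ker)) : LO (MonoidAlgebra K G) := by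
  classical
  have hd : NoZeroDivisors (MonoidAlgebra K φ.ker) :=
    (inc_injective (A := K) φ.ker).noZeroDivisors _ (map_zero _) (map_mul _)
  have hn : Nontrivial (MonoidAlgebra K φ.ker) := inferInstance
  intro a b hb
  obtain ⟨B1, hB1⟩ := exists_Sp φ a
  obtain ⟨B2, hB2⟩ := exists_Sp φ b
  obtain ⟨B, hBa, hBb⟩ : ∃ B : ℕ, Sp φ (-(B:ℤ)) B a ∧ Sp φ (-(B:ℤ)) B b :=
    ⟨max B1 B2, hB1.mono φ (by omega) (by omega), hB2.mono φ (by omega) (by omega)⟩
  -- the unknowns
  let v : Fin (2 * B + 1) ⊕ Fin (2 * B + 1) → MonoidAlgebra K G := Sum.elim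
    (fun i => MonoidAlgebra.single (t ^ ((i : ℕ) : ℤ)) 1 * a)
    (fun i => -(MonoidAlgebra.single (t ^ ((i : ℕ) : ℤ)) 1 * b))
  have hφt : ∀ i : ℤ, (φ (t ^ i)).toAdd = i := by
    intro i
    rw [map_zpow, toAdd_zpow, ht, smul_eq_mul, mul_one]
  have hv : ∀ i, Sp φ (-(B:ℤ)) (3 * B) (v i) := by
    rintro (i | i)
    · refine hBa.single_mul φ _ _ ?_ ?_
      · rw [hφt]; omega
      · rw [hφt]
        have := i.2
        omega
    · refine Sp.neg φ (hBb.single_mul φ _ _ ?_ ?_)
      · rw [hφt]; omega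
      · rw [hφt]
        have := i.2
        omega
  obtain ⟨x, hx, hsol⟩ := h.system' (ι := Fin (2 * B + 1) ⊕ Fin (2 * B + 1))
    (κ := Fin (4 * B + 1)) (by simp; omega)
    (fun i l => cl φ.ker (t ^ (-(B:ℤ) + ((l : ℕ) : ℤ))) (v i))
  have hy : ∑ i, inc φ.ker (x i) * v i = 0 := by
    rw [← MonoidAlgebra.coeff_inj]
    ext g
    by_contra hg
    have h1 := (Sp.sum φ Finset.univ (fun i => inc φ.ker (x i) * v i)
      (fun i _ => (hv i).inc_mul φ (x i))) g hg
    obtain ⟨l, hl⟩ : ∃ l : Fin (4 * B + 1), (φ g).toAdd = -(B:ℤ) + ((l : ℕ) : ℤ) :=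
      ⟨⟨((φ g).toAdd + B).toNat, by omega⟩, by simp only; omega⟩
    have h2 := hsol l
    simp only [← cl_inc_mul] at h2
    rw [← map_sum] at h2
    have h3 : g * (t ^ (-(B:ℤ) + ((l : ℕ) : ℤ)))⁻¹ ∈ φ.ker := by
      rw [MonoidHom.mem_ker]
      apply Multiplicative.toAdd.injective
      rw [map_mul, map_inv, toAdd_mul, toAdd_inv, hφt, hl]
      simp
    have h4 := coeff_cl φ.ker (t ^ (-(B:ℤ) + ((l : ℕ) : ℤ))) (∑ i, inc φ.ker (x i) * v i) ⟨_, h3⟩
    rw [h2] at h4
    simp only [inv_mul_cancel_right] at h4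
    exact hg h4.symm
  have key : ∀ y : Fin (2 * B + 1) → MonoidAlgebra K φ.ker,
      ∑ i, inc φ.ker (y i) * MonoidAlgebra.single (t ^ ((i : ℕ) : ℤ)) 1 = 0 → ∀ i, y i = 0 := by
    intro y hy0 i
    have h1 := congrArg (cl φ.ker (t ^ ((i : ℕ) : ℤ))) hy0
    rw [map_sum, map_zero] at h1
    simp only [cl_inc_mul] at h1
    rw [Finset.sum_eq_single i, cl_pow_same, mul_one] at h1
    · exact h1
    · intro j _ hj
      rw [cl_pow_ne φ t ht, mul_zero]
      intro h2
      exact hj (Fin.ext (by exact_mod_cast h2))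
    · intro h2
      exact absurd (Finset.mem_univ _) h2
  refine ⟨∑ i, inc φ.ker (x (Sum.inr i)) * MonoidAlgebra.single (t ^ ((i : ℕ) : ℤ)) 1,
    ∑ i, inc φ.ker (x (Sum.inl i)) * MonoidAlgebra.single (t ^ ((i : ℕ) : ℤ)) 1, ?_, ?_⟩
  · intro h0
    have h1 := key _ h0
    rw [Fintype.sum_sum_type] at hy
    simp only [v, Sum.elim_inl, Sum.elim_inr, h1, map_zero, zero_mul, Finset.sum_const_zero,
      zero_add, mul_neg, ← mul_assoc] at hy
    rw [Finset.sum_neg_distrib, neg_eq_zero, ← Finset.sum_mul] at hy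
    have h2 := key _ ((mul_eq_zero.mp hy).resolve_right hb)
    apply hx
    funext i
    rcases i with i | i
    · exact h1 i
    · exact h2 i
  · rw [Fintype.sum_sum_type] at hy
    simp only [v, Sum.elim_inl, Sum.elim_inr, mul_neg, ← mul_assoc] at hy
    rw [Finset.sum_neg_distrib, ← Finset.sum_mul, ← Finset.sum_mul, ← sub_eq_add_neg,
      sub_eq_zero] at hy
    exact hy

end Z

end Pool.Agent.N506.EX
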