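import Pool.Agent.N506.EYH

/-!
# Discrete valuations of the division rings of fractions of group rings
-/

namespace Pool.Agent.N506.EX

open MonoidAlgebra

universe u v w

section Frac

variable {R : Type u} [Ring R] [NoZeroDivisors R] (hLO : LO R) {E : Type v} [DivisionRing E]
  (j : R →+* E) (hj : Function.Injective j) (hfrac : ∀ a : E, ∃ s r : R, s ≠ 0 ∧ j s * a = j r)
  (w : R → ℤ) (hmul : ∀ a b, a ≠ 0 → b ≠ 0 → w (a * b) = w a + w b)
  (hadd : ∀ a b, a ≠ 0 → b ≠ 0 → a + b ≠ 0 → min (w a) (w b) ≤ w (a + b))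

/-- The valuation of a fraction. -/
noncomputable def vfrac (a : E) : ℤ :=
  w (hfrac a).choose_spec.choose - w (hfrac a).choose

include hLO hj hmul in
theorem vfrac_eq {a : E} (ha : a ≠ 0) {s r : R} (hs : s ≠ 0) (h : j s * a = j r) :
    vfrac j hfrac w a = w r - w s := by
  obtain ⟨hs0, h0⟩ := (hfrac a).choose_spec.choose_spec
  set s0 := (hfrac a).choose with hs0def
  set r0 := (hfrac a).choose_spec.choose with hr0def
  have hjne : ∀ x : R, x ≠ 0 → j x ≠ 0 := fun x hx h => hx (hj (by rw [h, map_zero]))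
  have hr : r ≠ 0 := by
    rintro rfl
    rw [map_zero] at h
    exact (mul_ne_zero (hjne s hs) ha) h
  have hr0 : r0 ≠ 0 := by
    intro h1
    rw [h1, map_zero] at h0
    exact (mul_ne_zero (hjne s0 hs0) ha) h0
  obtain ⟨u', u, hu, h1⟩ := hLO s s0 hs0
  have hu' : u' ≠ 0 := by
    rintro rfl
    rw [zero_mul] at h1
    exact (mul_ne_zero hu hs) h1
  have h2 : u * r = u' * r0 := by
    apply hj
    rw [map_mul, map_mul, ← h, ← h0, ← mul_assoc, ← mul_assoc, ← map_mul, ← map_mul, h1]
  have h3 := hmul u r hu hr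
  have h4 := hmul u' r0 hu' hr0
  have h5 := hmul u s hu hs
  have h6 := hmul u' s0 hu' hs0
  rw [h2] at h3
  rw [h1] at h5
  change w r0 - w s0 = w r - w s
  omega

/-- The discrete valuation of the division ring of fractions of an Ore domain. -/
noncomputable def DV.ofOre (t : R) (ht : t ≠ 0) (hwt : w t = 1) : DV E where
  v := vfrac j hfrac w
  map_mul := by
    intro a b ha hb
    have hjne : ∀ x : R, x ≠ 0 → j x ≠ 0 := fun x hx h => hx (hj (by rw [h, map_zero]))
    have hab : a * b ≠ 0 := mul_ne_zero ha hb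
    obtain ⟨s, r, hs, h1⟩ := hfrac a
    obtain ⟨s', r', hs', h2⟩ := hfrac b
    have hr : r ≠ 0 := by
      rintro rfl
      rw [map_zero] at h1
      exact (mul_ne_zero (hjne s hs) ha) h1
    have hr' : r' ≠ 0 := by
      rintro rfl
      rw [map_zero] at h2
      exact (mul_ne_zero (hjne s' hs') hb) h2
    obtain ⟨r'', s'', hs'', h3⟩ := hLO r s' hs'
    have hr'' : r'' ≠ 0 := by
      rintro rfl
      rw [zero_mul] at h3
      exact (mul_ne_zero hs'' hr) h3
    have h4 : j (s'' * s) * (a * b) = j (r'' * r') := by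
      rw [_root_.map_mul, _root_.map_mul, ← h2, mul_assoc, ← mul_assoc (j s) a b, h1, ← mul_assoc, ← _root_.map_mul, h3,
        _root_.map_mul, mul_assoc]
    rw [vfrac_eq hLO j hj hfrac w hmul hab (mul_ne_zero hs'' hs) h4,
      vfrac_eq hLO j hj hfrac w hmul ha hs h1, vfrac_eq hLO j hj hfrac w hmul hb hs' h2,
      hmul _ _ hs'' hs, hmul _ _ hr'' hr']
    have h5 := hmul _ _ hs'' hr
    have h6 := hmul _ _ hr'' hs'
    rw [h3] at h5
    omega
  map_add := by
    intro a b ha hb hab
    have hjne : ∀ x : R, x ≠ 0 → j x ≠ 0 := fun x hx h => hx (hj (by rw [h, map_zero]))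
    obtain ⟨s, r, hs, h1⟩ := hfrac a
    obtain ⟨s', r', hs', h2⟩ := hfrac b
    obtain ⟨u', u, hu, h3⟩ := hLO s s' hs'
    have hm : u * s ≠ 0 := mul_ne_zero hu hs
    have h4 : j (u * s) * a = j (u * r) := by rw [_root_.map_mul, mul_assoc, h1, _root_.map_mul]
    have h5 : j (u * s) * b = j (u' * r') := by rw [h3, _root_.map_mul, mul_assoc, h2, _root_.map_mul]
    have h6 : j (u * s) * (a + b) = j (u * r + u' * r') := by rw [mul_add, h4, h5, _root_.map_add]
    have n1 : u * r ≠ 0 := by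
      intro h
      rw [h, map_zero] at h4
      exact (mul_ne_zero (hjne _ hm) ha) h4
    have n2 : u' * r' ≠ 0 := by
      intro h
      rw [h, map_zero] at h5
      exact (mul_ne_zero (hjne _ hm) hb) h5
    have n3 : u * r + u' * r' ≠ 0 := by
      intro h
      rw [h, map_zero] at h6
      exact (mul_ne_zero (hjne _ hm) hab) h6
    rw [vfrac_eq hLO j hj hfrac w hmul ha hm h4, vfrac_eq hLO j hj hfrac w hmul hb hm h5,
      vfrac_eq hLO j hj hfrac w hmul hab hm h6]
    have := hadd _ _ n1 n2 n3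
    omega
  t := j t
  t_ne := fun h => ht (hj (by rw [h, map_zero]))
  v_t := by
    have h1 : (1 : R) ≠ 0 := by
      intro h
      apply ht
      rw [← mul_one t, h, mul_zero]
    have ht' : j t ≠ 0 := fun h => ht (hj (by rw [h, map_zero]))
    rw [vfrac_eq hLO j hj hfrac w hmul ht' h1 (r := t) (by rw [map_one, one_mul])]
    have h2 := hmul 1 1 h1 h1
    rw [mul_one] at h2
    omega

theorem DV.mem_ofOre (t : R) (ht : t ≠ 0) (hwt : w t = 1) (m : ℤ) (x : R) :
    j x ∈ (DV.ofOre hLO j hj hfrac w hmul hadd t ht hwt).O m ↔ x = 0 ∨ m ≤ w x := by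
  have h1 : (1 : R) ≠ 0 := by
    intro h
    apply ht
    rw [← mul_one t, h, mul_zero]
  rw [DV.mem_O]
  by_cases hx : x = 0
  · simp [hx]
  · have hx' : j x ≠ 0 := fun h => hx (hj (by rw [h, map_zero]))
    have h2 : (DV.ofOre hLO j hj hfrac w hmul hadd t ht hwt).v (j x) = w x := by
      change vfrac j hfrac w (j x) = w x
      rw [vfrac_eq hLO j hj hfrac w hmul hx' h1 (r := x) (by rw [map_one, one_mul])]
      have h2 := hmul 1 1 h1 h1
      rw [mul_one] at h2
      omega
    rw [h2]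
    simp [hx, hx']

end Frac

section Ord

variable {K : Type u} [CommRing K] {G : Type u} [Group G] (φ : G →* Multiplicative ℤ)

/-- The `φ`-order of an element of the group ring. -/
noncomputable def ord (x : MonoidAlgebra K G) : ℤ := by
  classical
  exact if h : x.coeff.support.Nonempty then x.coeff.support.inf' h (fun g => (φ g).toAdd) else 0

theorem ord_spec {x : MonoidAlgebra K G} (hx : x ≠ 0) :
    (∃ g, x.coeff g ≠ 0 ∧ (φ g).toAdd = ord φ x) ∧
      ∀ g, x.coeff g ≠ 0 → ord φ x ≤ (φ g).toAdd := by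
  have h : x.coeff.support.Nonempty := by
    rw [Finsupp.support_nonempty_iff]
    intro h
    exact hx (MonoidAlgebra.coeff_eq_zero.mp h)
  rw [ord, dif_pos h]
  constructor
  · obtain ⟨g, hg, h1⟩ := Finset.exists_mem_eq_inf' h (fun g => (φ g).toAdd)
    exact ⟨g, Finsupp.mem_support_iff.mp hg, h1.symm⟩
  · intro g hg
    exact Finset.inf'_le _ (Finsupp.mem_support_iff.mpr hg)

theorem ord_eq {x : MonoidAlgebra K G} {m : ℤ} (h1 : ∃ g, x.coeff g ≠ 0 ∧ (φ g).toAdd = m)
    (h2 : ∀ g, x.coeff g ≠ 0 → m ≤ (φ g).toAdd) : ord φ x = m := by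
  obtain ⟨g, hg, hgm⟩ := h1
  have hx : x ≠ 0 := by
    rintro rfl
    exact hg rfl
  obtain ⟨⟨g', hg', h3⟩, h4⟩ := ord_spec φ hx
  have := h2 g' hg'
  have := h4 g hg
  omega

theorem coeff_mul_ne {x y : MonoidAlgebra K G} {g : G} (h : (x * y).coeff g ≠ 0) :
    ∃ a b, x.coeff a ≠ 0 ∧ y.coeff b ≠ 0 ∧ a * b = g := by
  classical
  have h1 := MonoidAlgebra.support_coeff_mul_subset x y (Finsupp.mem_support_iff.mpr h)
  rw [Finset.mem_mul] at h1
  obtain ⟨a, ha, b, hb, h2⟩ := h1
  exact ⟨a, b, Finsupp.mem_support_iff.mp ha, Finsupp.mem_support_iff.mp hb, h2⟩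

/-- The part of degree `m`. -/
noncomputable def part (m : ℤ) (x : MonoidAlgebra K G) : MonoidAlgebra K G := by
  classical
  exact MonoidAlgebra.ofCoeff (x.coeff.filter fun g => (φ g).toAdd = m)

theorem coeff_part_of (m : ℤ) (x : MonoidAlgebra K G) {g : G} (h : (φ g).toAdd = m) :
    (part φ m x).coeff g = x.coeff g := by
  classical
  rw [part, MonoidAlgebra.coeff_ofCoeff, Finsupp.filter_apply_pos (fun g => (φ g).toAdd = m) x.coeff h]

theorem coeff_part_not (m : ℤ) (x : MonoidAlgebra K G) {g : G} (h : (φ g).toAdd ≠ m) :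
    (part φ m x).coeff g = 0 := by
  classical
  rw [part, MonoidAlgebra.coeff_ofCoeff, Finsupp.filter_apply_neg (fun g => (φ g).toAdd = m) x.coeff h]

theorem coeff_mul_part {x y : MonoidAlgebra K G} {m l : ℤ}
    (hx : ∀ g, x.coeff g ≠ 0 → m ≤ (φ g).toAdd) (hy : ∀ g, y.coeff g ≠ 0 → l ≤ (φ g).toAdd)
    {g : G} (hg : (φ g).toAdd = m + l) :
    (x * y).coeff g = (part φ m x * part φ l y).coeff g := by
  have h1 : x * y = part φ m x * part φ l y + part φ m x * (y - part φ l y) +
      (x - part φ m x) * y := by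
    rw [← mul_add, add_sub_cancel, ← add_mul, add_sub_cancel]
  have h2 : (part φ m x * (y - part φ l y)).coeff g = 0 := by
    by_contra h
    obtain ⟨a, b, ha, hb, hab⟩ := coeff_mul_ne h
    have h3 : (φ a).toAdd = m := by
      by_contra h3
      exact ha (coeff_part_not φ m x h3)
    have h4 : (φ b).toAdd ≠ l := by
      intro h4
      apply hb
      rw [MonoidAlgebra.coeff_sub, Finsupp.sub_apply, coeff_part_of φ l y h4, sub_self]
    have h5 : (φ g).toAdd = (φ a).toAdd + (φ b).toAdd := by rw [← hab, map_mul, toAdd_mul]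
    omega
  have h3 : ((x - part φ m x) * y).coeff g = 0 := by
    by_contra h
    obtain ⟨a, b, ha, hb, hab⟩ := coeff_mul_ne h
    have h4 : (φ a).toAdd ≠ m := by
      intro h4
      apply ha
      rw [MonoidAlgebra.coeff_sub, Finsupp.sub_apply, coeff_part_of φ m x h4, sub_self]
    have h6 : m ≤ (φ a).toAdd := by
      apply hx
      intro h6
      apply ha
      rw [MonoidAlgebra.coeff_sub, Finsupp.sub_apply, coeff_part_not φ m x h4, h6, sub_self]
    have h7 := hy b hb
    have h5 : (φ g).toAdd = (φ a).toAdd + (φ b).toAdd := by rw [← hab, map_mul, toAdd_mul]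
    omega
  rw [h1, MonoidAlgebra.coeff_add, MonoidAlgebra.coeff_add, Finsupp.add_apply, Finsupp.add_apply,
    h2, h3, add_zero, add_zero]

theorem ord_mul [NoZeroDivisors (MonoidAlgebra K G)] {x y : MonoidAlgebra K G} (hx : x ≠ 0)
    (hy : y ≠ 0) : ord φ (x * y) = ord φ x + ord φ y := by
  obtain ⟨⟨a, ha, ha'⟩, hxs⟩ := ord_spec φ hx
  obtain ⟨⟨b, hb, hb'⟩, hys⟩ := ord_spec φ hy
  refine ord_eq φ ?_ ?_
  · have h1 : part φ (ord φ x) x ≠ 0 := by
      intro h
      apply ha
      rw [← coeff_part_of φ _ x ha', h]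
      rfl
    have h2 : part φ (ord φ y) y ≠ 0 := by
      intro h
      apply hb
      rw [← coeff_part_of φ _ y hb', h]
      rfl
    have h3 := mul_ne_zero h1 h2
    obtain ⟨g, hg⟩ : ∃ g, (part φ (ord φ x) x * part φ (ord φ y) y).coeff g ≠ 0 := by
      by_contra h
      push Not at h
      apply h3
      rw [← MonoidAlgebra.coeff_eq_zero]
      ext g
      exact h g
    obtain ⟨a', b', ha1, hb1, hab⟩ := coeff_mul_ne hg
    have h4 : (φ a').toAdd = ord φ x := by
      by_contra h4
      exact ha1 (coeff_part_not φ _ x h4)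
    have h5 : (φ b').toAdd = ord φ y := by
      by_contra h5
      exact hb1 (coeff_part_not φ _ y h5)
    have h6 : (φ g).toAdd = ord φ x + ord φ y := by rw [← hab, map_mul, toAdd_mul, h4, h5]
    refine ⟨g, ?_, h6⟩
    rw [coeff_mul_part φ hxs hys h6]
    exact hg
  · intro g hg
    obtain ⟨a', b', ha1, hb1, hab⟩ := coeff_mul_ne hg
    rw [← hab, map_mul, toAdd_mul]
    exact add_le_add (hxs a' ha1) (hys b' hb1)

theorem ord_add {x y : MonoidAlgebra K G} (hx : x ≠ 0) (hy : y ≠ 0) (hxy : x + y ≠ 0) :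
    min (ord φ x) (ord φ y) ≤ ord φ (x + y) := by
  obtain ⟨⟨g, hg, hg'⟩, _⟩ := ord_spec φ hxy
  rw [← hg']
  by_cases h : x.coeff g = 0
  · have : y.coeff g ≠ 0 := by
      intro h1
      apply hg
      rw [MonoidAlgebra.coeff_add, Finsupp.add_apply, h, h1, add_zero]
    exact (min_le_right _ _).trans ((ord_spec φ hy).2 g this)
  · exact (min_le_left _ _).trans ((ord_spec φ hx).2 g h)

theorem ord_single [Nontrivial K] (t : G) :
    ord φ (MonoidAlgebra.single t (1 : K)) = (φ t).toAdd := by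
  classical
  refine ord_eq φ ⟨t, ?_, rfl⟩ ?_
  · rw [MonoidAlgebra.coeff_single, Finsupp.single_eq_same]
    exact one_ne_zero
  · intro g hg
    rw [MonoidAlgebra.coeff_single, Finsupp.single_apply] at hg
    split_ifs at hg with h
    · rw [h]
    · exact absurd rfl hg

/-- A nontrivial homomorphism to `ℤ` is a multiple of a surjective one. -/
theorem exists_prim (h : ∃ g, φ g ≠ 1) : ∃ (φ' : G →* Multiplicative ℤ) (t : G) (k : ℕ),
    0 < k ∧ (φ' t).toAdd = 1 ∧ ∀ g, (φ g).toAdd = k * (φ' g).toAdd := by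
  classical
  have hex : ∃ n : ℕ, 0 < n ∧ ∃ g, (φ g).toAdd = n := by
    obtain ⟨g, hg⟩ := h
    have h0 : (φ g).toAdd ≠ 0 := fun h0 => hg (Multiplicative.toAdd.injective h0)
    refine ⟨(φ g).toAdd.natAbs, Int.natAbs_pos.mpr h0, ?_⟩
    rcases Int.natAbs_eq (φ g).toAdd with h1 | h1
    · exact ⟨g, h1⟩
    · refine ⟨g⁻¹, ?_⟩
      rw [map_inv, toAdd_inv]
      omega
  obtain ⟨hk, t, ht⟩ := Nat.find_spec hex
  set k := Nat.find hex with hkdef
  have hdvd : ∀ g, (k:ℤ) ∣ (φ g).toAdd := by
    intro g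
    by_contra hnd
    have h1 : 0 < (φ g).toAdd % k := by
      have := Int.emod_nonneg (φ g).toAdd (show (k:ℤ) ≠ 0 by omega)
      rcases this.lt_or_eq with h2 | h2
      · exact h2
      · exact absurd (Int.dvd_of_emod_eq_zero h2.symm) hnd
    have h2 : (φ g).toAdd % k < k := Int.emod_lt_of_pos _ (by omega)
    have h3 := Nat.find_min hex (m := ((φ g).toAdd % k).toNat) (by omega)
    apply h3
    refine ⟨by omega, g * t ^ (-((φ g).toAdd / k)), ?_⟩
    rw [map_mul, map_zpow, toAdd_mul, toAdd_zpow, ht, smul_eq_mul]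
    have h4 := Int.emod_add_mul_ediv (φ g).toAdd k
    have h5 : ((((φ g).toAdd % k).toNat : ℕ) : ℤ) = (φ g).toAdd % k := Int.toNat_of_nonneg h1.le
    rw [h5]
    linarith
  refine ⟨{ toFun := fun g => Multiplicative.ofAdd ((φ g).toAdd / k)
            map_one' := by simp
            map_mul' := fun a b => by
              rw [← ofAdd_add, map_mul, toAdd_mul, Int.add_ediv_of_dvd_left (hdvd a)] },
    t, k, hk, ?_, fun g => ?_⟩
  · change (φ t).toAdd / k = 1
    rw [ht]
    exact Int.ediv_self (by omega)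
  · change (φ g).toAdd = k * ((φ g).toAdd / k)
    exact (Int.mul_ediv_cancel' (hdvd g)).symm

/-- The Ore condition for an extension by a subgroup of `ℤ`. -/
theorem LO.ext_int' [Nontrivial K] [NoZeroDivisors (MonoidAlgebra K G)]
    (h : LO (MonoidAlgebra K φ.ker)) : LO (MonoidAlgebra K G) := by
  by_cases hφ : ∃ g, φ g ≠ 1
  · obtain ⟨φ', t, k, hk, ht, hg⟩ := exists_prim φ hφ
    have h1 : φ.ker = φ'.ker := by
      ext g
      rw [MonoidHom.mem_ker, MonoidHom.mem_ker]
      have h2 := hg g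
      constructor
      · intro h3
        rw [h3] at h2
        apply Multiplicative.toAdd.injective
        have h4 : (k:ℤ) * (φ' g).toAdd = 0 := h2.symm
        rcases mul_eq_zero.mp h4 with h5 | h5
        · omega
        · exact h5
      · intro h3
        rw [h3] at h2
        apply Multiplicative.toAdd.injective
        rw [h2]
        simp
    rw [h1] at h
    exact LO.ext_int φ' t ht h
  · push Not at hφ
    have h1 : φ.ker = ⊤ := by
      ext g
      simp [MonoidHom.mem_ker, hφ g]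
    rw [h1] at h
    exact h.congr (MonoidAlgebra.mapDomainRingEquiv K Subgroup.topEquiv)

end Ord

theorem Bdd.mono {R : Type u} [Ring R] {O O' : ℕ → Set R} (h : Bdd R O)
    (hO : ∀ S, ∃ S', O S ⊆ O' S') : Bdd R O' := by
  intro X K B c W A hA Adj hAdj hF ε hε
  obtain ⟨S, hS⟩ := h X K B c W A hA Adj hAdj hF ε hε
  obtain ⟨S', hS'⟩ := hO S
  exact ⟨S', hS.mono (fun _ _ h => h) le_rfl fun x y h hxy β hβ γ => hS' (h hxy β hβ γ)⟩

theorem Bdd.univ {R : Type u} [Ring R] : Bdd R (fun _ => Set.univ) := by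
  intro X K B c W A hA Adj hAdj hF ε hε
  refine ⟨0, WF.of Unit Unit (fun _ _ => ()) ?_ ?_⟩
  · intro x y _
    refine ⟨Finset.univ, id, Function.injective_id.injOn, fun _ _ => rfl, ?_⟩
    simp
    linarith
  · intro x y _ _ _ _ _ _ _
    trivial

/-- The degree of a homomorphism to `ℤ` bounds. -/
theorem Bdd.phi {A : Type u} [CommRing A] [IsDomain A] {G : Type u} [Group G]
    [NoZeroDivisors (MonoidAlgebra (FractionRing A) G)]
    (hLO : LO (MonoidAlgebra (FractionRing A) G)) (φ : G →* Multiplicative ℤ) :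
    Bdd (MonoidAlgebra A G)
      (fun S => {x | ∀ g, x.coeff g ≠ 0 → -(S:ℤ) ≤ (φ g).toAdd}) := by
  by_cases hφ : ∃ g, φ g ≠ 1
  · obtain ⟨φ', t, k, hk, ht, hg⟩ := exists_prim φ hφ
    have hOre : Nonempty (OreLocalization.OreSet
        (nonZeroDivisors (MonoidAlgebra (FractionRing A) G))) := by
      rw [OreLocalization.nonempty_oreSet_iff_of_noZeroDivisors]
      intro r s
      obtain ⟨r', s', hs', h1⟩ := hLO r s (nonZeroDivisors.ne_zero s.2)
      exact ⟨r', ⟨s', mem_nonZeroDivisors_of_ne_zero hs'⟩, h1⟩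
    obtain ⟨inst⟩ := hOre
    let E := OreLocalization (nonZeroDivisors (MonoidAlgebra (FractionRing A) G))
      (MonoidAlgebra (FractionRing A) G)
    let j : MonoidAlgebra (FractionRing A) G →+* E := OreLocalization.numeratorRingHom
    have hj : Function.Injective j := OreLocalization.numeratorHom_inj (by
      intro x hx
      exact (mem_nonZeroDivisors_iff.mp hx).1)
    have hfrac : ∀ a : E, ∃ s r, s ≠ 0 ∧ j s * a = j r := by
      intro a
      induction a using OreLocalization.ind with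
      | _ r s =>
        refine ⟨s, r, nonZeroDivisors.ne_zero s.2, ?_⟩
        change ((s : MonoidAlgebra (FractionRing A) G) /ₒ 1) * (r /ₒ s) = r /ₒ 1
        exact OreLocalization.mul_cancel
    have ht0 : MonoidAlgebra.single t (1 : FractionRing A) ≠ 0 :=
      MonoidAlgebra.single_ne_zero.mpr one_ne_zero
    let V : DV E := DV.ofOre hLO j hj hfrac (ord φ') (fun a b ha hb => ord_mul φ' ha hb)
      (fun a b ha hb hab => ord_add φ' ha hb hab) (MonoidAlgebra.single t 1) ht0
      (by rw [ord_single, ht])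
    let ι : MonoidAlgebra A G →+* MonoidAlgebra (FractionRing A) G :=
      MonoidAlgebra.mapRingHom G (algebraMap A (FractionRing A))
    refine (Bdd.dv V (j.comp ι)).mono fun S => ⟨k * S, ?_⟩
    intro x hx g hgx
    have h1 : j (ι x) ∈ V.O (-(S:ℤ)) := hx
    rw [DV.mem_ofOre] at h1
    have h2 : (ι x).coeff g ≠ 0 := by
      intro h2
      apply hgx
      apply IsFractionRing.injective A (FractionRing A)
      rw [map_zero]
      exact h2
    have h3 : ι x ≠ 0 := by
      intro h3
      rw [h3] at h2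
      exact h2 rfl
    have h4 := (ord_spec φ' h3).2 g h2
    have h5 := h1.resolve_left h3
    rw [hg g]
    have hk' : (0:ℤ) ≤ k := by omega
    push_cast
    nlinarith
  · push Not at hφ
    refine Bdd.univ.mono fun S => ⟨0, ?_⟩
    intro x _ g _
    rw [hφ g]
    simp

end Pool.Agent.N506.EX
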