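import Pool.Agent.N506.EYI
import Pool.Agent.N506.EY0

/-!
# Group rings of poly-(torsion-free abelian) groups
-/

namespace Pool.Agent.N506.EX

open MonoidAlgebra

universe u v w

section UP

theorem uniqueProds_ext {G : Type u} [Group G] {H : Type v} [Group H] (φ : G →* H)
    [UniqueProds H] (hN : UniqueProds φ.ker) : UniqueProds G where
  uniqueMul_of_nonempty {A B} hA hB := by
    classical
    obtain ⟨aH, haH, bH, hbH, hu⟩ :=
      UniqueProds.uniqueMul_of_nonempty (hA.image φ) (hB.image φ)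
    obtain ⟨a1, ha1, ha1'⟩ := Finset.mem_image.mp haH
    obtain ⟨b1, hb1, hb1'⟩ := Finset.mem_image.mp hbH
    let A' : Finset φ.ker := (A.image fun a => a1⁻¹ * a).subtype (· ∈ φ.ker)
    let B' : Finset φ.ker := (B.image fun b => b * b1⁻¹).subtype (· ∈ φ.ker)
    have hA' : A'.Nonempty := ⟨⟨a1⁻¹ * a1, by simp⟩, by
      simp only [A', Finset.mem_subtype]
      exact Finset.mem_image_of_mem _ ha1⟩
    have hB' : B'.Nonempty := ⟨⟨b1 * b1⁻¹, by simp⟩, by
      simp only [B', Finset.mem_subtype]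
      exact Finset.mem_image_of_mem _ hb1⟩
    obtain ⟨n0, hn0, m0, hm0, hu'⟩ := hN.uniqueMul_of_nonempty hA' hB'
    simp only [A', B', Finset.mem_subtype, Finset.mem_image] at hn0 hm0
    obtain ⟨a0, ha0, han⟩ := hn0
    obtain ⟨b0, hb0, hbm⟩ := hm0
    have hφa : φ a0 = aH := by
      have := n0.2
      rw [← han, MonoidHom.mem_ker, map_mul, map_inv, inv_mul_eq_one] at this
      rw [← this, ha1']
    have hφb : φ b0 = bH := by
      have := m0.2
      rw [← hbm, MonoidHom.mem_ker, map_mul, map_inv, mul_inv_eq_one] at this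
      rw [this, hb1']
    refine ⟨a0, ha0, b0, hb0, UniqueMul.of_image_filter φ.toMulHom hφa hφb hu ?_⟩
    intro a b ha hb hab
    rw [Finset.mem_filter] at ha hb
    have ha2 : a1⁻¹ * a ∈ φ.ker := by
      rw [MonoidHom.mem_ker, map_mul, map_inv, inv_mul_eq_one, ha1']
      exact ha.2.symm
    have hb2 : b * b1⁻¹ ∈ φ.ker := by
      rw [MonoidHom.mem_ker, map_mul, map_inv, mul_inv_eq_one, hb1']
      exact hb.2
    have h1 := hu' (a := ⟨_, ha2⟩) (b := ⟨_, hb2⟩)
      (by simp only [A', Finset.mem_subtype]; exact Finset.mem_image_of_mem _ ha.1)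
      (by simp only [B', Finset.mem_subtype]; exact Finset.mem_image_of_mem _ hb.1)
      (Subtype.ext (by
        change a1⁻¹ * a * (b * b1⁻¹) = (n0 : G) * m0
        rw [← han, ← hbm]
        have : a1⁻¹ * a * (b * b1⁻¹) = a1⁻¹ * (a * b) * b1⁻¹ := by group
        rw [this, hab]
        group))
    have h2 := congrArg Subtype.val h1.1
    have h3 := congrArg Subtype.val h1.2
    simp only [← han, ← hbm] at h2 h3
    exact ⟨mul_left_cancel h2, mul_right_cancel h3⟩

theorem uniqueProds_tf (H : Type u) [CommGroup H] [IsMulTorsionFree H] : UniqueProds H where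
  uniqueMul_of_nonempty {A B} hA hB := by
    classical
    let H₁ : Subgroup H := Subgroup.closure ((A ∪ B : Finset H) : Set H)
    have hmem : ∀ x ∈ A ∪ B, x ∈ H₁ := fun x hx => Subgroup.subset_closure hx
    have hfg : Group.FG H₁ := (Group.fg_iff_subgroup_fg H₁).mpr ⟨A ∪ B, rfl⟩
    have hfg' : Monoid.FG H₁ := Group.fg_iff_monoid_fg.mp hfg
    have hup : UniqueProds H₁ := inferInstance
    have hA' : (A.subtype (· ∈ H₁)).Nonempty := by
      obtain ⟨a, ha⟩ := hA
      exact ⟨⟨a, hmem a (Finset.mem_union_left _ ha)⟩, Finset.mem_subtype.mpr ha⟩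
    have hB' : (B.subtype (· ∈ H₁)).Nonempty := by
      obtain ⟨b, hb⟩ := hB
      exact ⟨⟨b, hmem b (Finset.mem_union_right _ hb)⟩, Finset.mem_subtype.mpr hb⟩
    obtain ⟨a0, ha0, b0, hb0, hu⟩ := hup.uniqueMul_of_nonempty hA' hB'
    refine ⟨a0, Finset.mem_subtype.mp ha0, b0, Finset.mem_subtype.mp hb0, ?_⟩
    intro a b ha hb hab
    have h1 := hu (a := ⟨a, hmem a (Finset.mem_union_left _ ha)⟩)
      (b := ⟨b, hmem b (Finset.mem_union_right _ hb)⟩) (Finset.mem_subtype.mpr ha)
      (Finset.mem_subtype.mpr hb) (Subtype.ext hab)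
    exact ⟨congrArg Subtype.val h1.1, congrArg Subtype.val h1.2⟩

theorem PolyTFA.uniqueProds {G : Type u} [Group G] (h : PolyTFA G) : UniqueProds G := by
  induction h with
  | triv G => exact ⟨fun {A B} hA hB => ⟨hA.choose, hA.choose_spec, hB.choose, hB.choose_spec,
      UniqueMul.of_subsingleton⟩⟩
  | ext G H φ _ ih =>
    have : UniqueProds H := uniqueProds_tf H
    exact uniqueProds_ext φ ih

end UP

theorem UniqueProds.subgroup {G : Type u} [Group G] (h : UniqueProds G) (N : Subgroup G) :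
    UniqueProds N :=
  UniqueProds.of_injective_mulHom N.subtype.toMulHom N.subtype_injective h

theorem exists_inc {K : Type u} [CommRing K] {G : Type u} [Group G] (N : Subgroup G)
    (x : MonoidAlgebra K G) (hx : ∀ g, x.coeff g ≠ 0 → g ∈ N) : ∃ y, inc N y = x := by
  refine ⟨MonoidAlgebra.comapDomain N.subtype N.subtype_injective x, ?_⟩
  refine MonoidAlgebra.mapDomain_comapDomain ?_ _
  intro g hg
  exact ⟨⟨g, hx g (Finsupp.mem_support_iff.mp hg)⟩, rfl⟩

/-- The Ore condition, `ℤ^s` quotients. -/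
theorem LO.fin {K : Type u} [CommRing K] [IsDomain K] (s : ℕ) :
    ∀ (G : Type u) [Group G], UniqueProds G → ∀ (φ : Fin s → (G →* Multiplicative ℤ))
      (N : Subgroup G), (∀ g, g ∈ N ↔ ∀ i, φ i g = 1) → LO (MonoidAlgebra K N) →
      LO (MonoidAlgebra K G) := by
  induction s with
  | zero =>
    intro G _ _ φ N hN h
    have h1 : N = ⊤ := by
      ext g
      simp [hN]
    rw [h1] at h
    exact h.congr (MonoidAlgebra.mapDomainRingEquiv K Subgroup.topEquiv)
  | succ s ih =>
    intro G _ hU φ N hN h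
    let G₀ : Subgroup G := (φ (Fin.last s)).ker
    have hle : N ≤ G₀ := fun g hg => (hN g).mp hg (Fin.last s)
    have h1 : LO (MonoidAlgebra K (N.subgroupOf G₀)) :=
      h.congr (MonoidAlgebra.mapDomainRingEquiv K (Subgroup.subgroupOfEquivOfLe hle).symm)
    have h2 : LO (MonoidAlgebra K G₀) := by
      refine ih G₀ (UniqueProds.subgroup hU G₀) (fun i => (φ i.castSucc).comp G₀.subtype)
        (N.subgroupOf G₀) ?_ h1
      intro g
      rw [Subgroup.mem_subgroupOf, hN]
      constructor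
      · intro h3 i
        exact h3 i.castSucc
      · intro h3 i
        refine Fin.lastCases ?_ (fun i => h3 i) i
        exact g.2
    exact LO.ext_int' (φ (Fin.last s)) h2

/-- Coordinates of a finitely generated torsion-free abelian group. -/
theorem exists_coords (H : Type u) [CommGroup H] [IsMulTorsionFree H] (hfg : Group.FG H) :
    ∃ (s : ℕ) (ψ : Fin s → (H →* Multiplicative ℤ)), ∀ h, (∀ i, ψ i h = 1) ↔ h = 1 := by
  have h1 : Module.Finite ℤ (Additive H) := by
    rw [Module.Finite.iff_addGroup_fg]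
    exact GroupFG.iff_add_fg.mp hfg
  let b := Module.finBasis ℤ (Additive H)
  refine ⟨_, fun i => { toFun := fun h => Multiplicative.ofAdd (b.coord i (Additive.ofMul h))
                        map_one' := by simp
                        map_mul' := fun x y => by
                          rw [ofMul_mul, map_add, ofAdd_add] }, fun h => ?_⟩
  constructor
  · intro h2
    have h3 : Additive.ofMul h = 0 := by
      rw [← b.forall_coord_eq_zero_iff]
      intro i
      exact Multiplicative.ofAdd.injective (h2 i)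
    exact Additive.ofMul.injective h3
  · rintro rfl i
    simp

/-- The local structure of an extension by a torsion-free abelian group. -/
theorem exists_local {G : Type u} [Group G] {H : Type u} [CommGroup H] [IsMulTorsionFree H]
    (φ : G →* H) (F : Finset G) :
    ∃ (G₁ : Subgroup G) (s : ℕ) (ψ : Fin s → (G₁ →* Multiplicative ℤ)),
      (∀ g ∈ F, g ∈ G₁) ∧ φ.ker ≤ G₁ ∧
      ∀ g, g ∈ φ.ker.subgroupOf G₁ ↔ ∀ i, ψ i g = 1 := by
  classical
  let H₁ : Subgroup H := Subgroup.closure ((F.image φ : Finset H) : Set H)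
  have hfg : Group.FG H₁ := (Group.fg_iff_subgroup_fg H₁).mpr ⟨_, rfl⟩
  obtain ⟨s, ψ, hψ⟩ := exists_coords H₁ hfg
  let G₁ : Subgroup G := H₁.comap φ
  let φ₁ : G₁ →* H₁ := (φ.comp G₁.subtype).codRestrict H₁ (fun g => g.2)
  refine ⟨G₁, s, fun i => (ψ i).comp φ₁, ?_, ?_, ?_⟩
  · intro g hg
    exact Subgroup.subset_closure (Finset.mem_coe.mpr (Finset.mem_image_of_mem _ hg))
  · intro g hg
    rw [Subgroup.mem_comap, (MonoidHom.mem_ker).mp hg]
    exact H₁.one_mem
  · intro g
    rw [Subgroup.mem_subgroupOf, MonoidHom.mem_ker]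
    have h1 := hψ (φ₁ g)
    rw [show (φ (g : G) = 1) ↔ φ₁ g = 1 from
      ⟨fun h => Subtype.ext h, fun h => congrArg Subtype.val h⟩, ← h1]
    rfl

/-- The Ore condition, torsion-free abelian quotients. -/
theorem LO.tf {K : Type u} [CommRing K] [IsDomain K] {G : Type u} [Group G] (hU : UniqueProds G)
    {H : Type u} [CommGroup H] [IsMulTorsionFree H] (φ : G →* H)
    (h : LO (MonoidAlgebra K φ.ker)) : LO (MonoidAlgebra K G) := by
  classical
  intro a b hb
  obtain ⟨G₁, s, ψ, hF, hle, hψ⟩ := exists_local φ (a.coeff.support ∪ b.coeff.support)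
  have h1 : LO (MonoidAlgebra K (φ.ker.subgroupOf G₁)) :=
    h.congr (MonoidAlgebra.mapDomainRingEquiv K (Subgroup.subgroupOfEquivOfLe hle).symm)
  have h2 := LO.fin s G₁ (UniqueProds.subgroup hU G₁) ψ _ hψ h1
  obtain ⟨a₁, rfl⟩ := exists_inc G₁ a (fun g hg => hF g (Finset.mem_union_left _
    (Finsupp.mem_support_iff.mpr hg)))
  obtain ⟨b₁, rfl⟩ := exists_inc G₁ b (fun g hg => hF g (Finset.mem_union_right _
    (Finsupp.mem_support_iff.mpr hg)))
  obtain ⟨a', b', hb', h3⟩ := h2 a₁ b₁ (fun h => hb (by rw [h, map_zero]))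
  refine ⟨inc G₁ a', inc G₁ b', fun h => hb' (inc_injective G₁ (by rw [h, map_zero])), ?_⟩
  rw [← map_mul, ← map_mul, h3]

theorem PolyTFA.lo {G : Type u} [Group G] (h : PolyTFA G) (K : Type u) [Field K] :
    LO (MonoidAlgebra K G) := by
  induction h with
  | triv G =>
    refine LO.congr (MonoidAlgebra.uniqueRingEquiv (R := K) (M := G)).symm ?_
    intro a b hb
    exact ⟨a * b⁻¹, 1, one_ne_zero, by rw [one_mul, mul_assoc, inv_mul_cancel₀ hb, mul_one]⟩
  | ext G H φ h ih => exact LO.tf (PolyTFA.ext G H φ h).uniqueProds φ ih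

/-- Goodness, `ℤ^s` quotients. -/
theorem Good.fin {A : Type u} [CommRing A] [IsDomain A] (s : ℕ) {G : Type u} [Group G]
    (hU : UniqueProds G) (hLO : LO (MonoidAlgebra (FractionRing A) G))
    (φ : Fin s → (G →* Multiplicative ℤ)) (N : Subgroup G)
    (hN : ∀ g, g ∈ N ↔ ∀ i, φ i g = 1) {d : ℕ} (h : Good (MonoidAlgebra A N) d) :
    Good (MonoidAlgebra A G) (d + 3) := by
  classical
  have hnormal : N.Normal := ⟨fun n hn g => by
    rw [hN] at hn ⊢
    intro i
    rw [map_mul, map_mul, hn i, mul_one, map_inv, mul_inv_cancel]⟩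
  let φ' : Fin s × Bool → (G →* Multiplicative ℤ) := fun p => if p.2 then φ p.1 else (φ p.1)⁻¹
  have hφ1 : ∀ i g, (φ' (i, true) g).toAdd = (φ i g).toAdd := fun i g => rfl
  have hφ2 : ∀ i g, (φ' (i, false) g).toAdd = -(φ i g).toAdd := fun i g => rfl
  have hB := Bdd.pi (R := MonoidAlgebra A G) (Finset.univ : Finset (Fin s × Bool))
    (fun p S => {x | ∀ g, x.coeff g ≠ 0 → -(S:ℤ) ≤ (φ' p g).toAdd})
    (fun p m n hmn x hx g hg => le_trans (by omega) (hx g hg)) (fun p _ => Bdd.phi hLO (φ' p))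
  -- the finite sets of cosets
  have hfin : ∀ S : ℕ, {q : G ⧸ N | ∀ i, -(S:ℤ) ≤ (φ i q.out).toAdd ∧
      (φ i q.out).toAdd ≤ S}.Finite := by
    intro S
    have h1 : {f : Fin s → ℤ | ∀ i, f i ∈ Set.Icc (-(S:ℤ)) S}.Finite :=
      Set.Finite.pi' fun _ => Set.finite_Icc _ _
    refine Set.Finite.of_finite_image (f := fun q : G ⧸ N => fun i => (φ i q.out).toAdd)
      (h1.subset ?_) ?_
    · rintro _ ⟨q, hq, rfl⟩ i
      exact hq i
    · intro q _ q' _ hqq
      have h2 : (q.out : G)⁻¹ * q'.out ∈ N := by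
        rw [hN]
        intro i
        have h3 : (φ i q.out).toAdd = (φ i q'.out).toAdd := congrFun hqq i
        rw [map_mul, map_inv, Multiplicative.toAdd.injective h3, inv_mul_cancel]
      rw [← QuotientGroup.eq, QuotientGroup.out_eq', QuotientGroup.out_eq'] at h2
      exact h2
  refine Good.tower N _ hB (fun S => (hfin S).toFinset) ?_ h
  intro S x hx g hg
  rw [Set.Finite.mem_toFinset]
  intro i
  simp only [Set.mem_iInter] at hx
  have h1 : -(S:ℤ) ≤ (φ' (i, true) g).toAdd := hx (i, true) (Finset.mem_univ _) g hg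
  have h2 : -(S:ℤ) ≤ (φ' (i, false) g).toAdd := hx (i, false) (Finset.mem_univ _) g hg
  rw [hφ1] at h1
  rw [hφ2] at h2
  have h3 : φ i ((g : G ⧸ N).out) = φ i g := by
    have h4 : ((g : G ⧸ N).out)⁻¹ * g ∈ N := by
      rw [← QuotientGroup.eq, QuotientGroup.out_eq']
    rw [hN] at h4
    have h5 := h4 i
    rw [map_mul, map_inv, inv_mul_eq_one] at h5
    exact h5
  rw [h3]
  omega

/-- Goodness, torsion-free abelian quotients. -/
theorem Good.tf {A : Type u} [CommRing A] [IsDomain A] {G : Type u} [Group G]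
    {H : Type u} [CommGroup H] [IsMulTorsionFree H] (φ : G →* H) (hP : PolyTFA φ.ker)
    {d : ℕ} (h : Good (MonoidAlgebra A φ.ker) d) : Good (MonoidAlgebra A G) (d + 4) := by
  classical
  have hU : UniqueProds G := (PolyTFA.ext G H φ hP).uniqueProds
  refine Good.of_local (by omega) fun F hF => ?_
  obtain ⟨F, rfl⟩ := hF.exists_finset_coe
  obtain ⟨G₁, s, ψ, hF1, hle, hψ⟩ := exists_local φ (F.biUnion fun x => x.coeff.support)
  have h1 : Good (MonoidAlgebra A (φ.ker.subgroupOf G₁)) d :=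
    h.of_injective (MonoidAlgebra.mapDomainRingEquiv A
      (Subgroup.subgroupOfEquivOfLe hle)).toRingHom (RingEquiv.injective _)
  have hLOk : LO (MonoidAlgebra (FractionRing A) (φ.ker.subgroupOf G₁)) :=
    (hP.lo (FractionRing A)).congr
      (MonoidAlgebra.mapDomainRingEquiv (FractionRing A) (Subgroup.subgroupOfEquivOfLe hle).symm)
  have hU1 : UniqueProds G₁ := UniqueProds.subgroup hU G₁
  have hLO := LO.fin s G₁ hU1 ψ _ hψ hLOk
  have h2 := Good.fin s hU1 hLO ψ _ hψ h1
  refine ⟨(inc (A := A) G₁).range, ?_, ?_⟩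
  · intro x hx
    obtain ⟨y, rfl⟩ := exists_inc G₁ x (fun g hg => hF1 g (Finset.mem_biUnion.mpr
      ⟨x, hx, Finsupp.mem_support_iff.mpr hg⟩))
    exact ⟨y, rfl⟩
  · let e : MonoidAlgebra A G₁ ≃+* (inc (A := A) G₁).range :=
      RingEquiv.ofBijective (inc (A := A) G₁).rangeRestrict
        ⟨fun x y hxy => inc_injective G₁ (congrArg Subtype.val hxy),
          (inc (A := A) G₁).rangeRestrict_surjective⟩
    exact h2.of_injective e.symm.toRingHom e.symm.injective

/-- Group rings of poly-(torsion-free abelian) groups. -/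
theorem PolyTFA.good {G : Type u} [Group G] (h : PolyTFA G) :
    ∃ e : ℕ, ∀ (A : Type u) [CommRing A] [IsDomain A] (d : ℕ), Good A d →
      Good (MonoidAlgebra A G) (d + e) := by
  induction h with
  | triv G =>
    refine ⟨0, fun A _ _ d hA => ?_⟩
    exact hA.of_injective (MonoidAlgebra.uniqueRingEquiv (R := A) (M := G)).toRingHom
      (RingEquiv.injective _)
  | ext G H φ h ih =>
    obtain ⟨e, he⟩ := ih
    exact ⟨e + 4, fun A _ _ d hA => Good.tf φ h (he A d hA)⟩

end Pool.Agent.N506.EX
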