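import Pool.Agent.N506.EYJ

/-!
# Fields: every finite subset lies in a good subring
-/

namespace Pool.Agent.N506.EX

open MonoidAlgebra

universe u v w

/-- Every finite subset lies in a good subring. -/
def FGood (R : Type u) [Ring R] : Prop :=
  ∀ s : Finset R, ∃ (S : Subring R) (d : ℕ), (s : Set R) ⊆ S ∧ Good S d

theorem Good.of_equiv {R S : Type u} [Ring R] [Ring S] {d : ℕ} (h : Good R d) (e : R ≃+* S) :
    Good S d := h.of_injective e.symm.toRingHom e.symm.injective

/-- A good ring which contains the given elements. -/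
theorem Good.range {R S : Type u} [Ring R] [Ring S] {d : ℕ} (h : Good R d) (f : R →+* S)
    (hf : Function.Injective f) : Good f.range d :=
  h.of_equiv (RingEquiv.ofBijective f.rangeRestrict
    ⟨fun x y hxy => hf (congrArg Subtype.val hxy), f.rangeRestrict_surjective⟩)

theorem FGood.of_injective {R S : Type u} [Ring R] [Ring S] (h : FGood S) (f : R →+* S)
    (hf : Function.Injective f) : FGood R := by
  classical
  intro s
  obtain ⟨T, d, hT, hd⟩ := h (s.image f)
  refine ⟨T.comap f, d, fun x hx => hT (Finset.mem_coe.mpr (Finset.mem_image_of_mem _ hx)), ?_⟩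
  exact hd.of_injective ((f.comp (T.comap f).subtype).codRestrict T (fun x => x.2))
    (fun x y hxy => Subtype.ext (hf (congrArg Subtype.val hxy)))

theorem FGood.of_local {R : Type u} [Ring R]
    (h : ∀ s : Finset R, ∃ L : Subring R, (s : Set R) ⊆ L ∧ FGood L) : FGood R := by
  classical
  intro s
  obtain ⟨L, hL, hG⟩ := h s
  obtain ⟨T, d, hT, hd⟩ := hG (s.subtype (· ∈ L))
  refine ⟨T.map L.subtype, d, fun x hx => ?_, ?_⟩
  · exact ⟨⟨x, hL hx⟩, hT (Finset.mem_coe.mpr (Finset.mem_subtype.mpr hx)), rfl⟩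
  · have h1 := hd.range (L.subtype.comp T.subtype)
      (fun x y hxy => Subtype.ext (Subtype.ext hxy))
    have h2 : (L.subtype.comp T.subtype).range = T.map L.subtype := by
      rw [RingHom.range_eq_map, ← Subring.map_map, ← RingHom.range_eq_map, Subring.range_subtype]
    rw [← h2]
    exact h1

theorem fgood_of_finite {R : Type u} [Ring R] [Finite R] : FGood R :=
  fun _ => ⟨⊤, 0, fun _ _ => trivial, Good.of_finite⟩

/-- Subrings of `ℤ[1/m]`. -/
theorem good_away {R : Type u} [Ring R] (f : R →+* ℚ) (hf : Function.Injective f) (m : ℤ)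
    (hm : m ≠ 0) (h : ∀ r, f r ∈ away ℤ ℚ m) : Good R 3 := by
  classical
  obtain ⟨P, hP⟩ := exists_clear (A := ℤ) (K := ℚ) m hm
  let fR : R →+* ℝ := (Rat.castHom ℝ).comp f
  let O : Option (IsDedekindDomain.HeightOneSpectrum ℤ) → ℕ → Set R := fun o S =>
    match o with
    | none => {r | |fR r| ≤ S}
    | some v => {r | f r ∈ (DV.ofPrime (K := ℚ) v).O (-(S:ℤ))}
  have hB := Bdd.pi (R := R) (Finset.insertNone P) O (by
    intro o a b hab
    cases o with
    | none =>
      intro x hx
      have h1 : |fR x| ≤ (a:ℝ) := hx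
      have h2 : (a:ℝ) ≤ b := by exact_mod_cast hab
      exact h1.trans h2
    | some v =>
      intro x hx
      exact (DV.ofPrime (K := ℚ) v).O_anti (by omega) hx) (by
    intro o _
    cases o with
    | none => exact Bdd.real fR
    | some v => exact Bdd.dv _ f)
  refine Good.of_bdd hB fun T => ?_
  obtain ⟨N, hN⟩ := exists_nat_ge (|(m:ℝ)| ^ T * T)
  have h1 : ((fun a : ℤ => (a : ℚ) / (m:ℚ) ^ T) '' Set.Icc (-(N:ℤ)) N).Finite :=
    (Set.finite_Icc _ _).image _
  refine (h1.preimage (f := f) hf.injOn).subset ?_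
  intro x hx
  simp only [Set.mem_iInter] at hx
  obtain ⟨a, ha⟩ := hP T (f x) (h x) (by
    intro v hv
    exact hx (some v) (Finset.some_mem_insertNone.mpr hv))
  have ha' : (m:ℚ) ^ T * (f x) = a := by simpa using ha
  have h2 : |((f x : ℚ) : ℝ)| ≤ T := hx none (Finset.none_mem_insertNone)
  have h3 : ((m:ℝ)) ^ T * ((f x : ℚ) : ℝ) = a := by exact_mod_cast ha'
  have h4 : |(a:ℝ)| ≤ N := by
    rw [← h3, abs_mul, abs_pow]
    exact (mul_le_mul_of_nonneg_left h2 (by positivity)).trans hN
  refine ⟨a, abs_le.mp (by exact_mod_cast h4), ?_⟩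
  simp only
  rw [← ha']
  have : (m:ℚ) ^ T ≠ 0 := pow_ne_zero _ (by exact_mod_cast hm)
  field_simp

theorem fgood_rat : FGood (ULift.{u} ℚ) := by
  classical
  intro s
  obtain ⟨b, hb⟩ := IsLocalization.exist_integer_multiples_of_finset (nonZeroDivisors ℤ)
    (s.image (ULift.ringEquiv : ULift.{u} ℚ ≃+* ℚ))
  let S : Subring (ULift.{u} ℚ) :=
    (away ℤ ℚ b).comap (ULift.ringEquiv : ULift.{u} ℚ ≃+* ℚ).toRingHom
  refine ⟨S, 3, fun x hx => ?_, ?_⟩
  · obtain ⟨a, ha⟩ := hb (ULift.ringEquiv x) (Finset.mem_image_of_mem _ hx)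
    refine ⟨1, a, ?_⟩
    rw [pow_one, ha, Algebra.smul_def]
    rfl
  · exact good_away ((ULift.ringEquiv : ULift.{u} ℚ ≃+* ℚ).toRingHom.comp S.subtype)
      (fun x y hxy => Subtype.ext (ULift.ringEquiv.injective hxy)) b
      (nonZeroDivisors.coe_ne_zero b) (fun r => r.2)

/-- Finite extensions. -/
theorem FGood.of_finiteDimensional {F : Type u} [Field F] {K : Type u} [Field K] [Algebra F K]
    [FiniteDimensional F K] (hF : FGood F) : FGood K := by
  classical
  let b := Module.finBasis F K
  intro s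
  obtain ⟨S, d, hS, hd⟩ := hF (s.biUnion fun x => Finset.univ.biUnion fun i =>
    Finset.univ.image fun j => Algebra.leftMulMatrix b x i j)
  let ι : Matrix (Fin (Module.finrank F K)) (Fin (Module.finrank F K)) S →+*
    Matrix (Fin (Module.finrank F K)) (Fin (Module.finrank F K)) F := S.subtype.mapMatrix
  have hι : Function.Injective ι := by
    intro x y hxy
    ext i j
    exact congrFun (congrFun hxy i) j
  let T : Subring K := ι.range.comap (Algebra.leftMulMatrix b).toRingHom
  refine ⟨T, d, fun x hx => ?_, ?_⟩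
  · have h1 : ∀ i j, Algebra.leftMulMatrix b x i j ∈ S := by
      intro i j
      apply hS
      simp only [Finset.coe_biUnion, Set.mem_iUnion]
      exact ⟨x, hx, i, Finset.mem_coe.mpr (Finset.mem_univ _), by simp⟩
    exact ⟨Matrix.of fun i j => ⟨_, h1 i j⟩, rfl⟩
  · let e : Matrix (Fin (Module.finrank F K)) (Fin (Module.finrank F K)) S ≃+* ι.range := RingEquiv.ofBijective ι.rangeRestrict
      ⟨fun x y hxy => hι (congrArg Subtype.val hxy), ι.rangeRestrict_surjective⟩
    refine hd.matrix (Fin (Module.finrank F K)) (e.symm.toRingHom.comp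
      ((((Algebra.leftMulMatrix b).toRingHom.comp T.subtype)).codRestrict ι.range
        (fun x => x.2))) ?_
    intro x y hxy
    have h1 := e.symm.injective hxy
    exact Subtype.ext (Algebra.leftMulMatrix_injective b (congrArg Subtype.val h1))

end Pool.Agent.N506.EX
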