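import Pool.Agent.N506.EYK

/-!
# Every finite subset of a field lies in a good subring
-/

namespace Pool.Agent.N506.EX

open Polynomial

universe u v w

/-- The infinite cyclic group. -/
abbrev ZU : Type u := ULift.{u} (Multiplicative ℤ)

instance : IsMulTorsionFree ZU.{u} where
  pow_left_injective n hn x y hxy := by
    apply ULift.down_injective
    have h1 : (x.down) ^ n = y.down ^ n := congrArg ULift.down hxy
    exact pow_left_injective hn h1

theorem polyTFA_ZU : PolyTFA ZU.{u} := by
  refine PolyTFA.ext ZU ZU (MonoidHom.id _) ?_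
  have : Subsingleton (MonoidHom.id ZU.{u}).ker := by
    constructor
    rintro ⟨x, hx⟩ ⟨y, hy⟩
    apply Subtype.ext
    rw [MonoidHom.mem_ker] at hx hy
    exact hx.trans hy.symm
  exact PolyTFA.triv _

/-- The generator. -/
def zt : ZU.{u} := ⟨Multiplicative.ofAdd 1⟩

theorem zt_pow_injective : Function.Injective fun n : ℕ => (zt.{u}) ^ n := by
  intro m n h
  have h1 : (Multiplicative.ofAdd (1:ℤ)) ^ m = (Multiplicative.ofAdd (1:ℤ)) ^ n :=
    congrArg ULift.down h
  have h2 := congrArg Multiplicative.toAdd h1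
  simpa using h2

/-- Polynomial rings. -/
theorem Good.polynomial {A : Type u} [CommRing A] [IsDomain A] {d : ℕ} (h : Good A d) :
    ∃ d', Good A[X] d' := by
  classical
  obtain ⟨e, he⟩ := (polyTFA_ZU.{u}).good
  refine ⟨d + e, (he A d h).of_injective
    (Polynomial.aeval (R := A) (MonoidAlgebra.single (zt.{u}) (1 : A))).toRingHom ?_⟩
  have h1 : ∀ (p : A[X]) (n : ℕ), (Polynomial.aeval (R := A)
      (MonoidAlgebra.single (zt.{u}) (1 : A)) p).coeff (zt ^ n) = p.coeff n := by
    intro p n
    induction p using Polynomial.induction_on' with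
    | add p q hp hq =>
      rw [map_add, MonoidAlgebra.coeff_add, Finsupp.add_apply, hp, hq, Polynomial.coeff_add]
    | monomial m a =>
      rw [Polynomial.aeval_monomial, MonoidAlgebra.single_pow, one_pow, ← Algebra.smul_def,
        MonoidAlgebra.coeff_smul, Finsupp.smul_apply, MonoidAlgebra.coeff_single,
        Finsupp.single_apply, Polynomial.coeff_monomial]
      by_cases hmn : m = n
      · rw [if_pos hmn, if_pos (by rw [hmn]), smul_eq_mul, mul_one]
      · rw [if_neg hmn, if_neg (fun h => hmn (zt_pow_injective h)), smul_zero]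
  intro p q hpq
  ext n
  rw [← h1 p n, ← h1 q n]
  exact congrArg (fun x => x.coeff (zt ^ n)) hpq

section Away

variable {A : Type u} [CommRing A] [IsDomain A] (F : A[X])

/-- The quadratic polynomial. -/
noncomputable def P₁ (A : Type u) [CommRing A] : A[X][X] := X ^ 2 - C X * X + 1

theorem P₁_monic (A : Type u) [CommRing A] : (P₁ A).Monic := by
  unfold P₁
  monicity!

/-- The quadratic extension. -/
abbrev B₁ (A : Type u) [CommRing A] : Type u := AdjoinRoot (P₁ A)

/-- The unit. -/
noncomputable def yy (A : Type u) [CommRing A] : B₁ A := AdjoinRoot.root (P₁ A)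

theorem yy_unit (A : Type u) [CommRing A] : IsUnit (yy A) := by
  have h1 : (X ^ 2 - C X * X + 1 : A[X][X]).eval₂ (AdjoinRoot.of (P₁ A))
      (AdjoinRoot.root (P₁ A)) = 0 := AdjoinRoot.eval₂_root (P₁ A)
  rw [eval₂_add, eval₂_sub, eval₂_mul, eval₂_pow, eval₂_X, eval₂_C, eval₂_one] at h1
  refine IsUnit.of_mul_eq_one (AdjoinRoot.of (P₁ A) X - yy A) ?_
  have h2 : yy A = AdjoinRoot.root (P₁ A) := rfl
  rw [h2]
  linear_combination -h1

/-- The inclusion of the coefficients. -/
noncomputable def i₁ (A : Type u) [CommRing A] : A →+* B₁ A := (AdjoinRoot.of (P₁ A)).comp C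

/-- The second polynomial. -/
noncomputable def P₂ : (B₁ A)[X] := F.map (i₁ A) - C (yy A)

theorem P₂_monic (hF : F.Monic) (hd : 0 < F.natDegree) : (P₂ F).Monic := by
  have h0 : Nontrivial (B₁ A) := AdjoinRoot.nontrivial (P₁ A) (by
    intro h
    have h1 : (P₁ A).natDegree = 2 := by
      unfold P₁
      compute_degree!
    have h2 := Polynomial.natDegree_eq_of_degree_eq_some (n := 0) h
    omega)
  refine Monic.sub_of_left (hF.map _) ?_
  refine lt_of_le_of_lt degree_C_le ?_
  rw [← natDegree_pos_iff_degree_pos, hF.natDegree_map]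
  exact hd

/-- The second extension. -/
abbrev B₂ : Type u := AdjoinRoot (P₂ F)

/-- The homomorphism to the second extension. -/
noncomputable def α₂ : A[X] →+* B₂ F :=
  eval₂RingHom ((AdjoinRoot.of (P₂ F)).comp (i₁ A)) (AdjoinRoot.root (P₂ F))

theorem α₂_F : IsUnit (α₂ F F) := by
  have h1 := AdjoinRoot.eval₂_root (P₂ F)
  rw [P₂, eval₂_sub, eval₂_C, eval₂_map, sub_eq_zero] at h1
  have h2 : α₂ F F = AdjoinRoot.of (P₂ F) (yy A) := h1
  rw [h2]
  exact (yy_unit A).map _

/-- The fraction field. -/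
abbrev TT' (A : Type u) [CommRing A] [IsDomain A] : Type u := FractionRing A[X]

/-- The homomorphism to the fraction field. -/
noncomputable def Θ₁ (hF : F ≠ 0) : B₁ A →+* TT' A :=
  AdjoinRoot.lift (eval₂RingHom ((algebraMap A[X] (TT' A)).comp C)
    (algebraMap A[X] (TT' A) F + (algebraMap A[X] (TT' A) F)⁻¹)) (algebraMap A[X] (TT' A) F) (by
      have h0 : algebraMap A[X] (TT' A) F ≠ 0 := fun h =>
        hF (IsFractionRing.injective A[X] (TT' A) (by rw [h, map_zero]))
      rw [P₁, eval₂_add, eval₂_sub, eval₂_mul, eval₂_pow, eval₂_X, eval₂_C, eval₂_one,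
        coe_eval₂RingHom, eval₂_X]
      field_simp
      ring)

theorem Θ₁_yy (hF : F ≠ 0) : Θ₁ F hF (yy A) = algebraMap A[X] (TT' A) F := by
  rw [Θ₁, yy, AdjoinRoot.lift_root]

theorem Θ₁_i₁ (hF : F ≠ 0) : (Θ₁ F hF).comp (i₁ A) = (algebraMap A[X] (TT' A)).comp C := by
  ext a
  rw [i₁, RingHom.comp_apply, RingHom.comp_apply, Θ₁, AdjoinRoot.lift_of, coe_eval₂RingHom, eval₂_C]

/-- The homomorphism to the fraction field. -/
noncomputable def Θ₂ (hF : F ≠ 0) : B₂ F →+* TT' A :=
  AdjoinRoot.lift (Θ₁ F hF) (algebraMap A[X] (TT' A) X) (by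
    rw [P₂, eval₂_sub, eval₂_C, Θ₁_yy, eval₂_map, Θ₁_i₁, sub_eq_zero, ← hom_eval₂, eval₂_C_X])

theorem Θ₂_α₂ (hF : F ≠ 0) (p : A[X]) : Θ₂ F hF (α₂ F p) = algebraMap A[X] (TT' A) p := by
  have : (Θ₂ F hF).comp (α₂ F) = algebraMap A[X] (TT' A) := by
    refine Polynomial.ringHom_ext (fun a => ?_) ?_
    · rw [RingHom.comp_apply, α₂, coe_eval₂RingHom, eval₂_C, RingHom.comp_apply, Θ₂,
        AdjoinRoot.lift_of]
      exact congrArg (fun f => f a) (Θ₁_i₁ F hF)
    · rw [RingHom.comp_apply, α₂, coe_eval₂RingHom, eval₂_X, Θ₂, AdjoinRoot.lift_root]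
  rw [← this]
  rfl

/-- Localizations of polynomial rings. -/
theorem Good.away_poly {d : ℕ} (h : Good A d) (hF : F.Monic) (hd : 0 < F.natDegree) :
    ∃ d', Good (Localization.Away F) d' := by
  classical
  obtain ⟨d', h1⟩ := h.polynomial
  have hF0 : F ≠ 0 := hF.ne_zero
  have h2 : Good (B₁ A) d' := h1.matrix _
    (Algebra.leftMulMatrix (AdjoinRoot.powerBasis' (P₁_monic A)).basis).toRingHom
    (Algebra.leftMulMatrix_injective _)
  have h3 : Good (B₂ F) d' := h2.matrix _
    (Algebra.leftMulMatrix (AdjoinRoot.powerBasis' (P₂_monic F hF hd)).basis).toRingHom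
    (Algebra.leftMulMatrix_injective _)
  refine ⟨d', h3.of_injective (IsLocalization.Away.lift (S := Localization.Away F) F (α₂_F F)) ?_⟩
  rw [injective_iff_map_eq_zero]
  intro z hz
  obtain ⟨⟨a, s⟩, hs⟩ := IsLocalization.surj (Submonoid.powers F) z
  have h4 := congrArg (IsLocalization.Away.lift (S := Localization.Away F) F (α₂_F F)) hs
  rw [map_mul, hz, zero_mul, IsLocalization.Away.lift_eq] at h4
  have h5 := Θ₂_α₂ F hF0 a
  rw [← h4, map_zero] at h5
  have h6 : a = 0 := IsFractionRing.injective A[X] (TT' A) (by rw [← h5, map_zero])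
  rw [h6, map_zero] at hs
  exact (IsLocalization.map_units (Localization.Away F) s).mul_left_eq_zero.mp hs

end Away

/-- Rational function fields. -/
theorem FGood.ratFunc {K : Type u} [Field K] (hK : FGood K) : FGood (RatFunc K) := by
  classical
  intro s
  obtain ⟨b, hb⟩ := IsLocalization.exist_integer_multiples_of_finset (nonZeroDivisors K[X]) s
  have hb0 : (b : K[X]) ≠ 0 := nonZeroDivisors.coe_ne_zero b
  -- a monic denominator of positive degree
  obtain ⟨f, hfm, hfd, hf⟩ : ∃ f : K[X], f.Monic ∧ 0 < f.natDegree ∧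
      ∀ x ∈ s, ∃ p : K[X], algebraMap K[X] (RatFunc K) f * x = algebraMap K[X] (RatFunc K) p := by
    have h0 : X * (b : K[X]) ≠ 0 := mul_ne_zero X_ne_zero hb0
    have hlc : (X * (b : K[X])).leadingCoeff ≠ 0 := leadingCoeff_ne_zero.mpr h0
    refine ⟨(X * (b : K[X])) * C (X * (b : K[X])).leadingCoeff⁻¹,
      monic_mul_leadingCoeff_inv h0, ?_, fun x hx => ?_⟩
    · rw [natDegree_mul_C (inv_ne_zero hlc), natDegree_X_mul hb0]
      omega
    · obtain ⟨a, ha⟩ := hb x hx
      refine ⟨X * C (X * (b : K[X])).leadingCoeff⁻¹ * a, ?_⟩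
      rw [map_mul, map_mul, map_mul, ha, Algebra.smul_def, map_mul]
      change _ = _ * (algebraMap K[X] (RatFunc K) (b : K[X]) * x)
      ring
  choose! p hp using hf
  obtain ⟨S, d, hS, hd⟩ := hK (f.coeffs ∪ s.biUnion fun x => (p x).coeffs)
  have hfS : (↑f.coeffs : Set K) ⊆ S := fun c hc => hS (Finset.mem_coe.mpr
    (Finset.mem_union_left _ hc))
  let F : S[X] := f.toSubring S hfS
  have hFf : F.map S.subtype = f := Polynomial.map_toSubring _ _ _
  have hFm : F.Monic := (Polynomial.monic_toSubring f S hfS).mpr hfm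
  have hFd : 0 < F.natDegree := by
    rw [Polynomial.natDegree_toSubring]
    exact hfd
  obtain ⟨d', hL⟩ := hd.away_poly F hFm hFd
  let g : S[X] →+* RatFunc K := (algebraMap K[X] (RatFunc K)).comp (Polynomial.mapRingHom S.subtype)
  have hg : Function.Injective g := by
    intro x y hxy
    exact Polynomial.map_injective _ S.subtype_injective
      (IsFractionRing.injective K[X] (RatFunc K) hxy)
  have hgF : IsUnit (g F) := by
    rw [isUnit_iff_ne_zero]
    intro h
    exact hFm.ne_zero (hg (by rw [h, map_zero]))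
  let Λ : Localization.Away F →+* RatFunc K := IsLocalization.Away.lift F hgF
  have hΛ : Function.Injective Λ := by
    rw [injective_iff_map_eq_zero]
    intro z hz
    obtain ⟨⟨a, t⟩, ht⟩ := IsLocalization.surj (Submonoid.powers F) z
    have h4 := congrArg Λ ht
    rw [map_mul, hz, zero_mul, IsLocalization.Away.lift_eq] at h4
    have h6 : a = 0 := hg (by rw [← h4, map_zero])
    rw [h6, map_zero] at ht
    exact (IsLocalization.map_units (Localization.Away F) t).mul_left_eq_zero.mp ht
  refine ⟨Λ.range, d', fun x hx => ?_, hL.range Λ hΛ⟩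
  have hpS : (↑(p x).coeffs : Set K) ⊆ S := fun c hc => hS (Finset.mem_coe.mpr
    (Finset.mem_union_right _ (Finset.mem_biUnion.mpr ⟨x, hx, hc⟩)))
  refine ⟨IsLocalization.mk' (Localization.Away F) ((p x).toSubring S hpS)
    (⟨F, Submonoid.mem_powers F⟩ : Submonoid.powers F), ?_⟩
  have h1 : Λ (algebraMap S[X] (Localization.Away F) F) ≠ 0 := by
    rw [IsLocalization.Away.lift_eq]
    exact hgF.ne_zero
  apply mul_left_cancel₀ h1
  rw [← map_mul, mul_comm (algebraMap S[X] (Localization.Away F) F),
    show algebraMap S[X] (Localization.Away F) F = algebraMap S[X] (Localization.Away F)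
      ((⟨F, Submonoid.mem_powers F⟩ : Submonoid.powers F) : S[X]) from rfl,
    IsLocalization.mk'_spec, IsLocalization.Away.lift_eq, IsLocalization.Away.lift_eq]
  change algebraMap K[X] (RatFunc K) (((p x).toSubring S hpS).map S.subtype) =
    algebraMap K[X] (RatFunc K) (F.map S.subtype) * x
  rw [hFf, hp x hx, Polynomial.map_toSubring]

open IntermediateField in
/-- Simple extensions. -/
theorem FGood.adjoin_simple {K : Type u} [Field K] {E : Type u} [Field E] [Algebra K E]
    (hK : FGood K) (x : E) : FGood K⟮x⟯ := by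
  by_cases hx : IsAlgebraic K x
  · have : FiniteDimensional K K⟮x⟯ := IntermediateField.adjoin.finiteDimensional hx.isIntegral
    exact FGood.of_finiteDimensional (F := K) (K := K⟮x⟯) hK
  · have e := RatFunc.algEquivOfTranscendental (K := K) x hx
    exact hK.ratFunc.of_injective (e.symm : K⟮x⟯ →+* RatFunc K) e.symm.injective

theorem FGood.of_algebra {F : Type u} [Field F] {E : Type u} [Field E] [Algebra F E]
    (hF : FGood F) : FGood E := by
  classical
  refine FGood.of_local fun s => ?_
  refine ⟨(IntermediateField.adjoin F (s : Set E)).toSubring,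
    IntermediateField.subset_adjoin F _, ?_⟩
  refine IntermediateField.induction_on_adjoin_finset s
    (fun L : IntermediateField F E => FGood L.toSubring) ?_ ?_
  · exact hF.of_injective ((IntermediateField.botEquiv F E : _ ≃ₐ[F] F) :
      (⊥ : IntermediateField F E) →+* F) (IntermediateField.botEquiv F E).injective
  · intro L x _ hL
    have h1 : FGood L := hL
    exact h1.adjoin_simple x

theorem FGood.field (K : Type u) [Field K] : FGood K := by
  obtain ⟨p, hp⟩ := CharP.exists K
  rcases CharP.char_is_prime_or_zero K p with hprime | h0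
  · have : Fact p.Prime := ⟨hprime⟩
    have h1 : FGood (ULift.{u} (ZMod p)) := fgood_of_finite
    let _ : Algebra (ULift.{u} (ZMod p)) K :=
      ((ZMod.castHom (dvd_refl p) K).comp (ULift.ringEquiv : ULift.{u} (ZMod p) ≃+* ZMod p).toRingHom).toAlgebra
    exact FGood.of_algebra h1
  · subst h0
    have : CharZero K := CharP.charP_to_charZero K
    have h1 : FGood (ULift.{u} ℚ) := fgood_rat
    let _ : Algebra (ULift.{u} ℚ) K :=
      ((algebraMap ℚ K).comp (ULift.ringEquiv : ULift.{u} ℚ ≃+* ℚ).toRingHom).toAlgebra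
    exact FGood.of_algebra h1

end Pool.Agent.N506.EX
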