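import Pool.Agent.N506.EYL

/-!
# Closure properties of poly-(torsion-free abelian) groups
-/

namespace Pool.Agent.N506.EX

open MonoidAlgebra

universe u v w

/-- Group rings of poly-(torsion-free abelian) groups over fields. -/
theorem PolyTFA.mex {G : Type u} [Group G] (h : PolyTFA G) (K : Type u) [Field K] :
    MEx (MonoidAlgebra K G) := by
  classical
  obtain ⟨e, he⟩ := h.good
  refine MEx.of_local fun s => ?_
  obtain ⟨S, d, hS, hd⟩ := FGood.field K (s.biUnion fun x => x.coeff.support.image fun g => x.coeff g)
  let f : MonoidAlgebra S G →+* MonoidAlgebra K G := MonoidAlgebra.mapRingHom G S.subtype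
  have hf : Function.Injective f := mapRingHom_injective S.subtype S.subtype_injective
  refine ⟨f.range, ?_, ((he S d hd).range f hf).mex⟩
  intro x hx
  have h1 : ∀ g, x.coeff g ∈ S := by
    intro g
    by_cases hg : x.coeff g = 0
    · rw [hg]
      exact S.zero_mem
    · apply hS
      simp only [Finset.coe_biUnion, Set.mem_iUnion]
      exact ⟨x, hx, Finset.mem_coe.mpr (Finset.mem_image_of_mem _ (Finsupp.mem_support_iff.mpr hg))⟩
  refine ⟨∑ g ∈ x.coeff.support, MonoidAlgebra.single g (⟨x.coeff g, h1 g⟩ : S), ?_⟩
  rw [map_sum]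
  conv_rhs => rw [← MonoidAlgebra.sum_coeff_single x]
  rw [Finsupp.sum]
  refine Finset.sum_congr rfl fun g _ => ?_
  exact MonoidAlgebra.map_single _ _ _

theorem PolyTFA.of_injective {G' : Type u} [Group G'] (h : PolyTFA G') :
    ∀ (G : Type u) [Group G] (f : G →* G'), Function.Injective f → PolyTFA G := by
  induction h with
  | triv G' =>
    intro G _ f hf
    have : Subsingleton G := hf.subsingleton
    exact PolyTFA.triv G
  | ext G' H φ _ ih =>
    intro G _ f hf
    refine PolyTFA.ext G H (φ.comp f) ?_
    refine ih (φ.comp f).ker ((f.comp (φ.comp f).ker.subtype).codRestrict φ.ker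
      (fun g => g.2)) ?_
    intro x y hxy
    exact Subtype.ext (hf (congrArg Subtype.val hxy))

theorem PolyTFA.comm (H : Type u) [CommGroup H] [IsMulTorsionFree H] : PolyTFA H := by
  refine PolyTFA.ext H H (MonoidHom.id H) ?_
  have : Subsingleton (MonoidHom.id H).ker := by
    constructor
    rintro ⟨x, hx⟩ ⟨y, hy⟩
    exact Subtype.ext (hx.trans hy.symm)
  exact PolyTFA.triv _

theorem PolyTFA.extension {Q : Type u} [Group Q] (hQ : PolyTFA Q) :
    ∀ (G : Type u) [Group G] (π : G →* Q), PolyTFA π.ker → PolyTFA G := by
  induction hQ with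
  | triv Q =>
    intro G _ π h
    refine h.of_injective G ((MonoidHom.id G).codRestrict π.ker
      (fun g => Subsingleton.elim _ _)) ?_
    intro x y hxy
    exact congrArg Subtype.val hxy
  | ext Q H φ _ ih =>
    intro G _ π h
    refine PolyTFA.ext G H (φ.comp π) ?_
    refine ih (φ.comp π).ker ((π.comp (φ.comp π).ker.subtype).codRestrict φ.ker
      (fun g => g.2)) ?_
    refine h.of_injective _ ((((φ.comp π).ker.subtype).comp (Subgroup.subtype _)).codRestrict π.ker
      (fun g => congrArg Subtype.val g.2)) ?_
    intro x y hxy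
    exact Subtype.ext (Subtype.ext (congrArg (fun g : π.ker => (g : G)) hxy))

theorem PolyTFA.prod {G H : Type u} [Group G] [Group H] (hG : PolyTFA G) (hH : PolyTFA H) :
    PolyTFA (G × H) := by
  refine hH.extension (G × H) (MonoidHom.snd G H) ?_
  refine hG.of_injective _ ((MonoidHom.fst G H).comp (Subgroup.subtype _)) ?_
  intro x y hxy
  exact Subtype.ext (Prod.ext hxy ((MonoidHom.mem_ker.mp x.2).trans (MonoidHom.mem_ker.mp y.2).symm))

section FreeMonoids

variable (m : ℕ) (X : Type u)

instance (G : Type v) [Group G] [IsMulTorsionFree G] : IsMulTorsionFree (ULift.{u} G) where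
  pow_left_injective n hn x y hxy := by
    apply ULift.down_injective
    have h1 : (x.down) ^ n = y.down ^ n := congrArg ULift.down hxy
    exact pow_left_injective hn h1

/-- The base group. -/
abbrev BB : Type u := Multiplicative (Var m X →₀ ℤ)

/-- The shift action. -/
noncomputable def shAct : Multiplicative (Fin m → ℤ) →* MulAut (BB m X) where
  toFun n := (Finsupp.domCongr (M := ℤ) (sh (X := X) n.toAdd)).toMultiplicative
  map_one' := by
    ext a v
    change (Finsupp.equivMapDomain (sh 0) a.toAdd) v = a.toAdd v
    rw [Finsupp.equivMapDomain_apply]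
    congr 1
    rw [Equiv.symm_apply_eq]
    obtain ⟨i, j, x⟩ := v
    rw [sh_apply]
    simp
  map_mul' n n' := by
    ext a v
    change (Finsupp.equivMapDomain (sh (n.toAdd + n'.toAdd)) a.toAdd) v =
      (Finsupp.equivMapDomain (sh n.toAdd) (Finsupp.equivMapDomain (sh n'.toAdd) a.toAdd)) v
    rw [Finsupp.equivMapDomain_apply, Finsupp.equivMapDomain_apply, Finsupp.equivMapDomain_apply,
      sh_add]
    rfl

/-- The solvable group. -/
abbrev WW : Type u := (BB m X) ⋊[shAct m X] (Multiplicative (Fin m → ℤ))

theorem polyTFA_WW : PolyTFA (WW m X) := by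
  have h1 : PolyTFA (ULift.{u} (Multiplicative (Fin m → ℤ))) := PolyTFA.comm _
  refine h1.extension _ ((MulEquiv.ulift.symm.toMonoidHom).comp SemidirectProduct.rightHom) ?_
  have h2 : PolyTFA (BB m X) := PolyTFA.comm _
  have h3 : ∀ g : ((MulEquiv.ulift.{0, u}.symm.toMonoidHom).comp
      (SemidirectProduct.rightHom (φ := shAct m X))).ker, (g : WW m X).right = 1 := by
    intro g
    have := g.2
    rw [MonoidHom.mem_ker] at this
    exact congrArg ULift.down this
  refine h2.of_injective _
    { toFun := fun g => (g : WW m X).left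
      map_one' := rfl
      map_mul' := fun a b => ?_ } ?_
  · change (a : WW m X).left * (shAct m X (a : WW m X).right) (b : WW m X).left = _
    rw [h3 a, map_one]
    rfl
  · intro a b hab
    exact Subtype.ext (SemidirectProduct.ext hab ((h3 a).trans (h3 b).symm))

variable {m X}

/-- The embedding of the product of free monoids. -/
noncomputable def emb : (Fin m → FreeMonoid X) →* WW m X where
  toFun a := ⟨Multiplicative.ofAdd ((mu a).mapRange (Nat.castAddMonoidHom ℤ) (map_zero _)),
    Multiplicative.ofAdd (fun i => ((a i).length : ℤ))⟩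
  map_one' := by
    have h1 : mu (1 : Fin m → FreeMonoid X) = 0 := by
      have h2 := mu_mul (1 : Fin m → FreeMonoid X) 1
      rw [mul_one] at h2
      have h3 : (sh (fun i => (((1 : Fin m → FreeMonoid X) i).length : ℤ)) :
          Var m X → Var m X) = id := by
        funext v
        obtain ⟨i, j, x⟩ := v
        rw [sh_apply]
        simp
      rw [h3, Finsupp.mapDomain_id] at h2
      exact (add_eq_left.mp h2.symm)
    refine SemidirectProduct.ext ?_ ?_
    · rw [h1]
      exact congrArg Multiplicative.ofAdd Finsupp.mapRange_zero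
    · change Multiplicative.ofAdd _ = Multiplicative.ofAdd 0
      rfl
  map_mul' a b := by
    refine SemidirectProduct.ext ?_ ?_
    · change Multiplicative.ofAdd _ = Multiplicative.ofAdd (_ + Finsupp.equivMapDomain _ _)
      congr 1
      rw [mu_mul, Finsupp.mapRange_add (fun x y => map_add _ x y),
        Finsupp.equivMapDomain_eq_mapDomain]
      congr 1
      change _ = Finsupp.mapDomain (sh fun i => ((a i).length : ℤ))
        (Finsupp.mapRange (Nat.castAddMonoidHom ℤ) (map_zero _) (mu b))
      rw [Finsupp.mapDomain_mapRange]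
      intro x y
      exact map_add _ x y
    · change Multiplicative.ofAdd _ = Multiplicative.ofAdd (_ + _)
      congr 1
      funext i
      simp [FreeMonoid.length_mul]

theorem emb_injective : Function.Injective (emb (m := m) (X := X)) := by
  intro a b hab
  have h1 := congrArg (fun w : WW m X => w.left.toAdd) hab
  apply mu_injective
  have h2 : (mu a).mapRange (Nat.castAddMonoidHom ℤ) (map_zero _) =
    (mu b).mapRange (Nat.castAddMonoidHom ℤ) (map_zero _) := h1
  exact Finsupp.mapRange_injective _ (map_zero _) Nat.cast_injective h2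

end FreeMonoids

end Pool.Agent.N506.EX
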