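import Pool.Agent.N506.EYM

/-!
# Products of poly-(torsion-free abelian) groups and right-angled Artin groups
-/

namespace Pool.Agent.N506.EX

open MonoidAlgebra

universe u v w

section MatMap

variable {R : Type u} [Ring R] (P : Type u) [Group P] (Q : Type u) [Fintype Q] [DecidableEq Q]

/-- The homomorphism from the group ring of a matrix ring to the matrix ring of the group ring. -/
noncomputable def matMap : MonoidAlgebra (Matrix Q Q R) P →+* Matrix Q Q (MonoidAlgebra R P) :=
  MonoidAlgebra.liftNCRingHom
    ((MonoidAlgebra.singleOneRingHom : R →+* MonoidAlgebra R P).mapMatrix)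
    ((Matrix.scalar Q : MonoidAlgebra R P →+* _).toMonoidHom.comp (MonoidAlgebra.of R P))
    (by
      intro M p
      refine Matrix.ext fun i j => ?_
      change (((MonoidAlgebra.singleOneRingHom : R →+* MonoidAlgebra R P).mapMatrix M *
        Matrix.diagonal (fun _ => MonoidAlgebra.single p (1 : R)) :
        Matrix Q Q (MonoidAlgebra R P))) i j =
        ((Matrix.diagonal (fun _ => MonoidAlgebra.single p (1 : R)) *
        (MonoidAlgebra.singleOneRingHom : R →+* MonoidAlgebra R P).mapMatrix M :
        Matrix Q Q (MonoidAlgebra R P))) i j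
      rw [Matrix.mul_diagonal, Matrix.diagonal_mul]
      change MonoidAlgebra.single 1 (M i j) * MonoidAlgebra.single p 1 =
        MonoidAlgebra.single p 1 * MonoidAlgebra.single 1 (M i j)
      rw [MonoidAlgebra.single_mul_single, MonoidAlgebra.single_mul_single]
      simp)

theorem matMap_coeff (x : MonoidAlgebra (Matrix Q Q R) P) (i j : Q) (p : P) :
    (matMap P Q x i j).coeff p = x.coeff p i j := by
  classical
  induction x using MonoidAlgebra.induction_linear with
  | zero => rw [map_zero]; rfl
  | add x y hx hy =>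
    rw [map_add, Matrix.add_apply, MonoidAlgebra.coeff_add, Finsupp.add_apply, hx, hy,
      MonoidAlgebra.coeff_add, Finsupp.add_apply, Matrix.add_apply]
  | single q M =>
    rw [matMap, MonoidAlgebra.liftNCRingHom_single]
    change ((((MonoidAlgebra.singleOneRingHom : R →+* MonoidAlgebra R P).mapMatrix M *
        Matrix.diagonal (fun _ => MonoidAlgebra.single q (1 : R)) :
        Matrix Q Q (MonoidAlgebra R P))) i j).coeff p = _
    rw [Matrix.mul_diagonal]
    change (MonoidAlgebra.single 1 (M i j) * MonoidAlgebra.single q 1).coeff p = _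
    rw [MonoidAlgebra.single_mul_single, one_mul, mul_one, MonoidAlgebra.coeff_single,
      MonoidAlgebra.coeff_single, Finsupp.single_apply, Finsupp.single_apply]
    split_ifs <;> rfl

theorem matMap_injective : Function.Injective (matMap (R := R) P Q) := by
  intro x y hxy
  rw [← MonoidAlgebra.coeff_inj]
  ext p i j
  rw [← matMap_coeff, ← matMap_coeff, hxy]

end MatMap

theorem mapRingHom_injective' {A B : Type u} [Ring A] [Ring B] {M : Type u} [Monoid M]
    (f : A →+* B) (hf : Function.Injective f) :
    Function.Injective (MonoidAlgebra.mapRingHom M f) :=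
  MonoidAlgebra.map_injective f.toAddMonoidHom hf

/-- Finite graphs. -/
theorem mex_prod_raag_fin (k : Type u) [Field k] {P : Type u} [Group P] (hP : PolyTFA P)
    {V : Type u} [Finite V] (Γ : SimpleGraph V) : MEx (MonoidAlgebra k (P × RAAG Γ)) := by
  classical
  have : Fintype V := Fintype.ofFinite V
  have hι : Fintype (PI Γ) := Fintype.ofFinite (PI Γ)
  let e : PI Γ ≃ Fin (Fintype.card (PI Γ)) := Fintype.equivFin (PI Γ)
  let f : (PI Γ → FreeMonoid (V × Bool)) →* (Fin (Fintype.card (PI Γ)) → FreeMonoid (V × Bool)) :=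
    { toFun := fun a i => a (e.symm i)
      map_one' := rfl
      map_mul' := fun _ _ => rfl }
  have hf : Function.Injective f := by
    intro a b hab
    funext i
    have := congrFun hab (e i)
    simpa [f] using this
  let g : P × PM Γ →* P × WW (Fintype.card (PI Γ)) (V × Bool) :=
    (MonoidHom.id P).prodMap (emb.comp f)
  have hg : Function.Injective g := by
    rintro ⟨p, a⟩ ⟨q, b⟩ hab
    have h1 := congrArg Prod.fst hab
    have h2 := congrArg Prod.snd hab
    exact Prod.ext h1 (hf (emb_injective h2))
  have h1 : MEx (MonoidAlgebra k (P × PM Γ)) :=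
    mex_monoidAlgebra_of_injective ((hP.prod (polyTFA_WW _ _)).mex k) g hg
  let f1 : MonoidAlgebra k (P × RAAG Γ) →+* MonoidAlgebra (MonoidAlgebra k (RAAG Γ)) P :=
    (MonoidAlgebra.curryRingEquiv (R := k) (M := P) (N := RAAG Γ)).toRingHom
  let f2 : MonoidAlgebra (MonoidAlgebra k (RAAG Γ)) P →+* MonoidAlgebra (MR k Γ) P :=
    MonoidAlgebra.mapRingHom P (rhoHom k Γ).toRingHom
  let f3 : MonoidAlgebra (MR k Γ) P →+* Matrix (Finset (V × Bool)) (Finset (V × Bool))
      (MonoidAlgebra (AR k Γ) P) := matMap P (Finset (V × Bool))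
  let f4 : MonoidAlgebra (AR k Γ) P →+* MonoidAlgebra k (P × PM Γ) :=
    (MonoidAlgebra.curryRingEquiv (R := k) (M := P) (N := PM Γ)).symm.toRingHom
  have h2 : MEx (MonoidAlgebra (AR k Γ) P) := h1.of_injective f4 (RingEquiv.injective _)
  refine (h2.matrix (Finset (V × Bool))).of_injective (f3.comp (f2.comp f1)) ?_
  exact (matMap_injective P (Finset (V × Bool))).comp
    ((mapRingHom_injective' (rhoHom k Γ).toRingHom (rhoHom_injective k Γ)).comp
      (RingEquiv.injective _))

/-- All graphs. -/
theorem mex_prod_raag (k : Type u) [Field k] {P : Type u} [Group P] (hP : PolyTFA P)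
    {V : Type u} (Γ : SimpleGraph V) : MEx (MonoidAlgebra k (P × RAAG Γ)) := by
  classical
  refine MEx.of_local fun s => ?_
  -- the finite set of vertices
  choose W hW using val_surjective Γ
  let S : Finset V := s.biUnion fun x => x.coeff.support.biUnion fun g =>
    ((W g.2).map Prod.fst).toFinset
  let i : P × RAAG (Γ.induce (S : Set V)) →* P × RAAG Γ :=
    (MonoidHom.id P).prodMap (raagIncl Γ S)
  let j : P × RAAG Γ →* P × RAAG (Γ.induce (S : Set V)) :=
    (MonoidHom.id P).prodMap (raagRetr Γ S)
  have hji : ∀ g, j (i g) = g := fun g => Prod.ext rfl (raagRetr_incl Γ _ g.2)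
  have hi : Function.Injective i := Function.LeftInverse.injective hji
  let f : MonoidAlgebra k (P × RAAG (Γ.induce (S : Set V))) →+* MonoidAlgebra k (P × RAAG Γ) :=
    MonoidAlgebra.mapDomainRingHom k i
  have hf : Function.Injective f := MonoidAlgebra.mapDomain_injective hi
  refine ⟨f.range, ?_, ?_⟩
  · intro x hx
    have h1 : ∀ g ∈ x.coeff.support, ∃ g', i g' = g := by
      intro g hg
      have h2 := val_mem_range Γ (S : Set V) (W g.2) (by
        intro y hy
        simp only [S, Finset.coe_biUnion, Set.mem_iUnion]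
        refine ⟨x, hx, g, hg, ?_⟩
        simp only [List.coe_toFinset, Set.mem_ofPred_eq, List.mem_map]
        exact ⟨y, hy, rfl⟩)
      rw [hW] at h2
      obtain ⟨g', hg'⟩ := h2
      exact ⟨(g.1, g'), Prod.ext rfl hg'⟩
    choose! g' hg' using h1
    refine ⟨∑ g ∈ x.coeff.support, MonoidAlgebra.single (g' g) (x.coeff g), ?_⟩
    rw [map_sum]
    conv_rhs => rw [← MonoidAlgebra.sum_coeff_single x]
    rw [Finsupp.sum]
    refine Finset.sum_congr rfl fun g hg => ?_
    show MonoidAlgebra.mapDomain _ _ = _
    rw [MonoidAlgebra.mapDomain_single, hg' g hg]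
  · have : Finite (S : Set V) := S.finite_toSet
    refine (mex_prod_raag_fin k hP (Γ.induce (S : Set V))).of_injective
      (RingEquiv.ofBijective f.rangeRestrict ⟨fun x y hxy => hf (congrArg Subtype.val hxy),
        f.rangeRestrict_surjective⟩).symm.toRingHom (RingEquiv.injective _)

/-- A finite-index subgroup embeds in the product of a poly-(torsion-free abelian) group and a
right-angled Artin group. -/
def VirtSpec (G : Type u) [Group G] : Prop :=
  ∃ (H : Subgroup G) (_ : H.FiniteIndex) (P : Type u) (_ : Group P) (V : Type u)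
    (Γ : SimpleGraph V) (ι : H →* P × RAAG Γ), PolyTFA P ∧ Function.Injective ι

theorem VirtSpec.mex {G : Type u} [Group G] (h : VirtSpec G) (A : Type u) [CommRing A] :
    MEx (MonoidAlgebra A G) := by
  obtain ⟨H, _, P, _, V, Γ, ι, hP, hι⟩ := h
  refine mex_commRing (fun K _ => ?_) A
  exact mex_finiteIndex K H (mex_monoidAlgebra_of_injective (mex_prod_raag K hP Γ) ι hι)

/-- Groups which are locally of this form. -/
theorem mex_locally (A : Type u) [CommRing A] (G : Type u) [Group G]
    (h : ∀ K : Subgroup G, K.FG → VirtSpec K) : MEx (MonoidAlgebra A G) := by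
  classical
  refine MEx.of_local fun s => ?_
  let K : Subgroup G := Subgroup.closure ((s.biUnion fun x => x.coeff.support : Finset G) : Set G)
  have hK : VirtSpec K := h K ⟨_, rfl⟩
  refine ⟨(inc (A := A) K).range, ?_, ?_⟩
  · intro x hx
    obtain ⟨y, rfl⟩ := exists_inc K x (fun g hg => Subgroup.subset_closure
      (Finset.mem_coe.mpr (Finset.mem_biUnion.mpr ⟨x, hx, Finsupp.mem_support_iff.mpr hg⟩)))
    exact ⟨y, rfl⟩
  · exact (hK.mex A).of_injective (RingEquiv.ofBijective (inc (A := A) K).rangeRestrict
      ⟨fun x y hxy => inc_injective K (congrArg Subtype.val hxy),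
        (inc (A := A) K).rangeRestrict_surjective⟩).symm.toRingHom (RingEquiv.injective _)

end Pool.Agent.N506.EX
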