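import Mathlib
import Pool.Agent.N506.EX0
import Pool.Agent.N506.EY0

/-!
# Derived subgroups of a subgroup, and automorphisms which induce the identity on a quotient
-/

namespace Pool.Agent.N506.EX

universe u

/-- The derived subgroups of a subgroup `R`: `R^(0) = R` and `R^(k+1) = [R^(k), R^(k)]`. -/
def der {G : Type u} [Group G] (R : Subgroup G) : ℕ → Subgroup G
  | 0 => R
  | k + 1 => ⁅der R k, der R k⁆

instance der_normal {G : Type u} [Group G] (R : Subgroup G) [hR : R.Normal] (k : ℕ) :
    (der R k).Normal := by
  induction k with
  | zero => exact hR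
  | succ k ih => exact Subgroup.commutator_normal (der R k) (der R k)

/-- The group of the automorphisms `φ` of `G` such that `φ g` and `g` are congruent modulo the
subgroup `N`, for all `g` (the automorphisms which induce the identity on `G ⧸ N`, for a normal
subgroup `N`). -/
def autTriv {G : Type u} [Group G] (N : Subgroup G) : Subgroup (MulAut G) where
  carrier := {φ | ∀ g, φ g * g⁻¹ ∈ N}
  one_mem' := fun g => by simp
  mul_mem' := by
    intro a b ha hb g
    have h1 := N.mul_mem (ha (b g)) (hb g)
    simpa [mul_assoc] using h1
  inv_mem' := by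
    intro a ha g
    have h1 := N.inv_mem (ha (a⁻¹ g))
    simpa using h1

/-- The group of the automorphisms `φ` of `G` which map the subgroup `N` onto itself. -/
def autPres {G : Type u} [Group G] (N : Subgroup G) : Subgroup (MulAut G) where
  carrier := {φ | N.map (φ : G →* G) = N}
  one_mem' := Subgroup.map_id N
  mul_mem' := by
    intro a b ha hb
    have h1 : N.map ((a * b : MulAut G) : G →* G) = (N.map (b : G →* G)).map (a : G →* G) := by
      rw [Subgroup.map_map]
      rfl
    change N.map ((a * b : MulAut G) : G →* G) = N
    rw [h1, hb, ha]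
  inv_mem' := by
    intro a ha
    have h1 : (N.map (a : G →* G)).map ((a⁻¹ : MulAut G) : G →* G) = N := by
      rw [Subgroup.map_map]
      have h2 : ((a⁻¹ : MulAut G) : G →* G).comp (a : G →* G) = MonoidHom.id G := by
        ext g
        exact a.symm_apply_apply g
      rw [h2, Subgroup.map_id]
    rw [ha] at h1
    exact h1

/-- The action of the automorphisms which map the normal subgroup `N` onto itself on `G ⧸ N`. -/
def autQuot {G : Type u} [Group G] (N : Subgroup G) [N.Normal] :
    autPres N →* MulAut (G ⧸ N) where
  toFun φ := QuotientGroup.congr N N (φ : MulAut G) φ.2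
  map_one' := by
    refine MulEquiv.ext fun q => ?_
    obtain ⟨g, rfl⟩ := QuotientGroup.mk_surjective q
    rfl
  map_mul' a b := by
    refine MulEquiv.ext fun q => ?_
    obtain ⟨g, rfl⟩ := QuotientGroup.mk_surjective q
    rfl

/-- The image `R ⧸ R^(k)` of `R` in `G ⧸ R^(k)`. -/
def top {G : Type u} [Group G] (R : Subgroup G) [R.Normal] (k : ℕ) : Subgroup (G ⧸ der R k) :=
  R.map (QuotientGroup.mk' (der R k))

instance {G : Type u} [Group G] (R : Subgroup G) [hR : R.Normal] (k : ℕ) : (top R k).Normal :=
  hR.map _ (QuotientGroup.mk'_surjective _)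

/-- The group of inner automorphisms. -/
def inn (G : Type u) [Group G] : Subgroup (MulAut G) := (MulAut.conj : G →* MulAut G).range

instance inn_normal (G : Type u) [Group G] : (inn G).Normal := by
  constructor
  rintro _ ⟨g, rfl⟩ φ
  refine ⟨φ g, ?_⟩
  refine MulEquiv.ext fun x => ?_
  simp [MulAut.conj_apply, MulAut.mul_apply]

/-- The outer automorphism group. -/
abbrev Out (G : Type u) [Group G] := MulAut G ⧸ inn G

/-- Virtually poly-(torsion-free abelian) groups: groups with a subgroup of finite index which
has a finite subnormal series with torsion-free abelian factors. -/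
def VPolyTFA (G : Type) [Group G] : Prop := ∃ N : Subgroup G, N.FiniteIndex ∧ PolyTFA N

/-- Groups which are exact and embed coarsely in a Hilbert space. -/
def ExactEmb (G : Type) [Group G] : Prop := IsExact G ∧ CoarselyEmbeds G

/-- The image in `Out(G)` of a group `B` of automorphisms of `G`. -/
def outImage {G : Type u} [Group G] (B : Subgroup (MulAut G)) : Subgroup (Out G) :=
  B.map (QuotientGroup.mk' (inn G))

/-- The image in `Aut(G ⧸ N)` of the elements of `B` which map `N` onto itself. -/
def quotImage {G : Type u} [Group G] (N : Subgroup G) [N.Normal] (B : Subgroup (MulAut G)) :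
    Subgroup (MulAut (G ⧸ N)) :=
  (B.subgroupOf (autPres N)).map (autQuot N)

/-- `Aut(G)` and `Out(G)` are exact and embed coarsely in a Hilbert space. -/
def ExactAut (G : Type) [Group G] : Prop := ExactEmb (MulAut G) ∧ ExactEmb (Out G)

/-- Every group `B` of automorphisms of `G` which map the normal subgroup `N` onto itself,
with exact image in `Aut(G ⧸ N)`, is exact and embeds coarsely in a Hilbert space, and so does
its image in `Out(G)`. -/
def ExactAutOver {G : Type} [Group G] (N : Subgroup G) [N.Normal] : Prop :=
  ∀ B : Subgroup (MulAut G), B ≤ autPres N → IsExact (quotImage N B) →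
    ExactEmb B ∧ ExactEmb (outImage B)

end Pool.Agent.N506.EX
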