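import Pool.Agent.N506.EZ0
import Pool.Agent.N506.EYN

/-!
# The Magnus embedding and the Fox Jacobian
-/

namespace Pool.Agent.N506.EX

open MonoidAlgebra

section Magnus

/-- The free module of rows. -/
abbrev ML (X Q : Type) : Type := X → MonoidAlgebra ℤ Q

variable {X : Type} {Q : Type} [Group Q]

/-- Left multiplication by a group element. -/
noncomputable def lmulEquiv (q : Q) : ML X Q ≃+ ML X Q where
  toFun v i := MonoidAlgebra.single q 1 * v i
  invFun v i := MonoidAlgebra.single q⁻¹ 1 * v i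
  left_inv v := by
    funext i
    simp only
    rw [← mul_assoc, MonoidAlgebra.single_mul_single, inv_mul_cancel, one_mul,
      ← MonoidAlgebra.one_def, one_mul]
  right_inv v := by
    funext i
    simp only
    rw [← mul_assoc, MonoidAlgebra.single_mul_single, mul_inv_cancel, one_mul,
      ← MonoidAlgebra.one_def, one_mul]
  map_add' v w := by
    funext i
    exact mul_add _ _ _

variable (X Q) in
/-- The action on the free module. -/
noncomputable def lact : Q →* MulAut (Multiplicative (ML X Q)) where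
  toFun q := (lmulEquiv q).toMultiplicative
  map_one' := by
    refine MulEquiv.ext fun v => ?_
    apply Multiplicative.toAdd.injective
    funext i
    change MonoidAlgebra.single 1 1 * v.toAdd i = v.toAdd i
    rw [← MonoidAlgebra.one_def, one_mul]
  map_mul' q r := by
    refine MulEquiv.ext fun v => ?_
    apply Multiplicative.toAdd.injective
    funext i
    change MonoidAlgebra.single (q * r) 1 * v.toAdd i =
      MonoidAlgebra.single q 1 * (MonoidAlgebra.single r 1 * v.toAdd i)
    rw [← mul_assoc, MonoidAlgebra.single_mul_single, one_mul]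

variable (X Q) in
/-- The wreath product. -/
abbrev WM : Type := Multiplicative (ML X Q) ⋊[lact X Q] Q

theorem WM_ker_comm (a b : WM X Q) (ha : a.right = 1) (hb : b.right = 1) : a * b = b * a := by
  refine SemidirectProduct.ext ?_ ?_
  · rw [SemidirectProduct.mul_left, SemidirectProduct.mul_left, ha, hb, map_one]
    exact mul_comm _ _
  · rw [SemidirectProduct.mul_right, SemidirectProduct.mul_right, ha, hb]

variable {Γ : Type} [Group Γ] (x : X → Γ) (A : Subgroup Γ) [A.Normal]
  (D : Γ → ML X (Γ ⧸ A))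

/-- `D` is a derivation. -/
def IsDer : Prop := ∀ g h, D (g * h) = D g + lmulEquiv (g : Γ ⧸ A) (D h)

variable {A D}

theorem IsDer.one (hD : IsDer A D) : D 1 = 0 := by
  have h1 := hD 1 1
  rw [mul_one] at h1
  have h2 : lmulEquiv ((1 : Γ) : Γ ⧸ A) (D 1) = D 1 := by
    funext i
    change MonoidAlgebra.single 1 1 * D 1 i = D 1 i
    rw [← MonoidAlgebra.one_def, one_mul]
  rw [h2] at h1
  exact (add_eq_left.mp h1.symm)

variable [Fintype X] [DecidableEq X]

/-- **The Magnus embedding.** -/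
theorem IsDer.magnus (hD : IsDer A D) (hgen : Subgroup.closure (Set.range x) = ⊤)
    (hA : ∀ a ∈ A, ∀ b ∈ A, a * b = b * a) (hx : ∀ i, D (x i) = Pi.single i 1)
    {g h : Γ} (h1 : D g = D h) (h2 : (g : Γ ⧸ A) = h) : g = h := by
  let _ : CommGroup A := { (inferInstance : Group A) with
    mul_comm := fun a b => Subtype.ext (hA a a.2 b b.2) }
  let s : Γ ⧸ A → Γ := Quotient.out
  have hs : ∀ q : Γ ⧸ A, ((s q : Γ) : Γ ⧸ A) = q := fun q => QuotientGroup.out_eq' q
  let c : Γ ⧸ A → X → A := fun q i => ⟨s q * x i * (s (q * (x i : Γ ⧸ A)))⁻¹, by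
    rw [← QuotientGroup.eq_one_iff]
    rw [QuotientGroup.mk_mul, QuotientGroup.mk_mul, QuotientGroup.mk_inv, hs, hs, mul_inv_cancel]⟩
  let lam1 : X → MonoidAlgebra ℤ (Γ ⧸ A) →+ Additive A := fun i =>
    (Finsupp.liftAddHom (fun q => (zmultiplesHom (Additive A) (Additive.ofMul (c q i))))).comp
      MonoidAlgebra.coeffAddEquiv.toAddMonoidHom
  let lam : ML X (Γ ⧸ A) →+ Additive A := ∑ i, (lam1 i).comp (Pi.evalAddMonoidHom _ i)
  have hlam : ∀ (q : Γ ⧸ A) (i : X),
      lam (Pi.single i (MonoidAlgebra.single q 1)) = Additive.ofMul (c q i) := by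
    intro q i
    simp only [lam]
    rw [AddMonoidHom.finsetSum_apply, Finset.sum_eq_single i]
    · change lam1 i ((Pi.single i (MonoidAlgebra.single q 1) : ML X (Γ ⧸ A)) i) = _
      rw [Pi.single_eq_same]
      change Finsupp.liftAddHom _ (Finsupp.single q (1:ℤ)) = _
      rw [Finsupp.liftAddHom_apply_single]
      simp
    · intro j _ hj
      change lam1 j ((Pi.single i (MonoidAlgebra.single q 1) : ML X (Γ ⧸ A)) j) = _
      rw [Pi.single_eq_of_ne hj, map_zero]
    · intro h
      exact absurd (Finset.mem_univ _) h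
  -- the formula
  let f : Γ → Γ := fun w => ((Additive.toMul (lam (D w)) : A) : Γ) * s (w : Γ ⧸ A)
  have hf : ∀ w i, f (w * x i) = f w * x i := by
    intro w i
    have e1 : D (w * x i) = D w + Pi.single i (MonoidAlgebra.single (w : Γ ⧸ A) 1) := by
      rw [hD, hx]
      congr 1
      funext j
      change MonoidAlgebra.single (w : Γ ⧸ A) 1 * (Pi.single i 1 : ML X (Γ ⧸ A)) j = _
      by_cases hj : j = i
      · subst hj
        rw [Pi.single_eq_same, Pi.single_eq_same, mul_one]
      · rw [Pi.single_eq_of_ne hj, Pi.single_eq_of_ne hj, mul_zero]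
    simp only [f]
    rw [e1, map_add, hlam, toMul_add, toMul_ofMul, Subgroup.coe_mul]
    simp only [c]
    rw [QuotientGroup.mk_mul]
    group
  have hall : ∀ w, f w = s 1 * w := by
    intro w
    have hw : w ∈ Subgroup.closure (Set.range x) := by rw [hgen]; trivial
    induction hw using Subgroup.closure_induction_right with
    | one =>
      simp only [f]
      rw [hD.one, map_zero, toMul_zero, Subgroup.coe_one, one_mul, mul_one]
      rfl
    | mul_right w _ y hy ih =>
      obtain ⟨i, rfl⟩ := hy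
      rw [hf, ih, mul_assoc]
    | mul_inv_cancel w _ y hy ih =>
      obtain ⟨i, rfl⟩ := hy
      have h3 := hf (w * (x i)⁻¹) i
      rw [inv_mul_cancel_right, ih] at h3
      rw [← mul_assoc, h3, mul_inv_cancel_right]
  have h3 : f g = f h := by
    simp only [f]
    rw [h1, h2]
  rw [hall, hall] at h3
  exact mul_left_cancel h3

/-- The Jacobian. -/
noncomputable def Jac (D : Γ → ML X (Γ ⧸ A)) (φ : MulAut Γ) :
    Matrix X X (MonoidAlgebra ℤ (Γ ⧸ A)) :=
  Matrix.of fun i j => D (φ (x i)) j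

theorem IsDer.jac (hD : IsDer A D) (hgen : Subgroup.closure (Set.range x) = ⊤)
    (hx : ∀ i, D (x i) = Pi.single i 1) (φ : MulAut Γ) (hφ : φ ∈ autTriv A) (g : Γ) :
    D (φ g) = Matrix.vecMul (D g) (Jac x D φ) := by
  have hq : ∀ g : Γ, ((φ g : Γ) : Γ ⧸ A) = g := by
    intro g
    have h1 := hφ g
    rw [← QuotientGroup.eq_one_iff, QuotientGroup.mk_mul, QuotientGroup.mk_inv,
      mul_inv_eq_one] at h1
    exact h1
  have hlin : ∀ (q : Γ ⧸ A) (v : ML X (Γ ⧸ A)),
      Matrix.vecMul (lmulEquiv q v) (Jac x D φ) = lmulEquiv q (Matrix.vecMul v (Jac x D φ)) := by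
    intro q v
    funext j
    change ∑ i, (MonoidAlgebra.single q 1 * v i) * Jac x D φ i j =
      MonoidAlgebra.single q 1 * ∑ i, v i * Jac x D φ i j
    rw [Finset.mul_sum]
    exact Finset.sum_congr rfl fun i _ => mul_assoc _ _ _
  have hg : g ∈ Subgroup.closure (Set.range x) := by rw [hgen]; trivial
  induction hg using Subgroup.closure_induction with
  | mem g hg =>
    obtain ⟨i, rfl⟩ := hg
    rw [hx]
    funext j
    rw [Matrix.single_vecMul, one_smul]
    rfl
  | one => rw [map_one, hD.one, Matrix.zero_vecMul]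
  | mul g h _ _ ihg ihh =>
    rw [map_mul, hD, ihg, ihh, hD, Matrix.add_vecMul, hlin, hq]
  | inv g _ ih =>
    have e1 : ∀ h, D h⁻¹ = -lmulEquiv ((h⁻¹ : Γ) : Γ ⧸ A) (D h) := by
      intro h
      have h1 := hD h⁻¹ h
      rw [inv_mul_cancel, hD.one] at h1
      exact eq_neg_of_add_eq_zero_left h1.symm
    rw [map_inv, e1, e1, ih, Matrix.neg_vecMul, hlin, ← map_inv, hq]

theorem IsDer.jac_mul (hD : IsDer A D) (hgen : Subgroup.closure (Set.range x) = ⊤)
    (hx : ∀ i, D (x i) = Pi.single i 1) (φ ψ : MulAut Γ) (hφ : φ ∈ autTriv A) :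
    Jac x D (φ * ψ) = Jac x D ψ * Jac x D φ := by
  refine Matrix.ext fun i j => ?_
  change D (φ (ψ (x i))) j = _
  rw [hD.jac x hgen hx φ hφ]
  rfl

theorem IsDer.jac_one (hx : ∀ i, D (x i) = Pi.single i 1) : Jac x D 1 = 1 := by
  refine Matrix.ext fun i j => ?_
  change D (x i) j = _
  rw [hx, Matrix.one_apply, Pi.single_apply]
  simp only [eq_comm]

/-- The representation of the automorphisms which are trivial modulo `A`. -/
noncomputable def IsDer.rep (hD : IsDer A D) (hgen : Subgroup.closure (Set.range x) = ⊤)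
    (hx : ∀ i, D (x i) = Pi.single i 1) :
    autTriv A →* (Matrix X X (MonoidAlgebra ℤ (Γ ⧸ A)))ˣ where
  toFun φ := ⟨Jac x D (φ⁻¹ : autTriv A), Jac x D φ, by
      rw [← hD.jac_mul x hgen hx _ _ φ.2]
      rw [← Subgroup.coe_mul, mul_inv_cancel, Subgroup.coe_one, IsDer.jac_one x hx], by
      rw [← hD.jac_mul x hgen hx _ _ (φ⁻¹ : autTriv A).2]
      rw [← Subgroup.coe_mul, inv_mul_cancel, Subgroup.coe_one, IsDer.jac_one x hx]⟩
  map_one' := by
    apply Units.ext
    change Jac x D (((1 : autTriv A)⁻¹ : autTriv A) : MulAut Γ) = 1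
    rw [inv_one, Subgroup.coe_one, IsDer.jac_one x hx]
  map_mul' φ ψ := by
    apply Units.ext
    change Jac x D (((φ * ψ)⁻¹ : autTriv A) : MulAut Γ) = Jac x D ((φ⁻¹ : autTriv A) : MulAut Γ) *
      Jac x D ((ψ⁻¹ : autTriv A) : MulAut Γ)
    rw [mul_inv_rev, Subgroup.coe_mul, hD.jac_mul x hgen hx _ _ (ψ⁻¹ : autTriv A).2]

theorem IsDer.rep_injective (hD : IsDer A D) (hgen : Subgroup.closure (Set.range x) = ⊤)
    (hA : ∀ a ∈ A, ∀ b ∈ A, a * b = b * a) (hx : ∀ i, D (x i) = Pi.single i 1) :
    Function.Injective (hD.rep x hgen hx) := by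
  rw [injective_iff_map_eq_one]
  intro φ hφ
  have h1 : Jac x D ((φ⁻¹ : autTriv A) : MulAut Γ) = 1 := congrArg Units.val hφ
  have h2 : ∀ i, ((φ⁻¹ : autTriv A) : MulAut Γ) (x i) = x i := by
    intro i
    refine hD.magnus x hgen hA hx ?_ ?_
    · rw [hx]
      funext j
      have h3 : Jac x D ((φ⁻¹ : autTriv A) : MulAut Γ) i j = (1 : Matrix X X _) i j := by rw [h1]
      rw [Matrix.one_apply] at h3
      rw [Pi.single_apply]
      simp only [eq_comm] at h3 ⊢
      exact h3
    · have h3 := (φ⁻¹ : autTriv A).2 (x i)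
      rw [← QuotientGroup.eq_one_iff, QuotientGroup.mk_mul, QuotientGroup.mk_inv,
        mul_inv_eq_one] at h3
      exact h3
  have h4 : ((φ⁻¹ : autTriv A) : MulAut Γ) = 1 := by
    apply MulEquiv.toMonoidHom_injective
    refine MonoidHom.eq_of_eqOn_dense hgen ?_
    rintro _ ⟨i, rfl⟩
    exact h2 i
  have h5 : (φ⁻¹ : autTriv A) = 1 := Subtype.ext h4
  exact inv_eq_one.mp h5

end Magnus

end Pool.Agent.N506.EX
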