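import Pool.Agent.N506.EZA

/-!
# Automorphisms of relatively free solvable extensions
-/

namespace Pool.Agent.N506.EX

open MonoidAlgebra

open scoped commutatorElement

theorem der_map {G H : Type*} [Group G] [Group H] (f : G →* H) (R : Subgroup G) (k : ℕ) :
    (der R k).map f = der (R.map f) k := by
  induction k with
  | zero => rfl
  | succ k ih => rw [der, der, Subgroup.map_commutator, ih]

theorem der_mono {G : Type*} [Group G] {R R' : Subgroup G} (h : R ≤ R') (k : ℕ) :
    der R k ≤ der R' k := by
  induction k with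
  | zero => exact h
  | succ k ih => exact Subgroup.commutator_mono ih ih

theorem der_le {G : Type*} [Group G] (R : Subgroup G) (k : ℕ) : der R k ≤ R := by
  induction k with
  | zero => exact le_rfl
  | succ k ih => exact (Subgroup.commutator_le_self _).trans ih

theorem der_bot_succ {G : Type*} [Group G] {R : Subgroup G} {k : ℕ} (h : der R k = ⊥) :
    der R (k + 1) = ⊥ := by
  rw [der, h, Subgroup.commutator_bot_left]

/-- Relatively free solvable extensions of length `k` of `Q₀`. -/
structure RF (k : ℕ) {X Γ Q₀ : Type} [Group Γ] [Group Q₀] (x : X → Γ) (p : Γ →* Q₀) : Prop where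
  gen : Subgroup.closure (Set.range x) = ⊤
  surj : Function.Surjective p
  der_eq : der p.ker k = ⊥
  lift : ∀ (H : Type) [Group H] (pH : H →* Q₀), der pH.ker k = ⊥ → ∀ z : X → H,
    (∀ i, pH (z i) = p (x i)) → ∃ f : Γ →* H, ∀ i, f (x i) = z i

section Step

variable {k : ℕ} {X Γ Q₀ : Type} [Group Γ] [Group Q₀] {x : X → Γ} {p : Γ →* Q₀}

theorem hom_ext_gen {H : Type*} [Group H] (hgen : Subgroup.closure (Set.range x) = ⊤)
    (f g : Γ →* H) (h : ∀ i, f (x i) = g (x i)) : f = g := by
  refine MonoidHom.eq_of_eqOn_dense hgen ?_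
  rintro _ ⟨i, rfl⟩
  exact h i

variable (k p) in
/-- The induced homomorphism. -/
def pQ : Γ ⧸ der p.ker k →* Q₀ := QuotientGroup.lift (der p.ker k) p (fun _ hg => der_le _ k hg)

theorem pQ_ker : (pQ k p).ker = p.ker.map (QuotientGroup.mk' (der p.ker k)) := by
  ext q
  obtain ⟨g, rfl⟩ := QuotientGroup.mk_surjective q
  constructor
  · intro h
    exact ⟨g, h, rfl⟩
  · rintro ⟨g', h1, h2⟩
    rw [← h2]
    exact h1

theorem RF.quot (h : RF (k + 1) x p) :
    RF k (fun i => (QuotientGroup.mk (x i) : Γ ⧸ der p.ker k)) (pQ k p) where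
  gen := by
    have h1 : Set.range (fun i => (QuotientGroup.mk (x i) : Γ ⧸ der p.ker k)) =
        (QuotientGroup.mk' (der p.ker k)) '' Set.range x := by
      rw [← Set.range_comp]
      rfl
    rw [h1, ← MonoidHom.map_closure, h.gen, Subgroup.map_top_of_surjective]
    exact QuotientGroup.mk'_surjective _
  surj := by
    intro q
    obtain ⟨g, hg⟩ := h.surj q
    exact ⟨QuotientGroup.mk g, hg⟩
  der_eq := by
    rw [pQ_ker, ← der_map, Subgroup.map_eq_bot_iff, QuotientGroup.ker_mk']
  lift := by
    intro H _ pH hpH z hz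
    obtain ⟨f, hf⟩ := h.lift H pH (der_bot_succ hpH) z hz
    have h1 : pH.comp f = p := hom_ext_gen h.gen _ _ fun i => by
      rw [MonoidHom.comp_apply, hf, hz]
      rfl
    have h2 : der p.ker k ≤ f.ker := by
      rw [← Subgroup.map_eq_bot_iff, der_map, eq_bot_iff, ← hpH]
      refine der_mono ?_ k
      rintro _ ⟨g, hg, rfl⟩
      rw [MonoidHom.mem_ker]
      change (pH.comp f) g = 1
      rw [h1]
      exact hg
    exact ⟨QuotientGroup.lift (der p.ker k) f h2, fun i => hf i⟩

theorem exists_der [Fintype X] [DecidableEq X] (h : RF (k + 1) x p) :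
    ∃ D : Γ → ML X (Γ ⧸ der p.ker k), IsDer (der p.ker k) D ∧ ∀ i, D (x i) = Pi.single i 1 := by
  let W := WM X (Γ ⧸ der p.ker k)
  let r : W →* Γ ⧸ der p.ker k := SemidirectProduct.rightHom
  have hr : ∀ a b : W, a ∈ r.ker → b ∈ r.ker → a * b = b * a :=
    fun a b ha hb => WM_ker_comm a b ha hb
  have hW : der ((pQ k p).comp r).ker (k + 1) = ⊥ := by
    have h1 : der ((pQ k p).comp r).ker k ≤ r.ker := by
      rw [← Subgroup.map_eq_bot_iff, der_map, eq_bot_iff, ← h.quot.der_eq]
      refine der_mono ?_ k
      rintro _ ⟨g, hg, rfl⟩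
      exact hg
    rw [der, eq_bot_iff, Subgroup.commutator_le]
    intro a ha b hb
    rw [Subgroup.mem_bot, commutatorElement_eq_one_iff_mul_comm]
    exact hr a b (h1 ha) (h1 hb)
  obtain ⟨θ, hθ⟩ := h.lift W ((pQ k p).comp r) hW
    (fun i => ⟨Multiplicative.ofAdd (Pi.single i 1), (QuotientGroup.mk (x i))⟩) (fun i => rfl)
  have hθr : r.comp θ = QuotientGroup.mk' (der p.ker k) := hom_ext_gen h.gen _ _ fun i => by
    rw [MonoidHom.comp_apply, hθ]
    rfl
  have hθr' : ∀ g, (θ g).right = (QuotientGroup.mk g : Γ ⧸ der p.ker k) := fun g =>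
    congrArg (fun f : Γ →* Γ ⧸ der p.ker k => f g) hθr
  refine ⟨fun g => Multiplicative.toAdd (θ g).left, ?_, ?_⟩
  · intro g g'
    simp only
    rw [map_mul, SemidirectProduct.mul_left, hθr']
    rfl
  · intro i
    simp only
    rw [hθ]
    rfl

end Step

theorem VPolyTFA.mex {G : Type} [Group G] (h : VPolyTFA G) (A : Type) [CommRing A] :
    MEx (MonoidAlgebra A G) := by
  obtain ⟨N, _, hN⟩ := h
  exact mex_commRing (fun K _ => mex_finiteIndex K N (hN.mex K)) A

theorem VPolyTFA.extension {G Q : Type} [Group G] [Group Q] (π : G →* Q) (hQ : VPolyTFA Q)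
    (hk : PolyTFA π.ker) : VPolyTFA G := by
  obtain ⟨N, hN, hP⟩ := hQ
  refine ⟨N.comap π, ⟨by
    rw [Subgroup.index_comap]
    exact (inferInstance : (N.subgroupOf π.range).FiniteIndex).index_ne_zero⟩, ?_⟩
  refine hP.extension _ ((π.comp (N.comap π).subtype).codRestrict N (fun g => g.2)) ?_
  refine hk.of_injective _ (((N.comap π).subtype.comp (Subgroup.subtype _)).codRestrict π.ker
    (fun g => congrArg Subtype.val g.2)) ?_
  intro a b hab
  exact Subtype.ext (Subtype.ext (congrArg (fun g : π.ker => (g : G)) hab))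

/-- The main induction. -/
theorem RF.main {Q₀ : Type} [Group Q₀] (hQ₀ : VPolyTFA Q₀) {X : Type} [Fintype X] [DecidableEq X]
    (k : ℕ) : ∀ {Γ : Type} [Group Γ] {x : X → Γ} {p : Γ →* Q₀}, RF k x p →
      Ex (autTriv p.ker) ∧ VPolyTFA Γ := by
  induction k with
  | zero =>
    intro Γ _ x p h
    have hker : p.ker = ⊥ := h.der_eq
    have hinj : Function.Injective p := (MonoidHom.ker_eq_bot_iff p).mp hker
    constructor
    · have : Subsingleton (autTriv p.ker) := by
        constructor
        intro a b
        apply Subtype.ext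
        refine MulEquiv.ext fun g => ?_
        have ha := a.2 g
        have hb := b.2 g
        have ha' := hker.le ha
        have hb' := hker.le hb
        rw [Subgroup.mem_bot, mul_inv_eq_one] at ha' hb'
        exact ha'.trans hb'.symm
      exact Ex.of_finite
    · refine VPolyTFA.extension p hQ₀ ?_
      have : Subsingleton p.ker := by
        rw [hker]
        infer_instance
      exact PolyTFA.triv _
  | succ k ih =>
    intro Γ _ x p h
    obtain ⟨hEx, hV⟩ := ih h.quot
    obtain ⟨D, hD, hDx⟩ := exists_der h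
    have hcomm : ∀ a ∈ der p.ker k, ∀ b ∈ der p.ker k, a * b = b * a := by
      intro a ha b hb
      have h1 : ⁅a, b⁆ ∈ der p.ker (k + 1) := Subgroup.commutator_mem_commutator ha hb
      rw [h.der_eq, Subgroup.mem_bot, commutatorElement_eq_one_iff_mul_comm] at h1
      exact h1
    constructor
    · -- the homomorphism to the automorphisms of the quotient
      have hmap : ∀ φ : autTriv p.ker, (der p.ker k).map ((φ : MulAut Γ) : Γ →* Γ) =
          der p.ker k := by
        intro φ
        rw [der_map]
        congr 1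
        apply le_antisymm
        · rintro _ ⟨g, hg, rfl⟩
          have h1 := p.ker.mul_mem (φ.2 g) hg
          rw [inv_mul_cancel_right] at h1
          exact h1
        · intro g hg
          refine ⟨((φ⁻¹ : autTriv p.ker) : MulAut Γ) g, ?_, ?_⟩
          · have h1 := p.ker.mul_mem ((φ⁻¹ : autTriv p.ker).2 g) hg
            rw [inv_mul_cancel_right] at h1
            exact h1
          · change ((φ : MulAut Γ) * ((φ⁻¹ : autTriv p.ker) : MulAut Γ)) g = g
            rw [← Subgroup.coe_mul, mul_inv_cancel]
            rfl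
      let ρ : autTriv p.ker →* autTriv (pQ k p).ker :=
        { toFun := fun φ => ⟨QuotientGroup.congr (der p.ker k) (der p.ker k) (φ : MulAut Γ)
            (hmap φ), by
            intro q
            obtain ⟨g, rfl⟩ := QuotientGroup.mk_surjective q
            exact φ.2 g⟩
          map_one' := by
            apply Subtype.ext
            refine MulEquiv.ext fun q => ?_
            obtain ⟨g, rfl⟩ := QuotientGroup.mk_surjective q
            rfl
          map_mul' := by
            intro φ ψ
            apply Subtype.ext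
            refine MulEquiv.ext fun q => ?_
            obtain ⟨g, rfl⟩ := QuotientGroup.mk_surjective q
            rfl }
      refine Ex.ext ρ hEx ?_
      -- the kernel
      have hker : ∀ φ : ρ.ker, ((φ : autTriv p.ker) : MulAut Γ) ∈ autTriv (der p.ker k) := by
        intro φ g
        have h1 : ρ (φ : autTriv p.ker) = 1 := φ.2
        have h2 := congrArg (fun a : autTriv (pQ k p).ker => (a : MulAut _)
          (QuotientGroup.mk g : Γ ⧸ der p.ker k)) h1
        have h3 : (QuotientGroup.mk (((φ : autTriv p.ker) : MulAut Γ) g) : Γ ⧸ der p.ker k) =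
          QuotientGroup.mk g := h2
        rw [← QuotientGroup.eq_one_iff, QuotientGroup.mk_mul, QuotientGroup.mk_inv, h3,
          mul_inv_cancel]
      have hE : Ex (autTriv (der p.ker k)) :=
        Ex.of_injective ((hV.mex ℤ).index X) (hD.rep x h.gen hDx)
          (hD.rep_injective x h.gen hcomm hDx)
      refine Ex.of_injective hE ((((autTriv p.ker).subtype.comp ρ.ker.subtype)).codRestrict
        (autTriv (der p.ker k)) hker) ?_
      intro a b hab
      exact Subtype.ext (Subtype.ext (congrArg
        (fun g : autTriv (der p.ker k) => (g : MulAut Γ)) hab))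
    · refine VPolyTFA.extension (QuotientGroup.mk' (der p.ker k)) hV ?_
      have h1 : PolyTFA (Multiplicative (ML X (Γ ⧸ der p.ker k))) := by
        have : IsAddTorsionFree (ML X (Γ ⧸ der p.ker k)) := by
          constructor
          intro n hn a b hab
          funext i
          rw [← MonoidAlgebra.coeff_inj]
          ext q
          have h2 : n • (a i).coeff q = n • (b i).coeff q :=
            congrArg (fun v : ML X (Γ ⧸ der p.ker k) => (v i).coeff q) hab
          exact nsmul_right_injective hn h2
        exact PolyTFA.comm _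
      refine h1.of_injective _
        { toFun := fun g => Multiplicative.ofAdd (D g)
          map_one' := by rw [Subgroup.coe_one, hD.one]; rfl
          map_mul' := fun a b => ?_ } ?_
      · rw [← ofAdd_add, Subgroup.coe_mul, hD]
        congr 2
        have h2 : ((a : Γ) : Γ ⧸ der p.ker k) = 1 := a.2
        rw [h2]
        funext i
        change MonoidAlgebra.single 1 1 * D b i = D b i
        rw [← MonoidAlgebra.one_def, one_mul]
      · intro a b hab
        apply Subtype.ext
        refine hD.magnus x h.gen hcomm hDx (Multiplicative.ofAdd.injective hab) ?_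
        have h2 : ((a : Γ) : Γ ⧸ der p.ker k) = 1 := a.2
        have h3 : ((b : Γ) : Γ ⧸ der p.ker k) = 1 := b.2
        rw [h2, h3]

/-- Quotients of free groups. -/
theorem RF.free {X : Type} (R : Subgroup (FreeGroup X)) [R.Normal] (k : ℕ) :
    ∃ p : FreeGroup X ⧸ der R k →* FreeGroup X ⧸ R,
      RF k (fun i => (QuotientGroup.mk (FreeGroup.of i) : FreeGroup X ⧸ der R k)) p ∧
      p.ker = R.map (QuotientGroup.mk' (der R k)) := by
  let p : FreeGroup X ⧸ der R k →* FreeGroup X ⧸ R :=
    QuotientGroup.lift (der R k) (QuotientGroup.mk' R)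
      (fun g hg => (QuotientGroup.eq_one_iff g).mpr (der_le R k hg))
  have hker : p.ker = R.map (QuotientGroup.mk' (der R k)) := by
    ext q
    obtain ⟨g, rfl⟩ := QuotientGroup.mk_surjective q
    constructor
    · intro h
      refine ⟨g, ?_, rfl⟩
      have h1 : (QuotientGroup.mk g : FreeGroup X ⧸ R) = 1 := h
      exact (QuotientGroup.eq_one_iff g).mp h1
    · rintro ⟨g', h1, h2⟩
      rw [← h2]
      exact (QuotientGroup.eq_one_iff g').mpr h1
  refine ⟨p, ⟨?_, ?_, ?_, ?_⟩, hker⟩
  · have h1 : Set.range (fun i => (QuotientGroup.mk (FreeGroup.of i) : FreeGroup X ⧸ der R k)) =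
        (QuotientGroup.mk' (der R k)) '' Set.range FreeGroup.of := by
      rw [← Set.range_comp]
      rfl
    rw [h1, ← MonoidHom.map_closure, FreeGroup.closure_range_of, Subgroup.map_top_of_surjective]
    exact QuotientGroup.mk'_surjective _
  · intro q
    obtain ⟨g, rfl⟩ := QuotientGroup.mk_surjective q
    exact ⟨QuotientGroup.mk g, rfl⟩
  · rw [hker, ← der_map, Subgroup.map_eq_bot_iff, QuotientGroup.ker_mk']
  · intro H _ pH hpH z hz
    let f : FreeGroup X →* H := FreeGroup.lift z
    have h1 : pH.comp f = QuotientGroup.mk' R := by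
      apply FreeGroup.ext_hom
      intro i
      rw [MonoidHom.comp_apply]
      simp only [f]
      rw [FreeGroup.lift_apply_of, hz]
      rfl
    have h2 : der R k ≤ f.ker := by
      rw [← Subgroup.map_eq_bot_iff, der_map, eq_bot_iff, ← hpH]
      refine der_mono ?_ k
      rintro _ ⟨g, hg, rfl⟩
      rw [MonoidHom.mem_ker]
      change (pH.comp f) g = 1
      rw [h1]
      exact (QuotientGroup.eq_one_iff g).mpr hg
    refine ⟨QuotientGroup.lift (der R k) f h2, fun i => ?_⟩
    change f (FreeGroup.of i) = z i
    exact FreeGroup.lift_apply_of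

end Pool.Agent.N506.EX
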