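import Pool.Agent.N506.EZB
import Pool.Agent.N506.EXM

/-!
# Automorphism groups of the groups `F ⧸ R^(k)`
-/

namespace Pool.Agent.N506.EX

/-- Groups of automorphisms of `F ⧸ R^(k)` with exact image in the automorphism group of
`F ⧸ R`. -/
theorem aut_ex {X : Type} [Finite X] (R : Subgroup (FreeGroup X)) [R.Normal]
    (hR : VPolyTFA (FreeGroup X ⧸ R)) (k : ℕ) (B : Subgroup (autPres (top R k)))
    (hB : Ex (B.map (autQuot (top R k)))) : Ex B := by
  classical
  have : Fintype X := Fintype.ofFinite X
  obtain ⟨p, hp, hker⟩ := RF.free R k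
  obtain ⟨hEx, -⟩ := RF.main hR k hp
  let ψ : B →* B.map (autQuot (top R k)) :=
    ((autQuot (top R k)).comp B.subtype).codRestrict _ (fun b => ⟨b, b.2, rfl⟩)
  refine Ex.ext ψ hB ?_
  have h1 : ∀ φ : ψ.ker, (((φ : B) : autPres (top R k)) : MulAut (FreeGroup X ⧸ der R k)) ∈
      autTriv p.ker := by
    intro φ g
    have h2 : ψ (φ : B) = 1 := φ.2
    have h3 := congrArg (fun a : B.map (autQuot (top R k)) => (a : MulAut _)
      (QuotientGroup.mk g : (FreeGroup X ⧸ der R k) ⧸ top R k)) h2
    have h4 : (QuotientGroup.mk ((((φ : B) : autPres (top R k)) :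
        MulAut (FreeGroup X ⧸ der R k)) g) : (FreeGroup X ⧸ der R k) ⧸ top R k) =
        QuotientGroup.mk g := h3
    rw [hker]
    change _ ∈ top R k
    rw [← QuotientGroup.eq_one_iff, QuotientGroup.mk_mul, QuotientGroup.mk_inv, h4,
      mul_inv_cancel]
  refine Ex.of_injective hEx ((((autPres (top R k)).subtype.comp B.subtype).comp
    ψ.ker.subtype).codRestrict (autTriv p.ker) h1) ?_
  intro a b hab
  exact Subtype.ext (Subtype.ext (Subtype.ext (congrArg
    (fun g : autTriv p.ker => (g : MulAut (FreeGroup X ⧸ der R k))) hab)))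

theorem countable_aut {X : Type} [Finite X] (R : Subgroup (FreeGroup X)) [R.Normal] (k : ℕ) :
    Countable (MulAut (FreeGroup X ⧸ der R k)) := by
  have h0 : Countable (FreeGroup X) := inferInstance
  have h1 : Countable (FreeGroup X ⧸ der R k) := (QuotientGroup.mk_surjective).countable
  have hgen := (RF.free R k).choose_spec.1.gen
  refine Function.Injective.countable (f := fun (φ : MulAut (FreeGroup X ⧸ der R k)) (i : X) =>
    φ (QuotientGroup.mk (FreeGroup.of i))) ?_
  intro a b hab
  apply MulEquiv.toMonoidHom_injective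
  exact hom_ext_gen hgen _ _ fun i => congrFun hab i

end Pool.Agent.N506.EX
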