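import Mathlib

/-!
# Amenable groups: invariant means, abelian groups, extensions, quotients
-/

namespace Pool.Agent.N506.EX

open Filter Topology

universe u v

/-- Bounded functions. -/
def Bnd {α : Type u} (f : α → ℝ) : Prop := ∃ C : ℝ, ∀ a, |f a| ≤ C

theorem Bnd.comp {α : Type u} {β : Type v} {f : α → ℝ} (h : Bnd f) (r : β → α) :
    Bnd (fun b => f (r b)) := by
  obtain ⟨C, hC⟩ := h
  exact ⟨C, fun b => hC _⟩

theorem Bnd.add {α : Type u} {f g : α → ℝ} (hf : Bnd f) (hg : Bnd g) : Bnd (fun a => f a + g a) := by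
  obtain ⟨C, hC⟩ := hf
  obtain ⟨D, hD⟩ := hg
  exact ⟨C + D, fun a => (abs_add_le _ _).trans (add_le_add (hC a) (hD a))⟩

theorem Bnd.mul {α : Type u} {f : α → ℝ} (c : ℝ) (hf : Bnd f) : Bnd (fun a => c * f a) := by
  obtain ⟨C, hC⟩ := hf
  refine ⟨|c| * C, fun a => ?_⟩
  rw [abs_mul]
  exact mul_le_mul_of_nonneg_left (hC a) (abs_nonneg c)

theorem Bnd.const {α : Type u} (c : ℝ) : Bnd (fun _ : α => c) := ⟨|c|, fun _ => le_rfl⟩

theorem Bnd.sum {α : Type u} {ι : Type v} (S : Finset ι) {f : ι → α → ℝ}
    (h : ∀ i ∈ S, Bnd (f i)) : Bnd (fun a => ∑ i ∈ S, f i a) := by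
  classical
  induction S using Finset.induction_on with
  | empty => simpa using Bnd.const (α := α) 0
  | insert i S hi ih =>
    simp only [Finset.sum_insert hi]
    exact (h i (Finset.mem_insert_self i S)).add
      (ih fun j hj => h j (Finset.mem_insert_of_mem hj))

theorem Bnd.abs {α : Type u} {f : α → ℝ} (h : Bnd f) : Bnd (fun a => |f a|) := by
  obtain ⟨C, hC⟩ := h
  exact ⟨C, fun a => by rw [abs_abs]; exact hC a⟩

/-- Right invariant means. -/
structure IsMean {N : Type u} [Group N] (m : (N → ℝ) → ℝ) : Prop where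
  add : ∀ f g, Bnd f → Bnd g → m (fun n => f n + g n) = m f + m g
  smul : ∀ (c : ℝ) f, Bnd f → m (fun n => c * f n) = c * m f
  nonneg : ∀ f, Bnd f → (∀ n, 0 ≤ f n) → 0 ≤ m f
  one : m (fun _ => 1) = 1
  inv : ∀ f, Bnd f → ∀ a, m (fun n => f (n * a)) = m f

/-- Amenability. -/
def Amen (N : Type u) [Group N] : Prop := ∃ m : (N → ℝ) → ℝ, IsMean m

section Mean

variable {N : Type u} [Group N] {m : (N → ℝ) → ℝ} (hm : IsMean m)

include hm

theorem IsMean.mono {f g : N → ℝ} (hf : Bnd f) (hg : Bnd g) (h : ∀ n, f n ≤ g n) : m f ≤ m g := by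
  have h1 := hm.nonneg (fun n => g n + (-1) * f n) (hg.add (hf.mul _))
    (fun n => by have := h n; linarith)
  rw [hm.add g (fun n => (-1) * f n) hg (hf.mul _), hm.smul _ _ hf] at h1
  linarith

theorem IsMean.const (c : ℝ) : m (fun _ => c) = c := by
  have h1 := hm.smul c (fun _ => 1) (Bnd.const 1)
  rw [hm.one] at h1
  simpa using h1

theorem IsMean.sum {ι : Type v} (S : Finset ι) {f : ι → N → ℝ} (h : ∀ i ∈ S, Bnd (f i)) :
    m (fun n => ∑ i ∈ S, f i n) = ∑ i ∈ S, m (f i) := by
  classical
  induction S using Finset.induction_on with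
  | empty => simpa using hm.const 0
  | insert i S hi ih =>
    simp only [Finset.sum_insert hi]
    have h2 : ∀ j ∈ S, Bnd (f j) := fun j hj => h j (Finset.mem_insert_of_mem hj)
    rw [hm.add (f i) (fun n => ∑ j ∈ S, f j n) (h i (Finset.mem_insert_self i S)) (Bnd.sum S h2),
      ih h2]

theorem IsMean.sub {f g : N → ℝ} (hf : Bnd f) (hg : Bnd g) :
    m (fun n => f n - g n) = m f - m g := by
  have h1 := hm.add f (fun n => (-1) * g n) hf (hg.mul _)
  rw [hm.smul _ _ hg] at h1
  have h2 : (fun n => f n - g n) = fun n => f n + (-1) * g n := by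
    funext n
    ring
  rw [h2, h1]
  ring

theorem IsMean.abs_le {f : N → ℝ} (hf : Bnd f) : |m f| ≤ m (fun n => |f n|) := by
  rw [_root_.abs_le]
  constructor
  · have h1 := hm.mono (hf.abs.mul (-1)) hf (fun n => by
      have := neg_abs_le (f n)
      linarith)
    rw [hm.smul _ _ hf.abs] at h1
    linarith
  · exact hm.mono hf hf.abs fun n => le_abs_self _

theorem IsMean.abs_le_const {f : N → ℝ} {C : ℝ} (h : ∀ n, |f n| ≤ C) : |m f| ≤ C := by
  have h1 := hm.abs_le ⟨C, h⟩
  have h2 := hm.mono (Bnd.abs ⟨C, h⟩) (Bnd.const C) h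
  rw [hm.const] at h2
  exact h1.trans h2

end Mean

/-- Quotients. -/
theorem Amen.of_surjective {G : Type u} {Q : Type v} [Group G] [Group Q] (h : Amen G)
    (π : G →* Q) (hπ : Function.Surjective π) : Amen Q := by
  obtain ⟨m, hm⟩ := h
  refine ⟨fun f => m (fun g => f (π g)), ?_, ?_, ?_, ?_, ?_⟩
  · intro f g hf hg
    exact hm.add _ _ (hf.comp π) (hg.comp π)
  · intro c f hf
    exact hm.smul c _ (hf.comp π)
  · intro f hf h0
    exact hm.nonneg _ (hf.comp π) fun n => h0 _
  · exact hm.one
  · intro f hf a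
    obtain ⟨b, rfl⟩ := hπ a
    have h1 := hm.inv (fun g => f (π g)) (hf.comp π) b
    simp only [map_mul] at h1
    exact h1

/-- Extensions. -/
theorem Amen.extension {G : Type u} {Q : Type v} [Group G] [Group Q] (π : G →* Q)
    (hπ : Function.Surjective π) (hk : Amen π.ker) (hQ : Amen Q) : Amen G := by
  obtain ⟨m, hm⟩ := hk
  obtain ⟨M, hM⟩ := hQ
  let s : Q → G := Function.surjInv hπ
  have hs : ∀ q, π (s q) = q := Function.surjInv_eq hπ
  have hb : ∀ f : G → ℝ, Bnd f → Bnd (fun q => m (fun n : π.ker => f (n * s q))) := by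
    rintro f ⟨C, hC⟩
    exact ⟨C, fun q => hm.abs_le_const fun n => hC _⟩
  have key : ∀ (f : G → ℝ), Bnd f → ∀ g g' : G, π g = π g' →
      m (fun n : π.ker => f (n * g)) = m (fun n : π.ker => f (n * g')) := by
    intro f hf g g' hg
    let a : π.ker := ⟨g * g'⁻¹, by rw [MonoidHom.mem_ker, map_mul, map_inv, hg, mul_inv_cancel]⟩
    have h1 := hm.inv (fun n : π.ker => f (n * g')) (hf.comp _) a
    rw [← h1]
    congr 1
    funext n
    congr 1
    change (n : G) * g = (n : G) * (g * g'⁻¹) * g'
    group
  refine ⟨fun f => M (fun q => m (fun n : π.ker => f (n * s q))), ?_, ?_, ?_, ?_, ?_⟩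
  · intro f g hf hg
    rw [← hM.add _ _ (hb f hf) (hb g hg)]
    congr 1
    funext q
    exact hm.add _ _ (hf.comp _) (hg.comp _)
  · intro c f hf
    rw [← hM.smul _ _ (hb f hf)]
    congr 1
    funext q
    exact hm.smul _ _ (hf.comp _)
  · intro f hf h0
    exact hM.nonneg _ (hb f hf) fun q => hm.nonneg _ (hf.comp _) fun n => h0 _
  · change M (fun q => m (fun n : π.ker => 1)) = 1
    simp only [hm.one, hM.one]
  · intro f hf a
    have h1 := hM.inv (fun q => m (fun n : π.ker => f (n * s q))) (hb f hf) (π a)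
    rw [← h1]
    congr 1
    funext q
    have h2 := key f hf (s q * a) (s (q * π a)) (by rw [map_mul, hs, hs])
    rw [← h2]
    congr 1
    funext n
    change f ((n : G) * s q * a) = f (n * (s q * a))
    rw [mul_assoc]

/-- Finite groups. -/
theorem Amen.of_finite {G : Type u} [Group G] [Finite G] : Amen G := by
  have := Fintype.ofFinite G
  have hc : (Fintype.card G : ℝ) ≠ 0 := by
    have : (0:ℝ) < Fintype.card G := by exact_mod_cast Fintype.card_pos
    exact this.ne'
  refine ⟨fun f => (∑ g, f g) / Fintype.card G, ?_, ?_, ?_, ?_, ?_⟩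
  · intro f g _ _
    simp only
    rw [Finset.sum_add_distrib, add_div]
  · intro c f _
    simp only
    rw [← Finset.mul_sum, mul_div_assoc]
  · intro f _ h0
    exact div_nonneg (Finset.sum_nonneg fun g _ => h0 g) (Nat.cast_nonneg _)
  · simp [hc]
  · intro f _ a
    simp only
    congr 1
    exact Fintype.sum_equiv (Equiv.mulRight a) _ _ fun g => rfl

section Abelian

variable {H : Type u} [CommGroup H]

/-- Averages along boxes. -/
noncomputable def avL (k : ℕ) : List H → (H → ℝ) → ℝ
  | [], f => f 1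
  | x :: l, f => (∑ j ∈ Finset.range (k + 1), avL k l (fun y => f (x ^ j * y))) / (k + 1)

theorem avL_add (k : ℕ) (l : List H) (f g : H → ℝ) :
    avL k l (fun y => f y + g y) = avL k l f + avL k l g := by
  induction l generalizing f g with
  | nil => rfl
  | cons x l ih =>
    simp only [avL, ih]
    rw [Finset.sum_add_distrib, add_div]

theorem avL_smul (k : ℕ) (l : List H) (c : ℝ) (f : H → ℝ) :
    avL k l (fun y => c * f y) = c * avL k l f := by
  induction l generalizing f with
  | nil => rfl
  | cons x l ih =>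
    simp only [avL, ih]
    rw [← Finset.mul_sum, mul_div_assoc]

theorem avL_nonneg (k : ℕ) (l : List H) (f : H → ℝ) (h : ∀ y, 0 ≤ f y) : 0 ≤ avL k l f := by
  induction l generalizing f with
  | nil => exact h 1
  | cons x l ih =>
    exact div_nonneg (Finset.sum_nonneg fun j _ => ih _ fun y => h _) (by positivity)

theorem avL_one (k : ℕ) (l : List H) : avL k l (fun _ : H => 1) = 1 := by
  induction l with
  | nil => rfl
  | cons x l ih =>
    simp only [avL, ih]
    rw [Finset.sum_const, Finset.card_range, nsmul_eq_mul, mul_one]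
    push_cast
    exact div_self (by positivity)

theorem avL_abs (k : ℕ) (l : List H) (f : H → ℝ) (C : ℝ) (h : ∀ y, |f y| ≤ C) :
    |avL k l f| ≤ C := by
  induction l generalizing f with
  | nil => exact h 1
  | cons x l ih =>
    simp only [avL]
    rw [abs_div, abs_of_pos (by positivity : (0:ℝ) < (k:ℝ) + 1), div_le_iff₀ (by positivity)]
    refine (Finset.abs_sum_le_sum_abs _ _).trans ?_
    refine (Finset.sum_le_sum fun j _ => ih (fun y => f (x ^ j * y)) fun y => h _).trans ?_
    rw [Finset.sum_const, Finset.card_range, nsmul_eq_mul]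
    push_cast
    exact le_of_eq (mul_comm _ _)

theorem avL_shift (k : ℕ) (l : List H) (a : H) (ha : a ∈ l) (f : H → ℝ) (C : ℝ)
    (h : ∀ y, |f y| ≤ C) :
    |avL k l (fun y => f (a * y)) - avL k l f| ≤ 2 * C / (k + 1) := by
  induction l generalizing f with
  | nil => simp at ha
  | cons x l ih =>
    rcases List.mem_cons.mp ha with rfl | ha'
    · simp only [avL]
      have h1 : ∀ j : ℕ, avL k l (fun y => f (a * (a ^ j * y))) =
          avL k l (fun y => f (a ^ (j + 1) * y)) := by
        intro j
        congr 1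
        funext y
        rw [pow_succ', mul_assoc]
      simp only [h1]
      rw [← sub_div, ← Finset.sum_sub_distrib,
        Finset.sum_range_sub (fun j => avL k l (fun y => f (a ^ j * y))), abs_div,
        abs_of_pos (by positivity : (0:ℝ) < (k:ℝ) + 1)]
      refine div_le_div_of_nonneg_right ?_ (by positivity)
      refine (abs_sub _ _).trans ?_
      have e1 := avL_abs k l (fun y => f (a ^ (k + 1) * y)) C fun y => h _
      have e2 := avL_abs k l (fun y => f (a ^ 0 * y)) C fun y => h _
      linarith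
    · simp only [avL]
      have h1 : ∀ j : ℕ, avL k l (fun y => f (a * (x ^ j * y))) =
          avL k l (fun y => (fun z => f (x ^ j * z)) (a * y)) := by
        intro j
        congr 1
        funext y
        simp only
        rw [← mul_assoc, ← mul_assoc, mul_comm a]
      simp only [h1]
      rw [← sub_div, ← Finset.sum_sub_distrib, abs_div,
        abs_of_pos (by positivity : (0:ℝ) < (k:ℝ) + 1), div_le_iff₀ (by positivity)]
      refine (Finset.abs_sum_le_sum_abs _ _).trans ?_
      refine (Finset.sum_le_sum fun j _ => ih ha' (fun y => f (x ^ j * y)) fun y => h _).trans ?_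
      rw [Finset.sum_const, Finset.card_range, nsmul_eq_mul]
      push_cast
      exact le_of_eq (mul_comm _ _)

theorem Amen.comm (H : Type u) [CommGroup H] : Amen H := by
  classical
  let I := Finset H × ℕ
  let U : Ultrafilter I := Ultrafilter.of atTop
  have hU : (U : Filter I) ≤ atTop := Ultrafilter.of_le _
  let av : I → (H → ℝ) → ℝ := fun i f => avL i.2 i.1.toList f
  let m : (H → ℝ) → ℝ := fun f => limUnder (U : Filter I) (fun i => av i f)
  have hlim : ∀ f, Bnd f → Tendsto (fun i => av i f) U (𝓝 (m f)) := by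
    rintro f ⟨C, hC⟩
    have h1 : ∃ c, Tendsto (fun i => av i f) U (𝓝 c) := by
      have hK : IsCompact (Set.Icc (-C) C) := isCompact_Icc
      have h2 : ((U.map (fun i => av i f)) : Filter ℝ) ≤ 𝓟 (Set.Icc (-C) C) := by
        rw [le_principal_iff, Ultrafilter.mem_coe, Ultrafilter.mem_map]
        refine Filter.mem_of_superset Filter.univ_mem fun i _ => ?_
        exact _root_.abs_le.mp (avL_abs _ _ f C hC)
      obtain ⟨c, _, hc⟩ := hK.ultrafilter_le_nhds _ h2
      exact ⟨c, hc⟩
    exact tendsto_nhds_limUnder h1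
  refine ⟨m, ?_, ?_, ?_, ?_, ?_⟩
  · intro f g hf hg
    refine tendsto_nhds_unique (hlim _ (hf.add hg)) ?_
    have h1 := (hlim f hf).add (hlim g hg)
    refine h1.congr fun i => ?_
    exact (avL_add _ _ f g).symm
  · intro c f hf
    refine tendsto_nhds_unique (hlim _ (hf.mul c)) ?_
    have h1 := (hlim f hf).const_mul c
    refine h1.congr fun i => ?_
    exact (avL_smul _ _ c f).symm
  · intro f hf h0
    exact ge_of_tendsto' (hlim f hf) fun i => avL_nonneg _ _ f h0
  · refine tendsto_nhds_unique (hlim _ (Bnd.const 1)) ?_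
    refine tendsto_const_nhds.congr fun i => ?_
    exact (avL_one _ _).symm
  · intro f hf a
    have h1 : (fun n => f (n * a)) = fun n => f (a * n) := by
      funext n
      rw [mul_comm]
    rw [h1]
    obtain ⟨C, hC⟩ := hf
    have hd : Tendsto (fun i => av i (fun n => f (a * n)) - av i f) U (𝓝 0) := by
      have h2 : Tendsto (fun i : I => 2 * C / ((i.2 : ℝ) + 1)) atTop (𝓝 0) := by
        have h3 : Tendsto (fun i : I => i.2) atTop atTop := by
          rw [← prod_atTop_atTop_eq]
          exact tendsto_snd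
        have h4 : Tendsto (fun k : ℕ => 2 * C / ((k : ℝ) + 1)) atTop (𝓝 0) := by
          refine Tendsto.div_atTop tendsto_const_nhds ?_
          exact tendsto_atTop_add_const_right _ _ tendsto_natCast_atTop_atTop
        exact h4.comp h3
      refine squeeze_zero_norm' ?_ (h2.mono_left hU)
      have h5 : ∀ᶠ i : I in atTop, a ∈ i.1 := by
        rw [← prod_atTop_atTop_eq]
        have h6 : ∀ᶠ S : Finset H in atTop, a ∈ S := by
          filter_upwards [eventually_ge_atTop ({a} : Finset H)] with S hS
          exact hS (Finset.mem_singleton_self a)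
        exact tendsto_fst.eventually h6
      filter_upwards [hU h5] with i hi
      rw [Real.norm_eq_abs]
      exact avL_shift _ _ a (Finset.mem_toList.mpr hi) f C hC
    have h7 := (hlim _ (Bnd.comp ⟨C, hC⟩ (fun n => a * n))).sub (hlim f ⟨C, hC⟩)
    have h8 := tendsto_nhds_unique h7 hd
    linarith

end Abelian

end Pool.Agent.N506.EX
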