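import Pool.Agent.N506.EZD
import Pool.Agent.N506.EX0

/-!
# Exactness of quotients by amenable normal subgroups
-/

namespace Pool.Agent.N506.EX

universe u v

theorem l1sum_eq {X : Type u} (f : X →₀ ℝ) (S : Finset X) (h : ∀ x, f x ≠ 0 → x ∈ S) :
    (f.sum fun _ t => |t|) = ∑ x ∈ S, |f x| :=
  Finsupp.sum_of_support_subset f (fun x hx => h x (Finsupp.mem_support_iff.mp hx)) _
    (fun _ _ => abs_zero)

theorem sum_eq' {X : Type u} (f : X →₀ ℝ) (S : Finset X) (h : ∀ x, f x ≠ 0 → x ∈ S) :
    (f.sum fun _ t => t) = ∑ x ∈ S, f x :=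
  Finsupp.sum_of_support_subset f (fun x hx => h x (Finsupp.mem_support_iff.mp hx)) _
    (fun _ _ => rfl)

/-- The quotient of an exact group by an amenable normal subgroup is exact. -/
theorem IsExact.quotient {G Q : Type u} [Group G] [Group Q] (hG : IsExact G) (π : G →* Q)
    (hπ : Function.Surjective π) (hk : Amen π.ker) : IsExact Q := by
  classical
  obtain ⟨m, hm⟩ := hk
  let s : Q → G := Function.surjInv hπ
  have hs : ∀ q, π (s q) = q := Function.surjInv_eq hπ
  intro F ε hε
  obtain ⟨E, μ, h0, h1, hE, hF⟩ := hG (F.image s) ε hε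
  -- the push-forward measures
  let ρ : G → Q → ℝ := fun g y => (Finsupp.mapDomain π (μ g)) y
  have hρ : ∀ g y, ρ g y = ∑ e ∈ E, if π (g * e) = y then μ g (g * e) else 0 := by
    intro g y
    have h2 : μ g = ∑ e ∈ E, Finsupp.single (g * e) (μ g (g * e)) := by
      ext x
      rw [Finsupp.finsetSum_apply]
      by_cases hx : μ g x = 0
      · rw [hx]
        symm
        refine Finset.sum_eq_zero fun e he => ?_
        rw [Finsupp.single_apply]
        split_ifs with h3
        · rw [h3, hx]
        · rfl
      · rw [Finset.sum_eq_single (g⁻¹ * x)]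
        · rw [mul_inv_cancel_left, Finsupp.single_eq_same]
        · intro e _ hne
          rw [Finsupp.single_apply, if_neg]
          rintro rfl
          exact hne (by rw [inv_mul_cancel_left])
        · intro h3
          exact absurd (hE g x hx) h3
    change (Finsupp.mapDomain π (μ g)) y = _
    conv_lhs => rw [h2]
    rw [Finsupp.mapDomain_finsetSum, Finsupp.finsetSum_apply]
    refine Finset.sum_congr rfl fun e _ => ?_
    rw [Finsupp.mapDomain_single, Finsupp.single_apply]
  have hρ0 : ∀ g y, 0 ≤ ρ g y := by
    intro g y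
    rw [hρ]
    refine Finset.sum_nonneg fun e _ => ?_
    split_ifs
    · exact h0 _ _
    · exact le_rfl
  have hρs : ∀ g y, ρ g y ≠ 0 → (π g)⁻¹ * y ∈ E.image π := by
    intro g y hy
    rw [hρ] at hy
    obtain ⟨e, he, h2⟩ := Finset.exists_ne_zero_of_sum_ne_zero hy
    split_ifs at h2 with h3
    · rw [← h3, map_mul, inv_mul_cancel_left]
      exact Finset.mem_image_of_mem _ he
    · exact absurd rfl h2
  have hρ1 : ∀ g (S : Finset Q), (∀ y, ρ g y ≠ 0 → y ∈ S) → ∑ y ∈ S, ρ g y = 1 := by
    intro g S hS
    have h2 := sum_eq' (Finsupp.mapDomain π (μ g)) S hS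
    rw [← h1 g]
    refine h2.symm.trans ?_
    exact Finsupp.sum_mapDomain_index (fun _ => rfl) (fun _ _ _ => rfl)
  have hρle : ∀ g y, |ρ g y| ≤ 1 := by
    intro g y
    rw [abs_of_nonneg (hρ0 g y)]
    have h2 := hρ1 g (insert y (Finsupp.mapDomain π (μ g)).support) (fun z hz =>
      Finset.mem_insert_of_mem (Finsupp.mem_support_iff.mpr hz))
    rw [← h2]
    exact Finset.single_le_sum (f := fun y => ρ g y) (fun z _ => hρ0 g z)
      (Finset.mem_insert_self _ _)
  have hρd : ∀ g g' (S : Finset Q), (∀ y, ρ g y ≠ 0 → y ∈ S) → (∀ y, ρ g' y ≠ 0 → y ∈ S) →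
      ∑ y ∈ S, |ρ g y - ρ g' y| ≤ ((μ g - μ g').sum fun _ t => |t|) := by
    intro g g' S hS hS'
    let T : Finset G := (μ g).support ∪ (μ g').support
    have hT : ∀ g'' : G, (g'' = g ∨ g'' = g') → ∀ y, ρ g'' y =
        ∑ x ∈ T, if π x = y then μ g'' x else 0 := by
      intro g'' hg'' y
      have h2 : (μ g'').support ⊆ T := by
        rcases hg'' with rfl | rfl
        · exact Finset.subset_union_left
        · exact Finset.subset_union_right
      have h3 : μ g'' = ∑ x ∈ T, Finsupp.single x (μ g'' x) := by
        ext x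
        rw [Finsupp.finsetSum_apply]
        by_cases hx : x ∈ T
        · rw [Finset.sum_eq_single x]
          · rw [Finsupp.single_eq_same]
          · intro x' _ hne
            rw [Finsupp.single_apply, if_neg hne]
          · intro h4
            exact absurd hx h4
        · have h4 : μ g'' x = 0 := by
            by_contra h5
            exact hx (h2 (Finsupp.mem_support_iff.mpr h5))
          rw [h4]
          symm
          refine Finset.sum_eq_zero fun x' hx' => ?_
          rw [Finsupp.single_apply, if_neg]
          rintro rfl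
          exact hx hx'
      change (Finsupp.mapDomain π (μ g'')) y = _
      conv_lhs => rw [h3]
      rw [Finsupp.mapDomain_finsetSum, Finsupp.finsetSum_apply]
      refine Finset.sum_congr rfl fun x _ => ?_
      rw [Finsupp.mapDomain_single, Finsupp.single_apply]
    have h5 : ((μ g - μ g').sum fun _ t => |t|) = ∑ x ∈ T, |μ g x - μ g' x| := by
      refine l1sum_eq _ T fun x hx => ?_
      by_contra h6
      apply hx
      simp only [T, Finset.mem_union, Finsupp.mem_support_iff, not_or, not_not] at h6
      rw [Finsupp.sub_apply, h6.1, h6.2, sub_zero]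
    rw [h5]
    calc ∑ y ∈ S, |ρ g y - ρ g' y|
        = ∑ y ∈ S, |∑ x ∈ T, if π x = y then (μ g x - μ g' x) else 0| := by
          refine Finset.sum_congr rfl fun y _ => ?_
          rw [hT g (Or.inl rfl), hT g' (Or.inr rfl), ← Finset.sum_sub_distrib]
          congr 1
          refine Finset.sum_congr rfl fun x _ => ?_
          split_ifs
          · rfl
          · ring
      _ ≤ ∑ y ∈ S, ∑ x ∈ T, if π x = y then |μ g x - μ g' x| else 0 := by
          refine Finset.sum_le_sum fun y _ => ?_
          refine (Finset.abs_sum_le_sum_abs _ _).trans ?_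
          refine Finset.sum_le_sum fun x _ => ?_
          split_ifs
          · exact le_rfl
          · rw [abs_zero]
      _ = ∑ x ∈ T, ∑ y ∈ S, if π x = y then |μ g x - μ g' x| else 0 := Finset.sum_comm
      _ ≤ ∑ x ∈ T, |μ g x - μ g' x| := by
          refine Finset.sum_le_sum fun x _ => ?_
          rw [Finset.sum_ite_eq]
          split_ifs
          · exact le_rfl
          · exact abs_nonneg _
  -- the averaged measures
  let av : Q → Q → ℝ := fun q y => m (fun n : π.ker => ρ (n * s q) y)
  have hbd : ∀ (g : G) (y : Q), Bnd (fun n : π.ker => ρ (n * g) y) := fun g y =>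
    ⟨1, fun n => hρle _ _⟩
  have hlift : ∀ g y, av (π g) y = m (fun n : π.ker => ρ (n * g) y) := by
    intro g y
    let a : π.ker := ⟨s (π g) * g⁻¹, by
      rw [MonoidHom.mem_ker, map_mul, map_inv, hs, mul_inv_cancel]⟩
    rw [← hm.inv (fun n : π.ker => ρ (n * g) y) (hbd g y) a]
    change m (fun n : π.ker => ρ (n * s (π g)) y) = _
    congr 1
    funext n
    congr 1
    change (n : G) * s (π g) = (n : G) * (s (π g) * g⁻¹) * g
    group
  have hker : ∀ (n : π.ker) (g : G), π (n * g) = π g := by
    intro n g
    have h2 : π (n : G) = 1 := n.2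
    rw [map_mul, h2, one_mul]
  have havs : ∀ q y, av q y ≠ 0 → q⁻¹ * y ∈ E.image π := by
    intro q y hy
    by_contra h2
    apply hy
    change m (fun n : π.ker => ρ (n * s q) y) = 0
    have h3 : (fun n : π.ker => ρ (n * s q) y) = fun _ => 0 := by
      funext n
      by_contra h4
      have h5 := hρs _ y h4
      rw [hker, hs] at h5
      exact h2 h5
    rw [h3, hm.const]
  have hfin : ∀ q, (Function.support (av q)).Finite := by
    intro q
    refine ((E.image π).image (fun e => q * e)).finite_toSet.subset ?_
    intro y hy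
    rw [Finset.mem_coe, Finset.mem_image]
    exact ⟨q⁻¹ * y, havs q y hy, mul_inv_cancel_left _ _⟩
  let ν : Q → Q →₀ ℝ := fun q => Finsupp.ofSupportFinite (av q) (hfin q)
  have hν : ∀ q y, ν q y = av q y := fun q y => rfl
  let S : Q → Finset Q := fun q => (E.image π).image (fun e => q * e)
  have hS : ∀ q y, q⁻¹ * y ∈ E.image π → y ∈ S q := by
    intro q y h2
    rw [Finset.mem_image]
    exact ⟨q⁻¹ * y, h2, mul_inv_cancel_left _ _⟩
  refine ⟨E.image π, ν, ?_, ?_, ?_, ?_⟩
  · intro q y
    rw [hν]
    exact hm.nonneg _ (hbd _ _) fun n => hρ0 _ _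
  · intro q
    rw [sum_eq' (ν q) (S q) (fun y hy => hS q y (havs q y hy))]
    change ∑ y ∈ S q, m (fun n : π.ker => ρ (n * s q) y) = 1
    rw [← hm.sum (S q) (fun y _ => hbd (s q) y)]
    have h2 : (fun n : π.ker => ∑ y ∈ S q, ρ (n * s q) y) = fun _ => 1 := by
      funext n
      refine hρ1 _ _ fun y hy => hS q y ?_
      have h3 := hρs _ y hy
      rwa [hker, hs] at h3
    rw [h2, hm.one]
  · intro q y hy
    exact havs q y hy
  · intro q t ht
    let g : G := s q
    let g' : G := g * s t
    have hg' : π g' = q * t := by rw [map_mul, hs, hs]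
    let T : Finset Q := S q ∪ S (q * t)
    rw [l1sum_eq (ν q - ν (q * t)) T]
    · have h2 : ∀ y ∈ T, |(ν q - ν (q * t)) y| ≤
          m (fun n : π.ker => |ρ (n * g) y - ρ (n * g') y|) := by
        intro y _
        have h3 : (ν q - ν (q * t)) y = m (fun n : π.ker => ρ (n * g) y - ρ (n * g') y) := by
          rw [hm.sub (hbd g y) (hbd g' y), ← hlift g y, ← hlift g' y, hg', hs]
          rfl
        rw [h3]
        refine hm.abs_le ?_
        have := (hbd g y).add ((hbd g' y).mul (-1))
        refine Eq.mp ?_ this
        congr 1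
        funext n
        ring
      refine (Finset.sum_le_sum h2).trans ?_
      have hb3 : ∀ y ∈ T, Bnd (fun n : π.ker => |ρ (n * g) y - ρ (n * g') y|) := by
        intro y _
        refine ⟨2, fun n => ?_⟩
        rw [abs_abs]
        refine (abs_sub _ _).trans ?_
        have e1 := hρle (n * g) y
        have e2 := hρle (n * g') y
        linarith
      rw [← hm.sum T hb3]
      refine (hm.mono (Bnd.sum T hb3) (Bnd.const ε) fun n => ?_).trans_eq (hm.const ε)
      refine (hρd _ _ T ?_ ?_).trans ?_
      · intro y hy
        have h3 := hρs _ y hy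
        rw [hker, hs] at h3
        exact Finset.mem_union_left _ (hS q y h3)
      · intro y hy
        have h3 := hρs _ y hy
        rw [hker, hg'] at h3
        exact Finset.mem_union_right _ (hS _ y h3)
      · have h3 := hF (n * g) (s t) (Finset.mem_image_of_mem s ht)
        rw [mul_assoc] at h3
        exact h3
    · intro y hy
      by_contra h3
      apply hy
      rw [Finset.mem_union, not_or] at h3
      have e1 : ν q y = 0 := by
        by_contra h4
        exact h3.1 (hS q y (havs q y h4))
      have e2 : ν (q * t) y = 0 := by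
        by_contra h4
        exact h3.2 (hS (q * t) y (havs (q * t) y h4))
      rw [Finsupp.sub_apply, e1, e2, sub_zero]

end Pool.Agent.N506.EX
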