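import Pool.Agent.N506.EZC
import Pool.Agent.N506.EZE

/-!
# Automorphisms and outer automorphisms of the groups `F ⧸ R^(k)`
-/

namespace Pool.Agent.N506.EX

universe u v

theorem Amen.of_subsingleton {G : Type u} [Group G] [Subsingleton G] : Amen G :=
  Amen.of_finite

theorem PolyTFA.amen {G : Type u} [Group G] (h : PolyTFA G) : Amen G := by
  induction h with
  | triv G => exact Amen.of_subsingleton
  | @ext G _ H _ _ φ hφ ih =>
    refine Amen.extension φ.rangeRestrict φ.rangeRestrict_surjective ?_ (Amen.comm φ.range)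
    have h1 : φ.rangeRestrict.ker = φ.ker := MonoidHom.ker_rangeRestrict φ
    rw [h1]
    exact ih

theorem VPolyTFA.amen {G : Type} [Group G] (h : VPolyTFA G) : Amen G := by
  obtain ⟨N, hN, hP⟩ := h
  have h1 : N.normalCore.FiniteIndex := inferInstance
  have h2 : Finite (G ⧸ N.normalCore) := inferInstance
  refine Amen.extension (QuotientGroup.mk' N.normalCore) (QuotientGroup.mk'_surjective _) ?_
    Amen.of_finite
  rw [QuotientGroup.ker_mk']
  have h3 : PolyTFA N.normalCore := hP.of_injective _ (Subgroup.inclusion N.normalCore_le)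
    (Subgroup.inclusion_injective _)
  exact h3.amen

theorem VPolyTFA.subgroup {G : Type} [Group G] (h : VPolyTFA G) (H : Subgroup G) :
    VPolyTFA H := by
  obtain ⟨N, hN, hP⟩ := h
  refine ⟨N.subgroupOf H, inferInstance, ?_⟩
  refine hP.of_injective _ ((H.subtype.comp (N.subgroupOf H).subtype).codRestrict N
    (fun g => g.2)) ?_
  intro a b hab
  exact Subtype.ext (Subtype.ext (congrArg (fun g : N => (g : G)) hab))

/-- Images of exact groups of automorphisms in the outer automorphism group. -/
theorem out_exact {Γ : Type} [Group Γ] (hV : VPolyTFA Γ) (B : Subgroup (MulAut Γ))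
    (hB : IsExact B) : IsExact (B.map (QuotientGroup.mk' (inn Γ))) := by
  let π : B →* B.map (QuotientGroup.mk' (inn Γ)) :=
    ((QuotientGroup.mk' (inn Γ)).comp B.subtype).codRestrict _ (fun b => ⟨b, b.2, rfl⟩)
  have hπ : Function.Surjective π := by
    rintro ⟨_, b, hb, rfl⟩
    exact ⟨⟨b, hb⟩, rfl⟩
  refine hB.quotient π hπ ?_
  let H : Subgroup Γ := B.comap MulAut.conj
  have hH : Amen H := (hV.subgroup H).amen
  have hin : ∀ b : π.ker, ((b : B) : MulAut Γ) ∈ inn Γ := by
    intro b
    have h1 : π (b : B) = 1 := b.2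
    have h2 := congrArg (fun c : B.map (QuotientGroup.mk' (inn Γ)) => (c : Out Γ)) h1
    exact (QuotientGroup.eq_one_iff _).mp h2
  let σ : H →* π.ker :=
    ((MulAut.conj.comp H.subtype).codRestrict B (fun g => g.2)).codRestrict π.ker (fun g => by
      rw [MonoidHom.mem_ker]
      apply Subtype.ext
      exact (QuotientGroup.eq_one_iff _).mpr ⟨(g : Γ), rfl⟩)
  refine hH.of_surjective σ ?_
  intro b
  obtain ⟨g, hg⟩ := hin b
  refine ⟨⟨g, ?_⟩, ?_⟩
  · change MulAut.conj g ∈ B
    rw [hg]
    exact (b : B).2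
  · apply Subtype.ext
    apply Subtype.ext
    exact hg

/-- Theorem on automorphisms and outer automorphisms of `F ⧸ R^(k)`. -/
theorem aut_out {X : Type} [Finite X] (R : Subgroup (FreeGroup X)) [R.Normal]
    (hR : ∃ N : Subgroup (FreeGroup X ⧸ R), N.FiniteIndex ∧ PolyTFA N) (k : ℕ)
    (B : Subgroup (MulAut (FreeGroup X ⧸ der R k))) (hB : B ≤ autPres (top R k))
    (hE : IsExact ((B.subgroupOf (autPres (top R k))).map (autQuot (top R k)))) :
    (IsExact B ∧ CoarselyEmbeds B) ∧ IsExact (B.map (QuotientGroup.mk' (inn _))) ∧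
      CoarselyEmbeds (B.map (QuotientGroup.mk' (inn _))) := by
  classical
  have : Fintype X := Fintype.ofFinite X
  have h1 : Ex B := by
    have h2 := aut_ex R hR k (B.subgroupOf (autPres (top R k))) hE.ex
    refine Ex.of_injective h2 (((Subgroup.inclusion hB)).codRestrict
      (B.subgroupOf (autPres (top R k))) (fun b => b.2)) ?_
    intro a b hab
    have h3 := congrArg (fun c : B.subgroupOf (autPres (top R k)) =>
      ((c : autPres (top R k)) : MulAut (FreeGroup X ⧸ der R k))) hab
    exact Subtype.ext h3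
  have hB' : IsExact B := h1.isExact
  have hc : Countable (MulAut (FreeGroup X ⧸ der R k)) := countable_aut R k
  have hV : VPolyTFA (FreeGroup X ⧸ der R k) := by
    obtain ⟨p, hp, -⟩ := RF.free R k
    exact (RF.main hR k hp).2
  have hO := out_exact hV B hB'
  have hcO : Countable (Out (FreeGroup X ⧸ der R k)) :=
    (QuotientGroup.mk_surjective).countable
  exact ⟨⟨hB', hB'.coarselyEmbeds⟩, hO, hO.coarselyEmbeds⟩

end Pool.Agent.N506.EX
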