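import Pool.Agent.N506.EZF
import Pool.Agent.N506.EYN

/-!
# Automorphisms of extensions with abelian kernel
-/

namespace Pool.Agent.N506.EX

open MonoidAlgebra

section General

variable {Γ : Type} [Group Γ] (N : Subgroup Γ) [hN : N.Normal]

theorem inn_le_autPres : inn Γ ≤ autPres N := by
  rintro _ ⟨g, rfl⟩
  change N.map ((MulAut.conj g : MulAut Γ) : Γ →* Γ) = N
  apply le_antisymm
  · rintro _ ⟨n, hn, rfl⟩
    exact hN.conj_mem n hn g
  · intro n hn
    refine ⟨g⁻¹ * n * g, ?_, ?_⟩
    · have := hN.conj_mem n hn g⁻¹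
      rwa [inv_inv] at this
    · change g * (g⁻¹ * n * g) * g⁻¹ = n
      group

theorem autQuot_conj (g : Γ) : autQuot N ⟨MulAut.conj g, inn_le_autPres N ⟨g, rfl⟩⟩ =
    MulAut.conj (g : Γ ⧸ N) := by
  refine MulEquiv.ext fun q => ?_
  obtain ⟨h, rfl⟩ := QuotientGroup.mk_surjective q
  rfl

theorem autQuot_eq_one_iff (φ : autPres N) : autQuot N φ = 1 ↔ (φ : MulAut Γ) ∈ autTriv N := by
  constructor
  · intro h g
    have h3 := congrArg (fun a : MulAut (Γ ⧸ N) => a (QuotientGroup.mk g)) h
    have h4 : (QuotientGroup.mk ((φ : MulAut Γ) g) : Γ ⧸ N) = QuotientGroup.mk g := h3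
    rw [← QuotientGroup.eq_one_iff, QuotientGroup.mk_mul, QuotientGroup.mk_inv, h4,
      mul_inv_cancel]
  · intro h
    refine MulEquiv.ext fun q => ?_
    obtain ⟨g, rfl⟩ := QuotientGroup.mk_surjective q
    change (QuotientGroup.mk ((φ : MulAut Γ) g) : Γ ⧸ N) = QuotientGroup.mk g
    have h1 := h g
    rw [← QuotientGroup.eq_one_iff, QuotientGroup.mk_mul, QuotientGroup.mk_inv,
      mul_inv_eq_one] at h1
    exact h1

/-- The homomorphism to the image in the automorphism group of the quotient. -/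
def toQuotImage {B : Subgroup (MulAut Γ)} (hB : B ≤ autPres N) : B →* quotImage N B :=
  ((autQuot N).comp (Subgroup.inclusion hB)).codRestrict _
    (fun b => ⟨Subgroup.inclusion hB b, b.2, rfl⟩)

theorem toQuotImage_surjective {B : Subgroup (MulAut Γ)} (hB : B ≤ autPres N) :
    Function.Surjective (toQuotImage N hB) := by
  rintro ⟨_, b, hb, rfl⟩
  exact ⟨⟨b, hb⟩, rfl⟩

theorem toQuotImage_ker {B : Subgroup (MulAut Γ)} (hB : B ≤ autPres N) (b : B)
    (h : toQuotImage N hB b = 1) : (b : MulAut Γ) ∈ autTriv N :=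
  (autQuot_eq_one_iff N _).mp (congrArg Subtype.val h)

/-- Exactness of groups of automorphisms. -/
theorem ex_of_quot (hK : Ex (autTriv N)) {B : Subgroup (MulAut Γ)} (hB : B ≤ autPres N)
    (hQ : Ex (quotImage N B)) : Ex B := by
  refine Ex.ext (toQuotImage N hB) hQ ?_
  refine Ex.of_injective hK ((B.subtype.comp (toQuotImage N hB).ker.subtype).codRestrict
    (autTriv N) (fun b => toQuotImage_ker N hB b b.2)) ?_
  intro a b hab
  exact Subtype.ext (Subtype.ext (congrArg (fun g : autTriv N => (g : MulAut Γ)) hab))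

/-- Exactness of the images in the outer automorphism group. -/
theorem exact_out_of_quot (hK : Ex (autTriv N)) (hA : Amen N) {B : Subgroup (MulAut Γ)}
    (hB : B ≤ autPres N) (hQ : Ex (outImage (quotImage N B))) : Ex (outImage B) := by
  -- enlarge `B`
  let B' : Subgroup (MulAut Γ) := B ⊔ inn Γ
  have hB' : B' ≤ autPres N := sup_le hB (inn_le_autPres N)
  let π : B' →* Out Γ := (QuotientGroup.mk' (inn Γ)).comp B'.subtype
  let β : B' →* Out (Γ ⧸ N) :=
    (QuotientGroup.mk' (inn (Γ ⧸ N))).comp ((autQuot N).comp (Subgroup.inclusion hB'))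
  have hin : ∀ b : B', π b = 1 ↔ (b : MulAut Γ) ∈ inn Γ := fun b => QuotientGroup.eq_one_iff _
  have hker : π.ker ≤ β.ker := by
    intro b hb
    obtain ⟨g, hg⟩ := (hin b).mp hb
    rw [MonoidHom.mem_ker]
    refine (QuotientGroup.eq_one_iff _).mpr ⟨(g : Γ ⧸ N), ?_⟩
    rw [← autQuot_conj N g]
    change autQuot N _ = autQuot N _
    congr 1
    exact Subtype.ext hg
  -- the image of `β`
  have hβ : ∀ b : B', β b ∈ outImage (quotImage N B) := by
    intro b
    obtain ⟨c, hc, i, hi, hci⟩ := Subgroup.mem_sup_of_normal_right.mp b.2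
    obtain ⟨g, rfl⟩ := hi
    have hc' : c ∈ B' := Subgroup.mem_sup_left hc
    have hi' : MulAut.conj g ∈ B' := Subgroup.mem_sup_right ⟨g, rfl⟩
    have h1 : b = ⟨c, hc'⟩ * ⟨MulAut.conj g, hi'⟩ := Subtype.ext hci.symm
    have h2 : β ⟨MulAut.conj g, hi'⟩ = 1 := hker ((hin _).mpr ⟨g, rfl⟩)
    rw [h1, map_mul, h2, mul_one]
    exact ⟨autQuot N ⟨c, hB hc⟩, ⟨⟨c, hB hc⟩, hc, rfl⟩, rfl⟩
  let β' : B' →* outImage (quotImage N B) := β.codRestrict _ hβ
  have hker' : π.ker ≤ β'.ker := by
    intro b hb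
    rw [MonoidHom.mem_ker]
    exact Subtype.ext (hker hb)
  let γ : B' ⧸ π.ker →* outImage (quotImage N B) := QuotientGroup.lift π.ker β' hker'
  -- the group `K'`
  let K' : Subgroup B' := (autTriv N).comap B'.subtype
  have hK' : Ex K' := by
    refine Ex.of_injective hK ((B'.subtype.comp K'.subtype).codRestrict (autTriv N)
      (fun b => b.2)) ?_
    intro a b hab
    exact Subtype.ext (Subtype.ext (congrArg (fun g : autTriv N => (g : MulAut Γ)) hab))
  have hKβ : ∀ b : K', γ (QuotientGroup.mk (b : B')) = 1 := by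
    intro b
    apply Subtype.ext
    change (QuotientGroup.mk' (inn (Γ ⧸ N))) (autQuot N (Subgroup.inclusion hB' (b : B'))) = 1
    have h1 : autQuot N (Subgroup.inclusion hB' (b : B')) = 1 :=
      (autQuot_eq_one_iff N (Subgroup.inclusion hB' (b : B'))).mpr b.2
    rw [h1, map_one]
  let σ : K' →* γ.ker := ((QuotientGroup.mk' π.ker).comp K'.subtype).codRestrict γ.ker
    (fun b => hKβ b)
  have hσ : Function.Surjective σ := by
    rintro ⟨q, hq⟩
    obtain ⟨b, rfl⟩ := QuotientGroup.mk_surjective q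
    have h1 : β b = 1 := congrArg Subtype.val hq
    obtain ⟨q', hq'⟩ := (QuotientGroup.eq_one_iff _).mp h1
    obtain ⟨g, rfl⟩ := QuotientGroup.mk_surjective q'
    have hg : MulAut.conj g ∈ B' := Subgroup.mem_sup_right ⟨g, rfl⟩
    let c : B' := ⟨MulAut.conj g, hg⟩
    have hc : c ∈ π.ker := (hin c).mpr ⟨g, rfl⟩
    have h2 : b * c⁻¹ ∈ K' := by
      change ((b * c⁻¹ : B') : MulAut Γ) ∈ autTriv N
      have h3 : autQuot N (Subgroup.inclusion hB' (b * c⁻¹)) = 1 := by
        rw [map_mul, map_mul, map_inv, map_inv, mul_inv_eq_one]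
        change _ = autQuot N ⟨MulAut.conj g, _⟩
        rw [autQuot_conj]
        exact hq'.symm
      exact (autQuot_eq_one_iff N _).mp h3
    refine ⟨⟨b * c⁻¹, h2⟩, ?_⟩
    apply Subtype.ext
    change (QuotientGroup.mk (b * c⁻¹) : B' ⧸ π.ker) = QuotientGroup.mk b
    rw [QuotientGroup.mk_mul, (QuotientGroup.eq_one_iff _).mpr (π.ker.inv_mem hc), mul_one]
  -- the kernel of `σ` is amenable
  have hσk : Amen σ.ker := by
    let H : Subgroup Γ := (autTriv N).comap MulAut.conj
    have hHa : Amen H := by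
      let τ : H →* Γ ⧸ N := (QuotientGroup.mk' N).comp H.subtype
      have hcomm : ∀ a b : H, τ a * τ b = τ b * τ a := by
        intro a b
        have h1 : MulAut.conj (a : Γ) (b : Γ) * (b : Γ)⁻¹ ∈ N := a.2 b
        change (((a : Γ) : Γ ⧸ N)) * ((b : Γ) : Γ ⧸ N) = ((b : Γ) : Γ ⧸ N) * ((a : Γ) : Γ ⧸ N)
        rw [MulAut.conj_apply, ← QuotientGroup.eq_one_iff] at h1
        rw [QuotientGroup.mk_mul, QuotientGroup.mk_mul, QuotientGroup.mk_mul,
          QuotientGroup.mk_inv, QuotientGroup.mk_inv] at h1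
        rw [mul_inv_eq_one, mul_inv_eq_iff_eq_mul] at h1
        exact h1
      refine Amen.extension (τ.rangeRestrict) τ.rangeRestrict_surjective ?_ ?_
      · have hk : ∀ a : τ.rangeRestrict.ker, ((a : H) : Γ) ∈ N := by
          intro a
          have h1 : τ.rangeRestrict (a : H) = 1 := a.2
          exact (QuotientGroup.eq_one_iff _).mp (congrArg Subtype.val h1)
        -- subgroup of the amenable group `N`
        let κ : N →* τ.rangeRestrict.ker :=
          { toFun := fun n => ⟨⟨n, by
              intro g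
              change (n : Γ) * g * (n : Γ)⁻¹ * g⁻¹ ∈ N
              have h1 := hN.conj_mem _ (N.inv_mem n.2) g
              have h2 := N.mul_mem n.2 h1
              have e : (n : Γ) * g * (n : Γ)⁻¹ * g⁻¹ = (n : Γ) * (g * (n : Γ)⁻¹ * g⁻¹) := by
                group
              rw [e]
              exact h2⟩, by
              rw [MonoidHom.mem_ker]
              apply Subtype.ext
              exact (QuotientGroup.eq_one_iff _).mpr n.2⟩
            map_one' := rfl
            map_mul' := fun _ _ => rfl }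
        refine hA.of_surjective κ ?_
        intro a
        exact ⟨⟨_, hk a⟩, rfl⟩
      · let _ : CommGroup τ.range :=
          { (inferInstance : Group τ.range) with
            mul_comm := by
              rintro ⟨_, a, rfl⟩ ⟨_, b, rfl⟩
              exact Subtype.ext (hcomm a b) }
        exact Amen.comm τ.range
    let ρ : H →* σ.ker :=
      { toFun := fun h => ⟨⟨⟨MulAut.conj (h : Γ), Subgroup.mem_sup_right ⟨_, rfl⟩⟩, h.2⟩, by
          rw [MonoidHom.mem_ker]
          apply Subtype.ext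
          exact (QuotientGroup.eq_one_iff _).mpr ((hin _).mpr ⟨_, rfl⟩)⟩
        map_one' := by
          apply Subtype.ext
          apply Subtype.ext
          apply Subtype.ext
          exact map_one _
        map_mul' := fun a b => by
          apply Subtype.ext
          apply Subtype.ext
          apply Subtype.ext
          exact map_mul _ _ _ }
    refine hHa.of_surjective ρ ?_
    rintro ⟨⟨⟨φ, hφ⟩, hφ'⟩, hφ''⟩
    have h1 := congrArg Subtype.val hφ''
    have h2 : (⟨φ, hφ⟩ : B') ∈ π.ker := (QuotientGroup.eq_one_iff _).mp h1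
    obtain ⟨g, hg⟩ := (hin _).mp h2
    have hg' : MulAut.conj g = φ := hg
    refine ⟨⟨g, ?_⟩, ?_⟩
    · change MulAut.conj g ∈ autTriv N
      rw [hg']
      exact hφ'
    · apply Subtype.ext
      apply Subtype.ext
      apply Subtype.ext
      exact hg'
  have hγk : Ex γ.ker := (hK'.isExact.quotient σ hσ hσk).ex
  have hE : Ex (B' ⧸ π.ker) := Ex.ext γ hQ hγk
  -- the image of `B` is the image of `B'`
  have e1 : Ex π.range := (Ex.equiv (QuotientGroup.quotientKerEquivRange π)).mp hE
  refine Ex.of_injective e1 (Subgroup.inclusion ?_) (Subgroup.inclusion_injective _)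
  rintro _ ⟨b, hb, rfl⟩
  exact ⟨⟨b, Subgroup.mem_sup_left hb⟩, rfl⟩

end General

end Pool.Agent.N506.EX
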