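import Pool.Agent.N506.EZ0
import Pool.Agent.N506.EXI0

/-!
# Free modules over group rings as normal subgroups
-/

namespace Pool.Agent.N506.EX

/-- Every finitely generated subgroup of `Q` has a subgroup of finite index which embeds in the
product of a right-angled Artin group and a group with a finite subnormal series with torsion-free
abelian factors. -/
def LocSpec (Q : Type) [Group Q] : Prop :=
  ∀ K : Subgroup Q, K.FG → ∃ (H : Subgroup K) (_ : H.FiniteIndex) (S : Type)
    (_ : Group S) (V : Type) (Γ : SimpleGraph V) (ι : H →* S × RAAG Γ),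
    PolyTFA S ∧ Function.Injective ι

/-- The normal subgroup `N` of `Γ`, with the conjugation action of `Γ ⧸ N`, is isomorphic to the free
module of rank `r` over the group ring of `Γ ⧸ N` with coefficients in `ℤ / m` (`ℤ` if `m = 0`). -/
def FreeMod {Γ : Type} [Group Γ] (N : Subgroup Γ) [hN : N.Normal] (m r : ℕ) : Prop :=
  ∃ θ : N ≃* Multiplicative (Fin r → MonoidAlgebra (ZMod m) (Γ ⧸ N)),
    ∀ (g : Γ) (n : N) (i : Fin r), (θ ⟨g * n * g⁻¹, hN.conj_mem n n.2 g⟩).toAdd i =
      MonoidAlgebra.single (g : Γ ⧸ N) 1 * (θ n).toAdd i

/-- For every group `B` of automorphisms of `Γ` which map the normal subgroup `N` onto itself: if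
the image of `B` in `Aut(Γ ⧸ N)` is exact, then `B` is exact; if the image of `B` in `Out(Γ ⧸ N)` is
exact, then the image of `B` in `Out(Γ)` is exact. Countable `B` also embed coarsely in a
Hilbert space in the first case, and so do their images in `Out(Γ)` in the second case. -/
def ExactOver {Γ : Type} [Group Γ] (N : Subgroup Γ) [N.Normal] : Prop :=
  ∀ B : Subgroup (MulAut Γ), B ≤ autPres N →
    (IsExact (quotImage N B) → IsExact B ∧ (Countable B → CoarselyEmbeds B)) ∧
    (IsExact (outImage (quotImage N B)) →
      IsExact (outImage B) ∧ (Countable B → CoarselyEmbeds (outImage B)))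

end Pool.Agent.N506.EX
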