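import Mathlib

/-!
# Finite decomposition complexity

`X` is a set, `adj i` (`i` in an index set `I`) are the scales of closeness on `X` and `base j`
are the notions of boundedness.
-/

namespace Pool.Agent.N506.FX

universe u v w

/-- Different members of the family `𝒰` are never close. -/
def Disj {X : Type u} (adj : X → X → Prop) (𝒰 : Set (Set X)) : Prop :=
  ∀ U ∈ 𝒰, ∀ V ∈ 𝒰, ∀ x ∈ U, ∀ y ∈ V, adj x y → U = V

/-- `Z` is the union of two families of members of `𝒴`, and different members of one of these two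
families are never close. -/
def Dcp {X : Type u} (adj : X → X → Prop) (Z : Set X) (𝒴 : Set (Set X)) : Prop :=
  ∃ 𝒰 𝒱 : Set (Set X), 𝒰 ⊆ 𝒴 ∧ 𝒱 ⊆ 𝒴 ∧ Z = ⋃₀ 𝒰 ∪ ⋃₀ 𝒱 ∧ Disj adj 𝒰 ∧ Disj adj 𝒱

/-- The families of subsets of `X` of finite decomposition complexity: the smallest collection of
families which contains the uniformly bounded families and contains a family `𝒳` as soon as it
contains, for every scale `i`, a family `𝒴 i` such that every member of `𝒳` decomposes over
`𝒴 i` at scale `i`. -/
inductive FD {X : Type u} {I : Type v} {J : Type w} (adj : I → X → X → Prop)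
    (base : J → X → X → Prop) : Set (Set X) → Prop
  | bdd (𝒳 : Set (Set X)) (j : J) (h : ∀ Z ∈ 𝒳, ∀ x ∈ Z, ∀ y ∈ Z, base j x y) : FD adj base 𝒳
  | dec (𝒳 : Set (Set X)) (𝒴 : I → Set (Set X)) (h : ∀ i, FD adj base (𝒴 i))
      (hd : ∀ i, ∀ Z ∈ 𝒳, Dcp (adj i) Z (𝒴 i)) : FD adj base 𝒳

/-- The coarse structure of a discrete group: for a finite set `F`, the elements `x` and `y` are
`F`-close if `x⁻¹ y ∈ F`. -/
def cl (G : Type u) [Group G] (F : Finset G) (x y : G) : Prop := x⁻¹ * y ∈ F

/-- Finite decomposition complexity of the discrete group `G` (Guentner, Tessera, Yu). -/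
def FDC (G : Type u) [Group G] : Prop := FD (cl G) (cl G) {Set.univ}

end Pool.Agent.N506.FX
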