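import Pool.Agent.N506.F0

/-!
# Formal properties of finite decomposition complexity
-/

namespace Pool.Agent.N506.FX

universe u u' v v' w w'

section Basic

variable {X : Type u} {I : Type v} {J : Type w} {adj : I → X → X → Prop}
  {base : J → X → X → Prop}

theorem FD.subset {𝒳 𝒳' : Set (Set X)} (h : FD adj base 𝒳) (hs : 𝒳' ⊆ 𝒳) : FD adj base 𝒳' := by
  cases h with
  | bdd _ j h => exact FD.bdd _ j fun Z hZ => h Z (hs hZ)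
  | dec _ 𝒴 h hd => exact FD.dec _ 𝒴 h fun i Z hZ => hd i Z (hs hZ)

/-- Pull-back along a map `q`, on the sets all of whose pairs of points are good. -/
theorem FD.map {X' : Type u'} {I' : Type v'} {J' : Type w'} {adj' : I' → X' → X' → Prop}
    {base' : J' → X' → X' → Prop} {𝒳 : Set (Set X)} (h : FD adj base 𝒳) (q : X' → X)
    (good : X' → X' → Prop)
    (hadj : ∀ i', ∃ i, ∀ x y, good x y → adj' i' x y → adj i (q x) (q y))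
    (hbase : ∀ j, ∃ j', ∀ x y, good x y → base j (q x) (q y) → base' j' x y) :
    FD adj' base' {Z | (∀ x ∈ Z, ∀ y ∈ Z, good x y) ∧ ∃ T ∈ 𝒳, ∀ x ∈ Z, q x ∈ T} := by
  induction h with
  | bdd 𝒳 j h =>
    obtain ⟨j', hj'⟩ := hbase j
    refine FD.bdd _ j' ?_
    rintro Z ⟨hg, T, hT, hZ⟩ x hx y hy
    exact hj' x y (hg x hx y hy) (h T hT _ (hZ x hx) _ (hZ y hy))
  | dec 𝒳 𝒴 h hd ih =>
    choose t ht using hadj
    refine FD.dec _ (fun i' => {Z | (∀ x ∈ Z, ∀ y ∈ Z, good x y) ∧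
      ∃ T ∈ 𝒴 (t i'), ∀ x ∈ Z, q x ∈ T}) (fun i' => ih (t i')) ?_
    rintro i' Z ⟨hg, T, hT, hZ⟩
    obtain ⟨𝒰, 𝒱, hU, hV, hT', hdU, hdV⟩ := hd (t i') T hT
    have key : ∀ 𝒲 : Set (Set X), Disj (adj (t i')) 𝒲 →
        Disj (adj' i') ((fun U => {x | x ∈ Z ∧ q x ∈ U}) '' 𝒲) := by
      rintro 𝒲 hW _ ⟨U, hU, rfl⟩ _ ⟨V, hV, rfl⟩ x hx y hy hxy
      have h1 := hW U hU V hV (q x) hx.2 (q y) hy.2
        (ht i' x y (hg x hx.1 y hy.1) hxy)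
      rw [h1]
    have key2 : ∀ 𝒲 : Set (Set X), 𝒲 ⊆ 𝒴 (t i') →
        ((fun U => {x | x ∈ Z ∧ q x ∈ U}) '' 𝒲) ⊆ {Z | (∀ x ∈ Z, ∀ y ∈ Z, good x y) ∧
          ∃ T ∈ 𝒴 (t i'), ∀ x ∈ Z, q x ∈ T} := by
      rintro 𝒲 hW _ ⟨U, hU, rfl⟩
      exact ⟨fun x hx y hy => hg x hx.1 y hy.1, U, hW hU, fun x hx => hx.2⟩
    refine ⟨_, _, key2 𝒰 hU, key2 𝒱 hV, ?_, key 𝒰 hdU, key 𝒱 hdV⟩
    ext x
    constructor
    · intro hx
      have h1 : q x ∈ ⋃₀ 𝒰 ∪ ⋃₀ 𝒱 := hT' ▸ hZ x hx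
      rcases h1 with ⟨U, hU', h2⟩ | ⟨U, hU', h2⟩
      · exact Or.inl ⟨_, ⟨U, hU', rfl⟩, hx, h2⟩
      · exact Or.inr ⟨_, ⟨U, hU', rfl⟩, hx, h2⟩
    · rintro (⟨_, ⟨U, _, rfl⟩, h2⟩ | ⟨_, ⟨U, _, rfl⟩, h2⟩)
      · exact h2.1
      · exact h2.1

/-- Change of scales and of the notion of boundedness. -/
theorem FD.mono {I' : Type v'} {J' : Type w'} {adj' : I' → X → X → Prop}
    {base' : J' → X → X → Prop} {𝒳 𝒳' : Set (Set X)} (h : FD adj base 𝒳)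
    (good : X → X → Prop)
    (hadj : ∀ i', ∃ i, ∀ x y, good x y → adj' i' x y → adj i x y)
    (hbase : ∀ j, ∃ j', ∀ x y, good x y → base j x y → base' j' x y)
    (hs : ∀ Z ∈ 𝒳', (∀ x ∈ Z, ∀ y ∈ Z, good x y) ∧ ∃ T ∈ 𝒳, Z ⊆ T) :
    FD adj' base' 𝒳' :=
  (h.map id good hadj hbase).subset fun Z hZ =>
    ⟨(hs Z hZ).1, (hs Z hZ).2.imp fun _ hT => ⟨hT.1, fun _ hx => hT.2 hx⟩⟩

theorem FD.mono_fam {𝒳 𝒳' : Set (Set X)} (h : FD adj base 𝒳)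
    (hs : ∀ Z ∈ 𝒳', ∃ T ∈ 𝒳, Z ⊆ T) : FD adj base 𝒳' :=
  h.mono (fun _ _ => True) (fun i => ⟨i, fun _ _ _ h => h⟩) (fun j => ⟨j, fun _ _ _ h => h⟩)
    fun Z hZ => ⟨fun _ _ _ _ => trivial, hs Z hZ⟩

/-- Push-forward along a map. -/
theorem FD.push {X' : Type u'} {𝒳 : Set (Set X')} (q : X' → X)
    (h : FD (fun i x y => adj i (q x) (q y)) (fun j x y => base j (q x) (q y)) 𝒳) :
    FD adj base ((fun Z => q '' Z) '' 𝒳) := by
  induction h with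
  | bdd 𝒳 j h =>
    refine FD.bdd _ j ?_
    rintro _ ⟨Z, hZ, rfl⟩ _ ⟨x, hx, rfl⟩ _ ⟨y, hy, rfl⟩
    exact h Z hZ x hx y hy
  | dec 𝒳 𝒴 h hd ih =>
    refine FD.dec _ (fun i => (fun Z => q '' Z) '' 𝒴 i) ih ?_
    rintro i _ ⟨Z, hZ, rfl⟩
    obtain ⟨𝒰, 𝒱, hU, hV, hT', hdU, hdV⟩ := hd i Z hZ
    have key : ∀ 𝒲 : Set (Set X'), Disj (fun x y => adj i (q x) (q y)) 𝒲 →
        Disj (adj i) ((fun Z => q '' Z) '' 𝒲) := by
      rintro 𝒲 hW _ ⟨U, hU, rfl⟩ _ ⟨V, hV, rfl⟩ _ ⟨x, hx, rfl⟩ _ ⟨y, hy, rfl⟩ hxy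
      simp only
      rw [hW U hU V hV x hx y hy hxy]
    refine ⟨_, _, Set.image_mono hU, Set.image_mono hV, ?_, key 𝒰 hdU, key 𝒱 hdV⟩
    change q '' Z = _
    conv_lhs => rw [hT']
    rw [Set.image_union, Set.sUnion_eq_biUnion, Set.sUnion_eq_biUnion, Set.image_iUnion₂,
      Set.image_iUnion₂, Set.sUnion_image, Set.sUnion_image]

/-- Fibering. -/
theorem FD.fib {J' : Type w'} {base' : J' → X → X → Prop} {𝒳 : Set (Set X)}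
    (h : FD adj base 𝒳)
    (h2 : ∀ j, FD adj base' {Z | ∀ x ∈ Z, ∀ y ∈ Z, base j x y}) : FD adj base' 𝒳 := by
  induction h with
  | bdd 𝒳 j h => exact (h2 j).subset fun Z hZ => h Z hZ
  | dec 𝒳 𝒴 h hd ih => exact FD.dec _ 𝒴 ih hd

/-- Fibering, with labels. -/
theorem FD.fib_lab {J' : Type w'} {base' : J' → X → X → Prop} {𝒳 : Set (Set X)}
    (h : FD adj base 𝒳)
    (h2 : ∀ j, ∀ (Z : Type u) (π : Z → X) (K : Type u) (κ : Z → K),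
      (∀ z z', κ z = κ z' → base j (π z) (π z')) →
      FD (fun i z z' => adj i (π z) (π z')) (fun j' z z' => base' j' (π z) (π z'))
        {T | ∀ z ∈ T, ∀ z' ∈ T, κ z = κ z'}) : FD adj base' 𝒳 := by
  refine h.fib fun j => ?_
  let Y : Type u := {p : X × Set X // p.1 ∈ p.2 ∧ ∀ x ∈ p.2, ∀ y ∈ p.2, base j x y}
  have h3 := h2 j Y (fun p => p.1.1) (Set X) (fun p => p.1.2) (by
      rintro ⟨⟨x, T⟩, hx, hT⟩ ⟨⟨x', T'⟩, hx', hT'⟩ h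
      have h4 : T = T' := h
      subst h4
      exact hT x hx x' hx')
  refine (FD.push (fun p : Y => p.1.1) h3).subset ?_
  intro Z hZ
  refine ⟨{p : Y | p.1.2 = Z}, fun p hp p' hp' => hp.trans hp'.symm, ?_⟩
  ext x
  constructor
  · rintro ⟨⟨⟨x', T⟩, hx', hT⟩, h4, rfl⟩
    have h5 : T = Z := h4
    subst h5
    exact hx'
  · intro hx
    exact ⟨⟨(x, Z), hx, hZ⟩, rfl, rfl⟩

/-- Two notions of boundedness at once. -/
theorem FD.prod {J' : Type w'} {base' : J' → X → X → Prop} {𝒳 : Set (Set X)}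
    (h : FD adj base 𝒳) (h' : FD adj base' {Set.univ}) :
    FD adj (fun (p : J × J') x y => base p.1 x y ∧ base' p.2 x y) 𝒳 :=
  h.fib fun j => h'.mono (fun x y => base j x y) (fun i => ⟨i, fun _ _ _ h => h⟩)
    (fun j' => ⟨(j, j'), fun _ _ h1 h2 => ⟨h1, h2⟩⟩)
    fun Z hZ => ⟨hZ, Set.univ, rfl, Set.subset_univ _⟩

/-- Union of two families. -/
theorem FD.union {𝒳 : Set (Set X)} (h : FD adj base 𝒳)
    (hdir : ∀ j j', ∃ k, ∀ x y, base j x y ∨ base j' x y → base k x y) :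
    ∀ {𝒳' : Set (Set X)}, FD adj base 𝒳' → FD adj base (𝒳 ∪ 𝒳') := by
  have triv : ∀ (i : I) (Z : Set X) (𝒴 : Set (Set X)), Z ∈ 𝒴 → Dcp (adj i) Z 𝒴 := by
    intro i Z 𝒴 hZ
    refine ⟨{Z}, ∅, Set.singleton_subset_iff.mpr hZ, Set.empty_subset _, by simp, ?_, ?_⟩
    · rintro U hU V hV _ _ _ _ _
      rw [Set.mem_singleton_iff] at hU hV
      rw [hU, hV]
    · rintro U hU
      exact absurd hU (Set.notMem_empty U)
  have mono : ∀ (i : I) (Z : Set X) (𝒴 𝒴' : Set (Set X)), 𝒴 ⊆ 𝒴' → Dcp (adj i) Z 𝒴 →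
      Dcp (adj i) Z 𝒴' := by
    rintro i Z 𝒴 𝒴' hs ⟨𝒰, 𝒱, hU, hV, h1, h2, h3⟩
    exact ⟨𝒰, 𝒱, hU.trans hs, hV.trans hs, h1, h2, h3⟩
  induction h with
  | bdd 𝒳 j h =>
    intro 𝒳' h'
    induction h' with
    | bdd 𝒳' j' h' =>
      obtain ⟨k, hk⟩ := hdir j j'
      refine FD.bdd _ k ?_
      rintro Z (hZ | hZ) x hx y hy
      · exact hk _ _ (Or.inl (h Z hZ x hx y hy))
      · exact hk _ _ (Or.inr (h' Z hZ x hx y hy))
    | dec 𝒳' 𝒴' h' hd' ih' =>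
      refine FD.dec _ (fun i => 𝒳 ∪ 𝒴' i) ih' ?_
      rintro i Z (hZ | hZ)
      · exact triv i Z _ (Or.inl hZ)
      · exact mono i Z _ _ Set.subset_union_right (hd' i Z hZ)
  | dec 𝒳 𝒴 h hd ih =>
    intro 𝒳' h'
    refine FD.dec _ (fun i => 𝒴 i ∪ 𝒳') (fun i => ih i h') ?_
    rintro i Z (hZ | hZ)
    · exact mono i Z _ _ Set.subset_union_left (hd i Z hZ)
    · exact triv i Z _ (Or.inr hZ)

/-- Decomposition into components. -/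
theorem FD.comp {𝒳 : Set (Set X)}
    (h : ∀ i, FD adj base {U | ∃ Z ∈ 𝒳, U ⊆ Z ∧ ∀ x ∈ U, ∀ y ∈ U,
      Relation.EqvGen (fun a b => adj i a b ∧ a ∈ Z ∧ b ∈ Z) x y}) : FD adj base 𝒳 := by
  refine FD.dec _ _ h ?_
  intro i Z hZ
  let r : X → X → Prop := Relation.EqvGen (fun a b => adj i a b ∧ a ∈ Z ∧ b ∈ Z)
  refine ⟨{U | ∃ x ∈ Z, U = {y | y ∈ Z ∧ r x y}}, ∅, ?_, Set.empty_subset _, ?_, ?_, ?_⟩
  · rintro _ ⟨x, _, rfl⟩
    refine ⟨Z, hZ, fun y hy => hy.1, fun y hy z hz => ?_⟩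
    exact Relation.EqvGen.trans _ _ _ (Relation.EqvGen.symm _ _ hy.2) hz.2
  · ext x
    constructor
    · intro hx
      exact Or.inl ⟨_, ⟨x, hx, rfl⟩, hx, Relation.EqvGen.refl x⟩
    · rintro (⟨_, ⟨y, _, rfl⟩, h2⟩ | ⟨_, h1, _⟩)
      · exact h2.1
      · exact absurd h1 (Set.notMem_empty _)
  · rintro _ ⟨x, _, rfl⟩ _ ⟨x', _, rfl⟩ y hy y' hy' hadj
    have h1 : r x x' := Relation.EqvGen.trans _ _ _ hy.2 (Relation.EqvGen.trans _ _ _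
      (Relation.EqvGen.rel _ _ ⟨hadj, hy.1, hy'.1⟩) (Relation.EqvGen.symm _ _ hy'.2))
    ext z
    constructor
    · rintro ⟨hz, hxz⟩
      exact ⟨hz, Relation.EqvGen.trans _ _ _ (Relation.EqvGen.symm _ _ h1) hxz⟩
    · rintro ⟨hz, hxz⟩
      exact ⟨hz, Relation.EqvGen.trans _ _ _ h1 hxz⟩
  · rintro U hU
    exact absurd hU (Set.notMem_empty U)

/-- Decomposition along a real function. -/
theorem FD.line {𝒳 : Set (Set X)} (f : Set X → X → ℝ)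
    (hf : ∀ i, ∃ R : ℝ, ∀ Z ∈ 𝒳, ∀ x ∈ Z, ∀ y ∈ Z, adj i x y → |f Z x - f Z y| ≤ R)
    (h : ∀ M : ℝ, FD adj base {U | ∃ Z ∈ 𝒳, U ⊆ Z ∧ ∀ x ∈ U, ∀ y ∈ U, |f Z x - f Z y| ≤ M}) :
    FD adj base 𝒳 := by
  choose R hR using hf
  let L : I → ℝ := fun i => max (R i) 0 + 1
  have hL : ∀ i, 0 < L i := fun i => by
    have : (0:ℝ) ≤ max (R i) 0 := le_max_right _ _
    simp only [L]
    linarith
  have hRL : ∀ i, R i < L i := fun i => by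
    have : R i ≤ max (R i) 0 := le_max_left _ _
    simp only [L]
    linarith
  refine FD.dec _ (fun i => {U | ∃ Z ∈ 𝒳, U ⊆ Z ∧ ∀ x ∈ U, ∀ y ∈ U, |f Z x - f Z y| ≤ L i})
    (fun i => h (L i)) ?_
  intro i Z hZ
  let P : ℤ → Set X := fun k => {x | x ∈ Z ∧ ⌊f Z x / L i⌋ = k}
  have hP : ∀ k, P k ∈ {U | ∃ Z ∈ 𝒳, U ⊆ Z ∧ ∀ x ∈ U, ∀ y ∈ U, |f Z x - f Z y| ≤ L i} := by
    intro k
    refine ⟨Z, hZ, fun x hx => hx.1, ?_⟩
    rintro x ⟨_, hx⟩ y ⟨_, hy⟩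
    rw [Int.floor_eq_iff] at hx hy
    have e1 := (le_div_iff₀ (hL i)).mp hx.1
    have e2 := (div_lt_iff₀ (hL i)).mp hx.2
    have e3 := (le_div_iff₀ (hL i)).mp hy.1
    have e4 := (div_lt_iff₀ (hL i)).mp hy.2
    rw [abs_le]
    constructor <;> nlinarith
  have key : ∀ k l : ℤ, k + 2 ≤ l → ∀ x ∈ P k, ∀ y ∈ P l, L i < |f Z x - f Z y| := by
    rintro k l hkl x ⟨_, hx⟩ y ⟨_, hy⟩
    rw [Int.floor_eq_iff] at hx hy
    have e2 := (div_lt_iff₀ (hL i)).mp hx.2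
    have e3 := (le_div_iff₀ (hL i)).mp hy.1
    have e5 : (k:ℝ) + 2 ≤ l := by exact_mod_cast hkl
    have e6 : ((k:ℝ) + 2) * L i ≤ l * L i := mul_le_mul_of_nonneg_right e5 (hL i).le
    rw [abs_sub_comm]
    refine lt_of_lt_of_le ?_ (le_abs_self _)
    nlinarith
  have hdisj : ∀ p : ℤ → Prop, (∀ k l, p k → p l → k < l → k + 2 ≤ l) →
      Disj (adj i) {U | ∃ k, p k ∧ U = P k} := by
    rintro p hp _ ⟨k, hk, rfl⟩ _ ⟨l, hl, rfl⟩ x hx y hy hxy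
    have h1 := hR i Z hZ x hx.1 y hy.1 hxy
    have h2 := hRL i
    rcases lt_trichotomy k l with h3 | h3 | h3
    · have h4 := key k l (hp k l hk hl h3) x hx y hy
      linarith
    · rw [h3]
    · have h4 := key l k (hp l k hl hk h3) y hy x hx
      rw [abs_sub_comm] at h4
      linarith
  refine ⟨{U | ∃ k, Even k ∧ U = P k}, {U | ∃ k, Odd k ∧ U = P k}, ?_, ?_, ?_,
    hdisj _ ?_, hdisj _ ?_⟩
  · rintro _ ⟨k, _, rfl⟩
    exact hP k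
  · rintro _ ⟨k, _, rfl⟩
    exact hP k
  · ext x
    constructor
    · intro hx
      rcases Int.even_or_odd ⌊f Z x / L i⌋ with h1 | h1
      · exact Or.inl ⟨_, ⟨_, h1, rfl⟩, hx, rfl⟩
      · exact Or.inr ⟨_, ⟨_, h1, rfl⟩, hx, rfl⟩
    · rintro (⟨_, ⟨k, _, rfl⟩, h2⟩ | ⟨_, ⟨k, _, rfl⟩, h2⟩)
      · exact h2.1
      · exact h2.1
  · intro k l hk hl hkl
    obtain ⟨a, ha⟩ := hk
    obtain ⟨b, hb⟩ := hl
    omega
  · intro k l hk hl hkl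
    obtain ⟨a, ha⟩ := hk
    obtain ⟨b, hb⟩ := hl
    omega

/-- Decomposition along finitely many real functions. -/
theorem FD.lines (n : ℕ) : ∀ {𝒳 : Set (Set X)} (f : Set X → Fin n → X → ℝ)
    (_ : ∀ i, ∃ R : ℝ, ∀ k, ∀ Z ∈ 𝒳, ∀ x ∈ Z, ∀ y ∈ Z, adj i x y → |f Z k x - f Z k y| ≤ R)
    (_ : ∀ M : ℝ, FD adj base {U | ∃ Z ∈ 𝒳, U ⊆ Z ∧ ∀ k, ∀ x ∈ U, ∀ y ∈ U,
      |f Z k x - f Z k y| ≤ M}), FD adj base 𝒳 := by
  induction n with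
  | zero =>
    intro 𝒳 f _ h
    exact (h 0).subset fun Z hZ => ⟨Z, hZ, subset_rfl, fun k => k.elim0⟩
  | succ n ih =>
    intro 𝒳 f hf h
    refine FD.line (fun Z => f Z 0) (fun i => ?_) fun M => ?_
    · obtain ⟨R, hR⟩ := hf i
      exact ⟨R, fun Z hZ x hx y hy hxy => hR 0 Z hZ x hx y hy hxy⟩
    · -- choose a parent for every member of the family
      classical
      let par : Set X → Set X := fun U =>
        if hU : ∃ Z ∈ 𝒳, U ⊆ Z ∧ ∀ x ∈ U, ∀ y ∈ U, |f Z 0 x - f Z 0 y| ≤ M then hU.choose else U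
      have hpar : ∀ U, (∃ Z ∈ 𝒳, U ⊆ Z ∧ ∀ x ∈ U, ∀ y ∈ U, |f Z 0 x - f Z 0 y| ≤ M) →
          par U ∈ 𝒳 ∧ U ⊆ par U ∧ ∀ x ∈ U, ∀ y ∈ U, |f (par U) 0 x - f (par U) 0 y| ≤ M := by
        intro U hU
        simp only [par, dif_pos hU]
        exact hU.choose_spec
      refine ih (fun U k x => f (par U) k.succ x) (fun i => ?_) fun M' => ?_
      · obtain ⟨R, hR⟩ := hf i
        refine ⟨R, fun k U hU x hx y hy hxy => ?_⟩
        obtain ⟨h1, h2, -⟩ := hpar U hU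
        exact hR k.succ _ h1 x (h2 hx) y (h2 hy) hxy
      · refine (h (max M M')).subset ?_
        rintro V ⟨U, hU, hVU, hV⟩
        obtain ⟨h1, h2, h3⟩ := hpar U hU
        refine ⟨par U, h1, hVU.trans h2, fun k => ?_⟩
        refine Fin.cases ?_ (fun k => ?_) k
        · intro x hx y hy
          exact (h3 x (hVU hx) y (hVU hy)).trans (le_max_left _ _)
        · intro x hx y hy
          exact (hV k x hx y hy).trans (le_max_right _ _)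

end Basic

end Pool.Agent.N506.FX
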