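import Pool.Agent.N506.FA

/-!
# Groups of finite decomposition complexity
-/

namespace Pool.Agent.N506.FX

universe u u' v v' w w'

/-- Finite unions. -/
theorem FD.labels {X : Type u} {I : Type v} {J : Type w} {adj : I → X → X → Prop}
    {base : J → X → X → Prop} {𝒲 : Set (Set X)} (hW : FD adj base 𝒲)
    (hdir : ∀ j j', ∃ k, ∀ x y, base j x y ∨ base j' x y → base k x y) (m : ℕ) :
    ∀ {𝒳 : Set (Set X)}, (∀ Z ∈ 𝒳, ∃ c : X → ℕ, (∀ x ∈ Z, c x < m) ∧
      ∀ k, {x | x ∈ Z ∧ c x = k} ∈ 𝒲) → FD adj base 𝒳 := by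
  induction m with
  | zero =>
    intro 𝒳 h
    refine hW.subset fun Z hZ => ?_
    obtain ⟨c, hc, hk⟩ := h Z hZ
    have h1 := hk 0
    have h2 : {x | x ∈ Z ∧ c x = 0} = Z := by
      ext x
      exact ⟨fun h => h.1, fun h => absurd (hc x h) (Nat.not_lt_zero _)⟩
    rwa [h2] at h1
  | succ m ih =>
    intro 𝒳 h
    let 𝒳' : Set (Set X) := {Z | ∃ c : X → ℕ, (∀ x ∈ Z, c x < m) ∧
      ∀ k, k < m → {x | x ∈ Z ∧ c x = k} ∈ 𝒲}
    by_cases hm : m = 0
    · subst hm
      refine hW.subset fun Z hZ => ?_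
      obtain ⟨c, hc, hk⟩ := h Z hZ
      have h1 := hk 0
      have h2 : {x | x ∈ Z ∧ c x = 0} = Z := by
        ext x
        exact ⟨fun h => h.1, fun h => ⟨h, by have := hc x h; omega⟩⟩
      rwa [h2] at h1
    have hX' : FD adj base (𝒲 ∪ {Z | ∃ c : X → ℕ, (∀ x ∈ Z, c x < m) ∧
        ∀ k, {x | x ∈ Z ∧ c x = k} ∈ 𝒲}) := hW.union hdir (ih fun Z hZ => hZ)
    refine FD.dec _ (fun _ => 𝒲 ∪ {Z | ∃ c : X → ℕ, (∀ x ∈ Z, c x < m) ∧
        ∀ k, {x | x ∈ Z ∧ c x = k} ∈ 𝒲}) (fun _ => hX') ?_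
    intro i Z hZ
    obtain ⟨c, hc, hk⟩ := h Z hZ
    have hsing : ∀ (A : Set X), Disj (adj i) {A} := by
      intro A U hU V hV _ _ _ _ _
      rw [Set.mem_singleton_iff] at hU hV
      rw [hU, hV]
    -- the last label is merged with the empty label values
    refine ⟨{{x | x ∈ Z ∧ c x = m}}, {{x | x ∈ Z ∧ c x < m}}, ?_, ?_, ?_, hsing _, hsing _⟩
    · rw [Set.singleton_subset_iff]
      exact Or.inl (hk m)
    · rw [Set.singleton_subset_iff]
      refine Or.inr ⟨c, fun x hx => hx.2, fun k => ?_⟩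
      rcases Nat.lt_or_ge k m with hkm | hkm
      · have h2 : {x | x ∈ {x | x ∈ Z ∧ c x < m} ∧ c x = k} = {x | x ∈ Z ∧ c x = k} := by
          ext x
          exact ⟨fun h => ⟨h.1.1, h.2⟩, fun h => ⟨⟨h.1, h.2 ▸ hkm⟩, h.2⟩⟩
        rw [h2]
        exact hk k
      · have h2 : {x | x ∈ {x | x ∈ Z ∧ c x < m} ∧ c x = k} = {x | x ∈ Z ∧ c x = m + 1} := by
          ext x
          constructor
          · intro h
            have h3 : c x < m := h.1.2
            have h4 : c x = k := h.2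
            omega
          · intro h
            have h3 := hc x h.1
            have h4 : c x = m + 1 := h.2
            omega
        rw [h2]
        exact hk (m + 1)
    · rw [Set.sUnion_singleton, Set.sUnion_singleton]
      ext x
      constructor
      · intro hx
        rcases Nat.lt_or_ge (c x) m with h1 | h1
        · exact Or.inr ⟨hx, h1⟩
        · have h2 := hc x hx
          exact Or.inl ⟨hx, by omega⟩
      · rintro (h1 | h1)
        · exact h1.1
        · exact h1.1

section Groups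

variable {G : Type u} [Group G]

theorem cl_dir (F F' : Finset G) :
    ∃ F'' : Finset G, ∀ x y, cl G F x y ∨ cl G F' x y → cl G F'' x y := by
  classical
  refine ⟨F ∪ F', ?_⟩
  rintro x y (h | h)
  · exact Finset.mem_union_left _ h
  · exact Finset.mem_union_right _ h

theorem FDC.of_finite [Finite G] : FDC G := by
  have := Fintype.ofFinite G
  exact FD.bdd _ Finset.univ fun Z _ x _ y _ => Finset.mem_univ _

theorem FDC.of_injective {G' : Type v} [Group G'] (h : FDC G') (q : G →* G')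
    (hq : Function.Injective q) : FDC G := by
  classical
  refine (FD.map h q (fun _ _ => True) ?_ ?_).subset ?_
  · intro F
    refine ⟨F.image q, fun x y _ hxy => ?_⟩
    change (q x)⁻¹ * q y ∈ F.image q
    rw [← map_inv, ← map_mul]
    exact Finset.mem_image_of_mem q hxy
  · intro E
    refine ⟨E.preimage q hq.injOn, fun x y _ hxy => ?_⟩
    change x⁻¹ * y ∈ E.preimage q hq.injOn
    rw [Finset.mem_preimage, map_mul, map_inv]
    exact hxy
  · intro Z _
    exact ⟨fun _ _ _ _ => trivial, Set.univ, rfl, fun _ _ => trivial⟩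

/-- Uniform version for the cosets of a subgroup. -/
theorem FDC.cosets (H : Subgroup G) (h : FDC H) :
    FD (cl G) (cl G) {Z | ∀ x ∈ Z, ∀ y ∈ Z, x⁻¹ * y ∈ H} := by
  classical
  let rep : G → G := fun g => (QuotientGroup.mk g : G ⧸ H).out
  have hrep : ∀ g, (rep g)⁻¹ * g ∈ H := fun g =>
    QuotientGroup.leftRel_apply.mp (Quotient.mk_out (s := QuotientGroup.leftRel H) g)
  have hsame : ∀ x y, x⁻¹ * y ∈ H → rep x = rep y := by
    intro x y hxy
    have h1 : (QuotientGroup.mk x : G ⧸ H) = QuotientGroup.mk y := QuotientGroup.eq.mpr hxy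
    simp only [rep, h1]
  let q : G → H := fun g => ⟨(rep g)⁻¹ * g, hrep g⟩
  have hq : ∀ x y, x⁻¹ * y ∈ H → (((q x)⁻¹ * q y : H) : G) = x⁻¹ * y := by
    intro x y hxy
    have h1 := hsame x y hxy
    change ((rep x)⁻¹ * x)⁻¹ * ((rep y)⁻¹ * y) = x⁻¹ * y
    rw [h1]
    group
  refine (FD.map h q (fun x y => x⁻¹ * y ∈ H) ?_ ?_).subset ?_
  · intro F
    refine ⟨F.preimage (fun h : H => (h : G)) Subtype.val_injective.injOn, fun x y hg hxy => ?_⟩
    change (q x)⁻¹ * q y ∈ _
    rw [Finset.mem_preimage, hq x y hg]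
    exact hxy
  · intro E
    refine ⟨E.image (fun h : H => (h : G)), fun x y hg hxy => ?_⟩
    change x⁻¹ * y ∈ _
    rw [← hq x y hg]
    exact Finset.mem_image_of_mem _ hxy
  · intro Z hZ
    exact ⟨hZ, Set.univ, rfl, fun _ _ => trivial⟩

/-- Finite decomposition complexity is a local property. -/
theorem FDC.of_fg (h : ∀ H : Subgroup G, H.FG → FDC H) : FDC G := by
  classical
  refine FD.comp fun F => ?_
  refine (FDC.cosets (Subgroup.closure (F : Set G)) (h _ ⟨F, rfl⟩)).subset ?_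
  rintro U ⟨Z, _, _, hU⟩ x hx y hy
  have h1 := hU x hx y hy
  clear hU hx hy
  induction h1 with
  | rel x y h => exact Subgroup.subset_closure h.1
  | refl x => simp
  | symm x y _ ih =>
    have := Subgroup.inv_mem _ ih
    rwa [mul_inv_rev, inv_inv] at this
  | trans x y z _ _ ih1 ih2 =>
    have := Subgroup.mul_mem _ ih1 ih2
    rwa [mul_assoc, mul_inv_cancel_left] at this

/-- Extensions. -/
theorem FDC.ext {L : Type v} [Group L] (π : G →* L) (hL : FDC L) (hK : FDC π.ker) : FDC G := by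
  classical
  have h1 : FD (cl G) (fun (E : Finset L) x y => (π x)⁻¹ * π y ∈ E) {Set.univ} := by
    refine (FD.map hL π (fun _ _ => True) ?_ ?_).subset ?_
    · intro F
      refine ⟨F.image π, fun x y _ hxy => ?_⟩
      change (π x)⁻¹ * π y ∈ F.image π
      rw [← map_inv, ← map_mul]
      exact Finset.mem_image_of_mem π hxy
    · intro E
      exact ⟨E, fun x y _ hxy => hxy⟩
    · intro Z _
      exact ⟨fun _ _ _ _ => trivial, Set.univ, rfl, fun _ _ => trivial⟩
  refine h1.fib fun E => ?_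
  refine FD.labels (FDC.cosets π.ker hK) cl_dir E.toList.length ?_
  intro Z hZ
  rcases Set.eq_empty_or_nonempty Z with rfl | ⟨x₀, hx₀⟩
  · refine ⟨fun _ => 0, fun x hx => absurd hx (Set.notMem_empty x), fun k => ?_⟩
    intro x hx
    exact absurd hx.1 (Set.notMem_empty x)
  · refine ⟨fun x => E.toList.idxOf ((π x₀)⁻¹ * π x), fun x hx => ?_, fun k => ?_⟩
    · exact List.idxOf_lt_length_of_mem (Finset.mem_toList.mpr (hZ x₀ hx₀ x hx))
    · rintro x ⟨hx, hxk⟩ y ⟨hy, hyk⟩
      have h2 : (π x₀)⁻¹ * π x = (π x₀)⁻¹ * π y :=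
        (List.idxOf_inj (Finset.mem_toList.mpr (hZ x₀ hx₀ x hx))).mp (hxk.trans hyk.symm)
      rw [MonoidHom.mem_ker, map_mul, map_inv, mul_left_cancel h2, inv_mul_cancel]

theorem FDC.subgroup (h : FDC G) (H : Subgroup G) : FDC H :=
  h.of_injective H.subtype H.subtype_injective

theorem FDC.equiv {G' : Type v} [Group G'] (e : G ≃* G') : FDC G ↔ FDC G' :=
  ⟨fun h => h.of_injective e.symm.toMonoidHom e.symm.injective,
    fun h => h.of_injective e.toMonoidHom e.injective⟩

theorem FDC.prod {G' : Type v} [Group G'] (h : FDC G) (h' : FDC G') : FDC (G × G') := by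
  refine FDC.ext (MonoidHom.fst G G') h ?_
  refine h'.of_injective ((MonoidHom.snd G G').comp (MonoidHom.fst G G').ker.subtype) ?_
  rintro ⟨⟨a, b⟩, ha⟩ ⟨⟨c, d⟩, hc⟩ hab
  have h1 : a = 1 := ha
  have h2 : c = 1 := hc
  have h3 : b = d := hab
  subst h1 h2 h3
  rfl

theorem FDC.int (n : ℕ) : FDC (Fin n → Multiplicative ℤ) := by
  classical
  refine FD.lines n (fun _ k x => ((Multiplicative.toAdd (x k) : ℤ) : ℝ)) (fun F => ?_) fun M => ?_
  · obtain ⟨R, hR⟩ := (((F : Set (Fin n → Multiplicative ℤ)).toFinite.prod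
      (Set.toFinite (Set.univ : Set (Fin n)))).image
      (fun p => |((Multiplicative.toAdd (p.1 p.2) : ℤ) : ℝ)|)).bddAbove
    refine ⟨R, fun k Z _ x _ y _ hxy => ?_⟩
    refine hR ⟨(x⁻¹ * y, k), ⟨hxy, trivial⟩, ?_⟩
    simp only [Pi.mul_apply, Pi.inv_apply, toAdd_mul, toAdd_inv]
    push_cast
    rw [← abs_neg]
    congr 1
    ring
  · obtain ⟨N, hN⟩ := exists_nat_ge M
    have hfin : {x : Fin n → Multiplicative ℤ | ∀ k, x k ∈
        {z : Multiplicative ℤ | Multiplicative.toAdd z ∈ Set.Icc (-(N:ℤ)) N}}.Finite := by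
      refine Set.Finite.pi' fun _ => ?_
      exact (Set.finite_Icc (-(N:ℤ)) N).preimage (Multiplicative.toAdd.injective.injOn)
    refine FD.bdd _ hfin.toFinset ?_
    rintro U ⟨Z, _, _, hU⟩ x hx y hy
    change x⁻¹ * y ∈ _
    rw [Set.Finite.mem_toFinset]
    intro k
    have h1 := (hU k x hx y hy).trans hN
    change Multiplicative.toAdd ((x k)⁻¹ * y k) ∈ Set.Icc (-(N:ℤ)) N
    rw [toAdd_mul, toAdd_inv, Set.mem_Icc]
    rw [abs_le] at h1
    obtain ⟨h2, h3⟩ := h1
    constructor
    · have : (-(N:ℝ)) ≤ ((-(Multiplicative.toAdd (x k)) + Multiplicative.toAdd (y k) : ℤ) : ℝ) := by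
        push_cast
        linarith
      exact_mod_cast this
    · have : ((-(Multiplicative.toAdd (x k)) + Multiplicative.toAdd (y k) : ℤ) : ℝ) ≤ N := by
        push_cast
        linarith
      exact_mod_cast this

end Groups

/-- Abelian groups. -/
theorem FDC.comm (G : Type u) [CommGroup G] : FDC G := by
  refine FDC.of_fg fun H hH => ?_
  have : Group.FG H := (Group.fg_iff_subgroup_fg H).mpr hH
  obtain ⟨ι, j, _, _, p, hp, e, ⟨f⟩⟩ := CommGroup.equiv_free_prod_prod_multiplicative_zmod H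
  have hfin : ∀ i, NeZero (p i ^ e i) := fun i => ⟨pow_ne_zero _ (hp i).ne_zero⟩
  have : Finite ((i : ι) → Multiplicative (ZMod (p i ^ e i))) := by
    have : ∀ i, Finite (Multiplicative (ZMod (p i ^ e i))) := fun i => inferInstance
    exact Pi.finite
  refine (FDC.equiv f).mpr (FDC.prod ?_ FDC.of_finite)
  let g := Fintype.equivFin j
  refine (FDC.int (Fintype.card j)).of_injective
    (G := j → Multiplicative ℤ)
    { toFun := fun a i => a (g.symm i)
      map_one' := rfl
      map_mul' := fun _ _ => rfl } ?_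
  intro a b hab
  funext i
  have := congrFun hab (g i)
  simpa using this

end Pool.Agent.N506.FX
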