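import Pool.Agent.N506.FB
import Pool.Agent.N506.EYC

/-!
# Spaces of lattices have finite decomposition complexity
-/

namespace Pool.Agent.N506.FX

open Pool.Agent.N506.EX

universe u v w

section Place

variable {D : Type v} [DivisionRing D] {V : DV D} {n : ℕ} {X : Type u}

/-- A vector with coordinate one. -/
theorem exists_unit_vec (g : LatS V n) (i : Fin n) :
    ∃ w : Fin n → D, w ∈ g.L (-(g.mn i)) ∧ w ∈ flag D n (i + 1) ∧ w i = 1 := by
  obtain ⟨⟨w, hw, hwf, hw0, hwa⟩, -⟩ := g.mn_spec i
  refine ⟨fun j => w j * (w i)⁻¹, ?_, ?_, mul_inv_cancel₀ hw0⟩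
  · have h1 : (w i)⁻¹ ∈ V.O (-(g.mn i)) := Or.inr (by rw [V.v_inv hw0, hwa])
    have := g.mul _ _ _ _ hw h1
    rwa [zero_add] at this
  · intro j hj
    simp [hwf j hj]

theorem eqvGen_mem {r : X → X → Prop} {Z : Set X} {x y : X}
    (h : Relation.EqvGen (fun a b => r a b ∧ a ∈ Z ∧ b ∈ Z) x y) : (x ∈ Z ∧ y ∈ Z) ∨ x = y := by
  induction h with
  | rel x y h => exact Or.inl h.2
  | refl x => exact Or.inr rfl
  | symm x y _ ih =>
    rcases ih with h | h
    · exact Or.inl ⟨h.2, h.1⟩
    · exact Or.inr h.symm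
  | trans x y z _ _ ih1 ih2 =>
    rcases ih1 with h1 | h1
    · rcases ih2 with h2 | h2
      · exact Or.inl ⟨h1.1, h2.2⟩
      · exact Or.inl ⟨h1.1, h2 ▸ h1.2⟩
    · rw [h1]
      exact ih2

theorem lat_chain (L : X → LatS V n) (M R : ℕ) (k : ℕ) (hk : k ≤ n) :
    ∃ S : ℕ, ∀ Z : Set X, (∀ i, ∀ x ∈ Z, ∀ y ∈ Z, (L x).mn i - (L y).mn i ≤ M) →
      ∀ x y, Relation.EqvGen (fun a b => Close (L a) (L b) R ∧ a ∈ Z ∧ b ∈ Z) x y →
        ∀ m : ℤ, (L x).L (m + S) ⊓ flag D n k ≤ (L y).L m := by
  induction k with
  | zero =>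
    refine ⟨0, fun Z _ x y _ m u hu => ?_⟩
    have : u = 0 := by
      ext j
      exact hu.2 j (Nat.zero_le _)
    rw [this]
    exact AddSubgroup.zero_mem _
  | succ k ih =>
    obtain ⟨S, hS⟩ := ih (Nat.le_of_succ_le hk)
    refine ⟨S + 3 * M + R, fun Z hZ => ?_⟩
    have hS' := hS Z hZ
    let i : Fin n := ⟨k, hk⟩
    choose w hw hwf hw1 using fun x => exists_unit_vec (L x) i
    -- differences along chains
    have hdiff : ∀ x y, Relation.EqvGen (fun a b => Close (L a) (L b) R ∧ a ∈ Z ∧ b ∈ Z) x y →
        ∀ z, Relation.EqvGen (fun a b => Close (L a) (L b) R ∧ a ∈ Z ∧ b ∈ Z) x z →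
          w y - w x ∈ (L z).L (-((L z).mn i) - 2 * M - R - S) := by
      intro x y hxy
      induction hxy with
      | rel x y h =>
        intro z hz
        obtain ⟨hc, hx, hy⟩ := h
        have hzZ : z ∈ Z := by
          rcases eqvGen_mem hz with h1 | h1
          · exact h1.2
          · rw [← h1]; exact hx
        have h1 : w y - w x ∈ flag D n k := by
          intro j hj
          rcases Nat.lt_or_ge k j with hkj | hkj
          · have h1 := hwf y j hkj
            have h2 := hwf x j hkj
            simp [h1, h2]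
          · have hji : j = i := Fin.ext (le_antisymm hkj hj)
            subst hji
            simp only [Pi.sub_apply]
            rw [hw1, hw1, sub_self]
        have e1 := hZ i x hx y hy
        have e2 := hZ i y hy x hx
        have e3 := hZ i x hx z hzZ
        have h2 : w y - w x ∈ (L x).L (-((L x).mn i) - M - R) := by
          refine AddSubgroup.sub_mem _ ?_ ((L x).anti _ _ (by omega) (hw x))
          have h3 := (hc (-((L y).mn i))).1 (hw y)
          exact (L x).anti _ _ (by omega) h3
        have h3 := hS' x z hz (-((L x).mn i) - M - R - S) ⟨by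
          rw [sub_add_cancel]; exact h2, h1⟩
        exact (L z).anti _ _ (by omega) h3
      | refl x =>
        intro z _
        rw [sub_self]
        exact AddSubgroup.zero_mem _
      | symm x y hxy ih =>
        intro z hz
        have := AddSubgroup.neg_mem _ (ih z (Relation.EqvGen.trans _ _ _ hxy hz))
        rwa [neg_sub] at this
      | trans x y z' hxy hyz ih1 ih2 =>
        intro z hz
        have h1 := ih1 z hz
        have h2 := ih2 z (Relation.EqvGen.trans _ _ _ (Relation.EqvGen.symm _ _ hxy) hz)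
        have := AddSubgroup.add_mem _ h2 h1
        rwa [sub_add_sub_cancel] at this
    intro x y hxy m u hu
    obtain ⟨hu1, huf⟩ := hu
    rcases eqvGen_mem hxy with ⟨hx, hy⟩ | hxy'
    · have e1 := hZ i x hx y hy
      have e2 := hZ i y hy x hx
      have hui := (L x).mn_le i hu1 huf
      have h1 : (fun j => w x j * u i) ∈ (L x).L (m + (S + 3 * M + R : ℕ)) := by
        have := (L x).mul _ _ _ _ (hw x) hui
        convert this using 2
        ring
      have h2 : u - (fun j => w x j * u i) ∈ flag D n k := by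
        intro j hj
        rcases Nat.lt_or_ge k j with hkj | hkj
        · have h1 := huf j hkj
          have h2 := hwf x j hkj
          simp [h1, h2]
        · have hji : j = i := Fin.ext (le_antisymm hkj hj)
          subst hji
          simp only [Pi.sub_apply]
          rw [hw1, one_mul, sub_self]
      have h3 : u - (fun j => w x j * u i) ∈ (L y).L m := by
        refine hS' x y hxy m ⟨?_, h2⟩
        exact (L x).anti _ _ (by push_cast; omega) (AddSubgroup.sub_mem _ hu1 h1)
      have h4 : (fun j => w y j * u i) ∈ (L y).L m := by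
        have := (L y).mul _ _ _ _ (hw y) hui
        exact (L y).anti _ _ (by push_cast; omega) this
      have h5 : (fun j => (w y - w x) j * u i) ∈ (L y).L m := by
        have := (L y).mul _ _ _ _ (hdiff x y hxy y hxy) hui
        exact (L y).anti _ _ (by push_cast; omega) this
      have h6 := AddSubgroup.add_mem _ h3 (AddSubgroup.sub_mem _ h4 h5)
      convert h6 using 1
      funext j
      simp only [Pi.add_apply, Pi.sub_apply, sub_mul]
      abel
    · rw [← hxy']
      exact (L x).anti _ _ (by push_cast; omega) hu1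

/-- The space of lattices has finite decomposition complexity. -/
theorem lat_fd (L : X → LatS V n) :
    FD (fun (R : ℕ) x y => Close (L x) (L y) R)
      (fun (S : ℕ) x y => (L x).L S ≤ (L y).L 0 ∧ (L y).L S ≤ (L x).L 0) {Set.univ} := by
  refine FD.lines n (fun _ k x => (((L x).mn k : ℤ) : ℝ)) (fun R => ?_) fun M => ?_
  · refine ⟨R, fun k Z _ x _ y _ hxy => ?_⟩
    have h1 := LatS.mn_close hxy k
    have h2 := LatS.mn_close hxy.symm k
    rw [abs_le]
    constructor
    · have : (-(R:ℤ)) ≤ (L x).mn k - (L y).mn k := by omega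
      exact_mod_cast this
    · have : (L x).mn k - (L y).mn k ≤ (R:ℤ) := by omega
      exact_mod_cast this
  · obtain ⟨N, hN⟩ := exists_nat_ge M
    refine FD.comp fun R => ?_
    obtain ⟨S, hS⟩ := lat_chain L N R n le_rfl
    refine FD.bdd _ S ?_
    rintro U ⟨Z, ⟨Z', _, _, hZ⟩, _, hU⟩ x hx y hy
    have hZ2 : ∀ i, ∀ x ∈ Z, ∀ y ∈ Z, (L x).mn i - (L y).mn i ≤ N := by
      intro i x hx y hy
      have h1 := (le_abs_self _).trans ((hZ i x hx y hy).trans hN)
      exact_mod_cast h1
    have htop : ∀ u : Fin n → D, u ∈ flag D n n := fun u j hj => absurd j.2 (not_lt.mpr hj)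
    have key : ∀ x y, Relation.EqvGen (fun a b => Close (L a) (L b) R ∧ a ∈ Z ∧ b ∈ Z) x y →
        (L x).L S ≤ (L y).L 0 := by
      intro x y hxy u hu
      refine hS Z hZ2 x y hxy 0 ⟨?_, htop u⟩
      rwa [zero_add]
    exact ⟨key x y (hU x hx y hy), key y x (hU y hy x hx)⟩

end Place

end Pool.Agent.N506.FX
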