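import Pool.Agent.N506.FD1
import Pool.Agent.N506.EYD

/-!
# The real place
-/

namespace Pool.Agent.N506.FX

open Pool.Agent.N506.EX Matrix

universe u v w

section Tri

variable {n : ℕ} {X : Type u} {E : X → X → Matrix (Fin n) (Fin n) ℝ}

/-- The sets on which the first `d` diagonals are bounded by `M`. -/
def fam (E : X → X → Matrix (Fin n) (Fin n) ℝ) (d : ℕ) (M : ℝ) : Set (Set X) :=
  {Z | ∀ x ∈ Z, ∀ y ∈ Z, ∀ i j : Fin n, (j : ℕ) ≤ i → (i : ℕ) < j + d → |E x y i j| ≤ M}

theorem diag_mul (hlow : ∀ x y, Low (E x y)) (hmul : ∀ x y z, E x z = E x y * E y z)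
    (x y z : X) (i : Fin n) : E x z i i = E x y i i * E y z i i := by
  rw [hmul x y z, Matrix.mul_apply, Finset.sum_eq_single i]
  · intro l _ hl
    rcases lt_or_gt_of_ne hl with h | h
    · rw [hlow y z l i h, mul_zero]
    · rw [hlow x y i l h, zero_mul]
  · intro h
    exact absurd (Finset.mem_univ i) h

theorem diag_inv (hlow : ∀ x y, Low (E x y)) (hmul : ∀ x y z, E x z = E x y * E y z)
    (hone : ∀ x, E x x = 1) (x y : X) (i : Fin n) : E x y i i * E y x i i = 1 := by
  rw [← diag_mul hlow hmul x y x i, hone, Matrix.one_apply_eq]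

theorem fam_step (hlow : ∀ x y, Low (E x y)) (hmul : ∀ x y z, E x z = E x y * E y z)
    (hone : ∀ x, E x x = 1) {J : Type w} {base : J → X → X → Prop} (d : ℕ) (hd : 1 ≤ d)
    (h : ∀ M, FD (fun (r : ℕ) x y => Bd r (E x y) ∧ Bd r (E y x)) base (fam E (d + 1) M)) :
    ∀ M, FD (fun (r : ℕ) x y => Bd r (E x y) ∧ Bd r (E y x)) base (fam E d M) := by
  classical
  intro M0
  -- make the bound nonnegative
  obtain ⟨M, hM0, hMM⟩ : ∃ M : ℝ, 0 ≤ M ∧ M0 ≤ M := ⟨max M0 0, le_max_right _ _, le_max_left _ _⟩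
  let bp : Set X → X → X := fun Z x => if hZ : Z.Nonempty then hZ.some else x
  have hbp : ∀ (Z : Set X) (x : X), x ∈ Z → bp Z x ∈ Z ∧ ∀ y, bp Z y = bp Z x := by
    intro Z x hx
    have hZ : Z.Nonempty := ⟨x, hx⟩
    simp only [bp, dif_pos hZ]
    exact ⟨hZ.some_mem, fun _ => trivial⟩
  let ix : Fin n → Fin n := fun k => ⟨(k : ℕ) - d, by omega⟩
  let c : X → X → Fin n → ℝ := fun x₀ x k => E x₀ x k (ix k) * E x x₀ (ix k) (ix k)
  let f : Set X → Fin n → X → ℝ := fun Z k x => if d ≤ (k : ℕ) then c (bp Z x) x k else 0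
  -- the increments of `c`
  have hc : ∀ (x₀ x y : X) (k : Fin n), c x₀ y k = c x₀ x k +
      ∑ l ∈ Finset.univ.erase (ix k), E x₀ x k l * E x y l (ix k) * E y x₀ (ix k) (ix k) := by
    intro x₀ x y k
    simp only [c]
    rw [hmul x₀ x y, Matrix.mul_apply, Finset.sum_mul,
      ← Finset.add_sum_erase _ _ (Finset.mem_univ (ix k))]
    congr 1
    rw [diag_mul hlow hmul y x x₀ (ix k)]
    have h1 := diag_inv hlow hmul hone x y (ix k)
    calc E x₀ x k (ix k) * E x y (ix k) (ix k) * (E y x (ix k) (ix k) * E x x₀ (ix k) (ix k))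
        = E x₀ x k (ix k) * (E x y (ix k) (ix k) * E y x (ix k) (ix k)) *
          E x x₀ (ix k) (ix k) := by ring
      _ = _ := by rw [h1, mul_one]
  refine FD.lines n f (fun r => ?_) fun M1 => ?_
  · refine ⟨n * (M * r * M), fun k Z hZ x hx y hy hxy => ?_⟩
    simp only [f]
    split_ifs with hk
    · obtain ⟨hb, hb'⟩ := hbp Z x hx
      rw [hb' y]
      set x₀ := bp Z x
      rw [hc x₀ x y k, sub_add_cancel_left, abs_neg]
      refine (Finset.abs_sum_le_sum_abs _ _).trans ?_
      have hterm : ∀ l ∈ Finset.univ.erase (ix k),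
          |E x₀ x k l * E x y l (ix k) * E y x₀ (ix k) (ix k)| ≤ M * r * M := by
        intro l hl
        have hl' := Finset.ne_of_mem_erase hl
        have h3 : |E y x₀ (ix k) (ix k)| ≤ M :=
          (hZ y hy x₀ hb (ix k) (ix k) le_rfl (by omega)).trans hMM
        rw [abs_mul, abs_mul]
        rcases lt_or_gt_of_ne hl' with h1 | h1
        · rw [hlow x y l (ix k) h1, abs_zero, mul_zero, zero_mul]
          positivity
        · rcases lt_or_ge k l with h2 | h2
          · rw [hlow x₀ x k l h2, abs_zero, zero_mul, zero_mul]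
            positivity
          · have h4 : |E x₀ x k l| ≤ M := by
              refine (hZ x₀ hb x hx k l h2 ?_).trans hMM
              have h5 : (ix k : ℕ) < l := h1
              simp only [ix] at h5
              omega
            have h5 := hxy.1 l (ix k)
            exact mul_le_mul (mul_le_mul h4 h5 (abs_nonneg _) hM0) h3 (abs_nonneg _)
              (by positivity)
      refine (Finset.sum_le_sum hterm).trans ?_
      rw [Finset.sum_const, nsmul_eq_mul]
      refine mul_le_mul_of_nonneg_right ?_ (by positivity)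
      have : (Finset.univ.erase (ix k)).card ≤ n := by
        refine (Finset.card_erase_le).trans ?_
        simp
      exact_mod_cast this
    · rw [sub_self, abs_zero]
      positivity
  · -- the pieces
    refine (h (max M (M * M * (M1 + n * (M * M * M))))).subset ?_
    rintro U ⟨Z, hZ, hUZ, hU⟩ x hx y hy i j hji hij
    rcases Nat.lt_or_ge (i : ℕ) (j + d) with h1 | h1
    · exact ((hZ x (hUZ hx) y (hUZ hy) i j hji h1).trans hMM).trans (le_max_left _ _)
    · refine le_trans ?_ (le_max_right _ _)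
      have hk : d ≤ (i : ℕ) := by omega
      have hj : ix i = j := Fin.ext (by simp only [ix]; omega)
      have hne : i ≠ j := fun h => by
        have := congrArg Fin.val h
        omega
      obtain ⟨hb, hb'⟩ := hbp Z x (hUZ hx)
      have h2 := hU i x hx y hy
      simp only [f, if_pos hk] at h2
      rw [hb' y] at h2
      set x₀ := bp Z x
      have h3 := hc x₀ x y i
      rw [← Finset.add_sum_erase _ _ (Finset.mem_erase.mpr ⟨by rw [hj]; exact hne,
        Finset.mem_univ i⟩), hj] at h3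
      set T := ∑ l ∈ (Finset.univ.erase j).erase i,
        E x₀ x i l * E x y l j * E y x₀ j j with hT
      have hTb : |T| ≤ n * (M * M * M) := by
        refine (Finset.abs_sum_le_sum_abs _ _).trans ?_
        have hterm : ∀ l ∈ (Finset.univ.erase j).erase i,
            |E x₀ x i l * E x y l j * E y x₀ j j| ≤ M * M * M := by
          intro l hl
          have hli := Finset.ne_of_mem_erase hl
          have hlj := Finset.ne_of_mem_erase (Finset.mem_of_mem_erase hl)
          have h5 : |E y x₀ j j| ≤ M :=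
            (hZ y (hUZ hy) x₀ hb j j le_rfl (by omega)).trans hMM
          rw [abs_mul, abs_mul]
          rcases lt_or_gt_of_ne hlj with h6 | h6
          · rw [hlow x y l j h6, abs_zero, mul_zero, zero_mul]
            positivity
          · rcases lt_or_gt_of_ne hli with h7 | h7
            · have h8 : |E x₀ x i l| ≤ M := (hZ x₀ hb x (hUZ hx) i l h7.le (by
                have : (j : ℕ) < l := h6
                omega)).trans hMM
              have h9 : |E x y l j| ≤ M := (hZ x (hUZ hx) y (hUZ hy) l j h6.le (by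
                have : (l : ℕ) < i := h7
                omega)).trans hMM
              exact mul_le_mul (mul_le_mul h8 h9 (abs_nonneg _) hM0) h5 (abs_nonneg _)
                (by positivity)
            · rw [hlow x₀ x i l h7, abs_zero, zero_mul, zero_mul]
              positivity
        refine (Finset.sum_le_sum hterm).trans ?_
        rw [Finset.sum_const, nsmul_eq_mul]
        refine mul_le_mul_of_nonneg_right ?_ (by positivity)
        have : ((Finset.univ.erase j).erase i).card ≤ n := by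
          refine (Finset.card_erase_le).trans ((Finset.card_erase_le).trans ?_)
          simp
        exact_mod_cast this
      -- solve for the entry
      have e1 := diag_inv hlow hmul hone x x₀ i
      have e2 := diag_inv hlow hmul hone x₀ y j
      have h4 : E x y i j = E x x₀ i i * E x₀ y j j * ((c x₀ y i - c x₀ x i) - T) := by
        have h5 : c x₀ y i - c x₀ x i - T = E x₀ x i i * E x y i j * E y x₀ j j := by
          rw [h3]
          ring
        rw [h5]
        calc E x y i j = (E x x₀ i i * E x₀ x i i) * (E x₀ y j j * E y x₀ j j) * E x y i j := by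
              rw [e1, e2]
              ring
          _ = _ := by ring
      rw [h4, abs_mul, abs_mul]
      have h6 : |E x x₀ i i| ≤ M := (hZ x (hUZ hx) x₀ hb i i le_rfl (by omega)).trans hMM
      have h7 : |E x₀ y j j| ≤ M := (hZ x₀ hb y (hUZ hy) j j le_rfl (by omega)).trans hMM
      have h8 : |c x₀ y i - c x₀ x i - T| ≤ M1 + n * (M * M * M) := by
        refine (abs_sub _ _).trans (add_le_add ?_ hTb)
        rw [abs_sub_comm]
        exact h2
      exact mul_le_mul (mul_le_mul h6 h7 (abs_nonneg _) hM0) h8 (abs_nonneg _) (by positivity)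

/-- Cocycles of triangular matrices. -/
theorem low_fd (hlow : ∀ x y, Low (E x y)) (hmul : ∀ x y z, E x z = E x y * E y z)
    (hone : ∀ x, E x x = 1) :
    FD (fun (r : ℕ) x y => Bd r (E x y) ∧ Bd r (E y x))
      (fun (r : ℕ) x y => Bd r (E x y) ∧ Bd r (E y x)) {Set.univ} := by
  classical
  -- all the diagonals
  have hn : ∀ M, FD (fun (r : ℕ) x y => Bd r (E x y) ∧ Bd r (E y x))
      (fun (r : ℕ) x y => Bd r (E x y) ∧ Bd r (E y x)) (fam E (n + 1) M) := by
    intro M
    obtain ⟨N, hN⟩ := exists_nat_ge M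
    refine FD.bdd _ N ?_
    have key : ∀ Z ∈ fam E (n + 1) M, ∀ x ∈ Z, ∀ y ∈ Z, Bd N (E x y) := by
      intro Z hZ x hx y hy i j
      rcases lt_or_ge i j with h | h
      · rw [hlow x y i j h, abs_zero]
        exact Nat.cast_nonneg _
      · exact (hZ x hx y hy i j h (by omega)).trans hN
    exact fun Z hZ x hx y hy => ⟨key Z hZ x hx y hy, key Z hZ y hy x hx⟩
  have hd : ∀ e, e ≤ n → ∀ M, FD (fun (r : ℕ) x y => Bd r (E x y) ∧ Bd r (E y x))
      (fun (r : ℕ) x y => Bd r (E x y) ∧ Bd r (E y x)) (fam E (n + 1 - e) M) := by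
    intro e
    induction e with
    | zero => intro _; exact hn
    | succ e ih =>
      intro he
      have h1 := ih (by omega)
      rw [show n + 1 - e = n + 1 - (e + 1) + 1 by omega] at h1
      exact fam_step hlow hmul hone _ (by omega) h1
  have h1 := hd n le_rfl
  rw [show n + 1 - n = 1 by omega] at h1
  -- the diagonal
  let f : Set X → Fin n → X → ℝ := fun _ k x => Real.log |E (if h : Nonempty X then h.some else x) x k k|
  refine FD.lines n f (fun r => ?_) fun M => ?_
  · obtain ⟨R, hR⟩ : ∃ R : ℝ, ∀ t : ℝ, |t| ≤ r → ∀ t' : ℝ, |t'| ≤ r → t * t' = 1 →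
        |Real.log (|t|)| ≤ R := by
      refine ⟨Real.log r, fun t ht t' ht' htt => ?_⟩
      have ht0 : t ≠ 0 := left_ne_zero_of_mul_eq_one htt
      have ht0' : t' ≠ 0 := right_ne_zero_of_mul_eq_one htt
      have h2 : Real.log |t| ≤ Real.log r := Real.log_le_log (abs_pos.mpr ht0) ht
      have h3 : Real.log |t'| ≤ Real.log r := Real.log_le_log (abs_pos.mpr ht0') ht'
      have h4 : Real.log |t| + Real.log |t'| = 0 := by
        rw [← Real.log_mul (abs_ne_zero.mpr ht0) (abs_ne_zero.mpr ht0'), ← abs_mul, htt, abs_one,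
          Real.log_one]
      rw [abs_le]
      constructor <;> linarith
    refine ⟨R, fun k Z _ x _ y _ hxy => ?_⟩
    have hX : Nonempty X := ⟨x⟩
    simp only [f, dif_pos hX]
    set x₀ := hX.some
    have e1 := diag_inv hlow hmul hone x₀ x k
    have e2 := diag_inv hlow hmul hone x y k
    have e3 := diag_mul hlow hmul x₀ x y k
    have n1 : E x₀ x k k ≠ 0 := left_ne_zero_of_mul_eq_one e1
    have n2 : E x y k k ≠ 0 := left_ne_zero_of_mul_eq_one e2
    rw [e3, abs_mul, Real.log_mul (abs_ne_zero.mpr n1) (abs_ne_zero.mpr n2), sub_add_cancel_left,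
      abs_neg]
    exact hR _ (hxy.1 k k) _ (hxy.2 k k) e2
  · refine (h1 (Real.exp M)).subset ?_
    rintro U ⟨Z, _, _, hU⟩ x hx y hy i j hji hij
    have hij' : i = j := Fin.ext (by omega)
    subst hij'
    have h2 := hU i x hx y hy
    have hX : Nonempty X := ⟨x⟩
    simp only [f, dif_pos hX] at h2
    set x₀ := hX.some
    have e1 := diag_inv hlow hmul hone x₀ x i
    have e2 := diag_inv hlow hmul hone x y i
    have e3 := diag_mul hlow hmul x₀ x y i
    have n1 : E x₀ x i i ≠ 0 := left_ne_zero_of_mul_eq_one e1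
    have n2 : E x y i i ≠ 0 := left_ne_zero_of_mul_eq_one e2
    rw [e3, abs_mul, Real.log_mul (abs_ne_zero.mpr n1) (abs_ne_zero.mpr n2), sub_add_cancel_left,
      abs_neg] at h2
    rw [← Real.exp_log (abs_pos.mpr n2)]
    exact Real.exp_le_exp.mpr ((le_abs_self _).trans h2)

end Tri

/-- The group of invertible real matrices. -/
theorem fd_PhiR (n : ℕ) :
    FD (fun (r : ℕ) (x y : (Matrix (Fin n) (Fin n) ℝ)ˣ) => x⁻¹ * y ∈ PhiR n r)
      (fun (r : ℕ) (x y : (Matrix (Fin n) (Fin n) ℝ)ˣ) => x⁻¹ * y ∈ PhiR n r) {Set.univ} := by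
  classical
  -- the decomposition
  have hdec : ∀ g : (Matrix (Fin n) (Fin n) ℝ)ˣ, ∃ b k : (Matrix (Fin n) (Fin n) ℝ)ˣ,
      g = b * k ∧ Low (b : Matrix (Fin n) (Fin n) ℝ) ∧
      Low ((b⁻¹ : (Matrix (Fin n) (Fin n) ℝ)ˣ) : Matrix (Fin n) (Fin n) ℝ) ∧
      Bd 1 (k : Matrix (Fin n) (Fin n) ℝ) ∧
      Bd 1 ((k⁻¹ : (Matrix (Fin n) (Fin n) ℝ)ˣ) : Matrix (Fin n) (Fin n) ℝ) := by
    intro g
    obtain ⟨β, hβ, ho⟩ := exists_low g
    let k : (Matrix (Fin n) (Fin n) ℝ)ˣ :=
      ⟨β * g, (β * (g : Matrix (Fin n) (Fin n) ℝ))ᵀ, ho, mul_eq_one_comm.mp ho⟩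
    let b : (Matrix (Fin n) (Fin n) ℝ)ˣ := g * k⁻¹
    have hb : ((b⁻¹ : (Matrix (Fin n) (Fin n) ℝ)ˣ) : Matrix (Fin n) (Fin n) ℝ) = β := by
      have h1 : b⁻¹ = k * g⁻¹ := by simp [b]
      rw [h1, Units.val_mul]
      change β * (g : Matrix (Fin n) (Fin n) ℝ) * _ = β
      rw [Matrix.mul_assoc, ← Units.val_mul, mul_inv_cancel, Units.val_one, Matrix.mul_one]
    refine ⟨b, k, by simp [b], ?_, ?_, ?_, ?_⟩
    · have h2 : Matrix.BlockTriangular ((b⁻¹ : (Matrix (Fin n) (Fin n) ℝ)ˣ) :
          Matrix (Fin n) (Fin n) ℝ) (OrderDual.toDual : Fin n → (Fin n)ᵒᵈ) := by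
        intro i j hij
        rw [hb]
        exact hβ i j hij
      have hinv : Invertible ((b⁻¹ : (Matrix (Fin n) (Fin n) ℝ)ˣ) : Matrix (Fin n) (Fin n) ℝ) :=
        Units.invertible _
      have h3 := Matrix.blockTriangular_inv_of_blockTriangular h2
      intro i j hij
      have h4 := h3 (i := i) (j := j) hij
      rwa [← Matrix.coe_units_inv, inv_inv] at h4
    · rw [hb]
      exact hβ
    · exact bd_of_orth ho
    · refine bd_of_orth ?_
      change (β * (g : Matrix (Fin n) (Fin n) ℝ))ᵀ * (β * (g : Matrix (Fin n) (Fin n) ℝ))ᵀᵀ = 1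
      rw [Matrix.transpose_transpose]
      exact mul_eq_one_comm.mp ho
  choose b k hbk hb1 hb2 hk1 hk2 using hdec
  let E : (Matrix (Fin n) (Fin n) ℝ)ˣ → (Matrix (Fin n) (Fin n) ℝ)ˣ → Matrix (Fin n) (Fin n) ℝ :=
    fun x y => ((b x)⁻¹ * b y : (Matrix (Fin n) (Fin n) ℝ)ˣ)
  have hlow : ∀ x y, Low (E x y) := by
    intro x y
    simp only [E]
    rw [Units.val_mul]
    exact (hb2 x).mul (hb1 y)
  have hmul : ∀ x y z, E x z = E x y * E y z := by
    intro x y z
    simp only [E]
    rw [← Units.val_mul]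
    congr 1
    group
  have hone : ∀ x, E x x = 1 := by
    intro x
    simp [E]
  have hE1 : ∀ x y (r : ℝ), Bd r ((x⁻¹ * y : (Matrix (Fin n) (Fin n) ℝ)ˣ) :
      Matrix (Fin n) (Fin n) ℝ) → Bd (n * ((n * (1 * r)) * 1)) (E x y) := by
    intro x y r h
    have h1 : (b x)⁻¹ * b y = k x * (x⁻¹ * y) * (k y)⁻¹ := by
      conv_rhs => rw [hbk x, hbk y]
      have e1 : k (b x * k x) = k x := by rw [← hbk x]
      have e2 : k (b y * k y) = k y := by rw [← hbk y]
      rw [e1, e2]
      group
    simp only [E]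
    rw [h1, Units.val_mul, Units.val_mul]
    exact ((hk1 x).mul h).mul (hk2 y)
  have hE2 : ∀ x y (r : ℝ), Bd r (E x y) → Bd (n * ((n * (1 * r)) * 1))
      ((x⁻¹ * y : (Matrix (Fin n) (Fin n) ℝ)ˣ) : Matrix (Fin n) (Fin n) ℝ) := by
    intro x y r h
    have h1 : x⁻¹ * y = (k x)⁻¹ * ((b x)⁻¹ * b y) * k y := by
      conv_lhs => rw [hbk x, hbk y]
      group
    rw [h1, Units.val_mul, Units.val_mul]
    exact ((hk2 x).mul h).mul (hk1 y)
  refine (low_fd hlow hmul hone).mono (fun _ _ => True) ?_ ?_ ?_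
  · intro r
    obtain ⟨r', hr'⟩ := exists_nat_ge ((n:ℝ) * ((n * (1 * (r:ℝ))) * 1))
    refine ⟨r', fun x y _ hxy => ⟨(hE1 x y r hxy.1).mono hr', (hE1 y x r ?_).mono hr'⟩⟩
    have h1 := hxy.2
    rwa [_root_.mul_inv_rev, inv_inv] at h1
  · intro r
    obtain ⟨r', hr'⟩ := exists_nat_ge ((n:ℝ) * ((n * (1 * (r:ℝ))) * 1))
    refine ⟨r', fun x y _ hxy => ⟨(hE2 x y r hxy.1).mono hr', ?_⟩⟩
    have h1 := (hE2 y x r hxy.2).mono hr'
    rwa [_root_.mul_inv_rev, inv_inv]
  · intro Z _
    exact ⟨fun _ _ _ _ => trivial, Set.univ, rfl, Set.subset_univ _⟩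

end Pool.Agent.N506.FX
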