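import Pool.Agent.N506.FE1

/-!
# The real place bounds
-/

namespace Pool.Agent.N506.FX

open Pool.Agent.N506.EX Matrix

universe u v w

/-- The real place bounds. -/
theorem BddF.real {R : Type u} [Ring R] (f : R →+* ℝ) :
    BddF R (fun S => {r | |f r| ≤ S}) := by
  classical
  intro X K B c W A hA I adj hAdj hF
  -- base points
  let b : X → X := fun x => if h : ∃ y, c y = c x then h.choose else x
  have hb : ∀ x, c (b x) = c x := by
    intro x
    have h : ∃ y, c y = c x := ⟨x, rfl⟩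
    simp only [b, dif_pos h]
    exact h.choose_spec
  have hbb : ∀ x y, c x = c y → b x = b y := by
    intro x y hxy
    have h : ∃ z, c z = c x := ⟨x, rfl⟩
    have h' : ∃ z, c z = c y := ⟨y, rfl⟩
    simp only [b, dif_pos h, dif_pos h']
    congr 1
    rw [hxy]
  let n : ℕ := (W 1).card
  let e : Fin n ≃ W 1 := (W 1).equivFin.symm
  have he : ∀ i, (e i : B) ∈ W 1 := fun i => (e i).2
  have hrel : ∀ x y z, c x = c y → c y = c z → ∀ γ, ∀ i : Fin n,
      A x z γ (e i) = ∑ δ ∈ W 2, A x y γ δ * A y z δ (e i) :=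
    fun x y z h1 h2 γ i => hA.mul 1 (by norm_num) x y z h1 h2 (e i) (he i) γ
  have hrel0 : ∀ x y z, c x = c y → c y = c z → ∀ β ∈ W 0, ∀ γ,
      A x z γ β = ∑ δ ∈ W 1, A x y γ δ * A y z δ β :=
    fun x y z h1 h2 β hβ γ => hA.mul 0 (by norm_num) x y z h1 h2 β hβ γ
  -- the matrices
  let M : X → X → Matrix (W 2) (Fin n) ℝ := fun x y => Matrix.of fun γ i => f (A x y γ (e i))
  have hMN : ∀ x, (Matrix.of fun (i : Fin n) (γ : W 2) => f (A (b x) x (e i) γ)) * M x (b x) =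
      (1 : Matrix (Fin n) (Fin n) ℝ) := by
    intro x
    ext i j
    rw [Matrix.mul_apply]
    simp only [M, Matrix.of_apply]
    have h1 := hrel (b x) x (b x) (hb x) (hb x).symm (e i) j
    have h2 : ∑ γ : W 2, f (A (b x) x (e i) γ) * f (A x (b x) γ (e j)) =
        f (A (b x) (b x) (e i) (e j)) := by
      rw [h1, map_sum, ← Finset.sum_coe_sort (W 2)]
      exact Finset.sum_congr rfl fun γ _ => (map_mul f _ _).symm
    rw [h2]
    by_cases hij : i = j
    · subst hij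
      rw [(hA.refl 1 (by norm_num) (b x) (e i) (he i)).1, map_one, Matrix.one_apply_eq]
    · rw [(hA.refl 1 (by norm_num) (b x) (e j) (he j)).2 (e i)
        (fun h => hij (e.injective (Subtype.ext h))), map_zero, Matrix.one_apply_ne hij]
  choose q hq using fun x => exists_gram (M x (b x)) _ (hMN x)
  -- transport
  have hMT : ∀ x y z, c x = c y → c y = c z → ∀ u : Fin n → ℝ, ∀ γ : W 2,
      (M x z).mulVec u γ = ∑ δ : W 2, f (A x y γ δ) * (M y z).mulVec u δ := by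
    intro x y z h1 h2 u γ
    simp only [Matrix.mulVec, dotProduct, M, Matrix.of_apply]
    calc ∑ i, f (A x z γ (e i)) * u i
        = ∑ i, ∑ δ : W 2, f (A x y γ δ) * (f (A y z δ (e i)) * u i) := by
          refine Finset.sum_congr rfl fun i _ => ?_
          rw [hrel x y z h1 h2, map_sum, Finset.sum_mul, ← Finset.sum_coe_sort (W 2)]
          exact Finset.sum_congr rfl fun δ _ => by rw [map_mul, mul_assoc]
      _ = _ := by
          rw [Finset.sum_comm]
          exact Finset.sum_congr rfl fun δ _ => (Finset.mul_sum _ _ _).symm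
  -- the bound on the adjacency
  set k : ℝ := ((W 2).card : ℝ) with hk
  have hk0 : 0 ≤ k := Nat.cast_nonneg _
  have hnorm : ∀ C1 : ℝ, 0 ≤ C1 → ∀ x y, c x = c y → (∀ δ ∈ W 2, ∀ γ, |f (A x y γ δ)| ≤ C1) → ∀ u : Fin n → ℝ,
      ∑ γ, ((M x (b x)).mulVec u γ) ^ 2 ≤ (k * C1) ^ 2 * ∑ δ, ((M y (b y)).mulVec u δ) ^ 2 := by
    intro C1 hC1n x y hxy hbd u
    have h1 : ∀ γ : W 2, ((M x (b x)).mulVec u γ) ^ 2 ≤
        (k * C1 ^ 2) * ∑ δ, ((M y (b y)).mulVec u δ) ^ 2 := by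
      intro γ
      rw [hMT x y (b x) hxy (by rw [hb x]; exact hxy.symm) u γ]
      refine (Finset.sum_mul_sq_le_sq_mul_sq _ _ _).trans ?_
      rw [hbb x y hxy]
      refine mul_le_mul_of_nonneg_right ?_ (Finset.sum_nonneg fun _ _ => sq_nonneg _)
      have h2 : ∀ δ : W 2, f (A x y γ δ) ^ 2 ≤ C1 ^ 2 := by
        intro δ
        rw [← sq_abs]
        exact pow_le_pow_left₀ (abs_nonneg _) (hbd δ δ.2 γ) 2
      refine (Finset.sum_le_sum fun δ _ => h2 δ).trans ?_
      rw [Finset.sum_const, nsmul_eq_mul, Finset.card_univ, Fintype.card_coe]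
    refine (Finset.sum_le_sum fun γ _ => h1 γ).trans ?_
    rw [Finset.sum_const, nsmul_eq_mul, Finset.card_univ, Fintype.card_coe]
    apply le_of_eq
    ring
  have hentry : ∀ C1 : ℝ, 0 ≤ C1 → ∀ x y, c x = c y → (∀ δ ∈ W 2, ∀ γ, |f (A x y γ δ)| ≤ C1) →
      Bd (k * C1) (((q x)⁻¹ * q y : (Matrix (Fin n) (Fin n) ℝ)ˣ) : Matrix (Fin n) (Fin n) ℝ) := by
    intro C1 hC1n x y hxy hbd i j
    set v : Fin n → ℝ := (q y : Matrix (Fin n) (Fin n) ℝ).mulVec (Pi.single j 1) with hv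
    have h1 : (((q x)⁻¹ * q y : (Matrix (Fin n) (Fin n) ℝ)ˣ) : Matrix (Fin n) (Fin n) ℝ) i j =
        (((q x)⁻¹ : (Matrix (Fin n) (Fin n) ℝ)ˣ) : Matrix (Fin n) (Fin n) ℝ).mulVec v i := by
      rw [hv, Matrix.mulVec_mulVec, ← Units.val_mul, Matrix.mulVec_single_one]
      rfl
    have h2 : (((q y)⁻¹ : (Matrix (Fin n) (Fin n) ℝ)ˣ) : Matrix (Fin n) (Fin n) ℝ).mulVec v =
        Pi.single j 1 := by
      rw [hv, Matrix.mulVec_mulVec, ← Units.val_mul, inv_mul_cancel, Units.val_one,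
        Matrix.one_mulVec]
    have h3 := hnorm C1 hC1n x y hxy hbd v
    rw [← hq x v, ← hq y v, h2] at h3
    have h4 : ∑ i, (Pi.single j (1:ℝ) : Fin n → ℝ) i ^ 2 = 1 := by
      rw [Finset.sum_eq_single j]
      · rw [Pi.single_eq_same, one_pow]
      · intro l _ hl
        rw [Pi.single_eq_of_ne hl]
        norm_num
      · intro h
        exact absurd (Finset.mem_univ _) h
    rw [h4, mul_one] at h3
    rw [h1]
    refine abs_le_of_sq_le_sq ?_ (by positivity)
    refine le_trans ?_ h3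
    exact Finset.single_le_sum (f := fun i => ((((q x)⁻¹ : (Matrix (Fin n) (Fin n) ℝ)ˣ) :
      Matrix (Fin n) (Fin n) ℝ).mulVec v i) ^ 2) (fun _ _ => sq_nonneg _) (Finset.mem_univ i)
  -- the conclusion
  have hconc : ∀ S1 S : ℕ, (n:ℝ) ^ 2 * S1 ≤ S → ∀ x y, c x = c y → Bd S1 (((q y)⁻¹ * q x : (Matrix (Fin n) (Fin n) ℝ)ˣ) :
      Matrix (Fin n) (Fin n) ℝ) → ∀ β ∈ W 0, ∀ γ, |f (A y x γ β)| ≤ S := by
    intro S1 S hS x y hcxy hbd β hβ γ
    by_cases hγ : γ ∈ W 2
    · let u : Fin n → ℝ := fun i => f (A (b x) x (e i) β)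
      have hu : ∀ z, c z = c x → ∀ γ : W 2, (M z (b x)).mulVec u γ = f (A z x γ β) := by
        intro z hz γ
        rw [hrel0 z (b x) x (by rw [hb x]; exact hz) (hb x) β hβ γ, map_sum]
        simp only [Matrix.mulVec, dotProduct, M, u, Matrix.of_apply]
        rw [← sum_fin_equiv (W 1) e (fun δ => f (A z (b x) γ δ * A (b x) x δ β))]
        exact Finset.sum_congr rfl fun i _ => by rw [map_mul]
      set v : Fin n → ℝ := (((q x)⁻¹ : (Matrix (Fin n) (Fin n) ℝ)ˣ) :
        Matrix (Fin n) (Fin n) ℝ).mulVec u with hv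
      have h1 : ∑ i, v i ^ 2 ≤ 1 := by
        rw [hv, hq x u]
        have h2 : ∀ γ : W 2, ((M x (b x)).mulVec u γ) ^ 2 = if (γ : B) = β then 1 else 0 := by
          intro γ
          rw [hu x rfl γ]
          split_ifs with h
          · rw [h, (hA.refl 0 (by norm_num) x β hβ).1, map_one, one_pow]
          · rw [(hA.refl 0 (by norm_num) x β hβ).2 γ h, map_zero]
            norm_num
        rw [Finset.sum_congr rfl fun γ _ => h2 γ, Finset.sum_coe_sort (W 2)
          (fun γ => if γ = β then (1:ℝ) else 0), Finset.sum_ite_eq' (W 2) β]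
        split_ifs <;> norm_num
      have h2 : ∀ i, |v i| ≤ 1 := by
        intro i
        refine abs_le_of_sq_le_sq ?_ (by norm_num)
        rw [one_pow]
        exact (Finset.single_le_sum (f := fun i => v i ^ 2) (fun _ _ => sq_nonneg _)
          (Finset.mem_univ i)).trans h1
      have h3 : (((q y)⁻¹ : (Matrix (Fin n) (Fin n) ℝ)ˣ) : Matrix (Fin n) (Fin n) ℝ).mulVec u =
          (((q y)⁻¹ * q x : (Matrix (Fin n) (Fin n) ℝ)ˣ) :
            Matrix (Fin n) (Fin n) ℝ).mulVec v := by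
        rw [hv, Matrix.mulVec_mulVec, ← Units.val_mul]
        congr 2
        group
      have h4 : ∀ i, |(((q y)⁻¹ : (Matrix (Fin n) (Fin n) ℝ)ˣ) :
          Matrix (Fin n) (Fin n) ℝ).mulVec u i| ≤ n * S1 := by
        intro i
        rw [h3]
        simp only [Matrix.mulVec, dotProduct]
        refine (Finset.abs_sum_le_sum_abs _ _).trans ?_
        have : ∀ j ∈ Finset.univ, |(((q y)⁻¹ * q x : (Matrix (Fin n) (Fin n) ℝ)ˣ) :
            Matrix (Fin n) (Fin n) ℝ) i j * v j| ≤ S1 := by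
          intro j _
          rw [abs_mul]
          calc _ ≤ (S1:ℝ) * 1 := mul_le_mul (hbd i j) (h2 j) (abs_nonneg _) (Nat.cast_nonneg _)
            _ = S1 := mul_one _
        refine (Finset.sum_le_sum this).trans ?_
        rw [Finset.sum_const, Finset.card_univ, Fintype.card_fin, nsmul_eq_mul]
      have h5 : f (A y x γ β) ^ 2 ≤ ((n:ℝ) ^ 2 * S1) ^ 2 := by
        have h6 := hq y u
        have h7 : f (A y x γ β) ^ 2 ≤ ∑ γ, ((M y (b y)).mulVec u γ) ^ 2 := by
          have := hu y hcxy.symm ⟨γ, hγ⟩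
          rw [hbb x y hcxy] at this
          rw [← this]
          exact Finset.single_le_sum (f := fun γ => ((M y (b y)).mulVec u γ) ^ 2)
            (fun _ _ => sq_nonneg _) (Finset.mem_univ _)
        rw [← h6] at h7
        refine h7.trans ?_
        have h8 : ∀ i ∈ Finset.univ, ((((q y)⁻¹ : (Matrix (Fin n) (Fin n) ℝ)ˣ) :
            Matrix (Fin n) (Fin n) ℝ).mulVec u i) ^ 2 ≤ (n * S1) ^ 2 := by
          intro i _
          rw [← sq_abs]
          exact pow_le_pow_left₀ (abs_nonneg _) (h4 i) 2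
        refine (Finset.sum_le_sum h8).trans ?_
        rw [Finset.sum_const, Finset.card_univ, Fintype.card_fin, nsmul_eq_mul]
        rcases Nat.eq_zero_or_pos n with hn | hn
        · rw [hn]
          simp
        · have hn1 : (1:ℝ) ≤ n := by exact_mod_cast hn
          have h9 : (n:ℝ) ^ 3 ≤ (n:ℝ) ^ 4 := pow_le_pow_right₀ hn1 (by norm_num)
          have h10 : (0:ℝ) ≤ (S1:ℝ) ^ 2 := sq_nonneg _
          calc (n:ℝ) * (n * S1) ^ 2 = (n:ℝ) ^ 3 * (S1:ℝ) ^ 2 := by ring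
            _ ≤ (n:ℝ) ^ 4 * (S1:ℝ) ^ 2 := mul_le_mul_of_nonneg_right h9 h10
            _ = _ := by ring
      exact (abs_le_of_sq_le_sq h5 (by positivity)).trans hS
    · have : A y x γ β = 0 := hA.supp 0 (by norm_num) y x hcxy.symm β hβ γ
        (fun h => hγ (hA.mono 1 h))
      rw [this, map_zero, abs_zero]
      exact Nat.cast_nonneg _
  refine ((fd_PhiR n).map q (fun x y => c x = c y) ?_ ?_).subset ?_
  · intro i0
    obtain ⟨C0, hC0⟩ := ((hF i0).image (fun r => |f r|)).bddAbove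
    set C1 : ℝ := max C0 0 with hC1
    have hC1n : 0 ≤ C1 := le_max_right _ _
    obtain ⟨R1, hR1⟩ := exists_nat_ge (k * C1)
    refine ⟨R1, fun x y hcxy hxy => ?_⟩
    have b1 : ∀ δ ∈ W 2, ∀ γ, |f (A x y γ δ)| ≤ C1 := fun δ hδ γ =>
      (hC0 ⟨_, ⟨2, by norm_num, x, y, hxy, δ, hδ, γ, Or.inl rfl⟩, rfl⟩).trans (le_max_left _ _)
    have b2 : ∀ δ ∈ W 2, ∀ γ, |f (A y x γ δ)| ≤ C1 := fun δ hδ γ =>
      (hC0 ⟨_, ⟨2, by norm_num, x, y, hxy, δ, hδ, γ, Or.inr rfl⟩, rfl⟩).trans (le_max_left _ _)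
    refine ⟨(hentry C1 hC1n x y hcxy b1).mono hR1, ?_⟩
    have h1 : ((q x)⁻¹ * q y)⁻¹ = (q y)⁻¹ * q x := by group
    rw [h1]
    exact (hentry C1 hC1n y x hcxy.symm b2).mono hR1
  · intro S1
    obtain ⟨S, hS⟩ := exists_nat_ge ((n:ℝ) ^ 2 * S1)
    refine ⟨S, fun x y hcxy hxy β hβ γ => ?_⟩
    have h1 : ((q x)⁻¹ * q y)⁻¹ = (q y)⁻¹ * q x := by group
    exact hconc S1 S hS y x hcxy.symm hxy.1 β hβ γ
  · intro Z hZ
    exact ⟨hZ, Set.univ, rfl, fun _ _ => trivial⟩

end Pool.Agent.N506.FX
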