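import Pool.Agent.N506.FE2

/-!
# Closure properties of good rings, for finite decomposition complexity
-/

namespace Pool.Agent.N506.FX

open Pool.Agent.N506.EX

universe u v w w'

/-- Matrix groups of all sizes have finite decomposition complexity. -/
def MFd (R : Type u) [Ring R] : Prop := ∀ n : ℕ, FDC (Matrix (Fin n) (Fin n) R)ˣ

section Lab

variable {X : Type u} {I : Type v} {J : Type w} {adj : I → X → X → Prop}
  {base : J → X → X → Prop} {K : Type u}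

/-- Fibering, on the fibres of a map. -/
theorem FD.fib_c {J' : Type w'} {base' : J' → X → X → Prop} (c : X → K)
    (h : FD adj base {Z | ∀ x ∈ Z, ∀ y ∈ Z, c x = c y})
    (h2 : ∀ j, ∀ (Z : Type u) (π : Z → X) (K' : Type u) (κ : Z → K'),
      (∀ z z', κ z = κ z' → base j (π z) (π z') ∧ c (π z) = c (π z')) →
      FD (fun i z z' => adj i (π z) (π z')) (fun j' z z' => base' j' (π z) (π z'))
        {T | ∀ z ∈ T, ∀ z' ∈ T, κ z = κ z'}) :
    FD adj base' {Z | ∀ x ∈ Z, ∀ y ∈ Z, c x = c y} := by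
  have h1 : FD adj (fun j x y => base j x y ∧ c x = c y) {Z | ∀ x ∈ Z, ∀ y ∈ Z, c x = c y} :=
    h.mono (fun x y => c x = c y) (fun i => ⟨i, fun _ _ _ h => h⟩)
      (fun j => ⟨j, fun _ _ h1 h2 => ⟨h2, h1⟩⟩) (fun Z hZ => ⟨hZ, Z, hZ, subset_rfl⟩)
  exact h1.fib_lab h2

/-- Two notions of boundedness at once. -/
theorem FD.prod_c {J' : Type w'} {base' : J' → X → X → Prop} (c : X → K)
    (h : FD adj base {Z | ∀ x ∈ Z, ∀ y ∈ Z, c x = c y})
    (h' : FD adj base' {Z | ∀ x ∈ Z, ∀ y ∈ Z, c x = c y}) :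
    FD adj (fun (p : J × J') x y => base p.1 x y ∧ base' p.2 x y)
      {Z | ∀ x ∈ Z, ∀ y ∈ Z, c x = c y} := by
  have h1 : FD adj (fun j x y => base j x y ∧ c x = c y) {Z | ∀ x ∈ Z, ∀ y ∈ Z, c x = c y} :=
    h.mono (fun x y => c x = c y) (fun i => ⟨i, fun _ _ _ h => h⟩)
      (fun j => ⟨j, fun _ _ h1 h2 => ⟨h2, h1⟩⟩) (fun Z hZ => ⟨hZ, Z, hZ, subset_rfl⟩)
  refine h1.fib fun j => h'.mono (fun x y => base j x y ∧ c x = c y)
    (fun i => ⟨i, fun _ _ _ h => h⟩) (fun j' => ⟨(j, j'), fun _ _ h1 h2 => ⟨h1.1, h2⟩⟩)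
    fun Z hZ => ⟨hZ, Z, fun x hx y hy => (hZ x hx y hy).2, subset_rfl⟩

end Lab

theorem GoodF.le {R : Type u} [Ring R] {d d' : ℕ} (h : GoodF R d) (hd : d ≤ d') : GoodF R d' :=
  fun X K B c W A hA I adj hAdj hF =>
    h X K B c W A (hA.le hd) I adj hAdj (fun i => (hF i).le hd)

theorem GoodF.of_bdd {R : Type u} [Ring R] {O : ℕ → Set R} (h : BddF R O)
    (hO : ∀ S, (O S).Finite) : GoodF R 3 := by
  intro X K B c W A hA I adj hAdj hF
  refine (h X K B c W A hA I adj hAdj hF).mono (fun _ _ => True)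
    (fun i => ⟨i, fun _ _ _ h => h⟩)
    (fun S => ⟨(hO S).toFinset, fun x y _ h β hβ γ => (Set.Finite.mem_toFinset _).mpr (h β hβ γ)⟩)
    (fun Z hZ => ⟨fun _ _ _ _ => trivial, Z, hZ, subset_rfl⟩)

theorem GoodF.of_finite {R : Type u} [Ring R] [Finite R] : GoodF R 0 := by
  have := Fintype.ofFinite R
  intro X K B c W A hA I adj hAdj hF
  exact FD.bdd _ Finset.univ fun Z _ x _ y _ β _ γ => Finset.mem_univ _

/-- Finitely many bounding families. -/
theorem BddF.pi {R : Type u} [Ring R] {ι : Type w} (P : Finset ι) (O : ι → ℕ → Set R)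
    (hmono : ∀ i, ∀ m n, m ≤ n → O i m ⊆ O i n)
    (h : ∀ i ∈ P, BddF R (O i)) : BddF R (fun S => ⋂ i ∈ P, O i S) := by
  classical
  intro X K B c W A hA I adj hAdj hF
  have key : ∀ Q : Finset ι, Q ⊆ P →
      FD adj (fun (S : ℕ) x y => ∀ β ∈ W 0, ∀ γ, A x y γ β ∈ ⋂ i ∈ Q, O i S)
        {Z | ∀ x ∈ Z, ∀ y ∈ Z, c x = c y} := by
    intro Q
    induction Q using Finset.induction_on with
    | empty =>
      intro _
      exact FD.bdd _ 0 fun Z _ x _ y _ β _ γ => by simp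
    | insert i Q hi ih =>
      intro hQ
      have h1 := h i (hQ (Finset.mem_insert_self _ _)) X K B c W A hA I adj hAdj hF
      have h2 := ih (fun j hj => hQ (Finset.mem_insert_of_mem hj))
      refine (FD.prod_c c h1 h2).mono (fun _ _ => True) (fun i => ⟨i, fun _ _ _ h => h⟩)
        (fun S => ⟨max S.1 S.2, fun x y _ hb β hβ γ => ?_⟩)
        (fun Z hZ => ⟨fun _ _ _ _ => trivial, Z, hZ, subset_rfl⟩)
      simp only [Set.mem_iInter]
      intro j hj
      rcases Finset.mem_insert.mp hj with rfl | hj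
      · exact hmono _ _ _ (le_max_left _ _) (hb.1 β hβ γ)
      · have := hb.2 β hβ γ
        simp only [Set.mem_iInter] at this
        exact hmono _ _ _ (le_max_right _ _) (this j hj)
  exact key P subset_rfl

/-- Subrings. -/
theorem GoodF.of_injective {R : Type u} [Ring R] {S : Type u} [Ring S] {d : ℕ} (hS : GoodF S d)
    (f : R →+* S) (hf : Function.Injective f) : GoodF R d := by
  intro X K B c W A hA I adj hAdj hF
  have hA' : Sys S d c W (fun x y γ β => f (A x y γ β)) :=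
    { mono := hA.mono
      supp := fun ℓ hℓ x y hxy β hβ γ hγ => by rw [hA.supp ℓ hℓ x y hxy β hβ γ hγ, map_zero]
      refl := fun ℓ hℓ x β hβ => ⟨by rw [(hA.refl ℓ hℓ x β hβ).1, map_one],
        fun γ hγ => by rw [(hA.refl ℓ hℓ x β hβ).2 γ hγ, map_zero]⟩
      mul := fun ℓ hℓ x y z h1 h2 β hβ δ => by
        rw [hA.mul ℓ hℓ x y z h1 h2 β hβ δ, map_sum]
        exact Finset.sum_congr rfl fun γ _ => map_mul f _ _ }
  have hF' : ∀ i0, FT d W (fun x y γ β => f (A x y γ β)) (adj i0) := by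
    intro i0
    refine ((hF i0).image f).subset ?_
    rintro r ⟨ℓ, hℓ, x, y, hxy, β, hβ, γ, h | h⟩
    · exact ⟨_, ⟨ℓ, hℓ, x, y, hxy, β, hβ, γ, Or.inl rfl⟩, h.symm⟩
    · exact ⟨_, ⟨ℓ, hℓ, x, y, hxy, β, hβ, γ, Or.inr rfl⟩, h.symm⟩
  refine (hS X K B c W _ hA' I adj hAdj hF').mono (fun _ _ => True)
    (fun i => ⟨i, fun _ _ _ h => h⟩) (fun C => ⟨C.preimage f hf.injOn, fun x y _ h β hβ γ => ?_⟩)
    (fun Z hZ => ⟨fun _ _ _ _ => trivial, Z, hZ, subset_rfl⟩)
  rw [Finset.mem_preimage]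
  exact h β hβ γ

/-- Matrix rings. -/
theorem GoodF.matrix {S : Type u} [Ring S] {d : ℕ} (hS : GoodF S d) (ι : Type w) [Fintype ι]
    [DecidableEq ι] {R : Type u} [Ring R] (f : R →+* Matrix ι ι S) (hf : Function.Injective f) :
    GoodF R d := by
  classical
  intro X K B c W A hA I adj hAdj hF
  let e : ι ≃ ULift.{u} (Fin (Fintype.card ι)) := (Fintype.equivFin ι).trans Equiv.ulift.symm
  let W' : ℕ → Finset (B × ULift.{u} (Fin (Fintype.card ι))) := fun ℓ => W ℓ ×ˢ Finset.univ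
  have hW' : ∀ ℓ p, p ∈ W' ℓ ↔ p.1 ∈ W ℓ := by
    intro ℓ p
    simp [W']
  let A' : X → X → B × ULift.{u} (Fin (Fintype.card ι)) → B × ULift.{u} (Fin (Fintype.card ι)) →
      S := fun x y p q => f (A x y p.1 q.1) (e.symm p.2) (e.symm q.2)
  have hA' : Sys S d c W' A' :=
    { mono := by
        intro ℓ p hp
        rw [hW'] at hp ⊢
        exact hA.mono ℓ hp
      supp := by
        intro ℓ hℓ x y hxy q hq p hp
        rw [hW'] at hq hp
        simp only [A']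
        rw [hA.supp ℓ hℓ x y hxy q.1 hq p.1 hp, map_zero, Matrix.zero_apply]
      refl := by
        intro ℓ hℓ x q hq
        rw [hW'] at hq
        obtain ⟨h1, h2⟩ := hA.refl ℓ hℓ x q.1 hq
        refine ⟨by simp only [A']; rw [h1, map_one, Matrix.one_apply_eq], fun p hp => ?_⟩
        simp only [A']
        by_cases h : p.1 = q.1
        · have h3 : p.2 ≠ q.2 := fun h3 => hp (Prod.ext h h3)
          rw [h, h1, map_one, Matrix.one_apply_ne (fun h4 => h3 (e.symm.injective h4))]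
        · rw [h2 p.1 h, map_zero, Matrix.zero_apply]
      mul := by
        intro ℓ hℓ x y z h1 h2 q hq p
        rw [hW'] at hq
        simp only [A']
        rw [hA.mul ℓ hℓ x y z h1 h2 q.1 hq p.1, map_sum, Matrix.sum_apply, Finset.sum_product]
        refine Finset.sum_congr rfl fun γ _ => ?_
        rw [map_mul, Matrix.mul_apply]
        exact (Equiv.sum_comp e.symm
          (fun k => f (A x y p.1 γ) (e.symm p.2) k * f (A y z γ q.1) k (e.symm q.2))).symm }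
  have hF' : ∀ i0, FT d W' A' (adj i0) := by
    intro i0
    refine Set.Finite.subset ((hF i0).biUnion (t := fun r => Set.range fun p : ι × ι => f r p.1 p.2)
      (fun r _ => Set.finite_range _)) ?_
    rintro r ⟨ℓ, hℓ, x, y, hxy, q, hq, p, h⟩
    rw [hW'] at hq
    simp only [Set.mem_iUnion]
    rcases h with h | h
    · exact ⟨_, ⟨ℓ, hℓ, x, y, hxy, q.1, hq, p.1, Or.inl rfl⟩, (e.symm p.2, e.symm q.2), h.symm⟩
    · exact ⟨_, ⟨ℓ, hℓ, x, y, hxy, q.1, hq, p.1, Or.inr rfl⟩, (e.symm p.2, e.symm q.2), h.symm⟩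
  refine (hS X K _ c W' A' hA' I adj hAdj hF').mono (fun _ _ => True)
    (fun i => ⟨i, fun _ _ _ h => h⟩) (fun C => ?_)
    (fun Z hZ => ⟨fun _ _ _ _ => trivial, Z, hZ, subset_rfl⟩)
  have hfin : (f ⁻¹' {M : Matrix ι ι S | ∀ i j, M i j ∈ C}).Finite := by
    refine Set.Finite.preimage hf.injOn ?_
    have h1 : {M : ι → ι → S | ∀ i, M i ∈ {v : ι → S | ∀ j, v j ∈ (C : Set S)}}.Finite :=
      Set.Finite.pi' fun _ => Set.Finite.pi' fun _ => C.finite_toSet
    exact h1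
  refine ⟨hfin.toFinset, fun x y _ h β hβ γ => ?_⟩
  rw [Set.Finite.mem_toFinset]
  intro i j
  have := h (β, e j) (by rw [hW']; exact hβ) (γ, e i)
  simpa [A'] using this

/-- Matrix groups over good rings have finite decomposition complexity. -/
theorem GoodF.mfd {R : Type u} [Ring R] {d : ℕ} (h : GoodF R d) : MFd R := by
  classical
  intro n
  let A : (Matrix (Fin n) (Fin n) R)ˣ → (Matrix (Fin n) (Fin n) R)ˣ → ULift.{u} (Fin n) →
      ULift.{u} (Fin n) → R := fun x y i j =>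
    ((x⁻¹ * y : (Matrix (Fin n) (Fin n) R)ˣ) : Matrix (Fin n) (Fin n) R) i.down j.down
  have hA : Sys R d (fun _ : (Matrix (Fin n) (Fin n) R)ˣ => PUnit.unit.{u+1})
      (fun _ => Finset.univ) A :=
    { mono := fun _ => subset_rfl
      supp := fun ℓ _ x y _ β _ γ hγ => absurd (Finset.mem_univ γ) hγ
      refl := fun ℓ _ x β _ => by
        simp only [A, inv_mul_cancel, Units.val_one]
        exact ⟨Matrix.one_apply_eq _, fun γ hγ => Matrix.one_apply_ne fun h => hγ (ULift.ext _ _ h)⟩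
      mul := fun ℓ _ x y z _ _ β _ δ => by
        simp only [A]
        have h1 : x⁻¹ * z = (x⁻¹ * y) * (y⁻¹ * z) := by group
        rw [h1, Units.val_mul, Matrix.mul_apply]
        exact (Equiv.sum_comp Equiv.ulift (fun k => ((x⁻¹ * y : (Matrix (Fin n) (Fin n) R)ˣ) :
          Matrix (Fin n) (Fin n) R) δ.down k * ((y⁻¹ * z : (Matrix (Fin n) (Fin n) R)ˣ) :
          Matrix (Fin n) (Fin n) R) k β.down)).symm }
  have hFT : ∀ F : Finset (Matrix (Fin n) (Fin n) R)ˣ,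
      FT d (fun _ => Finset.univ) A (cl _ F) := by
    intro F
    refine Set.Finite.subset (F.finite_toSet.biUnion (t := fun g => Set.range (fun p : Fin n × Fin n =>
      (g : Matrix (Fin n) (Fin n) R) p.1 p.2) ∪ Set.range (fun p : Fin n × Fin n =>
      ((g⁻¹ : (Matrix (Fin n) (Fin n) R)ˣ) : Matrix (Fin n) (Fin n) R) p.1 p.2))
      (fun g _ => (Set.finite_range _).union (Set.finite_range _))) ?_
    rintro r ⟨ℓ, hℓ, x, y, hxy, q, hq, p, h⟩
    simp only [Set.mem_iUnion]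
    refine ⟨x⁻¹ * y, hxy, ?_⟩
    rcases h with h | h
    · exact Or.inl ⟨(p.down, q.down), h.symm⟩
    · refine Or.inr ⟨(p.down, q.down), ?_⟩
      rw [h]
      have : (x⁻¹ * y)⁻¹ = y⁻¹ * x := by group
      simp only [A, this]
  refine (h _ _ _ _ _ A hA _ (cl _) (fun _ _ _ _ => rfl) hFT).mono (fun _ _ => True)
    (fun i => ⟨i, fun _ _ _ h => h⟩) (fun C => ?_)
    (fun Z _ => ⟨fun _ _ _ _ => trivial, Set.univ, fun _ _ _ _ => rfl, Set.subset_univ _⟩)
  have hfin : {g : (Matrix (Fin n) (Fin n) R)ˣ | ∀ i j,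
      (g : Matrix (Fin n) (Fin n) R) i j ∈ C}.Finite := by
    have h3 : {M : Fin n → Fin n → R | ∀ i, M i ∈
        {v : Fin n → R | ∀ j, v j ∈ (C : Set R)}}.Finite :=
      Set.Finite.pi' fun _ => Set.Finite.pi' fun _ => C.finite_toSet
    exact h3.preimage (f := fun g : (Matrix (Fin n) (Fin n) R)ˣ =>
      (g : Matrix (Fin n) (Fin n) R)) (Units.val_injective.injOn)
  refine ⟨hfin.toFinset, fun x y _ h => ?_⟩
  change x⁻¹ * y ∈ hfin.toFinset
  rw [Set.Finite.mem_toFinset]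
  intro i j
  exact h ⟨j⟩ (Finset.mem_univ _) ⟨i⟩

/-- Goodness is local, with a uniform depth. -/
theorem GoodF.of_local {R : Type u} [Ring R] {d : ℕ} (hd : 0 < d)
    (h : ∀ s : Set R, s.Finite → ∃ S : Subring R, s ⊆ S ∧ GoodF S d) : GoodF R (d + 1) := by
  classical
  intro X K B c W A hA I adj hAdj hF
  refine FD.comp fun i₀ => ?_
  let Adj : X → X → Prop := adj i₀
  have hAdj0 : ∀ x y, Adj x y → c x = c y := hAdj i₀
  obtain ⟨S, hS, hG⟩ := h _ (hF i₀)
  let r : Setoid X := Relation.EqvGen.setoid Adj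
  let c' : X → Quotient r := fun x => Quotient.mk r x
  have hc' : ∀ x y, c' x = c' y → Relation.EqvGen Adj x y := fun x y hxy => Quotient.exact hxy
  have hcc : ∀ x y, Relation.EqvGen Adj x y → c x = c y := by
    intro x y hxy
    induction hxy with
    | rel x y h => exact hAdj0 x y h
    | refl x => rfl
    | symm x y _ ih => exact ih.symm
    | trans x y z _ _ ih1 ih2 => exact ih1.trans ih2
  -- the values along the components are in `S`
  have hmem : ∀ x y, Relation.EqvGen Adj x y → ∀ z, c y = c z →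
      (∀ ℓ, ℓ < d → ∀ β ∈ W ℓ, ∀ δ, A y z δ β ∈ S) →
      ∀ ℓ, ℓ < d → ∀ β ∈ W ℓ, ∀ δ, A x z δ β ∈ S := by
    have step : ∀ x y, c x = c y → (∀ ℓ, ℓ < d + 1 → ∀ β ∈ W ℓ, ∀ γ, A x y γ β ∈ S) →
        ∀ z, c y = c z → (∀ ℓ, ℓ < d → ∀ β ∈ W ℓ, ∀ δ, A y z δ β ∈ S) →
        ∀ ℓ, ℓ < d → ∀ β ∈ W ℓ, ∀ δ, A x z δ β ∈ S := by
      intro x y hxy h1 z hyz h2 ℓ hℓ β hβ δ
      rw [hA.mul ℓ (by omega) x y z hxy hyz β hβ δ]
      exact S.sum_mem fun γ hγ => S.mul_mem (h1 (ℓ + 1) (by omega) γ hγ δ) (h2 ℓ hℓ β hβ γ)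
    have main : ∀ x y, Relation.EqvGen Adj x y →
        ((∀ z, c y = c z → (∀ ℓ, ℓ < d → ∀ β ∈ W ℓ, ∀ δ, A y z δ β ∈ S) →
          ∀ ℓ, ℓ < d → ∀ β ∈ W ℓ, ∀ δ, A x z δ β ∈ S) ∧
        (∀ z, c x = c z → (∀ ℓ, ℓ < d → ∀ β ∈ W ℓ, ∀ δ, A x z δ β ∈ S) →
          ∀ ℓ, ℓ < d → ∀ β ∈ W ℓ, ∀ δ, A y z δ β ∈ S)) := by
      intro x y hxy
      induction hxy with
      | rel x y h =>
        refine ⟨step x y (hAdj0 x y h) ?_, step y x (hAdj0 x y h).symm ?_⟩
        · intro ℓ hℓ β hβ γ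
          exact hS ⟨ℓ, hℓ, x, y, h, β, hβ, γ, Or.inl rfl⟩
        · intro ℓ hℓ β hβ γ
          exact hS ⟨ℓ, hℓ, x, y, h, β, hβ, γ, Or.inr rfl⟩
      | refl x => exact ⟨fun _ _ h => h, fun _ _ h => h⟩
      | symm x y _ ih => exact ⟨ih.2, ih.1⟩
      | trans x y z hxy hyz ih1 ih2 =>
        refine ⟨fun u hu h => ih1.1 u ((hcc y z hyz).trans hu) (ih2.1 u hu h),
          fun u hu h => ih2.2 u ((hcc x y hxy).symm.trans hu) (ih1.2 u hu h)⟩
    intro x y hxy z hyz h2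
    exact (main x y hxy).1 z hyz h2
  have hrefl : ∀ x, ∀ ℓ, ℓ < d → ∀ β ∈ W ℓ, ∀ δ, A x x δ β ∈ S := by
    intro x ℓ hℓ β hβ δ
    by_cases hδ : δ = β
    · rw [hδ, (hA.refl ℓ (by omega) x β hβ).1]
      exact S.one_mem
    · rw [(hA.refl ℓ (by omega) x β hβ).2 δ hδ]
      exact S.zero_mem
  have hval : ∀ x y, c' x = c' y → ∀ ℓ, ℓ < d → ∀ β ∈ W ℓ, ∀ δ, A x y δ β ∈ S :=
    fun x y hxy => hmem x y (hc' x y hxy) y rfl (hrefl y)
  let A' : X → X → B → B → S := fun x y γ β => if h : A x y γ β ∈ S then ⟨A x y γ β, h⟩ else 0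
  have hA1 : ∀ x y, c' x = c' y → ∀ ℓ, ℓ < d → ∀ β ∈ W ℓ, ∀ δ, (A' x y δ β : R) = A x y δ β := by
    intro x y hxy ℓ hℓ β hβ δ
    simp only [A', dif_pos (hval x y hxy ℓ hℓ β hβ δ)]
  have hA' : Sys S d c' W A' :=
    { mono := hA.mono
      supp := by
        intro ℓ hℓ x y hxy β hβ γ hγ
        apply Subtype.ext
        rw [hA1 x y hxy ℓ hℓ β hβ γ, hA.supp ℓ (by omega) x y (hcc _ _ (hc' _ _ hxy)) β hβ γ hγ]
        rfl
      refl := by
        intro ℓ hℓ x β hβ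
        obtain ⟨h1, h2⟩ := hA.refl ℓ (by omega) x β hβ
        refine ⟨Subtype.ext ?_, fun γ hγ => Subtype.ext ?_⟩
        · rw [hA1 x x rfl ℓ hℓ β hβ, h1]
          rfl
        · rw [hA1 x x rfl ℓ hℓ β hβ, h2 γ hγ]
          rfl
      mul := by
        intro ℓ hℓ x y z h1 h2 β hβ δ
        apply Subtype.ext
        rw [hA1 x z (h1.trans h2) ℓ (by omega) β hβ δ,
          hA.mul ℓ (by omega) x y z (hcc _ _ (hc' _ _ h1)) (hcc _ _ (hc' _ _ h2)) β hβ δ]
        push_cast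
        refine Finset.sum_congr rfl fun γ hγ => ?_
        rw [hA1 x y h1 (ℓ + 1) hℓ γ hγ δ, hA1 y z h2 ℓ (by omega) β hβ γ] }
  let adj' : I → X → X → Prop := fun i x y => adj i x y ∧ c' x = c' y
  have hF' : ∀ i, FT d W A' (adj' i) := by
    intro i
    refine Set.Finite.subset ((hF i).preimage (f := fun s : S => (s : R))
      Subtype.val_injective.injOn) ?_
    rintro r ⟨ℓ, hℓ, x, y, hxy, β, hβ, γ, h | h⟩
    · refine ⟨ℓ, by omega, x, y, hxy.1, β, hβ, γ, Or.inl ?_⟩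
      rw [h]
      exact hA1 x y hxy.2 ℓ hℓ β hβ γ
    · refine ⟨ℓ, by omega, x, y, hxy.1, β, hβ, γ, Or.inr ?_⟩
      rw [h]
      exact hA1 y x hxy.2.symm ℓ hℓ β hβ γ
  have key := hG X (Quotient r) B c' W A' hA' I adj' (fun _ _ _ h => h.2) hF'
  refine key.mono (fun x y => c' x = c' y) (fun i => ⟨i, fun x y h1 h2 => ⟨h2, h1⟩⟩)
    (fun C => ?_) ?_
  · refine ⟨C.image (fun s : S => (s : R)), fun x y h1 h2 β hβ γ => ?_⟩
    rw [Finset.mem_image]
    exact ⟨A' x y γ β, h2 β hβ γ, hA1 x y h1 0 hd β hβ γ⟩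
  · rintro U ⟨Z, hZ, hUZ, hU⟩
    have h3 : ∀ x ∈ U, ∀ y ∈ U, c' x = c' y := by
      intro x hx y hy
      exact Quotient.sound ((hU x hx y hy).mono fun a b hab => hab.1)
    exact ⟨h3, U, h3, subset_rfl⟩

end Pool.Agent.N506.FX
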