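import Pool.Agent.N506.FF
import Pool.Agent.N506.EYG

/-!
# The tower step, for finite decomposition complexity
-/

namespace Pool.Agent.N506.FX

open Pool.Agent.N506.EX MonoidAlgebra

universe u v w

/-- The tower step. -/
theorem GoodF.tower {A : Type u} [CommRing A] {G : Type u} [Group G] (N : Subgroup G) [N.Normal]
    (O : ℕ → Set (MonoidAlgebra A G)) (hB : BddF (MonoidAlgebra A G) O)
    (T : ℕ → Finset (G ⧸ N))
    (hT : ∀ S, ∀ x ∈ O S, ∀ g, x.coeff g ≠ 0 → (g : G ⧸ N) ∈ T S) {d : ℕ}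
    (hN : GoodF (MonoidAlgebra A N) d) : GoodF (MonoidAlgebra A G) (d + 3) := by
  classical
  intro X K B c W M hM I adj hAdj hF
  have hM3 : Sys (MonoidAlgebra A G) (3 + d) c W M := hM.le (by omega)
  have hF3 : ∀ i, FT (3 + d) W M (adj i) := fun i => (hF i).le (by omega)
  have hS := hB X K B c (fun ℓ => W (ℓ + d)) M (hM3.shift d) I adj hAdj
    (fun i => (hF3 i).shift d)
  refine FD.fib_c c hS ?_
  intro S Z π K' κ hκ
  -- the windows
  obtain ⟨T', hT'0, hT's⟩ : ∃ T' : ℕ → Finset (G ⧸ N), T' 0 = {1} ∧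
      ∀ ℓ, T' (ℓ + 1) = T' ℓ ∪ Finset.image₂ (fun s t : G ⧸ N => s * t) (T S) (T' ℓ) :=
    ⟨fun ℓ => Nat.rec {1} (fun _ U => U ∪ Finset.image₂ (fun s t : G ⧸ N => s * t) (T S) U) ℓ,
      rfl, fun _ => rfl⟩
  have hT'm : ∀ ℓ, T' ℓ ⊆ T' (ℓ + 1) := fun ℓ => by
    rw [hT's]
    exact Finset.subset_union_left
  have hT'mm : ∀ m n, m ≤ n → T' m ⊆ T' n := by
    intro m n hmn
    induction n, hmn using Nat.le_induction with
    | base => exact subset_rfl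
    | succ n _ ih => exact ih.trans (hT'm n)
  have hT't : ∀ ℓ, ∀ t ∈ T S, ∀ τ ∈ T' ℓ, t * τ ∈ T' (ℓ + 1) := by
    intro ℓ t ht τ hτ
    rw [hT's]
    exact Finset.mem_union_right _ (Finset.mem_image₂_of_mem ht hτ)
  have hκc : ∀ z z', κ z = κ z' → c (π z) = c (π z') := fun z z' h => (hκ z z' h).2
  have hκO : ∀ z z', κ z = κ z' → ∀ ℓ, ℓ ≤ d → ∀ β ∈ W ℓ, ∀ γ, ∀ g,
      (M (π z) (π z') γ β).coeff g ≠ 0 → (g : G ⧸ N) ∈ T S := by
    intro z z' h ℓ hℓ β hβ γ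
    exact hT S _ ((hκ z z' h).1 β (hM.mono_le (by omega) hβ) γ)
  let e : G ⧸ N → MonoidAlgebra A G := fun τ => MonoidAlgebra.single (τ.out : G) (1 : A)
  let A' : Z → Z → B × (G ⧸ N) → B × (G ⧸ N) → MonoidAlgebra A N :=
    fun z z' p q => cf N p.2.out (M (π z) (π z') p.1 q.1 * e q.2)
  let W' : ℕ → Finset (B × (G ⧸ N)) := fun ℓ => W ℓ ×ˢ T' ℓ
  have hW' : ∀ ℓ p, p ∈ W' ℓ ↔ p.1 ∈ W ℓ ∧ p.2 ∈ T' ℓ := fun ℓ p => Finset.mem_product
  -- decomposition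
  have hdec : ∀ z z', κ z = κ z' → ∀ ℓ, ℓ ≤ d → ∀ β ∈ W ℓ, ∀ τ ∈ T' ℓ, ∀ γ,
      ∑ σ ∈ T' (ℓ + 1), e σ * inc N (A' z z' (γ, σ) (β, τ)) = M (π z) (π z') γ β * e τ := by
    intro z z' h ℓ hℓ β hβ τ hτ γ
    have h0 : ∀ g, (M (π z) (π z') γ β * e τ).coeff g ≠ 0 → (g : G ⧸ N) ∈ T' (ℓ + 1) := by
      intro g hg
      obtain ⟨t, ht, h1⟩ := coeff_mul_out N (hκO z z' h ℓ hℓ β hβ γ) τ g hg
      rw [h1]
      exact hT't ℓ t ht τ hτ
    exact cf_sum N (M (π z) (π z') γ β * e τ) (T' (ℓ + 1)) h0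
  have hA' : Sys (MonoidAlgebra A N) d κ W' A' :=
    { mono := by
        intro ℓ p hp
        rw [hW'] at hp ⊢
        exact ⟨hM.mono ℓ hp.1, hT'm ℓ hp.2⟩
      supp := by
        intro ℓ hℓ z z' h q hq p hp
        rw [hW'] at hq hp
        simp only [A']
        by_cases h1 : p.1 ∈ W (ℓ + 1)
        · refine cf_mul_out N (hκO z z' h ℓ hℓ.le q.1 hq.1 p.1) q.2 p.2 ?_
          intro t ht h2
          exact hp ⟨h1, h2 ▸ hT't ℓ t ht q.2 hq.2⟩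
        · rw [hM.supp ℓ (by omega) _ _ (hκc z z' h) q.1 hq.1 p.1 h1, zero_mul, map_zero]
      refl := by
        intro ℓ hℓ z q hq
        rw [hW'] at hq
        obtain ⟨h1, h2⟩ := hM.refl ℓ (by omega) (π z) q.1 hq.1
        refine ⟨by simp only [A']; rw [h1, one_mul]; exact cf_out_same N q.2, fun p hp => ?_⟩
        simp only [A']
        by_cases h : p.1 = q.1
        · rw [h, h1, one_mul]
          exact cf_out_ne N fun h3 => hp (Prod.ext h h3)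
        · rw [h2 p.1 h, zero_mul, map_zero]
      mul := by
        intro ℓ hℓ x y z h1 h2 q hq p
        rw [hW'] at hq
        change cf N p.2.out (M (π x) (π z) p.1 q.1 * e q.2) = _
        rw [hM.mul ℓ (by omega) _ _ _ (hκc x y h1) (hκc y z h2) q.1 hq.1 p.1, Finset.sum_mul,
          map_sum, Finset.sum_product]
        refine Finset.sum_congr rfl fun γ _ => ?_
        rw [mul_assoc, ← hdec y z h2 ℓ (by omega) q.1 hq.1 q.2 hq.2 γ, Finset.mul_sum, map_sum]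
        refine Finset.sum_congr rfl fun σ _ => ?_
        rw [← mul_assoc, cf_mul_inc] }
  have hF' : ∀ i, FT d W' A' (fun z z' => adj i (π z) (π z') ∧ κ z = κ z') := by
    intro i₀
    refine Set.Finite.subset ((hF i₀).biUnion (t := fun r => ⋃ τ ∈ (T' d : Set (G ⧸ N)),
      Set.range fun σ : G ⧸ N => cf N σ.out (r * e τ))
      (fun r _ => (T' d).finite_toSet.biUnion fun τ _ => cf_finite N _)) ?_
    rintro r ⟨ℓ, hℓ, x, y, hxy, q, hq, p, h⟩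
    rw [hW'] at hq
    simp only [Set.mem_iUnion]
    rcases h with h | h
    · exact ⟨_, ⟨ℓ, by omega, _, _, hxy.1, q.1, hq.1, p.1, Or.inl rfl⟩, q.2,
        hT'mm ℓ d hℓ.le hq.2, p.2, h.symm⟩
    · exact ⟨_, ⟨ℓ, by omega, _, _, hxy.1, q.1, hq.1, p.1, Or.inr rfl⟩, q.2,
        hT'mm ℓ d hℓ.le hq.2, p.2, h.symm⟩
  have key := hN Z K' _ κ W' A' hA' I (fun i z z' => adj i (π z) (π z') ∧ κ z = κ z')
    (fun _ _ _ h => h.2) hF'
  let F : (T' 1 → MonoidAlgebra A N) → MonoidAlgebra A G := fun b =>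
    (∑ σ : T' 1, e σ * inc N (b σ)) * MonoidAlgebra.single (((1 : G ⧸ N).out : G)⁻¹) (1 : A)
  refine key.mono (fun z z' => κ z = κ z') (fun i => ⟨i, fun x y h1 h2 => ⟨h2, h1⟩⟩)
    (fun C' => ?_) (fun Z hZ => ⟨hZ, Z, hZ, subset_rfl⟩)
  have hfin : (F '' {b | ∀ σ, b σ ∈ C'}).Finite :=
    (Set.Finite.pi' (t := fun _ => (C' : Set (MonoidAlgebra A N)))
      fun _ => C'.finite_toSet).image F
  refine ⟨hfin.toFinset, ?_⟩
  intro z z' hzz h β hβ γ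
  rw [Set.Finite.mem_toFinset]
  have h1 : (1 : G ⧸ N) ∈ T' 0 := by
    rw [hT'0]
    exact Finset.mem_singleton_self 1
  have h2 := hdec z z' hzz 0 (by omega) β hβ 1 h1 γ
  refine ⟨fun σ => A' z z' (γ, (σ : G ⧸ N)) (β, 1), fun σ => h (β, 1)
    (by rw [hW']; exact ⟨hβ, h1⟩) (γ, (σ : G ⧸ N)), ?_⟩
  simp only [F]
  have h3 : ∑ σ : T' 1, e σ * inc N (A' z z' (γ, (σ : G ⧸ N)) (β, 1)) =
      M (π z) (π z') γ β * e 1 := by
    rw [← h2]
    exact Finset.sum_coe_sort (T' 1) (fun σ => e σ * inc N (A' z z' (γ, σ) (β, 1)))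
  rw [h3, mul_assoc]
  simp only [e]
  rw [MonoidAlgebra.single_mul_single, mul_inv_cancel, one_mul, ← MonoidAlgebra.one_def, mul_one]

end Pool.Agent.N506.FX
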