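import Pool.Agent.N506.FG
import Pool.Agent.N506.EYI

/-!
# The degree of a homomorphism to the integers bounds
-/

namespace Pool.Agent.N506.FX

open Pool.Agent.N506.EX MonoidAlgebra

universe u v w

theorem BddF.mono {R : Type u} [Ring R] {O O' : ℕ → Set R} (h : BddF R O)
    (hO : ∀ S, ∃ S', O S ⊆ O' S') : BddF R O' := by
  intro X K B c W A hA I adj hAdj hF
  refine (h X K B c W A hA I adj hAdj hF).mono (fun _ _ => True)
    (fun i => ⟨i, fun _ _ _ h => h⟩) (fun S => ?_)
    (fun Z hZ => ⟨fun _ _ _ _ => trivial, Z, hZ, subset_rfl⟩)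
  obtain ⟨S', hS'⟩ := hO S
  exact ⟨S', fun x y _ h β hβ γ => hS' (h β hβ γ)⟩

theorem BddF.univ {R : Type u} [Ring R] : BddF R (fun _ => Set.univ) := by
  intro X K B c W A hA I adj hAdj hF
  exact FD.bdd _ 0 fun Z _ x _ y _ β _ γ => trivial

/-- The degree of a homomorphism to `ℤ` bounds. -/
theorem BddF.phi {A : Type u} [CommRing A] [IsDomain A] {G : Type u} [Group G]
    [NoZeroDivisors (MonoidAlgebra (FractionRing A) G)]
    (hLO : LO (MonoidAlgebra (FractionRing A) G)) (φ : G →* Multiplicative ℤ) :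
    BddF (MonoidAlgebra A G)
      (fun S => {x | ∀ g, x.coeff g ≠ 0 → -(S:ℤ) ≤ (φ g).toAdd}) := by
  by_cases hφ : ∃ g, φ g ≠ 1
  · obtain ⟨φ', t, k, hk, ht, hg⟩ := exists_prim φ hφ
    have hOre : Nonempty (OreLocalization.OreSet
        (nonZeroDivisors (MonoidAlgebra (FractionRing A) G))) := by
      rw [OreLocalization.nonempty_oreSet_iff_of_noZeroDivisors]
      intro r s
      obtain ⟨r', s', hs', h1⟩ := hLO r s (nonZeroDivisors.ne_zero s.2)
      exact ⟨r', ⟨s', mem_nonZeroDivisors_of_ne_zero hs'⟩, h1⟩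
    obtain ⟨inst⟩ := hOre
    let E := OreLocalization (nonZeroDivisors (MonoidAlgebra (FractionRing A) G))
      (MonoidAlgebra (FractionRing A) G)
    let j : MonoidAlgebra (FractionRing A) G →+* E := OreLocalization.numeratorRingHom
    have hj : Function.Injective j := OreLocalization.numeratorHom_inj (by
      intro x hx
      exact (mem_nonZeroDivisors_iff.mp hx).1)
    have hfrac : ∀ a : E, ∃ s r, s ≠ 0 ∧ j s * a = j r := by
      intro a
      induction a using OreLocalization.ind with
      | _ r s =>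
        refine ⟨s, r, nonZeroDivisors.ne_zero s.2, ?_⟩
        change ((s : MonoidAlgebra (FractionRing A) G) /ₒ 1) * (r /ₒ s) = r /ₒ 1
        exact OreLocalization.mul_cancel
    have ht0 : MonoidAlgebra.single t (1 : FractionRing A) ≠ 0 :=
      MonoidAlgebra.single_ne_zero.mpr one_ne_zero
    let V : DV E := DV.ofOre hLO j hj hfrac (ord φ') (fun a b ha hb => ord_mul φ' ha hb)
      (fun a b ha hb hab => ord_add φ' ha hb hab) (MonoidAlgebra.single t 1) ht0
      (by rw [ord_single, ht])
    let ι : MonoidAlgebra A G →+* MonoidAlgebra (FractionRing A) G :=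
      MonoidAlgebra.mapRingHom G (algebraMap A (FractionRing A))
    refine (BddF.dv V (j.comp ι)).mono fun S => ⟨k * S, ?_⟩
    intro x hx g hgx
    have h1 : j (ι x) ∈ V.O (-(S:ℤ)) := hx
    rw [DV.mem_ofOre] at h1
    have h2 : (ι x).coeff g ≠ 0 := by
      intro h2
      apply hgx
      apply IsFractionRing.injective A (FractionRing A)
      rw [map_zero]
      exact h2
    have h3 : ι x ≠ 0 := by
      intro h3
      rw [h3] at h2
      exact h2 rfl
    have h4 := (ord_spec φ' h3).2 g h2
    have h5 := h1.resolve_left h3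
    rw [hg g]
    have hk' : (0:ℤ) ≤ k := by omega
    push_cast
    nlinarith
  · push Not at hφ
    refine BddF.univ.mono fun S => ⟨0, ?_⟩
    intro x _ g _
    rw [hφ g]
    simp

end Pool.Agent.N506.FX
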