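import Pool.Agent.N506.FI
import Pool.Agent.N506.EYJ

/-!
# Group rings of poly-(torsion-free abelian) groups, finite decomposition complexity
-/

namespace Pool.Agent.N506.FX

open Pool.Agent.N506.EX MonoidAlgebra

universe u v w

/-- Goodness, `ℤ^s` quotients. -/
theorem GoodF.fin {A : Type u} [CommRing A] [IsDomain A] (s : ℕ) {G : Type u} [Group G]
    (hU : UniqueProds G) (hLO : LO (MonoidAlgebra (FractionRing A) G))
    (φ : Fin s → (G →* Multiplicative ℤ)) (N : Subgroup G)
    (hN : ∀ g, g ∈ N ↔ ∀ i, φ i g = 1) {d : ℕ} (h : GoodF (MonoidAlgebra A N) d) :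
    GoodF (MonoidAlgebra A G) (d + 3) := by
  classical
  have hnormal : N.Normal := ⟨fun n hn g => by
    rw [hN] at hn ⊢
    intro i
    rw [map_mul, map_mul, hn i, mul_one, map_inv, mul_inv_cancel]⟩
  let φ' : Fin s × Bool → (G →* Multiplicative ℤ) := fun p => if p.2 then φ p.1 else (φ p.1)⁻¹
  have hφ1 : ∀ i g, (φ' (i, true) g).toAdd = (φ i g).toAdd := fun i g => rfl
  have hφ2 : ∀ i g, (φ' (i, false) g).toAdd = -(φ i g).toAdd := fun i g => rfl
  have hB := BddF.pi (R := MonoidAlgebra A G) (Finset.univ : Finset (Fin s × Bool))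
    (fun p S => {x | ∀ g, x.coeff g ≠ 0 → -(S:ℤ) ≤ (φ' p g).toAdd})
    (fun p m n hmn x hx g hg => le_trans (by omega) (hx g hg)) (fun p _ => BddF.phi hLO (φ' p))
  -- the finite sets of cosets
  have hfin : ∀ S : ℕ, {q : G ⧸ N | ∀ i, -(S:ℤ) ≤ (φ i q.out).toAdd ∧
      (φ i q.out).toAdd ≤ S}.Finite := by
    intro S
    have h1 : {f : Fin s → ℤ | ∀ i, f i ∈ Set.Icc (-(S:ℤ)) S}.Finite :=
      Set.Finite.pi' fun _ => Set.finite_Icc _ _
    refine Set.Finite.of_finite_image (f := fun q : G ⧸ N => fun i => (φ i q.out).toAdd)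
      (h1.subset ?_) ?_
    · rintro _ ⟨q, hq, rfl⟩ i
      exact hq i
    · intro q _ q' _ hqq
      have h2 : (q.out : G)⁻¹ * q'.out ∈ N := by
        rw [hN]
        intro i
        have h3 : (φ i q.out).toAdd = (φ i q'.out).toAdd := congrFun hqq i
        rw [map_mul, map_inv, Multiplicative.toAdd.injective h3, inv_mul_cancel]
      rw [← QuotientGroup.eq, QuotientGroup.out_eq', QuotientGroup.out_eq'] at h2
      exact h2
  refine GoodF.tower N _ hB (fun S => (hfin S).toFinset) ?_ h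
  intro S x hx g hg
  rw [Set.Finite.mem_toFinset]
  intro i
  simp only [Set.mem_iInter] at hx
  have h1 : -(S:ℤ) ≤ (φ' (i, true) g).toAdd := hx (i, true) (Finset.mem_univ _) g hg
  have h2 : -(S:ℤ) ≤ (φ' (i, false) g).toAdd := hx (i, false) (Finset.mem_univ _) g hg
  rw [hφ1] at h1
  rw [hφ2] at h2
  have h3 : φ i ((g : G ⧸ N).out) = φ i g := by
    have h4 : ((g : G ⧸ N).out)⁻¹ * g ∈ N := by
      rw [← QuotientGroup.eq, QuotientGroup.out_eq']
    rw [hN] at h4
    have h5 := h4 i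
    rw [map_mul, map_inv, inv_mul_eq_one] at h5
    exact h5
  rw [h3]
  omega

/-- Goodness, torsion-free abelian quotients. -/
theorem GoodF.tf {A : Type u} [CommRing A] [IsDomain A] {G : Type u} [Group G]
    {H : Type u} [CommGroup H] [IsMulTorsionFree H] (φ : G →* H) (hP : PolyTFA φ.ker)
    {d : ℕ} (h : GoodF (MonoidAlgebra A φ.ker) d) : GoodF (MonoidAlgebra A G) (d + 4) := by
  classical
  have hU : UniqueProds G := (PolyTFA.ext G H φ hP).uniqueProds
  refine GoodF.of_local (by omega) fun F hF => ?_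
  obtain ⟨F, rfl⟩ := hF.exists_finset_coe
  obtain ⟨G₁, s, ψ, hF1, hle, hψ⟩ := exists_local φ (F.biUnion fun x => x.coeff.support)
  have h1 : GoodF (MonoidAlgebra A (φ.ker.subgroupOf G₁)) d :=
    h.of_injective (MonoidAlgebra.mapDomainRingEquiv A
      (Subgroup.subgroupOfEquivOfLe hle)).toRingHom (RingEquiv.injective _)
  have hLOk : LO (MonoidAlgebra (FractionRing A) (φ.ker.subgroupOf G₁)) :=
    (hP.lo (FractionRing A)).congr
      (MonoidAlgebra.mapDomainRingEquiv (FractionRing A) (Subgroup.subgroupOfEquivOfLe hle).symm)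
  have hU1 : UniqueProds G₁ := UniqueProds.subgroup hU G₁
  have hLO := LO.fin s G₁ hU1 ψ _ hψ hLOk
  have h2 := GoodF.fin s hU1 hLO ψ _ hψ h1
  refine ⟨(inc (A := A) G₁).range, ?_, ?_⟩
  · intro x hx
    obtain ⟨y, rfl⟩ := exists_inc G₁ x (fun g hg => hF1 g (Finset.mem_biUnion.mpr
      ⟨x, hx, Finsupp.mem_support_iff.mpr hg⟩))
    exact ⟨y, rfl⟩
  · let e : MonoidAlgebra A G₁ ≃+* (inc (A := A) G₁).range :=
      RingEquiv.ofBijective (inc (A := A) G₁).rangeRestrict
        ⟨fun x y hxy => inc_injective G₁ (congrArg Subtype.val hxy),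
          (inc (A := A) G₁).rangeRestrict_surjective⟩
    exact h2.of_injective e.symm.toRingHom e.symm.injective

/-- Group rings of poly-(torsion-free abelian) groups. -/
theorem _root_.Pool.Agent.N506.EX.PolyTFA.goodF {G : Type u} [Group G] (h : PolyTFA G) :
    ∃ e : ℕ, ∀ (A : Type u) [CommRing A] [IsDomain A] (d : ℕ), GoodF A d →
      GoodF (MonoidAlgebra A G) (d + e) := by
  induction h with
  | triv G =>
    refine ⟨0, fun A _ _ d hA => ?_⟩
    exact hA.of_injective (MonoidAlgebra.uniqueRingEquiv (R := A) (M := G)).toRingHom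
      (RingEquiv.injective _)
  | ext G H φ h ih =>
    obtain ⟨e, he⟩ := ih
    exact ⟨e + 4, fun A _ _ d hA => GoodF.tf φ h (he A d hA)⟩

end Pool.Agent.N506.FX
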