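import Pool.Agent.N506.FK
import Pool.Agent.N506.EYL

/-!
# Every finite subset of a field lies in a good subring
-/

namespace Pool.Agent.N506.FX

open Pool.Agent.N506.EX Polynomial

universe u v w

/-- Polynomial rings. -/
theorem GoodF.polynomial {A : Type u} [CommRing A] [IsDomain A] {d : ℕ} (h : GoodF A d) :
    ∃ d', GoodF A[X] d' := by
  classical
  obtain ⟨e, he⟩ := (polyTFA_ZU.{u}).goodF
  refine ⟨d + e, (he A d h).of_injective
    (Polynomial.aeval (R := A) (MonoidAlgebra.single (zt.{u}) (1 : A))).toRingHom ?_⟩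
  have h1 : ∀ (p : A[X]) (n : ℕ), (Polynomial.aeval (R := A)
      (MonoidAlgebra.single (zt.{u}) (1 : A)) p).coeff (zt ^ n) = p.coeff n := by
    intro p n
    induction p using Polynomial.induction_on' with
    | add p q hp hq =>
      rw [map_add, MonoidAlgebra.coeff_add, Finsupp.add_apply, hp, hq, Polynomial.coeff_add]
    | monomial m a =>
      rw [Polynomial.aeval_monomial, MonoidAlgebra.single_pow, one_pow, ← Algebra.smul_def,
        MonoidAlgebra.coeff_smul, Finsupp.smul_apply, MonoidAlgebra.coeff_single,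
        Finsupp.single_apply, Polynomial.coeff_monomial]
      by_cases hmn : m = n
      · rw [if_pos hmn, if_pos (by rw [hmn]), smul_eq_mul, mul_one]
      · rw [if_neg hmn, if_neg (fun h => hmn (zt_pow_injective h)), smul_zero]
  intro p q hpq
  ext n
  rw [← h1 p n, ← h1 q n]
  exact congrArg (fun x => x.coeff (zt ^ n)) hpq

section Away

variable {A : Type u} [CommRing A] [IsDomain A] (F : A[X])

/-- Localizations of polynomial rings. -/
theorem GoodF.away_poly {d : ℕ} (h : GoodF A d) (hF : F.Monic) (hd : 0 < F.natDegree) :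
    ∃ d', GoodF (Localization.Away F) d' := by
  classical
  obtain ⟨d', h1⟩ := h.polynomial
  have hF0 : F ≠ 0 := hF.ne_zero
  have h2 : GoodF (B₁ A) d' := h1.matrix _
    (Algebra.leftMulMatrix (AdjoinRoot.powerBasis' (P₁_monic A)).basis).toRingHom
    (Algebra.leftMulMatrix_injective _)
  have h3 : GoodF (B₂ F) d' := h2.matrix _
    (Algebra.leftMulMatrix (AdjoinRoot.powerBasis' (P₂_monic F hF hd)).basis).toRingHom
    (Algebra.leftMulMatrix_injective _)
  refine ⟨d', h3.of_injective (IsLocalization.Away.lift (S := Localization.Away F) F (α₂_F F)) ?_⟩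
  rw [injective_iff_map_eq_zero]
  intro z hz
  obtain ⟨⟨a, s⟩, hs⟩ := IsLocalization.surj (Submonoid.powers F) z
  have h4 := congrArg (IsLocalization.Away.lift (S := Localization.Away F) F (α₂_F F)) hs
  rw [map_mul, hz, zero_mul, IsLocalization.Away.lift_eq] at h4
  have h5 := Θ₂_α₂ F hF0 a
  rw [← h4, map_zero] at h5
  have h6 : a = 0 := IsFractionRing.injective A[X] (TT' A) (by rw [← h5, map_zero])
  rw [h6, map_zero] at hs
  exact (IsLocalization.map_units (Localization.Away F) s).mul_left_eq_zero.mp hs

end Away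

/-- Rational function fields. -/
theorem FGoodF.ratFunc {K : Type u} [Field K] (hK : FGoodF K) : FGoodF (RatFunc K) := by
  classical
  intro s
  obtain ⟨b, hb⟩ := IsLocalization.exist_integer_multiples_of_finset (nonZeroDivisors K[X]) s
  have hb0 : (b : K[X]) ≠ 0 := nonZeroDivisors.coe_ne_zero b
  -- a monic denominator of positive degree
  obtain ⟨f, hfm, hfd, hf⟩ : ∃ f : K[X], f.Monic ∧ 0 < f.natDegree ∧
      ∀ x ∈ s, ∃ p : K[X], algebraMap K[X] (RatFunc K) f * x = algebraMap K[X] (RatFunc K) p := by
    have h0 : X * (b : K[X]) ≠ 0 := mul_ne_zero X_ne_zero hb0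
    have hlc : (X * (b : K[X])).leadingCoeff ≠ 0 := leadingCoeff_ne_zero.mpr h0
    refine ⟨(X * (b : K[X])) * C (X * (b : K[X])).leadingCoeff⁻¹,
      monic_mul_leadingCoeff_inv h0, ?_, fun x hx => ?_⟩
    · rw [natDegree_mul_C (inv_ne_zero hlc), natDegree_X_mul hb0]
      omega
    · obtain ⟨a, ha⟩ := hb x hx
      refine ⟨X * C (X * (b : K[X])).leadingCoeff⁻¹ * a, ?_⟩
      rw [map_mul, map_mul, map_mul, ha, Algebra.smul_def, map_mul]
      change _ = _ * (algebraMap K[X] (RatFunc K) (b : K[X]) * x)
      ring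
  choose! p hp using hf
  obtain ⟨S, d, hS, hd⟩ := hK (f.coeffs ∪ s.biUnion fun x => (p x).coeffs)
  have hfS : (↑f.coeffs : Set K) ⊆ S := fun c hc => hS (Finset.mem_coe.mpr
    (Finset.mem_union_left _ hc))
  let F : S[X] := f.toSubring S hfS
  have hFf : F.map S.subtype = f := Polynomial.map_toSubring _ _ _
  have hFm : F.Monic := (Polynomial.monic_toSubring f S hfS).mpr hfm
  have hFd : 0 < F.natDegree := by
    rw [Polynomial.natDegree_toSubring]
    exact hfd
  obtain ⟨d', hL⟩ := hd.away_poly F hFm hFd
  let g : S[X] →+* RatFunc K := (algebraMap K[X] (RatFunc K)).comp (Polynomial.mapRingHom S.subtype)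
  have hg : Function.Injective g := by
    intro x y hxy
    exact Polynomial.map_injective _ S.subtype_injective
      (IsFractionRing.injective K[X] (RatFunc K) hxy)
  have hgF : IsUnit (g F) := by
    rw [isUnit_iff_ne_zero]
    intro h
    exact hFm.ne_zero (hg (by rw [h, map_zero]))
  let Λ : Localization.Away F →+* RatFunc K := IsLocalization.Away.lift F hgF
  have hΛ : Function.Injective Λ := by
    rw [injective_iff_map_eq_zero]
    intro z hz
    obtain ⟨⟨a, t⟩, ht⟩ := IsLocalization.surj (Submonoid.powers F) z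
    have h4 := congrArg Λ ht
    rw [map_mul, hz, zero_mul, IsLocalization.Away.lift_eq] at h4
    have h6 : a = 0 := hg (by rw [← h4, map_zero])
    rw [h6, map_zero] at ht
    exact (IsLocalization.map_units (Localization.Away F) t).mul_left_eq_zero.mp ht
  refine ⟨Λ.range, d', fun x hx => ?_, hL.range Λ hΛ⟩
  have hpS : (↑(p x).coeffs : Set K) ⊆ S := fun c hc => hS (Finset.mem_coe.mpr
    (Finset.mem_union_right _ (Finset.mem_biUnion.mpr ⟨x, hx, hc⟩)))
  refine ⟨IsLocalization.mk' (Localization.Away F) ((p x).toSubring S hpS)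
    (⟨F, Submonoid.mem_powers F⟩ : Submonoid.powers F), ?_⟩
  have h1 : Λ (algebraMap S[X] (Localization.Away F) F) ≠ 0 := by
    rw [IsLocalization.Away.lift_eq]
    exact hgF.ne_zero
  apply mul_left_cancel₀ h1
  rw [← map_mul, mul_comm (algebraMap S[X] (Localization.Away F) F),
    show algebraMap S[X] (Localization.Away F) F = algebraMap S[X] (Localization.Away F)
      ((⟨F, Submonoid.mem_powers F⟩ : Submonoid.powers F) : S[X]) from rfl,
    IsLocalization.mk'_spec, IsLocalization.Away.lift_eq, IsLocalization.Away.lift_eq]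
  change algebraMap K[X] (RatFunc K) (((p x).toSubring S hpS).map S.subtype) =
    algebraMap K[X] (RatFunc K) (F.map S.subtype) * x
  rw [hFf, hp x hx, Polynomial.map_toSubring]

open IntermediateField in
/-- Simple extensions. -/
theorem FGoodF.adjoin_simple {K : Type u} [Field K] {E : Type u} [Field E] [Algebra K E]
    (hK : FGoodF K) (x : E) : FGoodF K⟮x⟯ := by
  by_cases hx : IsAlgebraic K x
  · have : FiniteDimensional K K⟮x⟯ := IntermediateField.adjoin.finiteDimensional hx.isIntegral
    exact FGoodF.of_finiteDimensional (F := K) (K := K⟮x⟯) hK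
  · have e := RatFunc.algEquivOfTranscendental (K := K) x hx
    exact hK.ratFunc.of_injective (e.symm : K⟮x⟯ →+* RatFunc K) e.symm.injective

theorem FGoodF.of_algebra {F : Type u} [Field F] {E : Type u} [Field E] [Algebra F E]
    (hF : FGoodF F) : FGoodF E := by
  classical
  refine FGoodF.of_local fun s => ?_
  refine ⟨(IntermediateField.adjoin F (s : Set E)).toSubring,
    IntermediateField.subset_adjoin F _, ?_⟩
  refine IntermediateField.induction_on_adjoin_finset s
    (fun L : IntermediateField F E => FGoodF L.toSubring) ?_ ?_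
  · exact hF.of_injective ((IntermediateField.botEquiv F E : _ ≃ₐ[F] F) :
      (⊥ : IntermediateField F E) →+* F) (IntermediateField.botEquiv F E).injective
  · intro L x _ hL
    have h1 : FGoodF L := hL
    exact h1.adjoin_simple x

theorem FGoodF.field (K : Type u) [Field K] : FGoodF K := by
  obtain ⟨p, hp⟩ := CharP.exists K
  rcases CharP.char_is_prime_or_zero K p with hprime | h0
  · have : Fact p.Prime := ⟨hprime⟩
    have h1 : FGoodF (ULift.{u} (ZMod p)) := fgoodF_of_finite
    let _ : Algebra (ULift.{u} (ZMod p)) K :=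
      ((ZMod.castHom (dvd_refl p) K).comp (ULift.ringEquiv : ULift.{u} (ZMod p) ≃+* ZMod p).toRingHom).toAlgebra
    exact FGoodF.of_algebra h1
  · subst h0
    have : CharZero K := CharP.charP_to_charZero K
    have h1 : FGoodF (ULift.{u} ℚ) := fgoodF_rat
    let _ : Algebra (ULift.{u} ℚ) K :=
      ((algebraMap ℚ K).comp (ULift.ringEquiv : ULift.{u} ℚ ≃+* ℚ).toRingHom).toAlgebra
    exact FGoodF.of_algebra h1

end Pool.Agent.N506.FX
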