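import Pool.Agent.N506.FL
import Pool.Agent.N506.EYN

/-!
# Matrix groups over rings, finite decomposition complexity
-/

namespace Pool.Agent.N506.FX

open Pool.Agent.N506.EX MonoidAlgebra

universe u v w

theorem MFd.of_injective {R : Type u} [Ring R] {S : Type v} [Ring S] (hS : MFd S) (f : R →+* S)
    (hf : Function.Injective f) : MFd R :=
  fun n => FDC.of_injective (hS n) (glMap n f) (glMap_injective n f hf)

theorem MFd.index {S : Type v} [Ring S] (hS : MFd S) (ι : Type w) [Fintype ι] [DecidableEq ι] :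
    FDC (Matrix ι ι S)ˣ := by
  let e : ι ≃ Fin (Fintype.card ι) := Fintype.equivFin ι
  have e2 : (Matrix ι ι S) ≃+* Matrix (Fin (Fintype.card ι)) (Fin (Fintype.card ι)) S :=
    { toFun := fun M => M.submatrix e.symm e.symm
      invFun := fun M => M.submatrix e e
      left_inv := fun M => by ext; simp
      right_inv := fun M => by ext; simp
      map_mul' := fun M N => (Matrix.submatrix_mul_equiv M N e.symm e.symm e.symm).symm
      map_add' := fun M N => rfl }
  exact (FDC.equiv (Units.mapEquiv e2.toMulEquiv)).mpr (hS _)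

theorem MFd.matrix {S : Type v} [Ring S] (hS : MFd S) (ι : Type w) [Fintype ι] [DecidableEq ι] :
    MFd (Matrix ι ι S) := by
  intro n
  have := (Matrix.compRingEquiv (Fin n) ι S)
  exact (FDC.equiv (Units.mapEquiv this.toMulEquiv)).mpr (hS.index _)

theorem MFd.of_finite {S : Type v} [Ring S] [Finite S] : MFd S := by
  intro n
  have : Finite (Matrix (Fin n) (Fin n) S)ˣ := by
    have : Finite (Matrix (Fin n) (Fin n) S) := Pi.finite
    exact Finite.of_injective (fun x : (Matrix (Fin n) (Fin n) S)ˣ =>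
      (x : Matrix (Fin n) (Fin n) S)) Units.val_injective
  exact FDC.of_finite

theorem MFd.prod {R : Type u} [Ring R] {S : Type v} [Ring S] (hR : MFd R) (hS : MFd S) :
    MFd (R × S) := by
  intro n
  refine FDC.of_injective ((hR n).prod (hS n))
    ((glMap n (RingHom.fst R S)).prod (glMap n (RingHom.snd R S))) ?_
  intro a b hab
  rw [MonoidHom.prod_apply, MonoidHom.prod_apply, Prod.mk.injEq] at hab
  apply Units.ext
  ext i j
  · have := congrArg (fun x : (Matrix (Fin n) (Fin n) R)ˣ =>
      (x : Matrix (Fin n) (Fin n) R) i j) hab.1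
    exact this
  · have := congrArg (fun x : (Matrix (Fin n) (Fin n) S)ˣ =>
      (x : Matrix (Fin n) (Fin n) S) i j) hab.2
    exact this

/-- Matrix-exactness is local. -/
theorem MFd.of_local {R : Type u} [Ring R]
    (h : ∀ s : Finset R, ∃ S : Subring R, (s : Set R) ⊆ S ∧ MFd S) : MFd R := by
  classical
  intro n
  refine FDC.of_fg fun H hH => ?_
  obtain ⟨F, hF⟩ := hH
  let s : Finset R := F.biUnion fun g => Finset.univ.biUnion fun i => Finset.univ.biUnion fun j =>
    {(g : Matrix (Fin n) (Fin n) R) i j,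
      ((g⁻¹ : (Matrix (Fin n) (Fin n) R)ˣ) : Matrix (Fin n) (Fin n) R) i j}
  obtain ⟨S, hs, hS⟩ := h s
  have hHS : H ≤ (glMap n S.subtype).range := by
    rw [← hF, Subgroup.closure_le]
    intro g hg
    have h1 : ∀ i j, (g : Matrix (Fin n) (Fin n) R) i j ∈ S := fun i j => hs (by
      simp only [s, Finset.coe_biUnion, Set.mem_iUnion]
      exact ⟨g, hg, i, Finset.mem_coe.mpr (Finset.mem_univ _), j,
        Finset.mem_coe.mpr (Finset.mem_univ _), by simp⟩)
    have h2 : ∀ i j, ((g⁻¹ : (Matrix (Fin n) (Fin n) R)ˣ) : Matrix (Fin n) (Fin n) R) i j ∈ S :=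
      fun i j => hs (by
      simp only [s, Finset.coe_biUnion, Set.mem_iUnion]
      exact ⟨g, hg, i, Finset.mem_coe.mpr (Finset.mem_univ _), j,
        Finset.mem_coe.mpr (Finset.mem_univ _), by simp⟩)
    have hmapinj : Function.Injective (S.subtype.mapMatrix :
        Matrix (Fin n) (Fin n) S →+* Matrix (Fin n) (Fin n) R) := by
      intro a b hab
      ext i j
      exact congrFun (congrFun hab i) j
    refine ⟨⟨Matrix.of fun i j => ⟨_, h1 i j⟩, Matrix.of fun i j => ⟨_, h2 i j⟩, ?_, ?_⟩, ?_⟩
    · apply hmapinj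
      rw [map_mul, map_one]
      exact g.mul_inv
    · apply hmapinj
      rw [map_mul, map_one]
      exact g.inv_mul
    · apply Units.ext
      rfl
  have hEx : FDC (glMap n S.subtype).range := by
    have e := (MonoidHom.ofInjective (glMap_injective n S.subtype S.subtype_injective))
    exact (FDC.equiv e).mp (hS n)
  exact FDC.of_injective hEx (Subgroup.inclusion hHS) (Subgroup.inclusion_injective _)

/-- Square-zero kernels. -/
theorem MFd.of_sq_zero {R : Type u} [Ring R] {S : Type v} [Ring S] (hS : MFd S) (f : R →+* S)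
    (hf : ∀ x y, f x = 0 → f y = 0 → x * y = 0) : MFd R := by
  intro n
  refine FDC.ext (glMap n f) (hS n) ?_
  have key : ∀ a b : (glMap n f).ker, ∀ i j,
      (((a : (Matrix (Fin n) (Fin n) R)ˣ) : Matrix (Fin n) (Fin n) R) *
        ((b : (Matrix (Fin n) (Fin n) R)ˣ) : Matrix (Fin n) (Fin n) R)) i j =
      ((a : (Matrix (Fin n) (Fin n) R)ˣ) : Matrix (Fin n) (Fin n) R) i j +
        ((b : (Matrix (Fin n) (Fin n) R)ˣ) : Matrix (Fin n) (Fin n) R) i j -
        (1 : Matrix (Fin n) (Fin n) R) i j := by
    intro a b i j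
    set A : Matrix (Fin n) (Fin n) R := ((a : (Matrix (Fin n) (Fin n) R)ˣ) :
      Matrix (Fin n) (Fin n) R) with hA
    set B : Matrix (Fin n) (Fin n) R := ((b : (Matrix (Fin n) (Fin n) R)ˣ) :
      Matrix (Fin n) (Fin n) R) with hB
    have h1 : ∀ i j, f ((A - 1) i j) = 0 := by
      intro i j
      rw [Matrix.sub_apply, map_sub, hA, ← glMap_apply, (MonoidHom.mem_ker).mp a.2]
      rw [Units.val_one, Matrix.one_apply, Matrix.one_apply]
      split_ifs <;> simp
    have h2 : ∀ i j, f ((B - 1) i j) = 0 := by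
      intro i j
      rw [Matrix.sub_apply, map_sub, hB, ← glMap_apply, (MonoidHom.mem_ker).mp b.2]
      rw [Units.val_one, Matrix.one_apply, Matrix.one_apply]
      split_ifs <;> simp
    have h3 : (A - 1) * (B - 1) = 0 := by
      ext i j
      rw [Matrix.mul_apply, Matrix.zero_apply]
      exact Finset.sum_eq_zero fun k _ => hf _ _ (h1 _ _) (h2 _ _)
    have h4 : A * B = A + B - 1 := by
      have h5 : (A - 1) * (B - 1) = A * B - (A + B - 1) := by noncomm_ring
      rw [h3] at h5
      exact (sub_eq_zero.mp h5.symm)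
    rw [h4]
    rfl
  let C : CommGroup (glMap n f).ker :=
    { (inferInstance : Group (glMap n f).ker) with
      mul_comm := by
        intro a b
        apply Subtype.ext
        apply Units.ext
        ext i j
        show (((a : (Matrix (Fin n) (Fin n) R)ˣ) : Matrix (Fin n) (Fin n) R) *
          ((b : (Matrix (Fin n) (Fin n) R)ˣ) : Matrix (Fin n) (Fin n) R)) i j =
          (((b : (Matrix (Fin n) (Fin n) R)ˣ) : Matrix (Fin n) (Fin n) R) *
          ((a : (Matrix (Fin n) (Fin n) R)ˣ) : Matrix (Fin n) (Fin n) R)) i j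
        rw [key, key, add_comm (((a : (Matrix (Fin n) (Fin n) R)ˣ) :
          Matrix (Fin n) (Fin n) R) i j)] }
  exact @FDC.comm _ C

/-- Group rings of poly-(torsion-free abelian) groups over fields. -/
theorem _root_.Pool.Agent.N506.EX.PolyTFA.mfd {G : Type u} [Group G] (h : PolyTFA G) (K : Type u) [Field K] :
    MFd (MonoidAlgebra K G) := by
  classical
  obtain ⟨e, he⟩ := h.goodF
  refine MFd.of_local fun s => ?_
  obtain ⟨S, d, hS, hd⟩ := FGoodF.field K (s.biUnion fun x => x.coeff.support.image fun g => x.coeff g)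
  let f : MonoidAlgebra S G →+* MonoidAlgebra K G := MonoidAlgebra.mapRingHom G S.subtype
  have hf : Function.Injective f := mapRingHom_injective S.subtype S.subtype_injective
  refine ⟨f.range, ?_, ((he S d hd).range f hf).mfd⟩
  intro x hx
  have h1 : ∀ g, x.coeff g ∈ S := by
    intro g
    by_cases hg : x.coeff g = 0
    · rw [hg]
      exact S.zero_mem
    · apply hS
      simp only [Finset.coe_biUnion, Set.mem_iUnion]
      exact ⟨x, hx, Finset.mem_coe.mpr (Finset.mem_image_of_mem _ (Finsupp.mem_support_iff.mpr hg))⟩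
  refine ⟨∑ g ∈ x.coeff.support, MonoidAlgebra.single g (⟨x.coeff g, h1 g⟩ : S), ?_⟩
  rw [map_sum]
  conv_rhs => rw [← MonoidAlgebra.sum_coeff_single x]
  rw [Finsupp.sum]
  refine Finset.sum_congr rfl fun g _ => ?_
  exact MonoidAlgebra.map_single _ _ _

end Pool.Agent.N506.FX
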