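import Pool.Agent.N506.FM

/-!
# Group rings, finite decomposition complexity
-/

namespace Pool.Agent.N506.FX

open Pool.Agent.N506.EX MonoidAlgebra

universe u v w

theorem mfd_monoidAlgebra_of_injective {k : Type u} [CommRing k] {M N : Type u} [Monoid M]
    [Monoid N] (h : MFd (MonoidAlgebra k N)) (f : M →* N) (hf : Function.Injective f) :
    MFd (MonoidAlgebra k M) :=
  h.of_injective (MonoidAlgebra.mapDomainRingHom k f) (MonoidAlgebra.mapDomain_injective hf)

section FI

variable (k : Type u) [CommRing k] {G : Type u} [Group G] (H : Subgroup G)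

/-- Finite index overgroups. -/
theorem mfd_finiteIndex [H.FiniteIndex] (h : MFd (MonoidAlgebra k H)) :
    MFd (MonoidAlgebra k G) := by
  classical
  have : Fintype (G ⧸ H) := H.fintypeQuotientOfFiniteIndex
  exact (h.matrix (G ⧸ H)).of_injective (cosetRep k H).toRingHom (cosetRep_injective k H)

end FI

/-- Base change to the fraction field. -/
theorem mfd_fraction (k : Type u) [CommRing k] [IsDomain k] (M : Type u) [Monoid M]
    (h : MFd (MonoidAlgebra (FractionRing k) M)) : MFd (MonoidAlgebra k M) := by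
  refine h.of_injective (MonoidAlgebra.mapRingHom M (algebraMap k (FractionRing k))) ?_
  intro x y hxy
  rw [← MonoidAlgebra.coeff_inj]
  ext g
  have := congrArg (fun z : MonoidAlgebra (FractionRing k) M => z.coeff g) hxy
  simp only [MonoidAlgebra.coeff_mapRingHom] at this
  exact IsFractionRing.injective k (FractionRing k) this

section coeff

variable {M : Type u} [Monoid M]

/-- Noetherian coefficient rings. -/
theorem mfd_noetherian (h : ∀ (K : Type u) [Field K], MFd (MonoidAlgebra K M))
    (A : Type u) [CommRing A] [IsNoetherianRing A] : MFd (MonoidAlgebra A M) := by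
  have key : ∀ I : Ideal A, MFd (MonoidAlgebra (A ⧸ I) M) := by
    intro I
    refine IsNoetherian.induction (R := A) (M := A)
      (P := fun I : Ideal A => MFd (MonoidAlgebra (A ⧸ I) M)) ?_ I
    clear I
    intro I' ih
    let I : Ideal A := I'
    change ∀ J : Ideal A, J > I → MFd (MonoidAlgebra (A ⧸ J) M) at ih
    change MFd (MonoidAlgebra (A ⧸ I) M)
    by_cases htop : I = ⊤
    · have : Subsingleton (A ⧸ I) := Ideal.Quotient.subsingleton_iff.mpr htop
      have : Subsingleton (MonoidAlgebra (A ⧸ I) M) := by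
        refine ⟨fun x y => ?_⟩
        rw [← MonoidAlgebra.coeff_inj]
        ext g
        exact Subsingleton.elim _ _
      exact MFd.of_finite
    by_cases hp : I.IsPrime
    · have : IsDomain (A ⧸ I) := Ideal.Quotient.isDomain I
      exact mfd_fraction (A ⧸ I) M (h _)
    obtain ⟨a, ha, b, hb, hab⟩ : ∃ a, a ∉ I ∧ ∃ b, b ∉ I ∧ a * b ∈ I := by
      by_contra hcon
      push Not at hcon
      apply hp
      refine ⟨htop, ?_⟩
      intro x y hxy
      by_contra h2
      push Not at h2
      exact hcon x h2.1 y h2.2 hxy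
    let J : Ideal A := I ⊔ Ideal.span {a}
    let K : Ideal A := I ⊔ Ideal.span {b}
    have hJ : I ≤ J := le_sup_left
    have hK : I ≤ K := le_sup_left
    have hJ' : J > I := lt_of_le_of_ne hJ (by
      intro h1
      apply ha
      rw [h1]
      exact Ideal.mem_sup_right (Ideal.mem_span_singleton_self a))
    have hK' : K > I := lt_of_le_of_ne hK (by
      intro h1
      apply hb
      rw [h1]
      exact Ideal.mem_sup_right (Ideal.mem_span_singleton_self b))
    have hJK : ∀ u ∈ J, ∀ v ∈ K, u * v ∈ I := by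
      intro u hu v hv
      obtain ⟨i, hi, r, hr, rfl⟩ := Submodule.mem_sup.mp hu
      obtain ⟨i', hi', r', hr', rfl⟩ := Submodule.mem_sup.mp hv
      obtain ⟨c, rfl⟩ := Ideal.mem_span_singleton'.mp hr
      obtain ⟨c', rfl⟩ := Ideal.mem_span_singleton'.mp hr'
      have e : (i + c * a) * (i' + c' * b) = (i' + c' * b) * i + (c * a) * i' +
          (c * c') * (a * b) := by ring
      rw [e]
      exact I.add_mem (I.add_mem (I.mul_mem_left _ hi) (I.mul_mem_left _ hi'))
        (I.mul_mem_left _ hab)
    let F : MonoidAlgebra (A ⧸ I) M →+* MonoidAlgebra (A ⧸ J) M × MonoidAlgebra (A ⧸ K) M :=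
      (MonoidAlgebra.mapRingHom M (Ideal.Quotient.factor hJ)).prod
        (MonoidAlgebra.mapRingHom M (Ideal.Quotient.factor hK))
    refine MFd.of_sq_zero (MFd.prod (ih J hJ') (ih K hK')) F ?_
    intro x y hx hy
    have hx1 : ∀ g, ∃ u ∈ J, Ideal.Quotient.mk I u = x.coeff g := by
      intro g
      obtain ⟨u, hu⟩ := Ideal.Quotient.mk_surjective (x.coeff g)
      refine ⟨u, ?_, hu⟩
      have h1 := congrArg (fun z : MonoidAlgebra (A ⧸ J) M => z.coeff g) (Prod.ext_iff.mp hx).1
      simp only [F, RingHom.prod_apply, MonoidAlgebra.coeff_mapRingHom] at h1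
      rw [← hu] at h1
      have h2 : Ideal.Quotient.mk J u = 0 := h1
      exact Ideal.Quotient.eq_zero_iff_mem.mp h2
    have hy1 : ∀ g, ∃ u ∈ K, Ideal.Quotient.mk I u = y.coeff g := by
      intro g
      obtain ⟨u, hu⟩ := Ideal.Quotient.mk_surjective (y.coeff g)
      refine ⟨u, ?_, hu⟩
      have h1 := congrArg (fun z : MonoidAlgebra (A ⧸ K) M => z.coeff g) (Prod.ext_iff.mp hy).2
      simp only [F, RingHom.prod_apply, MonoidAlgebra.coeff_mapRingHom] at h1
      rw [← hu] at h1
      have h2 : Ideal.Quotient.mk K u = 0 := h1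
      exact Ideal.Quotient.eq_zero_iff_mem.mp h2
    have hxy : ∀ g g', x.coeff g * y.coeff g' = 0 := by
      intro g g'
      obtain ⟨u, hu, hu'⟩ := hx1 g
      obtain ⟨v, hv, hv'⟩ := hy1 g'
      rw [← hu', ← hv', ← map_mul]
      exact Ideal.Quotient.eq_zero_iff_mem.mpr (hJK u hu v hv)
    rw [← MonoidAlgebra.sum_coeff_single x, ← MonoidAlgebra.sum_coeff_single y, Finsupp.sum,
      Finsupp.sum, Finset.sum_mul_sum]
    refine Finset.sum_eq_zero fun g _ => Finset.sum_eq_zero fun g' _ => ?_
    rw [MonoidAlgebra.single_mul_single, hxy, MonoidAlgebra.single_zero]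
  exact (key ⊥).of_injective (MonoidAlgebra.mapRingHom M (Ideal.Quotient.mk (⊥ : Ideal A)))
    (mapRingHom_injective _ (by
      rw [injective_iff_map_eq_zero]
      intro a ha
      exact (Submodule.mem_bot A).mp (Ideal.Quotient.eq_zero_iff_mem.mp ha)))

/-- Arbitrary commutative coefficient rings. -/
theorem mfd_commRing (h : ∀ (K : Type u) [Field K], MFd (MonoidAlgebra K M))
    (A : Type u) [CommRing A] : MFd (MonoidAlgebra A M) := by
  classical
  refine MFd.of_local fun s => ?_
  let c : Finset A := s.biUnion fun x => x.coeff.support.image fun g => x.coeff g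
  let A0 : Subalgebra ℤ A := Algebra.adjoin ℤ (c : Set A)
  have : Algebra.FiniteType ℤ A0 := by
    exact (Subalgebra.fg_iff_finiteType _).mp ⟨c, rfl⟩
  have : IsNoetherianRing A0 := Algebra.FiniteType.isNoetherianRing ℤ A0
  let f : MonoidAlgebra A0 M →+* MonoidAlgebra A M :=
    MonoidAlgebra.mapRingHom M (A0.val : A0 →+* A)
  have hf : Function.Injective f := mapRingHom_injective _ Subtype.val_injective
  refine ⟨f.range, ?_, ?_⟩
  · intro x hx
    have hmem : ∀ g ∈ x.coeff.support, x.coeff g ∈ A0 := by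
      intro g hg
      apply Algebra.subset_adjoin
      simp only [c, Finset.coe_biUnion, Set.mem_iUnion]
      exact ⟨x, hx, Finset.mem_coe.mpr (Finset.mem_image_of_mem _ hg)⟩
    refine ⟨∑ g ∈ x.coeff.support.attach, MonoidAlgebra.single (g : M)
      (⟨x.coeff g, hmem g g.2⟩ : A0), ?_⟩
    rw [map_sum]
    conv_rhs => rw [← MonoidAlgebra.sum_coeff_single x]
    rw [Finsupp.sum, ← Finset.sum_attach x.coeff.support]
    refine Finset.sum_congr rfl fun g hg => ?_
    show MonoidAlgebra.mapRingHom M _ _ = _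
    rw [MonoidAlgebra.mapRingHom_single]
    rfl
  · have e : MonoidAlgebra A0 M ≃+* f.range := RingEquiv.ofBijective f.rangeRestrict
      ⟨fun a b hab => hf (congrArg Subtype.val hab), f.rangeRestrict_surjective⟩
    exact (mfd_noetherian h A0).of_injective (e.symm : f.range →+* MonoidAlgebra A0 M)
      e.symm.injective

end coeff

/-- Finite graphs. -/
theorem mfd_prod_raag_fin (k : Type u) [Field k] {P : Type u} [Group P] (hP : PolyTFA P)
    {V : Type u} [Finite V] (Γ : SimpleGraph V) : MFd (MonoidAlgebra k (P × RAAG Γ)) := by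
  classical
  have : Fintype V := Fintype.ofFinite V
  have hι : Fintype (PI Γ) := Fintype.ofFinite (PI Γ)
  let e : PI Γ ≃ Fin (Fintype.card (PI Γ)) := Fintype.equivFin (PI Γ)
  let f : (PI Γ → FreeMonoid (V × Bool)) →* (Fin (Fintype.card (PI Γ)) → FreeMonoid (V × Bool)) :=
    { toFun := fun a i => a (e.symm i)
      map_one' := rfl
      map_mul' := fun _ _ => rfl }
  have hf : Function.Injective f := by
    intro a b hab
    funext i
    have := congrFun hab (e i)
    simpa [f] using this
  let g : P × PM Γ →* P × WW (Fintype.card (PI Γ)) (V × Bool) :=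
    (MonoidHom.id P).prodMap (emb.comp f)
  have hg : Function.Injective g := by
    rintro ⟨p, a⟩ ⟨q, b⟩ hab
    have h1 := congrArg Prod.fst hab
    have h2 := congrArg Prod.snd hab
    exact Prod.ext h1 (hf (emb_injective h2))
  have h1 : MFd (MonoidAlgebra k (P × PM Γ)) :=
    mfd_monoidAlgebra_of_injective ((hP.prod (polyTFA_WW _ _)).mfd k) g hg
  let f1 : MonoidAlgebra k (P × RAAG Γ) →+* MonoidAlgebra (MonoidAlgebra k (RAAG Γ)) P :=
    (MonoidAlgebra.curryRingEquiv (R := k) (M := P) (N := RAAG Γ)).toRingHom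
  let f2 : MonoidAlgebra (MonoidAlgebra k (RAAG Γ)) P →+* MonoidAlgebra (MR k Γ) P :=
    MonoidAlgebra.mapRingHom P (rhoHom k Γ).toRingHom
  let f3 : MonoidAlgebra (MR k Γ) P →+* Matrix (Finset (V × Bool)) (Finset (V × Bool))
      (MonoidAlgebra (AR k Γ) P) := matMap P (Finset (V × Bool))
  let f4 : MonoidAlgebra (AR k Γ) P →+* MonoidAlgebra k (P × PM Γ) :=
    (MonoidAlgebra.curryRingEquiv (R := k) (M := P) (N := PM Γ)).symm.toRingHom
  have h2 : MFd (MonoidAlgebra (AR k Γ) P) := h1.of_injective f4 (RingEquiv.injective _)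
  refine (h2.matrix (Finset (V × Bool))).of_injective (f3.comp (f2.comp f1)) ?_
  exact (matMap_injective P (Finset (V × Bool))).comp
    ((mapRingHom_injective' (rhoHom k Γ).toRingHom (rhoHom_injective k Γ)).comp
      (RingEquiv.injective _))

/-- All graphs. -/
theorem mfd_prod_raag (k : Type u) [Field k] {P : Type u} [Group P] (hP : PolyTFA P)
    {V : Type u} (Γ : SimpleGraph V) : MFd (MonoidAlgebra k (P × RAAG Γ)) := by
  classical
  refine MFd.of_local fun s => ?_
  -- the finite set of vertices
  choose W hW using val_surjective Γ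
  let S : Finset V := s.biUnion fun x => x.coeff.support.biUnion fun g =>
    ((W g.2).map Prod.fst).toFinset
  let i : P × RAAG (Γ.induce (S : Set V)) →* P × RAAG Γ :=
    (MonoidHom.id P).prodMap (raagIncl Γ S)
  let j : P × RAAG Γ →* P × RAAG (Γ.induce (S : Set V)) :=
    (MonoidHom.id P).prodMap (raagRetr Γ S)
  have hji : ∀ g, j (i g) = g := fun g => Prod.ext rfl (raagRetr_incl Γ _ g.2)
  have hi : Function.Injective i := Function.LeftInverse.injective hji
  let f : MonoidAlgebra k (P × RAAG (Γ.induce (S : Set V))) →+* MonoidAlgebra k (P × RAAG Γ) :=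
    MonoidAlgebra.mapDomainRingHom k i
  have hf : Function.Injective f := MonoidAlgebra.mapDomain_injective hi
  refine ⟨f.range, ?_, ?_⟩
  · intro x hx
    have h1 : ∀ g ∈ x.coeff.support, ∃ g', i g' = g := by
      intro g hg
      have h2 := val_mem_range Γ (S : Set V) (W g.2) (by
        intro y hy
        simp only [S, Finset.coe_biUnion, Set.mem_iUnion]
        refine ⟨x, hx, g, hg, ?_⟩
        simp only [List.coe_toFinset, Set.mem_ofPred_eq, List.mem_map]
        exact ⟨y, hy, rfl⟩)
      rw [hW] at h2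
      obtain ⟨g', hg'⟩ := h2
      exact ⟨(g.1, g'), Prod.ext rfl hg'⟩
    choose! g' hg' using h1
    refine ⟨∑ g ∈ x.coeff.support, MonoidAlgebra.single (g' g) (x.coeff g), ?_⟩
    rw [map_sum]
    conv_rhs => rw [← MonoidAlgebra.sum_coeff_single x]
    rw [Finsupp.sum]
    refine Finset.sum_congr rfl fun g hg => ?_
    show MonoidAlgebra.mapDomain _ _ = _
    rw [MonoidAlgebra.mapDomain_single, hg' g hg]
  · have : Finite (S : Set V) := S.finite_toSet
    refine (mfd_prod_raag_fin k hP (Γ.induce (S : Set V))).of_injective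
      (RingEquiv.ofBijective f.rangeRestrict ⟨fun x y hxy => hf (congrArg Subtype.val hxy),
        f.rangeRestrict_surjective⟩).symm.toRingHom (RingEquiv.injective _)

theorem _root_.Pool.Agent.N506.EX.VirtSpec.mfd {G : Type u} [Group G] (h : VirtSpec G) (A : Type u) [CommRing A] :
    MFd (MonoidAlgebra A G) := by
  obtain ⟨H, _, P, _, V, Γ, ι, hP, hι⟩ := h
  refine mfd_commRing (fun K _ => ?_) A
  exact mfd_finiteIndex K H (mfd_monoidAlgebra_of_injective (mfd_prod_raag K hP Γ) ι hι)

/-- Groups which are locally of this form. -/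
theorem mfd_locally (A : Type u) [CommRing A] (G : Type u) [Group G]
    (h : ∀ K : Subgroup G, K.FG → VirtSpec K) : MFd (MonoidAlgebra A G) := by
  classical
  refine MFd.of_local fun s => ?_
  let K : Subgroup G := Subgroup.closure ((s.biUnion fun x => x.coeff.support : Finset G) : Set G)
  have hK : VirtSpec K := h K ⟨_, rfl⟩
  refine ⟨(inc (A := A) K).range, ?_, ?_⟩
  · intro x hx
    obtain ⟨y, rfl⟩ := exists_inc K x (fun g hg => Subgroup.subset_closure
      (Finset.mem_coe.mpr (Finset.mem_biUnion.mpr ⟨x, hx, Finsupp.mem_support_iff.mpr hg⟩)))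
    exact ⟨y, rfl⟩
  · exact (hK.mfd A).of_injective (RingEquiv.ofBijective (inc (A := A) K).rangeRestrict
      ⟨fun x y hxy => inc_injective K (congrArg Subtype.val hxy),
        (inc (A := A) K).rangeRestrict_surjective⟩).symm.toRingHom (RingEquiv.injective _)

end Pool.Agent.N506.FX
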