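import Pool.Agent.N506.FZ
import Pool.Agent.N506.EZH

/-!
# Automorphisms of extensions, finite decomposition complexity
-/

namespace Pool.Agent.N506.FX

open Pool.Agent.N506.EX MonoidAlgebra

open scoped commutatorElement

universe u v w

section General

variable {Γ : Type} [Group Γ] (N : Subgroup Γ) [hN : N.Normal]

/-- Exactness of groups of automorphisms. -/
theorem fdc_of_quot (hK : FDC (autTriv N)) {B : Subgroup (MulAut Γ)} (hB : B ≤ autPres N)
    (hQ : FDC (quotImage N B)) : FDC B := by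
  refine FDC.ext (toQuotImage N hB) hQ ?_
  refine FDC.of_injective hK ((B.subtype.comp (toQuotImage N hB).ker.subtype).codRestrict
    (autTriv N) (fun b => toQuotImage_ker N hB b b.2)) ?_
  intro a b hab
  exact Subtype.ext (Subtype.ext (congrArg (fun g : autTriv N => (g : MulAut Γ)) hab))

end General

section Triv

variable {Γ : Type} [Group Γ] (N : Subgroup Γ) [hN : N.Normal]

/-- The automorphisms which are trivial on `N` and on `Γ ⧸ N` commute. -/
theorem fdc_resN_ker (hc : ∀ a ∈ N, ∀ b ∈ N, a * b = b * a) : FDC (resN N).ker := by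
  have key : ∀ a : (resN N).ker, ∀ n ∈ N, ((a : autTriv N) : MulAut Γ) n = n := by
    intro a n hn
    have h1 := congrArg (fun f : MulAut N => f ⟨n, hn⟩) a.2
    exact congrArg Subtype.val h1
  let _ : CommGroup (resN N).ker :=
    { (inferInstance : Group (resN N).ker) with
      mul_comm := by
        intro a b
        apply Subtype.ext
        apply Subtype.ext
        refine MulEquiv.ext fun g => ?_
        have h1 : ∀ a b : (resN N).ker, (((a * b : (resN N).ker) : autTriv N) : MulAut Γ) g =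
            (((b : autTriv N) : MulAut Γ) g * g⁻¹) * ((((a : autTriv N) : MulAut Γ) g * g⁻¹) * g) := by
          intro a b
          have hb := (b : autTriv N).2 g
          calc (((a * b : (resN N).ker) : autTriv N) : MulAut Γ) g
              = ((a : autTriv N) : MulAut Γ) (((b : autTriv N) : MulAut Γ) g) := rfl
            _ = ((a : autTriv N) : MulAut Γ) ((((b : autTriv N) : MulAut Γ) g * g⁻¹) * g) := by
                rw [inv_mul_cancel_right]
            _ = _ := by
                rw [map_mul, key a _ hb, inv_mul_cancel_right]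
        rw [h1 a b, h1 b a, ← mul_assoc (((b : autTriv N) : MulAut Γ) g * g⁻¹),
          ← mul_assoc (((a : autTriv N) : MulAut Γ) g * g⁻¹),
          hc _ ((a : autTriv N).2 g) _ ((b : autTriv N).2 g)] }
  exact FDC.comm _

/-- Extensions by free modules. -/
theorem fdc_autTriv_free {m r : ℕ} (hm : MFd (MonoidAlgebra (ZMod m) (Γ ⧸ N)))
    (hF : FreeMod N m r) : FDC (autTriv N) := by
  obtain ⟨θ, hθ⟩ := hF
  have hc : ∀ a ∈ N, ∀ b ∈ N, a * b = b * a := by
    intro a ha b hb
    have h1 : (⟨a, ha⟩ * ⟨b, hb⟩ : N) = ⟨b, hb⟩ * ⟨a, ha⟩ := by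
      apply θ.injective
      rw [map_mul, map_mul, mul_comm]
    exact congrArg Subtype.val h1
  -- the additive map of an automorphism
  let f : autTriv N → ((Fin r → MonoidAlgebra (ZMod m) (Γ ⧸ N)) →+
      (Fin r → MonoidAlgebra (ZMod m) (Γ ⧸ N))) := fun φ =>
    { toFun := fun v => (θ (resN N φ (θ.symm (Multiplicative.ofAdd v)))).toAdd
      map_zero' := by
        rw [ofAdd_zero, map_one, map_one, map_one, toAdd_one]
      map_add' := fun v w => by
        rw [ofAdd_add, map_mul, map_mul, map_mul, toAdd_mul] }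
  have hmul : ∀ φ ψ, f (φ * ψ) = (f φ).comp (f ψ) := by
    intro φ ψ
    refine AddMonoidHom.ext fun v => ?_
    change (θ (resN N (φ * ψ) (θ.symm (Multiplicative.ofAdd v)))).toAdd =
      (θ (resN N φ (θ.symm (Multiplicative.ofAdd
        (θ (resN N ψ (θ.symm (Multiplicative.ofAdd v)))).toAdd)))).toAdd
    rw [ofAdd_toAdd, MulEquiv.symm_apply_apply, map_mul]
    rfl
  have hone : f 1 = AddMonoidHom.id _ := by
    refine AddMonoidHom.ext fun v => ?_
    change (θ (resN N 1 (θ.symm (Multiplicative.ofAdd v)))).toAdd = v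
    rw [map_one, MulAut.one_apply, MulEquiv.apply_symm_apply, toAdd_ofAdd]
  have heq : ∀ φ, ∀ (q : Γ ⧸ N) v, f φ (fun i => single q 1 * v i) =
      fun i => single q 1 * f φ v i := by
    intro φ q v
    obtain ⟨g, rfl⟩ := QuotientGroup.mk_surjective q
    obtain ⟨n, hn⟩ : ∃ n : N, (θ n).toAdd = v := ⟨θ.symm (Multiplicative.ofAdd v), by
      rw [MulEquiv.apply_symm_apply, toAdd_ofAdd]⟩
    have h1 : ∀ n : N, f φ (θ n).toAdd = (θ (resN N φ n)).toAdd := by
      intro n
      change (θ (resN N φ (θ.symm (Multiplicative.ofAdd (θ n).toAdd)))).toAdd = _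
      rw [ofAdd_toAdd, MulEquiv.symm_apply_apply]
    have h2 : (fun i => single (g : Γ ⧸ N) 1 * v i) =
        (θ ⟨g * n * g⁻¹, hN.conj_mem n n.2 g⟩).toAdd := by
      funext i
      rw [hθ, hn]
    have h3 : resN N φ ⟨g * n * g⁻¹, hN.conj_mem n n.2 g⟩ =
        ⟨g * (resN N φ n : N) * g⁻¹, hN.conj_mem _ (resN N φ n).2 g⟩ := by
      apply Subtype.ext
      change (φ : MulAut Γ) (g * n * g⁻¹) = g * (φ : MulAut Γ) n * g⁻¹
      have h4 : (φ : MulAut Γ) g = ((φ : MulAut Γ) g * g⁻¹) * g := by
        rw [inv_mul_cancel_right]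
      have h5 := hc _ (φ.2 g) _ (hN.conj_mem _ (autTriv_mem N φ n.2) g)
      rw [map_mul, map_mul, map_inv]
      calc (φ : MulAut Γ) g * (φ : MulAut Γ) n * ((φ : MulAut Γ) g)⁻¹
          = ((φ : MulAut Γ) g * g⁻¹) * (g * (φ : MulAut Γ) n * g⁻¹) *
              ((φ : MulAut Γ) g * g⁻¹)⁻¹ := by group
        _ = _ := by rw [h5, mul_inv_cancel_right]
    rw [h2, h1, h3, ← hn, h1]
    funext i
    exact hθ g _ i
  let R : autTriv N →* Matrix (Fin r) (Fin r) (MonoidAlgebra (ZMod m) (Γ ⧸ N)) :=
    { toFun := fun φ => mat (f φ⁻¹)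
      map_one' := by rw [inv_one, hone, mat_id]
      map_mul' := fun φ ψ => by rw [mul_inv_rev, hmul, mat_comp _ _ (heq _)] }
  refine FDC.ext R.toHomUnits (hm r) ?_
  -- the kernel
  have hker : ∀ φ : R.toHomUnits.ker, (φ : autTriv N) ∈ (resN N).ker := by
    intro φ
    have h1 : mat (f ((φ : autTriv N)⁻¹)) = 1 := congrArg Units.val φ.2
    have h2 : ∀ n : N, resN N (φ : autTriv N)⁻¹ n = n := by
      intro n
      apply θ.injective
      apply Multiplicative.toAdd.injective
      have h3 : f (φ : autTriv N)⁻¹ (θ n).toAdd = (θ (resN N (φ : autTriv N)⁻¹ n)).toAdd := by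
        change (θ (resN N (φ : autTriv N)⁻¹ (θ.symm (Multiplicative.ofAdd (θ n).toAdd)))).toAdd = _
        rw [ofAdd_toAdd, MulEquiv.symm_apply_apply]
      rw [← h3]
      funext j
      rw [mat_apply _ (heq _), h1, Finset.sum_eq_single j]
      · rw [Matrix.one_apply_eq, mul_one]
      · intro i _ hi
        rw [Matrix.one_apply_ne hi, mul_zero]
      · intro h
        exact absurd (Finset.mem_univ _) h
    have h3 : (φ : autTriv N)⁻¹ ∈ (resN N).ker := by
      rw [MonoidHom.mem_ker]
      exact MulEquiv.ext h2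
    simpa using (resN N).ker.inv_mem h3
  refine FDC.of_injective (fdc_resN_ker N hc)
    ((Subgroup.subtype _).codRestrict (resN N).ker hker) ?_
  intro a b hab
  exact Subtype.ext (congrArg (fun c : (resN N).ker => (c : autTriv N)) hab)

end Triv

/-- The groups `F ⧸ [R, R]`. -/
theorem fdc_autTriv_rel {X : Type} [Finite X] (R : Subgroup (FreeGroup X)) [R.Normal]
    (hm : MFd (MonoidAlgebra ℤ (FreeGroup X ⧸ R))) :
    FDC (autTriv (top R 1)) := by
  classical
  have : Fintype X := Fintype.ofFinite X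
  obtain ⟨p, hp, hker⟩ := RF.free R 1
  obtain ⟨D, hD, hDx⟩ := exists_der hp
  have hcomm : ∀ a ∈ der p.ker 0, ∀ b ∈ der p.ker 0, a * b = b * a := by
    intro a ha b hb
    have h1 := Subgroup.commutator_mem_commutator ha hb
    have h2 : ⁅der p.ker 0, der p.ker 0⁆ = ⊥ := hp.der_eq
    rw [h2, Subgroup.mem_bot, commutatorElement_eq_one_iff_mul_comm] at h1
    exact h1
  have e : (FreeGroup X ⧸ der R 1) ⧸ der p.ker 0 ≃* FreeGroup X ⧸ R :=
    QuotientGroup.quotientKerEquivOfSurjective p hp.surj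
  have hm' : MFd (MonoidAlgebra ℤ ((FreeGroup X ⧸ der R 1) ⧸ der p.ker 0)) :=
    mfd_monoidAlgebra_of_injective hm e.toMonoidHom e.injective
  have h1 : FDC (autTriv (der p.ker 0)) :=
    FDC.of_injective (hm'.index X) (hD.rep _ hp.gen hDx) (hD.rep_injective _ hp.gen hcomm hDx)
  have h2 : top R 1 = der p.ker 0 := hker.symm
  rw [h2]
  exact h1

end Pool.Agent.N506.FX
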