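import Pool.Agent.N506.FN
import Pool.Agent.N506.EZC

/-!
# Automorphism groups, finite decomposition complexity
-/

namespace Pool.Agent.N506.FX

open Pool.Agent.N506.EX MonoidAlgebra

open scoped commutatorElement

universe u v w

theorem _root_.Pool.Agent.N506.EX.VPolyTFA.mfd {G : Type} [Group G] (h : VPolyTFA G) (A : Type) [CommRing A] :
    MFd (MonoidAlgebra A G) := by
  obtain ⟨N, _, hN⟩ := h
  exact mfd_commRing (fun K _ => mfd_finiteIndex K N (hN.mfd K)) A

/-- The main induction. -/
theorem _root_.Pool.Agent.N506.EX.RF.mainF {Q₀ : Type} [Group Q₀] (hQ₀ : VPolyTFA Q₀) {X : Type} [Fintype X] [DecidableEq X]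
    (k : ℕ) : ∀ {Γ : Type} [Group Γ] {x : X → Γ} {p : Γ →* Q₀}, RF k x p →
      FDC (autTriv p.ker) ∧ VPolyTFA Γ := by
  induction k with
  | zero =>
    intro Γ _ x p h
    have hker : p.ker = ⊥ := h.der_eq
    have hinj : Function.Injective p := (MonoidHom.ker_eq_bot_iff p).mp hker
    constructor
    · have : Subsingleton (autTriv p.ker) := by
        constructor
        intro a b
        apply Subtype.ext
        refine MulEquiv.ext fun g => ?_
        have ha := a.2 g
        have hb := b.2 g
        have ha' := hker.le ha
        have hb' := hker.le hb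
        rw [Subgroup.mem_bot, mul_inv_eq_one] at ha' hb'
        exact ha'.trans hb'.symm
      exact FDC.of_finite
    · refine VPolyTFA.extension p hQ₀ ?_
      have : Subsingleton p.ker := by
        rw [hker]
        infer_instance
      exact PolyTFA.triv _
  | succ k ih =>
    intro Γ _ x p h
    obtain ⟨hEx, hV⟩ := ih h.quot
    obtain ⟨D, hD, hDx⟩ := exists_der h
    have hcomm : ∀ a ∈ der p.ker k, ∀ b ∈ der p.ker k, a * b = b * a := by
      intro a ha b hb
      have h1 : ⁅a, b⁆ ∈ der p.ker (k + 1) := Subgroup.commutator_mem_commutator ha hb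
      rw [h.der_eq, Subgroup.mem_bot, commutatorElement_eq_one_iff_mul_comm] at h1
      exact h1
    constructor
    · -- the homomorphism to the automorphisms of the quotient
      have hmap : ∀ φ : autTriv p.ker, (der p.ker k).map ((φ : MulAut Γ) : Γ →* Γ) =
          der p.ker k := by
        intro φ
        rw [der_map]
        congr 1
        apply le_antisymm
        · rintro _ ⟨g, hg, rfl⟩
          have h1 := p.ker.mul_mem (φ.2 g) hg
          rw [inv_mul_cancel_right] at h1
          exact h1
        · intro g hg
          refine ⟨((φ⁻¹ : autTriv p.ker) : MulAut Γ) g, ?_, ?_⟩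
          · have h1 := p.ker.mul_mem ((φ⁻¹ : autTriv p.ker).2 g) hg
            rw [inv_mul_cancel_right] at h1
            exact h1
          · change ((φ : MulAut Γ) * ((φ⁻¹ : autTriv p.ker) : MulAut Γ)) g = g
            rw [← Subgroup.coe_mul, mul_inv_cancel]
            rfl
      let ρ : autTriv p.ker →* autTriv (pQ k p).ker :=
        { toFun := fun φ => ⟨QuotientGroup.congr (der p.ker k) (der p.ker k) (φ : MulAut Γ)
            (hmap φ), by
            intro q
            obtain ⟨g, rfl⟩ := QuotientGroup.mk_surjective q
            exact φ.2 g⟩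
          map_one' := by
            apply Subtype.ext
            refine MulEquiv.ext fun q => ?_
            obtain ⟨g, rfl⟩ := QuotientGroup.mk_surjective q
            rfl
          map_mul' := by
            intro φ ψ
            apply Subtype.ext
            refine MulEquiv.ext fun q => ?_
            obtain ⟨g, rfl⟩ := QuotientGroup.mk_surjective q
            rfl }
      refine FDC.ext ρ hEx ?_
      -- the kernel
      have hker : ∀ φ : ρ.ker, ((φ : autTriv p.ker) : MulAut Γ) ∈ autTriv (der p.ker k) := by
        intro φ g
        have h1 : ρ (φ : autTriv p.ker) = 1 := φ.2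
        have h2 := congrArg (fun a : autTriv (pQ k p).ker => (a : MulAut _)
          (QuotientGroup.mk g : Γ ⧸ der p.ker k)) h1
        have h3 : (QuotientGroup.mk (((φ : autTriv p.ker) : MulAut Γ) g) : Γ ⧸ der p.ker k) =
          QuotientGroup.mk g := h2
        rw [← QuotientGroup.eq_one_iff, QuotientGroup.mk_mul, QuotientGroup.mk_inv, h3,
          mul_inv_cancel]
      have hE : FDC (autTriv (der p.ker k)) :=
        FDC.of_injective ((hV.mfd ℤ).index X) (hD.rep x h.gen hDx)
          (hD.rep_injective x h.gen hcomm hDx)
      refine FDC.of_injective hE ((((autTriv p.ker).subtype.comp ρ.ker.subtype)).codRestrict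
        (autTriv (der p.ker k)) hker) ?_
      intro a b hab
      exact Subtype.ext (Subtype.ext (congrArg
        (fun g : autTriv (der p.ker k) => (g : MulAut Γ)) hab))
    · refine VPolyTFA.extension (QuotientGroup.mk' (der p.ker k)) hV ?_
      have h1 : PolyTFA (Multiplicative (ML X (Γ ⧸ der p.ker k))) := by
        have : IsAddTorsionFree (ML X (Γ ⧸ der p.ker k)) := by
          constructor
          intro n hn a b hab
          funext i
          rw [← MonoidAlgebra.coeff_inj]
          ext q
          have h2 : n • (a i).coeff q = n • (b i).coeff q :=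
            congrArg (fun v : ML X (Γ ⧸ der p.ker k) => (v i).coeff q) hab
          exact nsmul_right_injective hn h2
        exact PolyTFA.comm _
      refine h1.of_injective _
        { toFun := fun g => Multiplicative.ofAdd (D g)
          map_one' := by rw [Subgroup.coe_one, hD.one]; rfl
          map_mul' := fun a b => ?_ } ?_
      · rw [← ofAdd_add, Subgroup.coe_mul, hD]
        congr 2
        have h2 : ((a : Γ) : Γ ⧸ der p.ker k) = 1 := a.2
        rw [h2]
        funext i
        change MonoidAlgebra.single 1 1 * D b i = D b i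
        rw [← MonoidAlgebra.one_def, one_mul]
      · intro a b hab
        apply Subtype.ext
        refine hD.magnus x h.gen hcomm hDx (Multiplicative.ofAdd.injective hab) ?_
        have h2 : ((a : Γ) : Γ ⧸ der p.ker k) = 1 := a.2
        have h3 : ((b : Γ) : Γ ⧸ der p.ker k) = 1 := b.2
        rw [h2, h3]

/-- Groups of automorphisms of `F ⧸ R^(k)` with exact image in the automorphism group of
`F ⧸ R`. -/
theorem aut_fdc {X : Type} [Finite X] (R : Subgroup (FreeGroup X)) [R.Normal]
    (hR : VPolyTFA (FreeGroup X ⧸ R)) (k : ℕ) (B : Subgroup (autPres (top R k)))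
    (hB : FDC (B.map (autQuot (top R k)))) : FDC B := by
  classical
  have : Fintype X := Fintype.ofFinite X
  obtain ⟨p, hp, hker⟩ := RF.free R k
  obtain ⟨hEx, -⟩ := RF.mainF hR k hp
  let ψ : B →* B.map (autQuot (top R k)) :=
    ((autQuot (top R k)).comp B.subtype).codRestrict _ (fun b => ⟨b, b.2, rfl⟩)
  refine FDC.ext ψ hB ?_
  have h1 : ∀ φ : ψ.ker, (((φ : B) : autPres (top R k)) : MulAut (FreeGroup X ⧸ der R k)) ∈
      autTriv p.ker := by
    intro φ g
    have h2 : ψ (φ : B) = 1 := φ.2
    have h3 := congrArg (fun a : B.map (autQuot (top R k)) => (a : MulAut _)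
      (QuotientGroup.mk g : (FreeGroup X ⧸ der R k) ⧸ top R k)) h2
    have h4 : (QuotientGroup.mk ((((φ : B) : autPres (top R k)) :
        MulAut (FreeGroup X ⧸ der R k)) g) : (FreeGroup X ⧸ der R k) ⧸ top R k) =
        QuotientGroup.mk g := h3
    rw [hker]
    change _ ∈ top R k
    rw [← QuotientGroup.eq_one_iff, QuotientGroup.mk_mul, QuotientGroup.mk_inv, h4,
      mul_inv_cancel]
  refine FDC.of_injective hEx ((((autPres (top R k)).subtype.comp B.subtype).comp
    ψ.ker.subtype).codRestrict (autTriv p.ker) h1) ?_
  intro a b hab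
  exact Subtype.ext (Subtype.ext (Subtype.ext (congrArg
    (fun g : autTriv p.ker => (g : MulAut (FreeGroup X ⧸ der R k))) hab)))

end Pool.Agent.N506.FX
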