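import Pool.Agent.N506.F0
import Pool.Agent.N506.EZ0

/-!
# Automorphism groups of finite decomposition complexity
-/

namespace Pool.Agent.N506.FX

open Pool.Agent.N506.EX

/-- `Aut(G)` has finite decomposition complexity. -/
def FdcAut (G : Type) [Group G] : Prop := FDC (MulAut G)

/-- Every group `B` of automorphisms of `G` which map the normal subgroup `N` onto itself has
finite decomposition complexity if its image in `Aut(G ⧸ N)` has. -/
def FdcAutOver {G : Type} [Group G] (N : Subgroup G) [N.Normal] : Prop :=
  ∀ B : Subgroup (MulAut G), B ≤ autPres N → FDC (quotImage N B) → FDC B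

end Pool.Agent.N506.FX
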