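import Pool.Agent.N506.Rel
import Pool.Agent.N506.Def2
import Pool.Agent.R942.NV.VF

/-!
The injectivity of natural families on the class of groups generated by a class of groups.
-/

namespace Pool.Agent.N506

open Pool.Agent.Y483 Pool.Agent.Y483.PW Pool.Agent.Y110.KW Pool.Agent.Y75.MQ
  Pool.Agent.R615.KU Pool.Agent.R793.Mag Pool.Agent.R942.NV CategoryTheory Monoid

theorem gen2_rdet {𝓑 : GrpCat.{0} → Prop} {E : GrpCat.{0} ⥤ ModuleCat.{0} ℚ} (hE : HasPT E)
    (hc : Cont E) (hZ : ∀ n, 𝓑 (zn n))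
    (h𝓑 : ∀ B B' : GrpCat.{0}, 𝓑 B → 𝓑 B' → 𝓑 (GrpCat.of (B × B'))) {G : Type} [Group G]
    (hG : Gen2 𝓑 G) : RDet 𝓑 E G := by
  induction hG with
  | base B hB => exact RDet.base hB
  | magnus P F S =>
    intro T _ I α hα
    have hT : HasTransfers (timesF T ⋙ E) := hasTransfers_times (pairT_of_PT hE) T
    change kerFam (fun p : Σ j, I j => α p.1 p.2) (GrpCat.of (P ⧸ (⁅S, S⁆ : Subgroup P))) = ⊥
    rw [kerFam_eq]
    exact ker_flow S _ _ hT (by rw [mul_one]; exact Subgroup.FiniteIndex.index_ne_zero)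
      (flowFin (flowFree F)) (fun n => hα _ (hZ n))
  | prod G H _ _ h1 h2 => exact h1.prod h𝓑 h2
  | finiteIndex G H _ h => exact RDet.virt (hZ 0) h𝓑 hE H h
  | finiteKernel G K f hf _ h => exact RDet.of_inj h f fun j x hx => fk_inj f hf j x hx
  | detect G K f _ h2 h1 => exact RDet.detect fun j x hx => ⟨K j x, inferInstance, f j x,
      h1 j x hx, h2 j x hx⟩
  | graph V P Λ _ h => exact RDet.graph (hZ 0) h𝓑 hE Λ h
  | wreath K V Γ _ _ h1 h2 => exact RDet.fw (hZ 0) h𝓑 hE h1 h2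
  | supports Γ N V s _ h =>
    exact RDet.sys hE s (fun _ _ => True)
      ⟨fun _ _ _ _ => True.intro, fun _ _ _ h => absurd True.intro h⟩ fun σ => h σ.1
  | colim J P f G g hd _ h => exact RDet.colim hc hd h

end Pool.Agent.N506
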