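import Pool.Agent.N506.Nz
import Pool.Agent.R615.KU.Cls

/-!
The injectivity of the cross product in the rational homology of groups.
-/

namespace Pool.Agent.N506

open Pool.Agent.R615.KU Finsupp TensorProduct
open Pool.Agent.Y483 (T mp dd HQ hqMap Rpr exists_rpr exists_class Cyc tQ)

section Grp

variable {K : Type*} [Group K]

/-- The normalisation operator on inhomogeneous chains. -/
noncomputable def nq : LC K →ₗ[ℚ] LC K := qq ∘ₗ nz ∘ₗ ss

theorem nq_qq (z : LC K) : nq (qq z) = qq (nz z) := by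
  have h := factor (qq ∘ₗ (nz : LC K →ₗ[ℚ] LC K)) (fun g z => by
    rw [LinearMap.comp_apply, ← P_nz, qq_P]; rfl) (by
    rw [LinearMap.comp_apply, nz_nil, qq_nil]) z
  exact h.symm

theorem nq_dl (z : LC K) : nq (dl z) = dl (nq z) := by
  change nq (qq (bd (ss z))) = dl (qq (nz (ss z)))
  rw [nq_qq, ← qq_bd, bd_nz]

theorem nq_LL {n : ℕ} {z : LC K} (hz : z ∈ LL K n) : nq z ∈ LL K n :=
  qq_LL (nz_LL (ss_LL hz))

/-- A cycle is homologous to its normalisation. -/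
theorem nq_hom {n : ℕ} {z : LC K} (hz : z ∈ LL K n) (hd : dl z = 0) :
    ∃ y, z - nq z = dl y := by
  have h1 := HH_succ (nz : LC K →ₗ[ℚ] LC K) nz_nil bd_nz n (ss_LL hz)
  have h2 := congrArg qq h1
  have h3 : qq (HH nz n (bd (ss z))) = 0 := by
    have h4 := factor (qq ∘ₗ (HH (nz : LC K →ₗ[ℚ] LC K) n)) (fun k w => by
      rw [LinearMap.comp_apply, HH_nat nz _ (fun v => (P_nz _ v).symm), qq_P]
      rfl) (by rw [LinearMap.comp_apply, HH_nil, map_zero]) (bd (ss z))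
    rw [LinearMap.comp_apply] at h4
    have h5 : qq (bd (ss z)) = 0 := hd
    rw [h4, h5, map_zero, map_zero]
  rw [map_add, h3, add_zero, qq_bd, map_sub, qq_ss] at h2
  exact ⟨_, h2.symm⟩

theorem ss_nil (z : LC K) : (ss z) [] = 0 := by
  induction z using Finsupp.induction_linear with
  | zero => rw [map_zero]; rfl
  | add f g hf hg => rw [map_add, Finsupp.add_apply, hf, hg, add_zero]
  | single l r =>
    rw [ss_single]
    exact Finsupp.single_eq_of_ne (by simp)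

end Grp

section Prod

variable {G H : Type*} [Group G] [Group H]

/-- The functional on the chains of a product given by two functionals. -/
noncomputable def fn (f : LC G →ₗ[ℚ] ℚ) (g : LC H →ₗ[ℚ] ℚ) : LC (G × H) →ₗ[ℚ] ℚ :=
  (TensorProduct.lid ℚ ℚ).toLinearMap ∘ₗ (TensorProduct.map f g) ∘ₗ (TensorProduct.map nq nq) ∘ₗ Ad

theorem map_nq_dd2 (t : LC G ⊗[ℚ] LC H) {f : LC G →ₗ[ℚ] ℚ} {g : LC H →ₗ[ℚ] ℚ}
    (hf : ∀ y, f (dl y) = 0) (hg : ∀ y, g (dl y) = 0) :
    TensorProduct.map f g (TensorProduct.map nq nq (dd2 t)) = 0 := by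
  have h : (TensorProduct.map f g) ∘ₗ (TensorProduct.map nq nq) ∘ₗ dd2 =
      (0 : LC G ⊗[ℚ] LC H →ₗ[ℚ] ℚ ⊗[ℚ] ℚ) := by
    apply TensorProduct.ext'
    intro u w
    rw [LinearMap.comp_apply, LinearMap.comp_apply, dd2_tmul, map_add, map_add,
      TensorProduct.map_tmul, TensorProduct.map_tmul, TensorProduct.map_tmul,
      TensorProduct.map_tmul, nq_dl, nq_dl, hf, hg, TensorProduct.zero_tmul,
      TensorProduct.tmul_zero, add_zero]
    rfl
  exact DFunLike.congr_fun h t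

theorem fn_dl {f : LC G →ₗ[ℚ] ℚ} {g : LC H →ₗ[ℚ] ℚ}
    (hf : ∀ y, f (dl y) = 0) (hg : ∀ y, g (dl y) = 0) (y : LC (G × H)) : fn f g (dl y) = 0 := by
  change (TensorProduct.lid ℚ ℚ) (TensorProduct.map f g (TensorProduct.map nq nq (Ad (dl y)))) = 0
  rw [← dd2_Ad, map_nq_dd2 _ hf hg, map_zero]

theorem fn_Sd (f : LC G →ₗ[ℚ] ℚ) (g : LC H →ₗ[ℚ] ℚ) (u : LC G) (w : LC H) :
    fn f g (Sd (u ⊗ₜ[ℚ] w)) = f (nq u) * g (nq w) := by
  have h1 : TensorProduct.map nq nq (Ad (Sd (u ⊗ₜ[ℚ] w))) = nq u ⊗ₜ[ℚ] nq w := by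
    change TensorProduct.map nq nq (Ad (qq (ST (TensorProduct.map ss ss (u ⊗ₜ[ℚ] w))))) = _
    rw [← qq_AW, TensorProduct.map_tmul, ST_tmul]
    have h2 : ∀ t : LC G ⊗[ℚ] LC H, TensorProduct.map nq nq (TensorProduct.map qq qq t) =
        TensorProduct.map qq qq (TensorProduct.map nz nz t) := by
      intro t
      have h : (TensorProduct.map nq nq) ∘ₗ (TensorProduct.map qq qq) =
          (TensorProduct.map qq qq) ∘ₗ (TensorProduct.map nz nz :
            LC G ⊗[ℚ] LC H →ₗ[ℚ] LC G ⊗[ℚ] LC H) := by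
        apply TensorProduct.ext'
        intro u w
        rw [LinearMap.comp_apply, LinearMap.comp_apply, TensorProduct.map_tmul,
          TensorProduct.map_tmul, TensorProduct.map_tmul, TensorProduct.map_tmul, nq_qq, nq_qq]
      exact DFunLike.congr_fun h t
    rw [h2, nz_AW_SH _ _ (ss_nil u) (ss_nil w), TensorProduct.map_tmul]
    rfl
  change (TensorProduct.lid ℚ ℚ) (TensorProduct.map f g (TensorProduct.map nq nq
    (Ad (Sd (u ⊗ₜ[ℚ] w))))) = _
  rw [h1, TensorProduct.map_tmul, TensorProduct.lid_tmul, smul_eq_mul]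

end Prod

section Func

variable {K : Type} [Group K] {n : ℕ}

/-- Each functional on the homology is given by a functional on the chains. -/
theorem exists_func (φ : HQ n K →ₗ[ℚ] ℚ) : ∃ f : T n K ℚ →ₗ[ℚ] ℚ,
    ∀ z x, Rp n z x → f z = φ x := by
  let Z : Submodule ℚ (T n K ℚ) :=
    { carrier := {z | ∃ x, Rp n z x}
      add_mem' := fun {a b} ha hb => ⟨_, ha.choose_spec.add hb.choose_spec⟩
      zero_mem' := ⟨0, Rpr.zero⟩
      smul_mem' := fun c z hz => ⟨_, Rp.smul hz.choose_spec c⟩ }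
  let c : Z →ₗ[ℚ] HQ n K :=
    { toFun := fun z => z.2.choose
      map_add' := fun a b => Rp.uniq (a + b).2.choose_spec (a.2.choose_spec.add b.2.choose_spec)
      map_smul' := fun r a => Rp.uniq (r • a).2.choose_spec (Rp.smul a.2.choose_spec r) }
  obtain ⟨f, hf⟩ := LinearMap.exists_extend (φ ∘ₗ c)
  refine ⟨f, fun z x h => ?_⟩
  have h1 := DFunLike.congr_fun hf (⟨z, ⟨x, h⟩⟩ : Z)
  have h2 : c ⟨z, ⟨x, h⟩⟩ = x := Rp.uniq (⟨z, ⟨x, h⟩⟩ : Z).2.choose_spec h
  rw [LinearMap.comp_apply, LinearMap.comp_apply, h2] at h1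
  exact h1

/-- A functional on the chains which vanishes on the boundaries gives a functional on the
homology. -/
theorem exists_dual (F : T n K ℚ →ₗ[ℚ] ℚ) (hF : ∀ y, F (dd (tQ K) n y) = 0) :
    ∃ φ : HQ n K →ₗ[ℚ] ℚ, ∀ z x, Rp n z x → φ x = F z := by
  have h0 : ∀ z z' x, Rp n z x → Rp n z' x → F z = F z' := by
    intro z z' x h h'
    have h1 := h.sub h'
    rw [sub_self] at h1
    obtain ⟨y, hy⟩ := h1.eq_zero_iff.mp rfl
    rw [← sub_eq_zero, ← map_sub, ← hy]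
    exact hF y
  exact ⟨{ toFun := fun x => F (rp x)
           map_add' := fun x y => (h0 _ _ _ (rp_spec (x + y)) ((rp_spec x).add (rp_spec y))).trans
             (map_add _ _ _)
           map_smul' := fun r x => (h0 _ _ _ (rp_spec (r • x)) (Rp.smul (rp_spec x) r)).trans
             (map_smul _ _ _) }, fun z x h => h0 _ _ _ (rp_spec x) h⟩

end Func

section Cross

variable {G H : Type} [Group G] [Group H]

theorem LL_Sd {a b : ℕ} {u : LC G} {w : LC H} (hu : u ∈ LL G a) (hw : w ∈ LL H b) :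
    Sd (u ⊗ₜ[ℚ] w) ∈ LL (G × H) (a + b) := by
  have h1 : ∀ l : List G, l.length = a → Sd ((single l (1 : ℚ)) ⊗ₜ[ℚ] w) ∈ LL (G × H) (a + b) := by
    intro l hl
    refine LL_map (Sd ∘ₗ (TensorProduct.mk ℚ (LC G) (LC H) (single l 1))) ?_ hw
    intro m hm
    have := Sd_LL l m
    rwa [hl, hm] at this
  exact LL_map (Sd ∘ₗ ((TensorProduct.mk ℚ (LC G) (LC H)).flip w)) h1 hu

/-- The functional on the homology of a product given by two functionals. -/
theorem exists_cross_func {a₀ b₀ n : ℕ} (hn : a₀ + b₀ = n) (φ : HQ a₀ G →ₗ[ℚ] ℚ)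
    (ψ : HQ b₀ H →ₗ[ℚ] ℚ) : ∃ Φ : HQ n (G × H) →ₗ[ℚ] ℚ,
      (∀ x y, Φ (cr a₀ b₀ n x y) = φ x * ψ y) ∧
      ∀ a b, a + b = n → a ≠ a₀ → ∀ (x : HQ a G) (y : HQ b H), Φ (cr a b n x y) = 0 := by
  obtain ⟨f, hf⟩ := exists_func φ
  obtain ⟨g, hg⟩ := exists_func ψ
  have hfd : ∀ y, (f ∘ₗ (ka a₀)) (dl y) = 0 := by
    intro y
    rw [LinearMap.comp_apply, ka_dl, hf _ 0 ?_, map_zero]
    exact Rp.congr Rpr.zero ⟨ka (a₀ + 1) y, (sub_zero _).symm⟩
  have hgd : ∀ y, (g ∘ₗ (ka b₀)) (dl y) = 0 := by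
    intro y
    rw [LinearMap.comp_apply, ka_dl, hg _ 0 ?_, map_zero]
    exact Rp.congr Rpr.zero ⟨ka (b₀ + 1) y, (sub_zero _).symm⟩
  obtain ⟨Φ, hΦ⟩ := exists_dual (K := G × H) ((fn (f ∘ₗ (ka a₀)) (g ∘ₗ (ka b₀))) ∘ₗ (io n))
    (fun y => by
      rw [LinearMap.comp_apply, ← dl_io]
      exact fn_dl hfd hgd _)
  have key : ∀ a b, a + b = n → ∀ (x : HQ a G) (y : HQ b H), Φ (cr a b n x y) =
      f (ka a₀ (nq (io a (rp x)))) * g (ka b₀ (nq (io b (rp y)))) := by
    intro a b hab x y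
    rw [hΦ _ _ (cr_rp n (rp_spec x) (rp_spec y)), LinearMap.comp_apply]
    unfold cx
    rw [io_ka_of_mem (hab ▸ LL_Sd (io_mem a _) (io_mem b _)), fn_Sd]
    rfl
  have hcl : ∀ {K : Type} [Group K] {k : ℕ} (x : HQ k K) (f : T k K ℚ →ₗ[ℚ] ℚ)
      (_ : ∀ y, (f ∘ₗ (ka k)) (dl y) = 0), f (ka k (nq (io k (rp x)))) = f (rp x) := by
    intro K _ k x f hf
    obtain ⟨y, hy⟩ := nq_hom (io_mem k (rp x)) (rp_spec x).cyc'
    have h1 := hf y
    rw [← hy, map_sub, LinearMap.comp_apply, LinearMap.comp_apply, ka_io, sub_eq_zero] at h1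
    exact h1.symm
  refine ⟨Φ, fun x y => ?_, fun a b hab ha x y => ?_⟩
  · rw [key a₀ b₀ hn, hcl x f hfd, hcl y g hgd, hf _ _ (rp_spec x), hg _ _ (rp_spec y)]
  · rw [key a b hab, ka_of_mem_ne ha (nq_LL (io_mem a (rp x))), map_zero, zero_mul]

end Cross

section Crs

variable {I : ℕ → Type} {G₁ G₂ : Type} [Group G₁] [Group G₂]

open Classical in
theorem crs_aux {a₀ n : ℕ} (Φ : HQ n (G₁ × G₂) →ₗ[ℚ] ℚ) (i₀ : I n)
    (h2 : ∀ a b, a + b = n → a ≠ a₀ → ∀ (x : HQ a G₁) (y : HQ b G₂), Φ (cr a b n x y) = 0)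
    (a b : ℕ) (i : I (a + b)) (ha : a ≠ a₀) (x : HQ a G₁) (y : HQ b G₂) :
    Φ ((DirectSum.of (fun p : (Σ j, I j) => HQ p.1 (G₁ × G₂)) ⟨a + b, i⟩
      (cr a b (a + b) x y)) ⟨n, i₀⟩) = 0 := by
  by_cases hs : (⟨a + b, i⟩ : Σ j, I j) = ⟨n, i₀⟩
  · obtain rfl : a + b = n := congrArg Sigma.fst hs
    obtain rfl : i = i₀ := eq_of_heq (Sigma.mk.inj hs).2
    rw [DirectSum.of_eq_same]
    exact h2 a b rfl ha x y
  · rw [DirectSum.of_eq_of_ne _ _ _ (fun h => hs h.symm), map_zero]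

open Classical in
/-- The theorem of Künneth: the sum of the cross products with the elements of the bases is
injective. -/
theorem crs_injective : Function.Injective (crs I G₁ G₂) := by
  rw [← LinearMap.ker_eq_bot, eq_bot_iff]
  intro x hx
  rw [Submodule.mem_bot]
  apply DFunLike.ext
  rintro ⟨a₀, ⟨b₀, i₀⟩, k₀⟩
  change x _ = 0
  rw [← Module.forall_dual_apply_eq_zero_iff ℚ]
  intro φ
  obtain ⟨Φ, h1, h2⟩ := exists_cross_func (G := G₁) (H := G₂) (rfl : a₀ + b₀ = a₀ + b₀) φ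
    ((Module.Basis.ofVectorSpace ℚ (HQ b₀ G₂)).coord k₀)
  have key : Φ ∘ₗ (DirectSum.component ℚ (Σ j, I j) (fun p => HQ p.1 (G₁ × G₂))
      (⟨a₀ + b₀, i₀⟩ : Σ j, I j)) ∘ₗ (crs I G₁ G₂) =
      φ ∘ₗ (DirectSum.component ℚ (Σ a, IX I G₂ a) (fun p => HQ p.1 G₁) ⟨a₀, ⟨b₀, i₀⟩, k₀⟩) := by
    apply DirectSum.linearMap_ext
    rintro ⟨a, ⟨b, i⟩, k⟩
    apply LinearMap.ext
    intro y
    change Φ ((crs I G₁ G₂ (DirectSum.of (fun p : (Σ a, IX I G₂ a) => HQ p.1 G₁)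
      ⟨a, ⟨b, i⟩, k⟩ y)) ⟨a₀ + b₀, i₀⟩) = φ ((DirectSum.of (fun p : (Σ a, IX I G₂ a) => HQ p.1 G₁)
      ⟨a, ⟨b, i⟩, k⟩ y) ⟨a₀, ⟨b₀, i₀⟩, k₀⟩)
    rw [crs_of]
    by_cases ha : a = a₀
    · subst ha
      by_cases hb : b = b₀
      · subst hb
        by_cases hi : i = i₀
        · subst hi
          rw [DirectSum.of_eq_same, h1, Module.Basis.coord_apply, Module.Basis.repr_self]
          by_cases hk : k = k₀
          · subst hk
            rw [DirectSum.of_eq_same, Finsupp.single_eq_same, mul_one]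
          · rw [Finsupp.single_eq_of_ne (fun h => hk h.symm), mul_zero,
              DirectSum.of_eq_of_ne, map_zero]
            intro h
            apply hk
            have h' := eq_of_heq (Sigma.mk.inj h).2
            exact (eq_of_heq (Sigma.mk.inj h').2).symm
        · rw [DirectSum.of_eq_of_ne, DirectSum.of_eq_of_ne, map_zero, map_zero]
          · intro h
            apply hi
            have h' := congrArg Sigma.fst (eq_of_heq (Sigma.mk.inj h).2)
            exact (eq_of_heq (Sigma.mk.inj h').2).symm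
          · intro h
            exact hi (eq_of_heq (Sigma.mk.inj h).2).symm
      · rw [DirectSum.of_eq_of_ne, DirectSum.of_eq_of_ne, map_zero, map_zero]
        · intro h
          apply hb
          have h' := congrArg Sigma.fst (eq_of_heq (Sigma.mk.inj h).2)
          exact (congrArg Sigma.fst h').symm
        · intro h
          have h' : a + b₀ = a + b := congrArg Sigma.fst h
          omega
    · rw [crs_aux Φ i₀ h2 a b i ha, DirectSum.of_eq_of_ne, map_zero]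
      intro h
      exact ha (congrArg Sigma.fst h).symm
  have h3 := DFunLike.congr_fun key x
  rw [LinearMap.comp_apply, LinearMap.comp_apply, LinearMap.mem_ker.mp hx, map_zero, map_zero]
    at h3
  exact h3.symm

end Crs

end Pool.Agent.N506
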