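import Pool.Agent.N506.Dc
import Pool.Agent.Y483.LGroup

/-!
Rationalised L-groups commute with directed colimits of rings with involution.
-/

namespace Pool.Agent.N506

open Matrix Pool.Agent.Y483

section Rings

variable {J : Type} [Preorder J] [IsDirected J (· ≤ ·)] [Nonempty J] {R : J → Type}
  [∀ i, Ring (R i)] [∀ i, StarRing (R i)] {S : Type} [Ring S] [StarRing S]
  {f : ∀ i j, i ≤ j → (R i →⋆ₙ+* R j)} {g : ∀ i, R i →⋆ₙ+* S} (ε : ℤˣ)

/-- The ring `S` is the directed colimit of the rings `R i`. -/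
def DCR (R : J → Type) [∀ i, Ring (R i)] [∀ i, StarRing (R i)] (f : ∀ i j, i ≤ j → (R i →⋆ₙ+* R j))
    (S : Type) [Ring S] [StarRing S] (g : ∀ i, R i →⋆ₙ+* S) : Prop :=
  DC R (fun i j h => f i j h) S (fun i => g i)

theorem DCR.mat (h : DCR R f S g) (m n : Type) [Finite m] [Finite n] :
    DC (fun i => Matrix m n (R i)) (fun i j hij M => M.map (f i j hij)) (Matrix m n S)
      (fun i M => M.map (g i)) := (h.tuple n).tuple m

variable {n m : Type} [Fintype n] [Fintype m]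

theorem DCR.qform (h : DCR R f S g) (n : Type) [Fintype n] :
    DC (fun i => QForm (R i) ε n) (fun i j hij x => x.map (f i j hij)) (QForm S ε n)
      (fun i x => x.map (g i)) where
  ss i j k h1 h2 x := QForm.ext ((h.mat n n).ss i j k h1 h2 x.θ) ((h.mat n n).ss i j k h1 h2 x.ψ)
  ts i j h1 x := QForm.ext ((h.mat n n).ts i j h1 x.θ) ((h.mat n n).ts i j h1 x.ψ)
  surj y := by
    have H := h.mat n n
    obtain ⟨i, ⟨a, b⟩, hab⟩ := (H.prod H).surj (y.θ, y.ψ)
    have ha : a.map (g i) = y.θ := congrArg Prod.fst hab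
    have hb : b.map (g i) = y.ψ := congrArg Prod.snd hab
    have key : (((dag ε b).map (g i), (b * (a + dag ε a) * b).map (g i)),
        ((a + dag ε a) * b * a * (b * (a + dag ε a))).map (g i)) =
        ((b.map (g i), b.map (g i)), a.map (g i)) := by
      refine Prod.ext (Prod.ext ?_ ?_) ?_
      · change (dag ε b).map (g i) = b.map (g i)
        rw [← dag_map, hb, y.dag_psi]
      · change (b * (a + dag ε a) * b).map (g i) = b.map (g i)
        rw [Matrix.map_mul, Matrix.map_mul, Matrix.map_add (g i) (map_add (g i)), ← dag_map, hb,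
          ha, y.psi_phi_psi]
      · change ((a + dag ε a) * b * a * (b * (a + dag ε a))).map (g i) = a.map (g i)
        rw [Matrix.map_mul, Matrix.map_mul, Matrix.map_mul, Matrix.map_mul,
          Matrix.map_add (g i) (map_add (g i)), ← dag_map, hb, ha, y.compress]
    obtain ⟨j, hj, e⟩ := ((H.prod H).prod H).inj i
      ((dag ε b, b * (a + dag ε a) * b), (a + dag ε a) * b * a * (b * (a + dag ε a)))
      ((b, b), a) key
    have e1 : (dag ε b).map (f i j hj) = b.map (f i j hj) :=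
      congrArg (fun p => p.1.1) e
    have e2 : (b * (a + dag ε a) * b).map (f i j hj) = b.map (f i j hj) :=
      congrArg (fun p => p.1.2) e
    have e3 : ((a + dag ε a) * b * a * (b * (a + dag ε a))).map (f i j hj) =
      a.map (f i j hj) := congrArg (fun p => p.2) e
    refine ⟨j, ⟨a.map (f i j hj), b.map (f i j hj), ?_, ?_, ?_⟩, ?_⟩
    · rw [dag_map, e1]
    · rw [dag_map, ← Matrix.map_add (f i j hj) (map_add (f i j hj)), ← Matrix.map_mul,
        ← Matrix.map_mul, e2]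
    · rw [dag_map, ← Matrix.map_add (f i j hj) (map_add (f i j hj)), ← Matrix.map_mul,
        ← Matrix.map_mul, ← Matrix.map_mul, ← Matrix.map_mul, e3]
    · exact QForm.ext ((H.ts i j hj a).trans ha) ((H.ts i j hj b).trans hb)
  inj i x y e := by
    have H := h.mat n n
    obtain ⟨j, hj, e⟩ := (H.prod H).inj i (x.θ, x.ψ) (y.θ, y.ψ)
      (Prod.ext (congrArg QForm.θ e) (congrArg QForm.ψ e))
    exact ⟨j, hj, QForm.ext (congrArg Prod.fst e) (congrArg Prod.snd e)⟩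

theorem DCR.forms (h : DCR R f S g) :
    DC (fun i => Forms (R i) ε) (fun i j hij => formsMap ε (f i j hij)) (Forms S ε)
      (fun i => formsMap ε (g i)) where
  ss i j k h1 h2 x := by
    obtain ⟨n, x⟩ := x
    exact congrArg (Sigma.mk n) ((h.qform ε (Fin n)).ss i j k h1 h2 x)
  ts i j h1 x := by
    obtain ⟨n, x⟩ := x
    exact congrArg (Sigma.mk n) ((h.qform ε (Fin n)).ts i j h1 x)
  surj y := by
    obtain ⟨n, y⟩ := y
    obtain ⟨i, x, hx⟩ := (h.qform ε (Fin n)).surj y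
    exact ⟨i, ⟨n, x⟩, congrArg (Sigma.mk n) hx⟩
  inj i x y e := by
    obtain ⟨n, x⟩ := x
    obtain ⟨m, y⟩ := y
    obtain rfl : n = m := congrArg Sigma.fst e
    have e' : x.map (g i) = y.map (g i) := eq_of_heq (Sigma.mk.inj e).2
    obtain ⟨j, hj, e1⟩ := (h.qform ε (Fin n)).inj i x y e'
    exact ⟨j, hj, congrArg (Sigma.mk n) e1⟩

/-- Isometries live at a finite stage. -/
theorem DCR.isometric (h : DCR R f S g) {x : QForm S ε n} {y : QForm S ε m}
    (hxy : Isometric x y) : ∃ i, ∃ (x' : QForm (R i) ε n) (y' : QForm (R i) ε m),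
      x'.map (g i) = x ∧ y'.map (g i) = y ∧ Isometric x' y' := by
  obtain ⟨u, h1, χ, h2⟩ := hxy
  obtain ⟨i, ⟨⟨x', y'⟩, ⟨u', χ'⟩⟩, e⟩ :=
    (((h.qform ε n).prod (h.qform ε m)).prod ((h.mat m n).prod (h.mat n n))).surj ((x, y), (u, χ))
  have ex : x'.map (g i) = x := congrArg (fun p => p.1.1) e
  have ey : y'.map (g i) = y := congrArg (fun p => p.1.2) e
  have eu : u'.map (g i) = u := congrArg (fun p => p.2.1) e
  have ec : χ'.map (g i) = χ := congrArg (fun p => p.2.2) e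
  have hH : ∀ M : Matrix m n (R i), (Mᴴ).map (g i) = (M.map (g i))ᴴ := by
    intro M; ext a b
    exact map_star (g i) (M b a)
  have k1 : (u' * x'.ψ * u'ᴴ).map (g i) = y'.ψ.map (g i) := by
    rw [Matrix.map_mul, Matrix.map_mul, hH, eu]
    have : x'.ψ.map (g i) = x.ψ := congrArg QForm.ψ ex
    rw [this, h1]
    exact (congrArg QForm.ψ ey).symm
  have k2 : (u'ᴴ * y'.θ * u').map (g i) = (x'.θ + (χ' - dag ε χ')).map (g i) := by
    rw [Matrix.map_mul, Matrix.map_mul, hH, eu, Matrix.map_add (g i) (map_add (g i)),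
      Matrix.map_sub (g i) (map_sub (g i)), ← dag_map, ec]
    have e1 : x'.θ.map (g i) = x.θ := congrArg QForm.θ ex
    have e2 : y'.θ.map (g i) = y.θ := congrArg QForm.θ ey
    rw [e1, e2, h2]
  obtain ⟨j, hj, e3⟩ := ((h.mat m m).prod (h.mat n n)).inj i (u' * x'.ψ * u'ᴴ, u'ᴴ * y'.θ * u')
    (y'.ψ, x'.θ + (χ' - dag ε χ')) (Prod.ext k1 k2)
  have hH' : ∀ M : Matrix m n (R i), (Mᴴ).map (f i j hj) = (M.map (f i j hj))ᴴ := by
    intro M; ext a b
    exact map_star (f i j hj) (M b a)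
  have k3 : (u' * x'.ψ * u'ᴴ).map (f i j hj) = y'.ψ.map (f i j hj) := congrArg Prod.fst e3
  have k4 : (u'ᴴ * y'.θ * u').map (f i j hj) = (x'.θ + (χ' - dag ε χ')).map (f i j hj) :=
    congrArg Prod.snd e3
  refine ⟨j, x'.map (f i j hj), y'.map (f i j hj), ?_, ?_, u'.map (f i j hj), ?_,
    χ'.map (f i j hj), ?_⟩
  · exact ((h.qform ε n).ts i j hj x').trans ex
  · exact ((h.qform ε m).ts i j hj y').trans ey
  · rw [← hH']
    change u'.map (f i j hj) * x'.ψ.map (f i j hj) * (u'ᴴ).map (f i j hj) = y'.ψ.map (f i j hj)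
    rw [← Matrix.map_mul, ← Matrix.map_mul, k3]
  · rw [← hH']
    change (u'ᴴ).map (f i j hj) * y'.θ.map (f i j hj) * u'.map (f i j hj) =
      x'.θ.map (f i j hj) + (χ'.map (f i j hj) - dag ε (χ'.map (f i j hj)))
    rw [← Matrix.map_mul, ← Matrix.map_mul, k4, Matrix.map_add (f i j hj) (map_add (f i j hj)),
      Matrix.map_sub (f i j hj) (map_sub (f i j hj)), ← dag_map]

/-- Hyperbolic structures live at a finite stage. -/
theorem DCR.hyp (h : DCR R f S g) {x : QForm S ε n} (hx : IsHyp x) :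
    ∃ i, ∃ x' : QForm (R i) ε n, x'.map (g i) = x ∧ IsHyp x' := by
  obtain ⟨l, h1, h2, h3, χ, h4⟩ := hx
  have H := h.mat n n
  obtain ⟨i, ⟨x', ⟨l', χ'⟩⟩, e⟩ := ((h.qform ε n).prod (H.prod H)).surj (x, (l, χ))
  have ex : x'.map (g i) = x := congrArg (fun p => p.1) e
  have el : l'.map (g i) = l := congrArg (fun p => p.2.1) e
  have ec : χ'.map (g i) = χ := congrArg (fun p => p.2.2) e
  have ee : x'.e.map (g i) = x.e := by rw [← QForm.map_e, ex]
  have ep : x'.φ.map (g i) = x.φ := by rw [← QForm.map_phi, ex]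
  have et : x'.θ.map (g i) = x.θ := congrArg QForm.θ ex
  have k1 : (l' * l').map (g i) = l'.map (g i) := by rw [Matrix.map_mul, el, h1]
  have k2 : (l' * x'.e).map (g i) = l'.map (g i) := by rw [Matrix.map_mul, el, ee, h2]
  have k3 : (x'.e * l').map (g i) = l'.map (g i) := by rw [Matrix.map_mul, el, ee, h3]
  have k4 : x'.θ.map (g i) = (l'ᴴ * x'.φ + (χ' - dag ε χ')).map (g i) := by
    rw [Matrix.map_add (g i) (map_add (g i)), Matrix.map_sub (g i) (map_sub (g i)),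
      Matrix.map_mul, ← dag_map, et, ep, ec]
    have : (l'ᴴ).map (g i) = lᴴ := by
      rw [← el]; ext a b
      exact map_star (g i) (l' b a)
    rw [this, h4]
  obtain ⟨j, hj, e3⟩ := ((H.prod H).prod (H.prod H)).inj i
    ((l' * l', l' * x'.e), (x'.e * l', x'.θ))
    ((l', l'), (l', l'ᴴ * x'.φ + (χ' - dag ε χ')))
    (Prod.ext (Prod.ext k1 k2) (Prod.ext k3 k4))
  have m1 : (l' * l').map (f i j hj) = l'.map (f i j hj) := congrArg (fun p => p.1.1) e3
  have m2 : (l' * x'.e).map (f i j hj) = l'.map (f i j hj) := congrArg (fun p => p.1.2) e3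
  have m3 : (x'.e * l').map (f i j hj) = l'.map (f i j hj) := congrArg (fun p => p.2.1) e3
  have m4 : x'.θ.map (f i j hj) = (l'ᴴ * x'.φ + (χ' - dag ε χ')).map (f i j hj) :=
    congrArg (fun p => p.2.2) e3
  refine ⟨j, x'.map (f i j hj), ((h.qform ε n).ts i j hj x').trans ex, l'.map (f i j hj),
    ?_, ?_, ?_, χ'.map (f i j hj), ?_⟩
  · rw [← Matrix.map_mul, m1]
  · rw [QForm.map_e, ← Matrix.map_mul, m2]
  · rw [QForm.map_e, ← Matrix.map_mul, m3]
  · change x'.θ.map (f i j hj) = _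
    rw [m4, Matrix.map_add (f i j hj) (map_add (f i j hj)),
      Matrix.map_sub (f i j hj) (map_sub (f i j hj)), Matrix.map_mul, ← dag_map, QForm.map_phi]
    congr 2
    ext a b
    exact map_star (f i j hj) (l' b a)

/-- Orthogonal decompositions live at a finite stage. -/
theorem DCR.internal (h : DCR R f S g) {x y z : QForm S ε n} (hθ : z.θ = x.θ + y.θ)
    (hψ : z.ψ = x.ψ + y.ψ) (h1 : x.φ * y.ψ = 0) (h2 : y.φ * x.ψ = 0) :
    ∃ i, ∃ x' y' z' : QForm (R i) ε n, x'.map (g i) = x ∧ y'.map (g i) = y ∧ z'.map (g i) = z ∧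
      z'.θ = x'.θ + y'.θ ∧ z'.ψ = x'.ψ + y'.ψ ∧ x'.φ * y'.ψ = 0 ∧ y'.φ * x'.ψ = 0 := by
  have H := h.mat n n
  have Q := h.qform ε n
  obtain ⟨i, ⟨x', ⟨y', z'⟩⟩, e⟩ := (Q.prod (Q.prod Q)).surj (x, (y, z))
  have ex : x'.map (g i) = x := congrArg (fun p => p.1) e
  have ey : y'.map (g i) = y := congrArg (fun p => p.2.1) e
  have ez : z'.map (g i) = z := congrArg (fun p => p.2.2) e
  have ext' : x'.θ.map (g i) = x.θ := congrArg QForm.θ ex
  have exp : x'.ψ.map (g i) = x.ψ := congrArg QForm.ψ ex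
  have eyt : y'.θ.map (g i) = y.θ := congrArg QForm.θ ey
  have eyp : y'.ψ.map (g i) = y.ψ := congrArg QForm.ψ ey
  have ezt : z'.θ.map (g i) = z.θ := congrArg QForm.θ ez
  have ezp : z'.ψ.map (g i) = z.ψ := congrArg QForm.ψ ez
  have k1 : z'.θ.map (g i) = (x'.θ + y'.θ).map (g i) := by
    rw [Matrix.map_add (g i) (map_add (g i)), ext', eyt, ezt, hθ]
  have k2 : z'.ψ.map (g i) = (x'.ψ + y'.ψ).map (g i) := by
    rw [Matrix.map_add (g i) (map_add (g i)), exp, eyp, ezp, hψ]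
  have k3 : (x'.φ * y'.ψ).map (g i) = (0 : Matrix n n (R i)).map (g i) := by
    rw [Matrix.map_mul, ← QForm.map_phi, ex, eyp, h1, Matrix.map_zero (g i) (map_zero (g i))]
  have k4 : (y'.φ * x'.ψ).map (g i) = (0 : Matrix n n (R i)).map (g i) := by
    rw [Matrix.map_mul, ← QForm.map_phi, ey, exp, h2, Matrix.map_zero (g i) (map_zero (g i))]
  obtain ⟨j, hj, e3⟩ := ((H.prod H).prod (H.prod H)).inj i
    ((z'.θ, z'.ψ), (x'.φ * y'.ψ, y'.φ * x'.ψ)) ((x'.θ + y'.θ, x'.ψ + y'.ψ), (0, 0))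
    (Prod.ext (Prod.ext k1 k2) (Prod.ext k3 k4))
  have m1 : z'.θ.map (f i j hj) = (x'.θ + y'.θ).map (f i j hj) := congrArg (fun p => p.1.1) e3
  have m2 : z'.ψ.map (f i j hj) = (x'.ψ + y'.ψ).map (f i j hj) := congrArg (fun p => p.1.2) e3
  have m3 : (x'.φ * y'.ψ).map (f i j hj) = (0 : Matrix n n (R i)).map (f i j hj) :=
    congrArg (fun p => p.2.1) e3
  have m4 : (y'.φ * x'.ψ).map (f i j hj) = (0 : Matrix n n (R i)).map (f i j hj) :=
    congrArg (fun p => p.2.2) e3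
  refine ⟨j, x'.map (f i j hj), y'.map (f i j hj), z'.map (f i j hj), (Q.ts i j hj x').trans ex,
    (Q.ts i j hj y').trans ey, (Q.ts i j hj z').trans ez, ?_, ?_, ?_, ?_⟩
  · change z'.θ.map (f i j hj) = x'.θ.map (f i j hj) + y'.θ.map (f i j hj)
    rw [m1, Matrix.map_add (f i j hj) (map_add (f i j hj))]
  · change z'.ψ.map (f i j hj) = x'.ψ.map (f i j hj) + y'.ψ.map (f i j hj)
    rw [m2, Matrix.map_add (f i j hj) (map_add (f i j hj))]
  · rw [QForm.map_phi]
    change x'.φ.map (f i j hj) * y'.ψ.map (f i j hj) = 0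
    rw [← Matrix.map_mul, m3, Matrix.map_zero (f i j hj) (map_zero (f i j hj))]
  · rw [QForm.map_phi]
    change y'.φ.map (f i j hj) * x'.ψ.map (f i j hj) = 0
    rw [← Matrix.map_mul, m4, Matrix.map_zero (f i j hj) (map_zero (f i j hj))]

/-- Relations live at a finite stage. -/
theorem DCR.rel (h : DCR R f S g) {r : Forms S ε →₀ ℚ} (hr : LRel S ε r) :
    ∃ i, ∃ r' : Forms (R i) ε →₀ ℚ, LRel (R i) ε r' ∧
      Finsupp.mapDomain (formsMap ε (g i)) r' = r := by
  rcases hr with ⟨⟨a, x⟩, ⟨b, y⟩, hxy, rfl⟩ | ⟨n, x, y, z, h1, h2, h3, h4, rfl⟩ | ⟨⟨a, x⟩, hx, rfl⟩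
  · change Isometric x y at hxy
    obtain ⟨i, x', y', rfl, rfl, hxy'⟩ := h.isometric ε hxy
    refine ⟨i, _, Or.inl ⟨⟨a, x'⟩, ⟨b, y'⟩, hxy', rfl⟩, ?_⟩
    rw [sub_eq_add_neg, Finsupp.mapDomain_add, ← Finsupp.single_neg, Finsupp.mapDomain_single,
      Finsupp.mapDomain_single, Finsupp.single_neg, ← sub_eq_add_neg]
    rfl
  · obtain ⟨i, x', y', z', rfl, rfl, rfl, h5, h6, h7, h8⟩ := h.internal ε h1 h2 h3 h4
    refine ⟨i, _, Or.inr (Or.inl ⟨n, x', y', z', h5, h6, h7, h8, rfl⟩), ?_⟩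
    rw [sub_eq_add_neg, sub_eq_add_neg, Finsupp.mapDomain_add, Finsupp.mapDomain_add,
      ← Finsupp.single_neg, ← Finsupp.single_neg, Finsupp.mapDomain_single,
      Finsupp.mapDomain_single, Finsupp.mapDomain_single, Finsupp.single_neg,
      Finsupp.single_neg, ← sub_eq_add_neg, ← sub_eq_add_neg]
    rfl
  · change IsHyp x at hx
    obtain ⟨i, x', rfl, hx'⟩ := h.hyp ε hx
    refine ⟨i, _, Or.inr (Or.inr ⟨⟨a, x'⟩, hx', rfl⟩), ?_⟩
    rw [Finsupp.mapDomain_single]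
    rfl

theorem DCR.span (h : DCR R f S g) {r : Forms S ε →₀ ℚ} (hr : r ∈ LSpan S ε) :
    ∃ i, ∃ r' : Forms (R i) ε →₀ ℚ, r' ∈ LSpan (R i) ε ∧
      Finsupp.mapDomain (formsMap ε (g i)) r' = r := by
  have H := (h.forms ε).finsupp ℚ
  induction hr using Submodule.span_induction with
  | mem x hx =>
    obtain ⟨i, r', h1, h2⟩ := h.rel ε hx
    exact ⟨i, r', Submodule.subset_span h1, h2⟩
  | zero =>
    obtain ⟨i⟩ := (inferInstance : Nonempty J)
    exact ⟨i, 0, Submodule.zero_mem _, Finsupp.mapDomain_zero⟩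
  | add x y _ _ hx hy =>
    obtain ⟨i, a, ha, hx⟩ := hx
    obtain ⟨j, b, hb, hy⟩ := hy
    obtain ⟨m, h1, h2⟩ := bound2 i j
    refine ⟨m, Finsupp.mapDomain (formsMap ε (f i m h1)) a +
      Finsupp.mapDomain (formsMap ε (f j m h2)) b, Submodule.add_mem _ ?_ ?_, ?_⟩
    · exact lspan_map ε (f i m h1) ha
    · exact lspan_map ε (f j m h2) hb
    · rw [Finsupp.mapDomain_add, H.ts, H.ts, hx, hy]
  | smul q x _ hx =>
    obtain ⟨i, a, ha, hx⟩ := hx
    exact ⟨i, q • a, Submodule.smul_mem _ q ha, by rw [Finsupp.mapDomain_smul, hx]⟩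

/-- An element of the L-group of a finite stage which vanishes in the colimit vanishes at a finite
stage. -/
theorem DCR.lq (h : DCR R f S g) {i : J} (a : LQ (R i) ε) (ha : LQ.map ε (g i) a = 0) :
    ∃ j, ∃ hj : i ≤ j, LQ.map ε (f i j hj) a = 0 := by
  have H := (h.forms ε).finsupp ℚ
  obtain ⟨r, rfl⟩ := Submodule.mkQ_surjective (LSpan (R i) ε) a
  have h1 : Finsupp.mapDomain (formsMap ε (g i)) r ∈ LSpan S ε :=
    (Submodule.Quotient.mk_eq_zero _).mp ha
  obtain ⟨k, r', h2, h3⟩ := h.span ε h1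
  obtain ⟨m, him, hkm⟩ := bound2 i k
  obtain ⟨m', hm, e⟩ := H.inj m (Finsupp.mapDomain (formsMap ε (f i m him)) r)
    (Finsupp.mapDomain (formsMap ε (f k m hkm)) r') (by rw [H.ts, H.ts, h3])
  rw [H.ss, H.ss] at e
  refine ⟨m', him.trans hm, ?_⟩
  refine (Submodule.Quotient.mk_eq_zero _).mpr ?_
  change Finsupp.mapDomain (formsMap ε (f i m' _)) r ∈ _
  rw [e]
  exact lspan_map ε (f k m' _) h2

end Rings

end Pool.Agent.N506
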