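import Pool.Agent.R615.KU.Br

/-!
The normalisation operator on chains of lists, and the composition of the shuffle map and the
Alexander-Whitney map modulo degenerate chains.
-/

namespace Pool.Agent.N506

open Pool.Agent.R615.KU Finsupp TensorProduct

section One

variable {V W M : Type*} [AddCommGroup M] [Module ℚ M]

/-- The normalisation of a list of length at most `n`. -/
noncomputable def nl : ℕ → List V → LC V
  | _, [] => single [] 1
  | 0, _ :: _ => 0
  | n + 1, v :: l => cn v (Finsupp.linearCombination ℚ (nl n) (bdl (v :: l)))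

/-- The normalisation operator. -/
noncomputable def nz : LC V →ₗ[ℚ] LC V := Finsupp.linearCombination ℚ fun l => nl l.length l

theorem nz_nil : nz (single ([] : List V) 1) = single [] 1 := by
  simp [nz, nl]

theorem nz_eq {n : ℕ} {z : LC V} (hz : z ∈ LL V n) :
    Finsupp.linearCombination ℚ (nl n) z = nz z := by
  apply LL_ext _ hz
  intro l hl
  unfold nz
  rw [Finsupp.linearCombination_single, Finsupp.linearCombination_single, hl]

theorem nz_cons (v : V) (l : List V) :
    nz (single (v :: l) 1) = cn v (nz (bd (single (v :: l) 1))) := by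
  rw [← nz_eq (bd_LL (single_mem_LL (n := l.length + 1) (by simp) (1 : ℚ))), bd_single]
  unfold nz
  rw [Finsupp.linearCombination_single, one_smul]
  rfl

theorem LL_one_zero {f g : LC V →ₗ[ℚ] M}
    (h : ∀ n : ℕ, ∀ l : List V, l.length = n → f (single l 1) = g (single l 1)) : f = g :=
  LC_ext fun l => h l.length l rfl

theorem bd_nz (z : LC V) : bd (nz z) = nz (bd z) := by
  have h : bd ∘ₗ (nz : LC V →ₗ[ℚ] LC V) = nz ∘ₗ bd := by
    apply LL_one_zero
    intro n
    induction n with
    | zero =>
      intro l hl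
      obtain rfl := List.length_eq_zero_iff.mp hl
      rw [LinearMap.comp_apply, LinearMap.comp_apply, nz_nil, bd_nil, map_zero]
    | succ n ih =>
      intro l hl
      obtain ⟨v, l, rfl⟩ := List.exists_cons_of_length_eq_add_one hl
      have h1 : bd (nz (bd (single (v :: l) (1 : ℚ)))) = nz (bd (bd (single (v :: l) 1))) :=
        LL_ext (f := bd ∘ₗ nz) (g := nz ∘ₗ bd) ih (bd_LL (single_mem_LL hl (1 : ℚ)))
      rw [LinearMap.comp_apply, LinearMap.comp_apply, nz_cons, bd_cn, h1, bd_bd, map_zero,
        map_zero, sub_zero]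
  exact DFunLike.congr_fun h z

theorem P_nz (f : V → W) (z : LC V) : P f (nz z) = nz (P f z) := by
  have h : (P f) ∘ₗ (nz : LC V →ₗ[ℚ] LC V) = nz ∘ₗ (P f) := by
    apply LL_one_zero
    intro n
    induction n with
    | zero =>
      intro l hl
      obtain rfl := List.length_eq_zero_iff.mp hl
      rw [LinearMap.comp_apply, LinearMap.comp_apply, nz_nil, P_single, List.map_nil, nz_nil]
    | succ n ih =>
      intro l hl
      obtain ⟨v, l, rfl⟩ := List.exists_cons_of_length_eq_add_one hl
      have h1 : P f (nz (bd (single (v :: l) (1 : ℚ)))) = nz (P f (bd (single (v :: l) 1))) :=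
        LL_ext (f := (P f) ∘ₗ nz) (g := nz ∘ₗ (P f)) ih (bd_LL (single_mem_LL hl (1 : ℚ)))
      rw [LinearMap.comp_apply, LinearMap.comp_apply, nz_cons, P_cn, h1, P_single, List.map_cons,
        nz_cons, P_bd, P_single, List.map_cons]
  exact DFunLike.congr_fun h z

/-- Lists with two equal consecutive entries. -/
def Dg : List V → Prop
  | [] => False
  | [_] => False
  | v :: w :: l => v = w ∨ Dg (w :: l)

theorem Dg.cons {l : List V} (h : Dg l) (v : V) : Dg (v :: l) := by
  cases l with
  | nil => exact h.elim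
  | cons w l => exact Or.inr h

theorem dg_two (v : V) (l : List V) : Dg (v :: v :: l) := Or.inl rfl

/-- Degenerate chains of length `n`. -/
noncomputable def Dn (V : Type*) (n : ℕ) : Submodule ℚ (LC V) :=
  Submodule.span ℚ {z | ∃ l : List V, Dg l ∧ l.length = n ∧ z = single l 1}

/-- Degenerate chains. -/
noncomputable def Ds (V : Type*) : Submodule ℚ (LC V) :=
  Submodule.span ℚ {z | ∃ l : List V, Dg l ∧ z = single l 1}

theorem cn_Dn {n : ℕ} (v : V) {z : LC V} (hz : z ∈ Dn V n) : cn v z ∈ Dn V (n + 1) := by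
  have h : Dn V n ≤ (Dn V (n + 1)).comap (cn v) := by
    apply Submodule.span_le.mpr
    rintro _ ⟨l, h1, h2, rfl⟩
    change cn v (single l 1) ∈ Dn V (n + 1)
    rw [cn_single]
    exact Submodule.subset_span ⟨v :: l, h1.cons v, by simp [h2], rfl⟩
  exact h hz

theorem cn_Ds (v : V) {z : LC V} (hz : z ∈ Ds V) : cn v z ∈ Ds V := by
  have h : Ds V ≤ (Ds V).comap (cn v) := by
    apply Submodule.span_le.mpr
    rintro _ ⟨l, h1, rfl⟩
    change cn v (single l 1) ∈ Ds V
    rw [cn_single]
    exact Submodule.subset_span ⟨v :: l, h1.cons v, rfl⟩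
  exact h hz

theorem cn_cn_Dn {n : ℕ} (v : V) {z : LC V} (hz : z ∈ LL V n) : cn v (cn v z) ∈ Dn V (n + 2) := by
  have h : LL V n ≤ (Dn V (n + 2)).comap ((cn v) ∘ₗ (cn v)) := by
    unfold LL
    rw [Finsupp.supported_eq_span_single]
    apply Submodule.span_le.mpr
    rintro _ ⟨l, hl, rfl⟩
    change cn v (cn v (single l 1)) ∈ Dn V (n + 2)
    rw [cn_single, cn_single]
    exact Submodule.subset_span ⟨v :: v :: l, dg_two v l, by simpa using hl, rfl⟩
  exact h hz

theorem cn_cn_Ds (v : V) (z : LC V) : cn v (cn v z) ∈ Ds V := by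
  have h : (⊤ : Submodule ℚ (LC V)) ≤ (Ds V).comap ((cn v) ∘ₗ (cn v)) := by
    intro z _
    induction z using Finsupp.induction_linear with
    | zero => exact Submodule.zero_mem _
    | add f g hf hg => exact Submodule.add_mem _ (hf trivial) (hg trivial)
    | single l r =>
      change cn v (cn v (single l r)) ∈ Ds V
      rw [cn_single, cn_single]
      have e : (single (v :: v :: l) r : LC V) = r • single (v :: v :: l) 1 := by simp
      rw [e]
      exact Submodule.smul_mem _ _ (Submodule.subset_span ⟨_, dg_two v l, rfl⟩)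
  exact h (Submodule.mem_top (x := z))

theorem bd_Dg : ∀ (n : ℕ) (l : List V), l.length = n + 1 → Dg l → bd (single l 1) ∈ Dn V n := by
  intro n
  induction n with
  | zero =>
    intro l hl h
    obtain ⟨v, l, rfl⟩ := List.exists_cons_of_length_eq_add_one hl
    have : l = [] := by simpa using hl
    subst this
    exact h.elim
  | succ n ih =>
    intro l hl h
    obtain ⟨v, l, rfl⟩ := List.exists_cons_of_length_eq_add_one hl
    obtain ⟨w, l, rfl⟩ := List.exists_cons_of_length_eq_add_one (by simpa using hl :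
      l.length = n + 1)
    rcases h with rfl | h
    · rw [← cn_single, bd_cn, ← cn_single, bd_cn, map_sub, sub_sub_cancel]
      cases n with
      | zero =>
        have : l = [] := by simpa using hl
        subst this
        rw [bd_nil, map_zero, map_zero]
        exact Submodule.zero_mem _
      | succ n =>
        exact cn_cn_Dn v (bd_LL (single_mem_LL (by simpa using hl) (1 : ℚ)))
    · have h1 := ih (w :: l) (by simpa using hl) h
      rw [← cn_single, bd_cn]
      refine Submodule.sub_mem _ ?_ (cn_Dn v h1)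
      exact Submodule.subset_span ⟨w :: l, h, by simpa using hl, rfl⟩

theorem nz_Dg : ∀ (n : ℕ) (l : List V), l.length = n → Dg l → nz (single l 1) = 0 := by
  intro n
  induction n with
  | zero =>
    intro l hl h
    obtain rfl := List.length_eq_zero_iff.mp hl
    exact h.elim
  | succ n ih =>
    intro l hl h
    have h1 := bd_Dg n l hl h
    obtain ⟨v, l, rfl⟩ := List.exists_cons_of_length_eq_add_one hl
    have h2 : Dn V n ≤ LinearMap.ker (nz : LC V →ₗ[ℚ] LC V) := by
      apply Submodule.span_le.mpr
      rintro _ ⟨l', h3, h4, rfl⟩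
      exact LinearMap.mem_ker.mpr (ih l' h4 h3)
    rw [nz_cons, LinearMap.mem_ker.mp (h2 h1), map_zero]

theorem nz_Ds {z : LC V} (hz : z ∈ Ds V) : nz z = 0 := by
  have h : Ds V ≤ LinearMap.ker (nz : LC V →ₗ[ℚ] LC V) := by
    apply Submodule.span_le.mpr
    rintro _ ⟨l, h1, rfl⟩
    exact LinearMap.mem_ker.mpr (nz_Dg _ l rfl h1)
  exact LinearMap.mem_ker.mp (h hz)

theorem nz_LL {n : ℕ} {z : LC V} (hz : z ∈ LL V n) : nz z ∈ LL V n := by
  have h : ∀ n : ℕ, ∀ l : List V, l.length = n → nz (single l (1 : ℚ)) ∈ LL V n := by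
    intro n
    induction n with
    | zero =>
      intro l hl
      obtain rfl := List.length_eq_zero_iff.mp hl
      rw [nz_nil]
      exact single_mem_LL rfl _
    | succ n ih =>
      intro l hl
      obtain ⟨v, l, rfl⟩ := List.exists_cons_of_length_eq_add_one hl
      rw [nz_cons]
      exact cn_LL v (LL_map nz ih (bd_LL (single_mem_LL hl (1 : ℚ))))
  exact LL_map nz (h n) hz

end One

section Two

variable {X Y : Type*}

/-- Tensors with a degenerate factor. -/
noncomputable def Dt (X Y : Type*) : Submodule ℚ (LC X ⊗[ℚ] LC Y) :=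
  Submodule.span ℚ {t | ∃ (u : LC X) (w : LC Y), (u ∈ Ds X ∨ w ∈ Ds Y) ∧ t = u ⊗ₜ[ℚ] w}

theorem nz_Dt {t : LC X ⊗[ℚ] LC Y} (ht : t ∈ Dt X Y) : TensorProduct.map nz nz t = 0 := by
  have h : Dt X Y ≤ LinearMap.ker (TensorProduct.map (nz : LC X →ₗ[ℚ] LC X)
      (nz : LC Y →ₗ[ℚ] LC Y)) := by
    apply Submodule.span_le.mpr
    rintro _ ⟨u, w, h1 | h1, rfl⟩
    · rw [SetLike.mem_coe, LinearMap.mem_ker, TensorProduct.map_tmul, nz_Ds h1,
        TensorProduct.zero_tmul]
    · rw [SetLike.mem_coe, LinearMap.mem_ker, TensorProduct.map_tmul, nz_Ds h1,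
        TensorProduct.tmul_zero]
  exact LinearMap.mem_ker.mp (h ht)

theorem cn_Dt (x : X) {t : LC X ⊗[ℚ] LC Y} (ht : t ∈ Dt X Y) :
    TensorProduct.map (cn x) LinearMap.id t ∈ Dt X Y := by
  have h : Dt X Y ≤ (Dt X Y).comap (TensorProduct.map (cn x) LinearMap.id) := by
    apply Submodule.span_le.mpr
    rintro _ ⟨u, w, h1, rfl⟩
    change TensorProduct.map (cn x) LinearMap.id (u ⊗ₜ[ℚ] w) ∈ Dt X Y
    rw [TensorProduct.map_tmul]
    exact Submodule.subset_span ⟨cn x u, w, h1.imp (fun h => cn_Ds x h) id, rfl⟩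
  exact h ht

theorem cn_cn_Dt (x : X) (t : LC X ⊗[ℚ] LC Y) :
    TensorProduct.map (cn x) LinearMap.id (TensorProduct.map (cn x) LinearMap.id t) ∈
      Dt X Y := by
  induction t using TensorProduct.induction_on with
  | zero => rw [map_zero, map_zero]; exact Submodule.zero_mem _
  | add a b ha hb => rw [map_add, map_add]; exact Submodule.add_mem _ ha hb
  | tmul u w =>
    rw [TensorProduct.map_tmul, TensorProduct.map_tmul]
    exact Submodule.subset_span ⟨_, _, Or.inl (cn_cn_Ds x u), rfl⟩

theorem shl_eq_cn (x : X) (l : List X) (y : Y) (m : List Y) :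
    ∃ z, shl (x :: l) (y :: m) = cn (x, y) z := ⟨_, shl_cons x l y m⟩

/-- The second components of the shuffles of a list of length at least two are degenerate. -/
theorem snd_shl : ∀ (m : List Y) (x x' : X) (l : List X), P Prod.snd (shl (x :: x' :: l) m) ∈ Ds Y
    := by
  intro m
  induction m with
  | nil => intro x x' l; rw [shl_nil_right, map_zero]; exact Submodule.zero_mem _
  | cons y m ih =>
    intro x x' l
    rw [shl_cons, u2_cons_left, zero_add, P_cn, map_add, map_add, map_smul, map_smul]
    refine Submodule.add_mem _ ?_ (Submodule.smul_mem _ _ (cn_Ds y (ih x x' l)))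
    obtain ⟨z, hz⟩ := shl_eq_cn x' l y m
    rw [hz, P_cn]
    exact cn_cn_Ds y _

theorem snd_shl_one (x : X) : ∀ (y : Y) (m : List Y),
    P Prod.snd (shl [x] (y :: m)) = single (y :: m) 1 := by
  intro y m
  induction m generalizing y with
  | nil =>
    rw [shl_cons, shl_nil_left, shl_nil_right]
    change P Prod.snd (cn (x, y) (single [] 1 + 0 + _)) = _
    rw [add_zero, smul_zero, add_zero, P_cn, P_single, List.map_nil, cn_single]
  | cons y' m ih =>
    rw [shl_cons, shl_nil_left, u2_cons_right, P_cn, zero_add, zero_add, List.length_nil,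
      pow_zero, one_smul, ih, cn_single]

theorem cn_AW_shl (x : X) (l : List X) (m : List Y) :
    TensorProduct.map (cn x) LinearMap.id (AW (shl (x :: l) m)) ∈ Dt X Y := by
  cases m with
  | nil => rw [shl_nil_right, map_zero, map_zero]; exact Submodule.zero_mem _
  | cons y m =>
    rw [shl_cons, AW_cn, map_add, TensorProduct.map_tmul]
    refine Submodule.add_mem _ ?_ (cn_cn_Dt x _)
    exact Submodule.subset_span ⟨_, _, Or.inl (cn_cn_Ds x _), rfl⟩

/-- The Alexander-Whitney map of a shuffle product is the tensor product modulo degenerate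
chains. -/
theorem AW_shl : ∀ (l : List X) (x : X) (y : Y) (m : List Y),
    AW (shl (x :: l) (y :: m)) - (single (x :: l) 1) ⊗ₜ[ℚ] (single (y :: m) 1) ∈ Dt X Y := by
  intro l
  induction l with
  | nil =>
    intro x y m
    have hu : AW (u2 ([] : List X) m) = 0 := by
      cases m with
      | nil => exact AW_nil
      | cons y' m => rw [u2_cons_right, map_zero]
    have h1 : P Prod.snd (u2 ([] : List X) m + shl [] (y :: m) +
        ((-1 : ℚ) ^ ([] : List X).length) • shl [x] m) = single m 1 := by
      rw [shl_nil_left, add_zero, List.length_nil, pow_zero, one_smul]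
      cases m with
      | nil =>
        rw [shl_nil_right, add_zero]
        change P Prod.snd (single [] 1) = _
        rw [P_single, List.map_nil]
      | cons y' m => rw [u2_cons_right, zero_add, snd_shl_one]
    rw [shl_cons, AW_cn, h1, cn_single, cn_single, add_sub_cancel_left, shl_nil_left, add_zero,
      map_add, hu, zero_add, map_smul, map_smul]
    exact Submodule.smul_mem _ _ (cn_AW_shl x [] m)
  | cons x' l ih =>
    intro x y m
    rw [shl_cons, u2_cons_left, zero_add, AW_cn, map_add, map_add, map_smul, map_smul, map_add,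
      map_add, map_smul, map_smul]
    have h1 : cn x (single ([] : List X) 1) ⊗ₜ[ℚ] (cn y (P Prod.snd (shl (x' :: l) (y :: m))) +
        ((-1 : ℚ) ^ (x' :: l).length) • cn y (P Prod.snd (shl (x :: x' :: l) m))) ∈
        Dt X Y := by
      refine Submodule.subset_span ⟨_, _, Or.inr ?_, rfl⟩
      refine Submodule.add_mem _ ?_ (Submodule.smul_mem _ _ (cn_Ds y (snd_shl m x x' l)))
      obtain ⟨z, hz⟩ := shl_eq_cn x' l y m
      rw [hz, P_cn]
      exact cn_cn_Ds y _
    have h2 := cn_Dt x (ih x' y m)
    rw [map_sub, TensorProduct.map_tmul, cn_single] at h2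
    have h3 := Submodule.smul_mem (Dt X Y) ((-1 : ℚ) ^ (x' :: l).length)
      (cn_AW_shl x (x' :: l) m)
    have h4 := Submodule.add_mem _ (Submodule.add_mem _ h1 h2) h3
    convert h4 using 1
    rw [LinearMap.id_apply]
    abel

/-- The normalised Alexander-Whitney map is a left inverse of the shuffle map. -/
theorem nz_AW_SH (u : LC X) (w : LC Y) (hu : u [] = 0) (hw : w [] = 0) :
    TensorProduct.map nz nz (AW (SH u w)) = nz u ⊗ₜ[ℚ] nz w := by
  have key : ∀ (l : List X) (m : List Y), l ≠ [] → m ≠ [] →
      TensorProduct.map nz nz (AW (SH (single l 1) (single m 1))) =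
        nz (single l 1) ⊗ₜ[ℚ] nz (single m (1 : ℚ)) := by
    intro l m hl hm
    obtain ⟨x, l, rfl⟩ := List.exists_cons_of_ne_nil hl
    obtain ⟨y, m, rfl⟩ := List.exists_cons_of_ne_nil hm
    rw [SH_single]
    have h := nz_Dt (AW_shl l x y m)
    rw [map_sub, TensorProduct.map_tmul, sub_eq_zero] at h
    exact h
  have e1 : u = ∑ l ∈ u.support, u l • single l 1 := by
    conv_lhs => rw [← Finsupp.sum_single u]
    simp [Finsupp.sum]
  have e2 : w = ∑ m ∈ w.support, w m • single m 1 := by
    conv_lhs => rw [← Finsupp.sum_single w]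
    simp [Finsupp.sum]
  have hne : ∀ l ∈ u.support, l ≠ [] := by
    rintro l hl rfl
    exact (Finsupp.mem_support_iff.mp hl) hu
  have hne' : ∀ m ∈ w.support, m ≠ [] := by
    rintro l hl rfl
    exact (Finsupp.mem_support_iff.mp hl) hw
  have h1 : TensorProduct.map nz nz (AW (SH u w)) = ∑ m ∈ w.support, w m •
      ∑ l ∈ u.support, u l • TensorProduct.map nz nz (AW (SH (single l 1) (single m 1))) := by
    conv_lhs => rw [e1, e2]
    simp only [map_sum, map_smul, LinearMap.sum_apply, LinearMap.smul_apply]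
  have h2 : nz u ⊗ₜ[ℚ] nz w = ∑ m ∈ w.support, w m •
      ∑ l ∈ u.support, u l • (nz (single l (1 : ℚ)) ⊗ₜ[ℚ] nz (single m (1 : ℚ))) := by
    conv_lhs => rw [e1, e2]
    simp only [map_sum, map_smul, TensorProduct.sum_tmul, TensorProduct.tmul_sum,
      TensorProduct.tmul_smul, TensorProduct.smul_tmul']
  rw [h1, h2]
  apply Finset.sum_congr rfl
  intro m hm
  congr 1
  apply Finset.sum_congr rfl
  intro l hl
  rw [key l m (hne l hl) (hne' m hm)]

end Two

end Pool.Agent.N506
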