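import Pool.Agent.N506.Kn
import Pool.Agent.N506.Cl
import Pool.Agent.R615.KU.Gp
import Pool.Agent.R615.KU.Fk
import Pool.Agent.R615.KU.Wr2

/-!
Groups on which natural families from rational homology to a functor are injective whenever they are
injective on the groups of a class `𝓑` closed under direct products.
-/

namespace Pool.Agent.N506

open Monoid Pool.Agent.Y483 Pool.Agent.Y110.KW Pool.Agent.Y75.MQ Pool.Agent.R793.Mag CategoryTheory
  DirectSum Pool.Agent.Y483.PW Pool.Agent.R615.KU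

/-- The sum of the transformations of the family is injective on `G`. -/
def Inj {I : ℕ → Type} {E : GrpCat.{0} ⥤ ModuleCat.{0} ℚ} (α : ∀ j : ℕ, I j → (hq j ⟶ E))
    (G : Type) [Group G] : Prop :=
  kerFam (fun p : Σ j, I j => α p.1 p.2) (GrpCat.of G) = ⊥

/-- For every group `T` and every family `α_{j,i} : H_j(-; ℚ) → E(- × T)` whose sum is injective on
all groups of the class `𝓑`, the sum is injective on `G`. -/
def RDet (𝓑 : GrpCat.{0} → Prop) (E : GrpCat.{0} ⥤ ModuleCat.{0} ℚ) (G : Type) [Group G] : Prop :=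
  ∀ (T : Type) [Group T] (I : ℕ → Type) (α : ∀ j : ℕ, I j → (hq j ⟶ timesF T ⋙ E)),
    (∀ B : GrpCat.{0}, 𝓑 B → Inj α B) → Inj α G

section Base

variable {𝓑 : GrpCat.{0} → Prop} {E : GrpCat.{0} ⥤ ModuleCat.{0} ℚ}

theorem inj_iff {I : ℕ → Type} {α : ∀ j : ℕ, I j → (hq j ⟶ E)} {G : Type} [Group G] :
    Inj α G ↔ Function.Injective (tb (dg (I := I)) (fam α) G) := LinearMap.ker_eq_bot

theorem inj_detect {I : ℕ → Type} {α : ∀ j : ℕ, I j → (hq j ⟶ E)} {G : Type} [Group G]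
    (h : ∀ (j : ℕ) (x : HQ j G), x ≠ 0 → ∃ (K : Type) (_ : Group K) (f : G →* K),
      Inj α K ∧ hqMap f j x ≠ 0) : Inj α G := by
  change LinearMap.ker (tb (dg (I := I)) (fam α) G) = ⊥
  rw [eq_bot_iff]
  intro x hx
  rw [Submodule.mem_bot]
  apply DFunLike.ext
  intro p
  change x p = 0
  by_contra hne
  obtain ⟨K, _, f, hK, hf⟩ := h p.1 (x p) hne
  apply hf
  have h1 : LinearMap.ker (tb (dg (I := I)) (fam α) K) = ⊥ := hK
  have h2 : hbMap (dg (I := I)) f x ∈ LinearMap.ker (tb (dg (I := I)) (fam α) K) :=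
    LinearMap.mem_ker.mpr (tb_map _ _ f (LinearMap.mem_ker.mp hx))
  rw [h1, Submodule.mem_bot] at h2
  rw [← hbMap_apply, h2]
  rfl

theorem inj_of_retract {I : ℕ → Type} {α : ∀ j : ℕ, I j → (hq j ⟶ E)} {G K : Type} [Group G]
    [Group K] (h : Inj α K) (f : G →* K) (g : K →* G) (hgf : g.comp f = MonoidHom.id G) :
    Inj α G :=
  inj_detect fun j x hx => ⟨K, inferInstance, f, h, fun h0 => hx (hqMap_inj j f g hgf (by
    rw [h0, map_zero]))⟩

theorem RDet.base {B : Type} [Group B] (h : 𝓑 (GrpCat.of B)) : RDet 𝓑 E B :=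
  fun _ _ _ _ hα => hα (GrpCat.of B) h

theorem RDet.detect {G : Type} [Group G] (h : ∀ (j : ℕ) (x : HQ j G), x ≠ 0 →
    ∃ (K : Type) (_ : Group K) (f : G →* K), RDet 𝓑 E K ∧ hqMap f j x ≠ 0) : RDet 𝓑 E G := by
  intro T _ I α hα
  apply inj_detect
  intro j x hx
  obtain ⟨K, iK, f, h1, h2⟩ := h j x hx
  exact ⟨K, iK, f, h1 T I α hα, h2⟩

theorem RDet.of_inj {G K : Type} [Group G] [Group K] (h : RDet 𝓑 E K) (f : G →* K)
    (hf : ∀ (j : ℕ) (x : HQ j G), hqMap f j x = 0 → x = 0) : RDet 𝓑 E G :=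
  RDet.detect fun j x hx => ⟨K, inferInstance, f, h, fun h0 => hx (hf j x h0)⟩

theorem RDet.of_retract {G K : Type} [Group G] [Group K] (h : RDet 𝓑 E K) (f : G →* K)
    (g : K →* G) (hgf : g.comp f = MonoidHom.id G) : RDet 𝓑 E G :=
  h.of_inj f fun j x hx => hqMap_inj j f g hgf (by rw [hx, map_zero])

theorem RDet.congr {G K : Type} [Group G] [Group K] (h : RDet 𝓑 E K) (e : G ≃* K) :
    RDet 𝓑 E G :=
  h.of_retract e.toMonoidHom e.symm.toMonoidHom (MonoidHom.ext fun x => e.symm_apply_apply x)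

/-- Injectivity on a direct product is injectivity of the family `x ↦ α(x × w)`. -/
theorem inj_gam {T : Type} [Group T] {I : ℕ → Type} {α : ∀ j : ℕ, I j → (hq j ⟶ timesF T ⋙ E)}
    (G H : Type) [Group G] [Group H] : Inj (gam α H) G ↔ Inj α (G × H) := by
  rw [inj_iff, inj_iff]
  constructor
  · intro h x x' hxx
    obtain ⟨y, rfl⟩ := crs_surjective (I := I) x
    obtain ⟨y', rfl⟩ := crs_surjective (I := I) x'
    congr 1
    apply h
    rw [← tb_crs, ← tb_crs]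
    exact congrArg (emap E (psi G H T)) hxx
  · intro h y y' hyy
    rw [← tb_crs, ← tb_crs] at hyy
    exact crs_injective (h (psi_inj G H T hyy))

theorem inj_swap {T : Type} [Group T] {I : ℕ → Type} {α : ∀ j : ℕ, I j → (hq j ⟶ timesF T ⋙ E)}
    {G H : Type} [Group G] [Group H] (h : Inj α (G × H)) : Inj α (H × G) :=
  inj_of_retract h (MulEquiv.prodComm : H × G ≃* G × H).toMonoidHom
    (MulEquiv.prodComm : G × H ≃* H × G).toMonoidHom rfl

/-- **Direct products.** -/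
theorem RDet.prod (h𝓑 : ∀ B B' : GrpCat.{0}, 𝓑 B → 𝓑 B' → 𝓑 (GrpCat.of (B × B')))
    {G H : Type} [Group G] [Group H] (hG : RDet 𝓑 E G) (hH : RDet 𝓑 E H) :
    RDet 𝓑 E (G × H) := by
  intro T _ I α hα
  have h1 : ∀ A : GrpCat.{0}, 𝓑 A → Inj (gam α A) H := fun A hA =>
    hH (A × T) (IX I A) (gam α A) fun B hB => (inj_gam B A).mpr (hα _ (h𝓑 B A hB hA))
  have h2 : ∀ A : GrpCat.{0}, 𝓑 A → Inj (gam α H) A := fun A hA =>
    (inj_gam A H).mpr (inj_swap ((inj_gam H A).mp (h1 A hA)))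
  exact (inj_gam G H).mp (hG (H × T) (IX I H) (gam α H) h2)

theorem RDet.trivial {B : GrpCat.{0}} (hB : 𝓑 B) (F : Type) [Group F] [Subsingleton F] :
    RDet 𝓑 E F :=
  RDet.of_retract (RDet.base hB) (1 : F →* B) (1 : B →* F)
    (MonoidHom.ext fun x => Subsingleton.elim _ _)

theorem RDet.finite {B : GrpCat.{0}} (hB : 𝓑 B) (F : Type) [Group F] [Finite F] : RDet 𝓑 E F :=
  (RDet.trivial hB (Zn 0)).of_inj (1 : F →* Zn 0) fun j x hx => hq_finite_inj _ j x hx

section Pi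

theorem RDet.pi {B : GrpCat.{0}} (hB : 𝓑 B)
    (h𝓑 : ∀ B B' : GrpCat.{0}, 𝓑 B → 𝓑 B' → 𝓑 (GrpCat.of (B × B'))) {ι : Type} [Finite ι] :
    ∀ (P : ι → Type) [∀ i, Group (P i)],
      (∀ i, RDet 𝓑 E (P i)) → RDet 𝓑 E (∀ i, P i) := by
  induction ι using Finite.induction_empty_option with
  | of_equiv e ih =>
    intro P _ hP
    let f : (∀ b, P b) →* (∀ a, P (e a)) :=
      { toFun := fun x a => x (e a), map_one' := rfl, map_mul' := fun _ _ => rfl }
    have hf : Function.Bijective f := by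
      constructor
      · intro x y hxy
        funext b
        obtain ⟨a, rfl⟩ := e.surjective b
        exact congrFun hxy a
      · intro y
        refine ⟨fun b => (Equiv.piCongrLeft P e) y b, ?_⟩
        funext a
        exact Equiv.piCongrLeft_apply_apply P e y a
    exact (ih (fun a => P (e a)) (fun a => hP (e a))).congr (MulEquiv.ofBijective f hf)
  | h_empty =>
    intro P _ _
    exact RDet.trivial hB _
  | h_option ih =>
    intro P _ hP
    have h1 := (hP none).prod h𝓑 (ih (fun a => P (some a)) (fun a => hP (some a)))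
    let f : (∀ o, P o) →* P none × (∀ a, P (some a)) :=
      { toFun := fun x => (x none, fun a => x (some a)), map_one' := rfl
        map_mul' := fun _ _ => rfl }
    have hf : Function.Bijective f := by
      constructor
      · intro x y hxy
        funext o
        cases o with
        | none => exact congrArg Prod.fst hxy
        | some a => exact congrFun (congrArg Prod.snd hxy) a
      · rintro ⟨p, y⟩
        refine ⟨fun o => match o with
          | none => p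
          | some a => y a, rfl⟩
    exact h1.congr (MulEquiv.ofBijective f hf)

end Pi

/-- Groups with a system of supports. -/
theorem RDet.sys (hE : HasPT E) {Γ N V : Type} [Group Γ] [Group N] [MulAction Γ V]
    (s : Sys Γ N V) (Adj : V → V → Prop) (hA : s.IsAdj Adj)
    (h : ∀ σ : Sys.Cliq Adj, RDet 𝓑 E (s.supG σ.1)) : RDet 𝓑 E s.G := by
  intro T _ I α hα
  have h1 := sys_genSub (hE.times T) (fun p : Σ j, I j => α p.1 p.2) s Adj hA
  unfold GenSub at h1
  change kerFam (fun p : Σ j, I j => α p.1 p.2) (GrpCat.of s.G) = ⊥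
  rw [h1, eq_bot_iff]
  apply iSup_le
  intro σ
  have h2 : kerFam (fun p : Σ j, I j => α p.1 p.2) (GrpCat.of (s.supG σ.1)) = ⊥ := h σ T I α hα
  rw [h2, Submodule.map_bot]

theorem RDet.sys_sep (hE : HasPT E) {Γ N V : Type} [Group Γ] [Group N] [MulAction Γ V]
    (s : Sys Γ N V) (h : ∀ σ : s.Cl, RDet 𝓑 E (s.supG σ.1)) : RDet 𝓑 E s.G :=
  RDet.sys hE s (fun u v => ¬ s.Sep u v) s.isAdj_sep h

/-- Directed colimits. -/
theorem RDet.colim (hE : Cont E) {J : Type} [Preorder J] [IsDirected J (· ≤ ·)] [Nonempty J]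
    {P : J → Type} [∀ i, Group (P i)] {G : Type} [Group G] {f : ∀ i j, i ≤ j → (P i →* P j)}
    {g : ∀ i, P i →* G} (h : DCG P f G g) (hP : ∀ i, RDet 𝓑 E (P i)) : RDet 𝓑 E G := by
  intro T _ I α hα
  rw [inj_iff, injective_iff_map_eq_zero]
  intro x hx
  obtain ⟨i, y, rfl⟩ := h.hb_surj (dg (I := I)) x
  have h1 : emap (timesF T ⋙ E) (g i) (tb (dg (I := I)) (fam α) (P i) y) = 0 := by
    rw [tb_nat]
    exact hx
  obtain ⟨j, hj, h2⟩ := hE J (fun i => P i × T) (fun i j hij => timesT (f i j hij) T) (G × T)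
    (fun i => timesT (g i) T) (h.times T) i (tb (dg (I := I)) (fam α) (P i) y) h1
  have h3 : tb (dg (I := I)) (fam α) (P j) (hbMap (dg (I := I)) (f i j hj) y) = 0 := by
    rw [← tb_nat]
    exact h2
  have h5 : hbMap (dg (I := I)) (f i j hj) y = 0 :=
    (injective_iff_map_eq_zero _).mp (inj_iff.mp (hP j T I α hα)) _ h3
  rw [← h.comp_t hj, hbMap_comp, h5, map_zero]

end Base

section Ops

variable {𝓑 : GrpCat.{0} → Prop} {E : GrpCat.{0} ⥤ ModuleCat.{0} ℚ} {B₀ : GrpCat.{0}}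
  (h₀ : 𝓑 B₀) (h𝓑 : ∀ B B' : GrpCat.{0}, 𝓑 B → 𝓑 B' → 𝓑 (GrpCat.of (B × B')))

include h₀ h𝓑

theorem RDet.rw (hE : HasPT E) {K V Γ : Type} [Group K] [Group Γ] [MulAction Γ V]
    (hK : RDet 𝓑 E K) (hΓ : ∀ σ : Finset V, RDet 𝓑 E (fixingSubgroup Γ (σ : Set V))) :
    RDet 𝓑 E (RW K V Γ) := by
  refine RDet.sys hE (rfSys K V Γ) (fun _ _ => True)
    ⟨fun _ _ _ _ => True.intro, fun _ _ _ h => absurd True.intro h⟩ ?_
  intro σ
  exact ((RDet.pi h₀ h𝓑 (fun _ : σ.1 => K) fun _ => hK).prod h𝓑 (hΓ σ.1)).of_retract (supTo σ.1)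
    (supFrom σ.1) (supFrom_supTo σ.1)

theorem RDet.fw (hE : HasPT E) {K V Γ : Type} [Group K] [Group Γ] [MulAction Γ V]
    (hK : RDet 𝓑 E K) (hΓ : ∀ σ : Finset V, RDet 𝓑 E (fixingSubgroup Γ (σ : Set V))) :
    RDet 𝓑 E (FW K V Γ) :=
  (RDet.rw h₀ h𝓑 (V := V) (Γ := Γ) hE hK hΓ).of_retract fwTo fwFrom rfl

theorem RDet.virt (hE : HasPT E) {G : Type} [Group G] (H : Subgroup G) [H.FiniteIndex]
    (hH : RDet 𝓑 E H) : RDet 𝓑 E G := by
  have h1 : RDet 𝓑 E (WP H (G ⧸ H)) :=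
    (RDet.rw h₀ h𝓑 (V := G ⧸ H) (Γ := Equiv.Perm (G ⧸ H)) hE hH
      fun _ => RDet.finite h₀ _).of_retract wpTo wpFrom rfl
  exact h1.of_inj (kkH H) fun j x hx => kkH_inj H j x hx

theorem RDet.gp (hE : HasPT E) {Γ V : Type} [Group Γ] [MulAction Γ V] {P : V → Type}
    [∀ v, Group (P v)] (Λ : SimpleGraph V) {ρ : Γ →* MulAut (CoprodI P)} (hP : Permutes ρ)
    (hI : Preserves ρ (graphRel (P := P) Λ)) (hρ : Rigid ρ) (hK : ∀ v, RDet 𝓑 E (P v))
    (hΓ : ∀ σ : Finset V, Λ.IsClique (σ : Set V) → RDet 𝓑 E (fixingSubgroup Γ (σ : Set V))) :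
    RDet 𝓑 E (GP P Λ ⋊[qAct hI] Γ) := by
  refine RDet.sys hE (gpSys Λ hP hI) (Linked (graphRel (P := P) Λ))
    (locSys_adj (graphRel_local Λ) hP hI) ?_
  intro σ
  have hσ : Λ.IsClique (σ.1 : Set V) := by
    intro a ha b hb hab
    exact graphRel_linked Λ hab (σ.2 a ha b hb hab)
  refine ((RDet.pi h₀ h𝓑 (fun v : σ.1 => P v) fun v => hK v).prod h𝓑 (hΓ σ.1 hσ)).of_retract
    (gpTo Λ hP hI hρ σ.1) (gpFrom Λ hP hI hρ hσ) ?_
  apply MonoidHom.ext
  intro w
  apply Subtype.ext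
  apply SemidirectProduct.ext
  · exact clique_proj Λ hσ w.2.1
  · rfl

theorem RDet.graph (hE : HasPT E) {V : Type} {P : V → Type} [∀ v, Group (P v)]
    (Λ : SimpleGraph V) (hK : ∀ v, RDet 𝓑 E (P v)) : RDet 𝓑 E (GP P Λ) := by
  let _ := unitAct V
  have hP : Permutes (1 : Unit →* MulAut (CoprodI P)) := fun _ _ x => ⟨x, rfl⟩
  have hI : Preserves (1 : Unit →* MulAut (CoprodI P)) (graphRel (P := P) Λ) := fun _ _ hr => hr
  have h1 := RDet.gp h₀ h𝓑 hE Λ hP hI (fun _ _ _ _ => rfl) hK (fun σ _ => RDet.finite h₀ _)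
  have h2 : ∀ (γ : Unit) (n : GP P Λ), qAct hI γ n = n := by
    intro γ n
    obtain ⟨y, rfl⟩ := QuotientGroup.mk_surjective n
    rfl
  refine h1.of_retract (SemidirectProduct.inl : GP P Λ →* GP P Λ ⋊[qAct hI] Unit)
    { toFun := fun w => w.left
      map_one' := rfl
      map_mul' := fun a b => by rw [SemidirectProduct.mul_left, h2] } rfl

end Ops

end Pool.Agent.N506
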