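import Mathlib

/-!
The limit of a family of linear maps to Hilbert spaces along an ultrafilter.
-/

set_option autoImplicit false

namespace Pool.Agent.N506

open Filter Topology UniformSpace ComplexConjugate

section UL

variable {J : Type} (U : Ultrafilter J) {V : Type} [AddCommGroup V] [Module ℂ V] (H : J → Type)
  [∀ j, NormedAddCommGroup (H j)] [∀ j, InnerProductSpace ℂ (H j)] (v : ∀ j, V →ₗ[ℂ] H j)

/-- A family of linear maps which is bounded on each vector. -/
structure ULData where
  bdd : ∀ a : V, ∃ C : ℝ, ∀ j, ‖v j a‖ ≤ C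

variable {H v}

/-- The limit of the inner products. -/
noncomputable def ulim (v : ∀ j, V →ₗ[ℂ] H j) (a b : V) : ℂ :=
  limUnder (U : Filter J) fun j => inner ℂ (v j a) (v j b)

variable (D : ULData H v)

include D in
theorem tendsto_ulim (a b : V) :
    Tendsto (fun j => inner ℂ (v j a) (v j b)) (U : Filter J) (𝓝 (ulim U v a b)) := by
  obtain ⟨C, hC⟩ := D.bdd a
  obtain ⟨C', hC'⟩ := D.bdd b
  have h1 : ∀ j, inner ℂ (v j a) (v j b) ∈ Metric.closedBall (0 : ℂ) (C * C') := by
    intro j
    rw [mem_closedBall_zero_iff]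
    refine (norm_inner_le_norm _ _).trans ?_
    exact mul_le_mul (hC j) (hC' j) (norm_nonneg _) ((norm_nonneg _).trans (hC j))
  obtain ⟨x, -, hx⟩ := (isCompact_closedBall (0 : ℂ) (C * C')).ultrafilter_le_nhds'
    (U.map fun j => inner ℂ (v j a) (v j b)) (Ultrafilter.mem_map.mpr (Filter.univ_mem' h1))
  exact tendsto_nhds_limUnder ⟨x, hx⟩

set_option linter.unusedVariables false in
/-- The limit space. -/
@[nolint unusedArguments]
def ULim (U : Ultrafilter J) (D : ULData H v) : Type := V

instance : AddCommGroup (ULim U D) := inferInstanceAs (AddCommGroup V)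
instance : Module ℂ (ULim U D) := inferInstanceAs (Module ℂ V)

/-- The pre-inner product. -/
noncomputable abbrev ulCore : PreInnerProductSpace.Core ℂ (ULim U D) where
  inner a b := ulim U v a b
  conj_inner_symm a b := by
    have h1 := tendsto_ulim U D b a
    have h2 := (Complex.continuous_conj.tendsto _).comp h1
    refine tendsto_nhds_unique h2 ?_
    have h3 := tendsto_ulim U D a b
    refine h3.congr fun j => ?_
    rw [Function.comp_apply, inner_conj_symm]
  re_inner_nonneg a := by
    have h1 := (Complex.continuous_re.tendsto _).comp (tendsto_ulim U D a a)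
    refine ge_of_tendsto' h1 fun j => ?_
    exact inner_self_nonneg (𝕜 := ℂ)
  add_left a b c := by
    refine tendsto_nhds_unique (tendsto_ulim U D (show V from a + b) c) ?_
    refine ((tendsto_ulim U D a c).add (tendsto_ulim U D b c)).congr fun j => ?_
    have h : v j (a + b : V) = v j a + v j b := map_add (v j) (a : V) (b : V)
    exact (by rw [h, inner_add_left] :
      inner ℂ (v j a) (v j c) + inner ℂ (v j b) (v j c) = inner ℂ (v j (a + b : V)) (v j c))
  smul_left a b r := by
    refine tendsto_nhds_unique (tendsto_ulim U D (show V from r • a) b) ?_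
    refine ((tendsto_ulim U D a b).const_mul (conj r)).congr fun j => ?_
    have h : v j (r • a : V) = r • v j a := map_smul (v j) r (a : V)
    exact (by rw [h, inner_smul_left] :
      conj r * inner ℂ (v j a) (v j b) = inner ℂ (v j (r • a : V)) (v j b))

noncomputable instance : SeminormedAddCommGroup (ULim U D) :=
  InnerProductSpace.Core.toSeminormedAddCommGroup (c := ulCore U D)

noncomputable instance : InnerProductSpace ℂ (ULim U D) := InnerProductSpace.ofCore (ulCore U D)

theorem ul_norm_sq (a : ULim U D) :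
    Tendsto (fun j => ‖v j a‖ ^ 2) (U : Filter J) (𝓝 (‖a‖ ^ 2)) := by
  have h1 := (Complex.continuous_re.tendsto _).comp (tendsto_ulim U D a a)
  have h2 : ‖a‖ ^ 2 = (ulim U v a a).re := InnerProductSpace.norm_sq_eq_re_inner (𝕜 := ℂ) a
  rw [h2]
  refine h1.congr fun j => ?_
  exact (InnerProductSpace.norm_sq_eq_re_inner (𝕜 := ℂ) (v j a)).symm

theorem ul_norm_le {a b : ULim U D} (h : ∀ᶠ j in (U : Filter J), ‖v j a‖ ≤ ‖v j b‖) :
    ‖a‖ ≤ ‖b‖ := by
  have h1 : ‖a‖ ^ 2 ≤ ‖b‖ ^ 2 := by
    refine le_of_tendsto_of_tendsto (ul_norm_sq U D a) (ul_norm_sq U D b) ?_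
    filter_upwards [h] with j hj
    gcongr
  exact (sq_le_sq₀ (norm_nonneg _) (norm_nonneg _)).mp h1

theorem ul_le_norm {a : ULim U D} {c : ℝ} (hc : 0 ≤ c)
    (h : ∀ᶠ j in (U : Filter J), c ≤ ‖v j a‖) : c ≤ ‖a‖ := by
  have h1 : c ^ 2 ≤ ‖a‖ ^ 2 := by
    refine ge_of_tendsto (ul_norm_sq U D a) ?_
    filter_upwards [h] with j hj
    gcongr
  exact (sq_le_sq₀ hc (norm_nonneg _)).mp h1

theorem ul_norm_le_const {a : ULim U D} {c : ℝ} (hc : 0 ≤ c)
    (h : ∀ᶠ j in (U : Filter J), ‖v j a‖ ≤ c) : ‖a‖ ≤ c := by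
  have h1 : ‖a‖ ^ 2 ≤ c ^ 2 := by
    refine le_of_tendsto (ul_norm_sq U D a) ?_
    filter_upwards [h] with j hj
    gcongr
  exact (sq_le_sq₀ (norm_nonneg _) hc).mp h1

end UL

end Pool.Agent.N506
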